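import Pool.Agent.H72.CC.Psi
import Pool.Agent.H72.CC.Cyl
import Pool.Agent.H72.CC.Cut
import Pool.Agent.H72.CC.Newt
import Pool.Agent.H87.NC.Defs
import Pool.Agent.H87.NS.TI
import Pool.Agent.H87.NS.Bds1
import Pool.Agent.H87.NS.Vort

/-! Axially symmetric flows with `|r u_r| ≤ C`: definitions. -/

set_option autoImplicit false

open Set Filter Topology MeasureTheory
open scoped ContDiff

namespace Pool.Agent.H16.TU

open Pool.Agent.H16 Pool.Agent.H87.NS Pool.Agent.H72.CC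

/-- Length of the horizontal gradient. -/
noncomputable def hg (f : E3 → ℝ) (x : E3) : ℝ := √(pd 0 f x ^ 2 + pd 1 f x ^ 2)

/-- `|∇v|²`. -/
noncomputable def gv (v : E3 → E3) (x : E3) : ℝ := ∑ j : Fin 3, gsq (fun y => v y j) x

/-- Length of the horizontal part. -/
noncomputable def hn (v : E3 → E3) (x : E3) : ℝ := √(v x 0 ^ 2 + v x 1 ^ 2)

/-- The weights `(1 + r² / R²)⁻² (1 + (x₂ - z)² / L²)⁻¹`. -/
noncomputable def wt (R L z : ℝ) (x : E3) : ℝ := ((1 + rsq x / R ^ 2) ^ 2)⁻¹ * (1 + (x 2 - z) ^ 2 / L ^ 2)⁻¹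

/-- Weights with logarithmic gradient at most `c`. -/
structure Wc (c : ℝ) (Ψ : E3 → ℝ) : Prop where
  sm : ContDiff ℝ ∞ Ψ
  nn : ∀ x, 0 ≤ Ψ x
  le : ∀ x, Ψ x ≤ 1
  int : Integrable Ψ
  g1 : ∀ i x, |pd i Ψ x| ≤ c * Ψ x
  g2 : ∀ i x, |pd i (pd i Ψ) x| ≤ c ^ 2 * Ψ x

/-- Slices of the flow: `κ` controls the horizontal part, `N` the stream function. -/
structure Sl (κ N : ℝ) (v : E3 → E3) : Prop where
  ax : AxF v
  db : ∃ K : ℝ, ∀ j : Fin 3, DB 4 K (fun x => v x j)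
  one : 1 ≤ κ
  le : κ ≤ N
  hor : ∀ x, rad x * hn v x ≤ κ * (1 + rad x)
  str : ∀ x, rad x * |sP v x| ≤ N

/-- Weighted energy. -/
noncomputable def SS (v : E3 → E3) (Ψ : E3 → ℝ) : ℝ := ∫ x, ‖v x‖ ^ 2 * Ψ x

/-- Weighted dissipation. -/
noncomputable def DD (v : E3 → E3) (Ψ : E3 → ℝ) : ℝ := ∫ x, gv v x * Ψ x

/-- Weighted fourth moment. -/
noncomputable def QQ (v : E3 → E3) (Ψ : E3 → ℝ) : ℝ := ∫ x, ‖v x‖ ^ 4 * Ψ x

/-- Volume of a weight. -/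
noncomputable def VV (Ψ : E3 → ℝ) : ℝ := ∫ x, Ψ x

/-- The near kernel `|x|⁻²`, `|x| < l`, applied to `|g|`. -/
noncomputable def NE (l : ℝ) (g : E3 → ℝ) (y : E3) : ℝ := ∫ x in Metric.ball y l, (‖x - y‖ ^ 2)⁻¹ * |g x|

/-- The far kernel `max(|x|, l)⁻³` applied to `|g|`. -/
noncomputable def FA (l : ℝ) (g : E3 → ℝ) (y : E3) : ℝ := ∫ x, ((max ‖x - y‖ l) ^ 3)⁻¹ * |g x|

/-- `∂_i ∂_j (v_i v_j)` for a divergence free field. -/
noncomputable def src2 (v : E3 → E3) (x : E3) : ℝ :=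
  ∑ i : Fin 3, ∑ j : Fin 3, pd i (fun y => v y j) x * pd j (fun y => v y i) x

/-- Regularised Newton kernel. -/
noncomputable def nk (ε : ℝ) (x : E3) : ℝ := (‖x‖ ^ 2 + ε ^ 2) ^ (-(1/2) : ℝ)

/-- Regularised pressure. -/
noncomputable def qe (ε : ℝ) (v : E3 → E3) (x : E3) : ℝ := (∫ y, nk ε (x - y) * src2 v y) / c0

/-- `z_k |z|⁻³`, minus the gradient of the Newton kernel. -/
noncomputable def M0 (k : Fin 3) (z : E3) : ℝ := z k * (‖z‖ ^ 3)⁻¹

/-- Near part of the kernel. -/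
noncomputable def k1 (ε l : ℝ) (x : E3) : ℝ := zc (l / 2) l x * nk ε x

/-- Far part of the kernel. -/
noncomputable def k2 (ε l : ℝ) (x : E3) : ℝ := (1 - zc (l / 2) l x) * nk ε x

/-- Divergence of a triple of functions. -/
noncomputable def dv (F : Fin 3 → E3 → ℝ) (x : E3) : ℝ := ∑ k : Fin 3, pd k (F k) x

/-- Test fields: once continuously differentiable, bounded and integrable with their first derivatives. -/
structure TF (F : E3 → ℝ) : Prop where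
  c1 : ContDiff ℝ 1 F
  int : Integrable F
  intd : ∀ i, Integrable (pd i F)
  bd : ∃ B : ℝ, ∀ x, |F x| ≤ B ∧ ∀ i, |pd i F x| ≤ B

/-- Smooth, divergence free, bounded and square integrable with its derivatives. -/
structure Vf (v : E3 → E3) : Prop where
  sm : ContDiff ℝ ∞ v
  div : ∀ x, ∑ i : Fin 3, fderiv ℝ v x (e i) i = 0
  db : ∃ K : ℝ, ∀ j : Fin 3, DB 4 K (fun x => v x j)

theorem Sl.vf {κ N : ℝ} {v : E3 → E3} (h : Sl κ N v) : Vf v := ⟨h.ax.smooth, h.ax.div, h.db⟩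

/-- The hypothesis on the flow up to the time `t₀`: the stream function is at most `N`. -/
def UpTo (T : ℝ) (u : ℝ → E3 → E3) (κ N t₀ : ℝ) : Prop := t₀ ∈ Ico 0 T ∧ ∀ t ∈ Icc 0 t₀, Sl κ N (u t)

/-- The bounds of Theorem A with the constant `M`: energy and dissipation at all scales. -/
def Bd (u : ℝ → E3 → E3) (N Z t₀ M : ℝ) : Prop :=
  ∀ t ∈ Icc 0 t₀, ∀ R z : ℝ, 0 < R → SS (u t) (wt R (Z * N * R) z) ≤ M * N ^ 3 * R ∧
    ∫ s in (max (t - R ^ 2) 0)..t, DD (u s) (wt R (Z * N * R) z) ≤ M * N ^ 3 * R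

end Pool.Agent.H16.TU
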