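/-
ROW Ba (MP_09540e_TU). Basic facts. PROOF. wi: bounded continuous times integrable (Integrable.bdd_mul). ba_tf: product rule (Psi_mul), `|pd i Ψ| ≤ c Ψ`, so the derivatives of `f Ψ` are bounded by `K Ψ + K |c| Ψ`, integrable. ba_hg: `hg (fΨ) ≤ hg f Ψ + |f| hg Ψ` (triangle inequality in the plane for `(pd 0, pd 1)` of the product).
ba_hgw: `hg Ψ ≤ 2 c Ψ`. ba_vf: the components are in DB 4 (so `|v_j| ≤ K`, `|pd i v_j| ≤ K`, DB_BL, DB_pd), `‖v‖² = v₀²+v₁²+v₂²` (norm_sq_eq), gv a sum of 9 squares; `‖v‖²` and `gv v` are integrable (BL: squares integrable; gsq_int in IBP.lean). ba_gvc: continuity.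
ibpI: integral_mul_fderiv_eq_neg_fderiv_mul_of_integrable (Mathlib) with the vector `e i`. ba_wc: `x ↦ ‖v x‖² Ψ x` etc. integrable: wi.
-/
import Pool.Agent.H16.TU.Defs

set_option autoImplicit false

open Set Filter Topology MeasureTheory
open scoped ContDiff

namespace Pool.Agent.H16.TU

open Pool.Agent.H16 Pool.Agent.H87.NS Pool.Agent.H72.CC

theorem ibpI {f g : E3 → ℝ} (hf : Differentiable ℝ f) (hg : Differentiable ℝ g) (i : Fin 3)
    (h1 : Integrable (fun x => pd i f x * g x)) (h2 : Integrable (fun x => f x * pd i g x)) (h3 : Integrable (fun x => f x * g x)) :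
    ∫ x, f x * pd i g x = - ∫ x, pd i f x * g x := by
  exact integral_mul_fderiv_eq_neg_fderiv_mul_of_integrable (v := e i) h1 h2 h3
    (fun x _ => hf x) (fun x _ => hg x)

private theorem Ba_K {K : ℝ} {f : E3 → ℝ} (hb : ∀ x, |f x| ≤ K) : 0 ≤ K :=
  (abs_nonneg _).trans (hb 0)

theorem wi {c K : ℝ} {Ψ f : E3 → ℝ} (w : Wc c Ψ) (hf : Continuous f) (hb : ∀ x, |f x| ≤ K) : Integrable (fun x => f x * Ψ x) := by
  refine Integrable.mono' (w.int.const_mul K) (hf.mul w.sm.continuous).aestronglyMeasurable ?_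
  refine Filter.Eventually.of_forall fun x => ?_
  rw [Real.norm_eq_abs, abs_mul, abs_of_nonneg (w.nn x)]
  exact mul_le_mul_of_nonneg_right (hb x) (w.nn x)

theorem wi_le {c K : ℝ} {Ψ f : E3 → ℝ} (w : Wc c Ψ) (hf : Continuous f) (hb : ∀ x, |f x| ≤ K) : |∫ x, f x * Ψ x| ≤ K * VV Ψ := by
  have h0 := wi w hf hb
  have h1 : |∫ x, f x * Ψ x| ≤ ∫ x, |f x * Ψ x| := abs_integral_le_integral_abs
  have h2 : ∫ x, |f x * Ψ x| ≤ ∫ x, K * Ψ x := by
    refine integral_mono h0.abs (w.int.const_mul K) fun x => ?_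
    show |f x * Ψ x| ≤ K * Ψ x
    rw [abs_mul, abs_of_nonneg (w.nn x)]
    exact mul_le_mul_of_nonneg_right (hb x) (w.nn x)
  rw [integral_const_mul] at h2
  exact h1.trans h2

theorem ba_tf {c K : ℝ} {Ψ f : E3 → ℝ} (w : Wc c Ψ) (hf : ContDiff ℝ 1 f) (hb : ∀ x, |f x| ≤ K ∧ ∀ i, |pd i f x| ≤ K) :
    TF (fun x => f x * Ψ x) := by
  have hK : 0 ≤ K := Ba_K fun x => (hb x).1
  have hΨ : ContDiff ℝ 1 Ψ := w.sm.of_le (by exact_mod_cast le_top)
  have hpd : ∀ i x, pd i (fun x => f x * Ψ x) x = pd i f x * Ψ x + f x * pd i Ψ x := fun i x =>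
    Psi_mul (hf.differentiable one_ne_zero x) (hΨ.differentiable one_ne_zero x) i
  have hc : ∀ x, 0 ≤ c * Ψ x := fun x => (abs_nonneg _).trans (w.g1 0 x)
  have hle : ∀ i x, |pd i (fun x => f x * Ψ x) x| ≤ (K + K * c) * Ψ x := by
    intro i x
    rw [hpd]
    have h1 : |pd i f x * Ψ x| ≤ K * Ψ x := by
      rw [abs_mul, abs_of_nonneg (w.nn x)]
      exact mul_le_mul_of_nonneg_right ((hb x).2 i) (w.nn x)
    have h2 : |f x * pd i Ψ x| ≤ K * (c * Ψ x) := by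
      rw [abs_mul]
      exact mul_le_mul (hb x).1 (w.g1 i x) (abs_nonneg _) hK
    have h3 := abs_add_le (pd i f x * Ψ x) (f x * pd i Ψ x)
    nlinarith
  refine ⟨hf.mul hΨ, wi w hf.continuous fun x => (hb x).1, fun i => ?_, K + K * |c|, fun x => ⟨?_, fun i => ?_⟩⟩
  · refine Integrable.mono' (w.int.const_mul (K + K * c)) (pd_cont (hf.mul hΨ) i).aestronglyMeasurable ?_
    refine Filter.Eventually.of_forall fun x => ?_
    rw [Real.norm_eq_abs]
    exact hle i x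
  · rw [abs_mul, abs_of_nonneg (w.nn x)]
    have h1 := mul_le_mul (hb x).1 (w.le x) (w.nn x) hK
    have h2 : 0 ≤ K * |c| := by positivity
    linarith
  · have h1 := hle i x
    have h2 : c * Ψ x ≤ |c| * 1 := mul_le_mul (le_abs_self c) (w.le x) (w.nn x) (abs_nonneg c)
    have h3 : K * Ψ x ≤ K * 1 := mul_le_mul_of_nonneg_left (w.le x) hK
    have h4 : K * (c * Ψ x) ≤ K * (|c| * 1) := mul_le_mul_of_nonneg_left h2 hK
    nlinarith

theorem ba_hg {f Ψ : E3 → ℝ} {x : E3} (hf : DifferentiableAt ℝ f x) (hΨ : DifferentiableAt ℝ Ψ x) :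
    hg (fun y => f y * Ψ y) x ≤ hg f x * |Ψ x| + |f x| * hg Ψ x := by
  unfold hg
  rw [Psi_mul hf hΨ, Psi_mul hf hΨ]
  set a := pd 0 f x
  set b := pd 1 f x
  set a' := pd 0 Ψ x
  set b' := pd 1 Ψ x
  set p := Ψ x
  set q := f x
  have hA : 0 ≤ √(a ^ 2 + b ^ 2) := Real.sqrt_nonneg _
  have hB : 0 ≤ √(a' ^ 2 + b' ^ 2) := Real.sqrt_nonneg _
  have hA2 : √(a ^ 2 + b ^ 2) ^ 2 = a ^ 2 + b ^ 2 := Real.sq_sqrt (by positivity)
  have hB2 : √(a' ^ 2 + b' ^ 2) ^ 2 = a' ^ 2 + b' ^ 2 := Real.sq_sqrt (by positivity)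
  set A := √(a ^ 2 + b ^ 2)
  set B := √(a' ^ 2 + b' ^ 2)
  have h0 : 0 ≤ A * |p| + |q| * B := by positivity
  refine Real.sqrt_le_iff.2 ⟨h0, ?_⟩
  have hcs : |a * a' + b * b'| ≤ A * B := by
    refine abs_le_of_sq_le_sq ?_ (mul_nonneg hA hB)
    rw [mul_pow, hA2, hB2]
    nlinarith [sq_nonneg (a * b' - b * a')]
  have h1 : p * q * (a * a' + b * b') ≤ |p| * |q| * (A * B) := by
    refine (le_abs_self _).trans ?_
    rw [abs_mul, abs_mul]
    exact mul_le_mul_of_nonneg_left hcs (by positivity)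
  have hp : |p| ^ 2 = p ^ 2 := sq_abs p
  have hq : |q| ^ 2 = q ^ 2 := sq_abs q
  have h2 : (A * |p| + |q| * B) ^ 2 = A ^ 2 * |p| ^ 2 + 2 * (|p| * |q| * (A * B)) + |q| ^ 2 * B ^ 2 := by ring
  rw [h2, hp, hq, hA2, hB2]
  nlinarith

private theorem Ba_sqrt (a b : ℝ) : √(a ^ 2 + b ^ 2) ≤ |a| + |b| := by
  refine Real.sqrt_le_iff.2 ⟨by positivity, ?_⟩
  have h1 : 0 ≤ |a| * |b| := by positivity
  nlinarith [sq_abs a, sq_abs b]

theorem ba_hgw {c : ℝ} {Ψ : E3 → ℝ} (w : Wc c Ψ) (x : E3) : hg Ψ x ≤ 2 * c * Ψ x := by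
  have h1 := Ba_sqrt (pd 0 Ψ x) (pd 1 Ψ x)
  have h2 := w.g1 0 x
  have h3 := w.g1 1 x
  unfold hg
  linarith

private theorem Ba_comp {v : E3 → E3} (hv : ContDiff ℝ ∞ v) (j : Fin 3) : ContDiff ℝ ∞ (fun y => v y j) :=
  (EuclideanSpace.proj j : E3 →L[ℝ] ℝ).contDiff.comp hv

theorem ba_gvc {v : E3 → E3} (hv : ContDiff ℝ ∞ v) : Continuous (gv v) ∧ Continuous (fun x => ‖v x‖) ∧ Continuous (hn v) := by
  refine ⟨?_, hv.continuous.norm, ?_⟩
  · unfold gv gsq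
    refine continuous_finsetSum _ fun j _ => continuous_finsetSum _ fun i _ => ?_
    exact (pd_cont ((Ba_comp hv j).of_le (by exact_mod_cast le_top)) i).pow 2
  · unfold hn
    exact (((Ba_comp hv 0).continuous.pow 2).add ((Ba_comp hv 1).continuous.pow 2)).sqrt

private theorem Ba_nsq (w : E3) : ‖w‖ ^ 2 = w 0 ^ 2 + w 1 ^ 2 + w 2 ^ 2 := by
  rw [EuclideanSpace.norm_sq_eq, Fin.sum_univ_three]
  simp only [Real.norm_eq_abs, sq_abs]

theorem ba_gv {v : E3 → E3} (x : E3) (i j : Fin 3) : 0 ≤ gv v x ∧ pd i (fun y => v y j) x ^ 2 ≤ gv v x ∧ gsq (fun y => v y j) x ≤ gv v x ∧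
    hg (fun y => v y j) x ≤ √(gv v x) ∧ hn v x ≤ ‖v x‖ ∧ |v x 2| ≤ ‖v x‖ ∧ ‖v x‖ ^ 2 = hn v x ^ 2 + v x 2 ^ 2 := by
  have h1 : gsq (fun y => v y j) x ≤ gv v x := by
    unfold gv
    exact Finset.single_le_sum (f := fun j => gsq (fun y => v y j) x) (fun _ _ => gsq_nonneg _ _)
      (Finset.mem_univ j)
  have h2 : pd i (fun y => v y j) x ^ 2 ≤ gsq (fun y => v y j) x := by
    unfold gsq
    exact Finset.single_le_sum (f := fun i => pd i (fun y => v y j) x ^ 2) (fun _ _ => sq_nonneg _)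
      (Finset.mem_univ i)
  have h3 : hn v x ^ 2 = v x 0 ^ 2 + v x 1 ^ 2 := Real.sq_sqrt (by positivity)
  have h4 := Ba_nsq (v x)
  have h5 : 0 ≤ hn v x := Real.sqrt_nonneg _
  refine ⟨(gsq_nonneg _ _).trans h1, h2.trans h1, h1, ?_, ?_, ?_, ?_⟩
  · unfold hg
    refine Real.sqrt_le_sqrt (le_trans ?_ h1)
    unfold gsq
    rw [Fin.sum_univ_three]
    have := sq_nonneg (pd 2 (fun y => v y j) x)
    linarith
  · refine abs_le_of_sq_le_sq' ?_ (norm_nonneg _) |>.2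
    rw [h4, h3]
    have := sq_nonneg (v x 2)
    linarith
  · refine abs_le_of_sq_le_sq ?_ (norm_nonneg _)
    rw [h4]
    have := sq_nonneg (v x 0)
    have := sq_nonneg (v x 1)
    linarith
  · rw [h4, h3]

theorem ba_vf {v : E3 → E3} (h : Vf v) : ∃ K : ℝ, 0 ≤ K ∧ (∀ x, ‖v x‖ ≤ K ∧ gv v x ≤ K ∧ (∀ i j, |pd i (fun y => v y j) x| ≤ K) ∧
    ∀ i j k, |pd i (pd j (fun y => v y k)) x| ≤ K) ∧ Integrable (fun x => ‖v x‖ ^ 2) ∧ Integrable (gv v) := by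
  obtain ⟨K, hK⟩ := h.db
  have hK0 : 0 ≤ K := BL_nonneg (DB_BL (hK 0))
  have b0 : ∀ j x, |v x j| ≤ K := fun j x => (DB_BL (hK j)).1 x
  have b1 : ∀ i j x, |pd i (fun y => v y j) x| ≤ K := fun i j x => (DB_BL (DB_pd (hK j) i)).1 x
  have b2 : ∀ i j k x, |pd i (pd j (fun y => v y k)) x| ≤ K := fun i j k x =>
    (DB_BL (DB_pd (DB_pd (hK k) j) i)).1 x
  have sqb : ∀ {t : ℝ}, |t| ≤ K → t ^ 2 ≤ K ^ 2 := by
    intro t ht
    have := pow_le_pow_left₀ (abs_nonneg t) ht 2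
    rwa [sq_abs] at this
  refine ⟨3 * K + 9 * K ^ 2, by positivity, fun x => ⟨?_, ?_, fun i j => ?_, fun i j k => ?_⟩, ?_, ?_⟩
  · have h1 : ‖v x‖ ≤ 3 * K := by
      refine abs_le_of_sq_le_sq' ?_ (by positivity) |>.2
      rw [Ba_nsq]
      have h0 := sqb (b0 0 x)
      have h1 := sqb (b0 1 x)
      have h2 := sqb (b0 2 x)
      nlinarith
    have : 0 ≤ K ^ 2 := sq_nonneg K
    linarith
  · have h1 : gv v x ≤ 9 * K ^ 2 := by
      unfold gv gsq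
      simp only [Fin.sum_univ_three]
      have a00 := sqb (b1 0 0 x)
      have a01 := sqb (b1 0 1 x)
      have a02 := sqb (b1 0 2 x)
      have a10 := sqb (b1 1 0 x)
      have a11 := sqb (b1 1 1 x)
      have a12 := sqb (b1 1 2 x)
      have a20 := sqb (b1 2 0 x)
      have a21 := sqb (b1 2 1 x)
      have a22 := sqb (b1 2 2 x)
      linarith
    linarith
  · have := b1 i j x
    have : 0 ≤ K ^ 2 := sq_nonneg K
    linarith
  · have := b2 i j k x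
    have : 0 ≤ K ^ 2 := sq_nonneg K
    linarith
  · have h1 : (fun x => ‖v x‖ ^ 2) = fun x => v x 0 ^ 2 + v x 1 ^ 2 + v x 2 ^ 2 := by
      funext x
      exact Ba_nsq (v x)
    rw [h1]
    exact (((DB_BL (hK 0)).2.1).add (DB_BL (hK 1)).2.1).add (DB_BL (hK 2)).2.1
  · unfold gv
    exact integrable_finsetSum _ fun j _ => (gsq_int (DB_mono (hK j) (by norm_num) le_rfl)).1

end Pool.Agent.H16.TU
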