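import Pool.Agent.H16.TU.Defs

/-! Mollification in the horizontal variables, the convex function, and the rescaled flow: definitions. -/

set_option autoImplicit false

open Set Filter Topology MeasureTheory
open scoped ContDiff

namespace Pool.Agent.H16.TU

open Pool.Agent.H16 Pool.Agent.H87.NS Pool.Agent.H72.CC

/-- The weights of the main family. -/
noncomputable def ww (N Z R z : ℝ) : E3 → ℝ := wt R (Z * N * R) z

/-- Planar bump, before normalisation. -/
noncomputable def b0 (y : ℝ × ℝ) : ℝ := Real.smoothTransition (1 - (y.1 ^ 2 + y.2 ^ 2))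

/-- Its integral. -/
noncomputable def bm : ℝ := ∫ y, b0 y

/-- Planar bump: smooth, even, radial, nonnegative, supported in the unit disc, integral `1`. -/
noncomputable def bu (y : ℝ × ℝ) : ℝ := b0 y / bm

/-- Horizontal vectors. -/
noncomputable def sh (y : ℝ × ℝ) : E3 := !₂[y.1, y.2, 0]

/-- Horizontal mollification. -/
noncomputable def hm (ε : ℝ) (f : E3 → ℝ) (x : E3) : ℝ := ∫ y : ℝ × ℝ, bu y * f (x - ε • sh y)

/-- Horizontal mollification of a vector field. -/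
noncomputable def hv (ε : ℝ) (v : E3 → E3) (x : E3) : E3 :=
  !₂[hm ε (fun y => v y 0) x, hm ε (fun y => v y 1) x, hm ε (fun y => v y 2) x]

/-- Profile of the convex function: `h'' = s² (3 - 2 s)` on `[0, 1]`, `1` beyond. -/
noncomputable def hz (s : ℝ) : ℝ := if s ≤ 0 then 0 else if s ≤ 1 then s ^ 4 / 4 - s ^ 5 / 10 else s ^ 2 / 2 - s / 2 + 3 / 20

/-- The convex function, zero for `|w| ≤ k`. -/
noncomputable def hk (k w : ℝ) : ℝ := hz (w - k) + hz (-w - k)

/-- The rescaled flow on the time interval `[t₀ - a, t₀]`. -/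
structure Cx (κ C Z N a T : ℝ) (v : ℝ → E3 → E3) (p : ℝ → E3 → ℝ) (t₀ : ℝ) : Prop where
  ns : IsHInfAxisymNS T v p
  t0 : t₀ ∈ Ico 0 T
  ta : a < t₀
  sl : ∀ t ∈ Icc (t₀ - a) t₀, Sl κ N (v t)
  en : ∀ t ∈ Icc (t₀ - a) t₀, ∀ R : ℝ, 0 < R → SS (v t) (ww N Z R 0) ≤ C * N ^ 3 * R
  di : ∀ R : ℝ, 0 < R → a ≤ R ^ 2 → ∫ t in (t₀ - a)..t₀, DD (v t) (ww N Z R 0) ≤ C * N ^ 3 * R

end Pool.Agent.H16.TU
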