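/-
ROW Wa (MP_09540e_TU). The weights. PROOF. With `s = rsq x / R²`, `τ = (x 2 - z)² / L²`, `wt = ((1+s)²)⁻¹ (1+τ)⁻¹` (denominators positive, so smooth: ContDiff.inv / fun_prop; rsq x = x 0 ^ 2 + x 1 ^ 2). For `i = 0, 1`: `∂_i wt = -4 x_i / R² (1+s)⁻³ (1+τ)⁻¹`,
`∂_i² wt = (24 x_i² / R⁴ (1+s)⁻⁴ - 4 / R² (1+s)⁻³) (1+τ)⁻¹`, so `|∂_i² wt| ≤ (24 s/(1+s)² + 4/(1+s)) / R² wt ≤ 10 / R² wt` (s/(1+s)² ≤ 1/4). `∂_2 wt = -2 (x 2 - z) / L² (1+τ)⁻² ((1+s)²)⁻¹`,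
`∂_2² wt = (8 τ (1+τ)⁻³ - 2 (1+τ)⁻²) / L² ((1+s)²)⁻¹`, `|..| ≤ 4 / L² wt ≤ 4 / R² wt`. `hg wt = 4 rad x / R² (1+s)⁻³ (1+τ)⁻¹` (rad² = rsq: rad_sq), so `hg wt ≤ 4 rad x / R² wt`, and since `(rad x / R) / (1+s) ≤ 1/2`, `hg wt ≤ 2 / R wt`.
`|∂_2 wt| ≤ 2 √τ / (1+τ) / L wt ≤ wt / L`. lap = sum of the three. wt_mono: monotone in R and L. Tools: pd of a function of the form `fun x => h (x i)...`: unfold pd, HasFDerivAt calculus, or the product/composition rules Psi_mul, Cut_pd in H72/CC/Psi.lean, Cut.lean, Psi_rsq.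
-/
import Pool.Agent.H16.TU.Defs

set_option autoImplicit false

open Set Filter Topology MeasureTheory
open scoped ContDiff

namespace Pool.Agent.H16.TU

open Pool.Agent.H16 Pool.Agent.H87.NS Pool.Agent.H72.CC

/-! ### auxiliary calculus -/

private noncomputable def Wa_s (R : ℝ) (x : E3) : ℝ := 1 + rsq x / R ^ 2

private noncomputable def Wa_t (L z : ℝ) (x : E3) : ℝ := 1 + (x 2 - z) ^ 2 / L ^ 2

private theorem Wa_s1 (R : ℝ) (x : E3) : 1 ≤ Wa_s R x := by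
  unfold Wa_s rsq
  have : 0 ≤ (x 0 ^ 2 + x 1 ^ 2) / R ^ 2 := by positivity
  linarith

private theorem Wa_t1 (L z : ℝ) (x : E3) : 1 ≤ Wa_t L z x := by
  unfold Wa_t
  have : 0 ≤ (x 2 - z) ^ 2 / L ^ 2 := by positivity
  linarith

private theorem Wa_eq (R L z : ℝ) (x : E3) : wt R L z x = (Wa_s R x ^ 2)⁻¹ * (Wa_t L z x ^ 1)⁻¹ := by
  rw [pow_one]
  rfl

private theorem Wa_ssm (R : ℝ) : ContDiff ℝ ∞ (Wa_s R) := by
  unfold Wa_s rsq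
  exact contDiff_const.add ((((VRep_x 0).pow 2).add ((VRep_x 1).pow 2)).div_const _)

private theorem Wa_tsm (L z : ℝ) : ContDiff ℝ ∞ (Wa_t L z) := by
  unfold Wa_t
  exact contDiff_const.add ((((VRep_x 2).sub contDiff_const).pow 2).div_const _)

private theorem Wa_comp {f : E3 → ℝ} {H : ℝ → ℝ} {h' : ℝ} {x : E3} (hH : HasDerivAt H h' (f x))
    (hf : DifferentiableAt ℝ f x) (i : Fin 3) : pd i (fun y => H (f y)) x = h' * pd i f x := by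
  have h1 : HasFDerivAt (H ∘ f) (h' • fderiv ℝ f x) x := hH.comp_hasFDerivAt x hf.hasFDerivAt
  unfold pd
  have h2 : fderiv ℝ (fun y => H (f y)) x = h' • fderiv ℝ f x := h1.fderiv
  rw [h2]
  rfl

private theorem Wa_inv {f : E3 → ℝ} {x : E3} (hf : DifferentiableAt ℝ f x) (h0 : f x ≠ 0) (n : ℕ) (i : Fin 3) :
    pd i (fun y => (f y ^ n)⁻¹) x = - n * (f x ^ (n + 1))⁻¹ * pd i f x := by
  have h1 : HasDerivAt (fun t : ℝ => (t ^ n)⁻¹) (- n * (f x ^ (n + 1))⁻¹) (f x) := by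
    have h2 := (hasDerivAt_pow n (f x)).inv (pow_ne_zero n h0)
    refine h2.congr_deriv ?_
    rcases n with _ | n
    · simp
    · push_cast
      field_simp
      ring
  exact Wa_comp h1 hf i

private theorem Wa_spd (R : ℝ) (i : Fin 3) (x : E3) : pd i (Wa_s R) x = if i = 2 then 0 else 2 * x i / R ^ 2 := by
  have h0 : Wa_s R = fun y => 1 + (R ^ 2)⁻¹ * rsq y := by
    funext y
    unfold Wa_s
    ring
  rw [h0, Psi_add (differentiableAt_const _) ((Psi_rsq_diff x).const_mul _), Psi_const, Psi_cm (Psi_rsq_diff x), Psi_rsq]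
  split_ifs
  · ring
  · ring

private theorem Wa_zd (z : ℝ) (x : E3) : DifferentiableAt ℝ (fun y : E3 => y 2 - z) x :=
  (Psi_dc 2 x).sub_const z

private theorem Wa_zpd (z : ℝ) (i : Fin 3) (x : E3) : pd i (fun y : E3 => y 2 - z) x = if i = 2 then 1 else 0 := by
  have h0 : (fun y : E3 => y 2 - z) = fun y => y 2 + (-z) := by
    funext y
    ring
  rw [h0, Psi_add (Psi_dc 2 x) (differentiableAt_const _), Psi_const, Psi_coord, add_zero]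
  by_cases h : i = 2
  · rw [if_pos h, if_pos h.symm]
  · rw [if_neg h, if_neg (Ne.symm h)]

private theorem Wa_tpd (L z : ℝ) (i : Fin 3) (x : E3) :
    pd i (Wa_t L z) x = if i = 2 then 2 * (x 2 - z) / L ^ 2 else 0 := by
  have h0 : Wa_t L z = fun y => 1 + (L ^ 2)⁻¹ * ((y 2 - z) * (y 2 - z)) := by
    funext y
    unfold Wa_t
    ring
  rw [h0, Psi_add (differentiableAt_const _) ((Psi_dmul (Wa_zd z x) (Wa_zd z x)).const_mul _), Psi_const,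
    Psi_cm (Psi_dmul (Wa_zd z x) (Wa_zd z x)), Psi_mul (Wa_zd z x) (Wa_zd z x), Wa_zpd]
  split_ifs
  · ring
  · ring

private theorem Wa_sn (R : ℝ) (x : E3) : Wa_s R x ≠ 0 := (lt_of_lt_of_le one_pos (Wa_s1 R x)).ne'

private theorem Wa_tn (L z : ℝ) (x : E3) : Wa_t L z x ≠ 0 := (lt_of_lt_of_le one_pos (Wa_t1 L z x)).ne'

private theorem Wa_sd (R : ℝ) (x : E3) : DifferentiableAt ℝ (Wa_s R) x := Psi_diff (Wa_ssm R) x

private theorem Wa_td (L z : ℝ) (x : E3) : DifferentiableAt ℝ (Wa_t L z) x := Psi_diff (Wa_tsm L z) x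

private theorem Wa_sdn (R : ℝ) (n : ℕ) (x : E3) : DifferentiableAt ℝ (fun y => (Wa_s R y ^ n)⁻¹) x :=
  ((Wa_sd R x).pow n).inv (pow_ne_zero n (Wa_sn R x))

private theorem Wa_tdn (L z : ℝ) (n : ℕ) (x : E3) : DifferentiableAt ℝ (fun y => (Wa_t L z y ^ n)⁻¹) x :=
  ((Wa_td L z x).pow n).inv (pow_ne_zero n (Wa_tn L z x))

/-- horizontal first derivative -/
private theorem Wa_h1 (R L z : ℝ) {i : Fin 3} (hi : i ≠ 2) (x : E3) :
    pd i (wt R L z) x = (- (4 / R ^ 2) * x i) * ((Wa_s R x ^ 3)⁻¹ * (Wa_t L z x ^ 1)⁻¹) := by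
  have h0 : wt R L z = fun y => (Wa_s R y ^ 2)⁻¹ * (Wa_t L z y ^ 1)⁻¹ := funext fun y => Wa_eq R L z y
  rw [h0, Psi_mul (Wa_sdn R 2 x) (Wa_tdn L z 1 x), Wa_inv (Wa_sd R x) (Wa_sn R x), Wa_inv (Wa_td L z x) (Wa_tn L z x),
    Wa_spd, Wa_tpd, if_neg hi, if_neg hi]
  push_cast
  ring

private theorem Wa_z1 (R L z : ℝ) (x : E3) :
    pd 2 (wt R L z) x = (- (2 / L ^ 2) * (x 2 - z)) * ((Wa_s R x ^ 2)⁻¹ * (Wa_t L z x ^ 2)⁻¹) := by
  have h0 : wt R L z = fun y => (Wa_s R y ^ 2)⁻¹ * (Wa_t L z y ^ 1)⁻¹ := funext fun y => Wa_eq R L z y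
  rw [h0, Psi_mul (Wa_sdn R 2 x) (Wa_tdn L z 1 x), Wa_inv (Wa_sd R x) (Wa_sn R x), Wa_inv (Wa_td L z x) (Wa_tn L z x),
    Wa_spd, Wa_tpd, if_pos rfl, if_pos rfl]
  push_cast
  ring

/-- horizontal second derivative -/
private theorem Wa_h2 {R : ℝ} (hR : 0 < R) (L z : ℝ) {i : Fin 3} (hi : i ≠ 2) (x : E3) :
    pd i (pd i (wt R L z)) x = (- (4 / R ^ 2) * (Wa_s R x)⁻¹ + 24 * x i ^ 2 / R ^ 4 * (Wa_s R x ^ 2)⁻¹) * wt R L z x := by
  have h0 : pd i (wt R L z) = fun y => (- (4 / R ^ 2) * y i) * ((Wa_s R y ^ 3)⁻¹ * (Wa_t L z y ^ 1)⁻¹) :=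
    funext fun y => Wa_h1 R L z hi y
  rw [h0, Psi_mul ((Psi_dc i x).const_mul _) (Psi_dmul (Wa_sdn R 3 x) (Wa_tdn L z 1 x)), Psi_cm (Psi_dc i x), Psi_coord,
    if_pos rfl, Psi_mul (Wa_sdn R 3 x) (Wa_tdn L z 1 x), Wa_inv (Wa_sd R x) (Wa_sn R x),
    Wa_inv (Wa_td L z x) (Wa_tn L z x), Wa_spd, Wa_tpd, if_neg hi, if_neg hi, Wa_eq]
  have h1 := Wa_sn R x
  have h2 := Wa_tn L z x
  push_cast
  field_simp
  ring

private theorem Wa_z2 {L : ℝ} (hL : 0 < L) (R z : ℝ) (x : E3) :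
    pd 2 (pd 2 (wt R L z)) x =
      (- (2 / L ^ 2) * (Wa_t L z x)⁻¹ + 8 * (x 2 - z) ^ 2 / L ^ 4 * (Wa_t L z x ^ 2)⁻¹) * wt R L z x := by
  have h0 : pd 2 (wt R L z) = fun y => (- (2 / L ^ 2) * (y 2 - z)) * ((Wa_s R y ^ 2)⁻¹ * (Wa_t L z y ^ 2)⁻¹) :=
    funext fun y => Wa_z1 R L z y
  rw [h0, Psi_mul ((Wa_zd z x).const_mul _) (Psi_dmul (Wa_sdn R 2 x) (Wa_tdn L z 2 x)), Psi_cm (Wa_zd z x), Wa_zpd,
    if_pos rfl, Psi_mul (Wa_sdn R 2 x) (Wa_tdn L z 2 x), Wa_inv (Wa_sd R x) (Wa_sn R x),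
    Wa_inv (Wa_td L z x) (Wa_tn L z x), Wa_spd, Wa_tpd, if_pos rfl, if_pos rfl, Wa_eq]
  have h1 := Wa_sn R x
  have h2 := Wa_tn L z x
  push_cast
  field_simp
  ring

theorem wt_sm {R L : ℝ} (hR : 0 < R) (hL : 0 < L) (z : ℝ) : ContDiff ℝ ∞ (wt R L z) := by
  have h0 : wt R L z = fun y => (Wa_s R y ^ 2)⁻¹ * (Wa_t L z y ^ 1)⁻¹ := funext fun y => Wa_eq R L z y
  rw [h0]
  exact (((Wa_ssm R).pow 2).inv fun x => pow_ne_zero 2 (Wa_sn R x)).mul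
    (((Wa_tsm L z).pow 1).inv fun x => pow_ne_zero 1 (Wa_tn L z x))

theorem wt_pos {R L : ℝ} (hR : 0 < R) (hL : 0 < L) (z : ℝ) (x : E3) : 0 < wt R L z x := by
  rw [Wa_eq]
  have h1 := lt_of_lt_of_le one_pos (Wa_s1 R x)
  have h2 := lt_of_lt_of_le one_pos (Wa_t1 L z x)
  positivity

theorem wt_le {R L : ℝ} (hR : 0 < R) (hL : 0 < L) (z : ℝ) (x : E3) : wt R L z x ≤ 1 := by
  rw [Wa_eq]
  have h1 : (Wa_s R x ^ 2)⁻¹ ≤ 1 := inv_le_one_of_one_le₀ (one_le_pow₀ (Wa_s1 R x))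
  have h2 : (Wa_t L z x ^ 1)⁻¹ ≤ 1 := inv_le_one_of_one_le₀ (one_le_pow₀ (Wa_t1 L z x))
  have h3 : 0 ≤ (Wa_t L z x ^ 1)⁻¹ := by
    have := lt_of_lt_of_le one_pos (Wa_t1 L z x)
    positivity
  exact mul_le_one₀ h1 h3 h2

theorem wt_mono {R L R' L' : ℝ} (hR : 0 < R) (hL : 0 < L) (hRR : R ≤ R') (hLL : L ≤ L') (z : ℝ) (x : E3) :
    wt R L z x ≤ wt R' L' z x := by
  rw [Wa_eq, Wa_eq]
  have a1 : Wa_s R' x ≤ Wa_s R x := by
    unfold Wa_s rsq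
    have : (x 0 ^ 2 + x 1 ^ 2) / R' ^ 2 ≤ (x 0 ^ 2 + x 1 ^ 2) / R ^ 2 :=
      div_le_div_of_nonneg_left (by positivity) (by positivity) (pow_le_pow_left₀ hR.le hRR 2)
    linarith
  have a2 : Wa_t L' z x ≤ Wa_t L z x := by
    unfold Wa_t
    have : (x 2 - z) ^ 2 / L' ^ 2 ≤ (x 2 - z) ^ 2 / L ^ 2 :=
      div_le_div_of_nonneg_left (by positivity) (by positivity) (pow_le_pow_left₀ hL.le hLL 2)
    linarith
  have p1 := lt_of_lt_of_le one_pos (Wa_s1 R' x)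
  have p2 := lt_of_lt_of_le one_pos (Wa_t1 L' z x)
  have p3 := lt_of_lt_of_le one_pos (Wa_t1 L z x)
  have b1 : (Wa_s R x ^ 2)⁻¹ ≤ (Wa_s R' x ^ 2)⁻¹ :=
    inv_anti₀ (by positivity) (pow_le_pow_left₀ p1.le a1 2)
  have b2 : (Wa_t L z x ^ 1)⁻¹ ≤ (Wa_t L' z x ^ 1)⁻¹ :=
    inv_anti₀ (by positivity) (pow_le_pow_left₀ p2.le a2 1)
  exact mul_le_mul b1 b2 (by positivity) (by positivity)

private theorem Wa_rad (x : E3) : rad x ^ 2 = x 0 ^ 2 + x 1 ^ 2 := by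
  unfold rad
  exact Real.sq_sqrt (by positivity)

private theorem Wa_rad0 (x : E3) : 0 ≤ rad x := by
  unfold rad
  exact Real.sqrt_nonneg _

private theorem Wa_hg (R L : ℝ) (z : ℝ) (x : E3) (hR : 0 < R) :
    hg (wt R L z) x = 4 * rad x / R ^ 2 * (Wa_s R x)⁻¹ * wt R L z x := by
  unfold hg
  rw [Wa_h1 R L z (by decide) x, Wa_h1 R L z (by decide) x]
  have p1 := lt_of_lt_of_le one_pos (Wa_s1 R x)
  have p2 := lt_of_lt_of_le one_pos (Wa_t1 L z x)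
  have p3 := Wa_rad0 x
  have h1 : (- (4 / R ^ 2) * x 0 * ((Wa_s R x ^ 3)⁻¹ * (Wa_t L z x ^ 1)⁻¹)) ^ 2 +
      (- (4 / R ^ 2) * x 1 * ((Wa_s R x ^ 3)⁻¹ * (Wa_t L z x ^ 1)⁻¹)) ^ 2 =
      (4 * rad x / R ^ 2 * (Wa_s R x)⁻¹ * wt R L z x) ^ 2 := by
    have h2 : (4 * rad x / R ^ 2 * (Wa_s R x)⁻¹ * wt R L z x) ^ 2 =
      (4 / R ^ 2 * (Wa_s R x)⁻¹ * wt R L z x) ^ 2 * rad x ^ 2 := by ring
    rw [h2, Wa_rad, Wa_eq]
    ring
  rw [h1]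
  have p4 : 0 < wt R L z x := by
    rw [Wa_eq]
    positivity
  exact Real.sqrt_sq (by positivity)

theorem wt_h {R L : ℝ} (hR : 0 < R) (hL : 0 < L) (z : ℝ) (x : E3) :
    hg (wt R L z) x ≤ 2 / R * wt R L z x ∧ hg (wt R L z) x ≤ 4 * rad x / R ^ 2 * wt R L z x := by
  have p0 := wt_pos hR hL z x
  have p1 := lt_of_lt_of_le one_pos (Wa_s1 R x)
  have p3 := Wa_rad0 x
  rw [Wa_hg R L z x hR]
  constructor
  · refine mul_le_mul_of_nonneg_right ?_ p0.le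
    rw [← div_eq_mul_inv, div_le_iff₀ p1]
    have h1 : Wa_s R x = 1 + rad x ^ 2 / R ^ 2 := by
      rw [Wa_rad]
      rfl
    rw [h1]
    have h2 : 2 / R * (1 + rad x ^ 2 / R ^ 2) - 4 * rad x / R ^ 2 = 2 / R * (1 - rad x / R) ^ 2 := by
      field_simp
      ring
    have h3 : 0 ≤ 2 / R * (1 - rad x / R) ^ 2 := by positivity
    linarith
  · refine mul_le_mul_of_nonneg_right ?_ p0.le
    have h1 : (Wa_s R x)⁻¹ ≤ 1 := inv_le_one_of_one_le₀ (Wa_s1 R x)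
    have h2 : 0 ≤ 4 * rad x / R ^ 2 := by positivity
    have h3 := mul_le_mul_of_nonneg_left h1 h2
    linarith

theorem wt_z {R L : ℝ} (hR : 0 < R) (hL : 0 < L) (z : ℝ) (x : E3) : |pd 2 (wt R L z) x| ≤ 1 / L * wt R L z x := by
  have p0 := wt_pos hR hL z x
  have p1 := lt_of_lt_of_le one_pos (Wa_s1 R x)
  have p2 := lt_of_lt_of_le one_pos (Wa_t1 L z x)
  have h0 : pd 2 (wt R L z) x = (- (2 / L ^ 2) * (x 2 - z)) * (Wa_t L z x)⁻¹ * wt R L z x := by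
    rw [Wa_z1, Wa_eq]
    ring
  rw [h0, abs_mul, abs_of_pos p0]
  refine mul_le_mul_of_nonneg_right ?_ p0.le
  rw [abs_mul, abs_mul, abs_neg, abs_of_pos (by positivity : 0 < 2 / L ^ 2), abs_of_pos (by positivity : 0 < (Wa_t L z x)⁻¹),
    ← div_eq_mul_inv, div_le_iff₀ p2]
  have h1 : Wa_t L z x = 1 + |x 2 - z| ^ 2 / L ^ 2 := by
    rw [sq_abs]
    rfl
  rw [h1]
  have h2 : 1 / L * (1 + |x 2 - z| ^ 2 / L ^ 2) - 2 / L ^ 2 * |x 2 - z| = 1 / L * (1 - |x 2 - z| / L) ^ 2 := by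
    field_simp
    ring
  have h3 : 0 ≤ 1 / L * (1 - |x 2 - z| / L) ^ 2 := by positivity
  linarith

private theorem Wa_b {y s : ℝ} (hy : 0 ≤ y) (hs : 1 + y ≤ s) : s⁻¹ ≤ 1 ∧ 0 < s⁻¹ ∧ y * (s ^ 2)⁻¹ ≤ 1 / 4 := by
  have hs0 : 0 < s := by linarith
  refine ⟨inv_le_one_of_one_le₀ (by linarith), by positivity, ?_⟩
  rw [← div_eq_mul_inv, div_le_iff₀ (by positivity)]
  have h1 : (1 + y) ^ 2 ≤ s ^ 2 := pow_le_pow_left₀ (by linarith) hs 2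
  nlinarith [sq_nonneg (1 - y)]

private theorem Wa_h2b {R L : ℝ} (hR : 0 < R) (hL : 0 < L) (z : ℝ) {i : Fin 3} (hi : i ≠ 2) (x : E3) :
    |pd i (pd i (wt R L z)) x| ≤ 10 / R ^ 2 * wt R L z x := by
  have p0 := wt_pos hR hL z x
  rw [Wa_h2 hR L z hi, abs_mul, abs_of_pos p0]
  refine mul_le_mul_of_nonneg_right ?_ p0.le
  have hxi : x i ^ 2 ≤ x 0 ^ 2 + x 1 ^ 2 := by
    have hcase : i = 0 ∨ i = 1 := by
      revert hi
      fin_cases i <;> simp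
    rcases hcase with h | h
    · rw [h]
      have := sq_nonneg (x 1)
      linarith
    · rw [h]
      have := sq_nonneg (x 0)
      linarith
  have hs : 1 + x i ^ 2 / R ^ 2 ≤ Wa_s R x := by
    unfold Wa_s rsq
    have := div_le_div_of_nonneg_right hxi (by positivity : 0 ≤ R ^ 2)
    linarith
  obtain ⟨b1, b2, b3⟩ := Wa_b (by positivity) hs
  have e1 : - (4 / R ^ 2) * (Wa_s R x)⁻¹ + 24 * x i ^ 2 / R ^ 4 * (Wa_s R x ^ 2)⁻¹ =
      1 / R ^ 2 * (24 * (x i ^ 2 / R ^ 2 * (Wa_s R x ^ 2)⁻¹) - 4 * (Wa_s R x)⁻¹) := by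
    field_simp
    ring
  have e2 : 10 / R ^ 2 = 1 / R ^ 2 * 10 := by ring
  rw [e1, e2, abs_mul, abs_of_pos (by positivity : 0 < 1 / R ^ 2)]
  refine mul_le_mul_of_nonneg_left ?_ (by positivity)
  have b4 : 0 ≤ x i ^ 2 / R ^ 2 * (Wa_s R x ^ 2)⁻¹ := by positivity
  rw [abs_le]
  constructor <;> linarith

private theorem Wa_z2b {R L : ℝ} (hR : 0 < R) (hL : R ≤ L) (z : ℝ) (x : E3) :
    |pd 2 (pd 2 (wt R L z)) x| ≤ 4 / R ^ 2 * wt R L z x := by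
  have hL0 : 0 < L := lt_of_lt_of_le hR hL
  have p0 := wt_pos hR hL0 z x
  rw [Wa_z2 hL0 R z, abs_mul, abs_of_pos p0]
  refine mul_le_mul_of_nonneg_right ?_ p0.le
  have hs : 1 + (x 2 - z) ^ 2 / L ^ 2 ≤ Wa_t L z x := le_rfl
  obtain ⟨b1, b2, b3⟩ := Wa_b (by positivity) hs
  have e1 : - (2 / L ^ 2) * (Wa_t L z x)⁻¹ + 8 * (x 2 - z) ^ 2 / L ^ 4 * (Wa_t L z x ^ 2)⁻¹ =
      1 / L ^ 2 * (8 * ((x 2 - z) ^ 2 / L ^ 2 * (Wa_t L z x ^ 2)⁻¹) - 2 * (Wa_t L z x)⁻¹) := by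
    field_simp
    ring
  rw [e1, abs_mul, abs_of_pos (by positivity : 0 < 1 / L ^ 2)]
  have b4 : 0 ≤ (x 2 - z) ^ 2 / L ^ 2 * (Wa_t L z x ^ 2)⁻¹ := by positivity
  have h1 : |8 * ((x 2 - z) ^ 2 / L ^ 2 * (Wa_t L z x ^ 2)⁻¹) - 2 * (Wa_t L z x)⁻¹| ≤ 4 := by
    rw [abs_le]
    constructor <;> linarith
  have h2 : 1 / L ^ 2 ≤ 1 / R ^ 2 :=
    one_div_le_one_div_of_le (by positivity) (pow_le_pow_left₀ hR.le hL 2)
  have h3 := mul_le_mul h2 h1 (abs_nonneg _) (by positivity)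
  have e3 : 4 / R ^ 2 = 1 / R ^ 2 * 4 := by ring
  rw [e3]
  exact h3

theorem wt_g {R L : ℝ} (hR : 0 < R) (hL : R ≤ L) (z : ℝ) (i : Fin 3) (x : E3) :
    |pd i (wt R L z) x| ≤ 4 / R * wt R L z x ∧ |pd i (pd i (wt R L z)) x| ≤ (4 / R) ^ 2 * wt R L z x := by
  have hL0 : 0 < L := lt_of_lt_of_le hR hL
  have p0 := wt_pos hR hL0 z x
  have e2 : (4 / R) ^ 2 = 16 / R ^ 2 := by
    rw [div_pow]
    norm_num
  rw [e2]
  by_cases hi : i = 2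
  · rw [hi]
    constructor
    · refine (wt_z hR hL0 z x).trans (mul_le_mul_of_nonneg_right ?_ p0.le)
      have h1 : 1 / L ≤ 1 / R := one_div_le_one_div_of_le hR hL
      have h2 : 1 / R ≤ 4 / R := div_le_div_of_nonneg_right (by norm_num) hR.le
      exact h1.trans h2
    · refine (Wa_z2b hR hL z x).trans (mul_le_mul_of_nonneg_right ?_ p0.le)
      exact div_le_div_of_nonneg_right (by norm_num) (by positivity)
  · constructor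
    · have h1 : |pd i (wt R L z) x| ≤ hg (wt R L z) x := by
        unfold hg
        refine Real.abs_le_sqrt ?_
        have hcase : i = 0 ∨ i = 1 := by
          revert hi
          fin_cases i <;> simp
        rcases hcase with h | h
        · rw [h]
          have := sq_nonneg (pd 1 (wt R L z) x)
          linarith
        · rw [h]
          have := sq_nonneg (pd 0 (wt R L z) x)
          linarith
      refine h1.trans ((wt_h hR hL0 z x).1.trans (mul_le_mul_of_nonneg_right ?_ p0.le))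
      exact div_le_div_of_nonneg_right (by norm_num) hR.le
    · refine (Wa_h2b hR hL0 z hi x).trans (mul_le_mul_of_nonneg_right ?_ p0.le)
      exact div_le_div_of_nonneg_right (by norm_num) (by positivity)

theorem wt_lap {R L : ℝ} (hR : 0 < R) (hL : R ≤ L) (z : ℝ) (x : E3) : |lap (wt R L z) x| ≤ 24 / R ^ 2 * wt R L z x := by
  have hL0 : 0 < L := lt_of_lt_of_le hR hL
  unfold lap
  rw [Fin.sum_univ_three]
  have h0 := Wa_h2b hR hL0 z (i := 0) (by decide) x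
  have h1 := Wa_h2b hR hL0 z (i := 1) (by decide) x
  have h2 := Wa_z2b hR hL z x
  have h3 := abs_add_le (pd 0 (pd 0 (wt R L z)) x + pd 1 (pd 1 (wt R L z)) x) (pd 2 (pd 2 (wt R L z)) x)
  have h4 := abs_add_le (pd 0 (pd 0 (wt R L z)) x) (pd 1 (pd 1 (wt R L z)) x)
  have e : 24 / R ^ 2 * wt R L z x = 10 / R ^ 2 * wt R L z x + 10 / R ^ 2 * wt R L z x + 4 / R ^ 2 * wt R L z x := by ring
  rw [e]
  linarith

end Pool.Agent.H16.TU
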