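/-
ROW Wb (MP_09540e_TU). Volume of the weights. PROOF. wt_int: by `cyl` (H72/CC/Cyl.lean, cylindrical coordinates for lintegrals; `wt R L z x = f (rad x, x 2)` with `f (r, s) = ((1+r²/R²)²)⁻¹ (1+(s-z)²/L²)⁻¹`, `rad x ^ 2 = rsq x`):
`∫⁻ ofReal (wt R L z x) = ofReal (2π) * ∫⁻ r in Ioi 0, ∫⁻ s, ofReal r * ofReal (f (r, s))`, the inner integral over `s` is `ofReal (π L)` (integral_univ_inv_one_add_sq, integral_comp_div / integral_sub_right_eq_self), the integral of `r ((1+r²/R²)²)⁻¹` over `Ioi 0`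
is `R²/2` (integral_Ioi_of_hasDerivAt_of_nonneg with primitive `- R²/2 (1+r²/R²)⁻¹`). So the integral is `π² R² L ≤ 10 R² L`. Integrable since continuous (wt_sm) and the lintegral is finite.
wt_slab: the function `((1 + rsq x / R²)²)⁻¹` over the slab `|x 2 - z| < ρ` has integral `2 ρ π R² ≤ 7 ρ R²`: the same computation with the indicator of the slab.
wt_wc: collects wt_sm, wt_pos, wt_le, wt_g, wt_int.
-/
import Pool.Agent.H16.TU.Wa

set_option autoImplicit false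

open Set Filter Topology MeasureTheory
open scoped ContDiff

namespace Pool.Agent.H16.TU

open Pool.Agent.H16 Pool.Agent.H87.NS Pool.Agent.H72.CC

/-- primitive -/
private theorem Wb_prim {R : ℝ} (hR : 0 < R) (r : ℝ) :
    HasDerivAt (fun r : ℝ => - (R ^ 2 / 2) * (1 + r ^ 2 / R ^ 2)⁻¹) (r * ((1 + r ^ 2 / R ^ 2) ^ 2)⁻¹) r := by
  have h0 : (1 + r ^ 2 / R ^ 2) ≠ 0 := by positivity
  have h1 : HasDerivAt (fun r : ℝ => 1 + r ^ 2 / R ^ 2) (2 * r / R ^ 2) r := by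
    have h2 := ((hasDerivAt_pow 2 r).div_const (R ^ 2)).const_add 1
    refine h2.congr_deriv ?_
    norm_num
  have h3 := (h1.inv h0).const_mul (- (R ^ 2 / 2))
  refine h3.congr_deriv ?_
  have hR0 : R ≠ 0 := hR.ne'
  field_simp

private theorem Wb_lim {R : ℝ} (hR : 0 < R) :
    Tendsto (fun r : ℝ => - (R ^ 2 / 2) * (1 + r ^ 2 / R ^ 2)⁻¹) atTop (𝓝 0) := by
  have h1 : Tendsto (fun r : ℝ => 1 + r ^ 2 / R ^ 2) atTop atTop :=
    tendsto_atTop_add_const_left _ _ ((tendsto_pow_atTop two_ne_zero).atTop_div_const (by positivity))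
  have h2 := (tendsto_inv_atTop_zero.comp h1).const_mul (- (R ^ 2 / 2))
  rw [mul_zero] at h2
  exact h2

private theorem Wb_nn {R : ℝ} (r : ℝ) (hr : r ∈ Ioi (0:ℝ)) : 0 ≤ r * ((1 + r ^ 2 / R ^ 2) ^ 2)⁻¹ := by
  have : 0 < r := hr
  positivity

private theorem Wb_rad {R : ℝ} (hR : 0 < R) :
    ∫⁻ r in Ioi (0 : ℝ), ENNReal.ofReal r * ENNReal.ofReal (((1 + r ^ 2 / R ^ 2) ^ 2)⁻¹) =
      ENNReal.ofReal (R ^ 2 / 2) := by
  have hi := integrableOn_Ioi_deriv_of_nonneg' (a := 0) (fun r _ => Wb_prim hR r) (Wb_nn (R := R)) (Wb_lim hR)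
  have he := integral_Ioi_of_hasDerivAt_of_nonneg' (a := 0) (fun r _ => Wb_prim hR r) (Wb_nn (R := R)) (Wb_lim hR)
  have he2 : ∫ x in Ioi (0:ℝ), x * ((1 + x ^ 2 / R ^ 2) ^ 2)⁻¹ = R ^ 2 / 2 := by
    rw [he]
    norm_num
  rw [← he2, ofReal_integral_eq_lintegral_ofReal hi ?_]
  · refine setLIntegral_congr_fun measurableSet_Ioi ?_
    intro r hr
    have : (0:ℝ) < r := hr
    show ENNReal.ofReal r * ENNReal.ofReal (((1 + r ^ 2 / R ^ 2) ^ 2)⁻¹) = ENNReal.ofReal (r * ((1 + r ^ 2 / R ^ 2) ^ 2)⁻¹)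
    rw [ENNReal.ofReal_mul this.le]
  · refine (ae_restrict_iff' measurableSet_Ioi).mpr ?_
    exact Eventually.of_forall fun r hr => Wb_nn r hr

private theorem Wb_main {R : ℝ} (hR : 0 < R) {h : ℝ → ENNReal} (hh : Measurable h) :
    ∫⁻ x : E3, ENNReal.ofReal (((1 + rsq x / R ^ 2) ^ 2)⁻¹) * h (x 2) =
      ENNReal.ofReal (Real.pi * R ^ 2) * ∫⁻ s, h s := by
  have hg : Measurable (fun r : ℝ => ENNReal.ofReal (((1 + r ^ 2 / R ^ 2) ^ 2)⁻¹)) := by
    refine ENNReal.measurable_ofReal.comp ?_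
    fun_prop
  have hf : Measurable (fun q : ℝ × ℝ => ENNReal.ofReal (((1 + q.1 ^ 2 / R ^ 2) ^ 2)⁻¹) * h q.2) :=
    (hg.comp measurable_fst).mul (hh.comp measurable_snd)
  have h1 := cyl hf
  have h2 : ∀ x : E3, ENNReal.ofReal (((1 + rsq x / R ^ 2) ^ 2)⁻¹) * h (x 2) =
      (fun q : ℝ × ℝ => ENNReal.ofReal (((1 + q.1 ^ 2 / R ^ 2) ^ 2)⁻¹) * h q.2) (rad x, x 2) := by
    intro x
    show _ = ENNReal.ofReal (((1 + (rad x) ^ 2 / R ^ 2) ^ 2)⁻¹) * h (x 2)
    rw [rad_sq']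
  rw [lintegral_congr h2, h1]
  have h3 : ∀ r : ℝ, ∫⁻ z : ℝ, ENNReal.ofReal r * (fun q : ℝ × ℝ => ENNReal.ofReal (((1 + q.1 ^ 2 / R ^ 2) ^ 2)⁻¹) * h q.2) (r, z) =
      ENNReal.ofReal r * ENNReal.ofReal (((1 + r ^ 2 / R ^ 2) ^ 2)⁻¹) * ∫⁻ s, h s := by
    intro r
    rw [← lintegral_const_mul _ hh]
    refine lintegral_congr fun z => ?_
    show ENNReal.ofReal r * (ENNReal.ofReal (((1 + r ^ 2 / R ^ 2) ^ 2)⁻¹) * h z) = _
    rw [mul_assoc]
  have hgm : Measurable (fun r : ℝ => ENNReal.ofReal r * ENNReal.ofReal (((1 + r ^ 2 / R ^ 2) ^ 2)⁻¹)) :=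
    ENNReal.measurable_ofReal.mul hg
  simp only [h3]
  rw [lintegral_mul_const _ hgm, Wb_rad hR, ← mul_assoc,
    ← ENNReal.ofReal_mul (by positivity)]
  congr 2
  ring

private theorem Wb_cont {R : ℝ} (hR : 0 < R) : Continuous (fun x : E3 => ((1 + rsq x / R ^ 2) ^ 2)⁻¹) := by
  have h1 : Continuous (fun x : E3 => rsq x) := by
    unfold rsq
    fun_prop
  refine Continuous.inv₀ (by fun_prop) ?_
  intro x
  have : 0 ≤ rsq x := by
    unfold rsq
    positivity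
  positivity

private theorem Wb_hz {L : ℝ} (hL : 0 < L) (z : ℝ) :
    ∫⁻ s : ℝ, ENNReal.ofReal ((1 + (s - z) ^ 2 / L ^ 2)⁻¹) = ENNReal.ofReal (Real.pi * L) := by
  have h0 : ∀ s : ℝ, (1 + (s - z) ^ 2 / L ^ 2)⁻¹ = (fun u : ℝ => (1 + (u / L) ^ 2)⁻¹) (s - z) := by
    intro s
    show _ = (1 + ((s - z) / L) ^ 2)⁻¹
    rw [div_pow]
  have hi0 : Integrable (fun u : ℝ => (1 + (u / L) ^ 2)⁻¹) :=
    integrable_inv_one_add_sq.comp_div hL.ne'
  have hi : Integrable (fun s : ℝ => (1 + (s - z) ^ 2 / L ^ 2)⁻¹) := by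
    simp only [h0]
    exact hi0.comp_sub_right z
  rw [← ofReal_integral_eq_lintegral_ofReal hi (Eventually.of_forall fun s => by
    show (0:ℝ) ≤ (1 + (s - z) ^ 2 / L ^ 2)⁻¹
    positivity)]
  congr 1
  simp only [h0]
  rw [integral_sub_right_eq_self (fun u : ℝ => (1 + (u / L) ^ 2)⁻¹) z]
  rw [Measure.integral_comp_div (fun u : ℝ => (1 + u ^ 2)⁻¹) L, integral_univ_inv_one_add_sq, abs_of_pos hL,
    smul_eq_mul, mul_comm]

theorem wt_int {R L : ℝ} (hR : 0 < R) (hL : 0 < L) (z : ℝ) : Integrable (wt R L z) ∧ VV (wt R L z) ≤ 10 * R ^ 2 * L := by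
  have hc : Continuous (wt R L z) := (wt_sm hR hL z).continuous
  have hn : ∀ x, 0 ≤ wt R L z x := fun x => (wt_pos hR hL z x).le
  have hm : Measurable (fun s : ℝ => ENNReal.ofReal ((1 + (s - z) ^ 2 / L ^ 2)⁻¹)) := by
    refine ENNReal.measurable_ofReal.comp ?_
    fun_prop
  have h1 : ∫⁻ x, ENNReal.ofReal (wt R L z x) = ENNReal.ofReal (Real.pi * R ^ 2 * (Real.pi * L)) := by
    rw [ENNReal.ofReal_mul (by positivity), ← Wb_hz hL z, ← Wb_main hR hm]
    refine lintegral_congr fun x => ?_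
    unfold wt
    rw [ENNReal.ofReal_mul (by positivity)]
  have hi : Integrable (wt R L z) := by
    refine (lintegral_ofReal_ne_top_iff_integrable hc.aestronglyMeasurable (Eventually.of_forall hn)).mp ?_
    rw [h1]
    exact ENNReal.ofReal_ne_top
  refine ⟨hi, ?_⟩
  unfold VV
  rw [integral_eq_lintegral_of_nonneg_ae (Eventually.of_forall hn) hc.aestronglyMeasurable, h1,
    ENNReal.toReal_ofReal (by positivity)]
  have hpi := Real.pi_lt_d2
  have hpi0 := Real.pi_pos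
  have h2 : Real.pi * Real.pi ≤ 10 := by nlinarith
  have h3 : Real.pi * R ^ 2 * (Real.pi * L) = (Real.pi * Real.pi) * (R ^ 2 * L) := by ring
  have h4 : (10:ℝ) * R ^ 2 * L = 10 * (R ^ 2 * L) := by ring
  rw [h3, h4]
  exact mul_le_mul_of_nonneg_right h2 (by positivity)

theorem wt_slab {R ρ : ℝ} (hR : 0 < R) (hρ : 0 < ρ) (z : ℝ) :
    IntegrableOn (fun x : E3 => ((1 + rsq x / R ^ 2) ^ 2)⁻¹) {x | |x 2 - z| < ρ} ∧
      ∫ x in {x : E3 | |x 2 - z| < ρ}, ((1 + rsq x / R ^ 2) ^ 2)⁻¹ ≤ 7 * ρ * R ^ 2 := by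
  have hc := Wb_cont hR
  have hn : ∀ x : E3, 0 ≤ ((1 + rsq x / R ^ 2) ^ 2)⁻¹ := fun x => by positivity
  have hS0 : MeasurableSet {s : ℝ | |s - z| < ρ} :=
    (isOpen_lt (by fun_prop) continuous_const).measurableSet
  have hS : MeasurableSet {x : E3 | |x 2 - z| < ρ} :=
    (isOpen_lt (by fun_prop) continuous_const).measurableSet
  have hm : Measurable ({s : ℝ | |s - z| < ρ}.indicator (1 : ℝ → ENNReal)) :=
    measurable_one.indicator hS0
  have hv : ∫⁻ s : ℝ, {s : ℝ | |s - z| < ρ}.indicator (1 : ℝ → ENNReal) s = ENNReal.ofReal (2 * ρ) := by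
    rw [lintegral_indicator_one hS0]
    have : {s : ℝ | |s - z| < ρ} = Ioo (z - ρ) (z + ρ) := by
      ext s
      rw [mem_ofPred_eq, mem_Ioo, abs_lt]
      constructor
      · rintro ⟨h1, h2⟩
        constructor <;> linarith
      · rintro ⟨h1, h2⟩
        constructor <;> linarith
    rw [this, Real.volume_Ioo]
    congr 1
    ring
  have h1 : ∫⁻ x in {x : E3 | |x 2 - z| < ρ}, ENNReal.ofReal (((1 + rsq x / R ^ 2) ^ 2)⁻¹) =
      ENNReal.ofReal (Real.pi * R ^ 2 * (2 * ρ)) := by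
    rw [ENNReal.ofReal_mul (by positivity), ← hv, ← Wb_main hR hm, ← lintegral_indicator hS]
    refine lintegral_congr fun x => ?_
    by_cases hx : |x 2 - z| < ρ
    · rw [indicator_of_mem (by exact hx), indicator_of_mem (by exact hx), Pi.one_apply, mul_one]
    · rw [indicator_of_notMem (by exact hx), indicator_of_notMem (by exact hx), mul_zero]
  have hi : IntegrableOn (fun x : E3 => ((1 + rsq x / R ^ 2) ^ 2)⁻¹) {x | |x 2 - z| < ρ} := by
    refine (lintegral_ofReal_ne_top_iff_integrable hc.aestronglyMeasurable (Eventually.of_forall hn)).mp ?_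
    rw [h1]
    exact ENNReal.ofReal_ne_top
  refine ⟨hi, ?_⟩
  rw [integral_eq_lintegral_of_nonneg_ae (Eventually.of_forall hn) hc.aestronglyMeasurable, h1,
    ENNReal.toReal_ofReal (by positivity)]
  have hpi := Real.pi_lt_d2
  have h3 : Real.pi * R ^ 2 * (2 * ρ) = (2 * Real.pi) * (ρ * R ^ 2) := by ring
  have h4 : (7:ℝ) * ρ * R ^ 2 = 7 * (ρ * R ^ 2) := by ring
  rw [h3, h4]
  exact mul_le_mul_of_nonneg_right (by linarith) (by positivity)

theorem wt_wc {R L : ℝ} (hR : 0 < R) (hL : R ≤ L) (z : ℝ) : Wc (4 / R) (wt R L z) := by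
  have hL0 : 0 < L := lt_of_lt_of_le hR hL
  exact {
    sm := wt_sm hR hL0 z
    nn := fun x => (wt_pos hR hL0 z x).le
    le := fun x => wt_le hR hL0 z x
    int := (wt_int hR hL0 z).1
    g1 := fun i x => (wt_g hR hL z i x).1
    g2 := fun i x => (wt_g hR hL z i x).2 }

end Pool.Agent.H16.TU
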