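/-
ROW Ad0 (MP_09540e_TU). Definition of the weights of the main family, and small facts. PROOF. ww_ok: `1 ≤ N` and `1 ≤ Z` give `R ≤ Z N R`; wt_wc, wt_int: `VV ≤ 10 R² (Z N R)`. ww_sc: `2^j (Z N R) = Z N (2^j R)`.
a_g: `dv (fun k x => v x k * Φ x) x = ∑_k (pd k v_k Φ + v_k pd k Φ) = adv (v x) Φ x` (div v = 0, pd_comp; Psi_mul). `|v₀ pd 0 Φ + v₁ pd 1 Φ| ≤ hn v x * hg Φ x` (Cauchy-Schwarz). If `0 < rad x ≤ 1`: `hn ≤ 2κ / rad x` (h.hor), `hg Φ ≤ 4 rad x / R² Φ` (wt_h): product `≤ 8 κ / R² Φ`. If `rad x > 1`: `hn ≤ 2κ`,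
`hg Φ ≤ 2/R Φ`: `≤ 4κ/R Φ ≤ 4κ/R² Φ` (R ≤ 1). If `rad x = 0`: `hg Φ = 0` by wt_h. Last: `|v₂ pd 2 Φ| ≤ |v₂| Φ / (Z N R)` (wt_z).
-/
import Pool.Agent.H16.TU.Wb
import Pool.Agent.H16.TU.Ba
import Pool.Agent.H16.TU.Defs2

set_option autoImplicit false

open Set Filter Topology MeasureTheory
open scoped ContDiff

namespace Pool.Agent.H16.TU

open Pool.Agent.H16 Pool.Agent.H87.NS Pool.Agent.H72.CC

theorem Ad0_L {N Z R : ℝ} (hN : 1 ≤ N) (hZ : 1 ≤ Z) (hR : 0 < R) : 0 < Z * N * R ∧ R ≤ Z * N * R := by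
  have h1 : 1 ≤ Z * N := by nlinarith
  constructor
  · positivity
  · nlinarith

theorem ww_ok {N Z R : ℝ} (hN : 1 ≤ N) (hZ : 1 ≤ Z) (hR : 0 < R) (z : ℝ) :
    Wc (4 / R) (ww N Z R z) ∧ 0 ≤ VV (ww N Z R z) ∧ VV (ww N Z R z) ≤ 10 * Z * N * R ^ 3 := by
  obtain ⟨hL, hRL⟩ := Ad0_L hN hZ hR
  refine ⟨wt_wc hR hRL z, ?_, ?_⟩
  · exact integral_nonneg fun x => (wt_pos hR hL z x).le
  · have h1 := (wt_int hR hL z).2
    calc VV (ww N Z R z) ≤ 10 * R ^ 2 * (Z * N * R) := h1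
      _ = 10 * Z * N * R ^ 3 := by ring

theorem ww_sc (N Z R z : ℝ) (j : ℕ) : wt (2 ^ j * R) (2 ^ j * (Z * N * R)) z = ww N Z (2 ^ j * R) z := by
  unfold ww
  congr 1
  ring

theorem a_h {κ N Z R : ℝ} {v : E3 → E3} (h : Sl κ N v) (hZ : 1 ≤ Z) (hR : 0 < R) (hR1 : R ≤ 1) (z : ℝ) (x : E3) :
    |v x 0 * pd 0 (ww N Z R z) x + v x 1 * pd 1 (ww N Z R z) x| ≤ 8 * κ / R ^ 2 * ww N Z R z x := by
  have hN : 1 ≤ N := h.one.trans h.le
  obtain ⟨hL, hRL⟩ := Ad0_L hN hZ hR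
  have hκ : 0 ≤ κ := zero_le_one.trans h.one
  have hw : 0 ≤ ww N Z R z x := (wt_pos hR hL z x).le
  obtain ⟨hg1, hg2⟩ := wt_h hR hL z x
  have hhn : 0 ≤ hn v x := Real.sqrt_nonneg _
  have hhg : 0 ≤ hg (ww N Z R z) x := Real.sqrt_nonneg _
  have hr := rad_nonneg x
  have hCS : |v x 0 * pd 0 (ww N Z R z) x + v x 1 * pd 1 (ww N Z R z) x| ≤ hn v x * hg (ww N Z R z) x := by
    apply abs_le_of_sq_le_sq _ (mul_nonneg hhn hhg)
    unfold hn hg
    rw [mul_pow, Real.sq_sqrt (by positivity), Real.sq_sqrt (by positivity)]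
    linarith only [sq_nonneg (v x 0 * pd 1 (ww N Z R z) x - v x 1 * pd 0 (ww N Z R z) x)]
  refine hCS.trans ?_
  have hR2 : 0 < R ^ 2 := by positivity
  rcases le_or_gt (rad x) 1 with hc | hc
  · have h1 : hg (ww N Z R z) x ≤ 4 * rad x / R ^ 2 * ww N Z R z x := hg2
    have h2 : rad x * hn v x ≤ 2 * κ := by
      have h3 := h.hor x
      nlinarith only [hκ, hc, h3]
    calc hn v x * hg (ww N Z R z) x ≤ hn v x * (4 * rad x / R ^ 2 * ww N Z R z x) :=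
          mul_le_mul_of_nonneg_left h1 hhn
      _ = (rad x * hn v x) * (4 / R ^ 2 * ww N Z R z x) := by ring
      _ ≤ (2 * κ) * (4 / R ^ 2 * ww N Z R z x) := mul_le_mul_of_nonneg_right h2 (by positivity)
      _ = 8 * κ / R ^ 2 * ww N Z R z x := by ring
  · have h1 : hg (ww N Z R z) x ≤ 2 / R * ww N Z R z x := hg1
    have h2 : hn v x ≤ 2 * κ := by
      have h3 := h.hor x
      have h4 : rad x * hn v x ≤ rad x * (2 * κ) := by nlinarith only [hκ, hc, h3]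
      exact le_of_mul_le_mul_left h4 (by linarith)
    have h5 : 2 / R ≤ 2 / R ^ 2 := by
      apply div_le_div_of_nonneg_left (by norm_num) hR2
      nlinarith only [hR, hR1]
    calc hn v x * hg (ww N Z R z) x ≤ (2 * κ) * (2 / R * ww N Z R z x) :=
          mul_le_mul h2 h1 hhg (by positivity)
      _ ≤ (2 * κ) * (2 / R ^ 2 * ww N Z R z x) := by gcongr
      _ = 4 * κ / R ^ 2 * ww N Z R z x := by ring
      _ ≤ 8 * κ / R ^ 2 * ww N Z R z x := by gcongr; norm_num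

theorem a_g {κ N Z R : ℝ} {v : E3 → E3} (h : Sl κ N v) (hZ : 1 ≤ Z) (hR : 0 < R) (hR1 : R ≤ 1) (z : ℝ) (x : E3) :
    dv (fun k y => v y k * ww N Z R z y) x = adv (v x) (ww N Z R z) x ∧
    |dv (fun k y => v y k * ww N Z R z y) x| ≤ 8 * κ / R ^ 2 * ww N Z R z x + 1 / (Z * N * R) * (|v x 2| * ww N Z R z x) := by
  have hN : 1 ≤ N := h.one.trans h.le
  obtain ⟨hL, hRL⟩ := Ad0_L hN hZ hR
  have hsm : ContDiff ℝ ∞ (ww N Z R z) := wt_sm hR hL z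
  have hv := h.ax.smooth
  have hvj : ∀ j : Fin 3, ContDiff ℝ ∞ (fun y => v y j) := fun j => by
    exact contDiff_euclidean.1 hv j
  have e1 : dv (fun k y => v y k * ww N Z R z y) x = adv (v x) (ww N Z R z) x := by
    unfold dv adv
    have h1 : ∀ k : Fin 3, pd k (fun y => v y k * ww N Z R z y) x =
        fderiv ℝ v x (e k) k * ww N Z R z x + v x k * pd k (ww N Z R z) x := by
      intro k
      rw [Psi_mul ((hvj k).differentiable (by simp)).differentiableAt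
        (hsm.differentiable (by simp)).differentiableAt k, pd_comp hv]
    simp only [h1]
    rw [Finset.sum_add_distrib, ← Finset.sum_mul, h.ax.div x, zero_mul, zero_add]
  refine ⟨e1, ?_⟩
  rw [e1]
  have h2 : adv (v x) (ww N Z R z) x = (v x 0 * pd 0 (ww N Z R z) x + v x 1 * pd 1 (ww N Z R z) x) +
      v x 2 * pd 2 (ww N Z R z) x := by
    unfold adv
    rw [Fin.sum_univ_three]
  rw [h2]
  refine (abs_add_le _ _).trans (add_le_add (a_h h hZ hR hR1 z x) ?_)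
  rw [abs_mul]
  have h3 : |pd 2 (ww N Z R z) x| ≤ 1 / (Z * N * R) * ww N Z R z x := wt_z hR hL z x
  calc |v x 2| * |pd 2 (ww N Z R z) x| ≤ |v x 2| * (1 / (Z * N * R) * ww N Z R z x) :=
        mul_le_mul_of_nonneg_left h3 (abs_nonneg _)
    _ = 1 / (Z * N * R) * (|v x 2| * ww N Z R z x) := by ring

end Pool.Agent.H16.TU
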