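/-
ROW Fa (MP_09540e_TU). The stream function inequality and the inequality `|v_h| ≤ r |∇v|`. PROOF. f1: `P = sP v` is smooth (sP_smooth), `v x 2 = 2 P x + rdr P x` (sP_two) `= pd 0 (x₀ P) + pd 1 (x₁ P)` (Psi_mul, Psi_coord). For `i = 0, 1` put `A_i x = x i * P x`: `|A_i| ≤ rad x |P x| ≤ N` (h.str; |x i| ≤ rad x),
and `pd i A_i = P + x_i pd i P` is bounded: `|P| ≤ K/2` (P = avk 1 of v₂, |v₂| ≤ K; avk bound by integrating), and by rot_inv (sP_rot) `rsq x * pd i P x = x i * rdr P x`, so `|x_i pd i P| ≤ |rdr P| = |v₂ - 2P| ≤ 2K` (for rsq x = 0 it is 0). Hence (ibpI, Ba.lean) `∫ pd i A_i G = - ∫ A_i pd i G`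
(G, pd i G integrable), so `∫ v₂ G = - ∫ P (x₀ pd 0 G + x₁ pd 1 G)` and `|x₀ pd 0 G + x₁ pd 1 G| ≤ rad x * hg G x` (Cauchy-Schwarz), `|P| rad ≤ N`; hg G ≤ |pd 0 G| + |pd 1 G| integrable (continuous since G is C¹).
hh: fderiv_rotGen (H16/AxiNS.lean): `fderiv ℝ v x (rotGen x) = rotGen (v x)` for axially symmetric differentiable v, `rotGen x = (-x₁, x₀, 0)`; components: `-x₁ pd 0 v₀ + x₀ pd 1 v₀ = - v₁`, `-x₁ pd 0 v₁ + x₀ pd 1 v₁ = v₀`, so by Cauchy-Schwarz `v₁² ≤ rsq x * gsq v₀`, `v₀² ≤ rsq x * gsq v₁`: `hn² ≤ rsq x * gv`.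
Second: if rad x > 0, `hn² = hn * hn ≤ hn * κ (1 / rad x + 1) ≤ κ √gv + κ hn` (h.hor and the first part); if rad x = 0, hn = 0. Third: `κ hn ≤ hn²/2 + κ²/2`. Fourth: square the second: `(κ √gv + κ hn)² ≤ 2 κ² (gv + hn²)`.
-/
import Pool.Agent.H16.TU.Ba

set_option autoImplicit false

open Set Filter Topology MeasureTheory
open scoped ContDiff

namespace Pool.Agent.H16.TU

open Pool.Agent.H16 Pool.Agent.H87.NS Pool.Agent.H72.CC

theorem Fa_cs (a b c d : ℝ) : |a * c + b * d| ≤ √(a ^ 2 + b ^ 2) * √(c ^ 2 + d ^ 2) := by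
  rw [← Real.sqrt_mul (by positivity)]
  refine Real.abs_le_sqrt ?_
  nlinarith [sq_nonneg (a * d - b * c)]

theorem Fa_int {K : ℝ} {f g : E3 → ℝ} (hf : Continuous f) (hb : ∀ x, |f x| ≤ K) (hg : Integrable g) :
    Integrable (fun x => f x * g x) := by
  refine Integrable.mono' (hg.norm.const_mul K) (hf.aestronglyMeasurable.mul hg.aestronglyMeasurable) (ae_of_all _ fun x => ?_)
  rw [norm_mul, Real.norm_eq_abs]
  exact mul_le_mul_of_nonneg_right (hb x) (norm_nonneg _)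

theorem f1 {κ N : ℝ} {v : E3 → E3} (h : Sl κ N v) {G : E3 → ℝ} (hG : TF G) : |∫ x, v x 2 * G x| ≤ N * ∫ x, hg G x := by
  obtain ⟨K, hK0, hK, -, -⟩ := ba_vf h.vf
  obtain ⟨K₁, hK₁⟩ := h.db
  have hv := h.ax.smooth
  have hN : 0 ≤ N := by linarith [h.one, h.le]
  have hP : ContDiff ℝ ∞ (sP v) := sP_smooth h.ax
  have hPd : Differentiable ℝ (sP v) := hP.differentiable (by simp)
  have hPb : ∀ x, |sP v x| ≤ 2 * K₁ := fun x => (avk_BL (k := 1) (Bds1_proj_smooth hv 2).continuous le_rfl (DB_BL (hK₁ 2))).1 x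
  have hv2 : ∀ x, |v x 2| ≤ K := fun x => (ba_gv x 0 0).2.2.2.2.2.1.trans (hK x).1
  have hA : ∀ i : Fin 3, ContDiff ℝ ∞ (fun x : E3 => x i * sP v x) := fun i =>
    ((EuclideanSpace.proj i : E3 →L[ℝ] ℝ).contDiff).mul hP
  have hAd : ∀ i : Fin 3, Differentiable ℝ (fun x : E3 => x i * sP v x) := fun i => (hA i).differentiable (by simp)
  have hpd : ∀ (i : Fin 3) (x : E3), pd i (fun y : E3 => y i * sP v y) x = sP v x + x i * pd i (sP v) x := by
    intro i x
    rw [Psi_mul (Psi_dc i x) (hPd x), Psi_coord]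
    simp
  have hxi : ∀ (i : Fin 3), i ≠ 2 → ∀ x : E3, |x i| ≤ rad x := by
    intro i hi x
    refine Real.abs_le_sqrt ?_
    fin_cases i
    · show x 0 ^ 2 ≤ x 0 ^ 2 + x 1 ^ 2; nlinarith [sq_nonneg (x 1)]
    · show x 1 ^ 2 ≤ x 0 ^ 2 + x 1 ^ 2; nlinarith [sq_nonneg (x 0)]
    · exact absurd rfl hi
  have hAb : ∀ (i : Fin 3), i ≠ 2 → ∀ x : E3, |x i * sP v x| ≤ N := by
    intro i hi x
    rw [abs_mul]
    exact (mul_le_mul_of_nonneg_right (hxi i hi x) (abs_nonneg _)).trans (h.str x)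
  have hrdr : ∀ x, |rdr (sP v) x| ≤ K + 4 * K₁ := by
    intro x
    have e1 : rdr (sP v) x = v x 2 - 2 * sP v x := by rw [sP_two h.ax x]; ring
    rw [e1]
    have e2 := abs_sub (v x 2) (2 * sP v x)
    rw [abs_mul, abs_of_nonneg (by norm_num : (0:ℝ) ≤ 2)] at e2
    linarith [hv2 x, hPb x]
  have hAp : ∀ (i : Fin 3), i ≠ 2 → ∀ x : E3, |pd i (fun y : E3 => y i * sP v y) x| ≤ K + 6 * K₁ := by
    intro i hi x
    rw [hpd]
    have e1 : |x i * pd i (sP v) x| ≤ |rdr (sP v) x| := by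
      have r := rot_inv hP (sP_rot h.ax) x
      have r' : rsq x * pd i (sP v) x = x i * rdr (sP v) x := by
        fin_cases i
        · exact r.1
        · exact r.2.1
        · exact absurd rfl hi
      have hx2 : x i ^ 2 ≤ rsq x := by
        rw [← rad_sq' x, ← sq_abs (x i)]
        exact pow_le_pow_left₀ (abs_nonneg _) (hxi i hi x) 2
      rcases (sq_nonneg (x i)).eq_or_lt with h0 | h0
      · have : x i = 0 := by
          have := h0.symm
          exact pow_eq_zero_iff (n := 2) (by norm_num) |>.1 this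
        rw [this]; simp
      · have hr : 0 < rsq x := lt_of_lt_of_le h0 hx2
        have e2 : rsq x * (x i * pd i (sP v) x) = x i ^ 2 * rdr (sP v) x := by
          calc rsq x * (x i * pd i (sP v) x) = x i * (rsq x * pd i (sP v) x) := by ring
            _ = _ := by rw [r']; ring
        have e3 : rsq x * |x i * pd i (sP v) x| = x i ^ 2 * |rdr (sP v) x| := by
          have := congrArg abs e2
          rwa [abs_mul, abs_mul (x i ^ 2), abs_of_pos hr, abs_of_nonneg (sq_nonneg (x i))] at this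
        have e4 : rsq x * |x i * pd i (sP v) x| ≤ rsq x * |rdr (sP v) x| := by
          rw [e3]; exact mul_le_mul_of_nonneg_right hx2 (abs_nonneg _)
        exact le_of_mul_le_mul_left e4 hr
    have e5 := abs_add_le (sP v x) (x i * pd i (sP v) x)
    linarith [hPb x, hrdr x]
  have hsum : ∀ x, v x 2 = pd 0 (fun y : E3 => y 0 * sP v y) x + pd 1 (fun y : E3 => y 1 * sP v y) x := by
    intro x
    rw [hpd, hpd, sP_two h.ax x]
    unfold rdr
    ring
  have hcA : ∀ i : Fin 3, Continuous (fun x : E3 => x i * sP v x) := fun i => (hA i).continuous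
  have hcp : ∀ i : Fin 3, Continuous (pd i (fun y : E3 => y i * sP v y)) := fun i => pd_cont ((hA i).of_le (by norm_cast)) i
  have hGd : Differentiable ℝ G := hG.c1.differentiable (by norm_num)
  have i1 : ∀ i : Fin 3, i ≠ 2 → Integrable (fun x => pd i (fun y : E3 => y i * sP v y) x * G x) := fun i hi => Fa_int (hcp i) (hAp i hi) hG.int
  have i2 : ∀ i : Fin 3, i ≠ 2 → Integrable (fun x => (x i * sP v x) * pd i G x) := fun i hi => Fa_int (hcA i) (hAb i hi) (hG.intd i)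
  have i3 : ∀ i : Fin 3, i ≠ 2 → Integrable (fun x => (x i * sP v x) * G x) := fun i hi => Fa_int (hcA i) (hAb i hi) hG.int
  have e0 : ∀ i : Fin 3, i ≠ 2 → ∫ x, pd i (fun y : E3 => y i * sP v y) x * G x = - ∫ x, (x i * sP v x) * pd i G x := by
    intro i hi
    have := ibpI (hAd i) hGd i (i1 i hi) (i2 i hi) (i3 i hi)
    linarith
  have e1 : ∫ x, v x 2 * G x = - ∫ x, (x 0 * pd 0 G x + x 1 * pd 1 G x) * sP v x := by
    have a1 : ∫ x, v x 2 * G x = (∫ x, pd 0 (fun y : E3 => y 0 * sP v y) x * G x) + ∫ x, pd 1 (fun y : E3 => y 1 * sP v y) x * G x := by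
      rw [← integral_add (i1 0 (by decide)) (i1 1 (by decide))]
      refine integral_congr_ae (ae_of_all _ fun x => ?_)
      show v x 2 * G x = _
      rw [hsum x]
      ring
    have a2 : ∫ x, (x 0 * pd 0 G x + x 1 * pd 1 G x) * sP v x = (∫ x, (x 0 * sP v x) * pd 0 G x) + ∫ x, (x 1 * sP v x) * pd 1 G x := by
      rw [← integral_add (i2 0 (by decide)) (i2 1 (by decide))]
      refine integral_congr_ae (ae_of_all _ fun x => ?_)
      show (x 0 * pd 0 G x + x 1 * pd 1 G x) * sP v x = (x 0 * sP v x) * pd 0 G x + (x 1 * sP v x) * pd 1 G x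
      ring
    rw [a1, a2, e0 0 (by decide), e0 1 (by decide)]
    ring
  have chg : Continuous (hg G) := by
    unfold hg
    exact (((pd_cont hG.c1 0).pow 2).add ((pd_cont hG.c1 1).pow 2)).sqrt
  have ihg : Integrable (hg G) := by
    refine Integrable.mono' ((hG.intd 0).norm.add (hG.intd 1).norm) chg.aestronglyMeasurable (ae_of_all _ fun x => ?_)
    have h0 : 0 ≤ hg G x := Real.sqrt_nonneg _
    rw [Real.norm_eq_abs, abs_of_nonneg h0]
    unfold hg
    show √(pd 0 G x ^ 2 + pd 1 G x ^ 2) ≤ ‖pd 0 G x‖ + ‖pd 1 G x‖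
    refine Real.sqrt_le_iff.2 ⟨by positivity, ?_⟩
    rw [Real.norm_eq_abs, Real.norm_eq_abs]
    linarith only [sq_abs (pd 0 G x), sq_abs (pd 1 G x), abs_nonneg (pd 0 G x), abs_nonneg (pd 1 G x),
      mul_nonneg (abs_nonneg (pd 0 G x)) (abs_nonneg (pd 1 G x))]
  rw [e1, abs_neg, ← integral_const_mul]
  refine abs_integral_le_integral_abs.trans ?_
  refine integral_mono_of_nonneg (ae_of_all _ fun x => abs_nonneg _) (ihg.const_mul N) (ae_of_all _ fun x => ?_)
  show |(x 0 * pd 0 G x + x 1 * pd 1 G x) * sP v x| ≤ N * hg G x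
  rw [abs_mul]
  have b1 := Fa_cs (x 0) (x 1) (pd 0 G x) (pd 1 G x)
  calc |x 0 * pd 0 G x + x 1 * pd 1 G x| * |sP v x| ≤ (rad x * hg G x) * |sP v x| :=
        mul_le_mul_of_nonneg_right b1 (abs_nonneg _)
    _ = (rad x * |sP v x|) * hg G x := by ring
    _ ≤ N * hg G x := mul_le_mul_of_nonneg_right (h.str x) (Real.sqrt_nonneg _)

theorem hh {κ N : ℝ} {v : E3 → E3} (h : Sl κ N v) (x : E3) :
    hn v x ≤ rad x * √(gv v x) ∧ hn v x ^ 2 ≤ κ * √(gv v x) + κ * hn v x ∧ hn v x ^ 2 ≤ 2 * κ * √(gv v x) + κ ^ 2 ∧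
      hn v x ^ 4 ≤ 2 * κ ^ 2 * (gv v x + hn v x ^ 2) := by
  have hv := h.ax.smooth
  have hg0 : 0 ≤ gv v x := (ba_gv x 0 0).1
  have hκ : 0 ≤ κ := by linarith [h.one]
  have hh0 : 0 ≤ hn v x := Real.sqrt_nonneg _
  have hs0 : 0 ≤ √(gv v x) := Real.sqrt_nonneg _
  have r1 := fderiv_rotGen (hv.differentiable (by simp)) h.ax.ax x
  have r2 : rotGen x = (- x 1) • e 0 + (x 0) • e 1 := by
    apply ext3 <;> simp [e]
  have r3 : ∀ j : Fin 3, rotGen (v x) j = - x 1 * pd 0 (fun y => v y j) x + x 0 * pd 1 (fun y => v y j) x := by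
    intro j
    rw [← r1, r2, map_add, map_smul, map_smul, pd_comp hv, pd_comp hv]
    rfl
  have r4 := r3 0
  have r5 := r3 1
  rw [rotGen_zero'] at r4
  rw [rotGen_one'] at r5
  have hgv : pd 0 (fun y => v y 0) x ^ 2 + pd 1 (fun y => v y 0) x ^ 2 + pd 0 (fun y => v y 1) x ^ 2 + pd 1 (fun y => v y 1) x ^ 2 ≤ gv v x := by
    unfold gv gsq
    simp only [Fin.sum_univ_three]
    linarith only [sq_nonneg (pd 2 (fun y => v y 0) x), sq_nonneg (pd 2 (fun y => v y 1) x), sq_nonneg (pd 0 (fun y => v y 2) x),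
      sq_nonneg (pd 1 (fun y => v y 2) x), sq_nonneg (pd 2 (fun y => v y 2) x)]
  have p1 : hn v x ≤ rad x * √(gv v x) := by
    unfold hn rad
    rw [← Real.sqrt_mul (by positivity)]
    refine Real.sqrt_le_sqrt ?_
    have c1 : v x 1 ^ 2 ≤ (x 0 ^ 2 + x 1 ^ 2) * (pd 0 (fun y => v y 0) x ^ 2 + pd 1 (fun y => v y 0) x ^ 2) := by
      have : v x 1 = x 1 * pd 0 (fun y => v y 0) x - x 0 * pd 1 (fun y => v y 0) x := by linarith
      rw [this]
      linarith only [sq_nonneg (x 0 * pd 0 (fun y => v y 0) x + x 1 * pd 1 (fun y => v y 0) x)]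
    have c2 : v x 0 ^ 2 ≤ (x 0 ^ 2 + x 1 ^ 2) * (pd 0 (fun y => v y 1) x ^ 2 + pd 1 (fun y => v y 1) x ^ 2) := by
      have : v x 0 = - x 1 * pd 0 (fun y => v y 1) x + x 0 * pd 1 (fun y => v y 1) x := by linarith
      rw [this]
      linarith only [sq_nonneg (x 0 * pd 0 (fun y => v y 1) x + x 1 * pd 1 (fun y => v y 1) x)]
    have c3 := mul_le_mul_of_nonneg_left hgv (by positivity : 0 ≤ x 0 ^ 2 + x 1 ^ 2)
    linarith
  have p2 : hn v x ^ 2 ≤ κ * √(gv v x) + κ * hn v x := by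
    rcases (rad_nonneg x).eq_or_lt with h0 | h0
    · rw [← h0, zero_mul] at p1
      have : hn v x = 0 := le_antisymm p1 hh0
      rw [this]
      have := mul_nonneg hκ hs0
      simpa using this
    · have a1 := h.hor x
      have a2 : rad x * hn v x ^ 2 ≤ rad x * (κ * √(gv v x) + κ * hn v x) := by
        calc rad x * hn v x ^ 2 = (rad x * hn v x) * hn v x := by ring
          _ ≤ (κ * (1 + rad x)) * hn v x := mul_le_mul_of_nonneg_right a1 hh0
          _ = κ * hn v x + rad x * (κ * hn v x) := by ring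
          _ ≤ κ * (rad x * √(gv v x)) + rad x * (κ * hn v x) := by
              have := mul_le_mul_of_nonneg_left p1 hκ
              linarith
          _ = _ := by ring
      exact le_of_mul_le_mul_left a2 h0
  refine ⟨p1, p2, ?_, ?_⟩
  · linarith only [sq_nonneg (hn v x - κ), p2]
  · have a1 : (hn v x ^ 2) ^ 2 ≤ (κ * √(gv v x) + κ * hn v x) ^ 2 := pow_le_pow_left₀ (sq_nonneg _) p2 2
    have a2 : √(gv v x) ^ 2 = gv v x := Real.sq_sqrt hg0
    have a3 : (κ * √(gv v x) + κ * hn v x) ^ 2 ≤ 2 * κ ^ 2 * (√(gv v x) ^ 2 + hn v x ^ 2) := by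
      linarith only [sq_nonneg (κ * (√(gv v x) - hn v x))]
    rw [a2] at a3
    calc hn v x ^ 4 = (hn v x ^ 2) ^ 2 := by ring
      _ ≤ _ := a1.trans a3

end Pool.Agent.H16.TU
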