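/-
ROW Fc (MP_09540e_TU). The fourth moment. PROOF. f1 with `G = v₂³ Ψ` (TF by ba_tf, f = v₂³ bounded with bounded derivatives; pd i (v₂³) = 3 v₂² pd i v₂): `∫ v₂⁴ Ψ ≤ N ∫ (3 v₂² √gv Ψ + |v₂|³ 2 c Ψ)`; `3 N v₂² √gv ≤ v₂⁴/4 + 9 N² gv`, `2 c N |v₂|³ ≤ v₂⁴/4 + 4 c² N² v₂²`:
`∫ v₂⁴Ψ ≤ 18 N² DD + 8 c² N² SS`. By hh `hn⁴ ≤ 2κ²(gv + hn²)`, `∫ hn⁴ Ψ ≤ 2 N² (DD + SS)`. `‖v‖⁴ = (hn² + v₂²)² ≤ 2 hn⁴ + 2 v₂⁴`. Sum: `≤ 36 N² DD + 16 c² N² SS + 4 N² (DD + SS) ≤ 40 N² (DD + (1 + c²) SS)`.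
-/
import Pool.Agent.H16.TU.Fa

set_option autoImplicit false

open Set Filter Topology MeasureTheory
open scoped ContDiff

namespace Pool.Agent.H16.TU

open Pool.Agent.H16 Pool.Agent.H87.NS Pool.Agent.H72.CC

theorem Fc_lc {f g h : E3 → ℝ} (hf : Integrable f) (hg : Integrable g) (hh : Integrable h) (a b c : ℝ) :
    ∫ x, (a * f x + b * g x + c * h x) = a * (∫ x, f x) + b * (∫ x, g x) + c * ∫ x, h x := by
  rw [integral_add (f := fun x => a * f x + b * g x) ((hf.const_mul a).add (hg.const_mul b)) (hh.const_mul c),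
    integral_add (hf.const_mul a) (hg.const_mul b), integral_const_mul, integral_const_mul, integral_const_mul]

theorem Fc_one {c K : ℝ} {Ψ : E3 → ℝ} (w : Wc c Ψ) {v : E3 → E3} (hv : ContDiff ℝ ∞ v)
    (hK : ∀ x, ‖v x‖ ≤ K ∧ gv v x ≤ K) (n : ℕ) :
    Integrable (fun x => gv v x * Ψ x) ∧ Integrable (fun x => ‖v x‖ ^ n * Ψ x) ∧ Integrable (fun x => hn v x ^ n * Ψ x) ∧
      Integrable (fun x => v x 2 ^ n * Ψ x) ∧ Integrable (fun x => √(gv v x) * Ψ x) ∧ Integrable (fun x => |v x 2| ^ n * Ψ x) := by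
  have c2 : Continuous fun x => v x 2 := (Bds1_proj_smooth hv 2).continuous
  have hc := ba_gvc hv
  have hg : ∀ x, 0 ≤ gv v x ∧ hn v x ≤ ‖v x‖ ∧ |v x 2| ≤ ‖v x‖ := fun x => ⟨(ba_gv x 0 0).1, (ba_gv x 0 0).2.2.2.2.1, (ba_gv x 0 0).2.2.2.2.2.1⟩
  have hh : ∀ x, 0 ≤ hn v x := fun x => Real.sqrt_nonneg _
  refine ⟨wi (K := K) w hc.1 fun x => ?_, wi (K := K ^ n) w (hc.2.1.pow n) fun x => ?_, wi (K := K ^ n) w (hc.2.2.pow n) fun x => ?_,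
    wi (K := K ^ n) w (c2.pow n) fun x => ?_, wi (K := √K) w hc.1.sqrt fun x => ?_, wi (K := K ^ n) w (c2.abs.pow n) fun x => ?_⟩
  · rw [abs_of_nonneg (hg x).1]; exact (hK x).2
  · rw [abs_of_nonneg (by positivity)]; exact pow_le_pow_left₀ (norm_nonneg _) (hK x).1 n
  · rw [abs_of_nonneg (pow_nonneg (hh x) n)]; exact pow_le_pow_left₀ (hh x) ((hg x).2.1.trans (hK x).1) n
  · rw [abs_pow]; exact pow_le_pow_left₀ (abs_nonneg _) ((hg x).2.2.trans (hK x).1) n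
  · rw [abs_of_nonneg (Real.sqrt_nonneg _)]; exact Real.sqrt_le_sqrt (hK x).2
  · rw [abs_of_nonneg (by positivity)]; exact pow_le_pow_left₀ (abs_nonneg _) ((hg x).2.2.trans (hK x).1) n

theorem Fc_hg {f : E3 → ℝ} {x : E3} (hf : DifferentiableAt ℝ f x) : hg (fun y => f y ^ 3) x = 3 * f x ^ 2 * hg f x := by
  have h1 : ∀ i : Fin 3, pd i (fun y => f y ^ 3) x = 3 * f x ^ 2 * pd i f x := by
    intro i
    have e : (fun y => f y ^ 3) = fun y => (f y * f y) * f y := by funext y; ring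
    rw [e, Psi_mul (f := fun y => f y * f y) (g := f) (Psi_dmul hf hf) hf, Psi_mul hf hf]
    ring
  unfold hg
  rw [h1, h1]
  have h2 : (3 * f x ^ 2 * pd 0 f x) ^ 2 + (3 * f x ^ 2 * pd 1 f x) ^ 2 = (3 * f x ^ 2) ^ 2 * (pd 0 f x ^ 2 + pd 1 f x ^ 2) := by ring
  rw [h2, Real.sqrt_mul (by positivity), Real.sqrt_sq (by positivity)]

theorem f5 {κ N c : ℝ} {v : E3 → E3} {Ψ : E3 → ℝ} (h : Sl κ N v) (w : Wc c Ψ) :
    QQ v Ψ ≤ 40 * N ^ 2 * (DD v Ψ + (1 + c ^ 2) * SS v Ψ) := by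
  obtain ⟨K, hK0, hK, -, -⟩ := ba_vf h.vf
  have hv := h.ax.smooth
  have hK' : ∀ x, ‖v x‖ ≤ K ∧ gv v x ≤ K := fun x => ⟨(hK x).1, (hK x).2.1⟩
  have hN : 1 ≤ N := h.one.trans h.le
  obtain ⟨i1, j2, j3, i2, -, -⟩ := Fc_one w hv hK' 2
  obtain ⟨-, k1, k2, i5, -, -⟩ := Fc_one w hv hK' 4
  obtain ⟨-, -, -, -, -, i4⟩ := Fc_one w hv hK' 3
  have c2 : Continuous fun x => v x 2 := (Bds1_proj_smooth hv 2).continuous
  have hf0 : ContDiff ℝ 1 (fun x => v x 2) := (Bds1_proj_smooth hv 2).of_le (by norm_cast)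
  have hf : ContDiff ℝ 1 (fun x => v x 2 ^ 3) := hf0.pow 3
  have hv2 : ∀ x, |v x 2| ≤ K := fun x => (ba_gv x 0 0).2.2.2.2.2.1.trans (hK x).1
  have hTF : TF (fun x => v x 2 ^ 3 * Ψ x) := ba_tf (K := 3 * K ^ 3 + K ^ 3) w hf fun x => by
    refine ⟨?_, fun i => ?_⟩
    · rw [abs_pow]
      have := pow_le_pow_left₀ (abs_nonneg _) (hv2 x) 3
      have h3 : 0 ≤ K ^ 3 := by positivity
      linarith
    · have h1 : pd i (fun y => v y 2 ^ 3) x = 3 * v x 2 ^ 2 * pd i (fun y => v y 2) x := by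
        have hd : DifferentiableAt ℝ (fun y => v y 2) x := hf0.differentiable (by norm_num) x
        have e : (fun y => v y 2 ^ 3) = fun y => (v y 2 * v y 2) * v y 2 := by funext y; ring
        rw [e, Psi_mul (f := fun y => v y 2 * v y 2) (g := fun y => v y 2) (Psi_dmul hd hd) hd, Psi_mul hd hd]
        ring
      rw [h1, abs_mul, abs_mul, abs_of_nonneg (by norm_num : (0:ℝ) ≤ 3), abs_pow]
      have h2 := pow_le_pow_left₀ (abs_nonneg _) (hv2 x) 2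
      have h3 := (hK x).2.2.1 i 2
      have h4 : 3 * |v x 2| ^ 2 * |pd i (fun y => v y 2) x| ≤ 3 * K ^ 2 * K :=
        mul_le_mul (by linarith) h3 (abs_nonneg _) (by positivity)
      have h5 : 0 ≤ K ^ 3 := by positivity
      nlinarith
  have iq : Integrable (fun x => (v x 2 ^ 2 * √(gv v x)) * Ψ x) := by
    refine wi (K := K ^ 2 * √K) w ((c2.pow 2).mul (ba_gvc hv).1.sqrt) fun x => ?_
    rw [abs_mul, abs_pow, abs_of_nonneg (Real.sqrt_nonneg _)]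
    exact mul_le_mul (pow_le_pow_left₀ (abs_nonneg _) (hv2 x) 2) (Real.sqrt_le_sqrt (hK x).2.1) (Real.sqrt_nonneg _) (by positivity)
  have e1 := (le_abs_self _).trans (f1 h hTF)
  have e2 : ∫ x, hg (fun x => v x 2 ^ 3 * Ψ x) x ≤ ∫ x, (3 * ((v x 2 ^ 2 * √(gv v x)) * Ψ x) + 2 * c * (|v x 2| ^ 3 * Ψ x)) := by
    refine integral_mono_of_nonneg (ae_of_all _ fun x => Real.sqrt_nonneg _) ((iq.const_mul 3).add (i4.const_mul _)) (ae_of_all _ fun x => ?_)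
    have a1 := ba_hg (f := fun x => v x 2 ^ 3) (Ψ := Ψ) (x := x) (hf.differentiable (by norm_num) x) (w.sm.differentiable (by simp) x)
    have a2 := ba_hgw w x
    have a3 := (ba_gv (v := v) x 0 2).2.2.2.1
    have a4 : |Ψ x| = Ψ x := abs_of_nonneg (w.nn x)
    rw [a4, Fc_hg (f := fun x => v x 2) (hf0.differentiable (by norm_num) x), abs_pow] at a1
    have a5 : 3 * v x 2 ^ 2 * hg (fun x => v x 2) x * Ψ x ≤ 3 * v x 2 ^ 2 * √(gv v x) * Ψ x :=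
      mul_le_mul_of_nonneg_right (mul_le_mul_of_nonneg_left a3 (by positivity)) (w.nn x)
    have a6 : |v x 2| ^ 3 * hg Ψ x ≤ |v x 2| ^ 3 * (2 * c * Ψ x) := mul_le_mul_of_nonneg_left a2 (by positivity)
    show hg (fun x => v x 2 ^ 3 * Ψ x) x ≤ 3 * ((v x 2 ^ 2 * √(gv v x)) * Ψ x) + 2 * c * (|v x 2| ^ 3 * Ψ x)
    linarith
  have e3 : N * ∫ x, (3 * ((v x 2 ^ 2 * √(gv v x)) * Ψ x) + 2 * c * (|v x 2| ^ 3 * Ψ x)) ≤
      ∫ x, (9 * N ^ 2 * (gv v x * Ψ x) + 4 * c ^ 2 * N ^ 2 * (v x 2 ^ 2 * Ψ x) + (1/2) * (v x 2 ^ 4 * Ψ x)) := by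
    rw [← integral_const_mul]
    refine integral_mono (((iq.const_mul 3).add (i4.const_mul _)).const_mul N) (((i1.const_mul _).add (i2.const_mul _)).add (i5.const_mul _)) fun x => ?_
    have b0 : √(gv v x) ^ 2 = gv v x := Real.sq_sqrt (ba_gv x 0 0).1
    have b1 : N * (3 * (v x 2 ^ 2 * √(gv v x))) ≤ 9 * N ^ 2 * gv v x + (1/4) * v x 2 ^ 4 := by
      have b0' : N ^ 2 * gv v x = N ^ 2 * √(gv v x) ^ 2 := by rw [b0]
      nlinarith [sq_nonneg (v x 2 ^ 2 / 2 - 3 * N * √(gv v x))]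
    have b4 : N * (2 * c * |v x 2| ^ 3) ≤ 4 * c ^ 2 * N ^ 2 * v x 2 ^ 2 + (1/4) * v x 2 ^ 4 := by
      have b5 : |v x 2| ^ 2 = v x 2 ^ 2 := sq_abs _
      have b7 : v x 2 ^ 4 = |v x 2| ^ 4 := by
        rw [show v x 2 ^ 4 = (v x 2 ^ 2) ^ 2 by ring, ← b5]; ring
      rw [b7, ← b5]
      nlinarith [sq_nonneg (|v x 2| ^ 2 / 2 - 2 * c * N * |v x 2|)]
    have b6 := mul_le_mul_of_nonneg_right (add_le_add b1 b4) (w.nn x)
    show N * (3 * ((v x 2 ^ 2 * √(gv v x)) * Ψ x) + 2 * c * (|v x 2| ^ 3 * Ψ x)) ≤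
      9 * N ^ 2 * (gv v x * Ψ x) + 4 * c ^ 2 * N ^ 2 * (v x 2 ^ 2 * Ψ x) + (1/2) * (v x 2 ^ 4 * Ψ x)
    linarith
  rw [Fc_lc i1 i2 i5] at e3
  have e4 : ∫ x, v x 2 * (v x 2 ^ 3 * Ψ x) = ∫ x, v x 2 ^ 4 * Ψ x := by
    refine integral_congr_ae (ae_of_all _ fun x => ?_)
    show v x 2 * (v x 2 ^ 3 * Ψ x) = v x 2 ^ 4 * Ψ x
    ring
  rw [e4] at e1
  have e5 := mul_le_mul_of_nonneg_left e2 (by linarith : (0:ℝ) ≤ N)
  have e6 : ∫ x, v x 2 ^ 2 * Ψ x ≤ SS v Ψ := by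
    refine integral_mono i2 j2 fun x => mul_le_mul_of_nonneg_right ?_ (w.nn x)
    have := (ba_gv (v := v) x 0 0).2.2.2.2.2.2
    nlinarith [sq_nonneg (hn v x)]
  have hc : 0 ≤ 4 * c ^ 2 * N ^ 2 := by positivity
  have e7 : ∫ x, v x 2 ^ 4 * Ψ x ≤ 18 * N ^ 2 * DD v Ψ + 8 * c ^ 2 * N ^ 2 * SS v Ψ := by
    have := mul_le_mul_of_nonneg_left e6 hc
    unfold DD
    linarith
  have hDD : 0 ≤ DD v Ψ := integral_nonneg fun x => mul_nonneg (ba_gv x 0 0).1 (w.nn x)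
  have hSS : 0 ≤ SS v Ψ := integral_nonneg fun x => mul_nonneg (by positivity) (w.nn x)
  have e8 : ∫ x, hn v x ^ 4 * Ψ x ≤ 2 * N ^ 2 * (DD v Ψ + SS v Ψ) := by
    have a1 : ∫ x, hn v x ^ 4 * Ψ x ≤ ∫ x, (2 * κ ^ 2 * (gv v x * Ψ x) + 2 * κ ^ 2 * (‖v x‖ ^ 2 * Ψ x) + 0 * Ψ x) := by
      refine integral_mono k2 (((i1.const_mul _).add (j2.const_mul _)).add (w.int.const_mul _)) fun x => ?_
      have b1 := (hh h x).2.2.2
      have b2 := (ba_gv (v := v) x 0 0).2.2.2.2.2.2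
      have b3 : hn v x ^ 4 ≤ 2 * κ ^ 2 * (gv v x + ‖v x‖ ^ 2) :=
        b1.trans (mul_le_mul_of_nonneg_left (by nlinarith [sq_nonneg (v x 2)]) (by positivity))
      have b4 := mul_le_mul_of_nonneg_right b3 (w.nn x)
      show hn v x ^ 4 * Ψ x ≤ 2 * κ ^ 2 * (gv v x * Ψ x) + 2 * κ ^ 2 * (‖v x‖ ^ 2 * Ψ x) + 0 * Ψ x
      linarith
    rw [Fc_lc i1 j2 w.int] at a1
    have h1 : κ ^ 2 ≤ N ^ 2 := pow_le_pow_left₀ (by linarith [h.one]) h.le 2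
    have h2 : 2 * κ ^ 2 * (DD v Ψ + SS v Ψ) ≤ 2 * N ^ 2 * (DD v Ψ + SS v Ψ) :=
      mul_le_mul_of_nonneg_right (by linarith) (by linarith)
    refine le_trans ?_ h2
    unfold DD SS
    linarith
  have e9 : QQ v Ψ ≤ 2 * (∫ x, hn v x ^ 4 * Ψ x) + 2 * (∫ x, v x 2 ^ 4 * Ψ x) + 0 * ∫ x, Ψ x := by
    rw [← Fc_lc k2 i5 w.int]
    refine integral_mono k1 (((k2.const_mul _).add (i5.const_mul _)).add (w.int.const_mul _)) fun x => ?_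
    have b2 := (ba_gv (v := v) x 0 0).2.2.2.2.2.2
    have b3 : ‖v x‖ ^ 4 ≤ 2 * hn v x ^ 4 + 2 * v x 2 ^ 4 := by
      rw [show ‖v x‖ ^ 4 = (‖v x‖ ^ 2) ^ 2 by ring, b2]
      nlinarith [sq_nonneg (hn v x ^ 2 - v x 2 ^ 2)]
    have b4 := mul_le_mul_of_nonneg_right b3 (w.nn x)
    show ‖v x‖ ^ 4 * Ψ x ≤ 2 * (hn v x ^ 4 * Ψ x) + 2 * (v x 2 ^ 4 * Ψ x) + 0 * Ψ x
    linarith
  have h10 : 0 ≤ N ^ 2 * SS v Ψ := by positivity
  have h11 : 0 ≤ c ^ 2 * N ^ 2 * SS v Ψ := by positivity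
  nlinarith [e7, e8, e9, h10, h11]

end Pool.Agent.H16.TU
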