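/-
ROW Aa (MP_09540e_TU). The flux terms. PROOF. Let `Φ = ww N Z R z`, `c = 4/R`. `|lap Φ| ≤ 24/R² Φ` (wt_lap), `|adv (v x) Φ x| ≤ 8κ/R² Φ + (1/(ZNR)) ‖v‖ Φ` (a_h, wt_z, |v₂| ≤ ‖v‖). So the left side is `≤ (24 + 8κ)/R² SS + (1/(ZNR)) ∫ ‖v‖³ Φ`, `‖v‖³ ≤ (R/(2N)) ‖v‖⁴ + (N/(2R)) ‖v‖²`: `≤ 32 κ/R² SS + QQ/(2 Z N²) + SS/(2 Z R²)`;
f5: `QQ ≤ 40 N² (DD + (1 + 16/R²) SS) ≤ 40 N² (DD + 17/R² SS)` (R ≤ 1). Total `≤ (20/Z) DD + (32 κ + 340/Z + 1/(2Z))/R² SS ≤ (20/Z) DD + 400 κ/R² SS`. Integrability: bounded continuous times Φ (wi, ba_vf; |lap Φ|, |pd i Φ| ≤ const Φ).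
-/
import Pool.Agent.H16.TU.Ad0
import Pool.Agent.H16.TU.Fc

set_option autoImplicit false

open Set Filter Topology MeasureTheory
open scoped ContDiff

namespace Pool.Agent.H16.TU

open Pool.Agent.H16 Pool.Agent.H87.NS Pool.Agent.H72.CC

theorem aFl {κ N Z R : ℝ} {v : E3 → E3} (h : Sl κ N v) (hZ : 1 ≤ Z) (hR : 0 < R) (hR1 : R ≤ 1) (z : ℝ) :
    |∫ x, ‖v x‖ ^ 2 * (lap (ww N Z R z) x + adv (v x) (ww N Z R z) x)| ≤
      20 / Z * DD v (ww N Z R z) + 400 * κ / R ^ 2 * SS v (ww N Z R z) := by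
  have hN : 1 ≤ N := h.one.trans h.le
  have hκ : 1 ≤ κ := h.one
  have w : Wc (4 / R) (ww N Z R z) := (ww_ok hN hZ hR z).1
  have hZ0 : 0 < Z := by linarith
  have hN0 : 0 < N := by linarith
  have hL : R ≤ Z * N * R := by
    have h1 : 1 ≤ Z * N := by nlinarith
    nlinarith
  obtain ⟨K, hK0, hK, -, -⟩ := ba_vf h.vf
  have hv := h.ax.smooth
  have hc := (ba_gvc hv).2.1
  have iS : Integrable (fun x => ‖v x‖ ^ 2 * ww N Z R z x) := by
    refine wi (K := K ^ 2) w (hc.pow 2) fun x => ?_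
    rw [abs_of_nonneg (by positivity)]
    exact pow_le_pow_left₀ (norm_nonneg _) (hK x).1 2
  have iQ : Integrable (fun x => ‖v x‖ ^ 4 * ww N Z R z x) := by
    refine wi (K := K ^ 4) w (hc.pow 4) fun x => ?_
    rw [abs_of_nonneg (by positivity)]
    exact pow_le_pow_left₀ (norm_nonneg _) (hK x).1 4
  set a : ℝ := (24 + 8 * κ) / R ^ 2 + 1 / (2 * Z * R ^ 2) with ha
  set b : ℝ := 1 / (2 * Z * N ^ 2) with hb
  have key : ∀ x, ‖‖v x‖ ^ 2 * (lap (ww N Z R z) x + adv (v x) (ww N Z R z) x)‖ ≤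
      a * (‖v x‖ ^ 2 * ww N Z R z x) + b * (‖v x‖ ^ 4 * ww N Z R z x) := by
    intro x
    have hw := w.nn x
    have h1 : |lap (ww N Z R z) x| ≤ 24 / R ^ 2 * ww N Z R z x := wt_lap hR hL z x
    obtain ⟨h2, h3⟩ := a_g h hZ hR hR1 z x
    rw [h2] at h3
    have h4 : |v x 2| ≤ ‖v x‖ := (ba_gv (v := v) x 0 0).2.2.2.2.2.1
    have hn := norm_nonneg (v x)
    have h5 : 1 / (Z * N * R) * (|v x 2| * ww N Z R z x) ≤ 1 / (Z * N * R) * (‖v x‖ * ww N Z R z x) := by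
      apply mul_le_mul_of_nonneg_left _ (by positivity)
      exact mul_le_mul_of_nonneg_right h4 hw
    have h6 : |lap (ww N Z R z) x + adv (v x) (ww N Z R z) x| ≤
        ((24 + 8 * κ) / R ^ 2 + 1 / (Z * N * R) * ‖v x‖) * ww N Z R z x := by
      refine (abs_add_le _ _).trans ?_
      have e1 : ((24 + 8 * κ) / R ^ 2 + 1 / (Z * N * R) * ‖v x‖) * ww N Z R z x =
          24 / R ^ 2 * ww N Z R z x + (8 * κ / R ^ 2 * ww N Z R z x +
            1 / (Z * N * R) * (‖v x‖ * ww N Z R z x)) := by ring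
      rw [e1]
      linarith
    have h7 : ‖v x‖ ^ 2 * ((24 + 8 * κ) / R ^ 2 + 1 / (Z * N * R) * ‖v x‖) ≤
        a * ‖v x‖ ^ 2 + b * ‖v x‖ ^ 4 := by
      have h8 : 1 / (Z * N * R) * ‖v x‖ ≤ 1 / (2 * Z * R ^ 2) + b * ‖v x‖ ^ 2 := by
        have e2 : 1 / (2 * Z * R ^ 2) + b * ‖v x‖ ^ 2 - 1 / (Z * N * R) * ‖v x‖ =
            1 / (2 * Z) * (1 / R - ‖v x‖ / N) ^ 2 := by
          rw [hb]
          field_simp
          ring
        have e3 : 0 ≤ 1 / (2 * Z) * (1 / R - ‖v x‖ / N) ^ 2 := by positivity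
        linarith
      have h9 := mul_le_mul_of_nonneg_left h8 (by positivity : 0 ≤ ‖v x‖ ^ 2)
      rw [ha]
      nlinarith
    rw [Real.norm_eq_abs, abs_mul, abs_of_nonneg (by positivity : (0 : ℝ) ≤ ‖v x‖ ^ 2)]
    calc ‖v x‖ ^ 2 * |lap (ww N Z R z) x + adv (v x) (ww N Z R z) x|
        ≤ ‖v x‖ ^ 2 * (((24 + 8 * κ) / R ^ 2 + 1 / (Z * N * R) * ‖v x‖) * ww N Z R z x) :=
          mul_le_mul_of_nonneg_left h6 (by positivity)
      _ = (‖v x‖ ^ 2 * ((24 + 8 * κ) / R ^ 2 + 1 / (Z * N * R) * ‖v x‖)) * ww N Z R z x := by ring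
      _ ≤ (a * ‖v x‖ ^ 2 + b * ‖v x‖ ^ 4) * ww N Z R z x := mul_le_mul_of_nonneg_right h7 hw
      _ = a * (‖v x‖ ^ 2 * ww N Z R z x) + b * (‖v x‖ ^ 4 * ww N Z R z x) := by ring
  have h10 := norm_integral_le_of_norm_le ((iS.const_mul a).add (iQ.const_mul b))
    (Filter.Eventually.of_forall key)
  have h11 : ∫ x, (a * (‖v x‖ ^ 2 * ww N Z R z x) + b * (‖v x‖ ^ 4 * ww N Z R z x)) =
      a * SS v (ww N Z R z) + b * QQ v (ww N Z R z) := by
    rw [integral_add (iS.const_mul a) (iQ.const_mul b), integral_const_mul, integral_const_mul]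
    rfl
  rw [Real.norm_eq_abs] at h10
  have h12 : |∫ x, ‖v x‖ ^ 2 * (lap (ww N Z R z) x + adv (v x) (ww N Z R z) x)| ≤
      a * SS v (ww N Z R z) + b * QQ v (ww N Z R z) := by
    rw [← h11]
    exact h10
  refine h12.trans ?_
  have h13 := f5 h w
  have hSS : 0 ≤ SS v (ww N Z R z) := integral_nonneg fun x => mul_nonneg (by positivity) (w.nn x)
  have hDD : 0 ≤ DD v (ww N Z R z) := integral_nonneg fun x => mul_nonneg (ba_gv x 0 0).1 (w.nn x)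
  generalize SS v (ww N Z R z) = S at h13 hSS ⊢
  generalize DD v (ww N Z R z) = D at h13 hDD ⊢
  generalize QQ v (ww N Z R z) = Q at h13 ⊢
  have hR2 : 0 < R ^ 2 := by positivity
  have hb0 : 0 ≤ b := by rw [hb]; positivity
  have h14 : b * Q ≤ 20 / Z * D + 20 / Z * (17 / R ^ 2) * S := by
    have e4 : b * (40 * N ^ 2 * (D + (1 + (4 / R) ^ 2) * S)) = 20 / Z * (D + (1 + (4 / R) ^ 2) * S) := by
      rw [hb]
      field_simp
      ring
    have e5 : 1 + (4 / R) ^ 2 ≤ 17 / R ^ 2 := by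
      rw [div_pow, le_div_iff₀ hR2]
      have : (1 + 4 ^ 2 / R ^ 2) * R ^ 2 = R ^ 2 + 16 := by
        field_simp
        ring
      rw [this]
      nlinarith
    have e6 := mul_le_mul_of_nonneg_left h13 hb0
    rw [e4] at e6
    have e7 : 20 / Z * ((1 + (4 / R) ^ 2) * S) ≤ 20 / Z * (17 / R ^ 2 * S) := by
      apply mul_le_mul_of_nonneg_left _ (by positivity)
      exact mul_le_mul_of_nonneg_right e5 hSS
    nlinarith
  have h15 : a * S + 20 / Z * (17 / R ^ 2) * S ≤ 400 * κ / R ^ 2 * S := by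
    rw [← add_mul]
    apply mul_le_mul_of_nonneg_right _ hSS
    have hZi : 1 / Z ≤ 1 := by
      rw [div_le_one hZ0]
      exact hZ
    have e8 : a + 20 / Z * (17 / R ^ 2) = ((24 + 8 * κ) + (1 / Z) * (1 / 2) + (1 / Z) * 340) / R ^ 2 := by
      rw [ha]
      field_simp
      ring
    rw [e8]
    apply div_le_div_of_nonneg_right _ hR2.le
    nlinarith
  linarith

end Pool.Agent.H16.TU
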