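/-
ROW Wd (MP_09540e_TU). Comparability. PROOF. `|rad x - rad y| ≤ ‖x - y‖ ≤ A R` and `|x 2 - y 2| ≤ A R ≤ A L` (the coordinates of `x - y` are bounded by its norm, norm_sq_eq). `1 + rsq y / R² ≤ 1 + 2 rsq x / R² + 2 A² ≤ 4 A² (1 + rsq x / R²)` (rsq y = rad y² ≤ 2 rad x² + 2 A² R²; A ≥ 1),
so `((1+rsq x/R²)²)⁻¹ ≤ (4A²)² ((1+rsq y/R²)²)⁻¹`, and in the same way `(1+(x2-z)²/L²)⁻¹ ≤ 4A² (1+(y2-z)²/L²)⁻¹`. Multiply: `64 A⁶`.
rad_lip: the triangle inequality in the plane (e.g. rad x = ‖hor x‖ with hor of H16/AxiNS.lean, or directly with squares).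
-/
import Pool.Agent.H16.TU.Wa

set_option autoImplicit false

open Set Filter Topology MeasureTheory
open scoped ContDiff

namespace Pool.Agent.H16.TU

open Pool.Agent.H16 Pool.Agent.H87.NS Pool.Agent.H72.CC

theorem rad_lip (x y : E3) : |rad x - rad y| ≤ ‖x - y‖ := by
  have hx0 : 0 ≤ x 0 ^ 2 + x 1 ^ 2 := by positivity
  have hy0 : 0 ≤ y 0 ^ 2 + y 1 ^ 2 := by positivity
  have hd : (x 0 - y 0) ^ 2 + (x 1 - y 1) ^ 2 ≤ ‖x - y‖ ^ 2 := by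
    rw [norm_sq_eq]
    have e0 : (x - y) 0 = x 0 - y 0 := rfl
    have e1 : (x - y) 1 = x 1 - y 1 := rfl
    rw [e0, e1]
    have := sq_nonneg ((x - y) 2)
    linarith
  have hn := norm_nonneg (x - y)
  have hrx : rad x ^ 2 = x 0 ^ 2 + x 1 ^ 2 := Real.sq_sqrt hx0
  have hry : rad y ^ 2 = y 0 ^ 2 + y 1 ^ 2 := Real.sq_sqrt hy0
  have hrx0 : 0 ≤ rad x := Real.sqrt_nonneg _
  have hry0 : 0 ≤ rad y := Real.sqrt_nonneg _
  have key : ∀ a b c d r t n : ℝ, 0 ≤ r → 0 ≤ t → 0 ≤ n → r ^ 2 = a ^ 2 + b ^ 2 → t ^ 2 = c ^ 2 + d ^ 2 →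
      (a - c) ^ 2 + (b - d) ^ 2 ≤ n ^ 2 → r - t ≤ n := by
    intro a b c d r t n hr ht hn' h1 h2 h3
    have h4 : c * (a - c) + d * (b - d) ≤ t * n := by
      refine (abs_le_of_sq_le_sq' ?_ (mul_nonneg ht hn')).2
      rw [mul_pow, h2]
      linarith only [sq_nonneg (c * (b - d) - d * (a - c)),
        mul_le_mul_of_nonneg_left h3 (show 0 ≤ c ^ 2 + d ^ 2 by positivity), h3]
    have h5 : r ≤ t + n := by
      refine (abs_le_of_sq_le_sq' ?_ (by linarith)).2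
      linarith only [h1, h2, h3, h4]
    linarith
  rw [abs_le]
  constructor
  · have h := key (y 0) (y 1) (x 0) (x 1) (rad y) (rad x) ‖x - y‖ hry0 hrx0 hn hry hrx (by linarith only [hd])
    linarith
  · exact key (x 0) (x 1) (y 0) (y 1) (rad x) (rad y) ‖x - y‖ hrx0 hry0 hn hrx hry hd

theorem wt_cmp {A R L : ℝ} (hA : 1 ≤ A) (hR : 0 < R) (hL : R ≤ L) (z : ℝ) {x y : E3} (h : ‖x - y‖ ≤ A * R) :
    wt R L z x ≤ 64 * A ^ 6 * wt R L z y := by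
  have hL0 : 0 < L := lt_of_lt_of_le hR hL
  have hA0 : 0 < A := lt_of_lt_of_le one_pos hA
  have hA2 : 1 ≤ A ^ 2 := one_le_pow₀ hA
  have hrx : rad x ^ 2 = rsq x := Real.sq_sqrt (by positivity)
  have hry : rad y ^ 2 = rsq y := Real.sq_sqrt (by positivity)
  have hrx0 : 0 ≤ rad x := Real.sqrt_nonneg _
  have hry0 : 0 ≤ rad y := Real.sqrt_nonneg _
  have hlip := (abs_le.1 (rad_lip x y)).1
  have h1 : rsq y ≤ 2 * rsq x + 2 * (A * R) ^ 2 := by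
    rw [← hrx, ← hry]
    have h2 : rad y ≤ rad x + A * R := by linarith
    have h3 : rad y ^ 2 ≤ (rad x + A * R) ^ 2 := pow_le_pow_left₀ hry0 h2 2
    linarith only [sq_nonneg (rad x - A * R), h3]
  have hsx : 0 ≤ rsq x / R ^ 2 := by
    rw [← hrx]
    positivity
  have hsy : 0 ≤ rsq y / R ^ 2 := by
    rw [← hry]
    positivity
  have h4 : 1 + rsq y / R ^ 2 ≤ 4 * A ^ 2 * (1 + rsq x / R ^ 2) := by
    have h5 : rsq y / R ^ 2 ≤ 2 * (rsq x / R ^ 2) + 2 * A ^ 2 := by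
      rw [div_le_iff₀ (by positivity)]
      have h6 : (2 * (rsq x / R ^ 2) + 2 * A ^ 2) * R ^ 2 = 2 * rsq x + 2 * (A * R) ^ 2 := by
        field_simp
      rw [h6]
      exact h1
    nlinarith only [hA2, hsx, h5]
  have hz2 : (x 2 - y 2) ^ 2 ≤ (A * R) ^ 2 := by
    have h5 : (x 2 - y 2) ^ 2 ≤ ‖x - y‖ ^ 2 := by
      rw [norm_sq_eq]
      have e2 : (x - y) 2 = x 2 - y 2 := rfl
      rw [e2]
      have := sq_nonneg ((x - y) 0)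
      have := sq_nonneg ((x - y) 1)
      linarith
    exact h5.trans (pow_le_pow_left₀ (norm_nonneg _) h 2)
  have hty : 0 ≤ (y 2 - z) ^ 2 / L ^ 2 := by positivity
  have htx : 0 ≤ (x 2 - z) ^ 2 / L ^ 2 := by positivity
  have h7 : 1 + (y 2 - z) ^ 2 / L ^ 2 ≤ 4 * A ^ 2 * (1 + (x 2 - z) ^ 2 / L ^ 2) := by
    have h5 : (y 2 - z) ^ 2 / L ^ 2 ≤ 2 * ((x 2 - z) ^ 2 / L ^ 2) + 2 * A ^ 2 := by
      rw [div_le_iff₀ (by positivity)]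
      have h6 : (2 * ((x 2 - z) ^ 2 / L ^ 2) + 2 * A ^ 2) * L ^ 2 = 2 * (x 2 - z) ^ 2 + 2 * A ^ 2 * L ^ 2 := by
        field_simp
      rw [h6]
      have h8 : A ^ 2 * R ^ 2 ≤ A ^ 2 * L ^ 2 :=
        mul_le_mul_of_nonneg_left (pow_le_pow_left₀ hR.le hL 2) (by positivity)
      linarith only [sq_nonneg (x 2 - z + (x 2 - y 2)), hz2, h8]
    nlinarith only [hA2, htx, h5]
  unfold wt
  have p1 : ((1 + rsq x / R ^ 2) ^ 2)⁻¹ ≤ 16 * A ^ 4 * ((1 + rsq y / R ^ 2) ^ 2)⁻¹ := by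
    rw [← div_eq_mul_inv, inv_eq_one_div, div_le_div_iff₀ (by positivity) (by positivity)]
    have h8 : (1 + rsq y / R ^ 2) ^ 2 ≤ (4 * A ^ 2 * (1 + rsq x / R ^ 2)) ^ 2 :=
      pow_le_pow_left₀ (by linarith) h4 2
    linarith only [h8]
  have p2 : (1 + (x 2 - z) ^ 2 / L ^ 2)⁻¹ ≤ 4 * A ^ 2 * (1 + (y 2 - z) ^ 2 / L ^ 2)⁻¹ := by
    rw [← div_eq_mul_inv, inv_eq_one_div, div_le_div_iff₀ (by positivity) (by positivity)]
    linarith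
  calc ((1 + rsq x / R ^ 2) ^ 2)⁻¹ * (1 + (x 2 - z) ^ 2 / L ^ 2)⁻¹
      ≤ (16 * A ^ 4 * ((1 + rsq y / R ^ 2) ^ 2)⁻¹) * (4 * A ^ 2 * (1 + (y 2 - z) ^ 2 / L ^ 2)⁻¹) :=
        mul_le_mul p1 p2 (by positivity) (by positivity)
    _ = 64 * A ^ 6 * (((1 + rsq y / R ^ 2) ^ 2)⁻¹ * (1 + (y 2 - z) ^ 2 / L ^ 2)⁻¹) := by ring

end Pool.Agent.H16.TU
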