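/-
ROW We (MP_09540e_TU). The near kernel. PROOF. ne_ker: translation (integral over `ball y l` of a function of `x - y`), then integral_fun_norm_addHaar (Mathlib: `∫ f ‖x‖ = dim • μ.real (ball 0 1) • ∫ r in Ioi 0, r^(dim-1) • f r`), with `f r = r⁻²` for `r < l`, `0` otherwise:
`= 3 (4π/3) l = 4 π l ≤ 13 l` (volume of the unit ball of E3: EuclideanSpace.volume_ball_fin_three or the gamma function formula; only `≤ 13/3` of the volume is needed... `4π < 12.57`). Integrability from the same formula (integrable_fun_norm_addHaar).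
ne_wt: on the ball `wt x ≤ 64 A⁶ wt y` (wt_cmp), so `NE ≤ 64 A⁶ wt y * 13 A R`.
ne_two: all functions are bounded and continuous, `wt` is integrable, so everything is integrable on the product (the kernel `1_{‖x-y‖<l} ‖x-y‖⁻²` is integrable in `y` for fixed `x` with integral ≤ 13 l). Fubini/Tonelli (work with lintegrals or integral_integral_swap):
`∫ b(y) ∫ k(x-y) a(x) wt(x) dx dy ≤ ∫∫ k(x-y) (α x + β y) wt(x) ≤ 13 A R ∫ α wt + ∫ β(y) NE(wt)(y) dy ≤ 832 A⁷ R ∫ (α + β) wt`. (NE has |a wt| = a wt since a ≥ 0.)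
-/
import Pool.Agent.H16.TU.Wb
import Pool.Agent.H16.TU.Wd

set_option autoImplicit false

open Set Filter Topology MeasureTheory
open scoped ContDiff

namespace Pool.Agent.H16.TU

open Pool.Agent.H16 Pool.Agent.H87.NS Pool.Agent.H72.CC

/-- the near kernel -/
noncomputable def We_K (l : ℝ) (x : E3) : ℝ :=
  (Metric.ball (0 : E3) l).indicator (fun x => (‖x‖ ^ 2)⁻¹) x

theorem We_K_nn (l : ℝ) (x : E3) : 0 ≤ We_K l x :=
  Set.indicator_nonneg (fun x _ => by positivity) x

theorem We_K_eq (l : ℝ) (x : E3) : We_K l x = (Iio l).indicator (fun r : ℝ => (r ^ 2)⁻¹) ‖x‖ := by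
  unfold We_K
  by_cases h : ‖x‖ < l
  · rw [Set.indicator_of_mem (by rwa [mem_ball_zero_iff]), Set.indicator_of_mem (Set.mem_Iio.2 h)]
  · rw [Set.indicator_of_notMem (by rwa [mem_ball_zero_iff]),
      Set.indicator_of_notMem (by rwa [Set.mem_Iio])]

theorem We_K_symm (l : ℝ) (x y : E3) : We_K l (x - y) = We_K l (y - x) := by
  rw [We_K_eq, We_K_eq, norm_sub_rev]

theorem We_K_int {l : ℝ} (hl : 0 < l) : Integrable (We_K l) ∧ ∫ x, We_K l x ≤ 13 * l := by
  have hd : Module.finrank ℝ E3 = 3 := by simp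
  refine ⟨?_, ?_⟩
  · have h1 : IntegrableOn (fun x : E3 => (fun r : ℝ => (r ^ 2)⁻¹) ‖x‖) (Metric.ball (0 : E3) l)
        volume := by
      refine (integrableOn_fun_norm_addHaar volume (f := fun r : ℝ => (r ^ 2)⁻¹)).2 ?_
      refine (integrableOn_congr_fun (f := fun _ : ℝ => (1 : ℝ)) ?_ measurableSet_Ioo).1 ?_
      · intro r hr
        have hr0 : r ≠ 0 := hr.1.ne'
        beta_reduce
        rw [hd, smul_eq_mul]
        field_simp
      · exact integrableOn_const (by simp)
    exact (integrable_indicator_iff measurableSet_ball).2 h1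
  · have h1 : ∫ x, We_K l x = ∫ x : E3, (Iio l).indicator (fun r : ℝ => (r ^ 2)⁻¹) ‖x‖ :=
      integral_congr_ae (Filter.Eventually.of_forall fun x => We_K_eq l x)
    rw [h1, integral_fun_norm_addHaar volume, hd]
    have h2 : ∫ y in Ioi (0 : ℝ), y ^ (3 - 1) • (Iio l).indicator (fun r : ℝ => (r ^ 2)⁻¹) y = l := by
      have h3 : ∫ y in Ioi (0 : ℝ), y ^ (3 - 1) • (Iio l).indicator (fun r : ℝ => (r ^ 2)⁻¹) y =
          ∫ y in Ioi (0 : ℝ), (Ioo 0 l).indicator (fun _ => (1 : ℝ)) y := by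
        refine setIntegral_congr_fun measurableSet_Ioi fun r hr => ?_
        have hr1 : 0 < r := hr
        beta_reduce
        by_cases h : r < l
        · rw [Set.indicator_of_mem (Set.mem_Iio.2 h), Set.indicator_of_mem (Set.mem_Ioo.2 ⟨hr1, h⟩),
            smul_eq_mul]
          field_simp
        · rw [Set.indicator_of_notMem (by rwa [Set.mem_Iio]), Set.indicator_of_notMem (by
            rw [Set.mem_Ioo]
            exact fun h' => h h'.2), smul_zero]
      rw [h3, setIntegral_indicator measurableSet_Ioo,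
        Set.inter_eq_self_of_subset_right Ioo_subset_Ioi_self]
      simp [hl.le]
    rw [h2]
    have h4 : (volume : Measure E3).real (Metric.ball 0 1) = Real.pi * 4 / 3 := by
      rw [Measure.real, EuclideanSpace.volume_ball_fin_three, ENNReal.ofReal_one, one_pow, one_mul,
        ENNReal.toReal_ofReal (by positivity)]
    rw [h4]
    simp only [nsmul_eq_mul, smul_eq_mul]
    push_cast
    nlinarith [Real.pi_lt_d2]

theorem We_NE (l : ℝ) (g : E3 → ℝ) (y : E3) : NE l g y = ∫ x, We_K l (x - y) * |g x| := by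
  unfold NE
  rw [← integral_indicator measurableSet_ball]
  refine integral_congr_ae (Filter.Eventually.of_forall fun x => ?_)
  beta_reduce
  by_cases h : x ∈ Metric.ball y l
  · have h' : x - y ∈ Metric.ball (0 : E3) l := by
      rwa [mem_ball_zero_iff, ← dist_eq_norm]
    rw [Set.indicator_of_mem h, We_K, Set.indicator_of_mem h']
  · have h' : x - y ∉ Metric.ball (0 : E3) l := by
      rwa [mem_ball_zero_iff, ← dist_eq_norm]
    rw [Set.indicator_of_notMem h, We_K, Set.indicator_of_notMem h', zero_mul]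

theorem We_Ks {l : ℝ} (hl : 0 < l) (y : E3) : Integrable (fun x => We_K l (x - y)) :=
  (We_K_int hl).1.comp_sub_right y

theorem We_Kv {l : ℝ} (hl : 0 < l) (y : E3) : ∫ x, We_K l (x - y) ≤ 13 * l := by
  rw [integral_sub_right_eq_self (fun x => We_K l x)]
  exact (We_K_int hl).2

/-- the double integral with one function -/
theorem We_dbl {l : ℝ} (hl : 0 < l) {φ : E3 → ℝ} (hφ : Integrable φ) (h0 : ∀ x, 0 ≤ φ x) :
    Integrable (fun y => NE l φ y) ∧ ∫ y, NE l φ y ≤ 13 * l * ∫ x, φ x := by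
  have h1 : Integrable (fun p : E3 × E3 => φ p.2 * We_K l (p.1 - p.2)) (volume.prod volume) :=
    Integrable.convolution_integrand (ContinuousLinearMap.mul ℝ ℝ) hφ (We_K_int hl).1
  have h2 : (fun y => NE l φ y) = fun y => ∫ x, φ x * We_K l (y - x) := by
    funext y
    rw [We_NE]
    refine integral_congr_ae (Filter.Eventually.of_forall fun x => ?_)
    beta_reduce
    rw [abs_of_nonneg (h0 x), We_K_symm, mul_comm]
  rw [h2]
  refine ⟨h1.integral_prod_left, ?_⟩
  rw [integral_integral_swap (f := fun y x => φ x * We_K l (y - x)) h1]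
  have h3 : ∀ x, ∫ y, φ x * We_K l (y - x) = φ x * ∫ y, We_K l y := fun x => by
    rw [integral_const_mul, integral_sub_right_eq_self (fun x => We_K l x)]
  rw [integral_congr_ae (Filter.Eventually.of_forall h3), integral_mul_const, mul_comm]
  exact mul_le_mul_of_nonneg_right (We_K_int hl).2 (integral_nonneg h0)

theorem We_pt {l : ℝ} (hl : 0 < l) {φ : E3 → ℝ} (cφ : Continuous φ) {C : ℝ}
    (h0 : ∀ x, 0 ≤ φ x ∧ φ x ≤ C) (y : E3) : Integrable (fun x => We_K l (x - y) * φ x) :=
  (We_Ks hl y).mul_bdd (c := C) cφ.aestronglyMeasurable (Filter.Eventually.of_forall fun x => by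
    rw [Real.norm_eq_abs, abs_of_nonneg (h0 x).1]
    exact (h0 x).2)

theorem ne_ker {l : ℝ} (hl : 0 < l) (y : E3) : IntegrableOn (fun x : E3 => (‖x - y‖ ^ 2)⁻¹) (Metric.ball y l) ∧
    ∫ x in Metric.ball y l, (‖x - y‖ ^ 2)⁻¹ ≤ 13 * l := by
  have h1 : (fun x => We_K l (x - y)) =
      (Metric.ball y l).indicator (fun x : E3 => (‖x - y‖ ^ 2)⁻¹) := by
    funext x
    by_cases h : x ∈ Metric.ball y l
    · have h' : x - y ∈ Metric.ball (0 : E3) l := by
        rwa [mem_ball_zero_iff, ← dist_eq_norm]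
      rw [Set.indicator_of_mem h, We_K, Set.indicator_of_mem h']
    · have h' : x - y ∉ Metric.ball (0 : E3) l := by
        rwa [mem_ball_zero_iff, ← dist_eq_norm]
      rw [Set.indicator_of_notMem h, We_K, Set.indicator_of_notMem h']
  have h2 := We_Ks hl y
  have h3 := We_Kv hl y
  rw [h1] at h2 h3
  exact ⟨(integrable_indicator_iff measurableSet_ball).1 h2, by
    rwa [integral_indicator measurableSet_ball] at h3⟩

theorem ne_wt {A R L : ℝ} (hA : 1 ≤ A) (hR : 0 < R) (hL : R ≤ L) (z : ℝ) (y : E3) :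
    NE (A * R) (wt R L z) y ≤ 832 * A ^ 7 * R * wt R L z y := by
  have hAR : 0 < A * R := by positivity
  have hL0 : 0 < L := lt_of_lt_of_le hR hL
  have hw := wt_pos hR hL0 z
  rw [We_NE]
  have h1 : ∫ x, We_K (A * R) (x - y) * |wt R L z x| ≤
      ∫ x, We_K (A * R) (x - y) * (64 * A ^ 6 * wt R L z y) := by
    refine integral_mono_of_nonneg (Filter.Eventually.of_forall fun x =>
      mul_nonneg (We_K_nn _ _) (abs_nonneg _)) ((We_Ks hAR y).mul_const _)
      (Filter.Eventually.of_forall fun x => ?_)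
    beta_reduce
    rw [abs_of_pos (hw x)]
    by_cases h : ‖x - y‖ < A * R
    · exact mul_le_mul_of_nonneg_left (wt_cmp hA hR hL z h.le) (We_K_nn _ _)
    · rw [We_K_eq, Set.indicator_of_notMem (by rwa [Set.mem_Iio]), zero_mul, zero_mul]
  refine h1.trans ?_
  rw [integral_mul_const]
  calc (∫ x, We_K (A * R) (x - y)) * (64 * A ^ 6 * wt R L z y) ≤
        13 * (A * R) * (64 * A ^ 6 * wt R L z y) :=
        mul_le_mul_of_nonneg_right (We_Kv hAR y)
          (mul_nonneg (by positivity) (hw y).le)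
    _ = 832 * A ^ 7 * R * wt R L z y := by ring

theorem ne_two {A R L : ℝ} (hA : 1 ≤ A) (hR : 0 < R) (hL : R ≤ L) (z : ℝ) {a b α β : E3 → ℝ} {K : ℝ}
    (ca : Continuous a) (cb : Continuous b) (cα : Continuous α) (cβ : Continuous β)
    (ha : ∀ x, 0 ≤ a x ∧ a x ≤ K) (hb : ∀ x, 0 ≤ b x ∧ b x ≤ K) (hα : ∀ x, 0 ≤ α x ∧ α x ≤ K) (hβ : ∀ x, 0 ≤ β x ∧ β x ≤ K)
    (h : ∀ x y, a x * b y ≤ α x + β y) :
    ∫ y, b y * NE (A * R) (fun x => a x * wt R L z x) y ≤ 832 * A ^ 7 * R * ∫ x, (α x + β x) * wt R L z x := by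
  have hAR : 0 < A * R := by positivity
  have hL0 : 0 < L := lt_of_lt_of_le hR hL
  have hw := wt_pos hR hL0 z
  have hw1 := wt_le hR hL0 z
  have hwc : Continuous (wt R L z) := (wt_sm hR hL0 z).continuous
  have hwi : Integrable (wt R L z) := (wt_int hR hL0 z).1
  obtain ⟨w, hwdef⟩ : ∃ w, w = wt R L z := ⟨_, rfl⟩
  have hwt := fun y => ne_wt hA hR hL z y
  rw [← hwdef] at hw hw1 hwc hwi hwt ⊢
  have hbd : ∀ {γ : E3 → ℝ}, Continuous γ → (∀ x, 0 ≤ γ x ∧ γ x ≤ K) →
      Integrable (fun x => γ x * w x) := fun {γ} cγ hγ =>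
    hwi.bdd_mul (c := K) cγ.aestronglyMeasurable (Filter.Eventually.of_forall fun x => by
      rw [Real.norm_eq_abs, abs_of_nonneg (hγ x).1]
      exact (hγ x).2)
  have hpw : ∀ {γ : E3 → ℝ}, (∀ x, 0 ≤ γ x ∧ γ x ≤ K) → ∀ x, 0 ≤ γ x * w x ∧ γ x * w x ≤ K :=
    fun {γ} hγ x => ⟨mul_nonneg (hγ x).1 (hw x).le, by
      have h5 := mul_le_mul_of_nonneg_left (hw1 x) (hγ x).1
      rw [mul_one] at h5
      exact h5.trans (hγ x).2⟩
  obtain ⟨i1, v1⟩ := We_dbl hAR (hbd cα hα) (fun x => (hpw hα x).1)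
  obtain ⟨i2, -⟩ := We_dbl hAR hwi (fun x => (hw x).le)
  have i3 : Integrable (fun y => β y * NE (A * R) w y) :=
    i2.bdd_mul (c := K) cβ.aestronglyMeasurable (Filter.Eventually.of_forall fun x => by
      rw [Real.norm_eq_abs, abs_of_nonneg (hβ x).1]
      exact (hβ x).2)
  have hpt : ∀ y, b y * NE (A * R) (fun x => a x * w x) y ≤
      NE (A * R) (fun x => α x * w x) y + β y * NE (A * R) w y := by
    intro y
    have j1 : Integrable (fun x => We_K (A * R) (x - y) * (α x * w x)) :=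
      We_pt hAR (cα.mul hwc) (hpw hα) y
    have j2 := We_pt hAR hwc (C := 1) (fun x => ⟨(hw x).le, hw1 x⟩) y
    rw [We_NE, We_NE, We_NE, ← integral_const_mul, ← integral_const_mul]
    have e1 : ∫ x, We_K (A * R) (x - y) * |α x * w x| =
        ∫ x, We_K (A * R) (x - y) * (α x * w x) :=
      integral_congr_ae (Filter.Eventually.of_forall fun x => by
        beta_reduce
        rw [abs_of_nonneg (hpw hα x).1])
    have e2 : ∫ x, β y * (We_K (A * R) (x - y) * |w x|) =
        ∫ x, β y * (We_K (A * R) (x - y) * w x) :=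
      integral_congr_ae (Filter.Eventually.of_forall fun x => by
        beta_reduce
        rw [abs_of_pos (hw x)])
    rw [e1, e2, ← integral_add j1 (j2.const_mul _)]
    refine integral_mono_of_nonneg (Filter.Eventually.of_forall fun x =>
      mul_nonneg (hb y).1 (mul_nonneg (We_K_nn _ _) (abs_nonneg _))) (j1.add (j2.const_mul _))
      (Filter.Eventually.of_forall fun x => ?_)
    beta_reduce
    rw [abs_of_nonneg (hpw ha x).1]
    have h6 := mul_le_mul_of_nonneg_left (h x y) (mul_nonneg (We_K_nn (A * R) (x - y)) (hw x).le)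
    calc b y * (We_K (A * R) (x - y) * (a x * w x)) =
          We_K (A * R) (x - y) * w x * (a x * b y) := by ring
      _ ≤ We_K (A * R) (x - y) * w x * (α x + β y) := h6
      _ = We_K (A * R) (x - y) * (α x * w x) + β y * (We_K (A * R) (x - y) * w x) := by ring
  have k1 : ∫ y, b y * NE (A * R) (fun x => a x * w x) y ≤
      ∫ y, (NE (A * R) (fun x => α x * w x) y + β y * NE (A * R) w y) := by
    refine integral_mono_of_nonneg (Filter.Eventually.of_forall fun y => ?_) (i1.add i3)
      (Filter.Eventually.of_forall hpt)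
    refine mul_nonneg (hb y).1 ?_
    rw [We_NE]
    exact integral_nonneg fun x => mul_nonneg (We_K_nn _ _) (abs_nonneg _)
  rw [integral_add i1 i3] at k1
  have k2 : ∫ y, β y * NE (A * R) w y ≤ ∫ y, 832 * A ^ 7 * R * (β y * w y) := by
    refine integral_mono i3 ((hbd cβ hβ).const_mul _) fun y => ?_
    beta_reduce
    have h7 := mul_le_mul_of_nonneg_left (hwt y) (hβ y).1
    linarith
  rw [integral_const_mul] at k2
  have k3 : ∫ x, (α x + β x) * w x = (∫ x, α x * w x) + ∫ x, β x * w x := by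
    rw [← integral_add (hbd cα hα) (hbd cβ hβ)]
    refine integral_congr_ae (Filter.Eventually.of_forall fun x => ?_)
    beta_reduce
    ring
  have k4 : 13 * (A * R) * (∫ x, α x * w x) ≤ 832 * A ^ 7 * R * (∫ x, α x * w x) := by
    refine mul_le_mul_of_nonneg_right ?_ (integral_nonneg fun x => (hpw hα x).1)
    have h8 : A ≤ A ^ 7 := le_self_pow₀ hA (by norm_num)
    nlinarith
  rw [k3, mul_add]
  linarith

end Pool.Agent.H16.TU
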