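/-
ROW Ab (MP_09540e_TU). The near part of the pressure. PROOF. Let `Φ = ww N Z R z`, `L = Z N R ≥ R`, `g = dv F`, `|g| ≤ (8κ/R²) Φ + (1/L) |v₂| Φ` (a_g), so `NE l g ≤ (8κ/R²) NE l Φ + (1/L) NE l (|v₂| Φ)` (l = A R; the kernel is integrable on the ball, everything bounded: ne_ker). `b = ‖v‖ √(gv v)` is bounded, continuous (ba_vf, ba_gvc).
First: ne_wt: `(8κ/R²) 832 A⁷ R ∫ b Φ = (6656 A⁷ κ/R) ∫ ‖v‖√gv Φ ≤ δ DD + (6656 A⁷ κ)²/(4δR²) SS`. Second: ne_two with `a = |v₂|`, `b`, `α = ‖v‖⁴/(4N)`, `β = N gv/2 + ‖v‖⁴/(4N)`: `|v₂(x)| ‖v(y)‖ √gv(y) ≤ (N/2) gv(y) + v₂(x)² ‖v(y)‖²/(2N) ≤ (N/2) gv(y) + (‖v(x)‖⁴ + ‖v(y)‖⁴)/(4N)`: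
`(1/L) 832 A⁷ R (N DD/2 + QQ/(2N)) ≤ (832 A⁷/(Z N)) (N DD/2 + 20 N (DD + 17 SS/R²)) = (832 A⁷/Z) (20.5 DD + 340 SS/R²)` (f5, c = 4/R, R ≤ 1). So `C = 5·10⁷ A^14` works (1 ≤ κ, δ ≤ 1, 1 ≤ Z).
-/
import Pool.Agent.H16.TU.Ad0
import Pool.Agent.H16.TU.Fc
import Pool.Agent.H16.TU.We

set_option autoImplicit false

open Set Filter Topology MeasureTheory
open scoped ContDiff

namespace Pool.Agent.H16.TU

open Pool.Agent.H16 Pool.Agent.H87.NS Pool.Agent.H72.CC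

lemma Ab_mono {l a b C₁ C₂ : ℝ} (hl : 0 < l) {g g₁ g₂ : E3 → ℝ} (c1 : Continuous g₁) (c2 : Continuous g₂)
    (b1 : ∀ x, 0 ≤ g₁ x ∧ g₁ x ≤ C₁) (b2 : ∀ x, 0 ≤ g₂ x ∧ g₂ x ≤ C₂)
    (h : ∀ x, |g x| ≤ a * g₁ x + b * g₂ x) (y : E3) : NE l g y ≤ a * NE l g₁ y + b * NE l g₂ y := by
  have j1 := We_pt hl c1 b1 y
  have j2 := We_pt hl c2 b2 y
  have e1 : NE l g₁ y = ∫ x, We_K l (x - y) * g₁ x := by
    rw [We_NE]
    refine integral_congr_ae (Filter.Eventually.of_forall fun x => ?_)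
    show We_K l (x - y) * |g₁ x| = _
    rw [abs_of_nonneg (b1 x).1]
  have e2 : NE l g₂ y = ∫ x, We_K l (x - y) * g₂ x := by
    rw [We_NE]
    refine integral_congr_ae (Filter.Eventually.of_forall fun x => ?_)
    show We_K l (x - y) * |g₂ x| = _
    rw [abs_of_nonneg (b2 x).1]
  rw [e1, e2, We_NE, ← integral_const_mul, ← integral_const_mul, ← integral_add (j1.const_mul a) (j2.const_mul b)]
  refine integral_mono_of_nonneg (Filter.Eventually.of_forall fun x => ?_) ((j1.const_mul a).add (j2.const_mul b))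
    (Filter.Eventually.of_forall fun x => ?_)
  · exact mul_nonneg (We_K_nn l (x - y)) (abs_nonneg _)
  · have := mul_le_mul_of_nonneg_left (h x) (We_K_nn l (x - y))
    show We_K l (x - y) * |g x| ≤ a * (We_K l (x - y) * g₁ x) + b * (We_K l (x - y) * g₂ x)
    linarith

lemma Ab_nn {l : ℝ} (g : E3 → ℝ) (y : E3) : 0 ≤ NE l g y := by
  rw [We_NE]
  exact integral_nonneg fun x => mul_nonneg (We_K_nn l (x - y)) (abs_nonneg _)

lemma Ab_arith {κ N Z R L A δ X D S Q I J : ℝ} (hκ : 1 ≤ κ) (hN : 1 ≤ N) (hZ : 1 ≤ Z) (hR : 0 < R) (hR1 : R ≤ 1)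
    (hL : L = Z * N * R) (hA : 1 ≤ A) (hδ : 0 < δ) (hδ1 : δ ≤ 1) (hD : 0 ≤ D) (hS : 0 ≤ S)
    (h0 : X ≤ 8 * κ / R ^ 2 * (832 * A ^ 7 * R * I) + 1 / L * (832 * A ^ 7 * R * J))
    (hI : 6656 * A ^ 7 * κ / R * I ≤ δ * D + (6656 * A ^ 7 * κ) ^ 2 / (4 * δ * R ^ 2) * S)
    (hJ : J ≤ Q / (2 * N) + N * D / 2) (hQ : Q ≤ 40 * N ^ 2 * (D + (1 + (4 / R) ^ 2) * S)) :
    X ≤ (δ + ((6656 * A ^ 7) ^ 2 + 832 * 340 * A ^ 7) / Z) * D + ((6656 * A ^ 7) ^ 2 + 832 * 340 * A ^ 7) * κ ^ 2 / δ / R ^ 2 * S := by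
  have hL0 : 0 < L := by rw [hL]; positivity
  have hA7 : 0 < A ^ 7 := by positivity
  have k1 : 8 * κ / R ^ 2 * (832 * A ^ 7 * R * I) = 6656 * A ^ 7 * κ / R * I := by
    field_simp
    ring
  have k2 : (1 + (4 / R) ^ 2) * S ≤ 17 / R ^ 2 * S := by
    refine mul_le_mul_of_nonneg_right ?_ hS
    rw [div_pow, ← sub_nonneg]
    have : 17 / R ^ 2 - (1 + 4 ^ 2 / R ^ 2) = (1 - R ^ 2) / R ^ 2 := by
      field_simp
      ring
    rw [this]
    have : R ^ 2 ≤ 1 := by nlinarith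
    exact div_nonneg (by linarith) (by positivity)
  have k3 : Q / (2 * N) ≤ 20 * N * (D + 17 / R ^ 2 * S) := by
    rw [div_le_iff₀ (by positivity)]
    have : 40 * N ^ 2 * (D + (1 + (4 / R) ^ 2) * S) ≤ 40 * N ^ 2 * (D + 17 / R ^ 2 * S) :=
      mul_le_mul_of_nonneg_left (by linarith) (by positivity)
    linarith
  have k4 : J ≤ N * (41 / 2 * D + 340 / R ^ 2 * S) := by
    have e : N * (41 / 2 * D + 340 / R ^ 2 * S) = 20 * N * (D + 17 / R ^ 2 * S) + N * D / 2 := by ring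
    linarith
  have k5 : 1 / L * (832 * A ^ 7 * R * J) ≤ 1 / L * (832 * A ^ 7 * R * (N * (41 / 2 * D + 340 / R ^ 2 * S))) :=
    mul_le_mul_of_nonneg_left (mul_le_mul_of_nonneg_left k4 (by positivity)) (by positivity)
  have k6 : 1 / L * (832 * A ^ 7 * R * (N * (41 / 2 * D + 340 / R ^ 2 * S))) =
      (832 * A ^ 7) * 1 / Z * (41 / 2 * D) + (832 * 340 * A ^ 7) / Z / R ^ 2 * S := by
    rw [hL]
    field_simp
  have k7 : (832 * A ^ 7) * 1 / Z * (41 / 2 * D) ≤ ((6656 * A ^ 7) ^ 2 + 832 * 340 * A ^ 7) / Z * D := by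
    have : (832 * A ^ 7) * 1 / Z * (41 / 2 * D) = (832 * (41/2) * A ^ 7) / Z * D := by ring
    rw [this]
    have a3 : 832 * (41/2) * A ^ 7 ≤ (6656 * A ^ 7) ^ 2 + 832 * 340 * A ^ 7 := by
      have := sq_nonneg (6656 * A ^ 7)
      linarith
    exact mul_le_mul_of_nonneg_right (div_le_div_of_nonneg_right a3 (by linarith)) hD
  have k8 : (832 * 340 * A ^ 7) / Z / R ^ 2 * S ≤ (832 * 340 * A ^ 7) * κ ^ 2 / δ / R ^ 2 * S := by
    have hB : 0 ≤ 832 * 340 * A ^ 7 := by positivity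
    have a1 : (832 * 340 * A ^ 7) / Z ≤ 832 * 340 * A ^ 7 := div_le_self hB hZ
    have a2 : 832 * 340 * A ^ 7 ≤ (832 * 340 * A ^ 7) * κ ^ 2 / δ := by
      rw [le_div_iff₀ hδ]
      have h1 : δ ≤ κ ^ 2 := by nlinarith
      exact mul_le_mul_of_nonneg_left h1 hB
    have hR2 : 0 ≤ R ^ 2 := by positivity
    exact mul_le_mul_of_nonneg_right (div_le_div_of_nonneg_right (le_trans a1 a2) hR2) hS
  have k9 : (6656 * A ^ 7 * κ) ^ 2 / (4 * δ * R ^ 2) * S ≤ (6656 * A ^ 7) ^ 2 * κ ^ 2 / δ / R ^ 2 * S := by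
    refine mul_le_mul_of_nonneg_right ?_ hS
    have e : (6656 * A ^ 7 * κ) ^ 2 / (4 * δ * R ^ 2) = 1 / 4 * ((6656 * A ^ 7) ^ 2 * κ ^ 2 / δ / R ^ 2) := by
      field_simp
    rw [e]
    have : 0 ≤ (6656 * A ^ 7) ^ 2 * κ ^ 2 / δ / R ^ 2 := by positivity
    linarith
  have e9 : (δ + ((6656 * A ^ 7) ^ 2 + 832 * 340 * A ^ 7) / Z) * D + ((6656 * A ^ 7) ^ 2 + 832 * 340 * A ^ 7) * κ ^ 2 / δ / R ^ 2 * S =
      δ * D + ((6656 * A ^ 7) ^ 2 + 832 * 340 * A ^ 7) / Z * D + ((6656 * A ^ 7) ^ 2 * κ ^ 2 / δ / R ^ 2 * S +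
        (832 * 340 * A ^ 7) * κ ^ 2 / δ / R ^ 2 * S) := by ring
  rw [e9]
  linarith

theorem aNe {A : ℝ} (hA : 1 ≤ A) : ∃ C : ℝ, 0 < C ∧ ∀ (κ N R Z δ z : ℝ) (v : E3 → E3), Sl κ N v → 0 < R → R ≤ 1 → 1 ≤ Z → 0 < δ → δ ≤ 1 →
    ∫ y, ‖v y‖ * √(gv v y) * NE (A * R) (dv (fun k x => v x k * ww N Z R z x)) y ≤
      (δ + C / Z) * DD v (ww N Z R z) + C * κ ^ 2 / δ / R ^ 2 * SS v (ww N Z R z) := by
  refine ⟨(6656 * A ^ 7) ^ 2 + 832 * 340 * A ^ 7, by positivity, ?_⟩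
  intro κ N R Z δ z v hv hR hR1 hZ hδ hδ1
  have hκ := hv.one
  have hN : 1 ≤ N := le_trans hκ hv.le
  set L : ℝ := Z * N * R with hL
  have hZN : 1 ≤ Z * N := one_le_mul_of_one_le_of_one_le hZ hN
  have hRL : R ≤ L := by
    rw [hL]
    nlinarith
  have hL0 : 0 < L := lt_of_lt_of_le hR hRL
  obtain ⟨K, hK0, hK, hi2, higv⟩ := ba_vf hv.vf
  obtain ⟨cg, cn, -⟩ := ba_gvc hv.ax.smooth
  have c2 : Continuous (fun y => v y 2) := (Psi_v2 hv.ax).continuous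
  have hl : 0 < A * R := by positivity
  have w := wt_wc hR hRL z
  have hw0 : ∀ x, 0 ≤ wt R L z x := w.nn
  have hw1 : ∀ x, wt R L z x ≤ 1 := w.le
  have hwi : Integrable (wt R L z) := w.int
  have cw : Continuous (wt R L z) := w.sm.continuous
  have hv2 : ∀ x, |v x 2| ≤ ‖v x‖ := fun x => (ba_gv x 0 0).2.2.2.2.2.1
  have hg0 : ∀ x, 0 ≤ gv v x := fun x => (ba_gv x 0 0).1
  -- the function b
  set b : E3 → ℝ := fun y => ‖v y‖ * √(gv v y) with hb
  have cb : Continuous b := cn.mul cg.sqrt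
  have hb0 : ∀ y, 0 ≤ b y := fun y => mul_nonneg (norm_nonneg _) (Real.sqrt_nonneg _)
  have hbK : ∀ y, b y ≤ K * √K := fun y =>
    mul_le_mul (hK y).1 (Real.sqrt_le_sqrt (hK y).2.1) (Real.sqrt_nonneg _) hK0
  have cvw : Continuous (fun x => |v x 2| * wt R L z x) := c2.abs.mul cw
  have hvw : ∀ x, 0 ≤ |v x 2| * wt R L z x ∧ |v x 2| * wt R L z x ≤ K := fun x =>
    ⟨mul_nonneg (abs_nonneg _) (hw0 x), by
      have h1 := mul_le_mul_of_nonneg_left (hw1 x) (abs_nonneg (v x 2))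
      have h2 := le_trans (hv2 x) (hK x).1
      linarith⟩
  have hvwi : Integrable (fun x => |v x 2| * wt R L z x) :=
    wi w c2.abs (K := K) (fun x => by rw [abs_abs]; exact le_trans (hv2 x) (hK x).1)
  have i1 : Integrable (fun y => b y * NE (A * R) (wt R L z) y) := by
    refine Integrable.bdd_mul (c := K * √K) (We_dbl hl hwi hw0).1 cb.aestronglyMeasurable ?_
    refine Filter.Eventually.of_forall fun y => ?_
    rw [Real.norm_eq_abs, abs_of_nonneg (hb0 y)]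
    exact hbK y
  have i2 : Integrable (fun y => b y * NE (A * R) (fun x => |v x 2| * wt R L z x) y) := by
    refine Integrable.bdd_mul (c := K * √K) (We_dbl hl hvwi fun x => (hvw x).1).1 cb.aestronglyMeasurable ?_
    refine Filter.Eventually.of_forall fun y => ?_
    rw [Real.norm_eq_abs, abs_of_nonneg (hb0 y)]
    exact hbK y
  have hmain : ∫ y, b y * NE (A * R) (dv (fun k x => v x k * ww N Z R z x)) y ≤
      8 * κ / R ^ 2 * (∫ y, b y * NE (A * R) (wt R L z) y) +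
      1 / L * ∫ y, b y * NE (A * R) (fun x => |v x 2| * wt R L z x) y := by
    rw [← integral_const_mul, ← integral_const_mul, ← integral_add (i1.const_mul _) (i2.const_mul _)]
    refine integral_mono_of_nonneg (Filter.Eventually.of_forall fun y => ?_) ((i1.const_mul _).add (i2.const_mul _))
      (Filter.Eventually.of_forall fun y => ?_)
    · exact mul_nonneg (hb0 y) (Ab_nn _ y)
    · have h := Ab_mono (a := 8 * κ / R ^ 2) (b := 1 / L) hl (g := dv (fun k x => v x k * ww N Z R z x)) cw cvw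
        (fun x => ⟨hw0 x, hw1 x⟩) hvw (fun x => (a_g hv hZ hR hR1 z x).2) y
      have h' := mul_le_mul_of_nonneg_left h (hb0 y)
      show b y * NE (A * R) (dv (fun k x => v x k * ww N Z R z x)) y ≤ 8 * κ / R ^ 2 * (b y * NE (A * R) (wt R L z) y) +
        1 / L * (b y * NE (A * R) (fun x => |v x 2| * wt R L z x) y)
      linarith
  -- first
  have ibw : Integrable (fun y => b y * wt R L z y) :=
    wi w cb (K := K * √K) (fun x => by rw [abs_of_nonneg (hb0 x)]; exact hbK x)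
  have hfirst : ∫ y, b y * NE (A * R) (wt R L z) y ≤ 832 * A ^ 7 * R * ∫ y, b y * wt R L z y := by
    rw [← integral_const_mul]
    refine integral_mono i1 (ibw.const_mul _) fun y => ?_
    have := mul_le_mul_of_nonneg_left (ne_wt hA hR hRL z y) (hb0 y)
    calc b y * NE (A * R) (wt R L z) y ≤ b y * (832 * A ^ 7 * R * wt R L z y) := this
      _ = 832 * A ^ 7 * R * (b y * wt R L z y) := by ring
  -- second
  have hN0 : 0 < N := by linarith
  have c4 : Continuous (fun x => ‖v x‖ ^ 4 / (4 * N)) := (cn.pow 4).div_const _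
  have cβ : Continuous (fun x => N / 2 * gv v x + ‖v x‖ ^ 4 / (4 * N)) := (continuous_const.mul cg).add c4
  have hn4 : ∀ x, ‖v x‖ ^ 4 ≤ K ^ 4 := fun x => pow_le_pow_left₀ (norm_nonneg _) (hK x).1 4
  have hsecond := ne_two (A := A) (K := K + K * √K + K ^ 4 / (4 * N) + N / 2 * K) hA hR hRL z c2.abs cb c4 cβ
    (fun x => ⟨abs_nonneg _, by
      have h1 := le_trans (hv2 x) (hK x).1
      have h2 : 0 ≤ K * √K + K ^ 4 / (4 * N) + N / 2 * K := by positivity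
      linarith⟩)
    (fun x => ⟨hb0 x, by
      have h1 := hbK x
      have h2 : 0 ≤ K + K ^ 4 / (4 * N) + N / 2 * K := by positivity
      linarith⟩)
    (fun x => ⟨by positivity, by
      have h1 : ‖v x‖ ^ 4 / (4 * N) ≤ K ^ 4 / (4 * N) := div_le_div_of_nonneg_right (hn4 x) (by positivity)
      have h2 : 0 ≤ K + K * √K + N / 2 * K := by positivity
      linarith⟩)
    (fun x => ⟨by have := hg0 x; positivity, by
      have h1 : ‖v x‖ ^ 4 / (4 * N) ≤ K ^ 4 / (4 * N) := div_le_div_of_nonneg_right (hn4 x) (by positivity)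
      have h2 : 0 ≤ K + K * √K := by positivity
      have h3 : N / 2 * gv v x ≤ N / 2 * K := mul_le_mul_of_nonneg_left (hK x).2.1 (by positivity)
      linarith⟩)
    (fun x y => by
      show |v x 2| * (‖v y‖ * √(gv v y)) ≤ ‖v x‖ ^ 4 / (4 * N) + (N / 2 * gv v y + ‖v y‖ ^ 4 / (4 * N))
      have hs : √(gv v y) ^ 2 = gv v y := Real.sq_sqrt (hg0 y)
      have h1 : |v x 2| * (‖v y‖ * √(gv v y)) ≤ ‖v x‖ * (‖v y‖ * √(gv v y)) :=
        mul_le_mul_of_nonneg_right (hv2 x) (hb0 y)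
      set s := √(gv v y)
      set p := ‖v x‖
      set q := ‖v y‖
      have h2 : p * (q * s) ≤ N / 2 * s ^ 2 + (p * q) ^ 2 / (2 * N) := by
        have : N / 2 * s ^ 2 + (p * q) ^ 2 / (2 * N) - p * (q * s) = (N * s - p * q) ^ 2 / (2 * N) := by
          field_simp
          ring
        have h3 : 0 ≤ (N * s - p * q) ^ 2 / (2 * N) := by positivity
        linarith
      have h4 : (p * q) ^ 2 / (2 * N) ≤ p ^ 4 / (4 * N) + q ^ 4 / (4 * N) := by
        have : p ^ 4 / (4 * N) + q ^ 4 / (4 * N) - (p * q) ^ 2 / (2 * N) = (p ^ 2 - q ^ 2) ^ 2 / (4 * N) := by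
          field_simp
          ring
        have h3 : 0 ≤ (p ^ 2 - q ^ 2) ^ 2 / (4 * N) := by positivity
        linarith
      rw [hs] at h2
      linarith)
  -- integrals
  have iD : Integrable (fun x => gv v x * wt R L z x) :=
    wi w cg (K := K) (fun x => by rw [abs_of_nonneg (hg0 x)]; exact (hK x).2.1)
  have iQ : Integrable (fun x => ‖v x‖ ^ 4 * wt R L z x) :=
    wi w (cn.pow 4) (K := K ^ 4) (fun x => by
      show |‖v x‖ ^ 4| ≤ K ^ 4
      rw [abs_of_nonneg (by positivity)]; exact hn4 x)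
  have iS : Integrable (fun x => ‖v x‖ ^ 2 * wt R L z x) :=
    wi w (cn.pow 2) (K := K ^ 2) (fun x => by
      show |‖v x‖ ^ 2| ≤ K ^ 2
      rw [abs_of_nonneg (by positivity)]; exact pow_le_pow_left₀ (norm_nonneg _) (hK x).1 2)
  have hJ : ∫ x, (‖v x‖ ^ 4 / (4 * N) + (N / 2 * gv v x + ‖v x‖ ^ 4 / (4 * N))) * wt R L z x ≤
      QQ v (ww N Z R z) / (2 * N) + N * DD v (ww N Z R z) / 2 := by
    have e : (fun x => (‖v x‖ ^ 4 / (4 * N) + (N / 2 * gv v x + ‖v x‖ ^ 4 / (4 * N))) * wt R L z x) =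
        fun x => (2 * N)⁻¹ * (‖v x‖ ^ 4 * wt R L z x) + N / 2 * (gv v x * wt R L z x) := by
      funext x
      field_simp
      ring
    rw [e, integral_add (iQ.const_mul _) (iD.const_mul _), integral_const_mul, integral_const_mul]
    refine le_of_eq ?_
    show (2 * N)⁻¹ * QQ v (ww N Z R z) + N / 2 * DD v (ww N Z R z) = _
    ring
  have hI : 6656 * A ^ 7 * κ / R * (∫ y, b y * wt R L z y) ≤
      δ * DD v (ww N Z R z) + (6656 * A ^ 7 * κ) ^ 2 / (4 * δ * R ^ 2) * SS v (ww N Z R z) := by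
    have e : δ * DD v (ww N Z R z) + (6656 * A ^ 7 * κ) ^ 2 / (4 * δ * R ^ 2) * SS v (ww N Z R z) =
        ∫ x, (δ * (gv v x * wt R L z x) + (6656 * A ^ 7 * κ) ^ 2 / (4 * δ * R ^ 2) * (‖v x‖ ^ 2 * wt R L z x)) := by
      rw [integral_add (iD.const_mul _) (iS.const_mul _), integral_const_mul, integral_const_mul]
      rfl
    rw [e, ← integral_const_mul]
    refine integral_mono (ibw.const_mul _) ((iD.const_mul _).add (iS.const_mul _)) fun x => ?_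
    show 6656 * A ^ 7 * κ / R * (‖v x‖ * √(gv v x) * wt R L z x) ≤
      δ * (gv v x * wt R L z x) + (6656 * A ^ 7 * κ) ^ 2 / (4 * δ * R ^ 2) * (‖v x‖ ^ 2 * wt R L z x)
    have hs : √(gv v x) ^ 2 = gv v x := Real.sq_sqrt (hg0 x)
    set s := √(gv v x)
    set m := 6656 * A ^ 7 * κ
    have h3 : m / R * (‖v x‖ * s) ≤ δ * s ^ 2 + m ^ 2 / (4 * δ * R ^ 2) * ‖v x‖ ^ 2 := by
      have : δ * s ^ 2 + m ^ 2 / (4 * δ * R ^ 2) * ‖v x‖ ^ 2 - m / R * (‖v x‖ * s) =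
          (2 * δ * R * s - m * ‖v x‖) ^ 2 / (4 * δ * R ^ 2) := by
        field_simp
        ring
      have h4 : 0 ≤ (2 * δ * R * s - m * ‖v x‖) ^ 2 / (4 * δ * R ^ 2) := by positivity
      linarith
    rw [hs] at h3
    have := mul_le_mul_of_nonneg_right h3 (hw0 x)
    linarith
  have hD0 : 0 ≤ DD v (ww N Z R z) := integral_nonneg fun x => mul_nonneg (hg0 x) (hw0 x)
  have hS0 : 0 ≤ SS v (ww N Z R z) := integral_nonneg fun x => mul_nonneg (by positivity) (hw0 x)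
  have hκR : 0 ≤ 8 * κ / R ^ 2 := by positivity
  have hfin : ∫ y, b y * NE (A * R) (dv (fun k x => v x k * ww N Z R z x)) y ≤
      8 * κ / R ^ 2 * (832 * A ^ 7 * R * ∫ y, b y * wt R L z y) + 1 / L * (832 * A ^ 7 * R *
        ∫ x, (‖v x‖ ^ 4 / (4 * N) + (N / 2 * gv v x + ‖v x‖ ^ 4 / (4 * N))) * wt R L z x) := by
    have h1 := mul_le_mul_of_nonneg_left hfirst hκR
    have h2 := mul_le_mul_of_nonneg_left hsecond (show 0 ≤ 1 / L by positivity)
    linarith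
  exact Ab_arith hκ hN hZ hR hR1 hL hA hδ hδ1 hD0 hS0 hfin hI hJ (f5 hv w)

end Pool.Agent.H16.TU
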