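/-
ROW Wf (MP_09540e_TU). Averages of the weights.
-/
import Pool.Agent.H16.TU.Wb
import Pool.Agent.H16.TU.Wd

set_option autoImplicit false

open Set Filter Topology MeasureTheory
open scoped ContDiff

namespace Pool.Agent.H16.TU

open Pool.Agent.H16 Pool.Agent.H87.NS Pool.Agent.H72.CC

theorem Wf_coord (x y : E3) : |x 2 - y 2| ≤ ‖x - y‖ := by
  have h1 : ‖x - y‖ ^ 2 = (x - y) 0 ^ 2 + (x - y) 1 ^ 2 + (x - y) 2 ^ 2 := norm_sq_eq (x - y)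
  have h2 : (x - y) 2 = x 2 - y 2 := rfl
  refine abs_le_of_sq_le_sq ?_ (norm_nonneg _)
  rw [h1, h2]
  have h3 := sq_nonneg ((x - y) 0)
  have h4 := sq_nonneg ((x - y) 1)
  linarith

theorem Wf_pt {R L z ρ M : ℝ} (hL : 0 < L) (hLM : L ≤ M) (hρM : ρ ≤ M) {x y : E3}
    (hx : ‖x - y‖ < ρ) :
    wt R L z x ≤ ((1 + rsq x / R ^ 2) ^ 2)⁻¹ * (4 * (1 + (y 2 - z) ^ 2 / M ^ 2)⁻¹) := by
  have hM : 0 < M := lt_of_lt_of_le hL hLM
  unfold wt
  refine mul_le_mul_of_nonneg_left ?_ (by positivity)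
  have h1 : |x 2 - y 2| ≤ M := (Wf_coord x y).trans (hx.le.trans hρM)
  have h2 : (x 2 - y 2) ^ 2 ≤ M ^ 2 := by
    rw [← sq_abs]
    exact pow_le_pow_left₀ (abs_nonneg _) h1 2
  have h3 : (y 2 - z) ^ 2 ≤ 2 * (x 2 - z) ^ 2 + 2 * M ^ 2 := by
    have h := sq_nonneg ((x 2 - z) + (x 2 - y 2))
    have e : (y 2 - z) ^ 2 = 2 * (x 2 - z) ^ 2 + 2 * (x 2 - y 2) ^ 2 -
      ((x 2 - z) + (x 2 - y 2)) ^ 2 := by ring
    linarith
  have h4 : (y 2 - z) ^ 2 / M ^ 2 ≤ 2 * ((x 2 - z) ^ 2 / M ^ 2) + 2 := by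
    rw [div_le_iff₀ (by positivity)]
    have e : (2 * ((x 2 - z) ^ 2 / M ^ 2) + 2) * M ^ 2 = 2 * (x 2 - z) ^ 2 + 2 * M ^ 2 := by
      field_simp
    rw [e]
    exact h3
  have h5 : (x 2 - z) ^ 2 / M ^ 2 ≤ (x 2 - z) ^ 2 / L ^ 2 :=
    div_le_div_of_nonneg_left (sq_nonneg _) (by positivity) (pow_le_pow_left₀ hL.le hLM 2)
  have h6 : 0 ≤ (x 2 - z) ^ 2 / L ^ 2 := by positivity
  have h7 : 0 ≤ (y 2 - z) ^ 2 / M ^ 2 := by positivity
  rw [← div_eq_mul_inv, inv_eq_one_div, div_le_div_iff₀ (by linarith) (by linarith)]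
  linarith

theorem Wf_int {R ρ : ℝ} (hR : 0 < R) (hρ : R ≤ ρ) (y : E3) :
    IntegrableOn (fun x : E3 => ((1 + rsq x / R ^ 2) ^ 2)⁻¹) (Metric.ball y ρ) ∧
    ∫ x in Metric.ball y ρ, ((1 + rsq x / R ^ 2) ^ 2)⁻¹ ≤
      175 * (ρ * R ^ 2) * ((1 + rsq y / ρ ^ 2) ^ 2)⁻¹ := by
  have hρ0 : 0 < ρ := lt_of_lt_of_le hR hρ
  obtain ⟨hi, hs⟩ := wt_slab hR hρ0 (y 2)
  have hsub : Metric.ball y ρ ⊆ {x : E3 | |x 2 - y 2| < ρ} := by
    intro x hx
    rw [Metric.mem_ball, dist_eq_norm] at hx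
    exact lt_of_le_of_lt (Wf_coord x y) hx
  refine ⟨hi.mono_set hsub, ?_⟩
  have hw0 : ∀ x : E3, 0 ≤ rsq x := fun x => by
    rw [← rad_sq' x]
    exact sq_nonneg _
  have hr0 : ∀ x : E3, 0 ≤ rad x := fun x => Real.sqrt_nonneg _
  have hq0 : 0 ≤ rsq y / ρ ^ 2 := div_nonneg (hw0 y) (by positivity)
  have hq1 : 0 < (1 + rsq y / ρ ^ 2) ^ 2 := by positivity
  rcases le_or_gt (rad y) (2 * ρ) with h | h
  · have h1 : ∫ x in Metric.ball y ρ, ((1 + rsq x / R ^ 2) ^ 2)⁻¹ ≤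
        ∫ x in {x : E3 | |x 2 - y 2| < ρ}, ((1 + rsq x / R ^ 2) ^ 2)⁻¹ := by
      refine setIntegral_mono_set hi (Filter.Eventually.of_forall fun x => ?_)
        (HasSubset.Subset.eventuallyLE hsub)
      show (0 : ℝ) ≤ ((1 + rsq x / R ^ 2) ^ 2)⁻¹
      positivity
    have h2 : rsq y / ρ ^ 2 ≤ 4 := by
      rw [div_le_iff₀ (by positivity), ← rad_sq' y]
      have := pow_le_pow_left₀ (hr0 y) h 2
      have e : (2 * ρ) ^ 2 = 4 * ρ ^ 2 := by ring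
      linarith
    have h3 : (1 + rsq y / ρ ^ 2) ^ 2 ≤ 25 := by
      have := pow_le_pow_left₀ (by linarith : (0 : ℝ) ≤ 1 + rsq y / ρ ^ 2)
        (by linarith : 1 + rsq y / ρ ^ 2 ≤ 5) 2
      have e : (5 : ℝ) ^ 2 = 25 := by norm_num
      linarith
    have h4 : 1 / 25 ≤ ((1 + rsq y / ρ ^ 2) ^ 2)⁻¹ := by
      rw [inv_eq_one_div]
      exact one_div_le_one_div_of_le hq1 h3
    calc _ ≤ 7 * ρ * R ^ 2 := h1.trans hs
      _ = 175 * (ρ * R ^ 2) * (1 / 25) := by ring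
      _ ≤ _ := mul_le_mul_of_nonneg_left h4 (by positivity)
  · have hry : 0 < rad y := by linarith
    have hb : ∀ x ∈ Metric.ball y ρ, ‖((1 + rsq x / R ^ 2) ^ 2)⁻¹‖ ≤ 16 * R ^ 4 / rad y ^ 4 := by
      intro x hx
      rw [Metric.mem_ball, dist_eq_norm] at hx
      have h1 : rad y / 2 ≤ rad x := by
        have h2 := (abs_le.1 (rad_lip x y)).1
        linarith only [h, hx, h2]
      have hs0 : 0 ≤ rsq x / R ^ 2 := div_nonneg (hw0 x) (by positivity)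
      have h2 : rad y ^ 2 / 4 ≤ R ^ 2 * (1 + rsq x / R ^ 2) := by
        have e1 : R ^ 2 * (1 + rsq x / R ^ 2) = R ^ 2 + rad x ^ 2 := by
          rw [rad_sq' x]
          field_simp
        have e2 := pow_le_pow_left₀ (by linarith) h1 2
        have e3 : (rad y / 2) ^ 2 = rad y ^ 2 / 4 := by ring
        have e4 : 0 < R ^ 2 := by positivity
        rw [e1]
        linarith only [e2, e4]
      have h3 := pow_le_pow_left₀ (by positivity) h2 2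
      rw [Real.norm_of_nonneg (by positivity), inv_eq_one_div,
        div_le_div_iff₀ (by positivity) (by positivity)]
      have e5 : (rad y ^ 2 / 4) ^ 2 = rad y ^ 4 / 16 := by ring
      have e6 : (R ^ 2 * (1 + rsq x / R ^ 2)) ^ 2 = R ^ 4 * (1 + rsq x / R ^ 2) ^ 2 := by ring
      rw [e5, e6] at h3
      linarith only [h3]
    have hvol : (volume : Measure E3).real (Metric.ball y ρ) ≤ 5 * ρ ^ 3 := by
      rw [measureReal_def, EuclideanSpace.volume_ball_fin_three, ENNReal.toReal_mul,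
        ENNReal.toReal_pow, ENNReal.toReal_ofReal hρ0.le, ENNReal.toReal_ofReal (by positivity)]
      have h1 : Real.pi * 4 / 3 ≤ 5 := by
        have := Real.pi_lt_d2
        linarith only [this]
      have h2 := mul_le_mul_of_nonneg_left h1 (by positivity : (0 : ℝ) ≤ ρ ^ 3)
      linarith
    have h1 := norm_setIntegral_le_of_norm_le_const (μ := (volume : Measure E3))
      measure_ball_lt_top hb
    have hw : 4 * ρ ^ 2 ≤ rsq y := by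
      rw [← rad_sq' y]
      have := pow_le_pow_left₀ (by linarith) h.le 2
      have e : (2 * ρ) ^ 2 = 4 * ρ ^ 2 := by ring
      linarith
    have hwq : rad y ^ 4 = rsq y ^ 2 := by
      rw [← rad_sq' y]
      ring
    calc ∫ x in Metric.ball y ρ, ((1 + rsq x / R ^ 2) ^ 2)⁻¹
        ≤ ‖∫ x in Metric.ball y ρ, ((1 + rsq x / R ^ 2) ^ 2)⁻¹‖ := Real.le_norm_self _
      _ ≤ 16 * R ^ 4 / rad y ^ 4 * (volume : Measure E3).real (Metric.ball y ρ) := h1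
      _ ≤ 16 * R ^ 4 / rad y ^ 4 * (5 * ρ ^ 3) :=
          mul_le_mul_of_nonneg_left hvol (by positivity)
      _ ≤ _ := by
          rw [← div_eq_mul_inv, div_mul_eq_mul_div, div_le_div_iff₀ (by positivity) hq1, hwq]
          have a0 : ρ ^ 2 * (1 + rsq y / ρ ^ 2) = ρ ^ 2 + rsq y := by field_simp
          have a1 : (ρ ^ 2 * (1 + rsq y / ρ ^ 2)) ^ 2 ≤ (5 / 4 * rsq y) ^ 2 := by
            rw [a0]
            exact pow_le_pow_left₀ (add_nonneg (by positivity) (hw0 y)) (by linarith) 2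
          have a2 : R ^ 2 ≤ ρ ^ 2 := pow_le_pow_left₀ hR.le hρ 2
          have a3 : R ^ 2 * (R ^ 2 * ρ ^ 3 * (1 + rsq y / ρ ^ 2) ^ 2) ≤
              ρ ^ 2 * (R ^ 2 * ρ ^ 3 * (1 + rsq y / ρ ^ 2) ^ 2) :=
            mul_le_mul_of_nonneg_right a2 (by positivity)
          have a4 := mul_le_mul_of_nonneg_left a1 (by positivity : (0 : ℝ) ≤ R ^ 2 * ρ)
          have e1 : 16 * R ^ 4 * (5 * ρ ^ 3) * (1 + rsq y / ρ ^ 2) ^ 2 =
              80 * (R ^ 2 * (R ^ 2 * ρ ^ 3 * (1 + rsq y / ρ ^ 2) ^ 2)) := by ring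
          have e2 : ρ ^ 2 * (R ^ 2 * ρ ^ 3 * (1 + rsq y / ρ ^ 2) ^ 2) =
              R ^ 2 * ρ * (ρ ^ 2 * (1 + rsq y / ρ ^ 2)) ^ 2 := by ring
          have e3 : R ^ 2 * ρ * (5 / 4 * rsq y) ^ 2 = 25 / 16 * (R ^ 2 * ρ * rsq y ^ 2) := by ring
          have e4 : 175 * (ρ * R ^ 2) * rsq y ^ 2 = 175 * (R ^ 2 * ρ * rsq y ^ 2) := by ring
          have a5 : 0 ≤ R ^ 2 * ρ * rsq y ^ 2 := by positivity
          rw [e1, e4]
          rw [e2] at a3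
          rw [e3] at a4
          linarith

theorem wt_avg : ∃ C : ℝ, 0 < C ∧ ∀ R L z : ℝ, 0 < R → R ≤ L → ∀ (j : ℕ) (y : E3),
    ∫ x in Metric.ball y (2 ^ j * R), wt R L z x ≤ C * (2 ^ j * R) ^ 3 * (1/4) ^ j * wt (2 ^ j * R) (2 ^ j * L) z y := by
  refine ⟨700, by norm_num, ?_⟩
  intro R L z hR hRL j y
  have hL : 0 < L := lt_of_lt_of_le hR hRL
  have h2j : (1 : ℝ) ≤ 2 ^ j := one_le_pow₀ one_le_two
  obtain ⟨ρ, hρ⟩ : ∃ ρ : ℝ, ρ = 2 ^ j * R := ⟨_, rfl⟩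
  obtain ⟨M, hM⟩ : ∃ M : ℝ, M = 2 ^ j * L := ⟨_, rfl⟩
  have hRρ : R ≤ ρ := by
    rw [hρ]
    exact le_mul_of_one_le_left hR.le h2j
  have hLM : L ≤ M := by
    rw [hM]
    exact le_mul_of_one_le_left hL.le h2j
  have hρM : ρ ≤ M := by
    rw [hρ, hM]
    exact mul_le_mul_of_nonneg_left hRL (by positivity)
  have e : ρ ^ 3 * (1 / 4) ^ j = ρ * R ^ 2 := by
    have e1 : ((2 : ℝ) ^ j) ^ 2 * (1 / 4) ^ j = 1 := by
      rw [← pow_mul, mul_comm j 2, pow_mul, ← mul_pow]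
      norm_num
    rw [hρ]
    have e2 : (2 ^ j * R) ^ 3 * (1 / 4 : ℝ) ^ j =
      (((2 : ℝ) ^ j) ^ 2 * (1 / 4) ^ j) * (2 ^ j * R * R ^ 2) := by ring
    rw [e2, e1, one_mul]
  rw [← hρ, ← hM]
  obtain ⟨hi, hb⟩ := Wf_int hR hRρ y
  have h1 : ∫ x in Metric.ball y ρ, wt R L z x ≤ ∫ x in Metric.ball y ρ,
      ((1 + rsq x / R ^ 2) ^ 2)⁻¹ * (4 * (1 + (y 2 - z) ^ 2 / M ^ 2)⁻¹) := by
    refine setIntegral_mono_on (wt_int hR hL z).1.integrableOn (hi.mul_const _)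
      measurableSet_ball (fun x hx => ?_)
    rw [Metric.mem_ball, dist_eq_norm] at hx
    exact Wf_pt hL hLM hρM hx
  rw [integral_mul_const] at h1
  refine h1.trans ?_
  have hT : 0 ≤ 4 * (1 + (y 2 - z) ^ 2 / M ^ 2)⁻¹ := by positivity
  refine (mul_le_mul_of_nonneg_right hb hT).trans (le_of_eq ?_)
  have e3 : 700 * ρ ^ 3 * (1 / 4) ^ j * wt ρ M z y =
      700 * (ρ ^ 3 * (1 / 4) ^ j) * wt ρ M z y := by ring
  rw [e3, e]
  unfold wt
  ring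

end Pool.Agent.H16.TU
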