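/-
ROW Wg (MP_09540e_TU). The far kernel. PROOF. far_ker: `l = 2^j₀ R`. If `s < l`: the term `j₀` is `8 l⁻³ ≥ l⁻³ = (max s l)⁻³`. If `l ≤ s < 2^J R`: let `j` be the least index with `s < 2^j R`, `j₀ < j ≤ J`, `2^(j-1) R ≤ s`: the term `j` is `8 (2^j R)⁻³ = (2^(j-1) R)⁻³ ≥ s⁻³`. If `s ≥ 2^J R`: the last term.
fa_wt: multiply by `wt R L z x ≥ 0` and integrate (`‖x - y‖ < 2^j R` is `x ∈ ball y (2^j R)`; integral of an indicator = set integral; finite sums; wt integrable: wt_int), then wt_avg: `8 (2^j R)⁻³ ∫_{ball} wt ≤ 8 C (1/4)^j wt (2^j R) (2^j L) z y`.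
-/
import Pool.Agent.H16.TU.Wf

set_option autoImplicit false

open Set Filter Topology MeasureTheory
open scoped ContDiff

namespace Pool.Agent.H16.TU

open Pool.Agent.H16 Pool.Agent.H87.NS Pool.Agent.H72.CC

theorem far_ker {R : ℝ} (hR : 0 < R) {j₀ J : ℕ} (hJ : j₀ ≤ J) {s : ℝ} (hs : 0 ≤ s) :
    ((max s (2 ^ j₀ * R)) ^ 3)⁻¹ ≤ 8 * (∑ j ∈ Finset.Icc j₀ J, ((2 ^ j * R) ^ 3)⁻¹ * (if s < 2 ^ j * R then 1 else 0)) +
      ((2 ^ J * R) ^ 3)⁻¹ := by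
  have hpos : ∀ j : ℕ, 0 < (2:ℝ) ^ j * R := fun j => by positivity
  have hterm : ∀ j : ℕ, 0 ≤ ((2 ^ j * R) ^ 3)⁻¹ * (if s < 2 ^ j * R then (1:ℝ) else 0) := by
    intro j
    have := hpos j
    split_ifs <;> positivity
  have hsum : ∀ j ∈ Finset.Icc j₀ J, ((2 ^ j * R) ^ 3)⁻¹ * (if s < 2 ^ j * R then (1:ℝ) else 0) ≤
      ∑ j ∈ Finset.Icc j₀ J, ((2 ^ j * R) ^ 3)⁻¹ * (if s < 2 ^ j * R then (1:ℝ) else 0) := fun j hj =>
    Finset.single_le_sum (f := fun j => ((2 ^ j * R) ^ 3)⁻¹ * (if s < 2 ^ j * R then (1:ℝ) else 0))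
      (fun i _ => hterm i) hj
  have hlast : 0 < ((2 ^ J * R) ^ 3)⁻¹ := by
    have := hpos J
    positivity
  rcases lt_or_ge s (2 ^ j₀ * R) with h | h
  · have h1 := hsum j₀ (Finset.mem_Icc.mpr ⟨le_rfl, hJ⟩)
    rw [if_pos h, mul_one] at h1
    rw [max_eq_right h.le]
    have : 0 < ((2 ^ j₀ * R) ^ 3)⁻¹ := by
      have := hpos j₀
      positivity
    linarith
  · rw [max_eq_left h]
    have hs0 : 0 < s := lt_of_lt_of_le (hpos j₀) h
    rcases lt_or_ge s (2 ^ J * R) with h2 | h2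
    · classical
      have hex : ∃ j : ℕ, s < 2 ^ j * R := ⟨J, h2⟩
      have hj1 : s < 2 ^ (Nat.find hex) * R := Nat.find_spec hex
      have hj2 : Nat.find hex ≤ J := Nat.find_min' hex h2
      have hj3 : j₀ < Nat.find hex := by
        by_contra hcon
        push Not at hcon
        have h5 : (2:ℝ) ^ (Nat.find hex) ≤ 2 ^ j₀ := pow_le_pow_right₀ (by norm_num) hcon
        have : (2:ℝ) ^ (Nat.find hex) * R ≤ 2 ^ j₀ * R := mul_le_mul_of_nonneg_right h5 hR.le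
        linarith
      obtain ⟨k, hk⟩ : ∃ k, Nat.find hex = k + 1 := ⟨Nat.find hex - 1, by omega⟩
      have hj4 : ¬ s < 2 ^ k * R := Nat.find_min hex (by omega)
      rw [hk] at hj1 hj2 hj3
      push Not at hj4
      have h1 := hsum (k + 1) (Finset.mem_Icc.mpr ⟨hj3.le, hj2⟩)
      rw [if_pos hj1, mul_one] at h1
      have hk0 := hpos k
      have h3 : (s ^ 3)⁻¹ ≤ ((2 ^ k * R) ^ 3)⁻¹ :=
        inv_anti₀ (by positivity) (pow_le_pow_left₀ hk0.le hj4 3)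
      have h4 : 8 * ((2 ^ (k + 1) * R) ^ 3)⁻¹ = ((2 ^ k * R) ^ 3)⁻¹ := by
        rw [pow_succ (2:ℝ) k]
        have : (2:ℝ) ^ k ≠ 0 := by positivity
        field_simp
        norm_num
      linarith
    · have h3 : (s ^ 3)⁻¹ ≤ ((2 ^ J * R) ^ 3)⁻¹ :=
        inv_anti₀ (by have := hpos J; positivity) (pow_le_pow_left₀ (hpos J).le h2 3)
      have h4 : 0 ≤ ∑ j ∈ Finset.Icc j₀ J, ((2 ^ j * R) ^ 3)⁻¹ * (if s < 2 ^ j * R then (1:ℝ) else 0) :=
        Finset.sum_nonneg fun i _ => hterm i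
      linarith

theorem fa_wt : ∃ C : ℝ, 0 < C ∧ ∀ R L z : ℝ, 0 < R → R ≤ L → ∀ j₀ J : ℕ, j₀ ≤ J → ∀ y : E3,
    FA (2 ^ j₀ * R) (wt R L z) y ≤ C * (∑ j ∈ Finset.Icc j₀ J, (1/4) ^ j * wt (2 ^ j * R) (2 ^ j * L) z y) +
      ((2 ^ J * R) ^ 3)⁻¹ * VV (wt R L z) := by
  obtain ⟨C, hC0, hC⟩ := wt_avg
  refine ⟨8 * C, by positivity, ?_⟩
  intro R L z hR hRL j₀ J hJ y
  have hL : 0 < L := lt_of_lt_of_le hR hRL
  have hint : Integrable (wt R L z) := (wt_int hR hL z).1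
  have hpos : ∀ j : ℕ, 0 < (2:ℝ) ^ j * R := fun j => by positivity
  have hI : ∀ j : ℕ, Integrable (fun x : E3 => 8 * ((2 ^ j * R) ^ 3)⁻¹ *
      (Metric.ball y (2 ^ j * R)).indicator (wt R L z) x) := fun j =>
    (hint.indicator Metric.isOpen_ball.measurableSet).const_mul _
  have hg1 : Integrable (fun x : E3 => ∑ j ∈ Finset.Icc j₀ J, 8 * ((2 ^ j * R) ^ 3)⁻¹ *
      (Metric.ball y (2 ^ j * R)).indicator (wt R L z) x) :=
    integrable_finset_sum _ fun j _ => hI j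
  have hg2 : Integrable (fun x : E3 => ((2 ^ J * R) ^ 3)⁻¹ * wt R L z x) := hint.const_mul _
  have hmono : FA (2 ^ j₀ * R) (wt R L z) y ≤
      ∫ x, ((∑ j ∈ Finset.Icc j₀ J, 8 * ((2 ^ j * R) ^ 3)⁻¹ *
        (Metric.ball y (2 ^ j * R)).indicator (wt R L z) x) + ((2 ^ J * R) ^ 3)⁻¹ * wt R L z x) := by
    unfold FA
    refine integral_mono_of_nonneg ?_ (hg1.add hg2) ?_
    · refine Eventually.of_forall fun x => ?_
      have h1 : 0 ≤ max ‖x - y‖ (2 ^ j₀ * R) := le_max_of_le_left (norm_nonneg _)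
      show 0 ≤ ((max ‖x - y‖ (2 ^ j₀ * R)) ^ 3)⁻¹ * |wt R L z x|
      positivity
    · refine Eventually.of_forall fun x => ?_
      show ((max ‖x - y‖ (2 ^ j₀ * R)) ^ 3)⁻¹ * |wt R L z x| ≤ (∑ j ∈ Finset.Icc j₀ J, 8 * ((2 ^ j * R) ^ 3)⁻¹ *
        (Metric.ball y (2 ^ j * R)).indicator (wt R L z) x) + ((2 ^ J * R) ^ 3)⁻¹ * wt R L z x
      have hw := wt_pos hR hL z x
      rw [abs_of_pos hw]
      have h1 := mul_le_mul_of_nonneg_right (far_ker hR hJ (norm_nonneg (x - y))) hw.le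
      refine h1.trans (le_of_eq ?_)
      rw [add_mul, Finset.mul_sum, Finset.sum_mul]
      congr 1
      refine Finset.sum_congr rfl fun j _ => ?_
      by_cases hx : ‖x - y‖ < 2 ^ j * R
      · rw [if_pos hx, indicator_of_mem (by rwa [Metric.mem_ball, dist_eq_norm])]
        ring
      · rw [if_neg hx, indicator_of_notMem (by rwa [Metric.mem_ball, dist_eq_norm])]
        ring
  refine hmono.trans ?_
  rw [integral_add hg1 hg2, integral_finset_sum _ fun j _ => hI j, integral_const_mul]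
  have hVV : ∫ x, wt R L z x = VV (wt R L z) := rfl
  rw [hVV]
  refine add_le_add ?_ le_rfl
  rw [Finset.mul_sum]
  refine Finset.sum_le_sum fun j _ => ?_
  rw [integral_const_mul, integral_indicator Metric.isOpen_ball.measurableSet]
  have h1 := hC R L z hR hRL j y
  have hp := hpos j
  have h2 : 8 * ((2 ^ j * R) ^ 3)⁻¹ * ∫ x in Metric.ball y (2 ^ j * R), wt R L z x ≤
      8 * ((2 ^ j * R) ^ 3)⁻¹ * (C * (2 ^ j * R) ^ 3 * (1/4) ^ j * wt (2 ^ j * R) (2 ^ j * L) z y) :=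
    mul_le_mul_of_nonneg_left h1 (by positivity)
  refine h2.trans (le_of_eq ?_)
  have h3 : ((2:ℝ) ^ j * R) ^ 3 ≠ 0 := by positivity
  calc 8 * ((2 ^ j * R) ^ 3)⁻¹ * (C * (2 ^ j * R) ^ 3 * (1/4) ^ j * wt (2 ^ j * R) (2 ^ j * L) z y)
      = (((2 ^ j * R) ^ 3)⁻¹ * (2 ^ j * R) ^ 3) * (8 * C * ((1/4) ^ j * wt (2 ^ j * R) (2 ^ j * L) z y)) := by ring
    _ = 8 * C * ((1/4) ^ j * wt (2 ^ j * R) (2 ^ j * L) z y) := by
        rw [inv_mul_cancel₀ h3, one_mul]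

end Pool.Agent.H16.TU
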