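/-
ROW Wh (MP_09540e_TU). The far kernel, bilinear. PROOF. Insert far_ker (s = ‖x - y‖) into `∫ b(y) FA(a wt)(y) dy = ∫∫ b(y) (max ‖x-y‖ l ^3)⁻¹ a(x) wt(x)` (a ≥ 0, so `|a wt| = a wt`): the last term of far_ker gives `(2^J R)⁻³ (∫ b)(∫ a wt)`. In the `j`-th term use `a(x) b(y) ≤ (λ_j b(y)² + λ_j⁻¹ a(x)²)/2`:
`8 (2^j R)⁻³ ∫∫_{‖x-y‖<2^j R} (λ_j b(y)² + λ_j⁻¹ a(x)²)/2 wt(x)`: the first part is `4 λ_j (2^j R)⁻³ ∫ b(y)² ∫_{ball y} wt ≤ 4 C λ_j (1/4)^j ∫ b² wt_j` (wt_avg), the second `4 λ_j⁻¹ (2^j R)⁻³ vol(ball) ∫ a² wt ≤ 20 λ_j⁻¹ ∫ a² wt`.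
Everything is integrable: `a, b` bounded continuous, `b` integrable, `wt` integrable and ≤ 1. Tonelli.
-/
import Pool.Agent.H16.TU.Wg

set_option autoImplicit false

open Set Filter Topology MeasureTheory
open scoped ContDiff

namespace Pool.Agent.H16.TU

open Pool.Agent.H16 Pool.Agent.H87.NS Pool.Agent.H72.CC

/-- the indicator kernel -/
noncomputable def Wh_K (l : ℝ) (x : E3) : ℝ :=
  (Metric.ball (0 : E3) l).indicator (fun _ => (1 : ℝ)) x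

theorem Wh_K_eq (l : ℝ) (x : E3) : Wh_K l x = if ‖x‖ < l then 1 else 0 := by
  unfold Wh_K
  by_cases h : ‖x‖ < l
  · rw [Set.indicator_of_mem (by rwa [mem_ball_zero_iff]), if_pos h]
  · rw [Set.indicator_of_notMem (by rwa [mem_ball_zero_iff]), if_neg h]

theorem Wh_K_nn (l : ℝ) (x : E3) : 0 ≤ Wh_K l x := by
  rw [Wh_K_eq]
  split_ifs <;> norm_num

theorem Wh_K_le (l : ℝ) (x : E3) : Wh_K l x ≤ 1 := by
  rw [Wh_K_eq]
  split_ifs <;> norm_num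

theorem Wh_K_symm (l : ℝ) (x y : E3) : Wh_K l (x - y) = Wh_K l (y - x) := by
  rw [Wh_K_eq, Wh_K_eq, norm_sub_rev]

theorem Wh_K_meas (l : ℝ) : Measurable (Wh_K l) :=
  measurable_const.indicator measurableSet_ball

theorem Wh_K_int {l : ℝ} (hl : 0 < l) : Integrable (Wh_K l) ∧ ∫ x, Wh_K l x ≤ 5 * l ^ 3 := by
  have hv : volume (Metric.ball (0 : E3) l) = ENNReal.ofReal l ^ 3 * ENNReal.ofReal (Real.pi * 4 / 3) :=
    EuclideanSpace.volume_ball_fin_three 0 l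
  refine ⟨?_, ?_⟩
  · unfold Wh_K
    refine (integrable_indicator_iff measurableSet_ball).2 (integrableOn_const ?_)
    rw [hv]
    exact ENNReal.mul_ne_top (ENNReal.pow_ne_top ENNReal.ofReal_ne_top) ENNReal.ofReal_ne_top
  · unfold Wh_K
    rw [integral_indicator measurableSet_ball, setIntegral_const, smul_eq_mul, mul_one, Measure.real, hv,
      ENNReal.toReal_mul, ENNReal.toReal_pow, ENNReal.toReal_ofReal hl.le,
      ENNReal.toReal_ofReal (by positivity)]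
    have h1 : Real.pi * 4 / 3 ≤ 5 := by linarith [Real.pi_lt_d2]
    nlinarith [pow_pos hl 3]

theorem Wh_set (l : ℝ) (g : E3 → ℝ) (y : E3) : ∫ x in Metric.ball y l, g x = ∫ x, Wh_K l (x - y) * g x := by
  rw [← integral_indicator measurableSet_ball]
  refine integral_congr_ae (Filter.Eventually.of_forall fun x => ?_)
  beta_reduce
  rw [Wh_K_eq]
  by_cases h : x ∈ Metric.ball y l
  · have h' : ‖x - y‖ < l := by rwa [← dist_eq_norm]
    rw [Set.indicator_of_mem h, if_pos h', one_mul]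
  · have h' : ¬ ‖x - y‖ < l := by rwa [← dist_eq_norm]
    rw [Set.indicator_of_notMem h, if_neg h', zero_mul]

theorem Wh_pt (l : ℝ) {φ : E3 → ℝ} (hφ : Integrable φ) (y : E3) : Integrable (fun x => Wh_K l (x - y) * φ x) :=
  hφ.bdd_mul (c := 1) ((Wh_K_meas l).comp (measurable_id.sub_const y)).aestronglyMeasurable
    (Filter.Eventually.of_forall fun x => by
      rw [Real.norm_eq_abs, abs_of_nonneg (Wh_K_nn _ _)]
      exact Wh_K_le _ _)

/-- the double integral with one function -/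
theorem Wh_dbl {l : ℝ} (hl : 0 < l) {φ : E3 → ℝ} (hφ : Integrable φ) (h0 : ∀ x, 0 ≤ φ x) :
    Integrable (fun y => ∫ x, Wh_K l (x - y) * φ x) ∧
      ∫ y, ∫ x, Wh_K l (x - y) * φ x ≤ 5 * l ^ 3 * ∫ x, φ x := by
  have h1 : Integrable (fun p : E3 × E3 => φ p.2 * Wh_K l (p.1 - p.2)) (volume.prod volume) :=
    Integrable.convolution_integrand (ContinuousLinearMap.mul ℝ ℝ) hφ (Wh_K_int hl).1
  have h2 : (fun y => ∫ x, Wh_K l (x - y) * φ x) = fun y => ∫ x, φ x * Wh_K l (y - x) := by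
    funext y
    refine integral_congr_ae (Filter.Eventually.of_forall fun x => ?_)
    beta_reduce
    rw [Wh_K_symm, mul_comm]
  rw [h2]
  refine ⟨h1.integral_prod_left, ?_⟩
  rw [integral_integral_swap (f := fun y x => φ x * Wh_K l (y - x)) h1]
  have h3 : ∀ x, ∫ y, φ x * Wh_K l (y - x) = φ x * ∫ y, Wh_K l y := fun x => by
    rw [integral_const_mul, integral_sub_right_eq_self (fun x => Wh_K l x)]
  rw [integral_congr_ae (Filter.Eventually.of_forall h3), integral_mul_const, mul_comm]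
  exact mul_le_mul_of_nonneg_right (Wh_K_int hl).2 (integral_nonneg h0)

/-- the pointwise bound -/
theorem Wh_pw {R : ℝ} (hR : 0 < R) {j₀ J : ℕ} (hJ : j₀ ≤ J) {w a : E3 → ℝ} {K : ℝ} (iw : Integrable w)
    (w0 : ∀ x, 0 ≤ w x) (ca : Continuous a) (ha : ∀ x, 0 ≤ a x ∧ a x ≤ K) {t : ℝ} (ht : 0 ≤ t) {lam : ℕ → ℝ}
    (hlam : ∀ j, 0 < lam j) (y : E3) :
    t * FA (2 ^ j₀ * R) (fun x => a x * w x) y ≤
      ∑ j ∈ Finset.Icc j₀ J, 8 * ((2 ^ j * R) ^ 3)⁻¹ *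
        (lam j / 2 * t ^ 2 * (∫ x, Wh_K (2 ^ j * R) (x - y) * w x) +
          (lam j)⁻¹ / 2 * ∫ x, Wh_K (2 ^ j * R) (x - y) * (a x ^ 2 * w x)) +
      ((2 ^ J * R) ^ 3)⁻¹ * t * ∫ x, a x * w x := by
  have iaw : Integrable (fun x => a x * w x) :=
    iw.bdd_mul (c := K) ca.aestronglyMeasurable (Filter.Eventually.of_forall fun x => by
      rw [Real.norm_eq_abs, abs_of_nonneg (ha x).1]
      exact (ha x).2)
  have iaaw : Integrable (fun x => a x ^ 2 * w x) :=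
    iw.bdd_mul (c := K ^ 2) (ca.pow 2).aestronglyMeasurable (Filter.Eventually.of_forall fun x => by
      rw [Real.norm_eq_abs, abs_of_nonneg (sq_nonneg _)]
      exact pow_le_pow_left₀ (ha x).1 (ha x).2 2)
  have i1 : ∀ j, Integrable (fun x => lam j / 2 * t ^ 2 * (Wh_K (2 ^ j * R) (x - y) * w x)) := fun j =>
    (Wh_pt _ iw y).const_mul _
  have i2 : ∀ j, Integrable (fun x => (lam j)⁻¹ / 2 * (Wh_K (2 ^ j * R) (x - y) * (a x ^ 2 * w x))) := fun j =>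
    (Wh_pt _ iaaw y).const_mul _
  have i3 : ∀ j, Integrable (fun x => 8 * ((2 ^ j * R) ^ 3)⁻¹ *
      (lam j / 2 * t ^ 2 * (Wh_K (2 ^ j * R) (x - y) * w x) +
        (lam j)⁻¹ / 2 * (Wh_K (2 ^ j * R) (x - y) * (a x ^ 2 * w x)))) := fun j =>
    ((i1 j).add (i2 j)).const_mul _
  have i4 : Integrable (fun x => ∑ j ∈ Finset.Icc j₀ J, 8 * ((2 ^ j * R) ^ 3)⁻¹ *
      (lam j / 2 * t ^ 2 * (Wh_K (2 ^ j * R) (x - y) * w x) +
        (lam j)⁻¹ / 2 * (Wh_K (2 ^ j * R) (x - y) * (a x ^ 2 * w x)))) :=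
    integrable_finsetSum _ fun j _ => i3 j
  have i5 : Integrable (fun x => ((2 ^ J * R) ^ 3)⁻¹ * t * (a x * w x)) := iaw.const_mul _
  have e1 : ∑ j ∈ Finset.Icc j₀ J, 8 * ((2 ^ j * R) ^ 3)⁻¹ *
        (lam j / 2 * t ^ 2 * (∫ x, Wh_K (2 ^ j * R) (x - y) * w x) +
          (lam j)⁻¹ / 2 * ∫ x, Wh_K (2 ^ j * R) (x - y) * (a x ^ 2 * w x)) +
      ((2 ^ J * R) ^ 3)⁻¹ * t * ∫ x, a x * w x =
      ∫ x, ((∑ j ∈ Finset.Icc j₀ J, 8 * ((2 ^ j * R) ^ 3)⁻¹ *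
      (lam j / 2 * t ^ 2 * (Wh_K (2 ^ j * R) (x - y) * w x) +
        (lam j)⁻¹ / 2 * (Wh_K (2 ^ j * R) (x - y) * (a x ^ 2 * w x)))) +
        ((2 ^ J * R) ^ 3)⁻¹ * t * (a x * w x)) := by
    rw [integral_add i4 i5, integral_finsetSum _ fun j _ => i3 j, integral_const_mul]
    congr 1
    refine Finset.sum_congr rfl fun j _ => ?_
    rw [integral_const_mul, integral_add (i1 j) (i2 j), integral_const_mul, integral_const_mul]
  rw [e1]
  unfold FA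
  rw [← integral_const_mul]
  refine integral_mono_of_nonneg (Filter.Eventually.of_forall fun x => ?_) (i4.add i5)
    (Filter.Eventually.of_forall fun x => ?_)
  · exact mul_nonneg ht (mul_nonneg (by positivity) (abs_nonneg _))
  · beta_reduce
    have haw : 0 ≤ a x * w x := mul_nonneg (ha x).1 (w0 x)
    rw [abs_of_nonneg haw]
    have h1 := far_ker hR hJ (norm_nonneg (x - y))
    have h2 := mul_le_mul_of_nonneg_right h1 (mul_nonneg ht haw)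
    have h3 : t * (((max ‖x - y‖ (2 ^ j₀ * R)) ^ 3)⁻¹ * (a x * w x)) =
      ((max ‖x - y‖ (2 ^ j₀ * R)) ^ 3)⁻¹ * (t * (a x * w x)) := by ring
    rw [h3]
    refine h2.trans ?_
    rw [add_mul, Finset.mul_sum, Finset.sum_mul]
    have h5 : ∀ u v : ℝ, u = v → ∀ p q : ℝ, p ≤ q → p + u ≤ q + v := fun u v h p q h' => by linarith
    refine h5 _ _ (by ring) _ _ (Finset.sum_le_sum fun j _ => ?_)
    have h6 : (if ‖x - y‖ < 2 ^ j * R then (1 : ℝ) else 0) = Wh_K (2 ^ j * R) (x - y) := (Wh_K_eq _ _).symm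
    rw [h6]
    have h7 : t * a x ≤ lam j / 2 * t ^ 2 + (lam j)⁻¹ / 2 * a x ^ 2 := by
      have h8 := hlam j
      have h9 : 0 ≤ (lam j)⁻¹ / 2 * (lam j * t - a x) ^ 2 := by positivity
      have h10 : (lam j)⁻¹ / 2 * (lam j * t - a x) ^ 2 =
        lam j / 2 * t ^ 2 + (lam j)⁻¹ / 2 * a x ^ 2 - t * a x := by
        field_simp
        ring
      linarith
    have h11 : 0 ≤ 8 * ((2 ^ j * R) ^ 3)⁻¹ * Wh_K (2 ^ j * R) (x - y) * w x :=
      mul_nonneg (mul_nonneg (by positivity) (Wh_K_nn _ _)) (w0 x)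
    have h12 := mul_le_mul_of_nonneg_left h7 h11
    calc 8 * (((2 ^ j * R) ^ 3)⁻¹ * Wh_K (2 ^ j * R) (x - y)) * (t * (a x * w x)) =
          8 * ((2 ^ j * R) ^ 3)⁻¹ * Wh_K (2 ^ j * R) (x - y) * w x * (t * a x) := by ring
      _ ≤ 8 * ((2 ^ j * R) ^ 3)⁻¹ * Wh_K (2 ^ j * R) (x - y) * w x *
          (lam j / 2 * t ^ 2 + (lam j)⁻¹ / 2 * a x ^ 2) := h12
      _ = _ := by ring

theorem fa_two : ∃ C : ℝ, 0 < C ∧ ∀ R L z : ℝ, 0 < R → R ≤ L → ∀ j₀ J : ℕ, j₀ ≤ J → ∀ (a b : E3 → ℝ) (K : ℝ), Continuous a → Continuous b →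
    (∀ x, 0 ≤ a x ∧ a x ≤ K) → (∀ x, 0 ≤ b x ∧ b x ≤ K) → Integrable b → ∀ lam : ℕ → ℝ, (∀ j, 0 < lam j) →
    ∫ y, b y * FA (2 ^ j₀ * R) (fun x => a x * wt R L z x) y ≤
      C * (∑ j ∈ Finset.Icc j₀ J, (lam j * (1/4) ^ j * (∫ y, b y ^ 2 * wt (2 ^ j * R) (2 ^ j * L) z y) +
        (lam j)⁻¹ * ∫ x, a x ^ 2 * wt R L z x)) +
      ((2 ^ J * R) ^ 3)⁻¹ * (∫ y, b y) * ∫ x, a x * wt R L z x := by
  obtain ⟨C₀, hC₀, hav⟩ := wt_avg
  refine ⟨4 * C₀ + 20, by positivity, ?_⟩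
  intro R L z hR hRL j₀ J hJ a b K ca cb ha hb ib lam hlam
  have hL0 : 0 < L := lt_of_lt_of_le hR hRL
  have hw := wt_pos hR hL0 z
  have hwi : Integrable (wt R L z) := (wt_int hR hL0 z).1
  have hK : 0 ≤ K := (ha 0).1.trans (ha 0).2
  have hρ : ∀ j : ℕ, 0 < 2 ^ j * R := fun j => by positivity
  have hLj : ∀ j : ℕ, 0 < 2 ^ j * L := fun j => by positivity
  have iaaw : Integrable (fun x => a x ^ 2 * wt R L z x) :=
    hwi.bdd_mul (c := K ^ 2) (ca.pow 2).aestronglyMeasurable (Filter.Eventually.of_forall fun x => by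
      rw [Real.norm_eq_abs, abs_of_nonneg (sq_nonneg _)]
      exact pow_le_pow_left₀ (ha x).1 (ha x).2 2)
  have ibbw : ∀ j : ℕ, Integrable (fun x => b x ^ 2 * wt (2 ^ j * R) (2 ^ j * L) z x) := fun j =>
    (wt_int (hρ j) (hLj j) z).1.bdd_mul (c := K ^ 2) (cb.pow 2).aestronglyMeasurable
      (Filter.Eventually.of_forall fun x => by
        rw [Real.norm_eq_abs, abs_of_nonneg (sq_nonneg _)]
        exact pow_le_pow_left₀ (hb x).1 (hb x).2 2)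
  have i1 : ∀ j : ℕ, Integrable (fun y => lam j / 2 * (C₀ * (2 ^ j * R) ^ 3 * (1/4) ^ j) *
      (b y ^ 2 * wt (2 ^ j * R) (2 ^ j * L) z y)) := fun j => (ibbw j).const_mul _
  have i2 : ∀ j : ℕ, Integrable (fun y => (lam j)⁻¹ / 2 *
      ∫ x, Wh_K (2 ^ j * R) (x - y) * (a x ^ 2 * wt R L z x)) := fun j =>
    (Wh_dbl (hρ j) iaaw (fun x => mul_nonneg (sq_nonneg _) (hw x).le)).1.const_mul _
  have i3 : ∀ j : ℕ, Integrable (fun y => 8 * ((2 ^ j * R) ^ 3)⁻¹ *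
      (lam j / 2 * (C₀ * (2 ^ j * R) ^ 3 * (1/4) ^ j) * (b y ^ 2 * wt (2 ^ j * R) (2 ^ j * L) z y) +
        (lam j)⁻¹ / 2 * ∫ x, Wh_K (2 ^ j * R) (x - y) * (a x ^ 2 * wt R L z x))) := fun j =>
    ((i1 j).add (i2 j)).const_mul _
  have i4 : Integrable (fun y => ∑ j ∈ Finset.Icc j₀ J, 8 * ((2 ^ j * R) ^ 3)⁻¹ *
      (lam j / 2 * (C₀ * (2 ^ j * R) ^ 3 * (1/4) ^ j) * (b y ^ 2 * wt (2 ^ j * R) (2 ^ j * L) z y) +
        (lam j)⁻¹ / 2 * ∫ x, Wh_K (2 ^ j * R) (x - y) * (a x ^ 2 * wt R L z x))) :=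
    integrable_finsetSum _ fun j _ => i3 j
  have i5 : Integrable (fun y => ((2 ^ J * R) ^ 3)⁻¹ * (∫ x, a x * wt R L z x) * b y) := ib.const_mul _
  have k1 : ∫ y, b y * FA (2 ^ j₀ * R) (fun x => a x * wt R L z x) y ≤
      ∫ y, ((∑ j ∈ Finset.Icc j₀ J, 8 * ((2 ^ j * R) ^ 3)⁻¹ *
      (lam j / 2 * (C₀ * (2 ^ j * R) ^ 3 * (1/4) ^ j) * (b y ^ 2 * wt (2 ^ j * R) (2 ^ j * L) z y) +
        (lam j)⁻¹ / 2 * ∫ x, Wh_K (2 ^ j * R) (x - y) * (a x ^ 2 * wt R L z x))) +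
        ((2 ^ J * R) ^ 3)⁻¹ * (∫ x, a x * wt R L z x) * b y) := by
    refine integral_mono_of_nonneg (Filter.Eventually.of_forall fun y => ?_) (i4.add i5)
      (Filter.Eventually.of_forall fun y => ?_)
    · refine mul_nonneg (hb y).1 ?_
      unfold FA
      exact integral_nonneg fun x => mul_nonneg (by positivity) (abs_nonneg _)
    · beta_reduce
      refine (Wh_pw hR hJ hwi (fun x => (hw x).le) ca ha (hb y).1 hlam y).trans ?_
      have h5 : ∀ u v : ℝ, u = v → ∀ p q : ℝ, p ≤ q → p + u ≤ q + v := fun u v h p q h' => by linarith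
      refine h5 _ _ (by ring) _ _ (Finset.sum_le_sum fun j _ => ?_)
      refine mul_le_mul_of_nonneg_left ?_ (by have := hρ j; positivity)
      refine add_le_add ?_ le_rfl
      have h6 := hav R L z hR hRL j y
      rw [Wh_set] at h6
      have h7 : 0 ≤ lam j / 2 * b y ^ 2 := by
        have := hlam j
        positivity
      have h8 := mul_le_mul_of_nonneg_left h6 h7
      refine h8.trans (le_of_eq ?_)
      ring
  refine k1.trans ?_
  rw [integral_add i4 i5, integral_finsetSum _ fun j _ => i3 j, integral_const_mul]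
  have k2 : ∀ j ∈ Finset.Icc j₀ J, ∫ y, 8 * ((2 ^ j * R) ^ 3)⁻¹ *
      (lam j / 2 * (C₀ * (2 ^ j * R) ^ 3 * (1/4) ^ j) * (b y ^ 2 * wt (2 ^ j * R) (2 ^ j * L) z y) +
        (lam j)⁻¹ / 2 * ∫ x, Wh_K (2 ^ j * R) (x - y) * (a x ^ 2 * wt R L z x)) ≤
      (4 * C₀ + 20) * (lam j * (1/4) ^ j * (∫ y, b y ^ 2 * wt (2 ^ j * R) (2 ^ j * L) z y) +
        (lam j)⁻¹ * ∫ x, a x ^ 2 * wt R L z x) := by
    intro j _
    rw [integral_const_mul, integral_add (i1 j) (i2 j), integral_const_mul, integral_const_mul]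
    have h1 := (Wh_dbl (hρ j) iaaw (fun x => mul_nonneg (sq_nonneg _) (hw x).le)).2
    have h2 : 0 ≤ ∫ y, b y ^ 2 * wt (2 ^ j * R) (2 ^ j * L) z y := integral_nonneg fun y =>
      mul_nonneg (sq_nonneg _) (wt_pos (hρ j) (hLj j) z y).le
    have h3 : 0 ≤ ∫ x, a x ^ 2 * wt R L z x := integral_nonneg fun y =>
      mul_nonneg (sq_nonneg _) (hw y).le
    generalize (∫ y, b y ^ 2 * wt (2 ^ j * R) (2 ^ j * L) z y) = X at h2 ⊢
    generalize (∫ x, a x ^ 2 * wt R L z x) = Y at h1 h3 ⊢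
    generalize (∫ y, ∫ x, Wh_K (2 ^ j * R) (x - y) * (a x ^ 2 * wt R L z x)) = Z at h1 ⊢
    have h4 := hlam j
    have h5 := hρ j
    generalize 2 ^ j * R = r at h1 h5 ⊢
    generalize lam j = q at h4 ⊢
    have h6 : 8 * (r ^ 3)⁻¹ * (q / 2 * (C₀ * r ^ 3 * (1/4) ^ j) * X + q⁻¹ / 2 * Z) ≤
      8 * (r ^ 3)⁻¹ * (q / 2 * (C₀ * r ^ 3 * (1/4) ^ j) * X + q⁻¹ / 2 * (5 * r ^ 3 * Y)) := by
      gcongr
    refine h6.trans ?_
    have h7 : 8 * (r ^ 3)⁻¹ * (q / 2 * (C₀ * r ^ 3 * (1/4) ^ j) * X + q⁻¹ / 2 * (5 * r ^ 3 * Y)) =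
      4 * C₀ * (q * (1/4) ^ j * X) + 20 * (q⁻¹ * Y) := by
      field_simp
      ring
    rw [h7]
    have h8 : 0 ≤ q * (1/4) ^ j * X := by positivity
    have h9 : 0 ≤ q⁻¹ * Y := by positivity
    nlinarith
  have k3 := Finset.sum_le_sum k2
  rw [← Finset.mul_sum] at k3
  refine (add_le_add k3 le_rfl).trans (le_of_eq ?_)
  ring

end Pool.Agent.H16.TU
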