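/-
ROW Ac (MP_09540e_TU). The far part of the pressure. PROOF. Let `Φ = ww N Z R z`, `L = Z N R`, `l = 2^j₀ R`, `E = ∫ ‖v‖²`; `|dv F| ≤ (8κ/R²) Φ + (1/L)|v₂|Φ` (a_g), so `FA l (dv F) ≤ (8κ/R²) FA l Φ + (1/L) FA l (|v₂|Φ)` (kernel bounded by l⁻³, everything integrable). First: fa_wt (with ww_sc), multiplied by ‖v‖² and integrated:
`(8κ/R²) (C ∑ (1/4)^j SS v Φ_j + (2^J R)⁻³ VV Φ E)`. Second: fa_two with `a = |v₂|`, `b = ‖v‖²`, `lam j = (R/N) (√2)^j`: `(1/L) lam j (1/4)^j = (√2/4)^j / (Z N²)`, `(1/L) (lam j)⁻¹ = (1/√2)^j / (Z R²)` and `∑ (1/√2)^j ≤ 4`, `∫ v₂² Φ ≤ SS`; `b² = ‖v‖⁴`; last term: `(1/L)(2^J R)⁻³ E ∫ |v₂| Φ`,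
`|v₂| ≤ (‖v‖² + 1)/2`: `≤ (2^J R)⁻³ E (SS + VV)/(2L)`. Take `C₁` the maximum of the constants (8 C, 4 C', 8, 1).
-/
import Pool.Agent.H16.TU.Ad0
import Pool.Agent.H16.TU.Wh

set_option autoImplicit false

open Set Filter Topology MeasureTheory
open scoped ContDiff

namespace Pool.Agent.H16.TU

open Pool.Agent.H16 Pool.Agent.H87.NS Pool.Agent.H72.CC

lemma Ac_ker {l : ℝ} (hl : 0 < l) (x y : E3) : 0 ≤ ((max ‖x - y‖ l) ^ 3)⁻¹ ∧ ((max ‖x - y‖ l) ^ 3)⁻¹ ≤ (l ^ 3)⁻¹ := by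
  have h : l ≤ max ‖x - y‖ l := le_max_right _ _
  have h0 : 0 < max ‖x - y‖ l := lt_of_lt_of_le hl h
  refine ⟨by positivity, ?_⟩
  exact inv_anti₀ (by positivity) (pow_le_pow_left₀ hl.le h 3)

lemma Ac_k1 {l : ℝ} (hl : 0 < l) (y : E3) : Continuous (fun x : E3 => ((max ‖x - y‖ l) ^ 3)⁻¹) := by
  have hc : Continuous (fun x : E3 => (max ‖x - y‖ l) ^ 3) :=
    ((continuous_id.sub continuous_const).norm.max continuous_const).pow 3
  refine hc.inv₀ fun x => ?_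
  have h0 : 0 < max ‖x - y‖ l := lt_of_lt_of_le hl (le_max_right _ _)
  exact (pow_pos h0 3).ne'

lemma Ac_k2 {l : ℝ} (hl : 0 < l) (x : E3) : Continuous (fun y : E3 => ((max ‖x - y‖ l) ^ 3)⁻¹) := by
  have hc : Continuous (fun y : E3 => (max ‖x - y‖ l) ^ 3) :=
    ((continuous_const.sub continuous_id).norm.max continuous_const).pow 3
  refine hc.inv₀ fun y => ?_
  have h0 : 0 < max ‖x - y‖ l := lt_of_lt_of_le hl (le_max_right _ _)
  exact (pow_pos h0 3).ne'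

lemma Ac_int {l : ℝ} (hl : 0 < l) {g : E3 → ℝ} (hg : Integrable g) (y : E3) :
    Integrable (fun x : E3 => ((max ‖x - y‖ l) ^ 3)⁻¹ * |g x|) := by
  refine Integrable.bdd_mul (c := (l ^ 3)⁻¹) hg.abs (Ac_k1 hl y).aestronglyMeasurable ?_
  refine Filter.Eventually.of_forall fun x => ?_
  rw [Real.norm_eq_abs, abs_of_nonneg (Ac_ker hl x y).1]
  exact (Ac_ker hl x y).2

lemma Ac_mono {l a b : ℝ} (hl : 0 < l) {g g₁ g₂ : E3 → ℝ} (i1 : Integrable g₁) (i2 : Integrable g₂)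
    (h : ∀ x, |g x| ≤ a * |g₁ x| + b * |g₂ x|) (y : E3) : FA l g y ≤ a * FA l g₁ y + b * FA l g₂ y := by
  have j1 := Ac_int hl i1 y
  have j2 := Ac_int hl i2 y
  unfold FA
  rw [← integral_const_mul, ← integral_const_mul, ← integral_add (j1.const_mul a) (j2.const_mul b)]
  refine integral_mono_of_nonneg (Filter.Eventually.of_forall fun x => ?_) ((j1.const_mul a).add (j2.const_mul b))
    (Filter.Eventually.of_forall fun x => ?_)
  · exact mul_nonneg (Ac_ker hl x y).1 (abs_nonneg _)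
  · have := mul_le_mul_of_nonneg_left (h x) (Ac_ker hl x y).1
    show _ ≤ a * _ + b * _
    linarith

lemma Ac_nn {l : ℝ} (hl : 0 < l) (g : E3 → ℝ) (y : E3) : 0 ≤ FA l g y :=
  integral_nonneg fun x => mul_nonneg (Ac_ker hl x y).1 (abs_nonneg _)

lemma Ac_bd {l : ℝ} (hl : 0 < l) {g : E3 → ℝ} (hg : Integrable g) (y : E3) : FA l g y ≤ (l ^ 3)⁻¹ * ∫ x, |g x| := by
  unfold FA
  rw [← integral_const_mul]
  exact integral_mono (Ac_int hl hg y) (hg.abs.const_mul _)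
    fun x => mul_le_mul_of_nonneg_right (Ac_ker hl x y).2 (abs_nonneg _)

lemma Ac_cont {l : ℝ} (hl : 0 < l) {g : E3 → ℝ} (hg : Integrable g) : Continuous (FA l g) := by
  unfold FA
  refine continuous_of_dominated (bound := fun x => (l ^ 3)⁻¹ * |g x|) (fun y => (Ac_int hl hg y).aestronglyMeasurable)
    (fun y => Filter.Eventually.of_forall fun x => ?_) (hg.abs.const_mul _)
    (Filter.Eventually.of_forall fun x => ?_)
  · rw [Real.norm_eq_abs, abs_of_nonneg (mul_nonneg (Ac_ker hl x y).1 (abs_nonneg _))]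
    exact mul_le_mul_of_nonneg_right (Ac_ker hl x y).2 (abs_nonneg _)
  · exact (Ac_k2 hl x).mul continuous_const

lemma Ac_wint {l : ℝ} (hl : 0 < l) {f g : E3 → ℝ} (hf : Integrable f) (hg : Integrable g) :
    Integrable (fun y => f y * FA l g y) := by
  have h1 : Integrable (fun y => FA l g y * f y) := by
    refine Integrable.bdd_mul (c := (l ^ 3)⁻¹ * ∫ x, |g x|) hf (Ac_cont hl hg).aestronglyMeasurable ?_
    refine Filter.Eventually.of_forall fun y => ?_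
    rw [Real.norm_eq_abs, abs_of_nonneg (Ac_nn hl g y)]
    exact Ac_bd hl hg y
  simpa only [mul_comm] using h1

lemma Ac_geom {ρ : ℝ} (h0 : 0 ≤ ρ) (h1 : ρ < 1) (j₀ J : ℕ) :
    ∑ j ∈ Finset.Icc j₀ J, ρ ^ j ≤ 1 / (1 - ρ) := by
  have h := geom_sum_Ico_le_of_lt_one (m := j₀) (n := J + 1) h0 h1
  have e : Finset.Icc j₀ J = Finset.Ico j₀ (J + 1) := by
    ext a
    simp [Finset.mem_Icc, Finset.mem_Ico]
  rw [e]
  refine le_trans h ?_
  exact div_le_div_of_nonneg_right (pow_le_one₀ h0 h1.le) (by linarith)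

/-- first part: the horizontal flux -/
lemma Ac_one {C R L z : ℝ} (hR : 0 < R) (hL : R ≤ L) {j₀ J : ℕ}
    (hC : ∀ y : E3, FA (2 ^ j₀ * R) (wt R L z) y ≤ C * (∑ j ∈ Finset.Icc j₀ J, (1/4) ^ j * wt (2 ^ j * R) (2 ^ j * L) z y) +
      ((2 ^ J * R) ^ 3)⁻¹ * VV (wt R L z)) {f : E3 → ℝ} {K : ℝ} (hf : Continuous f) (hf0 : ∀ x, 0 ≤ f x ∧ f x ≤ K) (hi : Integrable f) :
    ∫ y, f y * FA (2 ^ j₀ * R) (wt R L z) y ≤
      C * (∑ j ∈ Finset.Icc j₀ J, (1/4) ^ j * ∫ y, f y * wt (2 ^ j * R) (2 ^ j * L) z y) +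
      ((2 ^ J * R) ^ 3)⁻¹ * VV (wt R L z) * ∫ y, f y := by
  have hwj : ∀ j : ℕ, Integrable (fun y => f y * wt (2 ^ j * R) (2 ^ j * L) z y) := fun j =>
    wi (wt_wc (R := 2 ^ j * R) (L := 2 ^ j * L) (by positivity) (by gcongr) z) hf
      (fun x => by rw [abs_of_nonneg (hf0 x).1]; exact (hf0 x).2)
  have hsum : Integrable (fun y => C * ∑ j ∈ Finset.Icc j₀ J, (1/4 : ℝ) ^ j * (f y * wt (2 ^ j * R) (2 ^ j * L) z y)) :=
    (integrable_finset_sum _ fun j _ => (hwj j).const_mul _).const_mul _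
  have hcon : Integrable (fun y => (((2 ^ J * R) ^ 3)⁻¹ * VV (wt R L z)) * f y) := hi.const_mul _
  have hw : Integrable (wt R L z) := (wt_int hR (lt_of_lt_of_le hR hL) z).1
  calc ∫ y, f y * FA (2 ^ j₀ * R) (wt R L z) y
      ≤ ∫ y, (C * (∑ j ∈ Finset.Icc j₀ J, (1/4 : ℝ) ^ j * (f y * wt (2 ^ j * R) (2 ^ j * L) z y)) +
          (((2 ^ J * R) ^ 3)⁻¹ * VV (wt R L z)) * f y) := by
        refine integral_mono (Ac_wint (by positivity) hi hw) (hsum.add hcon) fun y => ?_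
        refine le_trans (mul_le_mul_of_nonneg_left (hC y) (hf0 y).1) (le_of_eq ?_)
        rw [mul_add, mul_left_comm, Finset.mul_sum]
        congr 1
        · congr 1
          exact Finset.sum_congr rfl fun j _ => by ring
        · ring
    _ = _ := by
        rw [integral_add hsum hcon, integral_const_mul, integral_finset_sum _ fun j _ => (hwj j).const_mul _,
          integral_const_mul]
        congr 2
        exact Finset.sum_congr rfl fun j _ => by rw [integral_const_mul]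

lemma Ac_arith {κ N Z R L C₁ C₂ X A1 A2 SU QU S1 S2 a1 P E SR VR : ℝ} (hκ : 0 ≤ κ) (hN : 0 < N) (hZ : 0 < Z) (hR : 0 < R)
    (hL : L = Z * N * R) (hC₁ : 0 < C₁) (hC₂ : 0 < C₂)
    (h0 : X ≤ 8 * κ / R ^ 2 * A1 + 1 / L * A2) (h1 : A1 ≤ C₁ * SU + P * VR * E) (h2 : A2 ≤ C₂ * (S1 + S2) + P * E * a1)
    (h3 : 1 / L * S1 = 1 / (Z * N ^ 2) * QU) (h4 : 1 / L * S2 ≤ 4 / Z / R ^ 2 * SR) (h5 : a1 ≤ (SR + VR) / 2)
    (hSU : 0 ≤ SU) (hQU : 0 ≤ QU) (hP : 0 ≤ P) (hE : 0 ≤ E) (hSR : 0 ≤ SR) (hVR : 0 ≤ VR) :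
    X ≤ (8 * C₁ + 4 * C₂ + 8) * κ / R ^ 2 * SU + (8 * C₁ + 4 * C₂ + 8) / (Z * N ^ 2) * QU + (8 * C₁ + 4 * C₂ + 8) / Z / R ^ 2 * SR +
      (8 * C₁ + 4 * C₂ + 8) * P * E * (κ / R ^ 2 * VR + (SR + VR) / (Z * N * R)) := by
  have hL0 : 0 < L := by rw [hL]; positivity
  have k1 : 8 * κ / R ^ 2 * A1 ≤ 8 * κ / R ^ 2 * (C₁ * SU + P * VR * E) :=
    mul_le_mul_of_nonneg_left h1 (by positivity)
  have k2 : 1 / L * A2 ≤ 1 / L * (C₂ * (S1 + S2) + P * E * a1) := mul_le_mul_of_nonneg_left h2 (by positivity)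
  have k3 : 1 / L * (P * E * a1) ≤ 1 / L * (P * E * ((SR + VR) / 2)) :=
    mul_le_mul_of_nonneg_left (mul_le_mul_of_nonneg_left h5 (by positivity)) (by positivity)
  have k4 : C₂ * (1 / L * S2) ≤ C₂ * (4 / Z / R ^ 2 * SR) := mul_le_mul_of_nonneg_left h4 hC₂.le
  have k5 : 1 / L * (C₂ * (S1 + S2) + P * E * a1) = C₂ * (1 / L * S1) + C₂ * (1 / L * S2) + 1 / L * (P * E * a1) := by ring
  have k6 : C₂ * (1 / L * S1) = C₂ * (1 / (Z * N ^ 2) * QU) := by rw [h3]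
  have t1 : 0 ≤ κ / R ^ 2 * SU := by positivity
  have t2 : 0 ≤ 1 / (Z * N ^ 2) * QU := by positivity
  have t3 : 0 ≤ 1 / Z / R ^ 2 * SR := by positivity
  have t4 : 0 ≤ P * E * (κ / R ^ 2 * VR) := by positivity
  have t5 : 0 ≤ P * E * ((SR + VR) / L) := by positivity
  have e1 : 8 * κ / R ^ 2 * (C₁ * SU + P * VR * E) = (8 * C₁) * (κ / R ^ 2 * SU) + 8 * (P * E * (κ / R ^ 2 * VR)) := by ring
  have e2 : C₂ * (4 / Z / R ^ 2 * SR) = (4 * C₂) * (1 / Z / R ^ 2 * SR) := by ring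
  have e3 : 1 / L * (P * E * ((SR + VR) / 2)) = (1/2) * (P * E * ((SR + VR) / L)) := by ring
  have e4 : (8 * C₁ + 4 * C₂ + 8) * κ / R ^ 2 * SU + (8 * C₁ + 4 * C₂ + 8) / (Z * N ^ 2) * QU + (8 * C₁ + 4 * C₂ + 8) / Z / R ^ 2 * SR +
      (8 * C₁ + 4 * C₂ + 8) * P * E * (κ / R ^ 2 * VR + (SR + VR) / (Z * N * R)) =
      (8 * C₁ + 4 * C₂ + 8) * (κ / R ^ 2 * SU) + (8 * C₁ + 4 * C₂ + 8) * (1 / (Z * N ^ 2) * QU) +
          (8 * C₁ + 4 * C₂ + 8) * (1 / Z / R ^ 2 * SR) +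
          (8 * C₁ + 4 * C₂ + 8) * (P * E * (κ / R ^ 2 * VR)) + (8 * C₁ + 4 * C₂ + 8) * (P * E * ((SR + VR) / L)) := by
    rw [hL]
    ring
  rw [e4]
  have m1 : (8 * C₁) * (κ / R ^ 2 * SU) ≤ (8 * C₁ + 4 * C₂ + 8) * (κ / R ^ 2 * SU) :=
    mul_le_mul_of_nonneg_right (by linarith) t1
  have m2 : C₂ * (1 / (Z * N ^ 2) * QU) ≤ (8 * C₁ + 4 * C₂ + 8) * (1 / (Z * N ^ 2) * QU) :=
    mul_le_mul_of_nonneg_right (by linarith) t2
  have m3 : (4 * C₂) * (1 / Z / R ^ 2 * SR) ≤ (8 * C₁ + 4 * C₂ + 8) * (1 / Z / R ^ 2 * SR) :=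
    mul_le_mul_of_nonneg_right (by linarith) t3
  have m4 : 8 * (P * E * (κ / R ^ 2 * VR)) ≤ (8 * C₁ + 4 * C₂ + 8) * (P * E * (κ / R ^ 2 * VR)) :=
    mul_le_mul_of_nonneg_right (by linarith) t4
  have m5 : (1/2) * (P * E * ((SR + VR) / L)) ≤ (8 * C₁ + 4 * C₂ + 8) * (P * E * ((SR + VR) / L)) :=
    mul_le_mul_of_nonneg_right (by linarith) t5
  linarith

lemma Ac_sumQ {N Z R L : ℝ} (hN : 0 < N) (hZ : 0 < Z) (hR : 0 < R) (hL : L = Z * N * R) (j₀ J : ℕ) (q : ℕ → ℝ) :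
    1 / L * ∑ j ∈ Finset.Icc j₀ J, (R / N * √2 ^ j) * (1/4) ^ j * q j =
      1 / (Z * N ^ 2) * ∑ j ∈ Finset.Icc j₀ J, (√2 / 4) ^ j * q j := by
  rw [Finset.mul_sum, Finset.mul_sum]
  refine Finset.sum_congr rfl fun j _ => ?_
  have e3 : (√2 / 4) ^ j = √2 ^ j * (1/4) ^ j := by
    rw [← mul_pow]
    congr 1
    ring
  have e5 : 1 / L * (R / N) = 1 / (Z * N ^ 2) := by
    rw [hL]
    field_simp
  rw [e3]
  linear_combination (√2 ^ j * (1/4) ^ j * q j) * e5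

lemma Ac_sumS {N Z R L a S : ℝ} (hN : 0 < N) (hZ : 0 < Z) (hR : 0 < R) (hL : L = Z * N * R) (j₀ J : ℕ) (ha : a ≤ S) (ha0 : 0 ≤ a) :
    1 / L * ∑ j ∈ Finset.Icc j₀ J, (R / N * √2 ^ j)⁻¹ * a ≤ 4 / Z / R ^ 2 * S := by
  have hs2 : (0:ℝ) < √2 := Real.sqrt_pos.2 (by norm_num)
  have hρ : (√2)⁻¹ ≤ (3/4 : ℝ) := by
    rw [inv_le_comm₀ hs2 (by norm_num)]
    have : ((3/4 : ℝ))⁻¹ = 4/3 := by norm_num
    rw [this]
    apply Real.le_sqrt_of_sq_le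
    norm_num
  have h5 := Ac_geom (ρ := (√2)⁻¹) (by positivity) (by linarith) j₀ J
  have h6 : 1 / (1 - (√2)⁻¹) ≤ 4 := by
    rw [div_le_iff₀ (by linarith)]
    linarith
  have hL0 : 0 < L := by rw [hL]; positivity
  have h7 : ∑ j ∈ Finset.Icc j₀ J, (R / N * √2 ^ j)⁻¹ * a =
      (∑ j ∈ Finset.Icc j₀ J, ((√2)⁻¹) ^ j) * (N / R * a) := by
    rw [Finset.sum_mul]
    refine Finset.sum_congr rfl fun j _ => ?_
    rw [mul_inv, inv_pow, inv_div]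
    ring
  rw [h7]
  have h8 : (∑ j ∈ Finset.Icc j₀ J, ((√2)⁻¹) ^ j) * (N / R * a) ≤ 4 * (N / R * S) := by
    refine mul_le_mul (le_trans h5 h6) ?_ (by positivity) (by norm_num)
    exact mul_le_mul_of_nonneg_left ha (by positivity)
  have h9 := mul_le_mul_of_nonneg_left h8 (show 0 ≤ 1 / L by positivity)
  refine le_trans h9 (le_of_eq ?_)
  rw [hL]
  field_simp

theorem aFa : ∃ C : ℝ, 0 < C ∧ ∀ (κ N R Z z : ℝ) (v : E3 → E3), Sl κ N v → 0 < R → R ≤ 1 → 1 ≤ Z → ∀ j₀ J : ℕ, j₀ ≤ J →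
    ∫ y, ‖v y‖ ^ 2 * FA (2 ^ j₀ * R) (dv (fun k x => v x k * ww N Z R z x)) y ≤
      C * κ / R ^ 2 * (∑ j ∈ Finset.Icc j₀ J, (1/4) ^ j * SS v (ww N Z (2 ^ j * R) z)) +
      C / (Z * N ^ 2) * (∑ j ∈ Finset.Icc j₀ J, (√2 / 4) ^ j * QQ v (ww N Z (2 ^ j * R) z)) +
      C / Z / R ^ 2 * SS v (ww N Z R z) +
      C * ((2 ^ J * R) ^ 3)⁻¹ * (∫ x, ‖v x‖ ^ 2) * (κ / R ^ 2 * VV (ww N Z R z) + (SS v (ww N Z R z) + VV (ww N Z R z)) / (Z * N * R)) := by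
  obtain ⟨C₁, hC₁, h₁⟩ := fa_wt
  obtain ⟨C₂, hC₂, h₂⟩ := fa_two
  refine ⟨8 * C₁ + 4 * C₂ + 8, by positivity, ?_⟩
  intro κ N R Z z v hv hR hR1 hZ j₀ J hJ
  have hκ := hv.one
  have hN : 1 ≤ N := le_trans hκ hv.le
  set L : ℝ := Z * N * R with hL
  have hZN : 1 ≤ Z * N := one_le_mul_of_one_le_of_one_le hZ hN
  have hRL : R ≤ L := by
    rw [hL]
    nlinarith
  have hL0 : 0 < L := lt_of_lt_of_le hR hRL
  obtain ⟨K, hK0, hK, hi2, -⟩ := ba_vf hv.vf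
  obtain ⟨-, cn, -⟩ := ba_gvc hv.ax.smooth
  have c2 : Continuous (fun y => v y 2) := (Psi_v2 hv.ax).continuous
  have hl : 0 < 2 ^ j₀ * R := by positivity
  have w := wt_wc hR hRL z
  have hw0 : ∀ x, 0 ≤ wt R L z x := w.nn
  have hwi : Integrable (wt R L z) := w.int
  have hv2 : ∀ x, |v x 2| ≤ ‖v x‖ := fun x => (ba_gv x 0 0).2.2.2.2.2.1
  -- the functions
  have hi2w : Integrable (fun x => |v x 2| * wt R L z x) :=
    wi w c2.abs (K := K) (fun x => by rw [abs_abs]; exact le_trans (hv2 x) (hK x).1)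
  have hbb : ∀ x, 0 ≤ ‖v x‖ ^ 2 ∧ ‖v x‖ ^ 2 ≤ K ^ 2 := fun x =>
    ⟨by positivity, pow_le_pow_left₀ (norm_nonneg _) (hK x).1 2⟩
  have e1 : (fun k y => v y k * ww N Z R z y) = (fun k y => v y k * wt R L z y) := rfl
  -- pointwise
  have hpt : ∀ y, ‖v y‖ ^ 2 * FA (2 ^ j₀ * R) (dv (fun k x => v x k * ww N Z R z x)) y ≤
      8 * κ / R ^ 2 * (‖v y‖ ^ 2 * FA (2 ^ j₀ * R) (wt R L z) y) +
      1 / L * (‖v y‖ ^ 2 * FA (2 ^ j₀ * R) (fun x => |v x 2| * wt R L z x) y) := by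
    intro y
    have h := Ac_mono (a := 8 * κ / R ^ 2) (b := 1 / L) hl (g := dv (fun k x => v x k * ww N Z R z x)) hwi hi2w
      (fun x => by
        have := (a_g hv hZ hR hR1 z x).2
        rw [abs_of_nonneg (hw0 x), abs_of_nonneg (mul_nonneg (abs_nonneg (v x 2)) (hw0 x))]
        exact this) y
    have h' := mul_le_mul_of_nonneg_left h (hbb y).1
    linarith
  have hA1 := Ac_wint hl hi2 hwi
  have hA2 := Ac_wint hl hi2 hi2w
  have hmain : ∫ y, ‖v y‖ ^ 2 * FA (2 ^ j₀ * R) (dv (fun k x => v x k * ww N Z R z x)) y ≤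
      8 * κ / R ^ 2 * (∫ y, ‖v y‖ ^ 2 * FA (2 ^ j₀ * R) (wt R L z) y) +
      1 / L * ∫ y, ‖v y‖ ^ 2 * FA (2 ^ j₀ * R) (fun x => |v x 2| * wt R L z x) y := by
    rw [← integral_const_mul, ← integral_const_mul, ← integral_add (hA1.const_mul _) (hA2.const_mul _)]
    refine integral_mono_of_nonneg (Filter.Eventually.of_forall fun y => ?_) ((hA1.const_mul _).add (hA2.const_mul _))
      (Filter.Eventually.of_forall fun y => hpt y)
    exact mul_nonneg (by positivity) (Ac_nn hl _ y)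
  -- first part
  have hfirst := Ac_one hR hRL (h₁ R L z hR hRL j₀ J hJ) (cn.pow 2) hbb hi2
  -- second part
  have hs2 : (0:ℝ) < √2 := Real.sqrt_pos.2 (by norm_num)
  have hlam0 : ∀ j : ℕ, 0 < R / N * √2 ^ j := fun j => by positivity
  have hsecond := h₂ R L z hR hRL j₀ J hJ (fun x => |v x 2|) (fun x => ‖v x‖ ^ 2) (K + K ^ 2) c2.abs (cn.pow 2)
    (fun x => ⟨abs_nonneg _, by
      have := le_trans (hv2 x) (hK x).1
      nlinarith [sq_nonneg K]⟩)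
    (fun x => ⟨by positivity, by
      have := (hbb x).2
      linarith⟩) hi2 (fun j => R / N * √2 ^ j) hlam0
  rw [Finset.sum_add_distrib] at hsecond
  -- names
  set E : ℝ := ∫ x, ‖v x‖ ^ 2 with hE
  have hE0 : 0 ≤ E := integral_nonneg fun x => by positivity
  have hSS : ∀ j : ℕ, SS v (ww N Z (2 ^ j * R) z) = ∫ y, ‖v y‖ ^ 2 * wt (2 ^ j * R) (2 ^ j * L) z y := by
    intro j
    rw [hL, ww_sc]
    rfl
  have hQQ : ∀ j : ℕ, QQ v (ww N Z (2 ^ j * R) z) = ∫ y, (‖v y‖ ^ 2) ^ 2 * wt (2 ^ j * R) (2 ^ j * L) z y := by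
    intro j
    rw [hL, ww_sc]
    unfold QQ
    congr 1
    ext y
    ring
  have hwj0 : ∀ (j : ℕ) (y : E3), 0 ≤ ww N Z (2 ^ j * R) z y := fun j y => (wt_pos (by positivity) (by positivity) z y).le
  have hSSn : ∀ j : ℕ, 0 ≤ SS v (ww N Z (2 ^ j * R) z) := fun j =>
    integral_nonneg fun y => mul_nonneg (by positivity) (hwj0 j y)
  have hQQn : ∀ j : ℕ, 0 ≤ QQ v (ww N Z (2 ^ j * R) z) := fun j =>
    integral_nonneg fun y => mul_nonneg (by positivity) (hwj0 j y)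
  have hiS : Integrable (fun x => ‖v x‖ ^ 2 * wt R L z x) :=
    wi w (cn.pow 2) (K := K ^ 2) (fun x => by rw [abs_of_nonneg (hbb x).1]; exact (hbb x).2)
  have hS0 : 0 ≤ SS v (ww N Z R z) := integral_nonneg fun y => mul_nonneg (by positivity) (hw0 y)
  have hV0 : 0 ≤ VV (ww N Z R z) := integral_nonneg fun y => hw0 y
  have ha2 : ∫ x, |v x 2| ^ 2 * wt R L z x ≤ SS v (ww N Z R z) := by
    refine integral_mono_of_nonneg (Filter.Eventually.of_forall fun x => mul_nonneg (by positivity) (hw0 x)) hiS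
      (Filter.Eventually.of_forall fun x => ?_)
    exact mul_le_mul_of_nonneg_right (pow_le_pow_left₀ (abs_nonneg _) (hv2 x) 2) (hw0 x)
  have ha20 : 0 ≤ ∫ x, |v x 2| ^ 2 * wt R L z x :=
    integral_nonneg fun x => mul_nonneg (by positivity) (hw0 x)
  have ha1 : ∫ x, |v x 2| * wt R L z x ≤ (SS v (ww N Z R z) + VV (ww N Z R z)) / 2 := by
    have e2 : (SS v (ww N Z R z) + VV (ww N Z R z)) / 2 = ∫ x, (‖v x‖ ^ 2 * wt R L z x + wt R L z x) / 2 := by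
      rw [integral_div, integral_add hiS hwi]
      rfl
    rw [e2]
    refine integral_mono hi2w ((hiS.add hwi).div_const 2) fun x => ?_
    have h3 : |v x 2| ≤ (‖v x‖ ^ 2 + 1) / 2 := by
      have := hv2 x
      nlinarith [sq_nonneg (‖v x‖ - 1)]
    have := mul_le_mul_of_nonneg_right h3 (hw0 x)
    calc |v x 2| * wt R L z x ≤ (‖v x‖ ^ 2 + 1) / 2 * wt R L z x := this
      _ = (‖v x‖ ^ 2 * wt R L z x + wt R L z x) / 2 := by ring
  have ha10 : 0 ≤ ∫ x, |v x 2| * wt R L z x := integral_nonneg fun x => mul_nonneg (abs_nonneg _) (hw0 x)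
  -- combine
  set SU : ℝ := ∑ j ∈ Finset.Icc j₀ J, (1/4) ^ j * SS v (ww N Z (2 ^ j * R) z) with hSU
  set QU : ℝ := ∑ j ∈ Finset.Icc j₀ J, (√2 / 4) ^ j * QQ v (ww N Z (2 ^ j * R) z) with hQU
  have hSU0 : 0 ≤ SU := Finset.sum_nonneg fun j _ => mul_nonneg (by positivity) (hSSn j)
  have hQU0 : 0 ≤ QU := Finset.sum_nonneg fun j _ => mul_nonneg (by positivity) (hQQn j)
  have hfirst' : ∫ y, ‖v y‖ ^ 2 * FA (2 ^ j₀ * R) (wt R L z) y ≤ C₁ * SU + ((2 ^ J * R) ^ 3)⁻¹ * VV (ww N Z R z) * E := by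
    refine le_trans hfirst (le_of_eq ?_)
    rw [hSU]
    congr 2
    exact Finset.sum_congr rfl fun j _ => by rw [hSS j]; rfl
  have hq := Ac_sumQ (by linarith : (0:ℝ) < N) (by linarith : (0:ℝ) < Z) hR hL j₀ J (fun j => QQ v (ww N Z (2 ^ j * R) z))
  have hs := Ac_sumS (by linarith : (0:ℝ) < N) (by linarith : (0:ℝ) < Z) hR hL j₀ J ha2 ha20
  have hsec' : ∫ y, ‖v y‖ ^ 2 * FA (2 ^ j₀ * R) (fun x => |v x 2| * wt R L z x) y ≤
      C₂ * ((∑ j ∈ Finset.Icc j₀ J, (R / N * √2 ^ j) * (1/4) ^ j * QQ v (ww N Z (2 ^ j * R) z)) +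
        ∑ j ∈ Finset.Icc j₀ J, (R / N * √2 ^ j)⁻¹ * ∫ x, |v x 2| ^ 2 * wt R L z x) +
        ((2 ^ J * R) ^ 3)⁻¹ * E * ∫ x, |v x 2| * wt R L z x := by
    refine le_trans hsecond (le_of_eq ?_)
    congr 3
    exact Finset.sum_congr rfl fun j _ => by rw [hQQ j]
  exact Ac_arith (by linarith) (by linarith) (by linarith) hR hL hC₁ hC₂ hmain hfirst' hsec' hq hs ha1 hSU0 hQU0 (by positivity)
    hE0 hS0 hV0

end Pool.Agent.H16.TU
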