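/-
ROW Pk (MP_09540e_TU). The two parts of the kernel. PROOF. nk is smooth for ε > 0 (KInt_rpow_smooth in H87/NS/KInt.lean: `z ↦ (‖z‖²+ε²)^a` smooth); `pd i (nk ε) = - MK ε i` (Newt_K in H72/CC/Newt.lean), `pd k (MK ε i)`: MK_pd. So `nk ≤ ‖x‖⁻¹`, `|pd i nk| ≤ ‖x‖⁻²`, `|pd i pd j nk| ≤ 4 ‖x‖⁻³` for x ≠ 0 (|x_i| ≤ ‖x‖, (‖x‖²+ε²)^(-a) ≤ ‖x‖^(-2a)).
The cut-off `ζ = zc (l/2) l` (H72/CC/Cut.lean: zc_smooth, zc_one for ‖x‖ ≤ l/2, zc_zero for ‖x‖ ≥ l, zc_nonneg, zc_le) satisfies `|pd i ζ| ≤ C/l`, `|pd i pd j ζ| ≤ C/l²`: `ζ x = s((l² - ‖x‖²)/(3l²/4))`, s = Real.smoothTransition with bounded first and second derivatives (Cut_bd), argument derivatives `-(8/3) x_i / l²`, `|x_i| ≤ l` where the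
derivative of ζ is nonzero; the derivatives of ζ vanish for ‖x‖ < l/2 and ‖x‖ > l (locally constant). Leibniz: k_b1: `|pd i k1| ≤ |pd i ζ| nk + ζ |pd i nk| ≤ (C/l) ‖x‖⁻¹ 1_{‖x‖≤l} + ‖x‖⁻² ≤ (C+1) ‖x‖⁻²`. k_b2: k2 = 0 for ‖x‖ ≤ l/2 (so all derivatives vanish for ‖x‖ < l/2, and at ‖x‖ = l/2 by continuity the bound holds),
and for ‖x‖ ≥ l/2: `|pd i pd j k2| ≤ |pd pd ζ| nk + 2 |pd ζ||pd nk| + |pd pd nk| ≤ C' ‖x‖⁻³ ≤ 8 C' (max ‖x‖ l)⁻³`, (pd ζ ≠ 0 only for ‖x‖ ≤ l), `|pd i k2| ≤ C' ‖x‖⁻² ≤ 4 C'/l²`, `|k2| ≤ ‖x‖⁻¹ ≤ 2/l`.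
-/
import Pool.Agent.H16.TU.Defs

set_option autoImplicit false

open Set Filter Topology MeasureTheory
open scoped ContDiff

namespace Pool.Agent.H16.TU

open Pool.Agent.H16 Pool.Agent.H87.NS Pool.Agent.H72.CC

theorem Pk_mul {f g : E3 → ℝ} (hf : ContDiff ℝ ∞ f) (hg : ContDiff ℝ ∞ g) (i : Fin 3) :
    pd i (fun y => f y * g y) = fun x => pd i f x * g x + f x * pd i g x := by
  funext x
  unfold pd
  rw [fderiv_fun_mul (hf.differentiable (by simp)).differentiableAt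
    (hg.differentiable (by simp)).differentiableAt]
  simp only [_root_.add_apply, _root_.smul_apply, smul_eq_mul]
  ring

theorem Pk_add {f g : E3 → ℝ} (hf : ContDiff ℝ ∞ f) (hg : ContDiff ℝ ∞ g) (i : Fin 3) (x : E3) :
    pd i (fun y => f y + g y) x = pd i f x + pd i g x := by
  unfold pd
  rw [fderiv_fun_add (hf.differentiable (by simp)).differentiableAt
    (hg.differentiable (by simp)).differentiableAt]
  simp

theorem Pk_neg (g : E3 → ℝ) (i : Fin 3) : pd i (fun y => - g y) = fun x => - pd i g x := by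
  funext x
  unfold pd
  rw [fderiv_fun_neg]
  simp

theorem Pk_one (g : E3 → ℝ) (i : Fin 3) : pd i (fun y => 1 - g y) = fun x => - pd i g x := by
  funext x
  unfold pd
  rw [fderiv_const_sub]
  simp

theorem Pk_sm {f : E3 → ℝ} (hf : ContDiff ℝ ∞ f) (i : Fin 3) : ContDiff ℝ ∞ (pd i f) := by
  unfold pd
  exact (hf.fderiv_right (m := ∞) (by simp)).clm_apply contDiff_const

theorem Pk_mul2 {f g : E3 → ℝ} (hf : ContDiff ℝ ∞ f) (hg : ContDiff ℝ ∞ g) (i j : Fin 3) (x : E3) :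
    pd i (pd j (fun y => f y * g y)) x =
      pd i (pd j f) x * g x + pd j f x * pd i g x + (pd i f x * pd j g x + f x * pd i (pd j g) x) := by
  rw [Pk_mul hf hg j, Pk_add ((Pk_sm hf j).mul hg) (hf.mul (Pk_sm hg j)), Pk_mul (Pk_sm hf j) hg i,
    Pk_mul hf (Pk_sm hg j) i]

theorem Pk_co (x : E3) (i : Fin 3) : |x i| ≤ ‖x‖ := by
  have h := PiLp.norm_apply_le x i
  rwa [Real.norm_eq_abs] at h

/-- powers of `‖x‖² + ε²` against powers of the norm -/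
theorem Pk_pw {r q ε : ℝ} (hr : 0 < r) (n : ℕ) (hq : q = -(n / 2 : ℝ)) :
    0 ≤ (r ^ 2 + ε ^ 2) ^ q ∧ (r ^ 2 + ε ^ 2) ^ q ≤ (r ^ n)⁻¹ := by
  have hP : 0 < r ^ 2 + ε ^ 2 := by positivity
  refine ⟨Real.rpow_nonneg hP.le _, ?_⟩
  have h1 : (r ^ 2 + ε ^ 2) ^ q ≤ (r ^ 2) ^ q := by
    refine Real.rpow_le_rpow_of_nonpos (by positivity) (by nlinarith [sq_nonneg ε]) ?_
    rw [hq]
    have : (0:ℝ) ≤ n / 2 := by positivity
    linarith
  have h2 : (r ^ 2) ^ q = (r ^ n)⁻¹ := by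
    rw [hq, ← Real.rpow_natCast r 2, ← Real.rpow_mul hr.le, ← Real.rpow_natCast r n, ← Real.rpow_neg hr.le]
    congr 1
    push_cast
    ring
  rw [← h2]
  exact h1

theorem Pk_nk1 {ε : ℝ} (hε : 0 < ε) (i : Fin 3) : pd i (nk ε) = fun x => - MK ε i x := by
  funext x
  exact Newt_K hε i x

theorem Pk_nk2 {ε : ℝ} (hε : 0 < ε) (i j : Fin 3) (x : E3) : pd i (pd j (nk ε)) x = - pd i (MK ε j) x := by
  rw [Pk_nk1 hε, Pk_neg]

theorem Pk_nsm {ε : ℝ} (hε : 0 < ε) : ContDiff ℝ ∞ (nk ε) := KInt_rpow_smooth hε _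

/-- bounds for the kernel -/
theorem Pk_nb {ε : ℝ} (hε : 0 < ε) {x : E3} (hx : 0 < ‖x‖) (i j : Fin 3) : 0 ≤ nk ε x ∧ nk ε x ≤ ‖x‖⁻¹ ∧
    |pd i (nk ε) x| ≤ (‖x‖ ^ 2)⁻¹ ∧ |pd i (pd j (nk ε)) x| ≤ 4 * (‖x‖ ^ 3)⁻¹ := by
  have e1 := Pk_pw (ε := ε) (q := -(1/2)) hx 1 (by norm_num)
  have e3 := Pk_pw (ε := ε) (q := -(3/2)) hx 3 (by norm_num)
  have e5 := Pk_pw (ε := ε) (q := -(5/2)) hx 5 (by norm_num)
  refine ⟨e1.1, ?_, ?_, ?_⟩
  · have := e1.2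
    rwa [pow_one] at this
  · rw [Pk_nk1 hε]
    simp only
    unfold MK
    rw [abs_neg, abs_mul, abs_of_nonneg e3.1]
    calc |x i| * (‖x‖ ^ 2 + ε ^ 2) ^ (-(3/2) : ℝ) ≤ ‖x‖ * (‖x‖ ^ 3)⁻¹ :=
          mul_le_mul (Pk_co x i) e3.2 e3.1 hx.le
      _ = (‖x‖ ^ 2)⁻¹ := by field_simp
  · rw [Pk_nk2 hε, abs_neg, MK_pd hε]
    have h1 : |(if j = i then (‖x‖ ^ 2 + ε ^ 2) ^ (-(3/2) : ℝ) else 0)| ≤ (‖x‖ ^ 3)⁻¹ := by
      split_ifs
      · rw [abs_of_nonneg e3.1]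
        exact e3.2
      · rw [abs_zero]
        positivity
    have h2 : |3 * x j * x i * (‖x‖ ^ 2 + ε ^ 2) ^ (-(5/2) : ℝ)| ≤ 3 * (‖x‖ ^ 3)⁻¹ := by
      rw [abs_mul, abs_of_nonneg e5.1, abs_mul, abs_mul, abs_of_pos (by norm_num : (0:ℝ) < 3)]
      have h3 : 3 * |x j| * |x i| ≤ 3 * ‖x‖ * ‖x‖ :=
        mul_le_mul (mul_le_mul_of_nonneg_left (Pk_co x j) (by norm_num)) (Pk_co x i) (abs_nonneg _) (by positivity)
      calc 3 * |x j| * |x i| * (‖x‖ ^ 2 + ε ^ 2) ^ (-(5/2) : ℝ) ≤ 3 * ‖x‖ * ‖x‖ * (‖x‖ ^ 5)⁻¹ :=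
            mul_le_mul h3 e5.2 e5.1 (by positivity)
        _ = 3 * (‖x‖ ^ 3)⁻¹ := by field_simp
    calc _ ≤ _ := abs_sub _ _
      _ ≤ (‖x‖ ^ 3)⁻¹ + 3 * (‖x‖ ^ 3)⁻¹ := add_le_add h1 h2
      _ = 4 * (‖x‖ ^ 3)⁻¹ := by ring

/-- second derivatives of functions of `‖x‖²` -/
theorem Pk_pdd {h : ℝ → ℝ} (hh : ContDiff ℝ ∞ h) (i j : Fin 3) (x : E3) :
    pd i (pd j (fun y => h (‖y‖ ^ 2))) x =
      deriv (deriv h) (‖x‖ ^ 2) * (2 * x i) * (2 * x j) + deriv h (‖x‖ ^ 2) * (if j = i then 2 else 0) := by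
  have hh1 : ContDiff ℝ ∞ (deriv h) := (contDiff_infty_iff_deriv.1 hh).2
  have h0 : pd j (fun y => h (‖y‖ ^ 2)) = fun y => deriv h (‖y‖ ^ 2) * (2 * y j) := funext fun y => Cut_pd hh j y
  have h1 : ContDiff ℝ ∞ (fun y : E3 => deriv h (‖y‖ ^ 2)) := hh1.comp (contDiff_norm_sq ℝ)
  have h2 : ContDiff ℝ ∞ (fun y : E3 => 2 * y j) := contDiff_const.mul (Cut_coord j)
  rw [h0, Pk_mul h1 h2]
  simp only
  rw [Cut_pd hh1]
  have h3 : pd i (fun y : E3 => 2 * y j) x = if j = i then 2 else 0 := by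
    unfold pd
    have h : HasFDerivAt (fun y : E3 => 2 * y j) ((2:ℝ) • (EuclideanSpace.proj (𝕜 := ℝ) j : E3 →L[ℝ] ℝ)) x :=
      ((EuclideanSpace.proj (𝕜 := ℝ) j : E3 →L[ℝ] ℝ).hasFDerivAt).const_mul 2
    rw [h.fderiv]
    have h8 : (EuclideanSpace.proj j : E3 →L[ℝ] ℝ) (e i) = if j = i then 1 else 0 := e_apply i j
    simp only [_root_.smul_apply, smul_eq_mul, h8]
    split_ifs <;> norm_num
  rw [h3]

/-- the cut-off -/
theorem Pk_cut : ∃ C : ℝ, 1 ≤ C ∧ ∀ l : ℝ, 0 < l → ∀ x : E3, ∀ i j : Fin 3,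
    |pd i (zc (l / 2) l) x| ≤ 3 * C / l ∧ |pd i (pd j (zc (l / 2) l)) x| ≤ 10 * C / l ^ 2 ∧
    (l ≤ ‖x‖ → pd i (zc (l / 2) l) x = 0 ∧ pd i (pd j (zc (l / 2) l)) x = 0) := by
  obtain ⟨C, hC1, hCd, hCdd, hC0⟩ := Cut_bd
  refine ⟨C, hC1, fun l hl x i j => ?_⟩
  have hC : 0 < C := by linarith
  have hsm := Cut_h_smooth (l / 2) l
  have hd : l ^ 2 - (l / 2) ^ 2 = 3 / 4 * l ^ 2 := by ring
  set t : ℝ := deriv Real.smoothTransition ((l ^ 2 - ‖x‖ ^ 2) / (l ^ 2 - (l / 2) ^ 2)) with ht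
  set u : ℝ := deriv (deriv Real.smoothTransition) ((l ^ 2 - ‖x‖ ^ 2) / (l ^ 2 - (l / 2) ^ 2)) with hu
  have e1 : pd i (zc (l / 2) l) x = - t / (3 / 4 * l ^ 2) * (2 * x i) := by
    have h := Cut_pd hsm i x
    rw [(Cut_dh (l / 2) l (‖x‖ ^ 2)).deriv, hd] at h
    rw [ht, hd]
    exact h
  have e2 : pd i (pd j (zc (l / 2) l)) x = u / (3 / 4 * l ^ 2) ^ 2 * (2 * x i) * (2 * x j) +
      - t / (3 / 4 * l ^ 2) * (if j = i then 2 else 0) := by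
    have h := Pk_pdd hsm i j x
    rw [(Cut_dh (l / 2) l (‖x‖ ^ 2)).deriv, (Cut_ddh (l / 2) l (‖x‖ ^ 2)).deriv, hd] at h
    rw [ht, hu, hd]
    exact h
  have hz : l ≤ ‖x‖ → t = 0 ∧ u = 0 := by
    intro h
    refine hC0 _ ?_
    have := pow_le_pow_left₀ hl.le h 2
    exact div_nonpos_of_nonpos_of_nonneg (by linarith) (by rw [hd]; positivity)
  have htC : |t| ≤ C := hCd _
  have huC : |u| ≤ C := hCdd _
  have hlast : l ≤ ‖x‖ → pd i (zc (l / 2) l) x = 0 ∧ pd i (pd j (zc (l / 2) l)) x = 0 := by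
    intro h
    obtain ⟨h1, h2⟩ := hz h
    rw [e1, e2, h1, h2]
    simp
  rcases le_or_gt l ‖x‖ with h | h
  · obtain ⟨h1, h2⟩ := hlast h
    refine ⟨?_, ?_, hlast⟩
    · rw [h1, abs_zero]
      positivity
    · rw [h2, abs_zero]
      positivity
  · have hxi : |x i| ≤ l := (Pk_co x i).trans h.le
    have hxj : |x j| ≤ l := (Pk_co x j).trans h.le
    refine ⟨?_, ?_, hlast⟩
    · rw [e1, abs_mul, abs_div, abs_neg, abs_of_pos (by positivity : 0 < 3 / 4 * l ^ 2), abs_mul,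
        abs_of_pos (by norm_num : (0:ℝ) < 2)]
      calc |t| / (3 / 4 * l ^ 2) * (2 * |x i|) ≤ C / (3 / 4 * l ^ 2) * (2 * l) := by gcongr
        _ = 8 / 3 * C / l := by field_simp; norm_num
        _ ≤ 3 * C / l := by gcongr; norm_num
    · rw [e2]
      have f1 : |u / (3 / 4 * l ^ 2) ^ 2 * (2 * x i) * (2 * x j)| ≤ 64 / 9 * C / l ^ 2 := by
        rw [abs_mul, abs_mul, abs_div, abs_mul, abs_mul, abs_of_pos (by norm_num : (0:ℝ) < 2),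
          abs_of_pos (by positivity : 0 < (3 / 4 * l ^ 2) ^ 2)]
        calc |u| / (3 / 4 * l ^ 2) ^ 2 * (2 * |x i|) * (2 * |x j|) ≤
              C / (3 / 4 * l ^ 2) ^ 2 * (2 * l) * (2 * l) := by gcongr
          _ = 64 / 9 * C / l ^ 2 := by field_simp; norm_num
      have f2 : |- t / (3 / 4 * l ^ 2) * (if j = i then 2 else 0)| ≤ 8 / 3 * C / l ^ 2 := by
        have f3 : |(if j = i then 2 else 0 : ℝ)| ≤ 2 := by split_ifs <;> norm_num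
        rw [abs_mul, abs_div, abs_neg, abs_of_pos (by positivity : 0 < 3 / 4 * l ^ 2)]
        calc |t| / (3 / 4 * l ^ 2) * |(if j = i then 2 else 0 : ℝ)| ≤ C / (3 / 4 * l ^ 2) * 2 := by gcongr
          _ = 8 / 3 * C / l ^ 2 := by field_simp; norm_num
      calc _ ≤ _ := abs_add_le _ _
        _ ≤ 64 / 9 * C / l ^ 2 + 8 / 3 * C / l ^ 2 := add_le_add f1 f2
        _ = 88 / 9 * C / l ^ 2 := by ring
        _ ≤ 10 * C / l ^ 2 := by gcongr; norm_num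

theorem k_sm {ε l : ℝ} (hε : 0 < ε) (hl : 0 < l) : ContDiff ℝ ∞ (nk ε) ∧ ContDiff ℝ ∞ (k1 ε l) ∧ ContDiff ℝ ∞ (k2 ε l) :=
  ⟨Pk_nsm hε, (zc_smooth _ _).mul (Pk_nsm hε), (contDiff_const.sub (zc_smooth _ _)).mul (Pk_nsm hε)⟩

theorem k_sum (ε l : ℝ) (x : E3) : nk ε x = k1 ε l x + k2 ε l x := by
  unfold k1 k2
  ring

theorem k_even (ε l : ℝ) (x : E3) : k1 ε l (- x) = k1 ε l x ∧ k2 ε l (- x) = k2 ε l x ∧ nk ε (- x) = nk ε x := by
  unfold k1 k2 nk zc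
  simp only [norm_neg, and_self]

theorem k_far {ε l : ℝ} (hl : 0 < l) {x : E3} (hx : l ≤ ‖x‖) : k1 ε l x = 0 := by
  unfold k1
  rw [zc_zero (by linarith) (by linarith) hx, zero_mul]

theorem k_b0 {ε l : ℝ} (hε : 0 < ε) (hl : 0 < l) (x : E3) : 0 ≤ nk ε x ∧ nk ε x ≤ 1 / ε ∧ |k2 ε l x| ≤ 2 / l ∧
    |pd 0 (nk ε) x| ≤ 1 / ε ^ 2 ∧ |pd 1 (nk ε) x| ≤ 1 / ε ^ 2 ∧ |pd 2 (nk ε) x| ≤ 1 / ε ^ 2 := by
  have hP := KInt_P_pos hε x
  have h0 : 0 ≤ nk ε x := Real.rpow_nonneg hP.le _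
  have hd : ∀ i : Fin 3, |pd i (nk ε) x| ≤ 1 / ε ^ 2 := by
    intro i
    rw [Pk_nk1 hε]
    simp only
    unfold MK
    rw [abs_neg, abs_mul, abs_of_nonneg (Real.rpow_nonneg hP.le _)]
    have h1 : |x i| ≤ (‖x‖ ^ 2 + ε ^ 2) ^ (1/2 : ℝ) := by
      rw [← Real.sqrt_eq_rpow]
      refine (Pk_co x i).trans (Real.le_sqrt_of_sq_le ?_)
      nlinarith [sq_nonneg ε]
    calc |x i| * (‖x‖ ^ 2 + ε ^ 2) ^ (-(3/2) : ℝ) ≤
          (‖x‖ ^ 2 + ε ^ 2) ^ (1/2 : ℝ) * (‖x‖ ^ 2 + ε ^ 2) ^ (-(3/2) : ℝ) :=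
          mul_le_mul_of_nonneg_right h1 (Real.rpow_nonneg hP.le _)
      _ = (‖x‖ ^ 2 + ε ^ 2) ^ (-1 : ℝ) := by
          rw [← Real.rpow_add hP]
          norm_num
      _ = 1 / (‖x‖ ^ 2 + ε ^ 2) := by rw [Real.rpow_neg_one, one_div]
      _ ≤ 1 / ε ^ 2 := by
          refine one_div_le_one_div_of_le (by positivity) ?_
          nlinarith [sq_nonneg ‖x‖]
  refine ⟨h0, ?_, ?_, hd 0, hd 1, hd 2⟩
  · have h1 : nk ε x ≤ (ε ^ 2) ^ (-(1/2) : ℝ) :=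
      Real.rpow_le_rpow_of_nonpos (by positivity) (by nlinarith [sq_nonneg ‖x‖]) (by norm_num)
    have h2 : (ε ^ 2) ^ (-(1/2) : ℝ) = 1 / ε := by
      rw [Real.rpow_neg (by positivity), ← Real.sqrt_eq_rpow, Real.sqrt_sq hε.le, one_div]
    rw [← h2]
    exact h1
  · unfold k2
    rcases le_or_gt ‖x‖ (l / 2) with h | h
    · rw [zc_one (by linarith) (by linarith) h]
      simp only [sub_self, zero_mul, abs_zero]
      positivity
    · have hx : 0 < ‖x‖ := by linarith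
      have h3 := (Pk_nb hε hx 0 0).2.1
      have h4 := zc_nonneg (l / 2) l x
      have h5 := zc_le (l / 2) l x
      rw [abs_mul, abs_of_nonneg h0, abs_of_nonneg (by linarith)]
      calc (1 - zc (l / 2) l x) * nk ε x ≤ 1 * ‖x‖⁻¹ := mul_le_mul (by linarith) h3 h0 (by norm_num)
        _ ≤ 1 * (l / 2)⁻¹ := by gcongr
        _ = 2 / l := by field_simp

theorem k_b : ∃ C : ℝ, 0 < C ∧ ∀ ε l : ℝ, 0 < ε → 0 < l → ∀ x : E3, ∀ i j : Fin 3,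
    (x ≠ 0 → |pd i (k1 ε l) x| ≤ C * (‖x‖ ^ 2)⁻¹) ∧ (l ≤ ‖x‖ → pd i (k1 ε l) x = 0) ∧
    |pd i (k2 ε l) x| ≤ C / l ^ 2 ∧ |pd i (pd j (k2 ε l)) x| ≤ C * ((max ‖x‖ l) ^ 3)⁻¹ := by
  obtain ⟨C, hC1, hC⟩ := Pk_cut
  have hC0 : 0 < C := by linarith
  refine ⟨80 * C, by linarith, fun ε l hε hl x i j => ?_⟩
  have hζ := zc_smooth (l / 2) l
  have hη : ContDiff ℝ ∞ (fun y => 1 - zc (l / 2) l y) := contDiff_const.sub hζ
  have hn := Pk_nsm hε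
  have z0 := zc_nonneg (l / 2) l x
  have z1 := zc_le (l / 2) l x
  have hl2 : 0 < l / 2 := by linarith
  have hll : l / 2 < l := by linarith
  obtain ⟨c1, c2, c3⟩ := hC l hl x i j
  obtain ⟨c1', -, c3'⟩ := hC l hl x j i
  have ek1 : pd i (k1 ε l) x = pd i (zc (l / 2) l) x * nk ε x + zc (l / 2) l x * pd i (nk ε) x := by
    have h := congrFun (Pk_mul hζ hn i) x
    exact h
  have ek2 : pd i (k2 ε l) x = - pd i (zc (l / 2) l) x * nk ε x + (1 - zc (l / 2) l x) * pd i (nk ε) x := by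
    have h := congrFun (Pk_mul hη hn i) x
    rw [Pk_one] at h
    exact h
  have ek3 : pd i (pd j (k2 ε l)) x = - pd i (pd j (zc (l / 2) l)) x * nk ε x +
      - pd j (zc (l / 2) l) x * pd i (nk ε) x + (- pd i (zc (l / 2) l) x * pd j (nk ε) x +
      (1 - zc (l / 2) l x) * pd i (pd j (nk ε)) x) := by
    have h := Pk_mul2 hη hn i j x
    rw [Pk_one, Pk_one, Pk_neg] at h
    exact h
  have hfar : l ≤ ‖x‖ → pd i (k1 ε l) x = 0 := by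
    intro h
    rw [ek1, (c3 h).1, zc_zero hl2 hll h]
    simp
  refine ⟨fun hx => ?_, hfar, ?_, ?_⟩
  · have hx' : 0 < ‖x‖ := norm_pos_iff.2 hx
    obtain ⟨n0, n1, n2, n3⟩ := Pk_nb hε hx' i j
    rcases le_or_gt l ‖x‖ with h | h
    · rw [hfar h, abs_zero]
      positivity
    · rw [ek1]
      have f1 : |pd i (zc (l / 2) l) x * nk ε x| ≤ 3 * C * (‖x‖ ^ 2)⁻¹ := by
        rw [abs_mul, abs_of_nonneg n0]
        calc |pd i (zc (l / 2) l) x| * nk ε x ≤ (3 * C / l) * ‖x‖⁻¹ := by gcongr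
          _ ≤ (3 * C / ‖x‖) * ‖x‖⁻¹ := by gcongr
          _ = 3 * C * (‖x‖ ^ 2)⁻¹ := by field_simp
      have f2 : |zc (l / 2) l x * pd i (nk ε) x| ≤ (‖x‖ ^ 2)⁻¹ := by
        rw [abs_mul, abs_of_nonneg z0]
        calc zc (l / 2) l x * |pd i (nk ε) x| ≤ 1 * (‖x‖ ^ 2)⁻¹ := by gcongr
          _ = (‖x‖ ^ 2)⁻¹ := one_mul _
      have f3 : 0 ≤ (‖x‖ ^ 2)⁻¹ := by positivity
      calc _ ≤ _ := abs_add_le _ _
        _ ≤ 3 * C * (‖x‖ ^ 2)⁻¹ + (‖x‖ ^ 2)⁻¹ := add_le_add f1 f2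
        _ ≤ 80 * C * (‖x‖ ^ 2)⁻¹ := by nlinarith only [hC1, f3]
  · rcases lt_or_ge ‖x‖ (l / 2) with h | h
    · have hev : k2 ε l =ᶠ[𝓝 x] fun _ => 0 := by
        have : ∀ᶠ y in 𝓝 x, ‖y‖ < l / 2 := continuous_norm.continuousAt.eventually_lt continuousAt_const h
        filter_upwards [this] with y hy
        unfold k2
        rw [zc_one hl2 hll hy.le]
        ring
      have : pd i (k2 ε l) x = 0 := by
        unfold pd
        rw [hev.fderiv_eq]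
        simp
      rw [this, abs_zero]
      positivity
    · have hx' : 0 < ‖x‖ := by linarith
      obtain ⟨n0, n1, n2, n3⟩ := Pk_nb hε hx' i j
      rw [ek2]
      have f1 : |- pd i (zc (l / 2) l) x * nk ε x| ≤ 6 * C / l ^ 2 := by
        rw [abs_mul, abs_of_nonneg n0, abs_neg]
        calc |pd i (zc (l / 2) l) x| * nk ε x ≤ (3 * C / l) * ‖x‖⁻¹ := by gcongr
          _ ≤ (3 * C / l) * (l / 2)⁻¹ := by gcongr
          _ = 6 * C / l ^ 2 := by field_simp; norm_num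
      have f2 : |(1 - zc (l / 2) l x) * pd i (nk ε) x| ≤ 4 / l ^ 2 := by
        rw [abs_mul, abs_of_nonneg (by linarith)]
        calc (1 - zc (l / 2) l x) * |pd i (nk ε) x| ≤ 1 * (‖x‖ ^ 2)⁻¹ := by gcongr; linarith
          _ ≤ 1 * ((l / 2) ^ 2)⁻¹ := by gcongr
          _ = 4 / l ^ 2 := by field_simp; norm_num
      calc _ ≤ _ := abs_add_le _ _
        _ ≤ 6 * C / l ^ 2 + 4 / l ^ 2 := add_le_add f1 f2
        _ = (6 * C + 4) / l ^ 2 := by ring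
        _ ≤ 80 * C / l ^ 2 := by gcongr; linarith
  · rcases lt_or_ge ‖x‖ (l / 2) with h | h
    · have hev : k2 ε l =ᶠ[𝓝 x] fun _ => 0 := by
        have : ∀ᶠ y in 𝓝 x, ‖y‖ < l / 2 := continuous_norm.continuousAt.eventually_lt continuousAt_const h
        filter_upwards [this] with y hy
        unfold k2
        rw [zc_one hl2 hll hy.le]
        ring
      have hev2 : pd j (k2 ε l) =ᶠ[𝓝 x] fun _ => 0 := by
        filter_upwards [hev.eventuallyEq_nhds] with y hy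
        unfold pd
        rw [hy.fderiv_eq]
        simp
      have : pd i (pd j (k2 ε l)) x = 0 := by
        have h3 : pd i (pd j (k2 ε l)) x = fderiv ℝ (pd j (k2 ε l)) x (e i) := rfl
        rw [h3, hev2.fderiv_eq]
        simp
      rw [this, abs_zero]
      positivity
    · have hx' : 0 < ‖x‖ := by linarith
      obtain ⟨n0, n1, n2, n3⟩ := Pk_nb hε hx' i j
      obtain ⟨-, -, n2', -⟩ := Pk_nb hε hx' j i
      rcases le_or_gt l ‖x‖ with h' | h'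
      · rw [ek3, (c3 h').1, (c3 h').2, (c3' h').1, max_eq_left h']
        simp only [neg_zero, zero_mul, zero_add]
        rw [abs_mul, abs_of_nonneg (by linarith)]
        calc (1 - zc (l / 2) l x) * |pd i (pd j (nk ε)) x| ≤ 1 * (4 * (‖x‖ ^ 3)⁻¹) := by gcongr; linarith
          _ = 4 * (‖x‖ ^ 3)⁻¹ := one_mul _
          _ ≤ 80 * C * (‖x‖ ^ 3)⁻¹ := by gcongr; linarith
      · rw [ek3, max_eq_right h'.le]
        have f1 : |- pd i (pd j (zc (l / 2) l)) x * nk ε x| ≤ 20 * C * (l ^ 3)⁻¹ := by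
          rw [abs_mul, abs_of_nonneg n0, abs_neg]
          calc |pd i (pd j (zc (l / 2) l)) x| * nk ε x ≤ (10 * C / l ^ 2) * ‖x‖⁻¹ := by gcongr
            _ ≤ (10 * C / l ^ 2) * (l / 2)⁻¹ := by gcongr
            _ = 20 * C * (l ^ 3)⁻¹ := by field_simp; norm_num
        have f2 : |- pd j (zc (l / 2) l) x * pd i (nk ε) x| ≤ 12 * C * (l ^ 3)⁻¹ := by
          rw [abs_mul, abs_neg]
          calc |pd j (zc (l / 2) l) x| * |pd i (nk ε) x| ≤ (3 * C / l) * (‖x‖ ^ 2)⁻¹ := by gcongr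
            _ ≤ (3 * C / l) * ((l / 2) ^ 2)⁻¹ := by gcongr
            _ = 12 * C * (l ^ 3)⁻¹ := by field_simp; norm_num
        have f3 : |- pd i (zc (l / 2) l) x * pd j (nk ε) x| ≤ 12 * C * (l ^ 3)⁻¹ := by
          rw [abs_mul, abs_neg]
          calc |pd i (zc (l / 2) l) x| * |pd j (nk ε) x| ≤ (3 * C / l) * (‖x‖ ^ 2)⁻¹ := by gcongr
            _ ≤ (3 * C / l) * ((l / 2) ^ 2)⁻¹ := by gcongr
            _ = 12 * C * (l ^ 3)⁻¹ := by field_simp; norm_num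
        have f4 : |(1 - zc (l / 2) l x) * pd i (pd j (nk ε)) x| ≤ 32 * (l ^ 3)⁻¹ := by
          rw [abs_mul, abs_of_nonneg (by linarith)]
          calc (1 - zc (l / 2) l x) * |pd i (pd j (nk ε)) x| ≤ 1 * (4 * (‖x‖ ^ 3)⁻¹) := by gcongr; linarith only [z0]
            _ ≤ 1 * (4 * ((l / 2) ^ 3)⁻¹) := by gcongr
            _ = 32 * (l ^ 3)⁻¹ := by field_simp; norm_num
        have f5 : 0 < (l ^ 3)⁻¹ := by positivity
        have g1 := abs_add_le (- pd i (pd j (zc (l / 2) l)) x * nk ε x +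
          - pd j (zc (l / 2) l) x * pd i (nk ε) x) (- pd i (zc (l / 2) l) x * pd j (nk ε) x +
          (1 - zc (l / 2) l x) * pd i (pd j (nk ε)) x)
        have g2 := abs_add_le (- pd i (pd j (zc (l / 2) l)) x * nk ε x) (- pd j (zc (l / 2) l) x * pd i (nk ε) x)
        have g3 := abs_add_le (- pd i (zc (l / 2) l) x * pd j (nk ε) x) ((1 - zc (l / 2) l x) * pd i (pd j (nk ε)) x)
        nlinarith only [hC1, f1, f2, f3, f4, f5, g1, g2, g3]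

end Pool.Agent.H16.TU
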