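/-
ROW Pc (MP_09540e_TU). Convolutions. PROOF. cv1: k1 is smooth with compact support (k_sm, k_far), g is locally integrable, so `G` is smooth: HasCompactSupport.contDiff_convolution_left (or write `G y = ∫ k1(x - y) g x = (k1 ⋆ g)(y)` with k_even) and `fderiv` of the convolution is the convolution of the derivative: `pd i G y = ∫ pd i (k1) (y - x) g x dx`
(HasCompactSupport.hasFDerivAt_convolution_left; or hasFDerivAt_integral_of_dominated_of_fderiv_le). Bound: k_b (x ≠ y a.e.; zero for ‖x - y‖ ≥ l): `|pd i G y| ≤ C ∫_{ball y l} (‖x-y‖²)⁻¹ |g x| = C NE l g y` (the right side integrand is integrable: (‖x-y‖²)⁻¹ is integrable on the ball, ne_ker in We.lean, g bounded).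
If g is TF: substitute `x = y + z`: `G y = ∫ k1 z g (y + z) dz`, so `pd i G y = ∫ k1 z (pd i g)(y+z) dz` (dominated by |k1| B), i.e. `pd i G = ∫ k1 (x - y) pd i g x dx`; apply the first part to the continuous bounded integrable function `pd i g`. Boundedness of G, pd i G: k1 and its derivatives are bounded (compact support) and g integrable.
cv2: the same with k2: k2, pd i k2, pd i pd j k2 are bounded (k_b0, k_b; ‖pd i pd j k2‖ ≤ C/l³), g is integrable, so differentiate under the integral twice (hasFDerivAt_integral_of_dominated_of_fderiv_le; continuity of the derivatives by dominated convergence, so G is C²); `|pd j (pd i G) y| ≤ C ∫ (max ‖x-y‖ l ^3)⁻¹ |g x|`.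
-/
import Pool.Agent.H16.TU.Pk
import Pool.Agent.H16.TU.We

set_option autoImplicit false

open Set Filter Topology MeasureTheory
open scoped ContDiff

namespace Pool.Agent.H16.TU

open Pool.Agent.H16 Pool.Agent.H87.NS Pool.Agent.H72.CC

theorem Pc_dec (L : E3 →L[ℝ] ℝ) :
    L = ∑ i : Fin 3, L (e i) • (EuclideanSpace.proj i : E3 →L[ℝ] ℝ) := by
  ext v
  have h : v = ∑ i : Fin 3, v i • e i := by
    have h1 := (EuclideanSpace.basisFun (Fin 3) ℝ).sum_repr v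
    simp only [EuclideanSpace.basisFun_repr, EuclideanSpace.basisFun_apply] at h1
    exact h1.symm
  have h2 : L v = ∑ i : Fin 3, v i * L (e i) := by
    conv_lhs => rw [h]
    rw [map_sum]
    refine Finset.sum_congr rfl fun i _ => ?_
    rw [map_smul, smul_eq_mul]
  rw [h2, ContinuousLinearMap.sum_apply]
  refine Finset.sum_congr rfl fun i _ => ?_
  show v i * L (e i) = L (e i) * v i
  ring

theorem Pc_norm {L : E3 →L[ℝ] ℝ} {M : ℝ} (hM : ∀ i, |L (e i)| ≤ M) : ‖L‖ ≤ 3 * M := by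
  have hp : ∀ i : Fin 3, ‖(EuclideanSpace.proj i : E3 →L[ℝ] ℝ)‖ ≤ 1 := fun i =>
    ContinuousLinearMap.opNorm_le_bound _ zero_le_one fun v => by
      rw [one_mul]
      exact PiLp.norm_apply_le v i
  rw [Pc_dec L]
  refine (norm_sum_le _ _).trans ?_
  have h1 : ∀ i ∈ (Finset.univ : Finset (Fin 3)),
      ‖L (e i) • (EuclideanSpace.proj i : E3 →L[ℝ] ℝ)‖ ≤ M := by
    intro i _
    rw [norm_smul, Real.norm_eq_abs]
    have h2 := mul_le_mul (hM i) (hp i) (norm_nonneg _) ((abs_nonneg _).trans (hM i))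
    rwa [mul_one] at h2
  refine (Finset.sum_le_card_nsmul _ _ _ h1).trans ?_
  simp

/-- The integral against a translated kernel. -/
noncomputable def Pc_G (κ g : E3 → ℝ) (y : E3) : ℝ := ∫ x, κ (x - y) * g x

theorem Pc_int {κ g : E3 → ℝ} {M : ℝ} (hκ : Continuous κ) (hM : ∀ x, |κ x| ≤ M)
    (hg : Integrable g) (y : E3) : Integrable (fun x => κ (x - y) * g x) := by
  refine Integrable.mono' (hg.norm.const_mul M)
    ((hκ.comp (continuous_id.sub continuous_const)).aestronglyMeasurable.mul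
      hg.aestronglyMeasurable) ?_
  refine Filter.Eventually.of_forall fun x => ?_
  rw [norm_mul, Real.norm_eq_abs]
  exact mul_le_mul_of_nonneg_right (hM _) (norm_nonneg _)

theorem Pc_cont {κ g : E3 → ℝ} {M : ℝ} (hκ : Continuous κ) (hM : ∀ x, |κ x| ≤ M)
    (hg : Integrable g) : Continuous (Pc_G κ g) := by
  unfold Pc_G
  refine continuous_of_dominated (bound := fun x => M * ‖g x‖)
    (fun y => (Pc_int hκ hM hg y).aestronglyMeasurable) (fun y => ?_) (hg.norm.const_mul M) ?_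
  · refine Filter.Eventually.of_forall fun x => ?_
    rw [norm_mul, Real.norm_eq_abs]
    exact mul_le_mul_of_nonneg_right (hM _) (norm_nonneg _)
  · refine Filter.Eventually.of_forall fun x => ?_
    exact (hκ.comp (continuous_const.sub continuous_id)).mul continuous_const

theorem Pc_bd {κ g : E3 → ℝ} {M : ℝ} (hM : ∀ x, |κ x| ≤ M)
    (hg : Integrable g) (y : E3) : |Pc_G κ g y| ≤ M * ∫ x, ‖g x‖ := by
  unfold Pc_G
  rw [← integral_const_mul, ← Real.norm_eq_abs]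
  refine norm_integral_le_of_norm_le (hg.norm.const_mul M) ?_
  refine Filter.Eventually.of_forall fun x => ?_
  rw [norm_mul, Real.norm_eq_abs]
  exact mul_le_mul_of_nonneg_right (hM _) (norm_nonneg _)

theorem Pc_d {κ g : E3 → ℝ} {M : ℝ} (hκ : ContDiff ℝ 1 κ) (hM : ∀ x, |κ x| ≤ M)
    (hM' : ∀ i x, |pd i κ x| ≤ M) (hg : Integrable g) :
    Differentiable ℝ (Pc_G κ g) ∧ ∀ i y, pd i (Pc_G κ g) y = - Pc_G (pd i κ) g y := by
  have hcf : Continuous (fderiv ℝ κ) := hκ.continuous_fderiv one_ne_zero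
  have hfb : ∀ z, ‖fderiv ℝ κ z‖ ≤ 3 * M := fun z => Pc_norm fun i => hM' i z
  have hbi : Integrable (fun x => 3 * M * ‖g x‖) := hg.norm.const_mul (3 * M)
  have hFm : ∀ y : E3, AEStronglyMeasurable (fun x => (- g x) • fderiv ℝ κ (x - y)) volume :=
    fun y => hg.aestronglyMeasurable.neg.smul
      (hcf.comp (continuous_id.sub continuous_const)).aestronglyMeasurable
  have hFb : ∀ x y : E3, ‖(- g x) • fderiv ℝ κ (x - y)‖ ≤ 3 * M * ‖g x‖ := by
    intro x y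
    rw [norm_smul, norm_neg, mul_comm]
    exact mul_le_mul_of_nonneg_right (hfb _) (norm_nonneg _)
  have hFi : ∀ y : E3, Integrable (fun x => (- g x) • fderiv ℝ κ (x - y)) := fun y =>
    Integrable.mono' hbi (hFm y) (Filter.Eventually.of_forall fun x => hFb x y)
  have hd : ∀ y, HasFDerivAt (Pc_G κ g) (∫ x, (- g x) • fderiv ℝ κ (x - y)) y := by
    intro y
    unfold Pc_G
    refine hasFDerivAt_integral_of_dominated_of_fderiv_le (s := Set.univ) (x₀ := y)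
      (F := fun y x => κ (x - y) * g x)
      (F' := fun y x => (- g x) • fderiv ℝ κ (x - y))
      (bound := fun x => 3 * M * ‖g x‖) Filter.univ_mem
      (Filter.Eventually.of_forall fun y => (Pc_int hκ.continuous hM hg y).aestronglyMeasurable)
      (Pc_int hκ.continuous hM hg y) (hFm y) ?_ hbi ?_
    · exact Filter.Eventually.of_forall fun x z _ => hFb x z
    · refine Filter.Eventually.of_forall fun x z _ => ?_
      have h1 : HasFDerivAt (fun z : E3 => x - z) (- ContinuousLinearMap.id ℝ E3) z :=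
        (hasFDerivAt_id z).const_sub x
      have h2 : HasFDerivAt κ (fderiv ℝ κ (x - z)) (x - z) :=
        (hκ.differentiable one_ne_zero (x - z)).hasFDerivAt
      have h3 := (h2.comp z h1).mul_const (g x)
      refine h3.congr_fderiv ?_
      ext v
      simp
  refine ⟨fun y => (hd y).differentiableAt, fun i y => ?_⟩
  unfold pd
  rw [(hd y).fderiv, ContinuousLinearMap.integral_apply (hFi y)]
  unfold Pc_G
  rw [← integral_neg]
  refine integral_congr_ae (Filter.Eventually.of_forall fun x => ?_)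
  show (- g x) * fderiv ℝ κ (x - y) (e i) = - (fderiv ℝ κ (x - y) (e i) * g x)
  ring

theorem Pc_fd {G : E3 → ℝ} :
    fderiv ℝ G = fun y => ∑ i : Fin 3, pd i G y • (EuclideanSpace.proj i : E3 →L[ℝ] ℝ) := by
  funext y
  exact Pc_dec _

theorem Pc_C1 {κ g : E3 → ℝ} {M : ℝ} (hκ : ContDiff ℝ 1 κ) (hM : ∀ x, |κ x| ≤ M)
    (hM' : ∀ i x, |pd i κ x| ≤ M) (hg : Integrable g) : ContDiff ℝ 1 (Pc_G κ g) := by
  obtain ⟨h1, h2⟩ := Pc_d hκ hM hM' hg
  rw [contDiff_one_iff_fderiv]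
  refine ⟨h1, ?_⟩
  rw [Pc_fd]
  refine continuous_finset_sum _ fun i _ => ?_
  have h3 : pd i (Pc_G κ g) = fun y => - Pc_G (pd i κ) g y := funext (h2 i)
  rw [h3]
  exact ((Pc_cont (pd_cont hκ i) (hM' i) hg).neg).smul continuous_const

theorem Pc_C2 {κ g : E3 → ℝ} {M : ℝ} (hκ : ContDiff ℝ ∞ κ) (hM : ∀ x, |κ x| ≤ M)
    (hM' : ∀ i x, |pd i κ x| ≤ M) (hM2 : ∀ i j x, |pd i (pd j κ) x| ≤ M) (hg : Integrable g) :
    ContDiff ℝ 2 (Pc_G κ g) ∧ (∀ i y, pd i (Pc_G κ g) y = - Pc_G (pd i κ) g y) ∧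
      ∀ i j y, pd j (pd i (Pc_G κ g)) y = Pc_G (pd j (pd i κ)) g y := by
  have hκ1 : ContDiff ℝ 1 κ := hκ.of_le (by norm_cast)
  have hp1 : ∀ i, ContDiff ℝ 1 (pd i κ) := fun i =>
    (pd_smooth hκ i).of_le (by norm_cast)
  obtain ⟨h1, h2⟩ := Pc_d hκ1 hM hM' hg
  have h3 : ∀ i, pd i (Pc_G κ g) = fun y => - Pc_G (pd i κ) g y := fun i => funext (h2 i)
  have h4 : ∀ i, ContDiff ℝ 1 (Pc_G (pd i κ) g) := fun i =>
    Pc_C1 (hp1 i) (hM' i) (fun j x => hM2 j i x) hg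
  refine ⟨?_, h2, ?_⟩
  · have h5 : ContDiff ℝ (1 + 1) (Pc_G κ g) := by
      rw [contDiff_succ_iff_fderiv]
      refine ⟨h1, fun h => absurd h (by simp), ?_⟩
      rw [Pc_fd]
      refine ContDiff.sum fun i _ => ?_
      rw [h3]
      exact (h4 i).neg.smul contDiff_const
    rwa [one_add_one_eq_two] at h5
  · intro i j y
    rw [h3 i]
    have h6 : pd j (fun y => - Pc_G (pd i κ) g y) y = - pd j (Pc_G (pd i κ) g) y := by
      unfold pd
      rw [show (fun y => - Pc_G (fun x => fderiv ℝ κ x (e i)) g y) =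
        - Pc_G (fun x => fderiv ℝ κ x (e i)) g from rfl, fderiv_neg]
      rfl
    rw [h6, (Pc_d (hp1 i) (hM' i) (fun j x => hM2 j i x) hg).2 j y, neg_neg]

theorem Pc_cs {κ : E3 → ℝ} (hκ : ContDiff ℝ ∞ κ) (hc : HasCompactSupport κ) :
    ∃ M, (∀ x, |κ x| ≤ M) ∧ (∀ i x, |pd i κ x| ≤ M) ∧ ∀ i j x, |pd i (pd j κ) x| ≤ M := by
  obtain ⟨M0, h0⟩ := hc.exists_bound_of_continuous hκ.continuous
  have hc1 : ∀ i, HasCompactSupport (pd i κ) := fun i => hc.fderiv_apply ℝ (e i)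
  have hc2 : ∀ i j, HasCompactSupport (pd i (pd j κ)) := fun i j => (hc1 j).fderiv_apply ℝ (e i)
  choose M1 h1 using fun i => (hc1 i).exists_bound_of_continuous (pd_smooth hκ i).continuous
  choose M2 h2 using fun i j =>
    (hc2 i j).exists_bound_of_continuous (pd_smooth (pd_smooth hκ j) i).continuous
  have n0 : 0 ≤ M0 := (norm_nonneg _).trans (h0 0)
  have n1 : ∀ i, 0 ≤ M1 i := fun i => (norm_nonneg _).trans (h1 i 0)
  have n2 : ∀ i j, 0 ≤ M2 i j := fun i j => (norm_nonneg _).trans (h2 i j 0)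
  have s1 : ∀ i, M1 i ≤ ∑ i, M1 i := fun i =>
    Finset.single_le_sum (fun i _ => n1 i) (Finset.mem_univ i)
  have s2 : ∀ i j, M2 i j ≤ ∑ i, ∑ j, M2 i j := fun i j =>
    (Finset.single_le_sum (fun j _ => n2 i j) (Finset.mem_univ j)).trans
      (Finset.single_le_sum (f := fun i => ∑ j, M2 i j)
        (fun i _ => Finset.sum_nonneg fun j _ => n2 i j) (Finset.mem_univ i))
  have t1 : 0 ≤ ∑ i, M1 i := Finset.sum_nonneg fun i _ => n1 i
  have t2 : 0 ≤ ∑ i, ∑ j, M2 i j := Finset.sum_nonneg fun i _ => Finset.sum_nonneg fun j _ => n2 i j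
  refine ⟨M0 + (∑ i, M1 i) + ∑ i, ∑ j, M2 i j, fun x => ?_, fun i x => ?_, fun i j x => ?_⟩
  · have h := h0 x
    rw [Real.norm_eq_abs] at h
    linarith
  · have h := h1 i x
    rw [Real.norm_eq_abs] at h
    have := s1 i
    linarith
  · have h := h2 i j x
    rw [Real.norm_eq_abs] at h
    have := s2 i j
    linarith

theorem Pc_k1 {ε l : ℝ} (hε : 0 < ε) (hl : 0 < l) :
    ContDiff ℝ ∞ (k1 ε l) ∧ ∃ M, (∀ x, |k1 ε l x| ≤ M) ∧ (∀ i x, |pd i (k1 ε l) x| ≤ M) ∧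
      ∀ i j x, |pd i (pd j (k1 ε l)) x| ≤ M := by
  have hκ := (k_sm hε hl).2.1
  refine ⟨hκ, Pc_cs hκ ?_⟩
  refine HasCompactSupport.intro (isCompact_closedBall (0 : E3) l) fun x hx => ?_
  rw [Metric.mem_closedBall, dist_zero_right, not_le] at hx
  exact k_far hl hx.le

theorem Pc_near {C ε l : ℝ} (hk : ∀ x : E3, ∀ i : Fin 3,
      (x ≠ 0 → |pd i (k1 ε l) x| ≤ C * (‖x‖ ^ 2)⁻¹) ∧ (l ≤ ‖x‖ → pd i (k1 ε l) x = 0))
    (hl : 0 < l) {g : E3 → ℝ} {B : ℝ} (hg : Continuous g)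
    (hB : ∀ x, |g x| ≤ B) (i : Fin 3) (y : E3) :
    |Pc_G (pd i (k1 ε l)) g y| ≤ C * NE l g y := by
  unfold Pc_G NE
  have h1 : ∫ x, pd i (k1 ε l) (x - y) * g x =
      ∫ x in Metric.ball y l, pd i (k1 ε l) (x - y) * g x := by
    symm
    apply setIntegral_eq_integral_of_forall_compl_eq_zero
    intro x hx
    rw [Metric.mem_ball, dist_eq_norm, not_lt] at hx
    rw [(hk (x - y) i).2 hx, zero_mul]
  rw [h1, ← integral_const_mul, ← Real.norm_eq_abs]
  have hker := (ne_ker hl y).1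
  refine norm_integral_le_of_norm_le ?_ ?_
  · refine Integrable.const_mul ?_ C
    refine Integrable.mono' (hker.const_mul B)
      (hker.aestronglyMeasurable.mul hg.abs.aestronglyMeasurable) ?_
    refine Filter.Eventually.of_forall fun x => ?_
    have h2 : 0 ≤ (‖x - y‖ ^ 2)⁻¹ := by positivity
    rw [norm_mul, Real.norm_eq_abs, Real.norm_eq_abs, abs_abs, abs_of_nonneg h2, mul_comm]
    exact mul_le_mul_of_nonneg_right (hB x) h2
  · have h3 : ∀ᵐ x ∂(volume.restrict (Metric.ball y l)), x ≠ y := by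
      refine ae_restrict_of_ae ?_
      exact compl_mem_ae_iff.2 (measure_singleton y)
    filter_upwards [h3] with x hx
    rw [norm_mul, Real.norm_eq_abs, Real.norm_eq_abs, ← mul_assoc]
    exact mul_le_mul_of_nonneg_right ((hk (x - y) i).1 (sub_ne_zero.2 hx)) (abs_nonneg _)

theorem Pc_farb {C ε l : ℝ} (hC : 0 < C) (hl : 0 < l)
    {i j : Fin 3} (hk : ∀ x : E3, |pd i (pd j (k2 ε l)) x| ≤ C * ((max ‖x‖ l) ^ 3)⁻¹)
    {g : E3 → ℝ} (hg : Integrable g) (y : E3) :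
    |Pc_G (pd i (pd j (k2 ε l))) g y| ≤ C * FA l g y := by
  unfold Pc_G FA
  rw [← integral_const_mul, ← Real.norm_eq_abs]
  refine norm_integral_le_of_norm_le ?_ ?_
  · refine Integrable.const_mul ?_ C
    have hpos : ∀ x : E3, 0 < (max ‖x - y‖ l) ^ 3 := fun x =>
      pow_pos (lt_of_lt_of_le hl (le_max_right _ _)) 3
    refine Integrable.mono' (hg.norm.const_mul (l ^ 3)⁻¹) ?_ ?_
    · refine AEStronglyMeasurable.mul ?_ hg.aestronglyMeasurable.norm
      refine Continuous.aestronglyMeasurable ?_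
      refine Continuous.inv₀ ?_ fun x => (hpos x).ne'
      exact (((continuous_id.sub continuous_const).norm.max continuous_const).pow 3)
    · refine Filter.Eventually.of_forall fun x => ?_
      rw [norm_mul, Real.norm_eq_abs, Real.norm_eq_abs, abs_abs, Real.norm_eq_abs,
        abs_of_nonneg (inv_nonneg.2 (hpos x).le)]
      refine mul_le_mul_of_nonneg_right ?_ (abs_nonneg _)
      exact inv_anti₀ (pow_pos hl 3) (pow_le_pow_left₀ hl.le (le_max_right _ _) 3)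
  · refine Filter.Eventually.of_forall fun x => ?_
    rw [norm_mul, Real.norm_eq_abs, Real.norm_eq_abs, ← mul_assoc]
    exact mul_le_mul_of_nonneg_right (hk (x - y)) (abs_nonneg _)

theorem cv1 : ∃ C : ℝ, 0 < C ∧ ∀ ε l : ℝ, 0 < ε → 0 < l → ∀ (g : E3 → ℝ) (B : ℝ), Continuous g → Integrable g → (∀ x, |g x| ≤ B) →
    ContDiff ℝ 2 (fun y => ∫ x, k1 ε l (x - y) * g x) ∧
    (∀ i y, |pd i (fun y => ∫ x, k1 ε l (x - y) * g x) y| ≤ C * NE l g y) ∧
    (∃ B' : ℝ, ∀ y, |∫ x, k1 ε l (x - y) * g x| ≤ B' ∧ (∀ i, |pd i (fun y => ∫ x, k1 ε l (x - y) * g x) y| ≤ B') ∧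
      ∀ i j, |pd j (pd i (fun y => ∫ x, k1 ε l (x - y) * g x)) y| ≤ B') := by
  obtain ⟨C, hC, hk⟩ := k_b
  refine ⟨C, hC, ?_⟩
  intro ε l hε hl g B hg hgi hB
  obtain ⟨hκ, M, hM, hM', hM2⟩ := Pc_k1 hε hl
  show ContDiff ℝ 2 (Pc_G (k1 ε l) g) ∧ (∀ i y, |pd i (Pc_G (k1 ε l) g) y| ≤ C * NE l g y) ∧
    (∃ B' : ℝ, ∀ y, |Pc_G (k1 ε l) g y| ≤ B' ∧ (∀ i, |pd i (Pc_G (k1 ε l) g) y| ≤ B') ∧
      ∀ i j, |pd j (pd i (Pc_G (k1 ε l) g)) y| ≤ B')
  obtain ⟨h1, h2, h3⟩ := Pc_C2 hκ hM hM' hM2 hgi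
  refine ⟨h1, fun i y => ?_, M * ∫ x, ‖g x‖, fun y => ⟨Pc_bd hM hgi y, fun i => ?_,
    fun i j => ?_⟩⟩
  · rw [h2, abs_neg]
    exact Pc_near (fun x i => ⟨(hk ε l hε hl x i i).1, (hk ε l hε hl x i i).2.1⟩) hl hg hB i y
  · rw [h2, abs_neg]
    exact Pc_bd (hM' i) hgi y
  · rw [h3]
    exact Pc_bd (hM2 j i) hgi y

theorem cv1d {ε l : ℝ} (hε : 0 < ε) (hl : 0 < l) {g : E3 → ℝ} (hg : TF g) (i : Fin 3) :
    pd i (fun y => ∫ x, k1 ε l (x - y) * g x) = fun y => ∫ x, k1 ε l (x - y) * pd i g x := by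
  obtain ⟨hκ, M, hM, hM', hM2⟩ := Pc_k1 hε hl
  obtain ⟨h1, h2, h3⟩ := Pc_C2 hκ hM hM' hM2 hg.int
  funext y
  show pd i (Pc_G (k1 ε l) g) y = _
  rw [h2]
  have hκ1 : ContDiff ℝ 1 (k1 ε l) := hκ.of_le (by norm_cast)
  have e1 : ∀ x, fderiv ℝ (fun x => k1 ε l (x - y)) x (e i) = pd i (k1 ε l) (x - y) := by
    intro x
    rw [fderiv_comp_sub]
    rfl
  have hdk : Differentiable ℝ (fun x => k1 ε l (x - y)) :=
    (hκ1.differentiable one_ne_zero).comp (differentiable_id.sub_const y)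
  have h4 := integral_mul_fderiv_eq_neg_fderiv_mul_of_integrable (μ := (volume : Measure E3))
    (f := fun x => k1 ε l (x - y)) (g := g) (v := e i)
    (by
      simp only [e1]
      exact Pc_int (pd_smooth hκ i).continuous (hM' i) hg.int y)
    (Pc_int hκ.continuous hM (hg.intd i) y)
    (Pc_int hκ.continuous hM hg.int y)
    (fun x _ => hdk x) (fun x _ => hg.c1.differentiable one_ne_zero x)
  simp only [e1] at h4
  exact h4.symm

theorem cv2 : ∃ C : ℝ, 0 < C ∧ ∀ ε l : ℝ, 0 < ε → 0 < l → ∀ (g : E3 → ℝ) (B : ℝ), Continuous g → Integrable g → (∀ x, |g x| ≤ B) →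
    ContDiff ℝ 2 (fun y => ∫ x, k2 ε l (x - y) * g x) ∧
    (∀ i j y, |pd j (pd i (fun y => ∫ x, k2 ε l (x - y) * g x)) y| ≤ C * FA l g y) ∧
    (∃ B' : ℝ, ∀ y, |∫ x, k2 ε l (x - y) * g x| ≤ B' ∧ (∀ i, |pd i (fun y => ∫ x, k2 ε l (x - y) * g x) y| ≤ B') ∧
      ∀ i j, |pd j (pd i (fun y => ∫ x, k2 ε l (x - y) * g x)) y| ≤ B') := by
  obtain ⟨C, hC, hk⟩ := k_b
  refine ⟨C, hC, ?_⟩
  intro ε l hε hl g B hg hgi hB
  have hκ := (k_sm hε hl).2.2
  have hl2 : 0 ≤ C / l ^ 2 := by positivity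
  have hl3 : 0 ≤ C * (l ^ 3)⁻¹ := by positivity
  have hl1 : 0 ≤ 2 / l := by positivity
  obtain ⟨M, hMd⟩ : ∃ M, M = 2 / l + C / l ^ 2 + C * (l ^ 3)⁻¹ := ⟨_, rfl⟩
  have hM : ∀ x, |k2 ε l x| ≤ M := fun x => by
    have h := (k_b0 hε hl x).2.2.1
    linarith
  have hM' : ∀ i x, |pd i (k2 ε l) x| ≤ M := fun i x => by
    have h := (hk ε l hε hl x i i).2.2.1
    linarith
  have hM2 : ∀ i j x, |pd i (pd j (k2 ε l)) x| ≤ M := fun i j x => by
    have h := (hk ε l hε hl x i j).2.2.2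
    have h2 : ((max ‖x‖ l) ^ 3)⁻¹ ≤ (l ^ 3)⁻¹ :=
      inv_anti₀ (pow_pos hl 3) (pow_le_pow_left₀ hl.le (le_max_right _ _) 3)
    have h3 := mul_le_mul_of_nonneg_left h2 hC.le
    linarith
  show ContDiff ℝ 2 (Pc_G (k2 ε l) g) ∧
    (∀ i j y, |pd j (pd i (Pc_G (k2 ε l) g)) y| ≤ C * FA l g y) ∧
    (∃ B' : ℝ, ∀ y, |Pc_G (k2 ε l) g y| ≤ B' ∧ (∀ i, |pd i (Pc_G (k2 ε l) g) y| ≤ B') ∧
      ∀ i j, |pd j (pd i (Pc_G (k2 ε l) g)) y| ≤ B')
  obtain ⟨h1, h2, h3⟩ := Pc_C2 hκ hM hM' hM2 hgi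
  refine ⟨h1, fun i j y => ?_, M * ∫ x, ‖g x‖, fun y => ⟨Pc_bd hM hgi y, fun i => ?_,
    fun i j => ?_⟩⟩
  · rw [h3]
    exact Pc_farb hC hl (fun x => (hk ε l hε hl x j i).2.2.2) hgi y
  · rw [h2, abs_neg]
    exact Pc_bd (hM' i) hgi y
  · rw [h3]
    exact Pc_bd (hM2 j i) hgi y

end Pool.Agent.H16.TU
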