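/-
ROW Ps (MP_09540e_TU). The source against test functions. PROOF. Notation `v_i = fun y => v y i` smooth (VRep_coord / Vort_coord), in DB 4: `v_i v_j`, `v_j pd i v_k`, `pd i v_j pd k v_l` and one more derivative are products of two square integrable functions, hence integrable (BL_mul), and G, its derivatives up to order 2 are bounded: all products integrable; IBP: ibpI (Ba.lean).
div: `∑ i pd i v_i = 0` (pd_comp). src_int: sum of products of BL functions. s1: `src2 = ∑_i pd i (∑_j v_j pd j v_i)`, because `∑_{ij} (pd i v_j pd j v_i + v_j pd i (pd j v_i)) = src2 + ∑_j v_j pd j (∑_i pd i v_i) = src2` (Vort_comm). So `∫ src2 G = - ∑_i ∫ adv (v x) v_i x * pd i G x`. s2: `adv (v x) v_i = ∑_j pd j (v_j v_i)` (div 0), integrate by parts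
again: `∫ src2 G = ∑_{ij} ∫ v_i v_j pd j (pd i G)`. s3: split the sum over i, j: `src2 = pd 2 (2 (v₀ pd 0 v₂ + v₁ pd 1 v₂)) + ∑_{a,b ∈ {0,1}} pd a (pd b (v_a v_b))`: indeed `∑_{ij} pd i pd j (v_i v_j) = pd 2 [pd 2 (v₂²) + 2 ∑_a pd a (v_a v₂)] + ∑_{ab} pd a pd b (v_a v_b)` and the bracket is `2 v₂ pd 2 v₂ + 2 v₂ (pd 0 v₀ + pd 1 v₁) + 2 ∑_a v_a pd a v₂ = 2 ∑_a v_a pd a v₂`
by div v = 0. (`src2 = ∑_{ij} pd i (pd j (v_i v_j))` from s1 and s2.) Integrate by parts: once in the first, twice in the others.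
-/
import Pool.Agent.H16.TU.Ba

set_option autoImplicit false

open Set Filter Topology MeasureTheory
open scoped ContDiff

namespace Pool.Agent.H16.TU

open Pool.Agent.H16 Pool.Agent.H87.NS Pool.Agent.H72.CC

private lemma Ps_db {v : E3 → E3} (h : Vf v) : ∃ K : ℝ, 0 ≤ K ∧ ∀ j : Fin 3, DB 4 K (fun y => v y j) := by
  obtain ⟨K, hK⟩ := h.db
  exact ⟨K, BL_nonneg (DB_BL (hK 0)), hK⟩

private lemma Ps_c1 {v : E3 → E3} (h : Vf v) (j : Fin 3) : ContDiff ℝ 1 (fun y => v y j) :=
  (Vort_coord h.sm j).of_le (by simp)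

private lemma Ps_d1 {v : E3 → E3} (h : Vf v) (i j : Fin 3) : ContDiff ℝ 1 (pd i (fun y => v y j)) :=
  (pd_smooth (Vort_coord h.sm j) i).of_le (by simp)

private lemma Ps_d2 {v : E3 → E3} (h : Vf v) (k i j : Fin 3) :
    Continuous (pd k (pd i (fun y => v y j))) :=
  (pd_smooth (pd_smooth (Vort_coord h.sm j) i) k).continuous

private lemma Ps_bdd {f G : E3 → ℝ} {B : ℝ} (hf : Integrable f) (hG : Continuous G)
    (hB : ∀ x, |G x| ≤ B) : Integrable (fun x => f x * G x) := by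
  have h1 : Integrable (fun x => G x * f x) :=
    hf.bdd_mul hG.aestronglyMeasurable (Filter.Eventually.of_forall fun x => by
      rw [Real.norm_eq_abs]
      exact hB x)
  refine h1.congr (Filter.Eventually.of_forall fun x => ?_)
  exact mul_comm _ _

private lemma Ps_ibp {f g G : E3 → ℝ} {K B : ℝ} (i : Fin 3) (hf : ContDiff ℝ 1 f) (hg : ContDiff ℝ 1 g)
    (h : DB 1 K f) (h' : DB 1 K g) (hG : ContDiff ℝ 1 G) (hB : ∀ x, |G x| ≤ B ∧ |pd i G x| ≤ B) :
    ∫ x, (pd i f x * g x + f x * pd i g x) * G x = - ∫ x, f x * g x * pd i G x := by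
  have hi1 : Integrable (fun x => pd i f x * g x) :=
    BL_mul (pd_cont hf i) hg.continuous (h.2 i) (DB_BL h')
  have hi2 : Integrable (fun x => f x * pd i g x) :=
    BL_mul hf.continuous (pd_cont hg i) (DB_BL h) (h'.2 i)
  have hi3 : Integrable (fun x => f x * g x) :=
    BL_mul hf.continuous hg.continuous (DB_BL h) (DB_BL h')
  have hp : ∀ x, pd i (fun y => f y * g y) x = pd i f x * g x + f x * pd i g x := fun x =>
    Psi_mul (hf.differentiable one_ne_zero x) (hg.differentiable one_ne_zero x) i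
  have e := ibpI (f := G) (g := fun y => f y * g y) (hG.differentiable one_ne_zero)
    ((hf.mul hg).differentiable one_ne_zero) i
    ((Ps_bdd hi3 (pd_cont hG i) (fun x => (hB x).2)).congr (Filter.Eventually.of_forall fun x =>
      mul_comm _ _))
    ((Ps_bdd (hi1.add hi2) hG.continuous (fun x => (hB x).1)).congr
      (Filter.Eventually.of_forall fun x => by
        show (pd i f x * g x + f x * pd i g x) * G x = G x * pd i (fun y => f y * g y) x
        rw [hp, mul_comm]))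
    ((Ps_bdd hi3 hG.continuous (fun x => (hB x).1)).congr (Filter.Eventually.of_forall fun x =>
      mul_comm _ _))
  calc ∫ x, (pd i f x * g x + f x * pd i g x) * G x
      = ∫ x, G x * pd i (fun y => f y * g y) x :=
        integral_congr_ae (Filter.Eventually.of_forall fun x => by
          show (pd i f x * g x + f x * pd i g x) * G x = G x * pd i (fun y => f y * g y) x
          rw [hp, mul_comm])
    _ = - ∫ x, pd i G x * (f x * g x) := e
    _ = - ∫ x, f x * g x * pd i G x := by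
        congr 1
        exact integral_congr_ae (Filter.Eventually.of_forall fun x => mul_comm _ _)

private lemma Ps_div {v : E3 → E3} (h : Vf v) (x : E3) : ∑ i : Fin 3, pd i (fun y => v y i) x = 0 := by
  rw [← h.div x]
  exact Finset.sum_congr rfl fun i _ => pd_comp h.sm i i x

private lemma Ps_div2 {v : E3 → E3} (h : Vf v) (j : Fin 3) (x : E3) :
    ∑ i : Fin 3, pd i (pd j (fun y => v y i)) x = 0 := by
  have h1 : ∀ i : Fin 3, pd i (pd j (fun y => v y i)) x = pd j (pd i (fun y => v y i)) x := fun i => by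
    rw [Vort_comm (Vort_coord h.sm i) i j]
  rw [Finset.sum_congr rfl fun i _ => h1 i]
  have h2 : pd j (fun y => ∑ i : Fin 3, pd i (fun y => v y i) y) x =
      ∑ i : Fin 3, pd j (pd i (fun y => v y i)) x := by
    show fderiv ℝ (fun y => ∑ i : Fin 3, pd i (fun y => v y i) y) x (e j) = _
    rw [fderiv_fun_sum (fun i _ => (Ps_d1 h i i).differentiable one_ne_zero x),
      ContinuousLinearMap.sum_apply]
    rfl
  rw [← h2]
  have h3 : (fun y => ∑ i : Fin 3, pd i (fun y => v y i) y) = fun _ => (0 : ℝ) :=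
    funext fun y => Ps_div h y
  rw [h3]
  unfold pd
  simp

private lemma Ps_sum {F : Fin 3 → E3 → ℝ} (h : ∀ j, Integrable (F j)) :
    ∫ x, ∑ j : Fin 3, F j x = ∑ j : Fin 3, ∫ x, F j x :=
  integral_finsetSum _ (fun j _ => h j)

theorem src_int {v : E3 → E3} (h : Vf v) : Integrable (src2 v) ∧ Continuous (src2 v) ∧ ∃ B : ℝ, ∀ x, |src2 v x| ≤ B := by
  obtain ⟨K, hK0, hK⟩ := Ps_db h
  have hb : ∀ i j : Fin 3, BL K (pd i (fun y => v y j)) := fun i j => DB_BL (DB_pd (hK j) i)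
  refine ⟨?_, ?_, 9 * (K * K), fun x => ?_⟩
  · unfold src2
    exact integrable_finsetSum _ fun i _ => integrable_finsetSum _ fun j _ =>
      BL_mul (Ps_d1 h i j).continuous (Ps_d1 h j i).continuous (hb i j) (hb j i)
  · unfold src2
    exact continuous_finsetSum _ fun i _ => continuous_finsetSum _ fun j _ =>
      (Ps_d1 h i j).continuous.mul (Ps_d1 h j i).continuous
  · unfold src2
    calc |∑ i : Fin 3, ∑ j : Fin 3, pd i (fun y => v y j) x * pd j (fun y => v y i) x|
        ≤ ∑ i : Fin 3, ∑ j : Fin 3, |pd i (fun y => v y j) x * pd j (fun y => v y i) x| :=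
          (Finset.abs_sum_le_sum_abs _ _).trans (Finset.sum_le_sum fun i _ =>
            Finset.abs_sum_le_sum_abs _ _)
      _ ≤ ∑ _i : Fin 3, ∑ _j : Fin 3, K * K :=
          Finset.sum_le_sum fun i _ => Finset.sum_le_sum fun j _ => by
            rw [abs_mul]
            exact mul_le_mul ((hb i j).1 x) ((hb j i).1 x) (abs_nonneg _) hK0
      _ = 9 * (K * K) := by
          simp only [Finset.sum_const, Finset.card_univ, Fintype.card_fin, nsmul_eq_mul]
          norm_num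
          ring

theorem s1 {v : E3 → E3} (h : Vf v) {G : E3 → ℝ} {B : ℝ} (hG : ContDiff ℝ 2 G) (hB : ∀ y, |G y| ≤ B ∧ ∀ i, |pd i G y| ≤ B) :
    ∫ x, src2 v x * G x = - ∑ i : Fin 3, ∫ x, adv (v x) (fun y => v y i) x * pd i G x := by
  obtain ⟨K, hK0, hK⟩ := Ps_db h
  have hG1 : ContDiff ℝ 1 G := hG.of_le (by norm_num)
  have hd0 : ∀ j : Fin 3, DB 1 K (fun y => v y j) := fun j => DB_mono (hK j) (by norm_num) le_rfl
  have hd1 : ∀ i j : Fin 3, DB 1 K (pd i (fun y => v y j)) := fun i j =>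
    DB_mono (DB_pd (hK j) i) (by norm_num) le_rfl
  have hij : ∀ i j : Fin 3, ∫ x, (pd i (fun y => v y j) x * pd j (fun y => v y i) x +
      v x j * pd i (pd j (fun y => v y i)) x) * G x =
        - ∫ x, v x j * pd j (fun y => v y i) x * pd i G x := fun i j =>
    Ps_ibp i (f := fun y => v y j) (g := pd j (fun y => v y i)) (Ps_c1 h j) (Ps_d1 h j i)
      (hd0 j) (hd1 j i) hG1 (fun x => ⟨(hB x).1, (hB x).2 i⟩)
  have hI : ∀ i j : Fin 3, Integrable (fun x => (pd i (fun y => v y j) x * pd j (fun y => v y i) x +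
      v x j * pd i (pd j (fun y => v y i)) x) * G x) := fun i j => by
    have a1 : Integrable (fun x => pd i (fun y => v y j) x * pd j (fun y => v y i) x) :=
      BL_mul (Ps_d1 h i j).continuous (Ps_d1 h j i).continuous (DB_BL (hd1 i j)) (DB_BL (hd1 j i))
    have a2 : Integrable (fun x => v x j * pd i (pd j (fun y => v y i)) x) :=
      BL_mul (Ps_c1 h j).continuous (Ps_d2 h i j i) (DB_BL (hd0 j)) ((hd1 j i).2 i)
    exact Ps_bdd (a1.add a2) hG.continuous (fun x => (hB x).1)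
  have hJ : ∀ i j : Fin 3, Integrable (fun x => v x j * pd j (fun y => v y i) x * pd i G x) :=
    fun i j => Ps_bdd (BL_mul (Ps_c1 h j).continuous (Ps_d1 h j i).continuous (DB_BL (hd0 j))
      (DB_BL (hd1 j i))) (pd_cont hG1 i) (fun x => (hB x).2 i)
  have hpt : ∀ x, src2 v x * G x = ∑ i : Fin 3, ∑ j : Fin 3,
      (pd i (fun y => v y j) x * pd j (fun y => v y i) x +
      v x j * pd i (pd j (fun y => v y i)) x) * G x := fun x => by
    have e1 : ∑ i : Fin 3, ∑ j : Fin 3, v x j * pd i (pd j (fun y => v y i)) x = 0 := by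
      rw [Finset.sum_comm]
      refine Finset.sum_eq_zero fun j _ => ?_
      rw [← Finset.mul_sum, Ps_div2 h j x, mul_zero]
    simp only [← Finset.sum_mul, Finset.sum_add_distrib]
    rw [e1, add_zero]
    rfl
  calc ∫ x, src2 v x * G x = ∫ x, ∑ i : Fin 3, ∑ j : Fin 3,
      (pd i (fun y => v y j) x * pd j (fun y => v y i) x +
      v x j * pd i (pd j (fun y => v y i)) x) * G x :=
        integral_congr_ae (Filter.Eventually.of_forall hpt)
    _ = ∑ i : Fin 3, ∑ j : Fin 3, ∫ x, (pd i (fun y => v y j) x * pd j (fun y => v y i) x +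
      v x j * pd i (pd j (fun y => v y i)) x) * G x := by
        rw [Ps_sum fun i => integrable_finsetSum _ fun j _ => hI i j]
        exact Finset.sum_congr rfl fun i _ => Ps_sum fun j => hI i j
    _ = - ∑ i : Fin 3, ∑ j : Fin 3, ∫ x, v x j * pd j (fun y => v y i) x * pd i G x := by
        rw [← Finset.sum_neg_distrib]
        refine Finset.sum_congr rfl fun i _ => ?_
        rw [← Finset.sum_neg_distrib]
        exact Finset.sum_congr rfl fun j _ => hij i j
    _ = _ := by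
        congr 1
        refine Finset.sum_congr rfl fun i _ => ?_
        rw [← Ps_sum fun j => hJ i j]
        refine integral_congr_ae (Filter.Eventually.of_forall fun x => ?_)
        show ∑ j : Fin 3, v x j * pd j (fun y => v y i) x * pd i G x =
          adv (v x) (fun y => v y i) x * pd i G x
        unfold adv
        rw [Finset.sum_mul]

/-- the second integration by parts -/
private lemma Ps_adv {v : E3 → E3} (h : Vf v) (i : Fin 3) {H : E3 → ℝ} {B : ℝ} (hH : ContDiff ℝ 1 H)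
    (hB : ∀ y, |H y| ≤ B ∧ ∀ j, |pd j H y| ≤ B) :
    ∑ j : Fin 3, ∫ x, v x i * v x j * pd j H x =
      - ∑ j : Fin 3, ∫ x, v x j * pd j (fun y => v y i) x * H x := by
  obtain ⟨K, hK0, hK⟩ := Ps_db h
  have hd0 : ∀ j : Fin 3, DB 1 K (fun y => v y j) := fun j => DB_mono (hK j) (by norm_num) le_rfl
  have hd1 : ∀ i j : Fin 3, DB 1 K (pd i (fun y => v y j)) := fun i j =>
    DB_mono (DB_pd (hK j) i) (by norm_num) le_rfl
  have hij : ∀ j : Fin 3, ∫ x, (pd j (fun y => v y i) x * v x j +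
      v x i * pd j (fun y => v y j) x) * H x = - ∫ x, v x i * v x j * pd j H x := fun j =>
    Ps_ibp j (f := fun y => v y i) (g := fun y => v y j) (Ps_c1 h i) (Ps_c1 h j)
      (hd0 i) (hd0 j) hH (fun x => ⟨(hB x).1, (hB x).2 j⟩)
  have a1 : ∀ j : Fin 3, Integrable (fun x => pd j (fun y => v y i) x * v x j) := fun j =>
    BL_mul (Ps_d1 h j i).continuous (Ps_c1 h j).continuous (DB_BL (hd1 j i)) (DB_BL (hd0 j))
  have a2 : ∀ j : Fin 3, Integrable (fun x => v x i * pd j (fun y => v y j) x) := fun j =>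
    BL_mul (Ps_c1 h i).continuous (Ps_d1 h j j).continuous (DB_BL (hd0 i)) (DB_BL (hd1 j j))
  have hI : ∀ j : Fin 3, Integrable (fun x => (pd j (fun y => v y i) x * v x j +
      v x i * pd j (fun y => v y j) x) * H x) := fun j =>
    Ps_bdd ((a1 j).add (a2 j)) hH.continuous (fun x => (hB x).1)
  have hJ : ∀ j : Fin 3, Integrable (fun x => v x j * pd j (fun y => v y i) x * H x) := fun j =>
    Ps_bdd (BL_mul (Ps_c1 h j).continuous (Ps_d1 h j i).continuous (DB_BL (hd0 j))
      (DB_BL (hd1 j i))) hH.continuous (fun x => (hB x).1)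
  have h1 : ∑ j : Fin 3, ∫ x, (pd j (fun y => v y i) x * v x j +
      v x i * pd j (fun y => v y j) x) * H x =
      ∑ j : Fin 3, ∫ x, v x j * pd j (fun y => v y i) x * H x := by
    rw [← Ps_sum hI, ← Ps_sum hJ]
    refine integral_congr_ae (Filter.Eventually.of_forall fun x => ?_)
    show ∑ j : Fin 3, (pd j (fun y => v y i) x * v x j +
      v x i * pd j (fun y => v y j) x) * H x = ∑ j : Fin 3, v x j * pd j (fun y => v y i) x * H x
    rw [← Finset.sum_mul, ← Finset.sum_mul, Finset.sum_add_distrib, ← Finset.mul_sum,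
      Ps_div h x, mul_zero, add_zero]
    congr 1
    exact Finset.sum_congr rfl fun j _ => mul_comm _ _
  rw [← h1, ← Finset.sum_neg_distrib]
  refine Finset.sum_congr rfl fun j _ => ?_
  rw [hij j, neg_neg]

private lemma Ps_bd2 {G : E3 → ℝ} {B : ℝ}
    (hB : ∀ y, |G y| ≤ B ∧ (∀ i, |pd i G y| ≤ B) ∧ ∀ i j, |pd j (pd i G) y| ≤ B) (i : Fin 3) :
    ∀ y, |pd i G y| ≤ B ∧ ∀ j, |pd j (pd i G) y| ≤ B :=
  fun y => ⟨(hB y).2.1 i, fun j => (hB y).2.2 i j⟩

private lemma Ps_pd1 {G : E3 → ℝ} (hG : ContDiff ℝ 2 G) (i : Fin 3) : ContDiff ℝ 1 (pd i G) := by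
  unfold pd
  exact (hG.fderiv_right (m := 1) (by norm_num)).clm_apply contDiff_const

theorem s2 {v : E3 → E3} (h : Vf v) {G : E3 → ℝ} {B : ℝ} (hG : ContDiff ℝ 2 G)
    (hB : ∀ y, |G y| ≤ B ∧ (∀ i, |pd i G y| ≤ B) ∧ ∀ i j, |pd j (pd i G) y| ≤ B) :
    ∫ x, src2 v x * G x = ∑ i : Fin 3, ∑ j : Fin 3, ∫ x, v x i * v x j * pd j (pd i G) x := by
  obtain ⟨K, hK0, hK⟩ := Ps_db h
  have hd0 : ∀ j : Fin 3, DB 1 K (fun y => v y j) := fun j => DB_mono (hK j) (by norm_num) le_rfl
  have hd1 : ∀ i j : Fin 3, DB 1 K (pd i (fun y => v y j)) := fun i j =>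
    DB_mono (DB_pd (hK j) i) (by norm_num) le_rfl
  rw [s1 h hG (fun y => ⟨(hB y).1, (hB y).2.1⟩), ← Finset.sum_neg_distrib]
  refine Finset.sum_congr rfl fun i _ => ?_
  rw [Ps_adv h i (Ps_pd1 hG i) (Ps_bd2 hB i)]
  congr 1
  rw [← Ps_sum fun j => Ps_bdd (BL_mul (Ps_c1 h j).continuous (Ps_d1 h j i).continuous
    (DB_BL (hd0 j)) (DB_BL (hd1 j i))) (Ps_pd1 hG i).continuous (fun x => (hB x).2.1 i)]
  refine integral_congr_ae (Filter.Eventually.of_forall fun x => ?_)
  show adv (v x) (fun y => v y i) x * pd i G x =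
    ∑ j : Fin 3, v x j * pd j (fun y => v y i) x * pd i G x
  unfold adv
  rw [Finset.sum_mul]

private lemma Ps_symm {G : E3 → ℝ} (hG : ContDiff ℝ 2 G) (i j : Fin 3) (x : E3) :
    pd i (pd j G) x = pd j (pd i G) x := by
  have h0 : ∀ i j : Fin 3, pd i (pd j G) x = fderiv ℝ (fderiv ℝ G) x (e i) (e j) := fun i j => by
    have hd : Differentiable ℝ (fderiv ℝ G) :=
      (hG.fderiv_right (m := 1) (by norm_num)).differentiable one_ne_zero
    have h3 : HasFDerivAt (pd j G) ((ContinuousLinearMap.apply ℝ ℝ (e j)).comp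
        (fderiv ℝ (fderiv ℝ G) x)) x :=
      (ContinuousLinearMap.apply ℝ ℝ (e j)).hasFDerivAt.comp x (hd x).hasFDerivAt
    rw [pd, h3.fderiv]
    rfl
  rw [h0, h0]
  refine (hG.contDiffAt.isSymmSndFDerivAt ?_) _ _
  rw [minSmoothness_of_isRCLikeNormedField]

theorem s3 {v : E3 → E3} (h : Vf v) {G : E3 → ℝ} {B : ℝ} (hG : ContDiff ℝ 2 G)
    (hB : ∀ y, |G y| ≤ B ∧ (∀ i, |pd i G y| ≤ B) ∧ ∀ i j, |pd j (pd i G) y| ≤ B) :
    ∫ x, src2 v x * G x = - 2 * (∫ x, (v x 0 * pd 0 (fun y => v y 2) x + v x 1 * pd 1 (fun y => v y 2) x) * pd 2 G x) +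
      ((∫ x, v x 0 * v x 0 * pd 0 (pd 0 G) x) + (∫ x, v x 0 * v x 1 * pd 1 (pd 0 G) x) +
        (∫ x, v x 1 * v x 0 * pd 0 (pd 1 G) x) + ∫ x, v x 1 * v x 1 * pd 1 (pd 1 G) x) := by
  obtain ⟨K, hK0, hK⟩ := Ps_db h
  have hd0 : ∀ j : Fin 3, DB 1 K (fun y => v y j) := fun j => DB_mono (hK j) (by norm_num) le_rfl
  have hd1 : ∀ i j : Fin 3, DB 1 K (pd i (fun y => v y j)) := fun i j =>
    DB_mono (DB_pd (hK j) i) (by norm_num) le_rfl
  have hJ : ∀ j : Fin 3, Integrable (fun x => v x j * pd j (fun y => v y 2) x * pd 2 G x) :=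
    fun j => Ps_bdd (BL_mul (Ps_c1 h j).continuous (Ps_d1 h j 2).continuous (DB_BL (hd0 j))
      (DB_BL (hd1 j 2))) (Ps_pd1 hG 2).continuous (fun x => (hB x).2.1 2)
  have ha := Ps_adv h 2 (Ps_pd1 hG 2) (Ps_bd2 hB 2)
  have hb : ∀ a : Fin 3, ∫ x, v x a * v x 2 * pd 2 (pd a G) x =
      ∫ x, v x 2 * v x a * pd a (pd 2 G) x := fun a =>
    integral_congr_ae (Filter.Eventually.of_forall fun x => by
      show v x a * v x 2 * pd 2 (pd a G) x = v x 2 * v x a * pd a (pd 2 G) x
      rw [Ps_symm hG 2 a x, mul_comm (v x a)])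
  have hc : ∫ x, v x 2 * v x 2 * pd 2 (pd 2 G) x =
      - 2 * ∫ x, v x 2 * pd 2 (fun y => v y 2) x * pd 2 G x := by
    have h1 := Ps_ibp 2 (f := fun y => v y 2) (g := fun y => v y 2) (Ps_c1 h 2) (Ps_c1 h 2)
      (hd0 2) (hd0 2) (Ps_pd1 hG 2) (fun x => ⟨(hB x).2.1 2, (hB x).2.2 2 2⟩)
    have h2 : ∫ x, (pd 2 (fun y => v y 2) x * v x 2 + v x 2 * pd 2 (fun y => v y 2) x) * pd 2 G x =
        2 * ∫ x, v x 2 * pd 2 (fun y => v y 2) x * pd 2 G x := by
      rw [← integral_const_mul]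
      refine integral_congr_ae (Filter.Eventually.of_forall fun x => ?_)
      show (pd 2 (fun y => v y 2) x * v x 2 + v x 2 * pd 2 (fun y => v y 2) x) * pd 2 G x =
        2 * (v x 2 * pd 2 (fun y => v y 2) x * pd 2 G x)
      ring
    linarith
  have hd : ∫ x, (v x 0 * pd 0 (fun y => v y 2) x + v x 1 * pd 1 (fun y => v y 2) x) * pd 2 G x =
      (∫ x, v x 0 * pd 0 (fun y => v y 2) x * pd 2 G x) +
        ∫ x, v x 1 * pd 1 (fun y => v y 2) x * pd 2 G x := by
    rw [← integral_add (hJ 0) (hJ 1)]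
    refine integral_congr_ae (Filter.Eventually.of_forall fun x => ?_)
    show (v x 0 * pd 0 (fun y => v y 2) x + v x 1 * pd 1 (fun y => v y 2) x) * pd 2 G x =
      v x 0 * pd 0 (fun y => v y 2) x * pd 2 G x + v x 1 * pd 1 (fun y => v y 2) x * pd 2 G x
    ring
  rw [s2 h hG hB, hd]
  simp only [Fin.sum_univ_three] at ha ⊢
  rw [hb 0, hb 1]
  linarith

end Pool.Agent.H16.TU
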