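/-
ROW Pe (MP_09540e_TU). Pressure inequalities for the regularised pressure. PROOF. q1: `qe ε v = (∫ nk ε (x - y) src2 v y dy)/c0`, nk and its first derivatives bounded (k_b0), src2 integrable: differentiate under the integral, C¹; bounded with bounded derivative; then ibpI for each k: `∫ pd k (qe) F_k = - ∫ qe pd k F_k` (F TF), sum: `- ∫ qe dv F`.
q2: Fubini (src2 integrable and bounded, dv F integrable, nk bounded): `∫ qe g = (1/c0) ∫ src2(y) (∫ nk (x-y) g x dx) dy` (k_even) and k_sum: `= (1/c0) (∫ src2 G1 + ∫ src2 G2)`, `G1 y = ∫ k1 (x-y) g x`, `G2 y = ∫ k2 (x-y) g x`. pAe: s1 with G1: `|adv (v x) v_i| ≤ ‖v‖ √(gv v)`, cv1: `|∫ src2 G1| ≤ 3 C ∫ ‖v‖ √gv NE l g`;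
s2 with G2: `∑_{ij} |v_i v_j| ≤ 9 ‖v‖²`, cv2: `≤ 9 C ∫ ‖v‖² FA l g`. (integrability: ‖v‖ √gv ≤ (‖v‖²+gv)/2 integrable, ‖v‖² integrable, NE l g and FA l g bounded and measurable (NE l g y = ∫ kernel(x) |g (y + x)|, continuous in y by dominated convergence); if a right-hand integrand were not known to be integrable use integral_mono_of_nonneg / norm_integral_le_of_norm_le.)
pCe: F = (0, 0, g): with γ = pd 2 g, `∫ pd 2 (qe) g = - ∫ qe γ`; G1 with g replaced by γ: s3; `|v₀ pd 0 v₂ + v₁ pd 1 v₂| ≤ hn v √gv`, `|pd 2 G1| ≤ C NE l γ`; `pd b (pd a G1) = pd a`-derivative of `∫ k1 (x-y) pd b γ x` (cv1d, Vort_comm or Schwarz for the C² function G1), so `|pd b (pd a G1)| ≤ C NE l (pd b γ)` for a, b ∈ {0,1}; `|v_a v_b| ≤ hn v ^2`.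
-/
import Pool.Agent.H16.TU.Pc
import Pool.Agent.H16.TU.Ps

set_option autoImplicit false

open Set Filter Topology MeasureTheory
open scoped ContDiff

namespace Pool.Agent.H16.TU

open Pool.Agent.H16 Pool.Agent.H87.NS Pool.Agent.H72.CC

theorem Pe_op {L : E3 →L[ℝ] ℝ} {A : ℝ} (hA : 0 ≤ A) (h : ∀ i, |L (e i)| ≤ A) : ‖L‖ ≤ 3 * A := by
  refine ContinuousLinearMap.opNorm_le_bound _ (by positivity) fun w => ?_
  have h1 : w = w 0 • e 0 + w 1 • e 1 + w 2 • e 2 := by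
    apply ext3 <;> simp [e]
  have h2 : L w = w 0 * L (e 0) + w 1 * L (e 1) + w 2 * L (e 2) := by
    conv_lhs => rw [h1]
    simp only [map_add, map_smul, smul_eq_mul]
  have h3 : ∀ i : Fin 3, |w i * L (e i)| ≤ ‖w‖ * A := by
    intro i
    rw [abs_mul]
    refine mul_le_mul ?_ (h i) (abs_nonneg _) (norm_nonneg _)
    rw [← Real.norm_eq_abs]
    exact PiLp.norm_apply_le w i
  rw [h2, Real.norm_eq_abs]
  refine (abs_add_three _ _ _).trans ?_
  have := h3 0
  have := h3 1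
  have := h3 2
  linarith

theorem Pe_pdc {f : E3 → ℝ} (hf : ContDiff ℝ 1 f) (i : Fin 3) : Continuous (pd i f) := by
  unfold pd
  exact (hf.continuous_fderiv one_ne_zero).clm_apply continuous_const

theorem Pe_kS {k S : E3 → ℝ} (hk : Continuous k) {A : ℝ} (h0 : ∀ x, |k x| ≤ A)
    (hS : Integrable S) (x : E3) : Integrable (fun y => k (x - y) * S y) := by
  refine hS.bdd_mul (c := A) ?_ (Eventually.of_forall fun y => ?_)
  · exact (hk.comp (continuous_const.sub continuous_id)).aestronglyMeasurable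
  · rw [Real.norm_eq_abs]
    exact h0 _

theorem Pe_bd {k S : E3 → ℝ} {A : ℝ} (h0 : ∀ x, |k x| ≤ A)
    (hS : Integrable S) (x : E3) : |∫ y, k (x - y) * S y| ≤ A * ∫ y, |S y| := by
  rw [← Real.norm_eq_abs, ← integral_const_mul]
  refine norm_integral_le_of_norm_le (hS.abs.const_mul A) (Eventually.of_forall fun y => ?_)
  rw [Real.norm_eq_abs, abs_mul]
  exact mul_le_mul_of_nonneg_right (h0 _) (abs_nonneg _)

theorem Pe_conv {k S : E3 → ℝ} (hk : ContDiff ℝ 1 k) {A : ℝ} (h0 : ∀ x, |k x| ≤ A)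
    (h1 : ∀ i x, |pd i k x| ≤ A) (hS : Integrable S) :
    ContDiff ℝ 1 (fun x => ∫ y, k (x - y) * S y) ∧
    ∀ i x, pd i (fun x => ∫ y, k (x - y) * S y) x = ∫ y, pd i k (x - y) * S y := by
  have hA : 0 ≤ A := (abs_nonneg _).trans (h0 0)
  have hfc : Continuous (fderiv ℝ k) := hk.continuous_fderiv one_ne_zero
  have hn : ∀ x, ‖fderiv ℝ k x‖ ≤ 3 * A := fun x => Pe_op hA (fun i => h1 i x)
  have hint : Integrable (fun y => 3 * A * |S y|) := hS.abs.const_mul _
  have hmeas : ∀ x : E3, AEStronglyMeasurable (fun y => S y • fderiv ℝ k (x - y)) volume := fun x =>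
    hS.aestronglyMeasurable.smul
      ((hfc.comp (continuous_const.sub continuous_id)).aestronglyMeasurable)
  have hbd : ∀ x y : E3, ‖S y • fderiv ℝ k (x - y)‖ ≤ 3 * A * |S y| := by
    intro x y
    rw [norm_smul, Real.norm_eq_abs, mul_comm]
    exact mul_le_mul_of_nonneg_right (hn _) (abs_nonneg _)
  have hd : ∀ x : E3, HasFDerivAt (fun x => ∫ y, k (x - y) * S y)
      (∫ y, S y • fderiv ℝ k (x - y)) x := by
    intro x
    refine hasFDerivAt_integral_of_dominated_of_fderiv_le (s := univ)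
      (F' := fun x y => S y • fderiv ℝ k (x - y)) (bound := fun y => 3 * A * |S y|) univ_mem
      (Eventually.of_forall fun x => (Pe_kS hk.continuous h0 hS x).aestronglyMeasurable)
      (Pe_kS hk.continuous h0 hS x) (hmeas x) (Eventually.of_forall fun y x _ => hbd x y) hint
      (Eventually.of_forall fun y x _ => ?_)
    have h2 : HasFDerivAt (fun x => k (x - y)) (fderiv ℝ k (x - y)) x := by
      have h3 : HasFDerivAt (fun x : E3 => x - y) (ContinuousLinearMap.id ℝ E3) x :=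
        (hasFDerivAt_id x).sub_const y
      have h4 := ((hk.differentiable one_ne_zero (x - y)).hasFDerivAt).comp x h3
      rwa [ContinuousLinearMap.comp_id] at h4
    exact h2.mul_const (S y)
  have hfd : fderiv ℝ (fun x => ∫ y, k (x - y) * S y) = fun x => ∫ y, S y • fderiv ℝ k (x - y) :=
    funext fun x => (hd x).fderiv
  refine ⟨contDiff_one_iff_fderiv.2 ⟨fun x => (hd x).differentiableAt, ?_⟩, fun i x => ?_⟩
  · rw [hfd]
    refine continuous_of_dominated hmeas (fun x => Eventually.of_forall (hbd x)) hint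
      (Eventually.of_forall fun y => ?_)
    exact Continuous.smul (continuous_const : Continuous fun _ : E3 => S y)
      (hfc.comp (continuous_id.sub continuous_const))
  · have h5 : Integrable (fun y => S y • fderiv ℝ k (x - y)) :=
      Integrable.mono' hint (hmeas x) (Eventually.of_forall (hbd x))
    show fderiv ℝ (fun x => ∫ y, k (x - y) * S y) x (e i) = _
    rw [hfd]
    show (∫ y, S y • fderiv ℝ k (x - y)) (e i) = _
    rw [ContinuousLinearMap.integral_apply h5]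
    refine integral_congr_ae (Eventually.of_forall fun y => ?_)
    show S y * fderiv ℝ k (x - y) (e i) = fderiv ℝ k (x - y) (e i) * S y
    ring

theorem Pe_nkb {ε : ℝ} (hε : 0 < ε) : ∃ A : ℝ, (∀ x, |nk ε x| ≤ A) ∧ ∀ i x, |pd i (nk ε) x| ≤ A := by
  refine ⟨1 / ε + 1 / ε ^ 2, fun x => ?_, fun i x => ?_⟩
  · obtain ⟨h1, h2, _⟩ := k_b0 (l := 1) hε one_pos x
    rw [abs_of_nonneg h1]
    have : 0 < 1 / ε ^ 2 := by positivity
    linarith
  · obtain ⟨_, _, _, h1, h2, h3⟩ := k_b0 (l := 1) hε one_pos x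
    have : 0 < 1 / ε := by positivity
    fin_cases i
    · exact h1.trans (by linarith)
    · exact h2.trans (by linarith)
    · exact h3.trans (by linarith)

theorem q1 {ε : ℝ} (hε : 0 < ε) {v : E3 → E3} (h : Vf v) : ContDiff ℝ 1 (qe ε v) ∧ (∃ B : ℝ, ∀ x, |qe ε v x| ≤ B ∧ ∀ i, |pd i (qe ε v) x| ≤ B) ∧
    ∀ i x, pd i (qe ε v) x = (∫ y, pd i (nk ε) (x - y) * src2 v y) / c0 := by
  obtain ⟨A, hA0, hA1⟩ := Pe_nkb hε
  have hk : ContDiff ℝ 1 (nk ε) := (k_sm hε one_pos).1.of_le (by exact_mod_cast le_top)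
  obtain ⟨hS, _, _⟩ := src_int h
  obtain ⟨hc, hp⟩ := Pe_conv hk hA0 hA1 hS
  have hq : qe ε v = fun x => (∫ y, nk ε (x - y) * src2 v y) / c0 := rfl
  have hpd : ∀ i x, pd i (qe ε v) x = (∫ y, pd i (nk ε) (x - y) * src2 v y) / c0 := by
    intro i x
    rw [← hp i x, hq]
    unfold pd
    have h1 : (fun x => (∫ y, nk ε (x - y) * src2 v y) / c0) =
        fun x => (∫ y, nk ε (x - y) * src2 v y) * c0⁻¹ := by
      funext x
      rw [div_eq_mul_inv]
    rw [h1, fderiv_mul_const (hc.differentiable one_ne_zero x)]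
    show c0⁻¹ * _ = _
    rw [div_eq_mul_inv, mul_comm]
    rfl
  have hc0 := c0_pos
  refine ⟨?_, ⟨A * (∫ y, |src2 v y|) / c0, fun x => ⟨?_, fun i => ?_⟩⟩, hpd⟩
  · rw [hq]
    exact hc.div_const _
  · rw [hq]
    show |(∫ y, nk ε (x - y) * src2 v y) / c0| ≤ _
    rw [abs_div, abs_of_pos hc0]
    exact div_le_div_of_nonneg_right (Pe_bd hA0 hS x) hc0.le
  · rw [hpd, abs_div, abs_of_pos hc0]
    exact div_le_div_of_nonneg_right (Pe_bd (hA1 i) hS x) hc0.le

theorem Pe_bm {f g : E3 → ℝ} (hf : Continuous f) {B : ℝ} (hb : ∀ x, |f x| ≤ B)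
    (hg : Integrable g) : Integrable (fun x => f x * g x) := by
  refine hg.bdd_mul (c := B) hf.aestronglyMeasurable (Eventually.of_forall fun y => ?_)
  rw [Real.norm_eq_abs]
  exact hb _

theorem Pe_fub {k S g : E3 → ℝ} (hk : Continuous k) {A : ℝ} (h0 : ∀ x, |k x| ≤ A)
    (hS : Integrable S) (hg : Integrable g) :
    ∫ x, (∫ y, k (x - y) * S y) * g x = ∫ y, S y * ∫ x, k (x - y) * g x := by
  have h1 : Integrable (fun z : E3 × E3 => k (z.1 - z.2) * (g z.1 * S z.2))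
      (volume.prod volume) := by
    refine (hg.mul_prod hS).bdd_mul (c := A) ?_ (Eventually.of_forall fun y => ?_)
    · exact (hk.comp (continuous_fst.sub continuous_snd)).aestronglyMeasurable
    · rw [Real.norm_eq_abs]
      exact h0 _
  have h2 := integral_integral_swap (μ := volume) (ν := volume)
    (f := fun x y : E3 => k (x - y) * (g x * S y)) h1
  have h3 : ∫ x, (∫ y, k (x - y) * S y) * g x = ∫ x, ∫ y, k (x - y) * (g x * S y) := by
    refine integral_congr_ae (Eventually.of_forall fun x => ?_)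
    show (∫ y, k (x - y) * S y) * g x = ∫ y, k (x - y) * (g x * S y)
    rw [← integral_mul_const]
    refine integral_congr_ae (Eventually.of_forall fun y => ?_)
    show k (x - y) * S y * g x = k (x - y) * (g x * S y)
    ring
  rw [h3, h2]
  refine integral_congr_ae (Eventually.of_forall fun y => ?_)
  show ∫ x, k (x - y) * (g x * S y) = S y * ∫ x, k (x - y) * g x
  rw [← integral_const_mul]
  refine integral_congr_ae (Eventually.of_forall fun x => ?_)
  show k (x - y) * (g x * S y) = S y * (k (x - y) * g x)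
  ring

theorem Pe_dv {F : Fin 3 → E3 → ℝ} (hF : ∀ k, TF (F k)) :
    Continuous (dv F) ∧ Integrable (dv F) ∧ ∃ B : ℝ, ∀ x, |dv F x| ≤ B := by
  refine ⟨?_, ?_, ?_⟩
  · unfold dv
    exact continuous_finsetSum _ fun k _ => Pe_pdc (hF k).c1 k
  · unfold dv
    exact integrable_finsetSum _ fun k _ => (hF k).intd k
  · choose B hB using fun k => (hF k).bd
    refine ⟨∑ k, B k, fun x => ?_⟩
    unfold dv
    exact (Finset.abs_sum_le_sum_abs _ _).trans (Finset.sum_le_sum fun k _ => (hB k x).2 k)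

theorem Pe_k {ε l : ℝ} (hε : 0 < ε) (hl : 0 < l) :
    (Continuous (nk ε) ∧ ∀ x, |nk ε x| ≤ 1 / ε + 2 / l) ∧
    (Continuous (k1 ε l) ∧ ∀ x, |k1 ε l x| ≤ 1 / ε + 2 / l) ∧
    (Continuous (k2 ε l) ∧ ∀ x, |k2 ε l x| ≤ 1 / ε + 2 / l) := by
  obtain ⟨h1, h2, h3⟩ := k_sm hε hl
  have e1 : 0 < 1 / ε := by positivity
  have e2 : 0 < 2 / l := by positivity
  refine ⟨⟨h1.continuous, fun x => ?_⟩, ⟨h2.continuous, fun x => ?_⟩, ⟨h3.continuous, fun x => ?_⟩⟩
  · obtain ⟨a1, a2, a3, _⟩ := k_b0 hε hl x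
    rw [abs_of_nonneg a1]
    linarith
  · obtain ⟨a1, a2, a3, _⟩ := k_b0 hε hl x
    have h4 : k1 ε l x = nk ε x - k2 ε l x := by rw [k_sum ε l x]; ring
    rw [h4]
    refine (abs_sub _ _).trans ?_
    rw [abs_of_nonneg a1]
    linarith
  · obtain ⟨a1, a2, a3, _⟩ := k_b0 hε hl x
    linarith

theorem q2 {ε l : ℝ} (hε : 0 < ε) (hl : 0 < l) {v : E3 → E3} (h : Vf v) {F : Fin 3 → E3 → ℝ} (hF : ∀ k, TF (F k)) :
    c0 * ∫ x, ∑ k : Fin 3, pd k (qe ε v) x * F k x =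
      - ((∫ y, src2 v y * ∫ x, k1 ε l (x - y) * dv F x) + ∫ y, src2 v y * ∫ x, k2 ε l (x - y) * dv F x) := by
  have hc0 := c0_pos
  obtain ⟨hq, ⟨B, hB⟩, _⟩ := q1 hε h
  obtain ⟨hS, _, _⟩ := src_int h
  obtain ⟨gc, gi, Bg, gb⟩ := Pe_dv hF
  obtain ⟨⟨n1, n2⟩, ⟨a1, a2⟩, ⟨b1, b2⟩⟩ := Pe_k hε hl
  have hI : ∀ k, Integrable (fun x => pd k (qe ε v) x * F k x) := fun k =>
    Pe_bm (Pe_pdc hq k) (fun x => (hB x).2 k) (hF k).int
  have hI2 : ∀ k, Integrable (fun x => qe ε v x * pd k (F k) x) := fun k =>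
    Pe_bm hq.continuous (fun x => (hB x).1) ((hF k).intd k)
  have hI3 : ∀ k, Integrable (fun x => qe ε v x * F k x) := fun k =>
    Pe_bm hq.continuous (fun x => (hB x).1) (hF k).int
  have s1 : ∫ x, ∑ k : Fin 3, pd k (qe ε v) x * F k x = - ∫ x, qe ε v x * dv F x := by
    rw [integral_finsetSum _ (fun k _ => hI k)]
    have e1 : ∀ k ∈ (Finset.univ : Finset (Fin 3)), ∫ x, pd k (qe ε v) x * F k x =
        - ∫ x, qe ε v x * pd k (F k) x := by
      intro k _
      rw [ibpI (hq.differentiable one_ne_zero) ((hF k).c1.differentiable one_ne_zero) k (hI k)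
        (hI2 k) (hI3 k), neg_neg]
    rw [Finset.sum_congr rfl e1, Finset.sum_neg_distrib, ← integral_finsetSum _ (fun k _ => hI2 k)]
    congr 1
    refine integral_congr_ae (Eventually.of_forall fun x => ?_)
    show ∑ k : Fin 3, qe ε v x * pd k (F k) x = qe ε v x * dv F x
    unfold dv
    rw [Finset.mul_sum]
  have s2 : c0 * ∫ x, qe ε v x * dv F x = ∫ y, src2 v y * ∫ x, nk ε (x - y) * dv F x := by
    rw [← Pe_fub n1 n2 hS gi, ← integral_const_mul]
    refine integral_congr_ae (Eventually.of_forall fun x => ?_)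
    show c0 * ((∫ y, nk ε (x - y) * src2 v y) / c0 * dv F x) =
      (∫ y, nk ε (x - y) * src2 v y) * dv F x
    field_simp
  have hcd : ∀ {k : E3 → ℝ}, Continuous k → (∀ x, |k x| ≤ 1 / ε + 2 / l) →
      Integrable (fun y => src2 v y * ∫ x, k (x - y) * dv F x) := by
    intro k hk hkb
    have c1 : Continuous (fun y => ∫ x, k (x - y) * dv F x) := by
      refine continuous_of_dominated (bound := fun x => (1 / ε + 2 / l) * |dv F x|) (fun y => ?_)
        (fun y => Eventually.of_forall fun x => ?_) (gi.abs.const_mul _)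
        (Eventually.of_forall fun x => ?_)
      · exact ((hk.comp (continuous_id.sub continuous_const)).mul gc).aestronglyMeasurable
      · rw [Real.norm_eq_abs, abs_mul]
        exact mul_le_mul_of_nonneg_right (hkb _) (abs_nonneg _)
      · exact (hk.comp (continuous_const.sub continuous_id)).mul continuous_const
    have c2 : ∀ y, |∫ x, k (x - y) * dv F x| ≤ (1 / ε + 2 / l) * ∫ x, |dv F x| := by
      intro y
      rw [← Real.norm_eq_abs, ← integral_const_mul]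
      refine norm_integral_le_of_norm_le (gi.abs.const_mul _) (Eventually.of_forall fun x => ?_)
      rw [Real.norm_eq_abs, abs_mul]
      exact mul_le_mul_of_nonneg_right (hkb _) (abs_nonneg _)
    refine (Pe_bm c1 c2 hS).congr (Eventually.of_forall fun y => ?_)
    exact mul_comm _ _
  have hgi : ∀ {k : E3 → ℝ}, Continuous k → (∀ x, |k x| ≤ 1 / ε + 2 / l) → ∀ y,
      Integrable (fun x => k (x - y) * dv F x) := by
    intro k hk hkb y
    refine gi.bdd_mul (c := 1 / ε + 2 / l) ?_ (Eventually.of_forall fun x => ?_)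
    · exact (hk.comp (continuous_id.sub continuous_const)).aestronglyMeasurable
    · rw [Real.norm_eq_abs]
      exact hkb _
  rw [s1, mul_neg, s2, ← integral_add (hcd a1 a2) (hcd b1 b2)]
  congr 1
  refine integral_congr_ae (Eventually.of_forall fun y => ?_)
  show src2 v y * ∫ x, nk ε (x - y) * dv F x =
    src2 v y * (∫ x, k1 ε l (x - y) * dv F x) + src2 v y * ∫ x, k2 ε l (x - y) * dv F x
  rw [← mul_add, ← integral_add (hgi a1 a2 y) (hgi b1 b2 y)]
  congr 1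
  refine integral_congr_ae (Eventually.of_forall fun x => ?_)
  show nk ε (x - y) * dv F x = k1 ε l (x - y) * dv F x + k2 ε l (x - y) * dv F x
  rw [k_sum ε l (x - y)]
  ring

theorem Pe_NE {l : ℝ} (hl : 0 < l) {g : E3 → ℝ} {B : ℝ} (hg : Continuous g)
    (hb : ∀ x, |g x| ≤ B) : Continuous (NE l g) ∧ ∀ y, |NE l g y| ≤ 13 * l * B := by
  have hB : 0 ≤ B := (abs_nonneg _).trans (hb 0)
  have e1 : ∀ y, NE l g y = ∫ z in Metric.ball (0 : E3) l, (‖z‖ ^ 2)⁻¹ * |g (z + y)| := by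
    intro y
    unfold NE
    rw [← integral_indicator measurableSet_ball, ← integral_indicator measurableSet_ball,
      ← integral_add_right_eq_self _ y]
    refine integral_congr_ae (Eventually.of_forall fun z => ?_)
    show indicator (Metric.ball y l) _ (z + y) = indicator (Metric.ball 0 l) _ z
    by_cases hz : z ∈ Metric.ball (0 : E3) l
    · have hz' : z + y ∈ Metric.ball y l := by
        rw [Metric.mem_ball, dist_eq_norm] at hz ⊢
        rw [add_sub_cancel_right]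
        rwa [sub_zero] at hz
      rw [indicator_of_mem hz', indicator_of_mem hz, add_sub_cancel_right]
    · have hz' : z + y ∉ Metric.ball y l := by
        intro h
        apply hz
        rw [Metric.mem_ball, dist_eq_norm] at h ⊢
        rw [add_sub_cancel_right] at h
        rwa [sub_zero]
      rw [indicator_of_notMem hz', indicator_of_notMem hz]
  have hk := ne_ker hl (0 : E3)
  simp only [sub_zero] at hk
  have hki : Integrable (fun z : E3 => (‖z‖ ^ 2)⁻¹ * B) (volume.restrict (Metric.ball 0 l)) :=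
    hk.1.mul_const B
  have hm : ∀ y : E3, AEStronglyMeasurable (fun z : E3 => (‖z‖ ^ 2)⁻¹ * |g (z + y)|)
      (volume.restrict (Metric.ball 0 l)) := fun y =>
    hk.1.aestronglyMeasurable.mul
      ((hg.comp (continuous_id.add continuous_const)).abs.aestronglyMeasurable)
  have hbd : ∀ y z : E3, ‖(‖z‖ ^ 2)⁻¹ * |g (z + y)|‖ ≤ (‖z‖ ^ 2)⁻¹ * B := by
    intro y z
    rw [Real.norm_eq_abs, abs_mul, abs_abs, abs_of_nonneg (by positivity)]
    exact mul_le_mul_of_nonneg_left (hb _) (by positivity)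
  constructor
  · have e2 : NE l g = fun y => ∫ z in Metric.ball (0 : E3) l, (‖z‖ ^ 2)⁻¹ * |g (z + y)| :=
      funext e1
    rw [e2]
    refine continuous_of_dominated hm (fun y => Eventually.of_forall (hbd y)) hki
      (Eventually.of_forall fun z => ?_)
    exact continuous_const.mul ((hg.comp (continuous_const.add continuous_id)).abs)
  · intro y
    rw [e1, ← Real.norm_eq_abs]
    refine (norm_integral_le_of_norm_le hki (Eventually.of_forall (hbd y))).trans ?_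
    rw [integral_mul_const]
    exact mul_le_mul_of_nonneg_right hk.2 hB

theorem Pe_FA {l : ℝ} (hl : 0 < l) {g : E3 → ℝ} (hg : Integrable g) :
    Continuous (FA l g) ∧ ∃ B : ℝ, ∀ y, |FA l g y| ≤ B := by
  have hbd : ∀ y x : E3, ‖((max ‖x - y‖ l) ^ 3)⁻¹ * |g x|‖ ≤ (l ^ 3)⁻¹ * |g x| := by
    intro y x
    have h1 : 0 < max ‖x - y‖ l := lt_max_of_lt_right hl
    rw [Real.norm_eq_abs, abs_mul, abs_abs, abs_of_nonneg (by positivity)]
    refine mul_le_mul_of_nonneg_right ?_ (abs_nonneg _)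
    exact inv_anti₀ (by positivity) (pow_le_pow_left₀ hl.le (le_max_right _ _) 3)
  have hc : ∀ x : E3, Continuous fun y : E3 => ((max ‖x - y‖ l) ^ 3)⁻¹ := by
    intro x
    refine Continuous.inv₀ ?_ fun y => ?_
    · exact (((continuous_const.sub continuous_id).norm).max continuous_const).pow 3
    · have h1 : 0 < max ‖x - y‖ l := lt_max_of_lt_right hl
      positivity
  have hc' : ∀ y : E3, Continuous fun x : E3 => ((max ‖x - y‖ l) ^ 3)⁻¹ := by
    intro y
    refine Continuous.inv₀ ?_ fun x => ?_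
    · exact (((continuous_id.sub continuous_const).norm).max continuous_const).pow 3
    · have h1 : 0 < max ‖x - y‖ l := lt_max_of_lt_right hl
      positivity
  have hi : Integrable (fun x => (l ^ 3)⁻¹ * |g x|) := hg.abs.const_mul _
  refine ⟨?_, (∫ x, (l ^ 3)⁻¹ * |g x|), fun y => ?_⟩
  · refine continuous_of_dominated (fun y => ?_) (fun y => Eventually.of_forall (hbd y)) hi
      (Eventually.of_forall fun x => ?_)
    · exact (hc' y).aestronglyMeasurable.mul hg.abs.aestronglyMeasurable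
    · exact (hc x).mul continuous_const
  · rw [← Real.norm_eq_abs]
    exact norm_integral_le_of_norm_le hi (Eventually.of_forall (hbd y))

theorem Pe_adv {v : E3 → E3} (x : E3) (i : Fin 3) :
    |adv (v x) (fun y => v y i) x| ≤ ‖v x‖ * √(gv v x) := by
  obtain ⟨h0, _, h2, _⟩ := ba_gv (v := v) x 0 i
  refine abs_le_of_sq_le_sq ?_ (by positivity)
  rw [mul_pow, Real.sq_sqrt h0]
  unfold adv
  have h3 := Finset.sum_mul_sq_le_sq_mul_sq Finset.univ (fun j : Fin 3 => v x j)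
    (fun j => pd j (fun y => v y i) x)
  refine h3.trans ?_
  have h4 : ∑ j : Fin 3, v x j ^ 2 = ‖v x‖ ^ 2 := by
    rw [norm_sq_eq, Fin.sum_univ_three]
  rw [h4]
  exact mul_le_mul_of_nonneg_left h2 (by positivity)

theorem Pe_h {v : E3 → E3} (x : E3) :
    |v x 0 * pd 0 (fun y => v y 2) x + v x 1 * pd 1 (fun y => v y 2) x| ≤ hn v x * √(gv v x) := by
  obtain ⟨h0, _, h2, _⟩ := ba_gv (v := v) x 0 2
  have h5 : 0 ≤ hn v x := Real.sqrt_nonneg _
  refine abs_le_of_sq_le_sq ?_ (by positivity)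
  rw [mul_pow, Real.sq_sqrt h0]
  have h3 : hn v x ^ 2 = v x 0 ^ 2 + v x 1 ^ 2 := Real.sq_sqrt (by positivity)
  rw [h3]
  have h4 : pd 0 (fun y => v y 2) x ^ 2 + pd 1 (fun y => v y 2) x ^ 2 ≤ gv v x := by
    refine le_trans ?_ h2
    unfold gsq
    rw [Fin.sum_univ_three]
    have := sq_nonneg (pd 2 (fun y => v y 2) x)
    linarith
  have h6 : (v x 0 * pd 0 (fun y => v y 2) x + v x 1 * pd 1 (fun y => v y 2) x) ^ 2 ≤
      (v x 0 ^ 2 + v x 1 ^ 2) *
        (pd 0 (fun y => v y 2) x ^ 2 + pd 1 (fun y => v y 2) x ^ 2) := by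
    linarith only [sq_nonneg (v x 0 * pd 1 (fun y => v y 2) x - v x 1 * pd 0 (fun y => v y 2) x)]
  exact h6.trans (mul_le_mul_of_nonneg_left h4 (by positivity))

theorem Pe_vi {v : E3 → E3} (h : Vf v) : Integrable (fun x => ‖v x‖ * √(gv v x)) ∧
    Integrable (fun x => hn v x * √(gv v x)) ∧ Integrable (fun x => hn v x ^ 2) ∧
    Integrable (fun x => ‖v x‖ ^ 2) := by
  obtain ⟨K, _, _, i1, i2⟩ := ba_vf h
  obtain ⟨c1, c2, c3⟩ := ba_gvc h.sm
  have hb : Integrable (fun x => ‖v x‖ ^ 2 + gv v x) := i1.add i2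
  have key : ∀ x, ‖v x‖ * √(gv v x) ≤ ‖v x‖ ^ 2 + gv v x := by
    intro x
    have h0 := (ba_gv (v := v) x 0 0).1
    have h1 : √(gv v x) ^ 2 = gv v x := Real.sq_sqrt h0
    nlinarith [sq_nonneg (‖v x‖ - √(gv v x)), sq_nonneg (‖v x‖), sq_nonneg (√(gv v x))]
  refine ⟨?_, ?_, ?_, i1⟩
  · refine hb.mono' (c2.mul c1.sqrt).aestronglyMeasurable (Eventually.of_forall fun x => ?_)
    rw [Real.norm_eq_abs, abs_of_nonneg (by positivity)]
    exact key x
  · refine hb.mono' (c3.mul c1.sqrt).aestronglyMeasurable (Eventually.of_forall fun x => ?_)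
    have h1 : 0 ≤ hn v x := Real.sqrt_nonneg _
    obtain ⟨_, _, _, _, h2, _⟩ := ba_gv (v := v) x 0 0
    rw [Real.norm_eq_abs, abs_of_nonneg (by positivity)]
    exact (mul_le_mul_of_nonneg_right h2 (Real.sqrt_nonneg _)).trans (key x)
  · refine i1.mono' (c3.pow 2).aestronglyMeasurable (Eventually.of_forall fun x => ?_)
    have h1 : 0 ≤ hn v x := Real.sqrt_nonneg _
    obtain ⟨_, _, _, _, h2, _⟩ := ba_gv (v := v) x 0 0
    rw [Real.norm_eq_abs, abs_of_nonneg (by positivity)]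
    exact pow_le_pow_left₀ h1 h2 2

/-- a weighted integral bound -/
theorem Pe_int {f a w : E3 → ℝ} {C B : ℝ} (ha : Integrable a) (hw : Continuous w)
    (hwb : ∀ x, |w x| ≤ B) (h : ∀ x, |f x| ≤ a x * (C * w x)) :
    |∫ x, f x| ≤ C * ∫ x, a x * w x := by
  have h1 : Integrable (fun x => a x * w x) :=
    (Pe_bm hw hwb ha).congr (Eventually.of_forall fun x => mul_comm _ _)
  rw [← Real.norm_eq_abs, ← integral_const_mul]
  refine norm_integral_le_of_norm_le (h1.const_mul C) (Eventually.of_forall fun x => ?_)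
  rw [Real.norm_eq_abs]
  refine (h x).trans (le_of_eq ?_)
  ring

theorem Pe_far : ∃ C : ℝ, 0 < C ∧ ∀ ε l : ℝ, 0 < ε → 0 < l → ∀ v : E3 → E3, Vf v →
    ∀ (g : E3 → ℝ) (B : ℝ), Continuous g → Integrable g → (∀ x, |g x| ≤ B) →
    |∫ y, src2 v y * ∫ x, k2 ε l (x - y) * g x| ≤ C * ∫ y, ‖v y‖ ^ 2 * FA l g y := by
  obtain ⟨C, hC, hc⟩ := cv2
  refine ⟨9 * C, by positivity, fun ε l hε hl v hv g B gc gi gb => ?_⟩
  obtain ⟨hG, hb, B', hB'⟩ := hc ε l hε hl g B gc gi gb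
  have e1 : ∫ y, src2 v y * ∫ x, k2 ε l (x - y) * g x = ∑ i : Fin 3, ∑ j : Fin 3,
      ∫ x, v x i * v x j * pd j (pd i (fun y => ∫ x, k2 ε l (x - y) * g x)) x := s2 hv hG hB'
  obtain ⟨w1, BF, w2⟩ := Pe_FA hl gi
  have e2 : ∀ i j : Fin 3,
      |∫ x, v x i * v x j * pd j (pd i (fun y => ∫ x, k2 ε l (x - y) * g x)) x| ≤
        C * ∫ y, ‖v y‖ ^ 2 * FA l g y := by
    intro i j
    refine Pe_int (Pe_vi hv).2.2.2 w1 w2 fun x => ?_
    rw [abs_mul]
    refine mul_le_mul ?_ (hb i j x) (abs_nonneg _) (by positivity)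
    rw [abs_mul, pow_two, ← Real.norm_eq_abs, ← Real.norm_eq_abs]
    exact mul_le_mul (PiLp.norm_apply_le _ _) (PiLp.norm_apply_le _ _) (norm_nonneg _)
      (norm_nonneg _)
  rw [e1]
  refine (Finset.abs_sum_le_sum_abs _ _).trans ?_
  refine (Finset.sum_le_sum fun i _ => (Finset.abs_sum_le_sum_abs _ _).trans
    (Finset.sum_le_sum fun j _ => e2 i j)).trans ?_
  rw [Finset.sum_const, Finset.sum_const, Finset.card_univ, Fintype.card_fin, nsmul_eq_mul,
    nsmul_eq_mul]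
  exact le_of_eq (by push_cast; ring)

theorem Pe_nearA : ∃ C : ℝ, 0 < C ∧ ∀ ε l : ℝ, 0 < ε → 0 < l → ∀ v : E3 → E3, Vf v →
    ∀ (g : E3 → ℝ) (B : ℝ), Continuous g → Integrable g → (∀ x, |g x| ≤ B) →
    |∫ y, src2 v y * ∫ x, k1 ε l (x - y) * g x| ≤
      C * ∫ y, ‖v y‖ * √(gv v y) * NE l g y := by
  obtain ⟨C, hC, hc⟩ := cv1
  refine ⟨3 * C, by positivity, fun ε l hε hl v hv g B gc gi gb => ?_⟩
  obtain ⟨hG, hb, B', hB'⟩ := hc ε l hε hl g B gc gi gb
  have e1 : ∫ y, src2 v y * ∫ x, k1 ε l (x - y) * g x = - ∑ i : Fin 3,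
      ∫ x, adv (v x) (fun y => v y i) x * pd i (fun y => ∫ x, k1 ε l (x - y) * g x) x :=
    s1 hv hG (fun y => ⟨(hB' y).1, (hB' y).2.1⟩)
  obtain ⟨w1, w2⟩ := Pe_NE hl gc gb
  have e2 : ∀ i : Fin 3,
      |∫ x, adv (v x) (fun y => v y i) x * pd i (fun y => ∫ x, k1 ε l (x - y) * g x) x| ≤
        C * ∫ y, ‖v y‖ * √(gv v y) * NE l g y := by
    intro i
    refine Pe_int (Pe_vi hv).1 w1 w2 fun x => ?_
    rw [abs_mul]
    exact mul_le_mul (Pe_adv x i) (hb i x) (abs_nonneg _) (by positivity)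
  rw [e1, abs_neg]
  refine (Finset.abs_sum_le_sum_abs _ _).trans ?_
  refine (Finset.sum_le_sum fun i _ => e2 i).trans ?_
  rw [Finset.sum_const, Finset.card_univ, Fintype.card_fin, nsmul_eq_mul]
  exact le_of_eq (by push_cast; ring)

theorem Pe_vab {v : E3 → E3} (x : E3) : |v x 0 * v x 0| ≤ hn v x ^ 2 ∧ |v x 0 * v x 1| ≤ hn v x ^ 2 ∧
    |v x 1 * v x 0| ≤ hn v x ^ 2 ∧ |v x 1 * v x 1| ≤ hn v x ^ 2 := by
  have h3 : hn v x ^ 2 = v x 0 ^ 2 + v x 1 ^ 2 := Real.sq_sqrt (by positivity)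
  rw [h3]
  refine ⟨?_, ?_, ?_, ?_⟩ <;> rw [abs_le] <;> constructor <;>
    linarith only [sq_nonneg (v x 0), sq_nonneg (v x 1), sq_nonneg (v x 0 + v x 1),
      sq_nonneg (v x 0 - v x 1)]

theorem Pe_nearC : ∃ C : ℝ, 0 < C ∧ ∀ ε l : ℝ, 0 < ε → 0 < l → ∀ v : E3 → E3, Vf v →
    ∀ g : E3 → ℝ, TF g →
    |∫ y, src2 v y * ∫ x, k1 ε l (x - y) * g x| ≤
      C * ∫ y, (hn v y * √(gv v y) * NE l g y + hn v y ^ 2 * (NE l (pd 0 g) y + NE l (pd 1 g) y)) := by
  obtain ⟨C, hC, hc⟩ := cv1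
  refine ⟨2 * C, by positivity, fun ε l hε hl v hv g hg => ?_⟩
  obtain ⟨B, hB⟩ := hg.bd
  obtain ⟨hG, hb, B', hB'⟩ := hc ε l hε hl g B hg.c1.continuous hg.int (fun x => (hB x).1)
  have e1 := s3 hv hG hB'
  have hd : ∀ a b : Fin 3, ∀ y, |pd b (pd a (fun y => ∫ x, k1 ε l (x - y) * g x)) y| ≤
      C * NE l (pd a g) y := by
    intro a b y
    rw [cv1d hε hl hg a]
    exact (hc ε l hε hl (pd a g) B (Pe_pdc hg.c1 a) (hg.intd a) (fun x => (hB x).2 a)).2.1 b y
  obtain ⟨w1, w2⟩ := Pe_NE hl hg.c1.continuous (fun x => (hB x).1)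
  obtain ⟨_, i1, i2, _⟩ := Pe_vi hv
  have hw : ∀ a : Fin 3, Continuous (NE l (pd a g)) ∧ ∀ y, |NE l (pd a g) y| ≤ 13 * l * B :=
    fun a => Pe_NE hl (Pe_pdc hg.c1 a) (fun x => (hB x).2 a)
  have f1 : |∫ x, (v x 0 * pd 0 (fun y => v y 2) x + v x 1 * pd 1 (fun y => v y 2) x) *
      pd 2 (fun y => ∫ x, k1 ε l (x - y) * g x) x| ≤
      C * ∫ y, hn v y * √(gv v y) * NE l g y := by
    refine Pe_int i1 w1 w2 fun x => ?_
    rw [abs_mul]
    exact mul_le_mul (Pe_h x) (hb 2 x) (abs_nonneg _)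
      (mul_nonneg (Real.sqrt_nonneg _) (Real.sqrt_nonneg _))
  have f2 : ∀ a b c d : Fin 3, (∀ x, |v x c * v x d| ≤ hn v x ^ 2) →
      |∫ x, v x c * v x d * pd b (pd a (fun y => ∫ x, k1 ε l (x - y) * g x)) x| ≤
      C * ∫ y, hn v y ^ 2 * NE l (pd a g) y := by
    intro a b c d hcd
    refine Pe_int i2 (hw a).1 (hw a).2 fun x => ?_
    rw [abs_mul]
    exact mul_le_mul (hcd x) (hd a b x) (abs_nonneg _) (by positivity)
  have g1 := f2 0 0 0 0 (fun x => (Pe_vab x).1)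
  have g2 := f2 0 1 0 1 (fun x => (Pe_vab x).2.1)
  have g3 := f2 1 0 1 0 (fun x => (Pe_vab x).2.2.1)
  have g4 := f2 1 1 1 1 (fun x => (Pe_vab x).2.2.2)
  have j1 : Integrable (fun y => hn v y * √(gv v y) * NE l g y) :=
    (Pe_bm w1 w2 i1).congr (Eventually.of_forall fun x => mul_comm _ _)
  have j2 : ∀ a : Fin 3, Integrable (fun y => hn v y ^ 2 * NE l (pd a g) y) := fun a =>
    (Pe_bm (hw a).1 (hw a).2 i2).congr (Eventually.of_forall fun x => mul_comm _ _)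
  have j3 : ∫ y, (hn v y * √(gv v y) * NE l g y + hn v y ^ 2 * (NE l (pd 0 g) y + NE l (pd 1 g) y)) =
      (∫ y, hn v y * √(gv v y) * NE l g y) +
        ((∫ y, hn v y ^ 2 * NE l (pd 0 g) y) + ∫ y, hn v y ^ 2 * NE l (pd 1 g) y) := by
    have j23 : Integrable (fun y => hn v y ^ 2 * NE l (pd 0 g) y + hn v y ^ 2 * NE l (pd 1 g) y) :=
      (j2 0).add (j2 1)
    rw [← integral_add (j2 0) (j2 1), ← integral_add j1 j23]
    refine integral_congr_ae (Eventually.of_forall fun y => ?_)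
    show hn v y * √(gv v y) * NE l g y + hn v y ^ 2 * (NE l (pd 0 g) y + NE l (pd 1 g) y) =
      hn v y * √(gv v y) * NE l g y + (hn v y ^ 2 * NE l (pd 0 g) y + hn v y ^ 2 * NE l (pd 1 g) y)
    ring
  have e3 : ∫ y, src2 v y * ∫ x, k1 ε l (x - y) * g x = _ := e1
  rw [j3, e3]
  rw [abs_le] at f1 g1 g2 g3 g4 ⊢
  constructor
  · linarith [f1.1, f1.2, g1.1, g2.1, g3.1, g4.1]
  · linarith [f1.1, f1.2, g1.2, g2.2, g3.2, g4.2]

theorem Pe_nn {a b c : ℝ} (ha : 0 < a) (h : |c| ≤ a * b) : 0 ≤ b := by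
  have h1 : 0 ≤ a * b := (abs_nonneg c).trans h
  exact (mul_nonneg_iff_of_pos_left ha).1 h1

theorem pAe : ∃ C : ℝ, 0 < C ∧ ∀ ε l : ℝ, 0 < ε → 0 < l → ∀ v : E3 → E3, Vf v → ∀ F : Fin 3 → E3 → ℝ, (∀ k, TF (F k)) →
    |∫ x, ∑ k : Fin 3, pd k (qe ε v) x * F k x| ≤
      C * ((∫ y, ‖v y‖ * √(gv v y) * NE l (dv F) y) + ∫ y, ‖v y‖ ^ 2 * FA l (dv F) y) := by
  obtain ⟨C1, hC1, h1⟩ := Pe_nearA
  obtain ⟨C2, hC2, h2⟩ := Pe_far
  have hc0 := c0_pos
  refine ⟨(C1 + C2) / c0, by positivity, fun ε l hε hl v hv F hF => ?_⟩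
  obtain ⟨gc, gi, Bg, gb⟩ := Pe_dv hF
  have k1' := h1 ε l hε hl v hv (dv F) Bg gc gi gb
  have k2' := h2 ε l hε hl v hv (dv F) Bg gc gi gb
  have n1 := Pe_nn hC1 k1'
  have n2 := Pe_nn hC2 k2'
  have hq := q2 hε hl hv hF
  rw [div_mul_eq_mul_div, le_div_iff₀ hc0]
  have h3 : |∫ x, ∑ k : Fin 3, pd k (qe ε v) x * F k x| * c0 =
      |c0 * ∫ x, ∑ k : Fin 3, pd k (qe ε v) x * F k x| := by
    rw [abs_mul, abs_of_pos hc0, mul_comm]
  rw [h3, hq, abs_neg]
  refine (abs_add_le _ _).trans ?_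
  linarith only [mul_nonneg hC1.le n2, mul_nonneg hC2.le n1, hC1, hC2, k1', k2', n1, n2]

theorem Pe_TF0 : TF (fun _ : E3 => (0 : ℝ)) := by
  have h : ∀ i : Fin 3, pd i (fun _ : E3 => (0 : ℝ)) = fun _ => 0 := by
    intro i
    funext x
    unfold pd
    rw [fderiv_fun_const]
    rfl
  refine ⟨contDiff_const, integrable_zero _ _ _, fun i => ?_, ⟨0, fun x => ⟨?_, fun i => ?_⟩⟩⟩
  · rw [h]
    exact integrable_zero _ _ _
  · rw [abs_zero]
  · rw [h, abs_zero]

theorem pCe : ∃ C : ℝ, 0 < C ∧ ∀ ε l : ℝ, 0 < ε → 0 < l → ∀ v : E3 → E3, Vf v → ∀ g : E3 → ℝ, TF g → TF (pd 2 g) →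
    |∫ x, pd 2 (qe ε v) x * g x| ≤
      C * ((∫ y, (hn v y * √(gv v y) * NE l (pd 2 g) y + hn v y ^ 2 * (NE l (pd 0 (pd 2 g)) y + NE l (pd 1 (pd 2 g)) y))) +
        ∫ y, ‖v y‖ ^ 2 * FA l (pd 2 g) y) := by
  obtain ⟨C1, hC1, h1⟩ := Pe_nearC
  obtain ⟨C2, hC2, h2⟩ := Pe_far
  have hc0 := c0_pos
  refine ⟨(C1 + C2) / c0, by positivity, fun ε l hε hl v hv g hg hγ => ?_⟩
  obtain ⟨B, hB⟩ := hγ.bd
  have k1' := h1 ε l hε hl v hv (pd 2 g) hγ
  have k2' := h2 ε l hε hl v hv (pd 2 g) B hγ.c1.continuous hγ.int (fun x => (hB x).1)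
  have n1 := Pe_nn hC1 k1'
  have n2 := Pe_nn hC2 k2'
  obtain ⟨F, hFd⟩ : ∃ F : Fin 3 → E3 → ℝ, F = ![fun _ => 0, fun _ => 0, g] := ⟨_, rfl⟩
  have F0 : F 0 = fun _ => 0 := by rw [hFd]; rfl
  have F1 : F 1 = fun _ => 0 := by rw [hFd]; rfl
  have F2 : F 2 = g := by rw [hFd]; rfl
  have hF : ∀ k, TF (F k) := by
    intro k
    fin_cases k
    · exact F0 ▸ Pe_TF0
    · exact F1 ▸ Pe_TF0
    · exact F2 ▸ hg
  have hz : ∀ i : Fin 3, ∀ x, pd i (fun _ : E3 => (0 : ℝ)) x = 0 := by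
    intro i x
    unfold pd
    rw [fderiv_fun_const]
    rfl
  have hdv : dv F = pd 2 g := by
    funext x
    unfold dv
    rw [Fin.sum_univ_three, F0, F1, F2, hz, hz, zero_add, zero_add]
  have hsum : ∀ x, ∑ k : Fin 3, pd k (qe ε v) x * F k x = pd 2 (qe ε v) x * g x := by
    intro x
    rw [Fin.sum_univ_three, F0, F1, F2, mul_zero, mul_zero, zero_add, zero_add]
  have hq := q2 hε hl hv hF
  rw [hdv] at hq
  simp only [hsum] at hq
  rw [div_mul_eq_mul_div, le_div_iff₀ hc0]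
  have h3 : |∫ x, pd 2 (qe ε v) x * g x| * c0 = |c0 * ∫ x, pd 2 (qe ε v) x * g x| := by
    rw [abs_mul, abs_of_pos hc0, mul_comm]
  rw [h3, hq, abs_neg]
  refine (abs_add_le _ _).trans ?_
  linarith only [mul_nonneg hC1.le n2, mul_nonneg hC2.le n1, hC1, hC2, k1', k2', n1, n2]

end Pool.Agent.H16.TU
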