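/-
ROW Pl (MP_09540e_TU). The limit of the kernels. PROOF. `MK ε k z = z k (‖z‖²+ε²)^(-3/2)`, `M0 k z = z k (‖z‖³)⁻¹`. For z ≠ 0: `|MK - M0| ≤ 2 ‖z‖⁻²` and, by the mean value theorem for `s ↦ s^(-3/2)` between ‖z‖² and ‖z‖²+ε², `|MK - M0| ≤ ‖z‖ (3/2) ε² ‖z‖⁻⁵ = (3/2) ε² ‖z‖⁻⁴`. `|M0 k z| ≤ ‖z‖⁻²`. Integrals of radial functions: integral_fun_norm_addHaar, as in
ne_ker (We.lean): `∫_{‖z‖<ε} 2‖z‖⁻² ≤ 26 ε`, `∫_{‖z‖≥ε} (3/2) ε² ‖z‖⁻⁴ = 6 π ε ≤ 19 ε`. So `|∫ (MK - M0)(x-y) f y dy| ≤ 45 ε B`. `∫ |M0 (x-y)| |f y| ≤ 13 B + ∫ |f| ≤ 14 B` (ball of radius 1 and its complement). For ε ≤ 1 also `|∫ MK f| ≤ 14 B`. kl: the limit form of kernel_limit (H87/NS/KLim.lean): by KLim_scale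
`∫ g y (3 ε² (‖x-y‖²+ε²)^(-5/2)) = ∫ g (x - ε s) (3 (1+‖s‖²)^(-5/2)) ds → c0 g x` by dominated convergence (g bounded and continuous; c0_int).
-/
import Pool.Agent.H16.TU.We
import Pool.Agent.H87.NS.KLim
import Pool.Agent.H87.NS.HInt

set_option autoImplicit false

open Set Filter Topology MeasureTheory
open scoped ContDiff

namespace Pool.Agent.H16.TU

open Pool.Agent.H16 Pool.Agent.H87.NS Pool.Agent.H72.CC

/-- the comparison kernel -/
private noncomputable def Pl_F (s : E3) : ℝ :=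
  2 * (if ‖s‖ < 1 then 1 / ‖s‖ ^ 2 else 0) + 3 * (if ‖s‖ < 1 then 0 else 1 / ‖s‖ ^ 4)

private theorem Pl_F_nn (s : E3) : 0 ≤ Pl_F s := by
  unfold Pl_F
  split_ifs <;> positivity

private theorem Pl_F_int : Integrable Pl_F := by
  have h := (rad_int.1.const_mul 2).add (rad_int.2.const_mul 3)
  exact h

private theorem Pl_rpow {ε : ℝ} (hε : 0 ≤ ε) : (ε ^ 2 : ℝ) ^ (-(3/2) : ℝ) = (ε ^ 3)⁻¹ := by
  rw [← Real.rpow_natCast, ← Real.rpow_mul hε]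
  have : ((2 : ℕ) : ℝ) * -(3/2) = -((3 : ℕ) : ℝ) := by norm_num
  rw [this, Real.rpow_neg hε, Real.rpow_natCast]

private theorem Pl_coord (k : Fin 3) (z : E3) : |z k| ≤ ‖z‖ := by
  have h := PiLp.norm_apply_le z k
  rwa [Real.norm_eq_abs] at h

private theorem Pl_M0 (k : Fin 3) (z : E3) : |M0 k z| ≤ 1 / ‖z‖ ^ 2 := by
  by_cases hz : z = 0
  · subst hz
    unfold M0
    simp
  · have hn : 0 < ‖z‖ := norm_pos_iff.2 hz
    unfold M0
    rw [abs_mul, abs_of_pos (inv_pos.2 (pow_pos hn 3))]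
    calc |z k| * (‖z‖ ^ 3)⁻¹ ≤ ‖z‖ * (‖z‖ ^ 3)⁻¹ :=
          mul_le_mul_of_nonneg_right (Pl_coord k z) (by positivity)
      _ = 1 / ‖z‖ ^ 2 := by field_simp

/-- the numerical inequality -/
private theorem Pl_num {n a : ℝ} (hn : 0 < n) (ha : 0 < a) (h : a ^ 2 = n ^ 2 + 1) :
    (a ^ 3)⁻¹ ≤ (n ^ 3)⁻¹ ∧ (n ^ 3)⁻¹ - (a ^ 3)⁻¹ ≤ 3 / n ^ 5 := by
  have hna : n < a := by nlinarith
  have h1 : n ^ 3 ≤ a ^ 3 := pow_le_pow_left₀ hn.le hna.le 3
  refine ⟨inv_anti₀ (by positivity) h1, ?_⟩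
  have h2 : (n ^ 3)⁻¹ - (a ^ 3)⁻¹ = (a ^ 3 - n ^ 3) / (n ^ 3 * a ^ 3) := by
    field_simp
  have h3 : (a ^ 3 - n ^ 3) * (a + n) = a ^ 2 + a * n + n ^ 2 := by
    have : (a ^ 3 - n ^ 3) * (a + n) = (a ^ 2 - n ^ 2) * (a ^ 2 + a * n + n ^ 2) := by ring
    rw [this, h]
    ring
  have h4 : (a ^ 3 - n ^ 3) * a ≤ 3 * a ^ 2 := by
    have h5 : 0 ≤ a ^ 3 - n ^ 3 := by linarith
    nlinarith only [hn, ha, h, hna, h1, h3]
  have h5 : a ^ 3 - n ^ 3 ≤ 3 * a := by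
    have h6 : (a ^ 3 - n ^ 3) * a ≤ (3 * a) * a := by linarith only [h4]
    exact le_of_mul_le_mul_right h6 ha
  rw [h2, div_le_div_iff₀ (by positivity) (by positivity)]
  have h6 : n ^ 2 ≤ a ^ 2 := by linarith
  calc (a ^ 3 - n ^ 3) * n ^ 5 ≤ 3 * a * n ^ 5 := mul_le_mul_of_nonneg_right h5 (by positivity)
    _ = 3 * (n ^ 3 * (a * n ^ 2)) := by ring
    _ ≤ 3 * (n ^ 3 * (a * a ^ 2)) := by gcongr
    _ = 3 * (n ^ 3 * a ^ 3) := by ring

private theorem Pl_one (k : Fin 3) (s : E3) : |MK 1 k s - M0 k s| ≤ Pl_F s := by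
  by_cases hs : s = 0
  · subst hs
    have h1 : MK 1 k (0 : E3) - M0 k (0 : E3) = 0 := by
      unfold MK M0
      simp
    rw [h1, abs_zero]
    exact Pl_F_nn _
  · have hn : 0 < ‖s‖ := norm_pos_iff.2 hs
    obtain ⟨a, ha⟩ : ∃ a : ℝ, a = √(‖s‖ ^ 2 + 1) := ⟨_, rfl⟩
    have ha0 : 0 < a := by
      rw [ha]
      positivity
    have ha2 : a ^ 2 = ‖s‖ ^ 2 + 1 := by
      rw [ha, Real.sq_sqrt (by positivity)]
    obtain ⟨h1, h2⟩ := Pl_num hn ha0 ha2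
    have h3 : MK 1 k s - M0 k s = - (s k * ((‖s‖ ^ 3)⁻¹ - (a ^ 3)⁻¹)) := by
      unfold MK M0
      rw [one_pow, ← ha2, Pl_rpow ha0.le]
      ring
    have h4 : 0 ≤ (‖s‖ ^ 3)⁻¹ - (a ^ 3)⁻¹ := by linarith
    rw [h3, abs_neg, abs_mul, abs_of_nonneg h4]
    have h5 : |s k| * ((‖s‖ ^ 3)⁻¹ - (a ^ 3)⁻¹) ≤ ‖s‖ * ((‖s‖ ^ 3)⁻¹ - (a ^ 3)⁻¹) :=
      mul_le_mul_of_nonneg_right (Pl_coord k s) h4
    refine h5.trans ?_
    unfold Pl_F
    split_ifs with h6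
    · have h7 : (‖s‖ ^ 3)⁻¹ - (a ^ 3)⁻¹ ≤ (‖s‖ ^ 3)⁻¹ := by
        have : 0 < (a ^ 3)⁻¹ := by positivity
        linarith
      calc ‖s‖ * ((‖s‖ ^ 3)⁻¹ - (a ^ 3)⁻¹) ≤ ‖s‖ * (‖s‖ ^ 3)⁻¹ :=
            mul_le_mul_of_nonneg_left h7 hn.le
        _ = 1 / ‖s‖ ^ 2 := by field_simp
        _ ≤ 2 * (1 / ‖s‖ ^ 2) + 3 * 0 := by
          have : 0 ≤ 1 / ‖s‖ ^ 2 := by positivity
          linarith
    · calc ‖s‖ * ((‖s‖ ^ 3)⁻¹ - (a ^ 3)⁻¹) ≤ ‖s‖ * (3 / ‖s‖ ^ 5) :=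
            mul_le_mul_of_nonneg_left h2 hn.le
        _ = 2 * 0 + 3 * (1 / ‖s‖ ^ 4) := by field_simp; ring

private theorem Pl_dif {ε : ℝ} (hε : 0 < ε) (k : Fin 3) (z : E3) :
    |MK ε k z - M0 k z| ≤ (ε ^ 2)⁻¹ * Pl_F (ε⁻¹ • z) := by
  have h1 : MK ε k z = (ε ^ 2)⁻¹ * MK 1 k (ε⁻¹ • z) := by
    unfold MK
    have e1 : ‖ε⁻¹ • z‖ ^ 2 + 1 ^ 2 = (‖z‖ ^ 2 + ε ^ 2) * (ε⁻¹) ^ 2 := by
      rw [norm_smul, Real.norm_of_nonneg (inv_pos.2 hε).le]
      field_simp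
    rw [e1, Real.mul_rpow (by positivity) (by positivity), Pl_rpow (inv_pos.2 hε).le]
    have e2 : (ε⁻¹ • z) k = ε⁻¹ * z k := rfl
    rw [e2]
    field_simp
  have h2 : M0 k z = (ε ^ 2)⁻¹ * M0 k (ε⁻¹ • z) := by
    unfold M0
    have e2 : (ε⁻¹ • z) k = ε⁻¹ * z k := rfl
    rw [e2, norm_smul, Real.norm_of_nonneg (inv_pos.2 hε).le, mul_pow, mul_inv, ← inv_pow ε⁻¹,
      inv_inv]
    field_simp
  rw [h1, h2, ← mul_sub, abs_mul, abs_of_pos (by positivity : (0 : ℝ) < (ε ^ 2)⁻¹)]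
  exact mul_le_mul_of_nonneg_left (Pl_one k _) (by positivity)

private theorem Pl_G_int {ε : ℝ} (hε : 0 < ε) (x : E3) :
    Integrable (fun y : E3 => (ε ^ 2)⁻¹ * Pl_F (ε⁻¹ • (x - y))) := by
  have h1 : Integrable (fun z : E3 => (ε ^ 2)⁻¹ * Pl_F (ε⁻¹ • z)) :=
    (Pl_F_int.comp_smul (inv_pos.2 hε).ne').const_mul _
  exact h1.comp_sub_left x

private theorem Pl_G_val {ε : ℝ} (hε : 0 < ε) (x : E3) :
    ∫ y : E3, (ε ^ 2)⁻¹ * Pl_F (ε⁻¹ • (x - y)) = ε * ∫ s, Pl_F s := by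
  have h1 := integral_sub_left_eq_self (fun z : E3 => (ε ^ 2)⁻¹ * Pl_F (ε⁻¹ • z)) volume x
  rw [h1, integral_const_mul]
  have h2 := Measure.integral_comp_smul (volume : Measure E3) Pl_F ε⁻¹
  rw [finrank_euclideanSpace_fin] at h2
  rw [h2, smul_eq_mul, inv_pow, inv_inv, abs_of_pos (by positivity : (0 : ℝ) < ε ^ 3)]
  field_simp

private theorem Pl_M0_meas (k : Fin 3) : Measurable (M0 k) := by
  unfold M0
  have h1 : Measurable (fun z : E3 => z k) :=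
    (PiLp.continuous_apply 2 (fun _ : Fin 3 => ℝ) k).measurable
  exact h1.mul ((measurable_norm.pow_const 3).inv)

private theorem Pl_MK_cont {ε : ℝ} (hε : 0 < ε) (k : Fin 3) : Continuous (MK ε k) :=
  (MK_smooth hε k).continuous

theorem mk_lim : ∃ C : ℝ, 0 < C ∧ ∀ (f : E3 → ℝ) (B : ℝ), Continuous f → (∀ x, |f x| ≤ B) → Integrable f → ∫ x, |f x| ≤ B → ∀ (x : E3) (k : Fin 3),
    Integrable (fun y => M0 k (x - y) * f y) ∧ |∫ y, M0 k (x - y) * f y| ≤ C * B ∧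
    ∀ ε : ℝ, 0 < ε → ε ≤ 1 → |∫ y, MK ε k (x - y) * f y| ≤ C * B ∧
      |(∫ y, MK ε k (x - y) * f y) - ∫ y, M0 k (x - y) * f y| ≤ C * ε * B := by
  obtain ⟨I, hI⟩ : ∃ I : ℝ, I = ∫ s, Pl_F s := ⟨_, rfl⟩
  obtain ⟨J, hJ⟩ : ∃ J : ℝ, J = ∫ z : E3, (if ‖z‖ < 1 then 1 / ‖z‖ ^ 2 else 0) := ⟨_, rfl⟩
  have hI0 : 0 ≤ I := by
    rw [hI]
    exact integral_nonneg Pl_F_nn
  have hJ0 : 0 ≤ J := by
    rw [hJ]
    refine integral_nonneg fun z => ?_
    show 0 ≤ (if ‖z‖ < 1 then 1 / ‖z‖ ^ 2 else 0)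
    split_ifs <;> positivity
  refine ⟨J + 1 + I, by positivity, ?_⟩
  intro f B hf hB hfi hfB x k
  have hB0 : 0 ≤ B := (abs_nonneg _).trans (hB 0)
  have hdom : Integrable (fun y : E3 => B * (if ‖x - y‖ < 1 then 1 / ‖x - y‖ ^ 2 else 0) + |f y|) :=
    ((hint_near_int x).const_mul B).add hfi.abs
  have hle : ∀ y : E3, |M0 k (x - y) * f y| ≤
      B * (if ‖x - y‖ < 1 then 1 / ‖x - y‖ ^ 2 else 0) + |f y| := by
    intro y
    rw [abs_mul]
    have h1 := Pl_M0 k (x - y)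
    split_ifs with h2
    · have h3 : |M0 k (x - y)| * |f y| ≤ 1 / ‖x - y‖ ^ 2 * B :=
        mul_le_mul h1 (hB y) (abs_nonneg _) (by positivity)
      have h4 := abs_nonneg (f y)
      linarith
    · have h3 : 1 / ‖x - y‖ ^ 2 ≤ 1 := by
        have h4 : 1 ≤ ‖x - y‖ := not_lt.1 h2
        rw [div_le_one (by positivity)]
        exact one_le_pow₀ h4
      have h4 : |M0 k (x - y)| * |f y| ≤ 1 * |f y| :=
        mul_le_mul_of_nonneg_right (h1.trans h3) (abs_nonneg _)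
      linarith
  have hm0 : AEStronglyMeasurable (fun y : E3 => M0 k (x - y) * f y) volume :=
    (((Pl_M0_meas k).comp (measurable_const.sub measurable_id)).mul hf.measurable).aestronglyMeasurable
  have hint : Integrable (fun y : E3 => M0 k (x - y) * f y) :=
    hdom.mono' hm0 (Eventually.of_forall fun y => by rw [Real.norm_eq_abs]; exact hle y)
  have hJ' : ∫ y : E3, (if ‖x - y‖ < 1 then 1 / ‖x - y‖ ^ 2 else 0) = J := by
    rw [hJ]
    exact integral_sub_left_eq_self (fun z : E3 => if ‖z‖ < 1 then 1 / ‖z‖ ^ 2 else 0) volume x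
  have hb : |∫ y, M0 k (x - y) * f y| ≤ (J + 1) * B := by
    have h1 : |∫ y, M0 k (x - y) * f y| ≤ ∫ y, |M0 k (x - y) * f y| := abs_integral_le_integral_abs
    have h2 : ∫ y, |M0 k (x - y) * f y| ≤
        ∫ y, (B * (if ‖x - y‖ < 1 then 1 / ‖x - y‖ ^ 2 else 0) + |f y|) :=
      integral_mono hint.abs hdom hle
    rw [integral_add ((hint_near_int x).const_mul B) hfi.abs, integral_const_mul, hJ'] at h2
    have h3 : (J + 1) * B = B * J + B := by ring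
    linarith
  refine ⟨hint, hb.trans (mul_le_mul_of_nonneg_right (by linarith) hB0), ?_⟩
  intro ε hε hε1
  have hD : ∀ y : E3, |(MK ε k (x - y) - M0 k (x - y)) * f y| ≤
      B * ((ε ^ 2)⁻¹ * Pl_F (ε⁻¹ • (x - y))) := by
    intro y
    rw [abs_mul, mul_comm]
    exact mul_le_mul (hB y) (Pl_dif hε k _) (abs_nonneg _) hB0
  have hDm : AEStronglyMeasurable (fun y : E3 => (MK ε k (x - y) - M0 k (x - y)) * f y) volume :=
    (((((Pl_MK_cont hε k).measurable).comp (measurable_const.sub measurable_id)).sub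
      ((Pl_M0_meas k).comp (measurable_const.sub measurable_id))).mul
        hf.measurable).aestronglyMeasurable
  have hDd := (Pl_G_int hε x).const_mul B
  have hDi : Integrable (fun y : E3 => (MK ε k (x - y) - M0 k (x - y)) * f y) :=
    hDd.mono' hDm (Eventually.of_forall fun y => by rw [Real.norm_eq_abs]; exact hD y)
  have hDb : |∫ y, (MK ε k (x - y) - M0 k (x - y)) * f y| ≤ B * (ε * I) := by
    have h1 : |∫ y, (MK ε k (x - y) - M0 k (x - y)) * f y| ≤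
        ∫ y, |(MK ε k (x - y) - M0 k (x - y)) * f y| := abs_integral_le_integral_abs
    have h2 := integral_mono hDi.abs hDd hD
    rw [integral_const_mul, Pl_G_val hε x, ← hI] at h2
    exact h1.trans h2
  have hsum : ∫ y, MK ε k (x - y) * f y =
      (∫ y, M0 k (x - y) * f y) + ∫ y, (MK ε k (x - y) - M0 k (x - y)) * f y := by
    rw [← integral_add hint hDi]
    refine integral_congr_ae (Eventually.of_forall fun y => ?_)
    show MK ε k (x - y) * f y = M0 k (x - y) * f y + (MK ε k (x - y) - M0 k (x - y)) * f y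
    ring
  have hεI : B * (ε * I) ≤ I * B := by
    have h1 : ε * I ≤ 1 * I := mul_le_mul_of_nonneg_right hε1 hI0
    nlinarith only [hB0, h1]
  have hεB : 0 ≤ ε * B := by positivity
  constructor
  · rw [hsum]
    refine (abs_add_le _ _).trans ?_
    have h3 : (J + 1 + I) * B = (J + 1) * B + I * B := by ring
    linarith
  · rw [hsum, add_sub_cancel_left]
    refine hDb.trans ?_
    have h3 : (J + 1 + I) * ε * B = B * (ε * I) + (J + 1) * (ε * B) := by ring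
    have h4 : 0 ≤ (J + 1) * (ε * B) := by positivity
    linarith

theorem kl {g : E3 → ℝ} (hg : Continuous g) {K : ℝ} (hK : ∀ x, |g x| ≤ K) (x : E3) :
    Tendsto (fun n : ℕ => ∫ y, g y * (3 * (1 / ((n : ℝ) + 1)) ^ 2 * (‖x - y‖ ^ 2 + (1 / ((n : ℝ) + 1)) ^ 2) ^ (-(5/2) : ℝ))) atTop
      (𝓝 (c0 * g x)) := by
  set k : E3 → ℝ := fun s => 3 * (1 + ‖s‖ ^ 2) ^ (-(5/2) : ℝ) with hk
  have hkc : Continuous k := by
    refine continuous_const.mul (Continuous.rpow_const (by fun_prop) fun s => Or.inl ?_)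
    positivity
  have hk0 : ∀ s, 0 ≤ k s := fun s => by simp only [hk]; positivity
  have h1 : Tendsto (fun n : ℕ => ∫ s, g (x - (1 / ((n : ℝ) + 1)) • s) * k s) atTop
      (𝓝 (∫ s, g x * k s)) := by
    refine tendsto_integral_of_dominated_convergence (fun s => K * k s) ?_ ?_ ?_ ?_
    · intro n
      exact ((hg.comp (by fun_prop)).mul hkc).aestronglyMeasurable
    · exact c0_int.const_mul K
    · intro n
      refine Eventually.of_forall fun s => ?_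
      rw [norm_mul, Real.norm_eq_abs, Real.norm_of_nonneg (hk0 s)]
      exact mul_le_mul_of_nonneg_right (hK _) (hk0 s)
    · refine Eventually.of_forall fun s => ?_
      refine Tendsto.mul_const _ ?_
      have h3 : Tendsto (fun n : ℕ => 1 / ((n : ℝ) + 1)) atTop (𝓝 0) :=
        tendsto_one_div_add_atTop_nhds_zero_nat
      have h4 : Tendsto (fun n : ℕ => x - (1 / ((n : ℝ) + 1)) • s) atTop (𝓝 (x - (0 : ℝ) • s)) :=
        (h3.smul_const s).const_sub x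
      rw [zero_smul, sub_zero] at h4
      exact (hg.tendsto x).comp h4
  have h2 : ∫ s, g x * k s = c0 * g x := by
    rw [integral_const_mul, mul_comm]
    rfl
  rw [h2] at h1
  refine h1.congr fun n => ?_
  exact (KLim_scale x (ε := 1 / ((n : ℝ) + 1)) (by positivity)).symm

end Pool.Agent.H16.TU
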