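/-
ROW Ta (MP_09540e_TU). Time regularity of weighted integrals. PROOF. tc: for `t₀ ∈ Ico 0 T` pick `T' ∈ (t₀, T)`; on `Icc 0 T'` the integrand is dominated by `K |Ψ|`; `t ↦ Φ t x` is continuous on Ico 0 T; MeasureTheory.continuousWithinAt_of_dominated (measurability: Φ t is continuous in x, JC slice). tc_S, tc_D, tc_Q, tc_V: `Φ = ‖u‖²`, `gv (u t)`, `‖u‖⁴`,
jointly continuous (js_u, JS_JC, JS_pd, JC_mul, JC_add; ‖u‖² = sum of squares) and bounded on `Icc 0 T'` (uDB: all components in DB 4 with a uniform constant).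
gv_u: the uniform bounds. en_glob: h.energy; `∑ i ‖fderiv (u s) x (e i)‖² = gv (u s) x` (pd_comp: pd i (u_j) = (fderiv u (e i)) j; norm_sq_eq). Since the dissipation is ≥ 0, `∫ ‖u t‖² ≤ ∫ ‖u 0‖²`, and `2 ∫_0^t ∫ gv ≤ ∫ ‖u 0‖²`; gv (u t) is integrable (ba_vf).
-/
import Pool.Agent.H16.TU.Ba

set_option autoImplicit false

open Set Filter Topology MeasureTheory
open scoped ContDiff

namespace Pool.Agent.H16.TU

open Pool.Agent.H16 Pool.Agent.H87.NS Pool.Agent.H72.CC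

theorem tc {T : ℝ} {Φ : ℝ → E3 → ℝ} {Ψ : E3 → ℝ} (hΦ : JC T Φ) (hb : ∀ T' < T, ∃ K : ℝ, ∀ t ∈ Icc 0 T', ∀ x, |Φ t x| ≤ K)
    (hΨ : Continuous Ψ) (hi : Integrable Ψ) : ContinuousOn (fun t => ∫ x, Φ t x * Ψ x) (Ico 0 T) := by
  intro t₀ ht₀
  obtain ⟨K, hK⟩ := hb ((t₀ + T) / 2) (by linarith [ht₀.2])
  have hslice : ∀ t ∈ Ico 0 T, Continuous (Φ t) := by
    intro t ht
    have h1 : ContinuousOn (fun x : E3 => (t, x)) univ := (by fun_prop : Continuous fun x : E3 => (t, x)).continuousOn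
    have h2 := ContinuousOn.comp (g := fun q : ℝ × E3 => Φ q.1 q.2) hΦ h1 (fun x _ => ⟨ht, mem_univ _⟩)
    exact continuousOn_univ.1 h2
  have hlt : ∀ᶠ t in 𝓝[Ico 0 T] t₀, t ∈ Ico 0 T ∧ t ≤ (t₀ + T) / 2 := by
    refine Filter.Eventually.and self_mem_nhdsWithin ?_
    exact nhdsWithin_le_nhds (Iic_mem_nhds (by linarith [ht₀.2]))
  refine continuousWithinAt_of_dominated (bound := fun x => K * |Ψ x|) ?_ ?_ (hi.abs.const_mul K) ?_
  · filter_upwards [hlt] with t ht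
    exact ((hslice t ht.1).mul hΨ).aestronglyMeasurable
  · filter_upwards [hlt] with t ht
    refine ae_of_all _ fun x => ?_
    rw [norm_mul, Real.norm_eq_abs, Real.norm_eq_abs]
    exact mul_le_mul_of_nonneg_right (hK t ⟨ht.1.1, ht.2⟩ x) (abs_nonneg _)
  · refine ae_of_all _ fun x => ?_
    have h1 : ContinuousWithinAt (fun q : ℝ × E3 => Φ q.1 q.2) (Ico 0 T ×ˢ univ) (t₀, x) := hΦ (t₀, x) ⟨ht₀, mem_univ _⟩
    have h2 : ContinuousWithinAt (fun t : ℝ => (t, x)) (Ico 0 T) t₀ :=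
      (by fun_prop : Continuous fun t : ℝ => (t, x)).continuousWithinAt
    have h3 : ContinuousWithinAt (fun t => Φ t x) (Ico 0 T) t₀ :=
      ContinuousWithinAt.comp (g := fun q : ℝ × E3 => Φ q.1 q.2) (f := fun t : ℝ => (t, x)) h1 h2 (fun t ht => ⟨ht, mem_univ _⟩)
    exact h3.mul continuousWithinAt_const

theorem gv_u {T : ℝ} {u : ℝ → E3 → E3} {p : ℝ → E3 → ℝ} (h : IsHInfAxisymNS T u p) {T' : ℝ} (hT' : T' < T) :
    ∃ K : ℝ, 0 ≤ K ∧ ∀ t ∈ Icc 0 T', ∀ x, ‖u t x‖ ≤ K ∧ gv (u t) x ≤ K ∧ (∀ i j, |pd i (fun y => u t y j) x| ≤ K) ∧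
      (∀ i j k, |pd i (pd j (fun y => u t y k)) x| ≤ K) ∧ (∀ j, |lap (fun y => u t y j) x| ≤ K) ∧ |src2 (u t) x| ≤ K := by
  obtain ⟨K₀, hK₀⟩ := uDB h hT'
  have hK1 : K₀ ≤ max K₀ 0 := le_max_left _ _
  have hKn : 0 ≤ max K₀ 0 := le_max_right _ _
  obtain ⟨K, hKdef⟩ : ∃ K, K = max K₀ 0 := ⟨_, rfl⟩
  rw [← hKdef] at hK1 hKn
  have hD : ∀ t ∈ Icc 0 T', ∀ j : Fin 3, DB 4 K (fun x => u t x j) := fun t ht j => DB_mono (hK₀ t ht j) le_rfl hK1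
  refine ⟨3 * K + 9 * K ^ 2, by positivity, fun t ht x => ?_⟩
  have h0 : ∀ j : Fin 3, |u t x j| ≤ K := fun j => (DB_BL (hD t ht j)).1 x
  have h1 : ∀ i j : Fin 3, |pd i (fun y => u t y j) x| ≤ K := fun i j => (DB_BL (DB_pd (n := 3) (hD t ht j) i)).1 x
  have h2 : ∀ i j k : Fin 3, |pd i (pd j (fun y => u t y k)) x| ≤ K :=
    fun i j k => (DB_BL (DB_pd (n := 2) (DB_pd (n := 3) (hD t ht k) j) i)).1 x
  have hp : ∀ i j : Fin 3, pd i (fun y => u t y j) x ^ 2 ≤ K ^ 2 := fun i j => by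
    rw [← sq_abs]; exact pow_le_pow_left₀ (abs_nonneg _) (h1 i j) 2
  have hKK : 0 ≤ K ^ 2 := sq_nonneg K
  refine ⟨?_, ?_, fun i j => (h1 i j).trans (by nlinarith), fun i j k => (h2 i j k).trans (by nlinarith), fun j => ?_, ?_⟩
  · have h3 : ‖u t x‖ ^ 2 ≤ (3 * K) ^ 2 := by
      rw [EuclideanSpace.real_norm_sq_eq, Fin.sum_univ_three]
      have a0 := pow_le_pow_left₀ (abs_nonneg _) (h0 0) 2
      have a1 := pow_le_pow_left₀ (abs_nonneg _) (h0 1) 2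
      have a2 := pow_le_pow_left₀ (abs_nonneg _) (h0 2) 2
      rw [sq_abs] at a0 a1 a2
      nlinarith
    have h4 : ‖u t x‖ ≤ 3 * K := by
      have h5 := abs_le_of_sq_le_sq h3 (by positivity)
      rwa [abs_of_nonneg (norm_nonneg _)] at h5
    linarith
  · unfold gv gsq
    simp only [Fin.sum_univ_three]
    nlinarith [hp 0 0, hp 1 0, hp 2 0, hp 0 1, hp 1 1, hp 2 1, hp 0 2, hp 1 2, hp 2 2]
  · unfold lap
    refine (Finset.abs_sum_le_sum_abs _ _).trans ?_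
    rw [Fin.sum_univ_three]
    nlinarith [h2 0 0 j, h2 1 1 j, h2 2 2 j]
  · unfold src2
    refine (Finset.abs_sum_le_sum_abs _ _).trans ?_
    have h5 : ∀ i ∈ (Finset.univ : Finset (Fin 3)), |∑ j : Fin 3, pd i (fun y => u t y j) x * pd j (fun y => u t y i) x| ≤ 3 * K ^ 2 := by
      intro i _
      refine (Finset.abs_sum_le_sum_abs _ _).trans ?_
      have h6 : ∀ j ∈ (Finset.univ : Finset (Fin 3)), |pd i (fun y => u t y j) x * pd j (fun y => u t y i) x| ≤ K ^ 2 := by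
        intro j _
        rw [abs_mul, pow_two]
        exact mul_le_mul (h1 i j) (h1 j i) (abs_nonneg _) hKn
      refine (Finset.sum_le_card_nsmul _ _ _ h6).trans ?_
      simp
    refine (Finset.sum_le_card_nsmul _ _ _ h5).trans ?_
    simp only [Finset.card_univ, Fintype.card_fin, nsmul_eq_mul, Nat.cast_ofNat]
    nlinarith

theorem vf_u {T : ℝ} {u : ℝ → E3 → E3} {p : ℝ → E3 → ℝ} (h : IsHInfAxisymNS T u p) {t : ℝ} (ht : t ∈ Ico 0 T) : Vf (u t) := by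
  obtain ⟨K, hK⟩ := uDB h ht.2
  exact ⟨(axF_of h.ns ht).smooth, (axF_of h.ns ht).div, K, hK t ⟨ht.1, le_rfl⟩⟩

theorem Ta_gvJC {T : ℝ} {u : ℝ → E3 → E3} {p : ℝ → E3 → ℝ} (h : IsHInfAxisymNS T u p) : JC T (fun t => gv (u t)) := by
  have h1 : ∀ i j : Fin 3, JC T (fun t => pd i (fun y => u t y j)) := fun i j => JS_JC (JS_pd (js_u h.ns j) i)
  have h2 : JC T (fun t x => ∑ j : Fin 3, ∑ i : Fin 3, pd i (fun y => u t y j) x ^ 2) := by
    unfold JC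
    refine continuousOn_finsetSum _ fun j _ => continuousOn_finsetSum _ fun i _ => ?_
    exact ContinuousOn.pow (h1 i j) 2
  exact h2

theorem tc_u {T c : ℝ} {u : ℝ → E3 → E3} {p : ℝ → E3 → ℝ} (h : IsHInfAxisymNS T u p) {Ψ : E3 → ℝ} (w : Wc c Ψ) :
    ContinuousOn (fun t => SS (u t) Ψ) (Ico 0 T) ∧ ContinuousOn (fun t => DD (u t) Ψ) (Ico 0 T) ∧
      ContinuousOn (fun t => QQ (u t) Ψ) (Ico 0 T) := by
  have hu : ContinuousOn (fun q : ℝ × E3 => u q.1 q.2) (Ico 0 T ×ˢ univ) := h.ns.smooth_u.continuousOn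
  have h2 : JC T (fun t x => ‖u t x‖ ^ 2) := hu.norm.pow 2
  have h4 : JC T (fun t x => ‖u t x‖ ^ 4) := hu.norm.pow 4
  refine ⟨tc h2 (fun T' hT' => ?_) w.sm.continuous w.int, tc (Ta_gvJC h) (fun T' hT' => ?_) w.sm.continuous w.int,
    tc h4 (fun T' hT' => ?_) w.sm.continuous w.int⟩
  · obtain ⟨K, hK0, hK⟩ := gv_u h hT'
    refine ⟨K ^ 2, fun t ht x => ?_⟩
    rw [abs_of_nonneg (by positivity)]
    exact pow_le_pow_left₀ (norm_nonneg _) (hK t ht x).1 2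
  · obtain ⟨K, hK0, hK⟩ := gv_u h hT'
    refine ⟨K, fun t ht x => ?_⟩
    rw [abs_of_nonneg (ba_gv (v := u t) x 0 0).1]
    exact (hK t ht x).2.1
  · obtain ⟨K, hK0, hK⟩ := gv_u h hT'
    refine ⟨K ^ 4, fun t ht x => ?_⟩
    rw [abs_of_nonneg (by positivity)]
    exact pow_le_pow_left₀ (norm_nonneg _) (hK t ht x).1 4

theorem Ta_gv_eq {v : E3 → E3} (hv : ContDiff ℝ ∞ v) (x : E3) : ∑ i : Fin 3, ‖fderiv ℝ v x (e i)‖ ^ 2 = gv v x := by
  have h1 : ∀ i : Fin 3, ‖fderiv ℝ v x (e i)‖ ^ 2 = ∑ j : Fin 3, pd i (fun y => v y j) x ^ 2 := by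
    intro i
    rw [EuclideanSpace.real_norm_sq_eq]
    exact Finset.sum_congr rfl fun j _ => by rw [pd_comp hv]
  unfold gv gsq
  rw [Finset.sum_comm]
  exact Finset.sum_congr rfl fun i _ => h1 i

theorem en_glob {T : ℝ} {u : ℝ → E3 → E3} {p : ℝ → E3 → ℝ} (h : IsHInfAxisymNS T u p) {t : ℝ} (ht : t ∈ Ico 0 T) :
    ∫ x, ‖u t x‖ ^ 2 ≤ ∫ x, ‖u 0 x‖ ^ 2 ∧ 2 * ∫ s in (0:ℝ)..t, ∫ x, gv (u s) x ≤ ∫ x, ‖u 0 x‖ ^ 2 := by
  have h1 := h.energy t ht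
  have h2 : ∫ s in (0:ℝ)..t, ∫ x, ∑ i, ‖fderiv ℝ (u s) x (e i)‖ ^ 2 = ∫ s in (0:ℝ)..t, ∫ x, gv (u s) x := by
    refine intervalIntegral.integral_congr fun s hs => ?_
    rw [uIcc_of_le ht.1] at hs
    have hs' : s ∈ Ico 0 T := ⟨hs.1, lt_of_le_of_lt hs.2 ht.2⟩
    refine integral_congr_ae (ae_of_all _ fun x => ?_)
    exact Ta_gv_eq (h.ns.slice hs') x
  rw [h2] at h1
  have h3 : 0 ≤ ∫ x, ‖u t x‖ ^ 2 := integral_nonneg fun x => by positivity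
  have h4 : 0 ≤ ∫ s in (0:ℝ)..t, ∫ x, gv (u s) x :=
    intervalIntegral.integral_nonneg ht.1 fun s _ => integral_nonneg fun x => (ba_gv (v := u s) x 0 0).1
  exact ⟨by linarith, by linarith⟩

end Pool.Agent.H16.TU
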