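/-
ROW Pt (MP_09540e_TU). The time integral of the pressure gradient. PROOF. On `Ioo 0 T`: `pd k (p t) x = - deriv (fun s => u s x k) t - adv (u t x) u_k x + lap u_k x` (ns_comp). So (FTC, u_k jointly smooth) `V_k x = - (u_k(t₂, x) - u_k(t₁, x)) + ∫_{t₁}^{t₂} (lap u_k - adv u u_k) dt`. tI: for `f` with JS T f and bounds DB 1 K for the slices on `Icc 0 t₂`, the function
`x ↦ ∫_{t₁}^{t₂} f t x dt` is C¹ with `pd i (∫ f dt) = ∫ pd i (f t) dt` (H72/GS/ParamInt.lean or hasFDerivAt_integral_of_dominated_of_fderiv_le on `Icc t₁ t₂`; the derivative is continuous by dominated convergence), and it is in `DB 1 ((t₂-t₁)² K + (t₂-t₁) K)`: `(∫ f dt)² ≤ (t₂-t₁) ∫ f² dt` (Cauchy-Schwarz), Tonelli.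
The components u_k are in DB 4 uniformly on Icc 0 t₂ (uDB), products of DB functions are DB (mul lemmas in H87/NS), so `lap u_k - adv u u_k` is in DB 1 uniformly and JS. Hence V_k is C¹ and DB 1. Curl: `pd i V_k = ∫ pd i (pd k p) = ∫ pd k (pd i p)` (tI's derivative formula for f = pd k p, which needs only local bounds: state tI for that; Vort_comm).
Divergence: `∑ pd i V_i = ∫ lap (p t) dt` and for `t ∈ Ioo 0 T`: `lap (p t) x = - src2 (u t) x`: apply pd k to ns_comp and sum: `∑_k pd k deriv_t u_k = deriv_t (div u) = 0` (pd_deriv in Vort.lean), `∑_k pd k lap u_k = lap div u = 0`, `∑_k pd k (adv u u_k) = src2 + adv u (div u) = src2`.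
-/
import Pool.Agent.H16.TU.Ta
import Pool.Agent.H16.TU.Ps

set_option autoImplicit false

open Set Filter Topology MeasureTheory
open scoped ContDiff

namespace Pool.Agent.H16.TU

open Pool.Agent.H16 Pool.Agent.H87.NS Pool.Agent.H72.CC

/-- projection of the time to `[a, b]` -/
private noncomputable def Pt_τ (a b t : ℝ) : ℝ := max a (min b t)

private lemma Pt_τc (a b : ℝ) : Continuous (Pt_τ a b) := by
  unfold Pt_τ
  fun_prop

private lemma Pt_τm {a b : ℝ} (hab : a ≤ b) (t : ℝ) : Pt_τ a b t ∈ Icc a b :=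
  ⟨le_max_left _ _, max_le hab (min_le_left _ _)⟩

private lemma Pt_τe {a b t : ℝ} (ht : t ∈ Icc a b) : Pt_τ a b t = t := by
  unfold Pt_τ
  rw [min_eq_right ht.2, max_eq_right ht.1]

private lemma Pt_fd {T : ℝ} {f : ℝ → E3 → ℝ} (hf : JS T f) {t : ℝ} (ht : t ∈ Ico 0 T) (x : E3) :
    fderiv ℝ (f t) x = (fderivWithin ℝ (fun q : ℝ × E3 => f q.1 q.2) (Ico 0 T ×ˢ univ) (t, x)).comp
      (ContinuousLinearMap.inr ℝ ℝ E3) := by
  have hf' : ContDiffOn ℝ ∞ (fun q : ℝ × E3 => f q.1 q.2) (Ico 0 T ×ˢ univ) := hf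
  have h2 : DifferentiableWithinAt ℝ (fun q : ℝ × E3 => f q.1 q.2) (Ico 0 T ×ˢ univ) (t, x) :=
    (hf'.differentiableOn (by simp)) _ ⟨ht, mem_univ _⟩
  have h3 : HasFDerivWithinAt (fun y : E3 => (t, y)) (ContinuousLinearMap.inr ℝ ℝ E3) univ x :=
    (hasFDerivAt_prodMk_right t x).hasFDerivWithinAt
  have h4 : HasFDerivWithinAt ((fun q : ℝ × E3 => f q.1 q.2) ∘ fun y : E3 => (t, y))
      ((fderivWithin ℝ (fun q : ℝ × E3 => f q.1 q.2) (Ico 0 T ×ˢ univ) (t, x)).comp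
        (ContinuousLinearMap.inr ℝ ℝ E3)) univ x :=
    HasFDerivWithinAt.comp x h2.hasFDerivWithinAt h3 fun y _ => ⟨ht, mem_univ _⟩
  rw [hasFDerivWithinAt_univ] at h4
  exact h4.fderiv

private lemma Pt_fdc {T : ℝ} {f : ℝ → E3 → ℝ} (hf : JS T f) {a b : ℝ} (ha : 0 ≤ a) (hab : a ≤ b) (hb : b < T) :
    Continuous (fun q : E3 × ℝ => fderiv ℝ (f (Pt_τ a b q.2)) q.1) := by
  have hS : UniqueDiffOn ℝ (Ico (0 : ℝ) T ×ˢ (univ : Set E3)) :=
    (uniqueDiffOn_Ico 0 T).prod uniqueDiffOn_univ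
  have hf' : ContDiffOn ℝ ∞ (fun q : ℝ × E3 => f q.1 q.2) (Ico 0 T ×ˢ univ) := hf
  have h1 : ContinuousOn (fderivWithin ℝ (fun q : ℝ × E3 => f q.1 q.2) (Ico 0 T ×ˢ univ))
      (Ico 0 T ×ˢ univ) := hf'.continuousOn_fderivWithin hS (by simp)
  have hm : ∀ t : ℝ, Pt_τ a b t ∈ Ico 0 T := fun t =>
    ⟨ha.trans (Pt_τm hab t).1, (Pt_τm hab t).2.trans_lt hb⟩
  have h2 : Continuous (fun q : E3 × ℝ => fderivWithin ℝ (fun q : ℝ × E3 => f q.1 q.2)
      (Ico 0 T ×ˢ univ) (Pt_τ a b q.2, q.1)) := by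
    refine h1.comp_continuous (((Pt_τc a b).comp continuous_snd).prodMk continuous_fst) fun q => ?_
    exact ⟨hm _, mem_univ _⟩
  have h3 : (fun q : E3 × ℝ => fderiv ℝ (f (Pt_τ a b q.2)) q.1) = fun q : E3 × ℝ =>
      (fderivWithin ℝ (fun q : ℝ × E3 => f q.1 q.2) (Ico 0 T ×ˢ univ) (Pt_τ a b q.2, q.1)).comp
        (ContinuousLinearMap.inr ℝ ℝ E3) := by
    funext q
    exact Pt_fd hf (hm _) q.1
  rw [h3]
  exact h2.clm_comp continuous_const

private lemma Pt_c {T : ℝ} {f : ℝ → E3 → ℝ} (hf : JC T f) {a b : ℝ} (ha : 0 ≤ a) (hab : a ≤ b) (hb : b < T) :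
    Continuous (fun q : E3 × ℝ => f (Pt_τ a b q.2) q.1) := by
  have hm : ∀ t : ℝ, Pt_τ a b t ∈ Ico 0 T := fun t =>
    ⟨ha.trans (Pt_τm hab t).1, (Pt_τm hab t).2.trans_lt hb⟩
  exact ContinuousOn.comp_continuous (f := fun q : E3 × ℝ => (Pt_τ a b q.2, q.1)) hf
    (((Pt_τc a b).comp continuous_snd).prodMk continuous_fst) fun q => ⟨hm _, mem_univ _⟩

private lemma Pt_V {f : ℝ → E3 → ℝ} {a b : ℝ} (hab : a ≤ b) (x : E3) :
    ∫ t in a..b, f t x = ∫ t in a..b, f (Pt_τ a b t) x := by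
  refine intervalIntegral.integral_congr fun t ht => ?_
  rw [uIcc_of_le hab] at ht
  simp only [Pt_τe ht]

private lemma Pt_hfd {T : ℝ} {f : ℝ → E3 → ℝ} (hf : JS T f) {a b : ℝ} (ha : 0 ≤ a) (hab : a ≤ b)
    (hb : b < T) (x : E3) :
    HasFDerivAt (fun x => ∫ t in a..b, f t x) (∫ t in a..b, fderiv ℝ (f (Pt_τ a b t)) x) x := by
  have e : (fun x => ∫ t in a..b, f t x) = fun x => ∫ t in a..b, f (Pt_τ a b t) x :=
    funext fun x => Pt_V hab x
  rw [e]
  have hc := Pt_c (JS_JC hf) ha hab hb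
  have hd := Pt_fdc hf ha hab hb
  have hm : ∀ t : ℝ, Pt_τ a b t ∈ Ico 0 T := fun t =>
    ⟨ha.trans (Pt_τm hab t).1, (Pt_τm hab t).2.trans_lt hb⟩
  have hcomp : IsCompact (Metric.closedBall x 1 ×ˢ uIcc a b) :=
    (isCompact_closedBall x 1).prod isCompact_uIcc
  obtain ⟨C, hC⟩ := hcomp.exists_bound_of_continuousOn hd.continuousOn
  refine intervalIntegral.hasFDerivAt_integral_of_dominated_of_fderiv_le (𝕜 := ℝ)
    (F := fun x t => f (Pt_τ a b t) x) (F' := fun x t => fderiv ℝ (f (Pt_τ a b t)) x)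
    (bound := fun _ => C) (s := Metric.closedBall x 1) (Metric.closedBall_mem_nhds x one_pos)
    ?_ ?_ ?_ ?_ ?_ ?_
  · refine Eventually.of_forall fun y => ?_
    exact (hc.comp (Continuous.prodMk_right y)).aestronglyMeasurable
  · exact (hc.comp (Continuous.prodMk_right x)).intervalIntegrable _ _
  · exact (hd.comp (Continuous.prodMk_right x)).aestronglyMeasurable
  · refine Eventually.of_forall fun t ht y hy => ?_
    exact hC (y, t) ⟨hy, uIoc_subset_uIcc ht⟩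
  · exact intervalIntegrable_const
  · refine Eventually.of_forall fun t _ y _ => ?_
    exact ((JS_slice hf (hm t)).differentiable (by simp) y).hasFDerivAt

private lemma Pt_c1 {T : ℝ} {f : ℝ → E3 → ℝ} (hf : JS T f) {a b : ℝ} (ha : 0 ≤ a) (hab : a ≤ b)
    (hb : b < T) : ContDiff ℝ 1 (fun x => ∫ t in a..b, f t x) := by
  rw [contDiff_one_iff_fderiv]
  refine ⟨fun x => (Pt_hfd hf ha hab hb x).differentiableAt, ?_⟩
  have e : fderiv ℝ (fun x => ∫ t in a..b, f t x) = fun x => ∫ t in a..b, fderiv ℝ (f (Pt_τ a b t)) x :=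
    funext fun x => (Pt_hfd hf ha hab hb x).fderiv
  rw [e]
  exact intervalIntegral.continuous_parametric_intervalIntegral_of_continuous'
    (f := fun x t => fderiv ℝ (f (Pt_τ a b t)) x) (Pt_fdc hf ha hab hb) a b

private lemma Pt_pd {T : ℝ} {f : ℝ → E3 → ℝ} (hf : JS T f) {a b : ℝ} (ha : 0 ≤ a) (hab : a ≤ b)
    (hb : b < T) (i : Fin 3) (x : E3) :
    pd i (fun x => ∫ t in a..b, f t x) x = ∫ t in a..b, pd i (f t) x := by
  rw [Pt_V (f := fun t => pd i (f t)) hab x]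
  change fderiv ℝ (fun x => ∫ t in a..b, f t x) x (e i) = _
  rw [(Pt_hfd hf ha hab hb x).fderiv]
  have h1 : IntervalIntegrable (fun t => fderiv ℝ (f (Pt_τ a b t)) x) volume a b :=
    ((Pt_fdc hf ha hab hb).comp (Continuous.prodMk_right x)).intervalIntegrable _ _
  rw [ContinuousLinearMap.intervalIntegral_apply h1]
  rfl

private lemma Pt_cs {g : ℝ → ℝ} (hg : Continuous g) {a b : ℝ} (hab : a ≤ b) :
    (∫ t in a..b, g t) ^ 2 ≤ (b - a) * ∫ t in a..b, g t ^ 2 := by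
  rcases hab.eq_or_lt with rfl | hlt
  · simp
  have hb : 0 < b - a := sub_pos.2 hlt
  obtain ⟨c, hc⟩ : ∃ c : ℝ, c = (∫ t in a..b, g t) / (b - a) := ⟨_, rfl⟩
  have h1 : 0 ≤ ∫ t in a..b, (g t - c) ^ 2 :=
    intervalIntegral.integral_nonneg hab fun t _ => sq_nonneg _
  have h2 : ∫ t in a..b, (g t - c) ^ 2 = (∫ t in a..b, g t ^ 2) - 2 * c * (∫ t in a..b, g t) +
      c ^ 2 * (b - a) := by
    have e : ∀ t, (g t - c) ^ 2 = g t ^ 2 - 2 * c * g t + c ^ 2 := fun t => by ring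
    simp only [e]
    rw [intervalIntegral.integral_add, intervalIntegral.integral_sub,
      intervalIntegral.integral_const_mul, intervalIntegral.integral_const, smul_eq_mul]
    · ring
    · exact (hg.pow 2).intervalIntegrable _ _
    · exact (continuous_const.mul hg).intervalIntegrable _ _
    · exact ((hg.pow 2).sub (continuous_const.mul hg)).intervalIntegrable _ _
    · exact intervalIntegrable_const
  have h3 : c * (b - a) = ∫ t in a..b, g t := by
    rw [hc]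
    field_simp
  rw [h2, ← h3] at h1
  rw [← h3]
  nlinarith only [hab, h1]

private lemma Pt_BL {T : ℝ} {f : ℝ → E3 → ℝ} (hf : JC T f) {a b K : ℝ} (ha : 0 ≤ a) (hab : a ≤ b)
    (hb : b < T) (h : ∀ t ∈ Icc a b, BL K (f t)) :
    BL ((b - a) * K + (b - a) ^ 2 * K) (fun x => ∫ t in a..b, f t x) := by
  have hK : 0 ≤ K := BL_nonneg (h a ⟨le_refl _, hab⟩)
  have hba : 0 ≤ b - a := sub_nonneg.2 hab
  have hV : ∀ x, ∫ t in a..b, f t x = ∫ t in a..b, f (Pt_τ a b t) x := fun x => Pt_V hab x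
  have hc := Pt_c hf ha hab hb
  have hVc : Continuous (fun x => ∫ t in a..b, f t x) := by
    have e : (fun x => ∫ t in a..b, f t x) = fun x => ∫ t in a..b, f (Pt_τ a b t) x := funext hV
    rw [e]
    exact intervalIntegral.continuous_parametric_intervalIntegral_of_continuous'
      (f := fun x t => f (Pt_τ a b t) x) hc a b
  have hF : Integrable (fun q : ℝ × E3 => f (Pt_τ a b q.1) q.2 ^ 2)
      ((volume.restrict (Ioc a b)).prod volume) := by
    have hm : AEStronglyMeasurable (fun q : ℝ × E3 => f (Pt_τ a b q.1) q.2 ^ 2)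
        ((volume.restrict (Ioc a b)).prod volume) :=
      ((hc.comp (continuous_snd.prodMk continuous_fst)).pow 2).aestronglyMeasurable
    rw [integrable_prod_iff hm]
    refine ⟨Eventually.of_forall fun t => (h _ (Pt_τm hab t)).2.1, ?_⟩
    refine Integrable.of_bound (C := K) hm.norm.integral_prod_right' (Eventually.of_forall fun t => ?_)
    have e : ∀ y, ‖f (Pt_τ a b t) y ^ 2‖ = f (Pt_τ a b t) y ^ 2 := fun y => by
      rw [Real.norm_eq_abs, abs_of_nonneg (sq_nonneg _)]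
    simp only [e]
    rw [Real.norm_eq_abs, abs_of_nonneg (integral_nonneg fun y => sq_nonneg _)]
    exact (h _ (Pt_τm hab t)).2.2
  have hG : Integrable (fun x => ∫ t in a..b, f (Pt_τ a b t) x ^ 2) := by
    have := hF.integral_prod_right
    refine this.congr (Eventually.of_forall fun x => ?_)
    simp only
    rw [intervalIntegral.integral_of_le hab]
  have hcsx : ∀ x, (∫ t in a..b, f t x) ^ 2 ≤ (b - a) * ∫ t in a..b, f (Pt_τ a b t) x ^ 2 := by
    intro x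
    rw [hV x]
    exact Pt_cs (hc.comp (Continuous.prodMk_right x)) hab
  have hI : Integrable (fun x => (∫ t in a..b, f t x) ^ 2) := by
    refine Integrable.mono' (hG.const_mul (b - a)) (hVc.pow 2).aestronglyMeasurable
      (Eventually.of_forall fun x => ?_)
    rw [Real.norm_eq_abs, abs_of_nonneg (sq_nonneg _)]
    exact hcsx x
  have hGv : ∫ x, ∫ t in a..b, f (Pt_τ a b t) x ^ 2 ≤ (b - a) * K := by
    have e : ∫ x, ∫ t in a..b, f (Pt_τ a b t) x ^ 2 =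
        ∫ t in Ioc a b, ∫ x, f (Pt_τ a b t) x ^ 2 := by
      have h1 := integral_integral_swap (f := fun (t : ℝ) (x : E3) => f (Pt_τ a b t) x ^ 2) hF
      rw [h1]
      refine integral_congr_ae (Eventually.of_forall fun x => ?_)
      simp only
      rw [intervalIntegral.integral_of_le hab]
    rw [e]
    have h2 : ∫ t in Ioc a b, ∫ x, f (Pt_τ a b t) x ^ 2 ≤ ∫ t in Ioc a b, K := by
      refine integral_mono hF.integral_prod_left (integrable_const K) fun t => ?_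
      exact (h _ (Pt_τm hab t)).2.2
    refine h2.trans (le_of_eq ?_)
    rw [integral_const, smul_eq_mul]
    simp [Measure.real, hba]
  have h0 : 0 ≤ (b - a) * K := mul_nonneg hba hK
  have h0' : 0 ≤ (b - a) ^ 2 * K := mul_nonneg (sq_nonneg _) hK
  refine ⟨fun x => ?_, hI, ?_⟩
  · have h3 : ‖∫ t in a..b, f t x‖ ≤ K * |b - a| := by
      refine intervalIntegral.norm_integral_le_of_norm_le_const fun t ht => ?_
      rw [uIoc_of_le hab] at ht
      exact (h t ⟨ht.1.le, ht.2⟩).1 x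
    rw [Real.norm_eq_abs, abs_of_nonneg hba] at h3
    linarith
  · calc ∫ x, (∫ t in a..b, f t x) ^ 2 ≤ ∫ x, (b - a) * ∫ t in a..b, f (Pt_τ a b t) x ^ 2 :=
          integral_mono hI (hG.const_mul _) hcsx
      _ = (b - a) * ∫ x, ∫ t in a..b, f (Pt_τ a b t) x ^ 2 := integral_const_mul _ _
      _ ≤ (b - a) * ((b - a) * K) := mul_le_mul_of_nonneg_left hGv hba
      _ ≤ _ := by
        have : (b - a) * ((b - a) * K) = (b - a) ^ 2 * K := by ring
        rw [this]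
        linarith

private lemma Pt_DB {T : ℝ} {f : ℝ → E3 → ℝ} (hf : JS T f) {a b K : ℝ} (ha : 0 ≤ a) (hab : a ≤ b)
    (hb : b < T) (h : ∀ t ∈ Icc a b, DB 1 K (f t)) :
    DB 1 ((b - a) * K + (b - a) ^ 2 * K) (fun x => ∫ t in a..b, f t x) := by
  refine ⟨Pt_BL (JS_JC hf) ha hab hb fun t ht => (h t ht).1, fun i => ?_⟩
  have e : pd i (fun x => ∫ t in a..b, f t x) = fun x => ∫ t in a..b, pd i (f t) x :=
    funext fun x => Pt_pd hf ha hab hb i x
  rw [e]
  exact Pt_BL (JS_JC (JS_pd hf i)) ha hab hb fun t ht => (h t ht).2 i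

private lemma Pt_pd_add {f g : E3 → ℝ} (hf : ContDiff ℝ 1 f) (hg : ContDiff ℝ 1 g) (i : Fin 3) :
    pd i (fun x => f x + g x) = fun x => pd i f x + pd i g x := by
  funext x
  simp only [pd]
  rw [fderiv_fun_add (hf.differentiable one_ne_zero x) (hg.differentiable one_ne_zero x)]
  rfl

private lemma Pt_add {K K' : ℝ} {f g : E3 → ℝ} (hf : ContDiff ℝ 1 f) (hg : ContDiff ℝ 1 g)
    (h : DB 1 K f) (h' : DB 1 K' g) : DB 1 (2 * (K + K')) (fun x => f x + g x) := by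
  refine ⟨add_BL hf.continuous hg.continuous h.1 h'.1, fun i => ?_⟩
  rw [Pt_pd_add hf hg]
  exact add_BL (pd_cont hf i) (pd_cont hg i) (h.2 i) (h'.2 i)

private lemma Pt_sub {K K' : ℝ} {f g : E3 → ℝ} (hf : ContDiff ℝ 1 f) (hg : ContDiff ℝ 1 g)
    (h : DB 1 K f) (h' : DB 1 K' g) : DB 1 (2 * (K + K')) (fun x => f x - g x) := by
  have := Pt_add hf hg.neg h (Bds1_neg_DB h')
  simpa only [sub_eq_add_neg] using this

/-- the part of the momentum equation without pressure and time derivative -/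
private noncomputable def Pt_W (u : ℝ → E3 → E3) (k : Fin 3) (t : ℝ) (x : E3) : ℝ :=
  (pd 0 (pd 0 (fun y => u t y k)) x + pd 1 (pd 1 (fun y => u t y k)) x + pd 2 (pd 2 (fun y => u t y k)) x) -
    (u t x 0 * pd 0 (fun y => u t y k) x + u t x 1 * pd 1 (fun y => u t y k) x +
      u t x 2 * pd 2 (fun y => u t y k) x)

private lemma Pt_WJS {T : ℝ} {u : ℝ → E3 → E3} {p : ℝ → E3 → ℝ} (h : IsAxisymNS T u p) (k : Fin 3) :
    JS T (Pt_W u k) := by
  have hu : ∀ j : Fin 3, JS T (fun t x => u t x j) := js_u h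
  have h1 : ∀ j : Fin 3, JS T (fun t => pd j (fun y => u t y k)) := fun j => JS_pd (hu k) j
  have h2 : ∀ j : Fin 3, JS T (fun t => pd j (pd j (fun y => u t y k))) := fun j => JS_pd (h1 j) j
  exact JS_sub (JS_add (JS_add (h2 0) (h2 1)) (h2 2))
    (JS_add (JS_add (JS_mul (hu 0) (h1 0)) (JS_mul (hu 1) (h1 1))) (JS_mul (hu 2) (h1 2)))

private lemma Pt_WDB {T : ℝ} {u : ℝ → E3 → E3} {p : ℝ → E3 → ℝ} (h : IsHInfAxisymNS T u p) {T' : ℝ}
    (hT' : T' < T) : ∃ K : ℝ, ∀ t ∈ Icc 0 T', ∀ k, DB 1 K (Pt_W u k t) := by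
  obtain ⟨K, hK⟩ := uDB h hT'
  obtain ⟨K2, hK2⟩ := mul_DB K K
  refine ⟨2 * (2 * (2 * (K + K) + K) + 2 * (2 * (K2 + K2) + K2)), fun t ht k => ?_⟩
  have ht' : t ∈ Ico 0 T := ⟨ht.1, ht.2.trans_lt hT'⟩
  have hs : ∀ j : Fin 3, ContDiff ℝ ∞ (fun y => u t y j) := fun j => Vort_coord (h.ns.slice ht') j
  have hs1 : ∀ j : Fin 3, ContDiff ℝ ∞ (pd j (fun y => u t y k)) := fun j => pd_smooth (hs k) j
  have hs2 : ∀ j : Fin 3, ContDiff ℝ ∞ (pd j (pd j (fun y => u t y k))) := fun j => pd_smooth (hs1 j) j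
  have c0 : ∀ j : Fin 3, ContDiff ℝ 1 (fun y => u t y j) := fun j => (hs j).of_le (by simp)
  have c1 : ∀ j : Fin 3, ContDiff ℝ 1 (pd j (fun y => u t y k)) := fun j => (hs1 j).of_le (by simp)
  have c2 : ∀ j : Fin 3, ContDiff ℝ 1 (pd j (pd j (fun y => u t y k))) := fun j => (hs2 j).of_le (by simp)
  have b0 : ∀ j : Fin 3, DB 1 K (fun y => u t y j) := fun j => DB_mono (hK t ht j) (by norm_num) le_rfl
  have b1 : ∀ j : Fin 3, DB 1 K (pd j (fun y => u t y k)) := fun j =>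
    DB_mono (DB_pd (hK t ht k) j) (by norm_num) le_rfl
  have b2 : ∀ j : Fin 3, DB 1 K (pd j (pd j (fun y => u t y k))) := fun j =>
    DB_mono (DB_pd (DB_pd (hK t ht k) j) j) (by norm_num) le_rfl
  have bm : ∀ j : Fin 3, DB 1 K2 (fun y => u t y j * pd j (fun y => u t y k) y) := fun j =>
    hK2 _ _ (c0 j) (c1 j) (b0 j) (b1 j)
  have cm : ∀ j : Fin 3, ContDiff ℝ 1 (fun y => u t y j * pd j (fun y => u t y k) y) := fun j =>
    (c0 j).mul (c1 j)
  exact Pt_sub (((c2 0).add (c2 1)).add (c2 2)) (((cm 0).add (cm 1)).add (cm 2))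
    (Pt_add ((c2 0).add (c2 1)) (c2 2) (Pt_add (c2 0) (c2 1) (b2 0) (b2 1)) (b2 2))
    (Pt_add ((cm 0).add (cm 1)) (cm 2) (Pt_add (cm 0) (cm 1) (bm 0) (bm 1)) (bm 2))

private lemma Pt_ct {T : ℝ} {f : ℝ → E3 → ℝ} (hf : JC T f) {a b : ℝ} (ha : 0 ≤ a) (hab : a ≤ b)
    (hb : b < T) (x : E3) : IntervalIntegrable (fun t => f t x) volume a b := by
  refine ContinuousOn.intervalIntegrable ?_
  rw [uIcc_of_le hab]
  exact ContinuousOn.comp (g := fun q : ℝ × E3 => f q.1 q.2) (f := fun t => (t, x)) hf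
    (by fun_prop) fun t ht => ⟨⟨ha.trans ht.1, ht.2.trans_lt hb⟩, mem_univ _⟩

private lemma Pt_eq {T : ℝ} {u : ℝ → E3 → E3} {p : ℝ → E3 → ℝ} (h : IsAxisymNS T u p) {t₁ t₂ : ℝ}
    (h1 : 0 < t₁) (h12 : t₁ ≤ t₂) (h2 : t₂ < T) (k : Fin 3) (x : E3) :
    ∫ t in t₁..t₂, pd k (p t) x = (∫ t in t₁..t₂, Pt_W u k t x) - (u t₂ x k - u t₁ x k) := by
  have hp : JS T p := h.smooth_p
  have i1 := Pt_ct (JS_JC (Pt_WJS h k)) h1.le h12 h2 x
  have i2 := Pt_ct (JS_JC (JS_pd hp k)) h1.le h12 h2 x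
  have h3 : ∫ t in t₁..t₂, (Pt_W u k t x - pd k (p t) x) = u t₂ x k - u t₁ x k := by
    refine intervalIntegral.integral_eq_sub_of_hasDerivAt (f := fun t => u t x k) (fun t ht => ?_) (i1.sub i2)
    rw [uIcc_of_le h12] at ht
    have ht' : t ∈ Ioo 0 T := ⟨h1.trans_le ht.1, ht.2.trans_lt h2⟩
    have h4 := Vort_time (Vort_JSc h k) ht' x
    have h5 := ns_comp h ht' x k
    rw [h4.deriv] at h5
    have e : Pt_W u k t x - pd k (p t) x =
        fderiv ℝ (fun q : ℝ × E3 => u q.1 q.2 k) (t, x) (1, 0) := by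
      simp only [adv, lap, Fin.sum_univ_three] at h5
      unfold Pt_W
      linarith only [h5]
    rw [e]
    exact h4
  rw [intervalIntegral.integral_sub i1 i2] at h3
  linarith

private lemma Pt_three {g0 g1 g2 : E3 → ℝ} (h0 : ContDiff ℝ ∞ g0) (h1 : ContDiff ℝ ∞ g1)
    (h2 : ContDiff ℝ ∞ g2) (h : ∀ y, g0 y + g1 y + g2 y = 0) (m : Fin 3) (y : E3) :
    pd m g0 y + pd m g1 y + pd m g2 y = 0 := by
  have d0 := ((h0.differentiable (by simp)) y).hasFDerivAt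
  have d1 := ((h1.differentiable (by simp)) y).hasFDerivAt
  have d2 := ((h2.differentiable (by simp)) y).hasFDerivAt
  have d := (d0.add d1).add d2
  have hfe : (g0 + g1 + g2) = fun _ => (0 : ℝ) := funext h
  have hz : HasFDerivAt (g0 + g1 + g2) (0 : E3 →L[ℝ] ℝ) y := by
    rw [hfe]
    exact hasFDerivAt_const _ _
  have h3 := d.unique hz
  have h4 := congrArg (fun L : E3 →L[ℝ] ℝ => L (e m)) h3
  simpa [pd] using h4

private lemma Pt_src {T : ℝ} {u : ℝ → E3 → E3} {p : ℝ → E3 → ℝ} (h : IsAxisymNS T u p) {t : ℝ}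
    (ht : t ∈ Ioo 0 T) (x : E3) : ∑ i : Fin 3, pd i (pd i (p t)) x = - src2 (u t) x := by
  have ht' : t ∈ Ico 0 T := ⟨ht.1.le, ht.2⟩
  have hs : ∀ m : Fin 3, ContDiff ℝ ∞ (fun y => u t y m) := fun m => Vort_coord (h.slice ht') m
  have hs1 : ∀ m : Fin 3, ContDiff ℝ ∞ (pd m (fun y => u t y m)) := fun m => pd_smooth (hs m) m
  have hdiv : ∀ s ∈ Ico 0 T, ∀ y, pd 0 (fun z => u s z 0) y + pd 1 (fun z => u s z 1) y +
      pd 2 (fun z => u s z 2) y = 0 := by
    intro s hs y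
    have h1 := h.divergence_free s hs y
    rw [pd_comp (h.slice hs), pd_comp (h.slice hs), pd_comp (h.slice hs)]
    rw [Fin.sum_univ_three] at h1
    exact h1
  have z1 : ∀ m y, pd m (pd 0 (fun z => u t z 0)) y + pd m (pd 1 (fun z => u t z 1)) y +
      pd m (pd 2 (fun z => u t z 2)) y = 0 := fun m y =>
    Pt_three (hs1 0) (hs1 1) (hs1 2) (hdiv t ht') m y
  have z2 : ∀ m y, pd m (pd m (pd 0 (fun z => u t z 0))) y + pd m (pd m (pd 1 (fun z => u t z 1))) y +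
      pd m (pd m (pd 2 (fun z => u t z 2))) y = 0 := fun m y =>
    Pt_three (pd_smooth (hs1 0) m) (pd_smooth (hs1 1) m) (pd_smooth (hs1 2) m) (z1 m) m y
  have z0 : deriv (fun s => pd 0 (fun y => u s y 0) x) t + deriv (fun s => pd 1 (fun y => u s y 1) x) t +
      deriv (fun s => pd 2 (fun y => u s y 2) x) t = 0 := by
    have d0 := Vort_time (JS_pd (Vort_JSc h 0) 0) ht x
    have d1 := Vort_time (JS_pd (Vort_JSc h 1) 1) ht x
    have d2 := Vort_time (JS_pd (Vort_JSc h 2) 2) ht x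
    have d := (d0.add d1).add d2
    have hz : HasDerivAt ((fun s => pd 0 (fun y => u s y 0) x) + (fun s => pd 1 (fun y => u s y 1) x) +
        fun s => pd 2 (fun y => u s y 2) x) 0 t := by
      refine (hasDerivAt_const t (0 : ℝ)).congr_of_eventuallyEq ?_
      filter_upwards [Ico_mem_nhds ht.1 ht.2] with s hs using hdiv s hs x
    rw [d0.deriv, d1.deriv, d2.deriv]
    exact d.unique hz
  have k0 := Vort_key h ht x 0 0
  have k1 := Vort_key h ht x 1 1
  have k2 := Vort_key h ht x 2 2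
  rw [Fin.sum_univ_three, k0, k1, k2]
  unfold src2 lap
  simp only [Fin.sum_univ_three]
  have a0 := z1 0 x
  have a1 := z1 1 x
  have a2 := z1 2 x
  have b0 := z2 0 x
  have b1 := z2 1 x
  have b2 := z2 2 x
  linear_combination (-1) * z0 - u t x 0 * a0 - u t x 1 * a1 - u t x 2 * a2 + b0 + b1 + b2

theorem pT {T : ℝ} {u : ℝ → E3 → E3} {p : ℝ → E3 → ℝ} (h : IsHInfAxisymNS T u p) {t₁ t₂ : ℝ} (h1 : 0 < t₁) (h12 : t₁ ≤ t₂) (h2 : t₂ < T) :
    (∀ k : Fin 3, ContDiff ℝ 1 (fun x => ∫ t in t₁..t₂, pd k (p t) x)) ∧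
    (∃ K : ℝ, ∀ k : Fin 3, DB 1 K (fun x => ∫ t in t₁..t₂, pd k (p t) x)) ∧
    (∀ i k x, pd i (fun x => ∫ t in t₁..t₂, pd k (p t) x) x = pd k (fun x => ∫ t in t₁..t₂, pd i (p t) x) x) ∧
    ∀ x, ∑ i : Fin 3, pd i (fun x => ∫ t in t₁..t₂, pd i (p t) x) x = - ∫ t in t₁..t₂, src2 (u t) x := by
  have hp : JS T p := h.ns.smooth_p
  have hpk : ∀ k : Fin 3, JS T (fun t => pd k (p t)) := fun k => JS_pd hp k
  have hI : ∀ t ∈ Icc t₁ t₂, t ∈ Ioo 0 T := fun t ht => ⟨h1.trans_le ht.1, ht.2.trans_lt h2⟩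
  refine ⟨fun k => Pt_c1 (hpk k) h1.le h12 h2, ?_, fun i k x => ?_, fun x => ?_⟩
  · obtain ⟨K, hK⟩ := Pt_WDB h h2
    obtain ⟨K0, hK0⟩ := uDB h h2
    refine ⟨2 * (((t₂ - t₁) * K + (t₂ - t₁) ^ 2 * K) + 2 * (K0 + K0)), fun k => ?_⟩
    have e : (fun x => ∫ t in t₁..t₂, pd k (p t) x) = fun x => (∫ t in t₁..t₂, Pt_W u k t x) -
        (u t₂ x k - u t₁ x k) := funext fun x => Pt_eq h.ns h1 h12 h2 k x
    rw [e]
    have hJ := Pt_WJS h.ns k
    have hD := Pt_DB hJ h1.le h12 h2 (K := K) fun t ht => hK t ⟨h1.le.trans ht.1, ht.2⟩ k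
    have m1 : t₁ ∈ Icc 0 t₂ := ⟨h1.le, h12⟩
    have m2 : t₂ ∈ Icc 0 t₂ := ⟨h1.le.trans h12, le_rfl⟩
    have c1 : ContDiff ℝ 1 (fun y => u t₁ y k) :=
      (Vort_coord (h.ns.slice ⟨h1.le, h12.trans_lt h2⟩) k).of_le (by simp)
    have c2 : ContDiff ℝ 1 (fun y => u t₂ y k) :=
      (Vort_coord (h.ns.slice ⟨h1.le.trans h12, h2⟩) k).of_le (by simp)
    have b1 : DB 1 K0 (fun y => u t₁ y k) := DB_mono (hK0 _ m1 k) (by norm_num) le_rfl
    have b2 : DB 1 K0 (fun y => u t₂ y k) := DB_mono (hK0 _ m2 k) (by norm_num) le_rfl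
    exact Pt_sub (Pt_c1 hJ h1.le h12 h2) (c2.sub c1) hD (Pt_sub c2 c1 b2 b1)
  · rw [Pt_pd (hpk k) h1.le h12 h2, Pt_pd (hpk i) h1.le h12 h2]
    refine intervalIntegral.integral_congr fun t ht => ?_
    rw [uIcc_of_le h12] at ht
    have ht' := hI t ht
    exact congrFun (Vort_comm (h.ns.slice_p ⟨ht'.1.le, ht'.2⟩) i k) x
  · have e : ∀ i : Fin 3, pd i (fun x => ∫ t in t₁..t₂, pd i (p t) x) x =
        ∫ t in t₁..t₂, pd i (pd i (p t)) x := fun i => Pt_pd (hpk i) h1.le h12 h2 i x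
    simp only [e]
    rw [← intervalIntegral.integral_finsetSum
      (fun i _ => Pt_ct (JS_JC (JS_pd (hpk i) i)) h1.le h12 h2 x), ← intervalIntegral.integral_neg]
    refine intervalIntegral.integral_congr fun t ht => ?_
    rw [uIcc_of_le h12] at ht
    exact Pt_src h.ns (hI t ht) x

end Pool.Agent.H16.TU
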