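/-
ROW Pv (MP_09540e_TU). Curl free fields. PROOF. By MK_div (H87/NS/KInt.lean) `3 ε² (‖z‖²+ε²)^(-5/2) = ∑_i pd i (MK ε i) z`. With `η_i y = MK ε i (x - y)` (DB 1: MK_DB and KSym_trBL / translation as in KId.lean), `pd i η_i y = - (pd i (MK ε i)) (x - y)` (KId_pd). So `∫ V_k · (kernel) = - ∑_i ∫ V_k pd i η_i = ∑_i ∫ pd i V_k η_i` (ibp, IBP.lean)
`= ∑_i ∫ pd k V_i η_i` (hc) `= - ∑_i ∫ V_i pd k η_i = ∑_i ∫ V_i (pd k (MK ε i))(x - y) = ∑_i ∫ V_i (pd i (MK ε k))(x-y)` (MK_sym) `= - ∑_i ∫ V_i pd i η_k = ∑_i ∫ pd i V_i η_k = - ∫ F η_k`. Compare the proof of kernel_identity in H87/NS/KId.lean, which can be copied.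
-/
import Pool.Agent.H16.TU.Defs
import Pool.Agent.H87.NS.KId

set_option autoImplicit false

open Set Filter Topology MeasureTheory
open scoped ContDiff

namespace Pool.Agent.H16.TU

open Pool.Agent.H16 Pool.Agent.H87.NS Pool.Agent.H72.CC

theorem pV {V : Fin 3 → E3 → ℝ} {F : E3 → ℝ} {K : ℝ} (hV : ∀ k, ContDiff ℝ 1 (V k)) (hK : ∀ k, DB 1 K (V k))
    (hc : ∀ i k x, pd i (V k) x = pd k (V i) x) (hd : ∀ x, ∑ i : Fin 3, pd i (V i) x = - F x) {ε : ℝ} (hε : 0 < ε) (k : Fin 3) (x : E3) :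
    ∫ y, V k y * (3 * ε ^ 2 * (‖x - y‖ ^ 2 + ε ^ 2) ^ (-(5/2) : ℝ)) = - ∫ y, MK ε k (x - y) * F y := by
  have hM : ∀ i : Fin 3, ContDiff ℝ ∞ (fun z => MK ε i (x - z)) := fun i =>
    (MK_smooth hε i).comp (contDiff_const.sub contDiff_id)
  have hM1 : ∀ i : Fin 3, ContDiff ℝ 1 (fun z => MK ε i (x - z)) := fun i =>
    (hM i).of_le (by simp)
  have hMD : ∀ i : Fin 3, ∃ K, DB 1 K (fun z => MK ε i (x - z)) := by
    intro i
    obtain ⟨K', hK'⟩ := MK_DB hε i
    exact ⟨K', KId_DB (MK_smooth hε i) hK' x⟩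
  choose KM hKM using hMD
  have hMp : ∀ (i k : Fin 3) (y : E3),
      pd k (fun z => MK ε i (x - z)) y = - pd k (MK ε i) (x - y) :=
    fun i k y => KId_pd (MK_smooth hε i) x k y
  -- integrability
  have int1 : ∀ (j i k : Fin 3), Integrable (fun y => V j y * pd k (fun z => MK ε i (x - z)) y) :=
    fun j i k => BL_mul (hV j).continuous (pd_cont (hM1 i) k) (hK j).1 ((hKM i).2 k)
  have int2 : ∀ (j i k : Fin 3), Integrable (fun y => pd k (V j) y * MK ε i (x - y)) :=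
    fun j i k => BL_mul (pd_cont (hV j) k) (hM i).continuous ((hK j).2 k) (hKM i).1
  -- integration by parts
  have hib : ∀ (j i k : Fin 3), ∫ y, V j y * pd k (fun z => MK ε i (x - z)) y =
      - ∫ y, pd k (V j) y * MK ε i (x - y) :=
    fun j i k => ibp (hV j) (hM1 i) (hK j) (hKM i) k
  -- the left side
  have hL : ∫ y, V k y * (3 * ε ^ 2 * (‖x - y‖ ^ 2 + ε ^ 2) ^ (-(5/2) : ℝ)) =
      (∫ y, pd 0 (V k) y * MK ε 0 (x - y)) +
      (∫ y, pd 1 (V k) y * MK ε 1 (x - y)) +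
      (∫ y, pd 2 (V k) y * MK ε 2 (x - y)) := by
    have h1 : ∀ y, V k y * (3 * ε ^ 2 * (‖x - y‖ ^ 2 + ε ^ 2) ^ (-(5/2) : ℝ)) =
        -(V k y * pd 0 (fun z => MK ε 0 (x - z)) y) +
        -(V k y * pd 1 (fun z => MK ε 1 (x - z)) y) +
        -(V k y * pd 2 (fun z => MK ε 2 (x - z)) y) := by
      intro y
      rw [← MK_div hε (x - y), Fin.sum_univ_three, hMp, hMp, hMp]
      ring
    simp_rw [h1]
    have n : ∀ j i k : Fin 3,
        Integrable (fun y => -(V j y * pd k (fun z => MK ε i (x - z)) y)) :=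
      fun j i k => (int1 j i k).neg
    rw [KId_add3 (n k 0 0) (n k 1 1) (n k 2 2), integral_neg, integral_neg, integral_neg,
      hib, hib, hib, neg_neg, neg_neg, neg_neg]
  have hs : ∀ i : Fin 3, ∫ y, pd i (V k) y * MK ε i (x - y) =
      ∫ y, pd i (V i) y * MK ε k (x - y) := by
    intro i
    have h1 := hib i i k
    have h2 := hib i k i
    have h3 : ∫ y, V i y * pd k (fun z => MK ε i (x - z)) y =
        ∫ y, V i y * pd i (fun z => MK ε k (x - z)) y := by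
      refine integral_congr_ae (Filter.Eventually.of_forall fun y => ?_)
      change V i y * pd k (fun z => MK ε i (x - z)) y = V i y * pd i (fun z => MK ε k (x - z)) y
      rw [hMp, hMp, MK_sym hε i k]
    have h4 : ∫ y, pd i (V k) y * MK ε i (x - y) = ∫ y, pd k (V i) y * MK ε i (x - y) := by
      refine integral_congr_ae (Filter.Eventually.of_forall fun y => ?_)
      change pd i (V k) y * MK ε i (x - y) = pd k (V i) y * MK ε i (x - y)
      rw [hc i k y]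
    linarith
  rw [hL, hs 0, hs 1, hs 2, ← KId_add3 (int2 0 k 0) (int2 1 k 1) (int2 2 k 2), ← integral_neg]
  refine integral_congr_ae (Filter.Eventually.of_forall fun y => ?_)
  have h2 := hd y
  rw [Fin.sum_univ_three] at h2
  change pd 0 (V 0) y * MK ε k (x - y) + pd 1 (V 1) y * MK ε k (x - y) + pd 2 (V 2) y * MK ε k (x - y) =
    - (MK ε k (x - y) * F y)
  rw [← add_mul, ← add_mul, h2]
  ring

end Pool.Agent.H16.TU
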