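/-
ROW Pm (MP_09540e_TU). The pressure. PROOF. Let `f t = src2 (u t)`: continuous, `|f t| ≤ K`, `∫ |f t| ≤ K` uniformly for t ∈ Icc 0 T' (gv_u; ∫|src2| ≤ 9 ∫ gv ≤ const: uDB). Let `g_k t x = - (∫ M0 k (x-y) f t y dy)/c0`. For `0 < t₁ ≤ t₂ < T`, V_k x = ∫_{t₁}^{t₂} pd k (p t) x: pT and pV with `F y = ∫_{t₁}^{t₂} f t y dt`, ε = 1/(n+1) → 0: the left side tends to `c0 V_k x` (kl),
the right side to `- ∫ M0 k (x-y) F y` (mk_lim; F is continuous, bounded by (t₂-t₁)K, ∫|F| ≤ (t₂-t₁) K) `= c0 ∫_{t₁}^{t₂} g_k t x dt` (Fubini: |M0 (x-y)| |f t y| is integrable on [t₁,t₂] × E3 by mk_lim with |f|: use that ∫|M0 k(x-y)||f t y| ≤ C K). So `∫_{t₁}^{t₂} pd k (p t) x dt = ∫_{t₁}^{t₂} g_k t x dt` for all 0 < t₁ ≤ t₂ < T; both integrands are continuous in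
t on Ioo 0 T (g_k: dominated convergence; split the kernel at ‖x-y‖ < 1 (bounded f) and ≥ 1: there |M0| ≤ 1 and need ∫|f t y - f s y| dy → 0: simpler: for the continuity in t use that |∫ M0 (f t - f s)| ≤ ∫_{‖x-y‖<R} ‖x-y‖⁻² |f t - f s| + R⁻² 2K, first term → 0 as t → s by dominated convergence, R arbitrary), so the integrands are equal (derivative of the integral).
Bound and limit: `pd k (qe ε (u t)) x = (∫ pd k (nk ε) (x-y) f)/c0 = - (∫ MK ε k (x-y) f)/c0` (q1, Newt_K) → g_k t x (mk_lim), everything ≤ C K / c0 (c0_pos).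
-/
import Pool.Agent.H16.TU.Pt
import Pool.Agent.H16.TU.Pv
import Pool.Agent.H16.TU.Pl
import Pool.Agent.H16.TU.Pe

set_option autoImplicit false

open Set Filter Topology MeasureTheory
open scoped ContDiff

namespace Pool.Agent.H16.TU

open Pool.Agent.H16 Pool.Agent.H87.NS Pool.Agent.H72.CC

private theorem Pm_src_le (v : E3 → E3) (x : E3) : |src2 v x| ≤ gv v x := by
  unfold src2 gv gsq
  simp only [Fin.sum_univ_three]
  rw [abs_le]
  constructor
  · linarith only [sq_nonneg (pd 0 (fun y => v y 1) x + pd 1 (fun y => v y 0) x),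
      sq_nonneg (pd 0 (fun y => v y 2) x + pd 2 (fun y => v y 0) x),
      sq_nonneg (pd 1 (fun y => v y 2) x + pd 2 (fun y => v y 1) x),
      sq_nonneg (pd 0 (fun y => v y 0) x), sq_nonneg (pd 1 (fun y => v y 1) x),
      sq_nonneg (pd 2 (fun y => v y 2) x)]
  · linarith only [sq_nonneg (pd 0 (fun y => v y 1) x - pd 1 (fun y => v y 0) x),
      sq_nonneg (pd 0 (fun y => v y 2) x - pd 2 (fun y => v y 0) x),
      sq_nonneg (pd 1 (fun y => v y 2) x - pd 2 (fun y => v y 1) x)]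

private theorem Pm_int {T : ℝ} {u : ℝ → E3 → E3} {p : ℝ → E3 → ℝ} (h : IsHInfAxisymNS T u p)
    {T' : ℝ} (hT' : T' < T) : ∃ K : ℝ, ∀ t ∈ Icc 0 T', ∫ x, |src2 (u t) x| ≤ K := by
  obtain ⟨K, hK⟩ := uDB h hT'
  refine ⟨9 * K, fun t ht => ?_⟩
  have hi : ∀ i j : Fin 3, Integrable (fun x => pd i (fun y => u t y j) x ^ 2) ∧
      ∫ x, pd i (fun y => u t y j) x ^ 2 ≤ K := fun i j => (DB_BL (DB_pd (hK t ht j) i)).2
  have hg : ∫ x, gv (u t) x = ∑ j : Fin 3, ∑ i : Fin 3, ∫ x, pd i (fun y => u t y j) x ^ 2 := by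
    unfold gv gsq
    rw [integral_finsetSum _ fun j _ => integrable_finsetSum _ fun i _ => (hi i j).1]
    refine Finset.sum_congr rfl fun j _ => ?_
    rw [integral_finsetSum _ fun i _ => (hi i j).1]
  have hgi : Integrable (gv (u t)) := by
    unfold gv gsq
    exact integrable_finsetSum _ fun j _ => integrable_finsetSum _ fun i _ => (hi i j).1
  calc ∫ x, |src2 (u t) x| ≤ ∫ x, gv (u t) x :=
        integral_mono_of_nonneg (Eventually.of_forall fun x => abs_nonneg _) hgi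
          (Eventually.of_forall fun x => Pm_src_le (u t) x)
    _ = ∑ j : Fin 3, ∑ i : Fin 3, ∫ x, pd i (fun y => u t y j) x ^ 2 := hg
    _ ≤ ∑ j : Fin 3, ∑ i : Fin 3, K := Finset.sum_le_sum fun j _ => Finset.sum_le_sum fun i _ => (hi i j).2
    _ = 9 * K := by
      simp only [Finset.sum_const, Finset.card_univ, Fintype.card_fin, nsmul_eq_mul]
      push_cast
      ring

private theorem Pm_JC {T : ℝ} {u : ℝ → E3 → E3} {p : ℝ → E3 → ℝ} (h : IsHInfAxisymNS T u p) :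
    JC T (fun t => src2 (u t)) := by
  unfold JC
  exact continuousOn_finsetSum _ fun i _ => continuousOn_finsetSum _ fun j _ =>
    JC_mul (JS_JC (JS_pd (js_u h.ns j) i)) (JS_JC (JS_pd (js_u h.ns i) j))

private theorem Pm_prod {T : ℝ} {f : ℝ → E3 → ℝ} (hf : JC T f) {t₁ t₂ B : ℝ} (h1 : 0 ≤ t₁)
    (h12 : t₁ ≤ t₂) (h2 : t₂ < T) (hb : ∀ t ∈ Icc t₁ t₂, ∀ x, |f t x| ≤ B)
    (hi : ∀ t ∈ Icc t₁ t₂, Integrable (f t)) (hI : ∀ t ∈ Icc t₁ t₂, ∫ x, |f t x| ≤ B) :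
    Integrable (fun y => ∫ t in t₁..t₂, f t y) ∧ ∫ y, |∫ t in t₁..t₂, f t y| ≤ (t₂ - t₁) * B ∧
      ∀ y, |∫ t in t₁..t₂, f t y| ≤ (t₂ - t₁) * B := by
  have hsub : Ioc t₁ t₂ ⊆ Ico 0 T := fun t ht => ⟨h1.trans ht.1.le, lt_of_le_of_lt ht.2 h2⟩
  have hm : AEStronglyMeasurable (fun q : ℝ × E3 => f q.1 q.2)
      ((volume.restrict (Ioc t₁ t₂)).prod (volume : Measure E3)) := by
    have e1 : (volume.restrict (Ioc t₁ t₂)).prod (volume : Measure E3) =
        ((volume : Measure ℝ).prod (volume : Measure E3)).restrict (Ioc t₁ t₂ ×ˢ univ) := by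
      rw [← Measure.prod_restrict, Measure.restrict_univ]
    rw [e1]
    have hf' : ContinuousOn (fun q : ℝ × E3 => f q.1 q.2) (Ioc t₁ t₂ ×ˢ univ) :=
      ContinuousOn.mono hf (prod_mono hsub le_rfl)
    exact hf'.aestronglyMeasurable (measurableSet_Ioc.prod MeasurableSet.univ)
  have hae : ∀ᵐ t ∂(volume.restrict (Ioc t₁ t₂)), t ∈ Icc t₁ t₂ :=
    (ae_restrict_mem measurableSet_Ioc).mono fun t ht => Ioc_subset_Icc_self ht
  have hint : Integrable (fun q : ℝ × E3 => f q.1 q.2)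
      ((volume.restrict (Ioc t₁ t₂)).prod (volume : Measure E3)) := by
    rw [integrable_prod_iff hm]
    refine ⟨hae.mono fun t ht => hi t ht, ?_⟩
    refine Integrable.of_bound hm.norm.integral_prod_right' B (hae.mono fun t ht => ?_)
    rw [Real.norm_of_nonneg (integral_nonneg fun y => norm_nonneg _)]
    exact hI t ht
  have e2 : ∀ y, ∫ t in t₁..t₂, f t y = ∫ t in Ioc t₁ t₂, f t y := fun y =>
    intervalIntegral.integral_of_le h12
  have hpt : ∀ y, |∫ t in t₁..t₂, f t y| ≤ (t₂ - t₁) * B := by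
    intro y
    have h3 := intervalIntegral.norm_integral_le_of_norm_le_const (a := t₁) (b := t₂)
      (f := fun t => f t y) (C := B) (fun t ht => by
        rw [uIoc_of_le h12] at ht
        exact hb t (Ioc_subset_Icc_self ht) y)
    rw [abs_of_nonneg (by linarith : (0 : ℝ) ≤ t₂ - t₁), mul_comm] at h3
    exact h3
  refine ⟨?_, ?_, hpt⟩
  · simp only [e2]
    exact hint.integral_prod_right
  · have h3 : ∫ y, |∫ t in t₁..t₂, f t y| ≤ ∫ y, ∫ t in Ioc t₁ t₂, ‖f t y‖ := by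
      refine integral_mono_of_nonneg (Eventually.of_forall fun y => abs_nonneg _)
        hint.norm.integral_prod_right (Eventually.of_forall fun y => ?_)
      change |∫ t in t₁..t₂, f t y| ≤ ∫ t in Ioc t₁ t₂, ‖f t y‖
      rw [e2]
      exact norm_integral_le_integral_norm (fun t => f t y)
    have h4 : ∫ y, ∫ t in Ioc t₁ t₂, ‖f t y‖ = ∫ t in Ioc t₁ t₂, ∫ y, ‖f t y‖ :=
      (integral_integral_swap (f := fun t y => ‖f t y‖) hint.norm).symm
    have h5 : ∫ t in Ioc t₁ t₂, ∫ y, ‖f t y‖ ≤ ∫ t in Ioc t₁ t₂, B :=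
      integral_mono_ae (f := fun t => ∫ y, ‖f t y‖) (g := fun _ => B)
        hint.norm.integral_prod_left (integrable_const B) (hae.mono fun t ht => hI t ht)
    rw [integral_const, smul_eq_mul, measureReal_restrict_apply_univ, Real.volume_real_Ioc_of_le h12] at h5
    rw [h4] at h3
    exact h3.trans h5

private theorem Pm_avg {T : ℝ} {φ : ℝ → ℝ} (hφ : ContinuousOn φ (Ioo 0 T)) {t : ℝ}
    (ht : t ∈ Ioo 0 T) {s : ℕ → ℝ} (hs : ∀ n, 0 < s n) (hs0 : Tendsto s atTop (𝓝 0)) :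
    Tendsto (fun n => (s n)⁻¹ * ∫ τ in t..(t + s n), φ τ) atTop (𝓝 (φ t)) := by
  have h1 : HasDerivAt (fun a => ∫ τ in t..a, φ τ) (φ t) t :=
    intervalIntegral.integral_hasDerivAt_right IntervalIntegrable.refl
      (hφ.stronglyMeasurableAtFilter isOpen_Ioo t ht) (hφ.continuousAt (isOpen_Ioo.mem_nhds ht))
  rw [hasDerivAt_iff_tendsto_slope] at h1
  have h2 : Tendsto (fun n => t + s n) atTop (𝓝[≠] t) := by
    rw [tendsto_nhdsWithin_iff]
    refine ⟨by simpa using hs0.const_add t, Eventually.of_forall fun n => ?_⟩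
    have h3 := hs n
    intro h4
    rw [mem_singleton_iff] at h4
    linarith
  refine (h1.comp h2).congr fun n => ?_
  simp only [Function.comp_apply, slope, intervalIntegral.integral_same, vsub_eq_sub, sub_zero,
    add_sub_cancel_left, smul_eq_mul]

private theorem Pm_M0 (k : Fin 3) (x y : E3) : |M0 k (x - y)| ≤ (‖y - x‖ ^ 2)⁻¹ := by
  unfold M0
  rw [norm_sub_rev y x]
  have h1 : |(x - y) k| ≤ ‖x - y‖ := PiLp.norm_apply_le (x - y) k
  rw [abs_mul, abs_of_nonneg (by positivity : (0 : ℝ) ≤ (‖x - y‖ ^ 3)⁻¹)]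
  rcases eq_or_ne (‖x - y‖) 0 with h0 | h0
  · rw [h0]
    norm_num
  · calc |(x - y) k| * (‖x - y‖ ^ 3)⁻¹ ≤ ‖x - y‖ * (‖x - y‖ ^ 3)⁻¹ :=
          mul_le_mul_of_nonneg_right h1 (by positivity)
      _ = (‖x - y‖ ^ 2)⁻¹ := by
          field_simp

private theorem Pm_lim (x : E3) (k : Fin 3) {F : ℕ → E3 → ℝ} {f : E3 → ℝ} {B : ℝ}
    (hF : ∀ n, Continuous (F n)) (hf : Continuous f) (bF : ∀ n y, |F n y| ≤ B)
    (bf : ∀ y, |f y| ≤ B) (iF : ∀ n, Integrable (F n)) (i_f : Integrable f)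
    (IF : ∀ n, ∫ y, |F n y| ≤ B) (If : ∫ y, |f y| ≤ B)
    (hlim : ∀ y, Tendsto (fun n => F n y) atTop (𝓝 (f y))) :
    Tendsto (fun n => ∫ y, M0 k (x - y) * F n y) atTop (𝓝 (∫ y, M0 k (x - y) * f y)) := by
  obtain ⟨C, hC, hm⟩ := mk_lim
  have hB : 0 ≤ B := (abs_nonneg _).trans (bf x)
  have hD : ∀ n y, |F n y - f y| ≤ 2 * B := fun n y => by
    have h1 := bF n y
    have h2 := bf y
    have h3 := abs_sub (F n y) (f y)
    linarith
  have key : ∀ R : ℝ, 0 < R → ∀ n, |(∫ y, M0 k (x - y) * F n y) - ∫ y, M0 k (x - y) * f y| ≤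
      (∫ y in Metric.ball x R, (‖y - x‖ ^ 2)⁻¹ * |F n y - f y|) + (R ^ 2)⁻¹ * (2 * B) := by
    intro R hR n
    obtain ⟨hw, -⟩ := ne_ker hR x
    have hDc : Continuous (fun y => |F n y - f y|) := ((hF n).sub hf).abs
    have hi1 : IntegrableOn (fun y => (‖y - x‖ ^ 2)⁻¹ * |F n y - f y|) (Metric.ball x R) := by
      have h1 := hw.mul_bdd (g := fun y => |F n y - f y|) (c := 2 * B)
        hDc.aestronglyMeasurable (Eventually.of_forall fun y => by
          rw [Real.norm_eq_abs, abs_abs]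
          exact hD n y)
      exact h1
    have hi2 : Integrable (fun y => |F n y - f y|) := ((iF n).sub i_f).abs
    have hi3 : Integrable ((Metric.ball x R).indicator
        (fun y => (‖y - x‖ ^ 2)⁻¹ * |F n y - f y|)) :=
      hi1.integrable_indicator measurableSet_ball
    rw [← integral_sub (hm (F n) B (hF n) (bF n) (iF n) (IF n) x k).1
      (hm f B hf bf i_f If x k).1]
    have h2 := norm_integral_le_of_norm_le (f := fun y => M0 k (x - y) * F n y - M0 k (x - y) * f y)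
      (hi3.add (hi2.const_mul (R ^ 2)⁻¹)) (Eventually.of_forall fun y => by
        rw [← mul_sub, Real.norm_eq_abs, abs_mul]
        change _ ≤ (Metric.ball x R).indicator (fun y => (‖y - x‖ ^ 2)⁻¹ * |F n y - f y|) y +
          (R ^ 2)⁻¹ * |F n y - f y|
        have h3 := Pm_M0 k x y
        have h4 : |M0 k (x - y)| * |F n y - f y| ≤ (‖y - x‖ ^ 2)⁻¹ * |F n y - f y| :=
          mul_le_mul_of_nonneg_right h3 (abs_nonneg _)
        by_cases hy : y ∈ Metric.ball x R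
        · rw [indicator_of_mem hy]
          have h5 : 0 ≤ (R ^ 2)⁻¹ * |F n y - f y| := by positivity
          linarith
        · rw [indicator_of_notMem hy, zero_add]
          refine h4.trans (mul_le_mul_of_nonneg_right ?_ (abs_nonneg _))
          have h6 : R ≤ ‖y - x‖ := by
            rw [← dist_eq_norm]
            exact not_lt.1 hy
          exact inv_anti₀ (by positivity) (pow_le_pow_left₀ hR.le h6 2))
    have h7 : ∫ y, ((Metric.ball x R).indicator (fun y => (‖y - x‖ ^ 2)⁻¹ * |F n y - f y|) y +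
        (R ^ 2)⁻¹ * |F n y - f y|) = (∫ y in Metric.ball x R, (‖y - x‖ ^ 2)⁻¹ * |F n y - f y|) +
        (R ^ 2)⁻¹ * ∫ y, |F n y - f y| := by
      rw [integral_add hi3 (hi2.const_mul _), integral_indicator measurableSet_ball,
        integral_const_mul]
    have h8 : ∫ y, |F n y - f y| ≤ 2 * B := by
      have h9 : ∫ y, |F n y - f y| ≤ ∫ y, (|F n y| + |f y|) :=
        integral_mono hi2 ((iF n).abs.add i_f.abs) fun y => abs_sub (F n y) (f y)
      rw [integral_add (iF n).abs i_f.abs] at h9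
      linarith [IF n]
    have h10 : (R ^ 2)⁻¹ * ∫ y, |F n y - f y| ≤ (R ^ 2)⁻¹ * (2 * B) :=
      mul_le_mul_of_nonneg_left h8 (by positivity)
    have h11 : ∫ y, ((Metric.ball x R).indicator (fun y => (‖y - x‖ ^ 2)⁻¹ * |F n y - f y|) +
        fun y => (R ^ 2)⁻¹ * |F n y - f y|) y = ∫ y, ((Metric.ball x R).indicator
          (fun y => (‖y - x‖ ^ 2)⁻¹ * |F n y - f y|) y + (R ^ 2)⁻¹ * |F n y - f y|) := rfl
    rw [h11, h7] at h2
    exact h2.trans (by linarith)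
  rw [Metric.tendsto_atTop]
  intro ε hε
  obtain ⟨R, hR⟩ : ∃ R : ℝ, R = 1 + 4 * B / ε := ⟨_, rfl⟩
  have hR1 : 1 ≤ R := by
    rw [hR]
    have : 0 ≤ 4 * B / ε := by positivity
    linarith
  have hRB : (R ^ 2)⁻¹ * (2 * B) < ε / 2 := by
    have h1 : R ≤ R ^ 2 := by nlinarith
    have h2 : (R ^ 2)⁻¹ * (2 * B) ≤ R⁻¹ * (2 * B) :=
      mul_le_mul_of_nonneg_right (inv_anti₀ (by linarith) h1) (by linarith)
    refine h2.trans_lt ?_
    rw [inv_mul_lt_iff₀ (by linarith), hR]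
    have h3 : (1 + 4 * B / ε) * (ε / 2) = ε / 2 + 2 * B := by
      field_simp
      ring
    rw [h3]
    linarith
  have hRp : 0 < R := by linarith
  obtain ⟨hw, -⟩ := ne_ker hRp x
  have hdc : Tendsto (fun n => ∫ y in Metric.ball x R, (‖y - x‖ ^ 2)⁻¹ * |F n y - f y|) atTop
      (𝓝 0) := by
    have h1 := tendsto_integral_of_dominated_convergence
      (F := fun n y => (‖y - x‖ ^ 2)⁻¹ * |F n y - f y|) (f := fun _ => (0 : ℝ))
      (μ := volume.restrict (Metric.ball x R))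
      (fun y => (‖y - x‖ ^ 2)⁻¹ * (2 * B)) (fun n => ?_) (hw.mul_const (2 * B)) (fun n => ?_) ?_
    · simpa using h1
    · exact hw.aestronglyMeasurable.mul ((hF n).sub hf).abs.aestronglyMeasurable
    · refine Eventually.of_forall fun y => ?_
      rw [Real.norm_eq_abs, abs_mul, abs_abs, abs_of_nonneg (by positivity : (0 : ℝ) ≤ (‖y - x‖ ^ 2)⁻¹)]
      exact mul_le_mul_of_nonneg_left (hD n y) (by positivity)
    · refine Eventually.of_forall fun y => ?_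
      have h2 : Tendsto (fun n => |F n y - f y|) atTop (𝓝 0) := by
        have h3 := ((hlim y).sub_const (f y)).abs
        simpa using h3
      simpa using h2.const_mul ((‖y - x‖ ^ 2)⁻¹)
  rw [Metric.tendsto_atTop] at hdc
  obtain ⟨N, hN⟩ := hdc (ε / 2) (by linarith)
  refine ⟨N, fun n hn => ?_⟩
  have h1 := hN n hn
  rw [Real.dist_eq, sub_zero] at h1
  have h2 := key R hRp n
  rw [Real.dist_eq]
  have h3 := le_abs_self (∫ y in Metric.ball x R, (‖y - x‖ ^ 2)⁻¹ * |F n y - f y|)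
  linarith

private theorem Pm_cont {T : ℝ} {u : ℝ → E3 → E3} {p : ℝ → E3 → ℝ} (h : IsHInfAxisymNS T u p)
    {t₁ t₂ : ℝ} (h1 : 0 < t₁) (h12 : t₁ ≤ t₂) (h2 : t₂ < T) :
    Continuous (fun y => ∫ t in t₁..t₂, src2 (u t) y) := by
  obtain ⟨hV, -, -, hd⟩ := pT h h1 h12 h2
  have e1 : (fun y => ∫ t in t₁..t₂, src2 (u t) y) =
      fun y => - ∑ i : Fin 3, pd i (fun x => ∫ t in t₁..t₂, pd i (p t) x) y := by
    funext y
    rw [hd y, neg_neg]
  rw [e1]
  refine (continuous_finsetSum _ fun i _ => ?_).neg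
  exact ((hV i).continuous_fderiv one_ne_zero).clm_apply continuous_const

private theorem Pm_star {T : ℝ} {u : ℝ → E3 → E3} {p : ℝ → E3 → ℝ} (h : IsHInfAxisymNS T u p)
    {t₁ t₂ B : ℝ} (h1 : 0 < t₁) (h12 : t₁ ≤ t₂) (h2 : t₂ < T)
    (hb : ∀ t ∈ Icc t₁ t₂, ∀ x, |src2 (u t) x| ≤ B)
    (hI : ∀ t ∈ Icc t₁ t₂, ∫ x, |src2 (u t) x| ≤ B) (k : Fin 3) (x : E3) :
    c0 * ∫ t in t₁..t₂, pd k (p t) x = - ∫ y, M0 k (x - y) * ∫ t in t₁..t₂, src2 (u t) y := by
  obtain ⟨hV, ⟨K, hK⟩, hc, hd⟩ := pT h h1 h12 h2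
  obtain ⟨C, hC, hm⟩ := mk_lim
  have hi : ∀ t ∈ Icc t₁ t₂, Integrable (src2 (u t)) := fun t ht =>
    (src_int (vf_u h ⟨h1.le.trans ht.1, lt_of_le_of_lt ht.2 h2⟩)).1
  obtain ⟨hF1, hF2, hF3⟩ := Pm_prod (Pm_JC h) h1.le h12 h2 hb hi hI
  have hFc := Pm_cont h h1 h12 h2
  obtain ⟨-, -, hlim⟩ := hm (fun y => ∫ t in t₁..t₂, src2 (u t) y) ((t₂ - t₁) * B) hFc hF3 hF1 hF2 x k
  have hbV : ∀ y, |∫ t in t₁..t₂, pd k (p t) y| ≤ K := (DB_BL (hK k)).1
  have hL := kl (hV k).continuous hbV x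
  have hε : ∀ n : ℕ, (0 : ℝ) < 1 / ((n : ℝ) + 1) := fun n => by positivity
  have hpv : ∀ n : ℕ, ∫ y, (∫ t in t₁..t₂, pd k (p t) y) *
      (3 * (1 / ((n : ℝ) + 1)) ^ 2 * (‖x - y‖ ^ 2 + (1 / ((n : ℝ) + 1)) ^ 2) ^ (-(5/2) : ℝ)) =
      - ∫ y, MK (1 / ((n : ℝ) + 1)) k (x - y) * ∫ t in t₁..t₂, src2 (u t) y := fun n =>
    pV (V := fun k x => ∫ t in t₁..t₂, pd k (p t) x) hV hK hc hd (hε n) k x
  have hR : Tendsto (fun n : ℕ => - ∫ y, MK (1 / ((n : ℝ) + 1)) k (x - y) *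
      ∫ t in t₁..t₂, src2 (u t) y) atTop
      (𝓝 (- ∫ y, M0 k (x - y) * ∫ t in t₁..t₂, src2 (u t) y)) := by
    apply Tendsto.neg
    rw [tendsto_iff_norm_sub_tendsto_zero]
    have h0 : Tendsto (fun n : ℕ => C * (1 / ((n : ℝ) + 1)) * ((t₂ - t₁) * B)) atTop (𝓝 0) := by
      have h3 := (tendsto_one_div_add_atTop_nhds_zero_nat (𝕜 := ℝ)).const_mul C |>.mul_const
        ((t₂ - t₁) * B)
      simpa using h3
    refine squeeze_zero (fun n => norm_nonneg _) (fun n => ?_) h0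
    have h4 : 1 / ((n : ℝ) + 1) ≤ 1 := by
      rw [div_le_one (by positivity)]
      have : (0 : ℝ) ≤ n := Nat.cast_nonneg n
      linarith
    exact (hlim _ (hε n) h4).2
  exact tendsto_nhds_unique hL (hR.congr fun n => (hpv n).symm)

private theorem Pm_eq {T : ℝ} {u : ℝ → E3 → E3} {p : ℝ → E3 → ℝ} (h : IsHInfAxisymNS T u p)
    {t : ℝ} (ht : t ∈ Ioo 0 T) (k : Fin 3) (x : E3) :
    c0 * pd k (p t) x = - ∫ y, M0 k (x - y) * src2 (u t) y := by
  obtain ⟨s, hsdef⟩ : ∃ s : ℕ → ℝ, ∀ n, s n = (T - t) / 2 * (1 / ((n : ℝ) + 1)) :=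
    ⟨_, fun n => rfl⟩
  have hTt : 0 < (T - t) / 2 := by linarith [ht.2]
  have hs : ∀ n, 0 < s n := fun n => by rw [hsdef]; positivity
  have hs1 : ∀ n, s n ≤ (T - t) / 2 := fun n => by
    rw [hsdef]
    have h4 : 1 / ((n : ℝ) + 1) ≤ 1 := by
      rw [div_le_one (by positivity)]
      have : (0 : ℝ) ≤ n := Nat.cast_nonneg n
      linarith
    calc (T - t) / 2 * (1 / ((n : ℝ) + 1)) ≤ (T - t) / 2 * 1 :=
          mul_le_mul_of_nonneg_left h4 hTt.le
      _ = (T - t) / 2 := mul_one _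
  have hs0 : Tendsto s atTop (𝓝 0) := by
    have h3 := (tendsto_one_div_add_atTop_nhds_zero_nat (𝕜 := ℝ)).const_mul ((T - t) / 2)
    rw [mul_zero] at h3
    exact h3.congr fun n => (hsdef n).symm
  have hT2 : t + (T - t) / 2 < T := by linarith [ht.2]
  obtain ⟨K₁, hK₁, hb1⟩ := gv_u h hT2
  obtain ⟨K₂, hK₂⟩ := Pm_int h hT2
  have hsub : ∀ n, ∀ τ ∈ Icc t (t + s n), τ ∈ Icc 0 (t + (T - t) / 2) := fun n τ hτ =>
    ⟨ht.1.le.trans hτ.1, hτ.2.trans (by linarith [hs1 n])⟩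
  have hb : ∀ τ ∈ Icc 0 (t + (T - t) / 2), ∀ x, |src2 (u τ) x| ≤ max K₁ K₂ := fun τ hτ x =>
    (hb1 τ hτ x).2.2.2.2.2.trans (le_max_left _ _)
  have hI : ∀ τ ∈ Icc 0 (t + (T - t) / 2), ∫ x, |src2 (u τ) x| ≤ max K₁ K₂ := fun τ hτ =>
    (hK₂ τ hτ).trans (le_max_right _ _)
  have ht0 : t ∈ Icc 0 (t + (T - t) / 2) := ⟨ht.1.le, by linarith⟩
  have hsn : ∀ n, t + s n < T := fun n => by linarith [hs1 n]
  have hle : ∀ n, t ≤ t + s n := fun n => by linarith [hs n]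
  have hi : ∀ n, ∀ τ ∈ Icc t (t + s n), Integrable (src2 (u τ)) := fun n τ hτ =>
    (src_int (vf_u h ⟨ht.1.le.trans hτ.1, lt_of_le_of_lt hτ.2 (hsn n)⟩)).1
  have hP := fun n => Pm_prod (Pm_JC h) ht.1.le (hle n) (hsn n)
    (fun τ hτ => hb τ (hsub n τ hτ)) (hi n) (fun τ hτ => hI τ (hsub n τ hτ))
  obtain ⟨g1, g2, -⟩ := src_int (vf_u h ⟨ht.1.le, ht.2⟩)
  have hscale : ∀ n : ℕ, (s n)⁻¹ * ((t + s n - t) * max K₁ K₂) = max K₁ K₂ := fun n => by
    have := (hs n).ne'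
    field_simp
    ring
  have hlim := Pm_lim x k (F := fun n y => (s n)⁻¹ * ∫ τ in t..(t + s n), src2 (u τ) y)
    (f := src2 (u t)) (B := max K₁ K₂) (fun n => (Pm_cont h ht.1 (hle n) (hsn n)).const_mul _) g2
    (fun n y => by
      rw [abs_mul, abs_of_pos (inv_pos.2 (hs n)), ← hscale n]
      exact mul_le_mul_of_nonneg_left ((hP n).2.2 y) (inv_pos.2 (hs n)).le)
    (hb t ht0) (fun n => (hP n).1.const_mul _) g1
    (fun n => by
      simp only [abs_mul, abs_of_pos (inv_pos.2 (hs n))]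
      rw [integral_const_mul, ← hscale n]
      exact mul_le_mul_of_nonneg_left (hP n).2.1 (inv_pos.2 (hs n)).le)
    (hI t ht0)
    (fun y => by
      refine Pm_avg (T := T) (φ := fun τ => src2 (u τ) y) ?_ ht hs hs0
      have h5 : ContinuousOn (fun q : ℝ × E3 => src2 (u q.1) q.2) (Ico 0 T ×ˢ univ) := Pm_JC h
      exact h5.comp (f := fun τ : ℝ => (τ, y)) (by fun_prop) fun τ hτ =>
        ⟨Ioo_subset_Ico_self hτ, mem_univ _⟩)
  have hp : Tendsto (fun n => c0 * ((s n)⁻¹ * ∫ τ in t..(t + s n), pd k (p τ) x)) atTop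
      (𝓝 (c0 * pd k (p t) x)) := by
    refine Tendsto.const_mul c0 ?_
    refine Pm_avg (T := T) (φ := fun τ => pd k (p τ) x) ?_ ht hs hs0
    have h5 : JC T (fun τ => pd k (p τ)) := JS_JC (JS_pd h.ns.smooth_p k)
    have h6 : ContinuousOn (fun q : ℝ × E3 => pd k (p q.1) q.2) (Ico 0 T ×ˢ univ) := h5
    exact h6.comp (f := fun τ : ℝ => (τ, x)) (by fun_prop) fun τ hτ =>
      ⟨Ioo_subset_Ico_self hτ, mem_univ _⟩
  refine tendsto_nhds_unique hp (hlim.neg.congr fun n => ?_)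
  have h7 := Pm_star h ht.1 (hle n) (hsn n) (fun τ hτ => hb τ (hsub n τ hτ))
    (fun τ hτ => hI τ (hsub n τ hτ)) k x
  rw [mul_left_comm, h7]
  have h8 : (fun y => M0 k (x - y) * ((s n)⁻¹ * ∫ τ in t..(t + s n), src2 (u τ) y)) =
      fun y => (s n)⁻¹ * (M0 k (x - y) * ∫ τ in t..(t + s n), src2 (u τ) y) := by
    funext y
    ring
  rw [h8, integral_const_mul]
  ring

theorem pres {T : ℝ} {u : ℝ → E3 → E3} {p : ℝ → E3 → ℝ} (h : IsHInfAxisymNS T u p) {T' : ℝ} (hT' : T' < T) :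
    ∃ K : ℝ, ∀ t ∈ Ioo 0 T', ∀ (x : E3) (k : Fin 3), |pd k (p t) x| ≤ K ∧
      Tendsto (fun n : ℕ => pd k (qe (1 / ((n : ℝ) + 1)) (u t)) x) atTop (𝓝 (pd k (p t) x)) ∧
      ∀ n : ℕ, |pd k (qe (1 / ((n : ℝ) + 1)) (u t)) x| ≤ K := by
  obtain ⟨K₁, hK₁, hb1⟩ := gv_u h hT'
  obtain ⟨K₂, hK₂⟩ := Pm_int h hT'
  obtain ⟨C, hC, hm⟩ := mk_lim
  have hc0 := c0_pos
  refine ⟨C * max K₁ K₂ / c0, fun t ht x k => ?_⟩
  have ht0 : t ∈ Icc 0 T' := ⟨ht.1.le, ht.2.le⟩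
  have htT : t ∈ Ioo 0 T := ⟨ht.1, ht.2.trans hT'⟩
  have hvf := vf_u h ⟨ht.1.le, htT.2⟩
  obtain ⟨g1, g2, -⟩ := src_int hvf
  obtain ⟨-, hM, hlim⟩ := hm (src2 (u t)) (max K₁ K₂) g2
    (fun x => (hb1 t ht0 x).2.2.2.2.2.trans (le_max_left _ _)) g1
    ((hK₂ t ht0).trans (le_max_right _ _)) x k
  have hp : pd k (p t) x = (- ∫ y, M0 k (x - y) * src2 (u t) y) / c0 := by
    rw [← Pm_eq h htT k x, mul_div_cancel_left₀ _ hc0.ne']
  have hε : ∀ n : ℕ, (0 : ℝ) < 1 / ((n : ℝ) + 1) := fun n => by positivity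
  have hε1 : ∀ n : ℕ, 1 / ((n : ℝ) + 1) ≤ 1 := fun n => by
    rw [div_le_one (by positivity)]
    have : (0 : ℝ) ≤ n := Nat.cast_nonneg n
    linarith
  have hq : ∀ n : ℕ, pd k (qe (1 / ((n : ℝ) + 1)) (u t)) x =
      (- ∫ y, MK (1 / ((n : ℝ) + 1)) k (x - y) * src2 (u t) y) / c0 := by
    intro n
    rw [(q1 (hε n) hvf).2.2 k x, ← integral_neg]
    have h1 : (fun y => pd k (nk (1 / ((n : ℝ) + 1))) (x - y) * src2 (u t) y) =
        fun y => -(MK (1 / ((n : ℝ) + 1)) k (x - y) * src2 (u t) y) := by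
      funext y
      have h2 : pd k (nk (1 / ((n : ℝ) + 1))) (x - y) = - MK (1 / ((n : ℝ) + 1)) k (x - y) :=
        Newt_K (hε n) k (x - y)
      rw [h2]
      ring
    rw [h1]
  refine ⟨?_, ?_, ?_⟩
  · rw [hp, abs_div, abs_of_pos hc0, abs_neg]
    exact div_le_div_of_nonneg_right hM hc0.le
  · rw [hp]
    simp only [hq]
    refine Tendsto.div_const (Tendsto.neg ?_) c0
    rw [tendsto_iff_norm_sub_tendsto_zero]
    have h0 : Tendsto (fun n : ℕ => C * (1 / ((n : ℝ) + 1)) * max K₁ K₂) atTop (𝓝 0) := by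
      have h3 := (tendsto_one_div_add_atTop_nhds_zero_nat (𝕜 := ℝ)).const_mul C |>.mul_const
        (max K₁ K₂)
      simpa using h3
    exact squeeze_zero (fun n => norm_nonneg _) (fun n => (hlim _ (hε n) (hε1 n)).2) h0
  · intro n
    rw [hq, abs_div, abs_of_pos hc0, abs_neg]
    exact div_le_div_of_nonneg_right (hlim _ (hε n) (hε1 n)).1 hc0.le

end Pool.Agent.H16.TU
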