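/-
ROW Pf (MP_09540e_TU). The pressure inequalities. PROOF. Fix t, T' ∈ (t, T). By pres and dominated convergence (|pd k (qe ε_n (u t)) x * F k x| ≤ K |F k x|, integrable), `∫ ∑ pd k (p t) F k = lim_n ∫ ∑ pd k (qe ε_n (u t)) F k`, ε_n = 1/(n+1), and each term is bounded by pAe (resp. pCe), whose right side does not depend on ε (vf_u gives Vf (u t)).
-/
import Pool.Agent.H16.TU.Pm

set_option autoImplicit false

open Set Filter Topology MeasureTheory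
open scoped ContDiff

namespace Pool.Agent.H16.TU

open Pool.Agent.H16 Pool.Agent.H87.NS Pool.Agent.H72.CC

theorem Pf_lim {T : ℝ} {u : ℝ → E3 → E3} {p : ℝ → E3 → ℝ} (h : IsHInfAxisymNS T u p) {t : ℝ} (ht : t ∈ Ioo 0 T)
    {F : Fin 3 → E3 → ℝ} (hF : ∀ k, TF (F k)) :
    Tendsto (fun n : ℕ => ∫ x, ∑ k : Fin 3, pd k (qe (1 / ((n : ℝ) + 1)) (u t)) x * F k x) atTop
      (𝓝 (∫ x, ∑ k : Fin 3, pd k (p t) x * F k x)) := by
  obtain ⟨K, hK⟩ := pres h (T' := (t + T) / 2) (by have := ht.2; linarith)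
  have ht' : t ∈ Ioo 0 ((t + T) / 2) := ⟨ht.1, by have := ht.2; linarith⟩
  have hv : Vf (u t) := vf_u h ⟨ht.1.le, ht.2⟩
  refine tendsto_integral_of_dominated_convergence (fun x => ∑ k : Fin 3, K * |F k x|) (fun n => ?_) ?_ (fun n => ?_) ?_
  · have hε : (0 : ℝ) < 1 / ((n : ℝ) + 1) := by positivity
    obtain ⟨hq, -, -⟩ := q1 hε hv
    exact (continuous_finsetSum _ fun k _ => (Pe_pdc hq k).mul (hF k).c1.continuous).aestronglyMeasurable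
  · exact integrable_finsetSum _ fun k _ => (hF k).int.abs.const_mul K
  · refine Eventually.of_forall fun x => ?_
    rw [Real.norm_eq_abs]
    refine (Finset.abs_sum_le_sum_abs _ _).trans (Finset.sum_le_sum fun k _ => ?_)
    rw [abs_mul]
    exact mul_le_mul_of_nonneg_right ((hK t ht' x k).2.2 n) (abs_nonneg _)
  · refine Eventually.of_forall fun x => ?_
    exact tendsto_finsetSum _ fun k _ => ((hK t ht' x k).2.1).mul_const _

theorem pA : ∃ C : ℝ, 0 < C ∧ ∀ (T : ℝ) (u : ℝ → E3 → E3) (p : ℝ → E3 → ℝ), IsHInfAxisymNS T u p → ∀ t ∈ Ioo 0 T,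
    ∀ F : Fin 3 → E3 → ℝ, (∀ k, TF (F k)) → ∀ l : ℝ, 0 < l →
    |∫ x, ∑ k : Fin 3, pd k (p t) x * F k x| ≤
      C * ((∫ y, ‖u t y‖ * √(gv (u t) y) * NE l (dv F) y) + ∫ y, ‖u t y‖ ^ 2 * FA l (dv F) y) := by
  obtain ⟨C, hC, h0⟩ := pAe
  refine ⟨C, hC, fun T u p h t ht F hF l hl => ?_⟩
  have hv : Vf (u t) := vf_u h ⟨ht.1.le, ht.2⟩
  exact le_of_tendsto (Pf_lim h ht hF).abs (Eventually.of_forall fun n =>
    h0 (1 / ((n : ℝ) + 1)) l (by positivity) hl (u t) hv F hF)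

theorem pC : ∃ C : ℝ, 0 < C ∧ ∀ (T : ℝ) (u : ℝ → E3 → E3) (p : ℝ → E3 → ℝ), IsHInfAxisymNS T u p → ∀ t ∈ Ioo 0 T,
    ∀ g : E3 → ℝ, TF g → TF (pd 2 g) → ∀ l : ℝ, 0 < l →
    |∫ x, pd 2 (p t) x * g x| ≤
      C * ((∫ y, (hn (u t) y * √(gv (u t) y) * NE l (pd 2 g) y +
          hn (u t) y ^ 2 * (NE l (pd 0 (pd 2 g)) y + NE l (pd 1 (pd 2 g)) y))) +
        ∫ y, ‖u t y‖ ^ 2 * FA l (pd 2 g) y) := by
  obtain ⟨C, hC, h0⟩ := pCe
  refine ⟨C, hC, fun T u p h t ht g hg hγ l hl => ?_⟩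
  have hv : Vf (u t) := vf_u h ⟨ht.1.le, ht.2⟩
  obtain ⟨F, hFd⟩ : ∃ F : Fin 3 → E3 → ℝ, F = ![fun _ => 0, fun _ => 0, g] := ⟨_, rfl⟩
  have F0 : F 0 = fun _ => 0 := by rw [hFd]; rfl
  have F1 : F 1 = fun _ => 0 := by rw [hFd]; rfl
  have F2 : F 2 = g := by rw [hFd]; rfl
  have hF : ∀ k, TF (F k) := by
    intro k
    fin_cases k
    · exact F0 ▸ Pe_TF0
    · exact F1 ▸ Pe_TF0
    · exact F2 ▸ hg
  have hsum : ∀ (q : E3 → ℝ) (x : E3), ∑ k : Fin 3, pd k q x * F k x = pd 2 q x * g x := by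
    intro q x
    rw [Fin.sum_univ_three, F0, F1, F2, mul_zero, mul_zero, zero_add, zero_add]
  have hl2 := Pf_lim h ht hF
  simp only [hsum] at hl2
  exact le_of_tendsto hl2.abs (Eventually.of_forall fun n =>
    h0 (1 / ((n : ℝ) + 1)) l (by positivity) hl (u t) hv g hg hγ)

end Pool.Agent.H16.TU
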