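/-
ROW Ae (MP_09540e_TU). The right side of the energy identity at a fixed time. PROOF. aFl for the flux terms (half of it), pA (Pf.lean) with `F k x = u t x k * Φ x` (TF by ba_tf, bounded derivatives: ba_vf) and `l = 2^j₀ R`: near part aNe with `A = 2^j₀` (note `2^j₀ * R = A * R`) and δ replaced by δ' = δ / (max 1 C_p) where C_p is the constant of pA; far part aFa. `C₁` = C_p times the constant of aFa
(does not depend on j₀), `C` collects: C_p C_A, 10, 200, C_p C_far, (1 ≤ κ, Z, δ ≤ 1).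
-/
import Pool.Agent.H16.TU.Aa
import Pool.Agent.H16.TU.Ab
import Pool.Agent.H16.TU.Ac
import Pool.Agent.H16.TU.Pf

set_option autoImplicit false

open Set Filter Topology MeasureTheory
open scoped ContDiff

namespace Pool.Agent.H16.TU

open Pool.Agent.H16 Pool.Agent.H87.NS Pool.Agent.H72.CC

private theorem Ae_fin {D S SJ QJ E3' Ne Fa I1 I2 Cp CF CA m δ κ R Z N T3 : ℝ} (hD : 0 ≤ D) (hS : 0 ≤ S)
    (hCp : 0 < Cp) (hCF : 0 < CF) (hCA : 0 < CA) (hm : 1 ≤ m) (hmp : Cp ≤ m) (hδ : 0 < δ) (hδ1 : δ ≤ 1)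
    (hκ : 1 ≤ κ) (hR : 0 < R) (hZ : 1 ≤ Z)
    (h1 : |I1| ≤ 20 / Z * D + 400 * κ / R ^ 2 * S)
    (h2 : |I2| ≤ Cp * (Ne + Fa))
    (h3 : Ne ≤ (δ / m + CA / Z) * D + CA * κ ^ 2 / (δ / m) / R ^ 2 * S)
    (h4 : Fa ≤ CF * κ / R ^ 2 * SJ + CF / (Z * N ^ 2) * QJ + CF / Z / R ^ 2 * S + CF * T3 * E3' ) :
    I1 / 2 - I2 ≤ (δ + (210 + Cp * CA * m + Cp * CF + Cp * CA) / Z) * D +
      (210 + Cp * CA * m + Cp * CF + Cp * CA) * κ ^ 2 / δ / R ^ 2 * S +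
      Cp * CF * κ / R ^ 2 * SJ + Cp * CF / (Z * N ^ 2) * QJ + Cp * CF * T3 * E3' := by
  have hm0 : 0 < m := by linarith
  have hZ0 : 0 < Z := by linarith
  have hκ0 : 0 < κ := by linarith
  have a1 := le_abs_self I1
  have a2 := neg_abs_le I2
  have b3 := mul_le_mul_of_nonneg_left h3 hCp.le
  have b4 := mul_le_mul_of_nonneg_left h4 hCp.le
  obtain ⟨X, hX⟩ : ∃ X : ℝ, X = κ ^ 2 / δ / R ^ 2 := ⟨_, rfl⟩
  obtain ⟨Y, hY⟩ : ∃ Y : ℝ, Y = 1 / Z := ⟨_, rfl⟩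
  have hY0 : 0 < Y := by rw [hY]; positivity
  have hX1 : κ / R ^ 2 ≤ X := by
    rw [hX]
    apply div_le_div_of_nonneg_right _ (by positivity)
    rw [le_div_iff₀ hδ]
    nlinarith
  have hX2 : 1 / Z / R ^ 2 ≤ X := by
    rw [hX]
    apply div_le_div_of_nonneg_right _ (by positivity)
    have e1 : 1 / Z ≤ 1 := by
      rw [div_le_one hZ0]
      exact hZ
    have e2 : 1 ≤ κ ^ 2 / δ := by
      rw [le_div_iff₀ hδ]
      nlinarith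
    linarith
  have hX0 : 0 ≤ X := le_trans (by positivity) hX1
  have c1 : Cp * (δ / m) ≤ δ := by
    rw [← mul_div_assoc, div_le_iff₀ hm0]
    nlinarith
  have c2 : CA * κ ^ 2 / (δ / m) / R ^ 2 = CA * m * X := by
    rw [hX]
    field_simp
  have c3 : (210 + Cp * CA * m + Cp * CF + Cp * CA) * κ ^ 2 / δ / R ^ 2 =
      (210 + Cp * CA * m + Cp * CF + Cp * CA) * X := by
    rw [hX]
    ring
  have c4 : CF / Z / R ^ 2 ≤ CF * X := by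
    have := mul_le_mul_of_nonneg_left hX2 hCF.le
    calc CF / Z / R ^ 2 = CF * (1 / Z / R ^ 2) := by ring
      _ ≤ CF * X := this
  have c5 : 400 * κ / R ^ 2 ≤ 400 * X := by
    calc 400 * κ / R ^ 2 = 400 * (κ / R ^ 2) := by ring
      _ ≤ 400 * X := by linarith
  have c6 : 20 / Z = 20 * Y := by rw [hY]; ring
  have c7 : CA / Z = CA * Y := by rw [hY]; ring
  have c8 : (210 + Cp * CA * m + Cp * CF + Cp * CA) / Z = (210 + Cp * CA * m + Cp * CF + Cp * CA) * Y := by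
    rw [hY]; ring
  rw [c3, c8]
  rw [c2, c7] at b3
  rw [c6] at h1
  have d1 : Cp * ((δ / m + CA * Y) * D + CA * m * X * S) ≤ (δ + Cp * CA * Y) * D + Cp * CA * m * X * S := by
    have := mul_le_mul_of_nonneg_right c1 hD
    nlinarith
  have d2 : Cp * (CF / Z / R ^ 2 * S) ≤ Cp * CF * X * S := by
    have := mul_le_mul_of_nonneg_right c4 hS
    have := mul_le_mul_of_nonneg_left this hCp.le
    linarith
  have d3 : 400 * κ / R ^ 2 * S ≤ 400 * X * S := mul_le_mul_of_nonneg_right c5 hS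
  have e1 : 0 ≤ (Cp * CA * m + Cp * CF) * Y * D := by positivity
  have e2 : 0 ≤ (Cp * CA) * X * S := by positivity
  have e3 : 0 ≤ X * S := mul_nonneg hX0 hS
  have e4 : 0 ≤ Y * D := mul_nonneg hY0.le hD
  have f1 : Cp * (CF * κ / R ^ 2 * SJ + CF / (Z * N ^ 2) * QJ + CF / Z / R ^ 2 * S + CF * T3 * E3') =
      Cp * CF * κ / R ^ 2 * SJ + Cp * CF / (Z * N ^ 2) * QJ + Cp * (CF / Z / R ^ 2 * S) +
      Cp * CF * T3 * E3' := by ring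
  rw [f1] at b4
  nlinarith

theorem aP : ∃ C₁ : ℝ, 0 < C₁ ∧ ∀ j₀ : ℕ, ∃ C : ℝ, 0 < C ∧ ∀ (T : ℝ) (u : ℝ → E3 → E3) (p : ℝ → E3 → ℝ), IsHInfAxisymNS T u p →
    ∀ t ∈ Ioo 0 T, ∀ κ N R Z δ z : ℝ, Sl κ N (u t) → 0 < R → R ≤ 1 → 1 ≤ Z → 0 < δ → δ ≤ 1 → ∀ J : ℕ, j₀ ≤ J →
    (∫ x, ‖u t x‖ ^ 2 * (lap (ww N Z R z) x + adv (u t x) (ww N Z R z) x)) / 2 -
      (∫ x, (∑ k : Fin 3, pd k (p t) x * (u t x k * ww N Z R z x))) ≤
      (δ + C / Z) * DD (u t) (ww N Z R z) + C * κ ^ 2 / δ / R ^ 2 * SS (u t) (ww N Z R z) +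
      C₁ * κ / R ^ 2 * (∑ j ∈ Finset.Icc j₀ J, (1/4) ^ j * SS (u t) (ww N Z (2 ^ j * R) z)) +
      C₁ / (Z * N ^ 2) * (∑ j ∈ Finset.Icc j₀ J, (√2 / 4) ^ j * QQ (u t) (ww N Z (2 ^ j * R) z)) +
      C₁ * ((2 ^ J * R) ^ 3)⁻¹ * (∫ x, ‖u t x‖ ^ 2) *
        (κ / R ^ 2 * VV (ww N Z R z) + (SS (u t) (ww N Z R z) + VV (ww N Z R z)) / (Z * N * R)) := by
  obtain ⟨Cp, hCp, hpA⟩ := pA
  obtain ⟨CF, hCF, hFa⟩ := aFa
  refine ⟨Cp * CF, by positivity, fun j₀ => ?_⟩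
  obtain ⟨CA, hCA, hNe⟩ := aNe (A := 2 ^ j₀) (one_le_pow₀ (by norm_num))
  obtain ⟨m, hm⟩ : ∃ m : ℝ, m = max 1 Cp := ⟨_, rfl⟩
  have hm1 : 1 ≤ m := hm ▸ le_max_left _ _
  have hmp : Cp ≤ m := hm ▸ le_max_right _ _
  have hm0 : 0 < m := by linarith
  refine ⟨210 + Cp * CA * m + Cp * CF + Cp * CA, by positivity, ?_⟩
  intro T u p hNS t ht κ N R Z δ z h hR hR1 hZ hδ hδ1 J hJ
  have hN : 1 ≤ N := h.one.trans h.le
  obtain ⟨hw, hV0, -⟩ := ww_ok hN hZ hR z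
  have h1 := aFl h hZ hR hR1 z
  have hF : ∀ k : Fin 3, TF (fun x => u t x k * ww N Z R z x) := by
    intro k
    obtain ⟨K, hK⟩ := h.db
    refine ba_tf (K := K) hw ?_ ?_
    · have h2 : ContDiff ℝ ∞ (u t) := h.ax.smooth
      have h3 : ContDiff ℝ 1 (u t) := h2.of_le (by exact_mod_cast le_top)
      exact (contDiff_euclidean.1 h3) k
    · intro x
      exact ⟨(DB_BL (hK k)).1 x, fun i => (DB_BL (DB_pd (hK k) i)).1 x⟩
  have hl : (0 : ℝ) < 2 ^ j₀ * R := by positivity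
  have h2 := hpA T u p hNS t ht (fun k x => u t x k * ww N Z R z x) hF (2 ^ j₀ * R) hl
  have hδm : 0 < δ / m := by positivity
  have hδm1 : δ / m ≤ 1 := by
    rw [div_le_one hm0]
    linarith
  have h3 := hNe κ N R Z (δ / m) z (u t) h hR hR1 hZ hδm hδm1
  have h4 := hFa κ N R Z z (u t) h hR hR1 hZ j₀ J hJ
  have hD : 0 ≤ DD (u t) (ww N Z R z) :=
    integral_nonneg fun x => mul_nonneg (ba_gv x 0 0).1 (hw.nn x)
  have hS : 0 ≤ SS (u t) (ww N Z R z) :=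
    integral_nonneg fun x => mul_nonneg (by positivity) (hw.nn x)
  have h5 := Ae_fin hD hS hCp hCF hCA hm1 hmp hδ hδ1 h.one hR hZ h1 h2 h3
    (SJ := ∑ j ∈ Finset.Icc j₀ J, (1/4) ^ j * SS (u t) (ww N Z (2 ^ j * R) z))
    (QJ := ∑ j ∈ Finset.Icc j₀ J, (√2 / 4) ^ j * QQ (u t) (ww N Z (2 ^ j * R) z)) (N := N)
    (T3 := ((2 ^ J * R) ^ 3)⁻¹ * (∫ x, ‖u t x‖ ^ 2))
    (E3' := κ / R ^ 2 * VV (ww N Z R z) + (SS (u t) (ww N Z R z) + VV (ww N Z R z)) / (Z * N * R))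
    (by
      refine h4.trans (le_of_eq ?_)
      ring)
  refine h5.trans (le_of_eq ?_)
  ring

end Pool.Agent.H16.TU
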