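/-
ROW Af (MP_09540e_TU). Time integrals of the far sums. PROOF. Write `Φ_j = ww N Z (2^j R) z`. All functions of t are continuous on Icc 0 t₀ (tc_u), so interval integrable. SS: Bd gives `SS (u t) Φ_j ≤ M N³ 2^j R` for every t in [t₁,t₂] ⊂ [0,t₀]; the integral over a length ≤ 2R² is `≤ 2 R² M N³ 2^j R`; `∑_{j ≥ j₀} (1/4)^j 2^j ≤ 2 (1/2)^j₀` (finite geometric sum).
QQ: f5 with `c = 4/(2^j R)`: `QQ ≤ 40 N² (DD_j + (1 + 16/(4^j R²)) SS_j)`. For j ≥ 1: `t₂ - t₁ ≤ 2R² ≤ (2^j R)²`, so `[t₁,t₂] ⊂ [max (t₂ - (2^j R)²) 0, t₂]` and DD ≥ 0: `∫ DD_j ≤ M N³ 2^j R` (Bd at t₂); `∫ (1 + 16/(4^j R²)) SS_j ≤ 2R² (1 + 16/(4^j R²)) M N³ 2^j R ≤ (2 + 8) M N³ 2^j R` (R ≤ 1, j ≥ 1).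
So `∫ QQ_j ≤ 440 M N⁵ 2^j R`, `∑ (√2/4)^j 2^j = ∑ (√2/2)^j ≤ 4`: total `≤ 1760 M N⁵ R`. (Interchange of the finite sum and the integral: intervalIntegral.integral_finset_sum.)
-/
import Pool.Agent.H16.TU.Ad0
import Pool.Agent.H16.TU.Fc
import Pool.Agent.H16.TU.Ta

set_option autoImplicit false

open Set Filter Topology MeasureTheory
open scoped ContDiff

namespace Pool.Agent.H16.TU

open Pool.Agent.H16 Pool.Agent.H87.NS Pool.Agent.H72.CC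

lemma Af_geom {ρ : ℝ} (h0 : 0 ≤ ρ) (h1 : ρ < 1) (j₀ J : ℕ) :
    ∑ j ∈ Finset.Icc j₀ J, ρ ^ j ≤ ρ ^ j₀ / (1 - ρ) := by
  have h := geom_sum_Ico_le_of_lt_one (m := j₀) (n := J + 1) h0 h1
  have e : Finset.Icc j₀ J = Finset.Ico j₀ (J + 1) := by
    ext a
    simp [Finset.mem_Icc, Finset.mem_Ico, Nat.lt_succ_iff]
  rw [e]
  exact h

lemma Af_one {T κ N t₀ : ℝ} {u : ℝ → E3 → E3} (hu : UpTo T u κ N t₀) : 1 ≤ N := by
  have h := hu.2 0 ⟨le_refl _, hu.1.1⟩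
  exact le_trans h.one h.le

lemma Af_sub {T κ N t₀ t₁ t₂ : ℝ} {u : ℝ → E3 → E3} (hu : UpTo T u κ N t₀) (h1 : 0 ≤ t₁) (h2 : t₂ ≤ t₀) :
    Icc t₁ t₂ ⊆ Ico 0 T := fun t ht => ⟨le_trans h1 ht.1, lt_of_le_of_lt (le_trans ht.2 h2) hu.1.2⟩

lemma Af_ww {N Z R : ℝ} (hN : 1 ≤ N) (hZ : 1 ≤ Z) (hR : 0 < R) (z : ℝ) (j : ℕ) :
    Wc (4 / (2 ^ j * R)) (ww N Z (2 ^ j * R) z) :=
  (ww_ok hN hZ (by positivity) z).1

lemma Af_DDnn {c : ℝ} {Ψ : E3 → ℝ} (w : Wc c Ψ) (v : E3 → E3) : 0 ≤ DD v Ψ :=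
  integral_nonneg fun x => mul_nonneg (ba_gv x 0 0).1 (w.nn x)

lemma Af_SS {T κ N Z M R t₀ z t : ℝ} {u : ℝ → E3 → E3} (hu : UpTo T u κ N t₀)
    (hB : Bd u N Z t₀ M) (hR : 0 < R) (ht : t ∈ Icc 0 t₀) (j : ℕ) :
    SS (u t) (ww N Z (2 ^ j * R) z) ≤ M * N ^ 3 * (2 ^ j * R) :=
  (hB t ht (2 ^ j * R) z (by positivity)).1

theorem aT1 {T κ N Z M R t₀ t₁ t₂ z : ℝ} {u : ℝ → E3 → E3} {p : ℝ → E3 → ℝ} (h : IsHInfAxisymNS T u p) (hu : UpTo T u κ N t₀)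
    (hZ : 1 ≤ Z) (hM : 1 ≤ M) (hB : Bd u N Z t₀ M) (hR : 0 < R) (hR1 : R ≤ 1) (h1 : 0 ≤ t₁) (h12 : t₁ ≤ t₂) (h2 : t₂ ≤ t₀)
    (hw : t₂ - t₁ ≤ 2 * R ^ 2) {j₀ J : ℕ} :
    ∫ t in t₁..t₂, ∑ j ∈ Finset.Icc j₀ J, (1/4 : ℝ) ^ j * SS (u t) (ww N Z (2 ^ j * R) z) ≤ 4 * (1/2) ^ j₀ * M * N ^ 3 * R ^ 3 := by
  have hN := Af_one hu
  have hMN : 0 ≤ M * N ^ 3 := by positivity
  have hsub := Af_sub hu h1 h2
  have hc : ContinuousOn (fun t => ∑ j ∈ Finset.Icc j₀ J, (1/4 : ℝ) ^ j * SS (u t) (ww N Z (2 ^ j * R) z)) (Icc t₁ t₂) := by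
    refine continuousOn_finset_sum _ fun j _ => ?_
    exact continuousOn_const.mul ((tc_u h (Af_ww hN hZ hR z j)).1.mono hsub)
  have hi : IntervalIntegrable (fun t => ∑ j ∈ Finset.Icc j₀ J, (1/4 : ℝ) ^ j * SS (u t) (ww N Z (2 ^ j * R) z)) volume t₁ t₂ :=
    ContinuousOn.intervalIntegrable (by rwa [uIcc_of_le h12])
  have hle : ∀ t ∈ Icc t₁ t₂, ∑ j ∈ Finset.Icc j₀ J, (1/4 : ℝ) ^ j * SS (u t) (ww N Z (2 ^ j * R) z) ≤
      2 * (1/2) ^ j₀ * M * N ^ 3 * R := by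
    intro t ht
    have ht0 : t ∈ Icc 0 t₀ := ⟨le_trans h1 ht.1, le_trans ht.2 h2⟩
    calc ∑ j ∈ Finset.Icc j₀ J, (1/4 : ℝ) ^ j * SS (u t) (ww N Z (2 ^ j * R) z)
        ≤ ∑ j ∈ Finset.Icc j₀ J, (M * N ^ 3 * R) * (1/2 : ℝ) ^ j := by
          refine Finset.sum_le_sum fun j _ => ?_
          calc (1/4 : ℝ) ^ j * SS (u t) (ww N Z (2 ^ j * R) z)
              ≤ (1/4 : ℝ) ^ j * (M * N ^ 3 * (2 ^ j * R)) :=
                mul_le_mul_of_nonneg_left (Af_SS hu hB hR ht0 j) (by positivity)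
            _ = (M * N ^ 3 * R) * ((1/4 : ℝ) ^ j * 2 ^ j) := by ring
            _ = (M * N ^ 3 * R) * (1/2 : ℝ) ^ j := by
                rw [← mul_pow]; norm_num
      _ = (M * N ^ 3 * R) * ∑ j ∈ Finset.Icc j₀ J, (1/2 : ℝ) ^ j := by rw [Finset.mul_sum]
      _ ≤ (M * N ^ 3 * R) * ((1/2) ^ j₀ / (1 - 1/2)) :=
          mul_le_mul_of_nonneg_left (Af_geom (by norm_num) (by norm_num) j₀ J) (by positivity)
      _ = 2 * (1/2) ^ j₀ * M * N ^ 3 * R := by ring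
  calc ∫ t in t₁..t₂, ∑ j ∈ Finset.Icc j₀ J, (1/4 : ℝ) ^ j * SS (u t) (ww N Z (2 ^ j * R) z)
      ≤ ∫ t in t₁..t₂, 2 * (1/2) ^ j₀ * M * N ^ 3 * R :=
        intervalIntegral.integral_mono_on h12 hi intervalIntegrable_const hle
    _ = (t₂ - t₁) * (2 * (1/2) ^ j₀ * M * N ^ 3 * R) := by
        rw [intervalIntegral.integral_const, smul_eq_mul]
    _ ≤ (2 * R ^ 2) * (2 * (1/2) ^ j₀ * M * N ^ 3 * R) :=
        mul_le_mul_of_nonneg_right hw (by positivity)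
    _ = 4 * (1/2) ^ j₀ * M * N ^ 3 * R ^ 3 := by ring

lemma Af_QQ {T κ N Z M R t₀ t₁ t₂ z : ℝ} {u : ℝ → E3 → E3} {p : ℝ → E3 → ℝ} (h : IsHInfAxisymNS T u p) (hu : UpTo T u κ N t₀)
    (hZ : 1 ≤ Z) (hM : 1 ≤ M) (hB : Bd u N Z t₀ M) (hR : 0 < R) (hR1 : R ≤ 1) (h1 : 0 ≤ t₁) (h12 : t₁ ≤ t₂) (h2 : t₂ ≤ t₀)
    (hw : t₂ - t₁ ≤ 2 * R ^ 2) {j : ℕ} (hj : 1 ≤ j) :
    ∫ t in t₁..t₂, QQ (u t) (ww N Z (2 ^ j * R) z) ≤ 440 * M * N ^ 5 * (2 ^ j * R) := by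
  have hN := Af_one hu
  have hMN : 0 ≤ M * N ^ 3 := by positivity
  have hsub := Af_sub hu h1 h2
  have w := Af_ww hN hZ hR z j
  obtain ⟨cS, cD, cQ⟩ := tc_u h w
  have iS : IntervalIntegrable (fun t => SS (u t) (ww N Z (2 ^ j * R) z)) volume t₁ t₂ :=
    ContinuousOn.intervalIntegrable (by rw [uIcc_of_le h12]; exact cS.mono hsub)
  have iD : IntervalIntegrable (fun t => DD (u t) (ww N Z (2 ^ j * R) z)) volume t₁ t₂ :=
    ContinuousOn.intervalIntegrable (by rw [uIcc_of_le h12]; exact cD.mono hsub)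
  have iQ : IntervalIntegrable (fun t => QQ (u t) (ww N Z (2 ^ j * R) z)) volume t₁ t₂ :=
    ContinuousOn.intervalIntegrable (by rw [uIcc_of_le h12]; exact cQ.mono hsub)
  have h4 : (4:ℝ) ≤ (2 ^ j) ^ 2 := by
    have : (2:ℝ) ^ 1 ≤ 2 ^ j := pow_le_pow_right₀ (by norm_num) hj
    nlinarith
  have hp : (0:ℝ) < 2 ^ j := by positivity
  -- the dissipation
  have hD : ∫ t in t₁..t₂, DD (u t) (ww N Z (2 ^ j * R) z) ≤ M * N ^ 3 * (2 ^ j * R) := by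
    have ht2 : t₂ ∈ Icc 0 t₀ := ⟨le_trans h1 h12, h2⟩
    have hb := (hB t₂ ht2 (2 ^ j * R) z (by positivity)).2
    have hmax : max (t₂ - (2 ^ j * R) ^ 2) 0 ≤ t₁ := by
      refine max_le ?_ h1
      have : 2 * R ^ 2 ≤ (2 ^ j * R) ^ 2 := by
        rw [mul_pow]
        nlinarith [sq_nonneg R]
      linarith
    have hsub' : Icc (max (t₂ - (2 ^ j * R) ^ 2) 0) t₂ ⊆ Ico 0 T := Af_sub hu (le_max_right _ _) h2
    have iD' : IntervalIntegrable (fun t => DD (u t) (ww N Z (2 ^ j * R) z)) volume (max (t₂ - (2 ^ j * R) ^ 2) 0) t₂ :=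
      ContinuousOn.intervalIntegrable (by rw [uIcc_of_le (le_trans hmax h12)]; exact cD.mono hsub')
    refine le_trans (intervalIntegral.integral_mono_interval hmax h12 (le_refl _) ?_ iD') hb
    exact Filter.Eventually.of_forall fun t => Af_DDnn w (u t)
  -- the energy
  have hS : ∫ t in t₁..t₂, SS (u t) (ww N Z (2 ^ j * R) z) ≤ 2 * R ^ 2 * (M * N ^ 3 * (2 ^ j * R)) := by
    calc ∫ t in t₁..t₂, SS (u t) (ww N Z (2 ^ j * R) z)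
        ≤ ∫ t in t₁..t₂, M * N ^ 3 * (2 ^ j * R) :=
          intervalIntegral.integral_mono_on h12 iS intervalIntegrable_const
            fun t ht => Af_SS hu hB hR ⟨le_trans h1 ht.1, le_trans ht.2 h2⟩ j
      _ = (t₂ - t₁) * (M * N ^ 3 * (2 ^ j * R)) := by
          rw [intervalIntegral.integral_const, smul_eq_mul]
      _ ≤ 2 * R ^ 2 * (M * N ^ 3 * (2 ^ j * R)) := mul_le_mul_of_nonneg_right hw (by positivity)
  have hcoef : (1 + (4 / (2 ^ j * R)) ^ 2) * (2 * R ^ 2) ≤ 10 := by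
    have e : (1 + (4 / (2 ^ j * R)) ^ 2) * (2 * R ^ 2) = 2 * R ^ 2 + 32 / (2 ^ j) ^ 2 := by
      field_simp
      ring
    rw [e]
    have a1 : 32 / ((2:ℝ) ^ j) ^ 2 ≤ 8 := by
      rw [div_le_iff₀ (by positivity)]
      linarith
    have a2 : R ^ 2 ≤ 1 := by nlinarith
    linarith
  calc ∫ t in t₁..t₂, QQ (u t) (ww N Z (2 ^ j * R) z)
      ≤ ∫ t in t₁..t₂, 40 * N ^ 2 * (DD (u t) (ww N Z (2 ^ j * R) z) + (1 + (4 / (2 ^ j * R)) ^ 2) * SS (u t) (ww N Z (2 ^ j * R) z)) := by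
        refine intervalIntegral.integral_mono_on h12 iQ ((iD.add (iS.const_mul _)).const_mul _) fun t ht => ?_
        exact f5 (hu.2 t ⟨le_trans h1 ht.1, le_trans ht.2 h2⟩) w
    _ = 40 * N ^ 2 * ((∫ t in t₁..t₂, DD (u t) (ww N Z (2 ^ j * R) z)) +
          (1 + (4 / (2 ^ j * R)) ^ 2) * ∫ t in t₁..t₂, SS (u t) (ww N Z (2 ^ j * R) z)) := by
        rw [intervalIntegral.integral_const_mul, intervalIntegral.integral_add iD (iS.const_mul _),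
          intervalIntegral.integral_const_mul]
    _ ≤ 40 * N ^ 2 * (M * N ^ 3 * (2 ^ j * R) +
          (1 + (4 / (2 ^ j * R)) ^ 2) * (2 * R ^ 2 * (M * N ^ 3 * (2 ^ j * R)))) := by
        gcongr
    _ = 40 * N ^ 2 * (M * N ^ 3 * (2 ^ j * R)) * (1 + (1 + (4 / (2 ^ j * R)) ^ 2) * (2 * R ^ 2)) := by ring
    _ ≤ 40 * N ^ 2 * (M * N ^ 3 * (2 ^ j * R)) * (1 + 10) := by
        gcongr
    _ = 440 * M * N ^ 5 * (2 ^ j * R) := by ring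

theorem aT2 {T κ N Z M R t₀ t₁ t₂ z : ℝ} {u : ℝ → E3 → E3} {p : ℝ → E3 → ℝ} (h : IsHInfAxisymNS T u p) (hu : UpTo T u κ N t₀)
    (hZ : 1 ≤ Z) (hM : 1 ≤ M) (hB : Bd u N Z t₀ M) (hR : 0 < R) (hR1 : R ≤ 1) (h1 : 0 ≤ t₁) (h12 : t₁ ≤ t₂) (h2 : t₂ ≤ t₀)
    (hw : t₂ - t₁ ≤ 2 * R ^ 2) {j₀ J : ℕ} (hj : 1 ≤ j₀) :
    ∫ t in t₁..t₂, ∑ j ∈ Finset.Icc j₀ J, (√2 / 4) ^ j * QQ (u t) (ww N Z (2 ^ j * R) z) ≤ 2000 * M * N ^ 5 * R := by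
  have hN := Af_one hu
  have hsub := Af_sub hu h1 h2
  have hs0 : (0:ℝ) ≤ √2 := Real.sqrt_nonneg 2
  have hs2 : √2 * √2 = (2:ℝ) := Real.mul_self_sqrt (by norm_num)
  have hs15 : √2 ≤ (3/2 : ℝ) := by
    rw [Real.sqrt_le_left (by norm_num)]
    norm_num
  have hi : ∀ j ∈ Finset.Icc j₀ J, IntervalIntegrable (fun t => (√2 / 4) ^ j * QQ (u t) (ww N Z (2 ^ j * R) z)) volume t₁ t₂ := by
    intro j _
    refine IntervalIntegrable.const_mul ?_ _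
    exact ContinuousOn.intervalIntegrable (by
      rw [uIcc_of_le h12]; exact (tc_u h (Af_ww hN hZ hR z j)).2.2.mono hsub)
  rw [intervalIntegral.integral_finset_sum hi]
  calc ∑ j ∈ Finset.Icc j₀ J, ∫ t in t₁..t₂, (√2 / 4) ^ j * QQ (u t) (ww N Z (2 ^ j * R) z)
      ≤ ∑ j ∈ Finset.Icc j₀ J, (440 * M * N ^ 5 * R) * (√2 / 2) ^ j := by
        refine Finset.sum_le_sum fun j hj' => ?_
        have hj1 : 1 ≤ j := le_trans hj (Finset.mem_Icc.1 hj').1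
        rw [intervalIntegral.integral_const_mul]
        calc (√2 / 4) ^ j * ∫ t in t₁..t₂, QQ (u t) (ww N Z (2 ^ j * R) z)
            ≤ (√2 / 4) ^ j * (440 * M * N ^ 5 * (2 ^ j * R)) :=
              mul_le_mul_of_nonneg_left (Af_QQ h hu hZ hM hB hR hR1 h1 h12 h2 hw hj1) (by positivity)
          _ = (440 * M * N ^ 5 * R) * ((√2 / 4) ^ j * 2 ^ j) := by ring
          _ = (440 * M * N ^ 5 * R) * (√2 / 2) ^ j := by
              rw [← mul_pow]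
              congr 2
              ring
    _ = (440 * M * N ^ 5 * R) * ∑ j ∈ Finset.Icc j₀ J, (√2 / 2) ^ j := by rw [Finset.mul_sum]
    _ ≤ (440 * M * N ^ 5 * R) * ((√2 / 2) ^ j₀ / (1 - √2 / 2)) :=
        mul_le_mul_of_nonneg_left (Af_geom (by positivity) (by linarith) j₀ J) (by positivity)
    _ ≤ (440 * M * N ^ 5 * R) * 4 := by
        refine mul_le_mul_of_nonneg_left ?_ (by positivity)
        rw [div_le_iff₀ (by linarith)]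
        have : (√2 / 2) ^ j₀ ≤ (√2 / 2) ^ 1 := pow_le_pow_of_le_one (by positivity) (by linarith) hj
        nlinarith
    _ ≤ 2000 * M * N ^ 5 * R := by
        have : 0 ≤ M * N ^ 5 * R := by positivity
        nlinarith

end Pool.Agent.H16.TU
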