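/-
ROW Fb (MP_09540e_TU). Fixed time inequalities. PROOF. f2: f1 with `G = v₂ Ψ` (TF by ba_tf): `∫ v₂² Ψ ≤ N ∫ hg (v₂ Ψ) ≤ N ∫ √gv Ψ + N ∫ |v₂| 2 c Ψ` (ba_hg, ba_gv, ba_hgw). Young: `N √gv ≤ η gv + N²/(4η)`, `2 c N |v₂| ≤ v₂²/2 + 2 c² N²`. So `(1/2) ∫ v₂²Ψ ≤ η DD + N²/(4η) VV + 2 c² N² VV`.
f3: hh: `hn² ≤ 2κ√gv + κ² ≤ η gv + κ²/η + κ²`. fs: add (`‖v‖² = hn² + v₂²`, ba_gv), κ ≤ N, 1 ≤ κ: `1/(2η) + 1/η ≤ 2/η`. All functions are bounded continuous times Ψ: integrable (wi, ba_vf).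
-/
import Pool.Agent.H16.TU.Fa

set_option autoImplicit false

open Set Filter Topology MeasureTheory
open scoped ContDiff

namespace Pool.Agent.H16.TU

open Pool.Agent.H16 Pool.Agent.H87.NS Pool.Agent.H72.CC

theorem Fb_lc {f g h : E3 → ℝ} (hf : Integrable f) (hg : Integrable g) (hh : Integrable h) (a b c : ℝ) :
    ∫ x, (a * f x + b * g x + c * h x) = a * (∫ x, f x) + b * (∫ x, g x) + c * ∫ x, h x := by
  rw [integral_add (f := fun x => a * f x + b * g x) ((hf.const_mul a).add (hg.const_mul b)) (hh.const_mul c),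
    integral_add (hf.const_mul a) (hg.const_mul b), integral_const_mul, integral_const_mul, integral_const_mul]

theorem Fb_one {c K : ℝ} {Ψ : E3 → ℝ} (w : Wc c Ψ) {v : E3 → E3} (hv : ContDiff ℝ ∞ v)
    (hK : ∀ x, ‖v x‖ ≤ K ∧ gv v x ≤ K) (n : ℕ) :
    Integrable (fun x => gv v x * Ψ x) ∧ Integrable (fun x => ‖v x‖ ^ n * Ψ x) ∧ Integrable (fun x => hn v x ^ n * Ψ x) ∧
      Integrable (fun x => v x 2 ^ n * Ψ x) ∧ Integrable (fun x => √(gv v x) * Ψ x) ∧ Integrable (fun x => |v x 2| ^ n * Ψ x) := by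
  have c2 : Continuous fun x => v x 2 := (Bds1_proj_smooth hv 2).continuous
  have hc := ba_gvc hv
  have hg : ∀ x, 0 ≤ gv v x ∧ hn v x ≤ ‖v x‖ ∧ |v x 2| ≤ ‖v x‖ := fun x => ⟨(ba_gv x 0 0).1, (ba_gv x 0 0).2.2.2.2.1, (ba_gv x 0 0).2.2.2.2.2.1⟩
  have hh : ∀ x, 0 ≤ hn v x := fun x => Real.sqrt_nonneg _
  refine ⟨wi (K := K) w hc.1 fun x => ?_, wi (K := K ^ n) w (hc.2.1.pow n) fun x => ?_, wi (K := K ^ n) w (hc.2.2.pow n) fun x => ?_,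
    wi (K := K ^ n) w (c2.pow n) fun x => ?_, wi (K := √K) w hc.1.sqrt fun x => ?_, wi (K := K ^ n) w (c2.abs.pow n) fun x => ?_⟩
  · rw [abs_of_nonneg (hg x).1]; exact (hK x).2
  · rw [abs_of_nonneg (by positivity)]; exact pow_le_pow_left₀ (norm_nonneg _) (hK x).1 n
  · rw [abs_of_nonneg (pow_nonneg (hh x) n)]; exact pow_le_pow_left₀ (hh x) ((hg x).2.1.trans (hK x).1) n
  · rw [abs_pow]; exact pow_le_pow_left₀ (abs_nonneg _) ((hg x).2.2.trans (hK x).1) n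
  · rw [abs_of_nonneg (Real.sqrt_nonneg _)]; exact Real.sqrt_le_sqrt (hK x).2
  · rw [abs_of_nonneg (by positivity)]; exact pow_le_pow_left₀ (abs_nonneg _) ((hg x).2.2.trans (hK x).1) n

theorem f2 {κ N c η : ℝ} {v : E3 → E3} {Ψ : E3 → ℝ} (h : Sl κ N v) (w : Wc c Ψ) (hη : 0 < η) :
    ∫ x, v x 2 ^ 2 * Ψ x ≤ 2 * η * DD v Ψ + N ^ 2 * (1 / (2 * η) + 4 * c ^ 2) * VV Ψ := by
  obtain ⟨K, hK0, hK, -, -⟩ := ba_vf h.vf
  have hv := h.ax.smooth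
  have hK' : ∀ x, ‖v x‖ ≤ K ∧ gv v x ≤ K := fun x => ⟨(hK x).1, (hK x).2.1⟩
  have hN : 1 ≤ N := h.one.trans h.le
  obtain ⟨i1, -, -, i2, i3, -⟩ := Fb_one w hv hK' 2
  obtain ⟨-, -, -, -, -, i4⟩ := Fb_one w hv hK' 1
  have hf : ContDiff ℝ 1 (fun x => v x 2) := (Bds1_proj_smooth hv 2).of_le (by norm_cast)
  have hTF : TF (fun x => v x 2 * Ψ x) := ba_tf (K := K) w hf fun x =>
    ⟨(ba_gv x 0 0).2.2.2.2.2.1.trans (hK x).1, fun i => (hK x).2.2.1 i 2⟩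
  have e1 := (le_abs_self _).trans (f1 h hTF)
  have e2 : ∫ x, hg (fun x => v x 2 * Ψ x) x ≤ ∫ x, (√(gv v x) * Ψ x + 2 * c * (|v x 2| ^ 1 * Ψ x)) := by
    refine integral_mono_of_nonneg (ae_of_all _ fun x => Real.sqrt_nonneg _) (i3.add (i4.const_mul _)) (ae_of_all _ fun x => ?_)
    have a1 := ba_hg (f := fun x => v x 2) (Ψ := Ψ) (x := x) (hf.differentiable (by norm_num) x) (w.sm.differentiable (by simp) x)
    have a2 := ba_hgw w x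
    have a3 := (ba_gv (v := v) x 0 2).2.2.2.1
    have a4 : |Ψ x| = Ψ x := abs_of_nonneg (w.nn x)
    rw [a4] at a1
    have a5 : hg (fun x => v x 2) x * Ψ x ≤ √(gv v x) * Ψ x := mul_le_mul_of_nonneg_right a3 (w.nn x)
    have a6 : |v x 2| * hg Ψ x ≤ |v x 2| * (2 * c * Ψ x) := mul_le_mul_of_nonneg_left a2 (abs_nonneg _)
    show hg (fun x => v x 2 * Ψ x) x ≤ √(gv v x) * Ψ x + 2 * c * (|v x 2| ^ 1 * Ψ x)
    rw [pow_one]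
    linarith
  have e3 : N * ∫ x, (√(gv v x) * Ψ x + 2 * c * (|v x 2| ^ 1 * Ψ x)) ≤
      ∫ x, (η * (gv v x * Ψ x) + (N ^ 2 * (1 / (4 * η) + 2 * c ^ 2)) * Ψ x + (1/2) * (v x 2 ^ 2 * Ψ x)) := by
    rw [← integral_const_mul]
    refine integral_mono ((i3.add (i4.const_mul _)).const_mul N) (((i1.const_mul _).add (w.int.const_mul _)).add (i2.const_mul _)) fun x => ?_
    have b0 : √(gv v x) ^ 2 = gv v x := Real.sq_sqrt (ba_gv x 0 0).1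
    have b1 : N * √(gv v x) ≤ η * gv v x + N ^ 2 * (1 / (4 * η)) := by
      have b0' : η * gv v x = η * √(gv v x) ^ 2 := by rw [b0]
      have b2 : η * √(gv v x) ^ 2 + N ^ 2 * (1 / (4 * η)) - N * √(gv v x) = (2 * η * √(gv v x) - N) ^ 2 / (4 * η) := by
        field_simp; ring
      have b3 : 0 ≤ (2 * η * √(gv v x) - N) ^ 2 / (4 * η) := by positivity
      linarith
    have b4 : N * (2 * c * |v x 2|) ≤ N ^ 2 * (2 * c ^ 2) + (1/2) * v x 2 ^ 2 := by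
      have b5 : |v x 2| ^ 2 = v x 2 ^ 2 := sq_abs _
      nlinarith [sq_nonneg (|v x 2| - 2 * c * N)]
    have b6 := mul_le_mul_of_nonneg_right (add_le_add b1 b4) (w.nn x)
    show N * (√(gv v x) * Ψ x + 2 * c * (|v x 2| ^ 1 * Ψ x)) ≤ η * (gv v x * Ψ x) + (N ^ 2 * (1 / (4 * η) + 2 * c ^ 2)) * Ψ x + (1/2) * (v x 2 ^ 2 * Ψ x)
    rw [pow_one]
    linarith
  rw [Fb_lc i1 w.int i2] at e3
  have e4 : ∫ x, v x 2 * (v x 2 * Ψ x) = ∫ x, v x 2 ^ 2 * Ψ x := by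
    refine integral_congr_ae (ae_of_all _ fun x => ?_)
    show v x 2 * (v x 2 * Ψ x) = v x 2 ^ 2 * Ψ x
    ring
  rw [e4] at e1
  have e5 := mul_le_mul_of_nonneg_left e2 (by linarith : (0:ℝ) ≤ N)
  have e6 : (∫ x, v x 2 ^ 2 * Ψ x) ≤ η * DD v Ψ + (N ^ 2 * (1 / (4 * η) + 2 * c ^ 2)) * VV Ψ + (1/2) * ∫ x, v x 2 ^ 2 * Ψ x := by
    unfold DD VV
    linarith
  have e7 : N ^ 2 * (1 / (2 * η) + 4 * c ^ 2) * VV Ψ = 2 * ((N ^ 2 * (1 / (4 * η) + 2 * c ^ 2)) * VV Ψ) := by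
    field_simp; ring
  rw [e7]
  linarith

theorem f3 {κ N c η : ℝ} {v : E3 → E3} {Ψ : E3 → ℝ} (h : Sl κ N v) (w : Wc c Ψ) (hη : 0 < η) :
    ∫ x, hn v x ^ 2 * Ψ x ≤ η * DD v Ψ + κ ^ 2 * (1 / η + 1) * VV Ψ := by
  obtain ⟨K, hK0, hK, -, -⟩ := ba_vf h.vf
  have hv := h.ax.smooth
  have hK' : ∀ x, ‖v x‖ ≤ K ∧ gv v x ≤ K := fun x => ⟨(hK x).1, (hK x).2.1⟩
  obtain ⟨i1, -, i2, -, -, -⟩ := Fb_one w hv hK' 2
  have e3 : ∫ x, hn v x ^ 2 * Ψ x ≤ ∫ x, (η * (gv v x * Ψ x) + (κ ^ 2 * (1 / η + 1)) * Ψ x + 0 * Ψ x) := by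
    refine integral_mono i2 (((i1.const_mul _).add (w.int.const_mul _)).add (w.int.const_mul _)) fun x => ?_
    have b0 : √(gv v x) ^ 2 = gv v x := Real.sq_sqrt (ba_gv x 0 0).1
    have b1 : 2 * κ * √(gv v x) ≤ η * gv v x + κ ^ 2 * (1 / η) := by
      have b0' : η * gv v x = η * √(gv v x) ^ 2 := by rw [b0]
      have b2 : η * √(gv v x) ^ 2 + κ ^ 2 * (1 / η) - 2 * κ * √(gv v x) = (η * √(gv v x) - κ) ^ 2 / η := by
        field_simp; ring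
      have b3 : 0 ≤ (η * √(gv v x) - κ) ^ 2 / η := by positivity
      linarith
    have b4 := (hh h x).2.2.1
    have b6 := mul_le_mul_of_nonneg_right (b4.trans (by linarith : 2 * κ * √(gv v x) + κ ^ 2 ≤ η * gv v x + κ ^ 2 * (1 / η) + κ ^ 2)) (w.nn x)
    show hn v x ^ 2 * Ψ x ≤ η * (gv v x * Ψ x) + (κ ^ 2 * (1 / η + 1)) * Ψ x + 0 * Ψ x
    linarith
  rw [Fb_lc i1 w.int w.int] at e3
  unfold DD VV
  linarith

theorem fs {κ N c η : ℝ} {v : E3 → E3} {Ψ : E3 → ℝ} (h : Sl κ N v) (w : Wc c Ψ) (hη : 0 < η) :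
    SS v Ψ ≤ 3 * η * DD v Ψ + N ^ 2 * (2 / η + 1 + 4 * c ^ 2) * VV Ψ := by
  obtain ⟨K, hK0, hK, -, -⟩ := ba_vf h.vf
  have hv := h.ax.smooth
  have hK' : ∀ x, ‖v x‖ ≤ K ∧ gv v x ≤ K := fun x => ⟨(hK x).1, (hK x).2.1⟩
  obtain ⟨i1, -, i2, i3, -, -⟩ := Fb_one w hv hK' 2
  have e1 : SS v Ψ = (∫ x, hn v x ^ 2 * Ψ x) + ∫ x, v x 2 ^ 2 * Ψ x := by
    unfold SS
    rw [← integral_add i2 i3]
    refine integral_congr_ae (ae_of_all _ fun x => ?_)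
    show ‖v x‖ ^ 2 * Ψ x = hn v x ^ 2 * Ψ x + v x 2 ^ 2 * Ψ x
    rw [(ba_gv x 0 0).2.2.2.2.2.2]
    ring
  have e2 := f2 h w hη
  have e3 := f3 h w hη
  have hV : 0 ≤ VV Ψ := integral_nonneg w.nn
  have h1 : κ ^ 2 ≤ N ^ 2 := pow_le_pow_left₀ (by linarith [h.one]) h.le 2
  have h2 : κ ^ 2 * (1 / η + 1) * VV Ψ ≤ N ^ 2 * (1 / η + 1) * VV Ψ :=
    mul_le_mul_of_nonneg_right (mul_le_mul_of_nonneg_right h1 (by positivity)) hV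
  have h3 : N ^ 2 * (2 / η + 1 + 4 * c ^ 2) * VV Ψ = N ^ 2 * (1 / η + 1) * VV Ψ + N ^ 2 * (1 / (2 * η) + 4 * c ^ 2) * VV Ψ +
      N ^ 2 * (1 / (2 * η)) * VV Ψ := by
    field_simp; ring
  have h4 : 0 ≤ N ^ 2 * (1 / (2 * η)) * VV Ψ := by positivity
  rw [e1, h3]
  linarith

end Pool.Agent.H16.TU
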