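/-
ROW Tb (MP_09540e_TU). Two identities. en0 PROOF. For each x: `j (f b x) - j (f a x) = ∫ t in a..b, deriv j (f t x) * g t x` (intervalIntegral.integral_eq_sub_of_hasDerivAt_of_le: continuous on [a,b], derivative inside, the derivative is continuous on [a,b]). Multiply by Ψ x, integrate in x and swap the two integrals: the integrand is jointly continuous on
`Icc a b ×ˢ univ` and bounded by `B |Ψ x|` where B bounds `|deriv j| K` on `[-K, K]` (compactness) (intervalIntegral.integral_integral_swap or MeasureTheory.integral_integral_swap with the restricted measure; integrability on the product: Integrable.mono' against `B |Ψ|` on the finite measure space [a,b] times E3). The difference of the integrals: both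
`j (f b ·) Ψ`, `j (f a ·) Ψ` are integrable (bounded continuous times integrable).
en1 PROOF. All functions are bounded, the weight is integrable and `|pd i Ψ| ≤ cΨ`, `|pd i pd i Ψ| ≤ c²Ψ`, so every product is integrable. For each i (ibpI): `∫ deriv j (f) Ψ pd i (pd i f) = - ∫ pd i (deriv j (f) Ψ) pd i f = - ∫ j''(f) (pd i f)² Ψ - ∫ j'(f) pd i f pd i Ψ`, and `- ∫ pd i (j∘f) pd i Ψ = ∫ j(f) pd i (pd i Ψ)`.
Transport: `∑ b_i pd i (j∘f) Ψ`: `∫ b_i Ψ pd i (j∘f) = - ∫ j(f) (pd i b_i Ψ + b_i pd i Ψ)`, the sum over i of the first terms vanishes (div b = 0; pd i (b_i) = fderiv b x (e i) i: pd_comp). So `- ∫ j'(f) adv b f Ψ = ∫ j(f) adv b Ψ`.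
-/
import Pool.Agent.H16.TU.Ba

set_option autoImplicit false

open Set Filter Topology MeasureTheory
open scoped ContDiff

namespace Pool.Agent.H16.TU

open Pool.Agent.H16 Pool.Agent.H87.NS Pool.Agent.H72.CC

theorem Tb_bd {h : ℝ → ℝ} (hh : Continuous h) (K : ℝ) : ∃ B : ℝ, 0 ≤ B ∧ ∀ y : ℝ, |y| ≤ K → |h y| ≤ B := by
  obtain ⟨B, hB⟩ := isCompact_Icc.exists_bound_of_continuousOn (s := Icc (-K) K) (f := h) hh.continuousOn
  refine ⟨max B 0, le_max_right _ _, fun y hy => ?_⟩
  have h1 := hB y (abs_le.1 hy)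
  rw [Real.norm_eq_abs] at h1
  exact h1.trans (le_max_left _ _)

theorem en0 {a b K : ℝ} (hab : a ≤ b) {f g : ℝ → E3 → ℝ}
    (hf : ContinuousOn (fun q : ℝ × E3 => f q.1 q.2) (Icc a b ×ˢ univ)) (hg : ContinuousOn (fun q : ℝ × E3 => g q.1 q.2) (Icc a b ×ˢ univ))
    (hd : ∀ t ∈ Ioo a b, ∀ x, HasDerivAt (fun s => f s x) (g t x) t) (hK : ∀ t ∈ Icc a b, ∀ x, |f t x| ≤ K ∧ |g t x| ≤ K)
    {j : ℝ → ℝ} (hj : ContDiff ℝ 1 j) {Ψ : E3 → ℝ} (hΨ : Continuous Ψ) (hi : Integrable Ψ) :
    (∫ x, j (f b x) * Ψ x) - ∫ x, j (f a x) * Ψ x = ∫ t in a..b, ∫ x, deriv j (f t x) * g t x * Ψ x := by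
  have hj' : Continuous (deriv j) := hj.continuous_deriv (le_refl _)
  obtain ⟨B0, hB00, hB0⟩ := Tb_bd hj.continuous K
  obtain ⟨B1, hB10, hB1⟩ := Tb_bd hj' K
  have ha : a ∈ Icc a b := ⟨le_refl _, hab⟩
  have hb : b ∈ Icc a b := ⟨hab, le_refl _⟩
  have hft : ∀ t ∈ Icc a b, Continuous (f t) := by
    intro t ht
    have h1 : ContinuousOn (fun x : E3 => f t x) univ :=
      hf.comp (f := fun x : E3 => (t, x)) (by fun_prop) (fun x _ => ⟨ht, mem_univ _⟩)
    exact continuousOn_univ.1 h1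
  have hint : ∀ t ∈ Icc a b, Integrable (fun x => j (f t x) * Ψ x) := by
    intro t ht
    refine Integrable.mono' (hi.norm.const_mul B0) ((hj.continuous.comp (hft t ht)).mul hΨ).aestronglyMeasurable
      (Eventually.of_forall fun x => ?_)
    rw [Real.norm_eq_abs, abs_mul, Real.norm_eq_abs]
    exact mul_le_mul_of_nonneg_right (hB0 _ (hK t ht x).1) (abs_nonneg _)
  have hfx : ∀ x, ContinuousOn (fun t => f t x) (Icc a b) := by
    intro x
    exact hf.comp (f := fun t : ℝ => (t, x)) (by fun_prop) (fun t ht => ⟨ht, mem_univ _⟩)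
  have hgx : ∀ x, ContinuousOn (fun t => g t x) (Icc a b) := by
    intro x
    exact hg.comp (f := fun t : ℝ => (t, x)) (by fun_prop) (fun t ht => ⟨ht, mem_univ _⟩)
  have key : ∀ x, ∫ t in a..b, deriv j (f t x) * g t x = j (f b x) - j (f a x) := by
    intro x
    refine intervalIntegral.integral_eq_sub_of_hasDerivAt_of_le hab
      (f := fun t => j (f t x)) (hj.continuous.comp_continuousOn (hfx x)) ?_ ?_
    · intro t ht
      have h1 : HasDerivAt j (deriv j (f t x)) (f t x) :=
        (hj.differentiable one_ne_zero (f t x)).hasDerivAt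
      exact h1.comp t (hd t ht x)
    · refine ContinuousOn.intervalIntegrable_of_Icc hab ?_
      exact (hj'.comp_continuousOn (hfx x)).mul (hgx x)
  have hμ : (volume : Measure E3).prod ((volume : Measure ℝ).restrict (Ioc a b)) =
      ((volume : Measure E3).prod (volume : Measure ℝ)).restrict (univ ×ˢ Ioc a b) := by
    rw [← Measure.prod_restrict, Measure.restrict_univ]
  have hsw : ContinuousOn (fun q : E3 × ℝ => deriv j (f q.2 q.1) * g q.2 q.1 * Ψ q.1) (univ ×ˢ Ioc a b) := by
    have m : MapsTo (fun q : E3 × ℝ => (q.2, q.1)) (univ ×ˢ Ioc a b) (Icc a b ×ˢ univ) :=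
      fun q hq => ⟨Ioc_subset_Icc_self hq.2, mem_univ _⟩
    have c0 : ContinuousOn (fun q : E3 × ℝ => (q.2, q.1)) (univ ×ˢ Ioc a b) := by fun_prop
    have c1 : ContinuousOn (fun q : E3 × ℝ => f q.2 q.1) (univ ×ˢ Ioc a b) := hf.comp c0 m
    have c2 : ContinuousOn (fun q : E3 × ℝ => g q.2 q.1) (univ ×ˢ Ioc a b) := hg.comp c0 m
    exact ((hj'.comp_continuousOn c1).mul c2).mul (hΨ.comp continuous_fst).continuousOn
  have hI : Integrable (Function.uncurry fun (x : E3) (t : ℝ) => deriv j (f t x) * g t x * Ψ x)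
      ((volume : Measure E3).prod ((volume : Measure ℝ).restrict (Ioc a b))) := by
    have hdom : Integrable (fun q : E3 × ℝ => B1 * K * ‖Ψ q.1‖)
        ((volume : Measure E3).prod ((volume : Measure ℝ).restrict (Ioc a b))) :=
      (hi.norm.const_mul (B1 * K)).comp_fst _
    refine Integrable.mono' hdom ?_ ?_
    · rw [hμ]
      exact hsw.aestronglyMeasurable (MeasurableSet.univ.prod measurableSet_Ioc)
    · rw [hμ, ae_restrict_iff' (MeasurableSet.univ.prod measurableSet_Ioc)]
      refine Eventually.of_forall fun q hq => ?_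
      have h1 := hK q.2 (Ioc_subset_Icc_self hq.2) q.1
      have hq' : Function.uncurry (fun (x : E3) (t : ℝ) => deriv j (f t x) * g t x * Ψ x) q =
        deriv j (f q.2 q.1) * g q.2 q.1 * Ψ q.1 := rfl
      rw [hq', norm_mul]
      refine mul_le_mul_of_nonneg_right ?_ (norm_nonneg _)
      rw [Real.norm_eq_abs, abs_mul]
      exact mul_le_mul (hB1 _ h1.1) h1.2 (abs_nonneg _) hB10
  calc (∫ x, j (f b x) * Ψ x) - ∫ x, j (f a x) * Ψ x
      = ∫ x, (j (f b x) * Ψ x - j (f a x) * Ψ x) := (integral_sub (hint b hb) (hint a ha)).symm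
    _ = ∫ x, ∫ t in Ioc a b, deriv j (f t x) * g t x * Ψ x := by
        refine integral_congr_ae (Eventually.of_forall fun x => ?_)
        have h1 : ∫ t in Ioc a b, deriv j (f t x) * g t x * Ψ x =
            (∫ t in Ioc a b, deriv j (f t x) * g t x) * Ψ x := integral_mul_const _ _
        change j (f b x) * Ψ x - j (f a x) * Ψ x = ∫ t in Ioc a b, deriv j (f t x) * g t x * Ψ x
        rw [h1, ← intervalIntegral.integral_of_le hab, key x]
        ring
    _ = ∫ t in Ioc a b, ∫ x, deriv j (f t x) * g t x * Ψ x := integral_integral_swap hI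
    _ = _ := (intervalIntegral.integral_of_le hab).symm

theorem Tb_pdc {h : ℝ → ℝ} {f : E3 → ℝ} {x : E3} (hh : DifferentiableAt ℝ h (f x))
    (hf : DifferentiableAt ℝ f x) (i : Fin 3) :
    pd i (fun y => h (f y)) x = deriv h (f x) * pd i f x := by
  have h1 : HasFDerivAt (fun y => h (f y)) (deriv h (f x) • fderiv ℝ f x) x :=
    hh.hasDerivAt.comp_hasFDerivAt x hf.hasFDerivAt
  unfold pd
  rw [h1.fderiv]
  rfl

theorem Tb_int {c : ℝ} {Ψ G : E3 → ℝ} (w : Wc c Ψ) (C : ℝ) (hG : Continuous G) (h : ∀ x, |G x| ≤ C * Ψ x) :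
    Integrable G :=
  Integrable.mono' (w.int.const_mul C) hG.aestronglyMeasurable (Eventually.of_forall fun x => by
    rw [Real.norm_eq_abs]
    exact h x)

theorem en1 {c K : ℝ} {f Ψ : E3 → ℝ} {b : E3 → E3} (w : Wc c Ψ) (hf : ContDiff ℝ ∞ f) (hb : ContDiff ℝ ∞ b)
    (hfK : ∀ x, |f x| ≤ K ∧ (∀ i, |pd i f x| ≤ K) ∧ ∀ i, |pd i (pd i f) x| ≤ K) (hbK : ∀ x, ‖b x‖ ≤ K ∧ ∀ i, |pd i (fun y => b y i) x| ≤ K)
    (hdiv : ∀ x, ∑ i : Fin 3, fderiv ℝ b x (e i) i = 0) {j : ℝ → ℝ} (hj : ContDiff ℝ 2 j) :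
    ∫ x, deriv j (f x) * (lap f x - adv (b x) f x) * Ψ x =
      (- ∫ x, deriv (deriv j) (f x) * gsq f x * Ψ x) + ∫ x, j (f x) * (lap Ψ x + adv (b x) Ψ x) := by
  have hj1 : ContDiff ℝ 1 (deriv j) := by
    have h2 : (1 : WithTop ℕ∞) + 1 = 2 := one_add_one_eq_two
    have h := (contDiff_succ_iff_deriv (n := 1) (f := j)).1 (by rw [h2]; exact hj)
    exact h.2.2
  have hj2 : Continuous (deriv (deriv j)) := hj1.continuous_deriv (le_refl _)
  have hj1c : Continuous (deriv j) := hj1.continuous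
  have hj0c : Continuous j := hj.continuous
  have hjd : Differentiable ℝ j := hj.differentiable two_ne_zero
  have hj1d : Differentiable ℝ (deriv j) := hj1.differentiable one_ne_zero
  obtain ⟨B0, hB00, hB0⟩ := Tb_bd hj0c K
  obtain ⟨B1, hB10, hB1⟩ := Tb_bd hj1c K
  obtain ⟨B2, hB20, hB2⟩ := Tb_bd hj2 K
  have hK0 : 0 ≤ K := (abs_nonneg _).trans (hfK 0).1
  have hfc : Continuous f := hf.continuous
  have hfd : Differentiable ℝ f := hf.differentiable (by simp)
  have hΨc : Continuous Ψ := w.sm.continuous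
  have hΨd : Differentiable ℝ Ψ := w.sm.differentiable (by simp)
  have hf1 : ∀ i, ContDiff ℝ ∞ (pd i f) := fun i => pd_smooth hf i
  have hf2 : ∀ i, ContDiff ℝ ∞ (pd i (pd i f)) := fun i => pd_smooth (hf1 i) i
  have hΨ1 : ∀ i, ContDiff ℝ ∞ (pd i Ψ) := fun i => pd_smooth w.sm i
  have hΨ2 : ∀ i, ContDiff ℝ ∞ (pd i (pd i Ψ)) := fun i => pd_smooth (hΨ1 i) i
  have hbi : ∀ i : Fin 3, ContDiff ℝ ∞ (fun y => b y i) := fun i => contDiff_euclidean.1 hb i
  have hbi1 : ∀ i : Fin 3, ContDiff ℝ ∞ (pd i (fun y => b y i)) := fun i => pd_smooth (hbi i) i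
  have hbb : ∀ (i : Fin 3) x, |b x i| ≤ K := fun i x =>
    ((Real.norm_eq_abs (b x i)).symm.le.trans (PiLp.norm_apply_le (b x) i)).trans (hbK x).1
  have b0 : ∀ x, |j (f x)| ≤ B0 := fun x => hB0 _ (hfK x).1
  have b1 : ∀ x, |deriv j (f x)| ≤ B1 := fun x => hB1 _ (hfK x).1
  have b2 : ∀ x, |deriv (deriv j) (f x)| ≤ B2 := fun x => hB2 _ (hfK x).1
  have hc0 : Continuous fun x => j (f x) := hj0c.comp hfc
  have hc1 : Continuous fun x => deriv j (f x) := hj1c.comp hfc
  have hc2 : Continuous fun x => deriv (deriv j) (f x) := hj2.comp hfc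
  have nn := w.nn
  have absΨ : ∀ x, |Ψ x| = Ψ x := fun x => abs_of_nonneg (nn x)
  -- products of bounds
  have mm : ∀ {p q r s : ℝ}, |p| ≤ r → |q| ≤ s → |p * q| ≤ r * s := by
    intro p q r s h1 h2
    rw [abs_mul]
    exact mul_le_mul h1 h2 (abs_nonneg _) ((abs_nonneg _).trans h1)
  have aΨ : ∀ x, |Ψ x| ≤ Ψ x := fun x => (absΨ x).le
  -- integrability
  have IA : ∀ i, Integrable fun x => (deriv j (f x) * Ψ x) * pd i (pd i f) x := fun i =>
    Tb_int w (B1 * K) ((hc1.mul hΨc).mul (hf2 i).continuous) fun x => by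
      have := mm (mm (b1 x) (aΨ x)) ((hfK x).2.2 i)
      linarith
  have IJ : ∀ i, Integrable fun x => deriv (deriv j) (f x) * pd i f x ^ 2 * Ψ x := fun i =>
    Tb_int w (B2 * (K * K)) ((hc2.mul ((hf1 i).continuous.pow 2)).mul hΨc) fun x => by
      have := mm (mm (b2 x) (mm ((hfK x).2.1 i) ((hfK x).2.1 i))) (aΨ x)
      rw [pow_two]
      exact this
  have IC : ∀ i, Integrable fun x => deriv j (f x) * pd i f x * pd i Ψ x := fun i =>
    Tb_int w (B1 * K * c) ((hc1.mul (hf1 i).continuous).mul (hΨ1 i).continuous) fun x => by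
      have := mm (mm (b1 x) ((hfK x).2.1 i)) (w.g1 i x)
      linarith
  have IL : ∀ i, Integrable fun x => j (f x) * pd i (pd i Ψ) x := fun i =>
    Tb_int w (B0 * c ^ 2) (hc0.mul (hΨ2 i).continuous) fun x => by
      have := mm (b0 x) (w.g2 i x)
      linarith
  have IT : ∀ i : Fin 3, Integrable fun x => (b x i * Ψ x) * (deriv j (f x) * pd i f x) := fun i =>
    Tb_int w (K * (B1 * K)) (((hbi i).continuous.mul hΨc).mul (hc1.mul (hf1 i).continuous)) fun x => by
      have := mm (mm (hbb i x) (aΨ x)) (mm (b1 x) ((hfK x).2.1 i))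
      linarith
  have ID : ∀ i : Fin 3, Integrable fun x => pd i (fun y => b y i) x * (j (f x) * Ψ x) := fun i =>
    Tb_int w (K * B0) ((hbi1 i).continuous.mul (hc0.mul hΨc)) fun x => by
      have := mm ((hbK x).2 i) (mm (b0 x) (aΨ x))
      linarith
  have IB : ∀ i : Fin 3, Integrable fun x => j (f x) * (b x i * pd i Ψ x) := fun i =>
    Tb_int w (B0 * (K * c)) (hc0.mul ((hbi i).continuous.mul (hΨ1 i).continuous)) fun x => by
      have := mm (b0 x) (mm (hbb i x) (w.g1 i x))
      linarith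
  -- first identity
  have e1 : ∀ i, ∫ x, (deriv j (f x) * Ψ x) * pd i (pd i f) x =
      (- ∫ x, deriv (deriv j) (f x) * pd i f x ^ 2 * Ψ x) - ∫ x, deriv j (f x) * pd i f x * pd i Ψ x := by
    intro i
    have hder : ∀ x, pd i (fun y => deriv j (f y) * Ψ y) x =
        deriv (deriv j) (f x) * pd i f x * Ψ x + deriv j (f x) * pd i Ψ x := by
      intro x
      rw [Psi_mul (f := fun y => deriv j (f y)) ((hj1d _).comp x (hfd x)) (hΨd x) i,
        Tb_pdc (hj1d _) (hfd x) i]
    have hsum : ∀ x, pd i (fun y => deriv j (f y) * Ψ y) x * pd i f x =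
        deriv (deriv j) (f x) * pd i f x ^ 2 * Ψ x + deriv j (f x) * pd i f x * pd i Ψ x := by
      intro x
      rw [hder x]
      ring
    have h := ibpI (f := fun y => deriv j (f y) * Ψ y) (g := pd i f)
      (fun x => ((hj1d _).comp x (hfd x)).mul (hΨd x)) ((hf1 i).differentiable (by simp)) i
      (by
        simp only [hsum]
        exact (IJ i).add (IC i))
      (IA i)
      (Tb_int w (B1 * K) ((hc1.mul hΨc).mul (hf1 i).continuous) fun x => by
        have := mm (mm (b1 x) (aΨ x)) ((hfK x).2.1 i)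
        linarith)
    rw [h]
    simp only [hsum]
    rw [integral_add (IJ i) (IC i)]
    ring
  -- second identity
  have e2 : ∀ i, ∫ x, j (f x) * pd i (pd i Ψ) x = - ∫ x, deriv j (f x) * pd i f x * pd i Ψ x := by
    intro i
    have hder : ∀ x, pd i (fun y => j (f y)) x = deriv j (f x) * pd i f x := fun x =>
      Tb_pdc (hjd _) (hfd x) i
    have h := ibpI (f := fun y => j (f y)) (g := pd i Ψ)
      (fun x => (hjd _).comp x (hfd x)) ((hΨ1 i).differentiable (by simp)) i
      (by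
        simp only [hder]
        exact IC i)
      (IL i)
      (Tb_int w (B0 * c) (hc0.mul (hΨ1 i).continuous) fun x => by
        have := mm (b0 x) (w.g1 i x)
        linarith)
    rw [h]
    simp only [hder]
  -- third identity
  have e3 : ∀ i : Fin 3, ∫ x, (b x i * Ψ x) * (deriv j (f x) * pd i f x) =
      (- ∫ x, pd i (fun y => b y i) x * (j (f x) * Ψ x)) - ∫ x, j (f x) * (b x i * pd i Ψ x) := by
    intro i
    have hder : ∀ x, pd i (fun y => j (f y)) x = deriv j (f x) * pd i f x := fun x =>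
      Tb_pdc (hjd _) (hfd x) i
    have hbd : Differentiable ℝ fun y => b y i := (hbi i).differentiable (by simp)
    have hsum : ∀ x, pd i (fun y => b y i * Ψ y) x * j (f x) =
        pd i (fun y => b y i) x * (j (f x) * Ψ x) + j (f x) * (b x i * pd i Ψ x) := by
      intro x
      rw [Psi_mul (f := fun y => b y i) (hbd x) (hΨd x) i]
      ring
    have h := ibpI (f := fun y => b y i * Ψ y) (g := fun y => j (f y))
      (fun x => (hbd x).mul (hΨd x)) (fun x => (hjd _).comp x (hfd x)) i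
      (by
        simp only [hsum]
        exact (ID i).add (IB i))
      (by
        simp only [hder]
        exact IT i)
      (Tb_int w (K * B0) (((hbi i).continuous.mul hΨc).mul hc0) fun x => by
        have := mm (mm (hbb i x) (aΨ x)) (b0 x)
        linarith)
    simp only [hder, hsum] at h
    rw [h, integral_add (ID i) (IB i)]
    ring
  -- divergence
  have e4 : ∑ i : Fin 3, ∫ x, pd i (fun y => b y i) x * (j (f x) * Ψ x) = 0 := by
    rw [← integral_finsetSum _ fun i _ => ID i]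
    have h0 : ∀ x, ∑ i : Fin 3, pd i (fun y => b y i) x * (j (f x) * Ψ x) = 0 := by
      intro x
      rw [← Finset.sum_mul]
      have h1 : ∑ i : Fin 3, pd i (fun y => b y i) x = 0 := by
        rw [← hdiv x]
        exact Finset.sum_congr rfl fun i _ => pd_comp hb i i x
      rw [h1, zero_mul]
    simp only [h0, integral_zero]
  -- the left side
  have eL : ∫ x, deriv j (f x) * (lap f x - adv (b x) f x) * Ψ x =
      ∑ i : Fin 3, ((∫ x, (deriv j (f x) * Ψ x) * pd i (pd i f) x) -
        ∫ x, (b x i * Ψ x) * (deriv j (f x) * pd i f x)) := by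
    have h1 : ∀ x, deriv j (f x) * (lap f x - adv (b x) f x) * Ψ x =
        ∑ i : Fin 3, ((deriv j (f x) * Ψ x) * pd i (pd i f) x -
          (b x i * Ψ x) * (deriv j (f x) * pd i f x)) := by
      intro x
      rw [lap, adv, Finset.sum_sub_distrib, ← Finset.mul_sum]
      have h2 : ∑ i : Fin 3, (b x i * Ψ x) * (deriv j (f x) * pd i f x) =
          deriv j (f x) * Ψ x * ∑ i : Fin 3, b x i * pd i f x := by
        rw [Finset.mul_sum]
        exact Finset.sum_congr rfl fun i _ => by ring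
      rw [h2]
      ring
    simp only [h1]
    refine (integral_finsetSum _ fun i _ => (IA i).sub (IT i)).trans ?_
    exact Finset.sum_congr rfl fun i _ => integral_sub (IA i) (IT i)
  -- the right side
  have eR1 : ∫ x, deriv (deriv j) (f x) * gsq f x * Ψ x =
      ∑ i : Fin 3, ∫ x, deriv (deriv j) (f x) * pd i f x ^ 2 * Ψ x := by
    rw [← integral_finsetSum _ fun i _ => IJ i]
    refine integral_congr_ae (Eventually.of_forall fun x => ?_)
    change deriv (deriv j) (f x) * gsq f x * Ψ x = ∑ i : Fin 3, deriv (deriv j) (f x) * pd i f x ^ 2 * Ψ x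
    rw [gsq, Finset.mul_sum, Finset.sum_mul]
  have eR2 : ∫ x, j (f x) * (lap Ψ x + adv (b x) Ψ x) =
      ∑ i : Fin 3, ((∫ x, j (f x) * pd i (pd i Ψ) x) + ∫ x, j (f x) * (b x i * pd i Ψ x)) := by
    have h1 : ∀ x, j (f x) * (lap Ψ x + adv (b x) Ψ x) =
        ∑ i : Fin 3, (j (f x) * pd i (pd i Ψ) x + j (f x) * (b x i * pd i Ψ x)) := by
      intro x
      rw [lap, adv, Finset.sum_add_distrib, ← Finset.mul_sum, ← Finset.mul_sum]
      ring
    simp only [h1]
    refine (integral_finsetSum _ fun i _ => (IL i).add (IB i)).trans ?_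
    exact Finset.sum_congr rfl fun i _ => integral_add (IL i) (IB i)
  rw [eL, eR1, eR2]
  simp only [e1, e3, e2]
  simp only [Fin.sum_univ_three] at e4 ⊢
  linarith

end Pool.Agent.H16.TU
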