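/-
ROW Tc (MP_09540e_TU). The energy identity. PROOF. Fix `T' ∈ (b, T)`. For each component k put `f = u_k`, `g t x = lap u_k - adv u u_k - pd k (p t) x`; jointly continuous on `Icc a b ×ˢ univ` (smooth_u, smooth_p: js_u, JS_pd, JS_JC; p is jointly smooth on Ico 0 T), `HasDerivAt (fun s => u s x k) (g t x) t` for `t ∈ Ioo a b` (ns_comp in H87/NS/Vort.lean
for the value of the derivative, h.ns.hasDerivAt_time / differentiability from smooth_u for the existence), and bounded: gv_u, and `|pd k (p t) x| ≤ K` for `t ∈ Ioo 0 T'` (pres, Pm.lean), hence for all `t ∈ Icc a b` by continuity in t (also t = 0). en0 with `j s = s²/2`: `(∫ u_k(b)² Ψ - ∫ u_k(a)² Ψ)/2 = ∫_a^b ∫ u_k g Ψ`.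
At fixed t: en1 with `b = u t`, `j s = s²/2` (deriv j = id, deriv (deriv j) = 1): `∫ u_k (lap u_k - adv u u_k) Ψ = - ∫ gsq u_k Ψ + ∫ u_k²/2 (lap Ψ + adv u Ψ)`. Sum over k: `‖u‖² = ∑ u_k²`, `gv = ∑ gsq u_k`. The time integrands are continuous on Icc a b (tc), so the interval integrals may be split; |lap Ψ| ≤ 3c²Ψ and |adv u Ψ| ≤ 3 K c Ψ
(for the continuity of `t ↦ ∫ ‖u‖² (lap Ψ + adv u Ψ)` write it as `∫ Φ t x * Ψ x` with `Φ = ‖u‖² (lap Ψ + adv u Ψ) / Ψ` if Ψ > 0, or use continuity by domination directly).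
-/
import Pool.Agent.H16.TU.Tb
import Pool.Agent.H16.TU.Ta
import Pool.Agent.H16.TU.Pm

set_option autoImplicit false

open Set Filter Topology MeasureTheory
open scoped ContDiff

namespace Pool.Agent.H16.TU

open Pool.Agent.H16 Pool.Agent.H87.NS Pool.Agent.H72.CC

theorem Tc_dj : deriv (fun s : ℝ => s ^ 2 / 2) = fun s => s := by
  funext s
  have h : HasDerivAt (fun s : ℝ => s ^ 2 / 2) ((2 : ℕ) * s ^ (2 - 1) / 2) s := (hasDerivAt_pow 2 s).div_const 2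
  rw [h.deriv]
  push_cast
  ring

theorem Tc_sl {T : ℝ} {f : ℝ → E3 → ℝ} (hf : JC T f) {t : ℝ} (ht : t ∈ Ico 0 T) : Continuous (f t) := by
  have h1 : ContinuousOn (fun x : E3 => f t x) univ :=
    ContinuousOn.comp (f := fun x : E3 => (t, x)) hf (by fun_prop) (fun x _ => ⟨ht, mem_univ _⟩)
  exact continuousOn_univ.1 h1

theorem Tc_st {T : ℝ} {f : ℝ → E3 → ℝ} (hf : JC T f) (x : E3) : ContinuousOn (fun t => f t x) (Ico 0 T) :=
  ContinuousOn.comp (f := fun t : ℝ => (t, x)) hf (by fun_prop) (fun t ht => ⟨ht, mem_univ _⟩)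

theorem Tc_jp {T : ℝ} {u : ℝ → E3 → E3} {p : ℝ → E3 → ℝ} (h : IsHInfAxisymNS T u p) (k : Fin 3) :
    JC T (fun t x => pd k (p t) x) := JS_JC (JS_pd h.ns.smooth_p k)

theorem Tc_ju {T : ℝ} {u : ℝ → E3 → E3} {p : ℝ → E3 → ℝ} (h : IsHInfAxisymNS T u p) (k : Fin 3) :
    JC T (fun t x => u t x k) := JS_JC (js_u h.ns k)

theorem Tc_jn {T : ℝ} {u : ℝ → E3 → E3} {p : ℝ → E3 → ℝ} (h : IsHInfAxisymNS T u p) :
    JC T (fun t x => ‖u t x‖ ^ 2) := by
  have h1 : ContinuousOn (fun q : ℝ × E3 => u q.1 q.2) (Ico 0 T ×ˢ univ) := h.ns.smooth_u.continuousOn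
  exact h1.norm.pow 2

theorem Tc_jd {T : ℝ} {u : ℝ → E3 → E3} {p : ℝ → E3 → ℝ} (h : IsHInfAxisymNS T u p) (i k : Fin 3) :
    JC T (fun t x => pd i (fun y => u t y k) x) := JS_JC (JS_pd (js_u h.ns k) i)

theorem Tc_jl {T : ℝ} {u : ℝ → E3 → E3} {p : ℝ → E3 → ℝ} (h : IsHInfAxisymNS T u p) (k : Fin 3) :
    JC T (fun t x => lap (fun y => u t y k) x) := by
  have h1 : ∀ i : Fin 3, JC T (fun t x => pd i (pd i (fun y => u t y k)) x) := fun i =>
    JS_JC (JS_pd (JS_pd (js_u h.ns k) i) i)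
  unfold lap
  simp only [Fin.sum_univ_three]
  exact JC_add (JC_add (h1 0) (h1 1)) (h1 2)

theorem Tc_ja {T : ℝ} {u : ℝ → E3 → E3} {p : ℝ → E3 → ℝ} (h : IsHInfAxisymNS T u p) (k : Fin 3) :
    JC T (fun t x => adv (u t x) (fun y => u t y k) x) := by
  have h1 : ∀ i : Fin 3, JC T (fun t x => u t x i * pd i (fun y => u t y k) x) := fun i =>
    JC_mul (Tc_ju h i) (Tc_jd h i k)
  unfold adv
  simp only [Fin.sum_univ_three]
  exact JC_add (JC_add (h1 0) (h1 1)) (h1 2)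

theorem Tc_jg {T : ℝ} {u : ℝ → E3 → E3} {p : ℝ → E3 → ℝ} (h : IsHInfAxisymNS T u p) (k : Fin 3) :
    JC T (fun t x => lap (fun y => u t y k) x - adv (u t x) (fun y => u t y k) x - pd k (p t) x) :=
  ContinuousOn.sub (ContinuousOn.sub (Tc_jl h k) (Tc_ja h k)) (Tc_jp h k)

/-- The gradient of the pressure is bounded up to the initial time. -/
theorem Tc_p {T : ℝ} {u : ℝ → E3 → E3} {p : ℝ → E3 → ℝ} (h : IsHInfAxisymNS T u p) {T' : ℝ} (hT' : T' < T) :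
    ∃ K : ℝ, 0 ≤ K ∧ ∀ t ∈ Icc 0 T', ∀ (x : E3) (k : Fin 3), |pd k (p t) x| ≤ K := by
  rcases lt_or_ge T' 0 with h0 | h0
  · exact ⟨0, le_rfl, fun t ht => absurd (ht.1.trans ht.2) (not_le.2 h0)⟩
  obtain ⟨T2, h1, h2⟩ := exists_between hT'
  obtain ⟨K, hK⟩ := pres h h2
  have hT2 : 0 < T2 := by linarith
  have hK0 : 0 ≤ K := (abs_nonneg _).trans (hK (T2 / 2) ⟨by linarith, by linarith⟩ 0 0).1
  refine ⟨K, hK0, fun t ht x k => ?_⟩
  rcases ht.1.eq_or_lt with h3 | h3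
  · have hc : ContinuousWithinAt (fun s => pd k (p s) x) (Ico 0 T) 0 :=
      Tc_st (Tc_jp h k) x 0 ⟨le_rfl, by linarith⟩
    have h4 : Tendsto (fun s => |pd k (p s) x|) (𝓝[Ioo 0 T2] 0) (𝓝 |pd k (p 0) x|) :=
      (hc.mono (fun s hs => ⟨hs.1.le, hs.2.trans h2⟩)).abs
    have hne : (𝓝[Ioo 0 T2] (0:ℝ)).NeBot := by
      rw [nhdsWithin_Ioo_eq_nhdsGT hT2]
      infer_instance
    rw [← h3]
    refine le_of_tendsto h4 ?_
    filter_upwards [self_mem_nhdsWithin] with s hs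
    exact (hK s hs x k).1
  · exact (hK t ⟨h3, ht.2.trans_lt h1⟩ x k).1

theorem Tc_co (x : E3) (i : Fin 3) : |x i| ≤ ‖x‖ := by
  have h := PiLp.norm_apply_le x i
  rwa [Real.norm_eq_abs] at h

theorem Tc_adv {w : E3} {f : E3 → ℝ} {x : E3} {A B : ℝ} (h1 : ‖w‖ ≤ A) (h2 : ∀ i, |pd i f x| ≤ B) :
    |adv w f x| ≤ 3 * (A * B) := by
  have h3 : ∀ i : Fin 3, |w i * pd i f x| ≤ A * B := by
    intro i
    rw [abs_mul]
    exact mul_le_mul ((Tc_co w i).trans h1) (h2 i) (abs_nonneg _) ((norm_nonneg _).trans h1)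
  unfold adv
  rw [Fin.sum_univ_three]
  have g1 := abs_add_le (w 0 * pd 0 f x + w 1 * pd 1 f x) (w 2 * pd 2 f x)
  have g2 := abs_add_le (w 0 * pd 0 f x) (w 1 * pd 1 f x)
  have := h3 0
  have := h3 1
  have := h3 2
  linarith

/-- All the bounds at once. -/
theorem Tc_all {T : ℝ} {u : ℝ → E3 → E3} {p : ℝ → E3 → ℝ} (h : IsHInfAxisymNS T u p) {T' : ℝ} (hT' : T' < T) :
    ∃ K : ℝ, 0 ≤ K ∧ ∀ t ∈ Icc 0 T', ∀ x, ‖u t x‖ ≤ K ∧ gv (u t) x ≤ K ∧ (∀ i j, |pd i (fun y => u t y j) x| ≤ K) ∧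
      (∀ i j k, |pd i (pd j (fun y => u t y k)) x| ≤ K) ∧ (∀ k, |pd k (p t) x| ≤ K) ∧
      ∀ k, |lap (fun y => u t y k) x - adv (u t x) (fun y => u t y k) x| ≤ K ∧
        |lap (fun y => u t y k) x - adv (u t x) (fun y => u t y k) x - pd k (p t) x| ≤ K := by
  obtain ⟨K, hK0, hK⟩ := gv_u h hT'
  obtain ⟨P, hP0, hP⟩ := Tc_p h hT'
  have hKK : 0 ≤ K * K := mul_nonneg hK0 hK0
  refine ⟨K + 3 * (K * K) + P, by positivity, fun t ht x => ?_⟩
  obtain ⟨h1, h2, h3, h4, h5, -⟩ := hK t ht x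
  have h6 : ∀ k, |lap (fun y => u t y k) x - adv (u t x) (fun y => u t y k) x| ≤ K + 3 * (K * K) := fun k =>
    (abs_sub _ _).trans (add_le_add (h5 k) (Tc_adv h1 fun i => h3 i k))
  refine ⟨by linarith, by linarith, fun i j => by linarith [h3 i j], fun i j k => by linarith [h4 i j k],
    fun k => by linarith [hP t ht x k], fun k => ⟨by linarith [h6 k], ?_⟩⟩
  exact (abs_sub _ _).trans (add_le_add (h6 k) (hP t ht x k))

theorem Tc_k {T c a b : ℝ} {u : ℝ → E3 → E3} {p : ℝ → E3 → ℝ} (h : IsHInfAxisymNS T u p) {Ψ : E3 → ℝ} (w : Wc c Ψ)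
    (ha : 0 ≤ a) (hab : a ≤ b) (hb : b < T) (k : Fin 3) :
    (∫ x, u b x k ^ 2 / 2 * Ψ x) - (∫ x, u a x k ^ 2 / 2 * Ψ x) =
      ∫ t in a..b, ∫ x, u t x k * (lap (fun y => u t y k) x - adv (u t x) (fun y => u t y k) x - pd k (p t) x) * Ψ x := by
  obtain ⟨K, hK0, hK⟩ := Tc_all h hb
  have hsub : Icc a b ×ˢ (univ : Set E3) ⊆ Ico 0 T ×ˢ univ := by
    rintro ⟨t, x⟩ ⟨ht, -⟩
    exact ⟨⟨ha.trans ht.1, ht.2.trans_lt hb⟩, mem_univ _⟩
  have hf : ContinuousOn (fun q : ℝ × E3 => u q.1 q.2 k) (Icc a b ×ˢ univ) :=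
    ContinuousOn.mono (Tc_ju h k) hsub
  have hg : ContinuousOn (fun q : ℝ × E3 => lap (fun y => u q.1 y k) q.2 -
      adv (u q.1 q.2) (fun y => u q.1 y k) q.2 - pd k (p q.1) q.2) (Icc a b ×ˢ univ) :=
    ContinuousOn.mono (Tc_jg h k) hsub
  have hj : ContDiff ℝ 1 (fun s : ℝ => s ^ 2 / 2) := (contDiff_id.pow 2).div_const 2
  have key := en0 (a := a) (b := b) (K := K) hab (f := fun t x => u t x k)
    (g := fun t x => lap (fun y => u t y k) x - adv (u t x) (fun y => u t y k) x - pd k (p t) x) hf hg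
    (fun t ht x => by
      have ht' : t ∈ Ioo 0 T := ⟨ha.trans_lt ht.1, ht.2.trans hb⟩
      have e1 := hasDerivAt_coord (h.ns.hasDerivAt_time ht' x) k
      have e2 := ns_comp h.ns ht' x k
      rw [e1.deriv] at e2
      refine e1.congr_deriv ?_
      simp only
      linarith)
    (fun t ht x => by
      have h1 := hK t ⟨ha.trans ht.1, ht.2⟩ x
      exact ⟨(Tc_co _ _).trans h1.1, (h1.2.2.2.2.2 k).2⟩)
    hj w.sm.continuous w.int
  rw [Tc_dj] at key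
  exact key

theorem Tc_t {T c : ℝ} {u : ℝ → E3 → E3} {p : ℝ → E3 → ℝ} (h : IsHInfAxisymNS T u p) {Ψ : E3 → ℝ} (w : Wc c Ψ)
    {t : ℝ} (ht : t ∈ Ico 0 T) :
    ∑ k : Fin 3, ∫ x, u t x k * (lap (fun y => u t y k) x - adv (u t x) (fun y => u t y k) x - pd k (p t) x) * Ψ x =
      - DD (u t) Ψ + ((∫ x, ‖u t x‖ ^ 2 * (lap Ψ x + adv (u t x) Ψ x)) / 2 -
      ∫ x, (∑ k : Fin 3, pd k (p t) x * (u t x k * Ψ x))) := by
  obtain ⟨K, hK0, hK'⟩ := Tc_all h ht.2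
  have hK := hK' t ⟨ht.1, le_rfl⟩
  have hv := vf_u h ht
  have hvk : ∀ k : Fin 3, ContDiff ℝ ∞ (fun y => u t y k) := fun k => contDiff_euclidean.1 hv.sm k
  have cu : ∀ k : Fin 3, Continuous fun x => u t x k := fun k => Tc_sl (Tc_ju h k) ht
  have cl : ∀ k : Fin 3, Continuous fun x => lap (fun y => u t y k) x := fun k => Tc_sl (Tc_jl h k) ht
  have ca : ∀ k : Fin 3, Continuous fun x => adv (u t x) (fun y => u t y k) x := fun k => Tc_sl (Tc_ja h k) ht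
  have cp : ∀ k : Fin 3, Continuous fun x => pd k (p t) x := fun k => Tc_sl (Tc_jp h k) ht
  have cd : ∀ i k : Fin 3, Continuous fun x => pd i (fun y => u t y k) x := fun i k => Tc_sl (Tc_jd h i k) ht
  have cΨ : ∀ i, Continuous (pd i Ψ) := fun i => (pd_smooth w.sm i).continuous
  have cΨ2 : ∀ i, Continuous (pd i (pd i Ψ)) := fun i => (pd_smooth (pd_smooth w.sm i) i).continuous
  have bu : ∀ (k : Fin 3) x, |u t x k| ≤ K := fun k x => (Tc_co _ _).trans (hK x).1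
  have mm : ∀ {p q r s : ℝ}, |p| ≤ r → |q| ≤ s → |p * q| ≤ r * s := by
    intro p q r s h1 h2
    rw [abs_mul]
    exact mul_le_mul h1 h2 (abs_nonneg _) ((abs_nonneg _).trans h1)
  have IA : ∀ k : Fin 3, Integrable fun x =>
      u t x k * (lap (fun y => u t y k) x - adv (u t x) (fun y => u t y k) x) * Ψ x := fun k =>
    wi w ((cu k).mul ((cl k).sub (ca k))) fun x => mm (bu k x) ((hK x).2.2.2.2.2 k).1
  have IB : ∀ k : Fin 3, Integrable fun x => pd k (p t) x * (u t x k * Ψ x) := by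
    intro k
    have h1 : Integrable fun x => (pd k (p t) x * u t x k) * Ψ x :=
      wi w ((cp k).mul (cu k)) fun x => mm ((hK x).2.2.2.2.1 k) (bu k x)
    refine h1.congr (Eventually.of_forall fun x => ?_)
    simp only
    ring
  have cg : ∀ k : Fin 3, Continuous fun x => gsq (fun y => u t y k) x := by
    intro k
    unfold gsq
    simp only [Fin.sum_univ_three]
    exact (((cd 0 k).pow 2).add ((cd 1 k).pow 2)).add ((cd 2 k).pow 2)
  have hg0 : ∀ (k : Fin 3) x, 0 ≤ gsq (fun y => u t y k) x := by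
    intro k x
    unfold gsq
    positivity
  have IG : ∀ k : Fin 3, Integrable fun x => gsq (fun y => u t y k) x * Ψ x := fun k =>
    wi w (cg k) fun x => by
      rw [abs_of_nonneg (hg0 k x)]
      exact (ba_gv x 0 k).2.2.1.trans (hK x).2.1
  have cL : Continuous fun x => lap Ψ x + adv (u t x) Ψ x := by
    unfold lap adv
    simp only [Fin.sum_univ_three]
    exact (((cΨ2 0).add (cΨ2 1)).add (cΨ2 2)).add
      ((((cu 0).mul (cΨ 0)).add ((cu 1).mul (cΨ 1))).add ((cu 2).mul (cΨ 2)))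
  have bL : ∀ x, |lap Ψ x + adv (u t x) Ψ x| ≤ (3 * c ^ 2 + 3 * (K * c)) * Ψ x := by
    intro x
    have h1 : |lap Ψ x| ≤ 3 * c ^ 2 * Ψ x := by
      unfold lap
      rw [Fin.sum_univ_three]
      have g1 := abs_add_le (pd 0 (pd 0 Ψ) x + pd 1 (pd 1 Ψ) x) (pd 2 (pd 2 Ψ) x)
      have g2 := abs_add_le (pd 0 (pd 0 Ψ) x) (pd 1 (pd 1 Ψ) x)
      have := w.g2 0 x
      have := w.g2 1 x
      have := w.g2 2 x
      linarith
    have h2 := Tc_adv (hK x).1 (fun i => w.g1 i x)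
    calc _ ≤ _ := abs_add_le _ _
      _ ≤ 3 * c ^ 2 * Ψ x + 3 * (K * (c * Ψ x)) := add_le_add h1 h2
      _ = _ := by ring
  have IR : ∀ k : Fin 3, Integrable fun x => u t x k ^ 2 / 2 * (lap Ψ x + adv (u t x) Ψ x) := by
    intro k
    refine Tb_int w (K * K / 2 * (3 * c ^ 2 + 3 * (K * c))) ((((cu k).pow 2).div_const 2).mul cL) fun x => ?_
    have h1 : |u t x k ^ 2 / 2| ≤ K * K / 2 := by
      have := mm (bu k x) (bu k x)
      rw [abs_div, pow_two, abs_of_pos (by norm_num : (0:ℝ) < 2)]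
      linarith
    have := mm h1 (bL x)
    linarith
  have e1 : ∀ k : Fin 3, ∫ x, u t x k * (lap (fun y => u t y k) x - adv (u t x) (fun y => u t y k) x -
      pd k (p t) x) * Ψ x = (- ∫ x, gsq (fun y => u t y k) x * Ψ x) +
      (∫ x, u t x k ^ 2 / 2 * (lap Ψ x + adv (u t x) Ψ x)) - ∫ x, pd k (p t) x * (u t x k * Ψ x) := by
    intro k
    have hj : ContDiff ℝ 2 (fun s : ℝ => s ^ 2 / 2) := (contDiff_id.pow 2).div_const 2
    have h1 := en1 (c := c) (K := K) (f := fun y => u t y k) (b := u t) w (hvk k) hv.sm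
      (fun x => ⟨bu k x, fun i => (hK x).2.2.1 i k, fun i => (hK x).2.2.2.1 i i k⟩)
      (fun x => ⟨(hK x).1, fun i => (hK x).2.2.1 i i⟩) hv.div hj
    rw [Tc_dj] at h1
    simp only [deriv_id'', one_mul] at h1
    rw [← h1, ← integral_sub (IA k) (IB k)]
    refine integral_congr_ae (Eventually.of_forall fun x => ?_)
    simp only
    ring
  simp only [e1]
  have s1 : DD (u t) Ψ = ∑ k : Fin 3, ∫ x, gsq (fun y => u t y k) x * Ψ x := by
    rw [← integral_finsetSum _ fun k _ => IG k]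
    unfold DD gv
    refine integral_congr_ae (Eventually.of_forall fun x => ?_)
    simp only [Finset.sum_mul]
  have s2 : (∫ x, ‖u t x‖ ^ 2 * (lap Ψ x + adv (u t x) Ψ x)) / 2 =
      ∑ k : Fin 3, ∫ x, u t x k ^ 2 / 2 * (lap Ψ x + adv (u t x) Ψ x) := by
    rw [← integral_finsetSum _ fun k _ => IR k, ← integral_div]
    refine integral_congr_ae (Eventually.of_forall fun x => ?_)
    simp only [Fin.sum_univ_three]
    rw [norm_sq_eq]
    ring
  have s3 : ∫ x, (∑ k : Fin 3, pd k (p t) x * (u t x k * Ψ x)) =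
      ∑ k : Fin 3, ∫ x, pd k (p t) x * (u t x k * Ψ x) := integral_finsetSum _ fun k _ => IB k
  rw [s1, s2, s3]
  simp only [Fin.sum_univ_three]
  ring

theorem Tc_sub {T a b : ℝ} (ha : 0 ≤ a) (hb : b < T) : Icc a b ⊆ Ico 0 T := fun _ ht => ⟨ha.trans ht.1, ht.2.trans_lt hb⟩

theorem enA_int {T c a b : ℝ} {u : ℝ → E3 → E3} {p : ℝ → E3 → ℝ} (h : IsHInfAxisymNS T u p) {Ψ : E3 → ℝ} (w : Wc c Ψ)
    (ha : 0 ≤ a) (hab : a ≤ b) (hb : b < T) :
    IntervalIntegrable (fun t => (∫ x, ‖u t x‖ ^ 2 * (lap Ψ x + adv (u t x) Ψ x)) / 2 -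
      ∫ x, (∑ k : Fin 3, pd k (p t) x * (u t x k * Ψ x))) volume a b := by
  have cΨ : ∀ i, Continuous (pd i Ψ) := fun i => (pd_smooth w.sm i).continuous
  have cΨ2 : ∀ i, Continuous (pd i (pd i Ψ)) := fun i => (pd_smooth (pd_smooth w.sm i) i).continuous
  have iΨ : ∀ i, Integrable (pd i Ψ) := fun i => Tb_int w c (cΨ i) (w.g1 i)
  have iΨ2 : ∀ i, Integrable (pd i (pd i Ψ)) := fun i => Tb_int w (c ^ 2) (cΨ2 i) (w.g2 i)
  have mm : ∀ {p q r s : ℝ}, |p| ≤ r → |q| ≤ s → |p * q| ≤ r * s := by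
    intro p q r s h1 h2
    rw [abs_mul]
    exact mul_le_mul h1 h2 (abs_nonneg _) ((abs_nonneg _).trans h1)
  have bn : ∀ T' < T, ∃ K : ℝ, ∀ t ∈ Icc 0 T', ∀ x, |‖u t x‖ ^ 2| ≤ K := by
    intro T' hT'
    obtain ⟨K, hK0, hK⟩ := Tc_all h hT'
    refine ⟨K * K, fun t ht x => ?_⟩
    rw [pow_two]
    have h1 : |‖u t x‖| ≤ K := by
      rw [abs_norm]
      exact (hK t ht x).1
    exact mm h1 h1
  have bn3 : ∀ i : Fin 3, ∀ T' < T, ∃ K : ℝ, ∀ t ∈ Icc 0 T', ∀ x, |‖u t x‖ ^ 2 * u t x i| ≤ K := by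
    intro i T' hT'
    obtain ⟨K, hK0, hK⟩ := Tc_all h hT'
    refine ⟨K * K * K, fun t ht x => ?_⟩
    rw [pow_two]
    have h1 : |‖u t x‖| ≤ K := by
      rw [abs_norm]
      exact (hK t ht x).1
    exact mm (mm h1 h1) ((Tc_co _ _).trans (hK t ht x).1)
  have bp : ∀ k : Fin 3, ∀ T' < T, ∃ K : ℝ, ∀ t ∈ Icc 0 T', ∀ x, |pd k (p t) x * u t x k| ≤ K := by
    intro i T' hT'
    obtain ⟨K, hK0, hK⟩ := Tc_all h hT'
    exact ⟨K * K, fun t ht x => mm ((hK t ht x).2.2.2.2.1 i) ((Tc_co _ _).trans (hK t ht x).1)⟩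
  have c1 : ∀ i, ContinuousOn (fun t => ∫ x, ‖u t x‖ ^ 2 * pd i (pd i Ψ) x) (Ico 0 T) := fun i =>
    tc (Tc_jn h) bn (cΨ2 i) (iΨ2 i)
  have c2 : ∀ i : Fin 3, ContinuousOn (fun t => ∫ x, ‖u t x‖ ^ 2 * u t x i * pd i Ψ x) (Ico 0 T) := fun i =>
    tc (Φ := fun t x => ‖u t x‖ ^ 2 * u t x i) (JC_mul (Tc_jn h) (Tc_ju h i)) (bn3 i) (cΨ i) (iΨ i)
  have c3 : ∀ k : Fin 3, ContinuousOn (fun t => ∫ x, pd k (p t) x * u t x k * Ψ x) (Ico 0 T) := fun k =>
    tc (Φ := fun t x => pd k (p t) x * u t x k) (JC_mul (Tc_jp h k) (Tc_ju h k)) (bp k) w.sm.continuous w.int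
  have hsub := Tc_sub (T := T) ha hb
  refine ContinuousOn.intervalIntegrable_of_Icc hab ?_
  have hsum : ContinuousOn (fun t => (∑ i : Fin 3, ((∫ x, ‖u t x‖ ^ 2 * pd i (pd i Ψ) x) +
      ∫ x, ‖u t x‖ ^ 2 * u t x i * pd i Ψ x)) / 2 - ∑ k : Fin 3, ∫ x, pd k (p t) x * u t x k * Ψ x) (Icc a b) := by
    refine ContinuousOn.sub (ContinuousOn.div_const ?_ _) ?_
    · exact continuousOn_finsetSum _ fun i _ => ((c1 i).mono hsub).add ((c2 i).mono hsub)
    · exact continuousOn_finsetSum _ fun i _ => (c3 i).mono hsub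
  refine hsum.congr fun t ht => ?_
  have ht' := hsub ht
  obtain ⟨K, hK0, hK'⟩ := Tc_all h hb
  have hK := hK' t ⟨ht'.1, ht.2⟩
  have cu : ∀ k : Fin 3, Continuous fun x => u t x k := fun k => Tc_sl (Tc_ju h k) ht'
  have cp : ∀ k : Fin 3, Continuous fun x => pd k (p t) x := fun k => Tc_sl (Tc_jp h k) ht'
  have cn : Continuous fun x => ‖u t x‖ ^ 2 := Tc_sl (Tc_jn h) ht'
  have bu : ∀ (k : Fin 3) x, |u t x k| ≤ K := fun k x => (Tc_co _ _).trans (hK x).1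
  have bn' : ∀ x, |‖u t x‖ ^ 2| ≤ K * K := by
    intro x
    have h1 : |‖u t x‖| ≤ K := by
      rw [abs_norm]
      exact (hK x).1
    rw [pow_two]
    exact mm h1 h1
  have I1 : ∀ i, Integrable fun x => ‖u t x‖ ^ 2 * pd i (pd i Ψ) x := fun i =>
    Tb_int w (K * K * c ^ 2) (cn.mul (cΨ2 i)) fun x => by
      have := mm (bn' x) (w.g2 i x)
      linarith
  have I2 : ∀ i : Fin 3, Integrable fun x => ‖u t x‖ ^ 2 * u t x i * pd i Ψ x := fun i =>
    Tb_int w (K * K * K * c) ((cn.mul (cu i)).mul (cΨ i)) fun x => by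
      have := mm (mm (bn' x) (bu i x)) (w.g1 i x)
      linarith
  have I3 : ∀ k : Fin 3, Integrable fun x => pd k (p t) x * u t x k * Ψ x := fun k =>
    wi w ((cp k).mul (cu k)) fun x => mm ((hK x).2.2.2.2.1 k) (bu k x)
  have s1 : ∫ x, ‖u t x‖ ^ 2 * (lap Ψ x + adv (u t x) Ψ x) = ∑ i : Fin 3, ((∫ x, ‖u t x‖ ^ 2 * pd i (pd i Ψ) x) +
      ∫ x, ‖u t x‖ ^ 2 * u t x i * pd i Ψ x) := by
    have h1 : ∀ i : Fin 3, (∫ x, ‖u t x‖ ^ 2 * pd i (pd i Ψ) x) + (∫ x, ‖u t x‖ ^ 2 * u t x i * pd i Ψ x) =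
        ∫ x, (‖u t x‖ ^ 2 * pd i (pd i Ψ) x + ‖u t x‖ ^ 2 * u t x i * pd i Ψ x) := fun i =>
      (integral_add (I1 i) (I2 i)).symm
    have I12 : ∀ i : Fin 3, Integrable fun x => (‖u t x‖ ^ 2 * pd i (pd i Ψ) x + ‖u t x‖ ^ 2 * u t x i * pd i Ψ x) :=
      fun i => (I1 i).add (I2 i)
    simp only [h1]
    rw [← integral_finsetSum _ fun i _ => I12 i]
    refine integral_congr_ae (Eventually.of_forall fun x => ?_)
    unfold lap adv
    simp only [Fin.sum_univ_three]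
    ring
  have s2 : ∫ x, (∑ k : Fin 3, pd k (p t) x * (u t x k * Ψ x)) = ∑ k : Fin 3, ∫ x, pd k (p t) x * u t x k * Ψ x := by
    rw [← integral_finsetSum _ fun k _ => I3 k]
    refine integral_congr_ae (Eventually.of_forall fun x => ?_)
    simp only [Fin.sum_univ_three]
    ring
  simp only [s1, s2]

theorem enA {T c a b : ℝ} {u : ℝ → E3 → E3} {p : ℝ → E3 → ℝ} (h : IsHInfAxisymNS T u p) {Ψ : E3 → ℝ} (w : Wc c Ψ)
    (ha : 0 ≤ a) (hab : a ≤ b) (hb : b < T) :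
    SS (u b) Ψ / 2 + ∫ t in a..b, DD (u t) Ψ = SS (u a) Ψ / 2 + ∫ t in a..b, ((∫ x, ‖u t x‖ ^ 2 * (lap Ψ x + adv (u t x) Ψ x)) / 2 -
      ∫ x, (∑ k : Fin 3, pd k (p t) x * (u t x k * Ψ x))) := by
  have hsub := Tc_sub (T := T) ha hb
  have hs : ∀ t ∈ Icc a b, SS (u t) Ψ / 2 = ∑ k : Fin 3, ∫ x, u t x k ^ 2 / 2 * Ψ x := by
    intro t ht
    have ht' := hsub ht
    obtain ⟨K, hK0, hK'⟩ := Tc_all h hb
    have hK := hK' t ⟨ht'.1, ht.2⟩
    have I : ∀ k : Fin 3, Integrable fun x => u t x k ^ 2 / 2 * Ψ x := by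
      intro k
      refine wi (K := K * K / 2) w (((Tc_sl (Tc_ju h k) ht').pow 2).div_const 2) fun x => ?_
      have h1 : |u t x k| ≤ K := (Tc_co _ _).trans (hK x).1
      rw [abs_div, pow_two, abs_mul, abs_of_pos (by norm_num : (0:ℝ) < 2)]
      have := mul_le_mul h1 h1 (abs_nonneg _) hK0
      linarith
    rw [← integral_finsetSum _ fun k _ => I k]
    unfold SS
    rw [← integral_div]
    refine integral_congr_ae (Eventually.of_forall fun x => ?_)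
    simp only [Fin.sum_univ_three]
    rw [norm_sq_eq]
    ring
  rw [hs b ⟨hab, le_rfl⟩, hs a ⟨le_rfl, hab⟩]
  have hk := fun k => Tc_k h w ha hab hb k
  have hbk : ∀ k : Fin 3, ∀ T' < T, ∃ K : ℝ, ∀ t ∈ Icc 0 T', ∀ x,
      |u t x k * (lap (fun y => u t y k) x - adv (u t x) (fun y => u t y k) x - pd k (p t) x)| ≤ K := by
    intro k T' hT'
    obtain ⟨K, hK0, hK⟩ := Tc_all h hT'
    refine ⟨K * K, fun t ht x => ?_⟩
    rw [abs_mul]
    exact mul_le_mul ((Tc_co _ _).trans (hK t ht x).1) ((hK t ht x).2.2.2.2.2 k).2 (abs_nonneg _) hK0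
  have hik : ∀ k : Fin 3, IntervalIntegrable (fun t => ∫ x, u t x k * (lap (fun y => u t y k) x -
      adv (u t x) (fun y => u t y k) x - pd k (p t) x) * Ψ x) volume a b := by
    intro k
    refine ContinuousOn.intervalIntegrable_of_Icc hab ?_
    exact (tc (Φ := fun t x => u t x k * (lap (fun y => u t y k) x - adv (u t x) (fun y => u t y k) x -
      pd k (p t) x)) (JC_mul (Tc_ju h k) (Tc_jg h k)) (hbk k) w.sm.continuous w.int).mono hsub
  have hD : IntervalIntegrable (fun t => DD (u t) Ψ) volume a b :=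
    ContinuousOn.intervalIntegrable_of_Icc hab ((tc_u h w).2.1.mono hsub)
  have hR := enA_int h w ha hab hb
  have h1 : ∑ k : Fin 3, ((∫ x, u b x k ^ 2 / 2 * Ψ x) - ∫ x, u a x k ^ 2 / 2 * Ψ x) =
      ∫ t in a..b, ∑ k : Fin 3, ∫ x, u t x k * (lap (fun y => u t y k) x -
      adv (u t x) (fun y => u t y k) x - pd k (p t) x) * Ψ x := by
    rw [intervalIntegral.integral_finsetSum fun k _ => hik k]
    exact Finset.sum_congr rfl fun k _ => hk k
  have h2 : ∫ t in a..b, ∑ k : Fin 3, ∫ x, u t x k * (lap (fun y => u t y k) x -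
      adv (u t x) (fun y => u t y k) x - pd k (p t) x) * Ψ x =
      ∫ t in a..b, (((∫ x, ‖u t x‖ ^ 2 * (lap Ψ x + adv (u t x) Ψ x)) / 2 -
      ∫ x, (∑ k : Fin 3, pd k (p t) x * (u t x k * Ψ x))) - DD (u t) Ψ) := by
    refine intervalIntegral.integral_congr fun t ht => ?_
    rw [uIcc_of_le hab] at ht
    simp only
    rw [Tc_t h w (hsub ht)]
    ring
  rw [h2, intervalIntegral.integral_sub hR hD, Finset.sum_sub_distrib] at h1
  linarith

end Pool.Agent.H16.TU
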