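/-
ROW Ag (MP_09540e_TU). The energy inequality on a window. PROOF. Let C₁ be the constant of aP; choose j₀ ≥ 1 with `4 C₁ κ (1/2)^j₀ ≤ 1/256`; C = C(j₀) from aP; δ = 1/32; Z ≥ 1 with `C/Z ≤ 1/32`, `2000 C₁/Z ≤ 1/256`. θ > 0 with `3 θ C κ²/δ ≤ 1/16`. enA on [t₁,t₂] (Φ = ww N Z R z, ww_ok) and aP at each t ∈ Ioo t₁ t₂ ⊂ Ioo 0 T (a.e. suffices;
intervalIntegral.integral_mono_on_of_le_Ioo or ae version; enA_int, tc_u), with J such that `1 ≤ 2^J R`, j₀ ≤ J: 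
`SS(t₂)/2 + ∫ DD ≤ SS(t₁)/2 + (1/16) ∫ DD + (Cκ²/(δR²)) ∫ SS + (C₁κ/R²) ∫ ∑.. + (C₁/(ZN²)) ∫ ∑.. + C₁ E ∫ (κ/R² VV + (SS+VV)/(ZNR))`, E = ∫ ‖u 0‖² (en_glob; (2^J R)⁻³ ≤ 1). fs with `η = θR²`, c = 4/R: `SS ≤ 3θR² DD + N² (2/θ + 65)/R² VV`, so
`(Cκ²/(δR²)) ∫ SS ≤ (1/16) ∫ DD + C'' N³ R` (VV ≤ 10 Z N R³, length ≤ 2R²). aT1: third `≤ (1/256) M N³ R`; aT2: fourth `≤ (1/256) M N³ R`. Last: `SS ≤ M N³ R` (Bd), `VV ≤ 10 Z N R³`: `≤ C₁ E 2R² (10 κ Z N R + M N²/Z + 10 R²) ≤ (1/64) M N³ R + N³ R` for N ≥ N₁(E, κ, Z, C₁) (R ≤ 1). Sum: coefficient of ∫ DD on the right is 1/8 ≤ 3/16.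
-/
import Pool.Agent.H16.TU.Tc
import Pool.Agent.H16.TU.Ae
import Pool.Agent.H16.TU.Af
import Pool.Agent.H16.TU.Fb

set_option autoImplicit false

open Set Filter Topology MeasureTheory
open scoped ContDiff

namespace Pool.Agent.H16.TU

open Pool.Agent.H16 Pool.Agent.H87.NS Pool.Agent.H72.CC

theorem Ag_b {C κ Z N R θ D S V : ℝ} (hC : 0 < C) (hκ : 1 ≤ κ) (hZ : 1 ≤ Z) (hN : 1 ≤ N) (hR : 0 < R)
    (hR1 : R ≤ 1) (hθ : θ = 1 / (1536 * C * κ ^ 2)) (hV0 : 0 ≤ V) (hV : V ≤ 10 * Z * N * R ^ 3)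
    (hfs : S ≤ 3 * (θ * R ^ 2) * D + N ^ 2 * (2 / (θ * R ^ 2) + 1 + 4 * (4 / R) ^ 2) * V) :
    C * κ ^ 2 / (1 / 32) / R ^ 2 * S ≤ 1 / 16 * D + 320 * Z * C * κ ^ 2 * (2 / θ + 65) * N ^ 3 / R := by
  have hθ0 : 0 < θ := by rw [hθ]; positivity
  have h1 : 2 / (θ * R ^ 2) + 1 + 4 * (4 / R) ^ 2 ≤ (2 / θ + 65) / R ^ 2 := by
    have e1 : (2 / θ + 65) / R ^ 2 = 2 / (θ * R ^ 2) + 65 / R ^ 2 := by field_simp
    have e2 : 4 * (4 / R) ^ 2 = 64 / R ^ 2 := by field_simp; norm_num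
    have e3 : (1 : ℝ) ≤ 1 / R ^ 2 := by
      rw [le_div_iff₀ (by positivity)]
      nlinarith
    have e4 : (65 : ℝ) / R ^ 2 = 64 / R ^ 2 + 1 / R ^ 2 := by ring
    rw [e1, e2, e4]
    linarith
  have h2 : N ^ 2 * (2 / (θ * R ^ 2) + 1 + 4 * (4 / R) ^ 2) * V ≤
      N ^ 2 * ((2 / θ + 65) / R ^ 2) * (10 * Z * N * R ^ 3) := by
    gcongr
  have h3 : S ≤ 3 * (θ * R ^ 2) * D + N ^ 2 * ((2 / θ + 65) / R ^ 2) * (10 * Z * N * R ^ 3) := by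
    linarith
  have h4 : C * κ ^ 2 / (1 / 32) / R ^ 2 * S ≤ C * κ ^ 2 / (1 / 32) / R ^ 2 *
      (3 * (θ * R ^ 2) * D + N ^ 2 * ((2 / θ + 65) / R ^ 2) * (10 * Z * N * R ^ 3)) := by
    apply mul_le_mul_of_nonneg_left h3
    positivity
  refine h4.trans (le_of_eq ?_)
  have e5 : C * κ ^ 2 / (1 / 32) / R ^ 2 * (3 * (θ * R ^ 2) * D) = 1 / 16 * D := by
    have hκ0 : κ ≠ 0 := by positivity
    rw [hθ]
    field_simp
    ring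
  have e6 : C * κ ^ 2 / (1 / 32) / R ^ 2 * (N ^ 2 * ((2 / θ + 65) / R ^ 2) * (10 * Z * N * R ^ 3)) =
      320 * Z * C * κ ^ 2 * (2 / θ + 65) * N ^ 3 / R := by
    generalize (2 / θ + 65) = q
    field_simp
    ring
  rw [mul_add, e5, e6]

theorem Ag_c {C₁ κ Z N R M E e e3 S V : ℝ} (hC : 0 < C₁) (hκ : 1 ≤ κ) (hZ : 1 ≤ Z) (hN : 1 ≤ N) (hR : 0 < R)
    (he : e ≤ E) (he0 : 0 ≤ e) (he3 : 0 ≤ e3) (he31 : e3 ≤ 1) (hV0 : 0 ≤ V)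
    (hV : V ≤ 10 * Z * N * R ^ 3) (hS0 : 0 ≤ S) (hS : S ≤ M * N ^ 3 * R) :
    C₁ * e3 * e * (κ / R ^ 2 * V + (S + V) / (Z * N * R)) ≤
      C₁ * E * (10 * κ * Z * N * R + M * N ^ 2 / Z + 10 * R ^ 2) := by
  have h1 : κ / R ^ 2 * V + (S + V) / (Z * N * R) ≤ 10 * κ * Z * N * R + M * N ^ 2 / Z + 10 * R ^ 2 := by
    have a1 : κ / R ^ 2 * V ≤ κ / R ^ 2 * (10 * Z * N * R ^ 3) := by gcongr
    have a2 : (S + V) / (Z * N * R) ≤ (M * N ^ 3 * R + 10 * Z * N * R ^ 3) / (Z * N * R) := by gcongr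
    have a3 : κ / R ^ 2 * (10 * Z * N * R ^ 3) = 10 * κ * Z * N * R := by field_simp
    have a4 : (M * N ^ 3 * R + 10 * Z * N * R ^ 3) / (Z * N * R) = M * N ^ 2 / Z + 10 * R ^ 2 := by
      field_simp
    rw [a3] at a1
    rw [a4] at a2
    linarith
  have h0 : 0 ≤ κ / R ^ 2 * V + (S + V) / (Z * N * R) := by positivity
  have h2 : C₁ * e3 * e ≤ C₁ * E := by
    calc C₁ * e3 * e ≤ C₁ * 1 * E := by gcongr
      _ = C₁ * E := by ring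
  have hE : 0 ≤ E := he0.trans he
  exact mul_le_mul h2 h1 h0 (by positivity)

theorem Ag_d {C₁ κ Z N R M E : ℝ} (hC : 0 < C₁) (hκ : 1 ≤ κ) (hZ : 1 ≤ Z) (hN : 1 ≤ N) (hR : 0 < R)
    (hR1 : R ≤ 1) (hE : 0 ≤ E) (hM : 1 ≤ M) (hN1 : 128 * C₁ * E * (κ * Z + 1) ≤ N) :
    C₁ * E * (10 * κ * Z * N * R + M * N ^ 2 / Z + 10 * R ^ 2) * (2 * R ^ 2) ≤
      1 / 64 * M * N ^ 3 * R + N ^ 3 * R := by
  have hκZ : 1 ≤ κ * Z := by nlinarith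
  have hCE : 0 ≤ C₁ * E := by positivity
  have n1 : 128 * (C₁ * E) ≤ N := by nlinarith
  have n2 : 128 * (C₁ * E * (κ * Z)) ≤ N := by nlinarith
  have hN2 : N ≤ N ^ 3 := by nlinarith [sq_nonneg (N - 1), sq_nonneg N]
  have hNN : N ^ 2 ≤ N ^ 3 := by nlinarith [sq_nonneg N]
  have hR2 : R ^ 2 ≤ R := by nlinarith
  have hR3 : R ^ 3 ≤ R := by nlinarith [sq_nonneg R]
  have hR4 : R ^ 4 ≤ R := by nlinarith [sq_nonneg R, sq_nonneg (R ^ 2)]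
  have b1 : 20 * (C₁ * E * (κ * Z)) * N * R ^ 3 ≤ 1 / 2 * N ^ 3 * R := by
    have m1 : 20 * (C₁ * E * (κ * Z)) ≤ 20 / 128 * N := by linarith
    calc 20 * (C₁ * E * (κ * Z)) * N * R ^ 3 ≤ (20 / 128 * N) * N * R :=
          mul_le_mul (mul_le_mul_of_nonneg_right m1 (by linarith)) hR3 (by positivity) (by positivity)
      _ ≤ 1 / 2 * N ^ 3 * R := by
          have : 20 / 128 * N * N ≤ 1 / 2 * N ^ 3 := by nlinarith
          exact mul_le_mul_of_nonneg_right this hR.le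
  have b2 : 2 * (C₁ * E) * (M * N ^ 2 / Z) * R ^ 2 ≤ 1 / 64 * M * N ^ 3 * R := by
    have c1 : M * N ^ 2 / Z ≤ M * N ^ 2 := div_le_self (by positivity) hZ
    have m1 : 2 * (C₁ * E) ≤ 2 / 128 * N := by linarith
    calc 2 * (C₁ * E) * (M * N ^ 2 / Z) * R ^ 2 ≤ (2 / 128 * N) * (M * N ^ 2) * R :=
          mul_le_mul (mul_le_mul m1 c1 (by positivity) (by positivity)) hR2 (by positivity)
            (by positivity)
      _ = 1 / 64 * M * N ^ 3 * R := by ring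
  have b3 : 20 * (C₁ * E) * R ^ 4 ≤ 1 / 2 * N ^ 3 * R := by
    have m1 : 20 * (C₁ * E) ≤ 20 / 128 * N := by linarith
    calc 20 * (C₁ * E) * R ^ 4 ≤ (20 / 128 * N) * R :=
          mul_le_mul m1 hR4 (by positivity) (by positivity)
      _ ≤ 1 / 2 * N ^ 3 * R := by
          have : 20 / 128 * N ≤ 1 / 2 * N ^ 3 := by linarith
          exact mul_le_mul_of_nonneg_right this hR.le
  have e : C₁ * E * (10 * κ * Z * N * R + M * N ^ 2 / Z + 10 * R ^ 2) * (2 * R ^ 2) =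
      20 * (C₁ * E * (κ * Z)) * N * R ^ 3 + 2 * (C₁ * E) * (M * N ^ 2 / Z) * R ^ 2 +
        20 * (C₁ * E) * R ^ 4 := by ring
  rw [e]
  linarith

theorem aW {T : ℝ} {u : ℝ → E3 → E3} {p : ℝ → E3 → ℝ} (h : IsHInfAxisymNS T u p) (κ : ℝ) :
    ∃ Z C N₁ : ℝ, 1 ≤ Z ∧ 0 < C ∧ 1 ≤ N₁ ∧ ∀ N t₀ M : ℝ, N₁ ≤ N → UpTo T u κ N t₀ → 1 ≤ M → Bd u N Z t₀ M →
      ∀ R z t₁ t₂ : ℝ, 0 < R → R ≤ 1 → 0 ≤ t₁ → t₁ ≤ t₂ → t₂ ≤ t₀ → t₂ - t₁ ≤ 2 * R ^ 2 →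
      SS (u t₂) (ww N Z R z) / 2 + 13 / 16 * ∫ t in t₁..t₂, DD (u t) (ww N Z R z) ≤
        SS (u t₁) (ww N Z R z) / 2 + 1 / 16 * M * N ^ 3 * R + C * N ^ 3 * R := by
  by_cases hκ : 1 ≤ κ
  swap
  · refine ⟨1, 1, 1, le_rfl, one_pos, le_rfl, ?_⟩
    intro N t₀ M _ hu
    exact absurd (hu.2 0 ⟨le_rfl, hu.1.1⟩).one hκ
  obtain ⟨C₁, hC₁, hP⟩ := aP
  obtain ⟨j₁, hj₁⟩ : ∃ j₁ : ℕ, (1 / 2 : ℝ) ^ j₁ < 1 / (1024 * C₁ * κ) :=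
    exists_pow_lt_of_lt_one (by positivity) (by norm_num)
  obtain ⟨j₀, hj₀⟩ : ∃ j₀ : ℕ, j₀ = j₁ + 1 := ⟨_, rfl⟩
  have hj1 : 1 ≤ j₀ := by omega
  have hjs : 4 * C₁ * κ * (1 / 2 : ℝ) ^ j₀ ≤ 1 / 256 := by
    have h1 : (1 / 2 : ℝ) ^ j₀ ≤ (1 / 2 : ℝ) ^ j₁ := by
      rw [hj₀]
      exact pow_le_pow_of_le_one (by norm_num) (by norm_num) (by omega)
    have h2 : (1 / 2 : ℝ) ^ j₀ ≤ 1 / (1024 * C₁ * κ) := h1.trans hj₁.le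
    calc 4 * C₁ * κ * (1 / 2 : ℝ) ^ j₀ ≤ 4 * C₁ * κ * (1 / (1024 * C₁ * κ)) := by gcongr
      _ = 1 / 256 := by
        have : κ ≠ 0 := by positivity
        field_simp
        norm_num
  obtain ⟨C, hC, hPj⟩ := hP j₀
  obtain ⟨Z, hZ⟩ : ∃ Z : ℝ, Z = 1 + 32 * C + 512000 * C₁ := ⟨_, rfl⟩
  have hZ1 : 1 ≤ Z := by rw [hZ]; nlinarith
  have hZ0 : 0 < Z := by linarith
  have hCZ : C / Z ≤ 1 / 32 := by rw [div_le_iff₀ hZ0]; linarith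
  have hC₁Z : 2000 * C₁ / Z ≤ 1 / 256 := by rw [div_le_iff₀ hZ0]; linarith
  obtain ⟨θ, hθ⟩ : ∃ θ : ℝ, θ = 1 / (1536 * C * κ ^ 2) := ⟨_, rfl⟩
  have hθ0 : 0 < θ := by rw [hθ]; positivity
  obtain ⟨E, hE⟩ : ∃ E : ℝ, E = ∫ x, ‖u 0 x‖ ^ 2 := ⟨_, rfl⟩
  have hE0 : 0 ≤ E := by rw [hE]; exact integral_nonneg fun x => by positivity
  obtain ⟨K, hK⟩ : ∃ K : ℝ, K = 320 * Z * C * κ ^ 2 * (2 / θ + 65) := ⟨_, rfl⟩
  have hK0 : 0 ≤ K := by rw [hK]; positivity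
  refine ⟨Z, 2 * K + 1, 1 + 128 * C₁ * E * (κ * Z + 1), hZ1, by positivity, ?_, ?_⟩
  · have : 0 ≤ 128 * C₁ * E * (κ * Z + 1) := by positivity
    linarith
  intro N t₀ M hN hu hM hB R z t₁ t₂ hR hR1 h1 h12 h2 hw
  have hq : 0 ≤ 128 * C₁ * E * (κ * Z + 1) := by positivity
  have hN1 : 1 ≤ N := by linarith
  have hN0 : 0 < N := by linarith
  have hN2 : 128 * C₁ * E * (κ * Z + 1) ≤ N := by linarith
  have htT : t₀ < T := hu.1.2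
  have hbT : t₂ < T := lt_of_le_of_lt h2 htT
  obtain ⟨w, hV0, hV⟩ := ww_ok hN1 hZ1 hR z
  obtain ⟨J', hJ'⟩ := pow_unbounded_of_one_lt (1 / R) (one_lt_two : (1 : ℝ) < 2)
  obtain ⟨J, hJ⟩ : ∃ J : ℕ, J = max j₀ J' := ⟨_, rfl⟩
  have hJ0 : j₀ ≤ J := by rw [hJ]; exact le_max_left _ _
  have hJR : 1 ≤ 2 ^ J * R := by
    have a1 : (2 : ℝ) ^ J' ≤ 2 ^ J := pow_le_pow_right₀ (by norm_num) (by rw [hJ]; exact le_max_right _ _)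
    have a2 : 1 / R ≤ 2 ^ J := hJ'.le.trans a1
    rwa [div_le_iff₀ hR] at a2
  have hnnD : ∀ t, 0 ≤ DD (u t) (ww N Z R z) := fun t =>
    integral_nonneg fun x => mul_nonneg (ba_gv (v := u t) x 0 0).1 (w.nn x)
  have hnnS : ∀ t, 0 ≤ SS (u t) (ww N Z R z) := fun t =>
    integral_nonneg fun x => mul_nonneg (by positivity) (w.nn x)
  obtain ⟨S1, hS1⟩ : ∃ S1 : ℝ → ℝ, S1 = fun t => ∑ j ∈ Finset.Icc j₀ J,
    (1/4 : ℝ) ^ j * SS (u t) (ww N Z (2 ^ j * R) z) := ⟨_, rfl⟩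
  obtain ⟨S2, hS2⟩ : ∃ S2 : ℝ → ℝ, S2 = fun t => ∑ j ∈ Finset.Icc j₀ J,
    (√2 / 4) ^ j * QQ (u t) (ww N Z (2 ^ j * R) z) := ⟨_, rfl⟩
  have hT1 : ∫ t in t₁..t₂, S1 t ≤ 4 * (1/2) ^ j₀ * M * N ^ 3 * R ^ 3 := by
    rw [hS1]
    exact aT1 h hu hZ1 hM hB hR hR1 h1 h12 h2 hw
  have hT2 : ∫ t in t₁..t₂, S2 t ≤ 2000 * M * N ^ 5 * R := by
    rw [hS2]
    exact aT2 h hu hZ1 hM hB hR hR1 h1 h12 h2 hw hj1
  have hsub : Icc t₁ t₂ ⊆ Ico 0 T := fun t ht => ⟨h1.trans ht.1, lt_of_le_of_lt ht.2 hbT⟩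
  have iD : IntervalIntegrable (fun t => DD (u t) (ww N Z R z)) volume t₁ t₂ :=
    ((tc_u h w).2.1.mono hsub).intervalIntegrable_of_Icc h12
  have iS1 : IntervalIntegrable S1 volume t₁ t₂ := by
    rw [hS1]
    refine ContinuousOn.intervalIntegrable_of_Icc h12 ?_
    refine continuousOn_finsetSum _ fun j _ => ContinuousOn.mul continuousOn_const ?_
    exact (tc_u h (ww_ok hN1 hZ1 (by positivity : 0 < 2 ^ j * R) z).1).1.mono hsub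
  have iS2 : IntervalIntegrable S2 volume t₁ t₂ := by
    rw [hS2]
    refine ContinuousOn.intervalIntegrable_of_Icc h12 ?_
    refine continuousOn_finsetSum _ fun j _ => ContinuousOn.mul continuousOn_const ?_
    exact (tc_u h (ww_ok hN1 hZ1 (by positivity : 0 < 2 ^ j * R) z).1).2.2.mono hsub
  obtain ⟨K₂, hK₂⟩ : ∃ K₂ : ℝ, K₂ = C₁ * E * (10 * κ * Z * N * R + M * N ^ 2 / Z + 10 * R ^ 2) := ⟨_, rfl⟩
  have hK₂0 : 0 ≤ K₂ := by rw [hK₂]; positivity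
  have hen := enA h w h1 h12 hbT
  have hint := enA_int h w h1 h12 hbT
  have hmono := intervalIntegral.integral_mono_on_of_le_Ioo h12 hint
    (((iD.const_mul (1/8)).add (iS1.const_mul (C₁ * κ / R ^ 2))).add
      ((iS2.const_mul (C₁ / (Z * N ^ 2))).add
        (intervalIntegrable_const (c := K * N ^ 3 / R + K₂)))) (by
    intro t ht
    have htI : t ∈ Icc 0 t₀ := ⟨h1.trans ht.1.le, ht.2.le.trans h2⟩
    have htT : t ∈ Ioo 0 T := ⟨lt_of_le_of_lt h1 ht.1, lt_trans ht.2 hbT⟩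
    have hsl := hu.2 t htI
    have p1 := hPj T u p h t htT κ N R Z (1/32) z hsl hR hR1 hZ1 (by norm_num) (by norm_num) J hJ0
    have p2 := fs hsl w (η := θ * R ^ 2) (by positivity)
    have p3 := Ag_b (D := DD (u t) (ww N Z R z)) hC hκ hZ1 hN1 hR hR1 hθ hV0 hV p2
    have p4 := Ag_c (e := ∫ x, ‖u t x‖ ^ 2) (E := E) (e3 := ((2 ^ J * R) ^ 3)⁻¹) hC₁ hκ hZ1 hN1 hR
      (by rw [hE]; exact (en_glob h ⟨htT.1.le, htT.2⟩).1) (integral_nonneg fun x => by positivity)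
      (by positivity) (by
        apply inv_le_one_of_one_le₀
        exact one_le_pow₀ hJR) hV0 hV (hnnS t) ((hB t htI R z hR).1)
    have p5 : (1 / 32 + C / Z) * DD (u t) (ww N Z R z) ≤ 1 / 16 * DD (u t) (ww N Z R z) :=
      mul_le_mul_of_nonneg_right (by linarith) (hnnD t)
    rw [← hK₂] at p4
    rw [← hK] at p3
    have q1 : S1 t = ∑ j ∈ Finset.Icc j₀ J, (1/4 : ℝ) ^ j * SS (u t) (ww N Z (2 ^ j * R) z) := by
      rw [hS1]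
    have q2 : S2 t = ∑ j ∈ Finset.Icc j₀ J, (√2 / 4) ^ j * QQ (u t) (ww N Z (2 ^ j * R) z) := by
      rw [hS2]
    rw [← q1, ← q2] at p1
    change _ ≤ (1 / 8 * DD (u t) (ww N Z R z) + C₁ * κ / R ^ 2 * S1 t) +
      (C₁ / (Z * N ^ 2) * S2 t + (K * N ^ 3 / R + K₂))
    linarith)
  have hval : ∫ t in t₁..t₂, ((1 / 8 * DD (u t) (ww N Z R z) + C₁ * κ / R ^ 2 * S1 t) +
      (C₁ / (Z * N ^ 2) * S2 t + (K * N ^ 3 / R + K₂))) =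
      1 / 8 * (∫ t in t₁..t₂, DD (u t) (ww N Z R z)) + C₁ * κ / R ^ 2 * (∫ t in t₁..t₂, S1 t) +
      (C₁ / (Z * N ^ 2) * (∫ t in t₁..t₂, S2 t) + (t₂ - t₁) * (K * N ^ 3 / R + K₂)) := by
    rw [intervalIntegral.integral_add ((iD.const_mul (1/8)).add (iS1.const_mul (C₁ * κ / R ^ 2)))
      ((iS2.const_mul (C₁ / (Z * N ^ 2))).add intervalIntegrable_const),
      intervalIntegral.integral_add (iD.const_mul (1/8)) (iS1.const_mul (C₁ * κ / R ^ 2)),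
      intervalIntegral.integral_add (iS2.const_mul (C₁ / (Z * N ^ 2)))
        intervalIntegrable_const,
      intervalIntegral.integral_const_mul, intervalIntegral.integral_const_mul,
      intervalIntegral.integral_const_mul, intervalIntegral.integral_const, smul_eq_mul]
  have hmono' : ∫ t in t₁..t₂, ((∫ x, ‖u t x‖ ^ 2 * (lap (ww N Z R z) x + adv (u t x) (ww N Z R z) x)) / 2 -
      ∫ x, (∑ k : Fin 3, pd k (p t) x * (u t x k * ww N Z R z x))) ≤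
      1 / 8 * (∫ t in t₁..t₂, DD (u t) (ww N Z R z)) + C₁ * κ / R ^ 2 * (∫ t in t₁..t₂, S1 t) +
      (C₁ / (Z * N ^ 2) * (∫ t in t₁..t₂, S2 t) + (t₂ - t₁) * (K * N ^ 3 / R + K₂)) := by
    rw [← hval]
    exact hmono
  have hDint : 0 ≤ ∫ t in t₁..t₂, DD (u t) (ww N Z R z) :=
    intervalIntegral.integral_nonneg h12 fun t _ => hnnD t
  have r1 : C₁ * κ / R ^ 2 * (∫ t in t₁..t₂, S1 t) ≤ 1 / 256 * (M * N ^ 3 * R) := by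
    calc C₁ * κ / R ^ 2 * (∫ t in t₁..t₂, S1 t) ≤ C₁ * κ / R ^ 2 * (4 * (1/2) ^ j₀ * M * N ^ 3 * R ^ 3) := by
          gcongr
      _ = (4 * C₁ * κ * (1 / 2 : ℝ) ^ j₀) * (M * N ^ 3 * R) := by
          field_simp
      _ ≤ 1 / 256 * (M * N ^ 3 * R) := by
          apply mul_le_mul_of_nonneg_right hjs
          positivity
  have r2 : C₁ / (Z * N ^ 2) * (∫ t in t₁..t₂, S2 t) ≤ 1 / 256 * (M * N ^ 3 * R) := by
    calc C₁ / (Z * N ^ 2) * (∫ t in t₁..t₂, S2 t) ≤ C₁ / (Z * N ^ 2) * (2000 * M * N ^ 5 * R) := by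
          gcongr
      _ = (2000 * C₁ / Z) * (M * N ^ 3 * R) := by
          field_simp
      _ ≤ 1 / 256 * (M * N ^ 3 * R) := by
          apply mul_le_mul_of_nonneg_right hC₁Z
          positivity
  have r3 : (t₂ - t₁) * (K * N ^ 3 / R + K₂) ≤ 2 * K * N ^ 3 * R + (1 / 64 * M * N ^ 3 * R + N ^ 3 * R) := by
    have a1 := Ag_d (M := M) hC₁ hκ hZ1 hN1 hR hR1 hE0 hM hN2
    rw [← hK₂] at a1
    calc (t₂ - t₁) * (K * N ^ 3 / R + K₂) ≤ (2 * R ^ 2) * (K * N ^ 3 / R + K₂) := by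
          apply mul_le_mul_of_nonneg_right hw
          positivity
      _ = 2 * K * N ^ 3 * R + K₂ * (2 * R ^ 2) := by
          field_simp
      _ ≤ _ := by linarith
  have hMN : 0 ≤ M * N ^ 3 * R := by positivity
  linarith [hmono', r1, r2, r3, hDint, hMN, hen]

end Pool.Agent.H16.TU
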