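/-
ROW Ah (MP_09540e_TU). Theorem A. PROOF. aS (starting time): if `2R² ≤ t₂`: Bd at time `t₂ - R²` gives `∫_{t₂-2R²}^{t₂-R²} DD ≤ M N³ R` (max (t₂-R²-R²) 0 = t₂ - 2R²), so some `t₁ ∈ [t₂-2R², t₂-R²]` has `DD (u t₁) ≤ M N³/R` (DD continuous in t: tc_u; otherwise the integral would be larger); fs with η = R²/96, c = 4/R: `SS(t₁) ≤ (1/32) M N³ R + N² (192 + 65)/R² · 10 Z N R³`,
so `SS(t₁)/2 ≤ (1/64) M N³ R + 1285 Z N³ R`. If `t₂ < 2R²`: `t₁ = 0`, `SS (u 0) ≤ B² VV ≤ B² 10 Z N R³ ≤ N³ R` for `N² ≥ 10 Z B²`, ‖u 0‖ ≤ B.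
aStep: for t ≤ t₀, R ≤ 1: aS and aW: `SS(t)/2 + (13/16) ∫_{t₁}^t DD ≤ (1/64 + 1/16) M N³R + C' N³ R`, and `[max (t-R²) 0, t] ⊂ [t₁, t]`, DD ≥ 0: both `SS(t)` and `∫ DD` are `≤ (M/2 + 2C' ) N³ R`. For R > 1: `SS ≤ ∫‖u t‖² ≤ E` and `∫ DD ≤ E/2` (en_glob, weights ≤ 1), `≤ N³ R` for N³ ≥ E. So Bd M → Bd (M/2 + C).
aFin: on [0,t₀] u and gv are bounded by K (gv_u), so for all R > 0: `SS ≤ K² VV`, R ≤ 1: `VV ≤ 10 Z N R³`, `∫ DD ≤ K VV R²`; R > 1: as above; so Bd M for some M ≥ 1.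
thmA: iterate: Bd (M/2^n + 2C + 1)... for every n (keep M ≥ 1 by using max), let n → ∞ (le_of_tendsto, or: for every ε > 0), giving Bd (2C + 2).
-/
import Pool.Agent.H16.TU.Ag

set_option autoImplicit false

open Set Filter Topology MeasureTheory
open scoped ContDiff

namespace Pool.Agent.H16.TU

open Pool.Agent.H16 Pool.Agent.H87.NS Pool.Agent.H72.CC

theorem Ah_SS {c K : ℝ} {v : E3 → E3} {Ψ : E3 → ℝ} (w : Wc c Ψ) (hv : ContDiff ℝ ∞ v)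
    (hK : ∀ x, ‖v x‖ ≤ K) : SS v Ψ ≤ K ^ 2 * VV Ψ := by
  have h1 := wi_le w (f := fun x => ‖v x‖ ^ 2) (K := K ^ 2) ((ba_gvc hv).2.1.pow 2) (fun x => by
    rw [abs_of_nonneg (sq_nonneg _)]
    exact pow_le_pow_left₀ (norm_nonneg _) (hK x) 2)
  exact (le_abs_self _).trans h1

theorem Ah_DD {c K : ℝ} {v : E3 → E3} {Ψ : E3 → ℝ} (w : Wc c Ψ) (hv : ContDiff ℝ ∞ v)
    (hK : ∀ x, gv v x ≤ K) : DD v Ψ ≤ K * VV Ψ := by
  have h1 := wi_le w (f := gv v) (K := K) (ba_gvc hv).1 (fun x => by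
    rw [abs_of_nonneg (ba_gv x 0 0).1]
    exact hK x)
  exact (le_abs_self _).trans h1

theorem Ah_DD0 {c : ℝ} {v : E3 → E3} {Ψ : E3 → ℝ} (w : Wc c Ψ) : 0 ≤ DD v Ψ :=
  integral_nonneg fun x => mul_nonneg (ba_gv x 0 0).1 (w.nn x)

theorem Ah_SSg {c : ℝ} {v : E3 → E3} {Ψ : E3 → ℝ} (w : Wc c Ψ) (h : Vf v) :
    SS v Ψ ≤ ∫ x, ‖v x‖ ^ 2 := by
  obtain ⟨K, -, -, h1, -⟩ := ba_vf h
  refine integral_mono_of_nonneg (Eventually.of_forall fun x => mul_nonneg (sq_nonneg _) (w.nn x))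
    h1 (Eventually.of_forall fun x => ?_)
  exact mul_le_of_le_one_right (sq_nonneg _) (w.le x)

theorem Ah_DDg {c : ℝ} {v : E3 → E3} {Ψ : E3 → ℝ} (w : Wc c Ψ) (h : Vf v) :
    DD v Ψ ≤ ∫ x, gv v x := by
  obtain ⟨K, -, -, -, h1⟩ := ba_vf h
  refine integral_mono_of_nonneg
    (Eventually.of_forall fun x => mul_nonneg (ba_gv x 0 0).1 (w.nn x))
    h1 (Eventually.of_forall fun x => ?_)
  exact mul_le_of_le_one_right (ba_gv x 0 0).1 (w.le x)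

theorem Ah_ii {T c : ℝ} {u : ℝ → E3 → E3} {p : ℝ → E3 → ℝ} (h : IsHInfAxisymNS T u p)
    {Ψ : E3 → ℝ} (w : Wc c Ψ) {a b : ℝ} (ha : 0 ≤ a) (hab : a ≤ b) (hb : b < T) :
    IntervalIntegrable (fun s => DD (u s) Ψ) volume a b :=
  ((tc_u h w).2.1.mono fun _ hs => ⟨ha.trans hs.1, hs.2.trans_lt hb⟩).intervalIntegrable_of_Icc hab

theorem Ah_gvi {T : ℝ} {u : ℝ → E3 → E3} {p : ℝ → E3 → ℝ} (h : IsHInfAxisymNS T u p)
    {b : ℝ} (h0 : 0 ≤ b) (hb : b < T) :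
    IntervalIntegrable (fun s => ∫ x, gv (u s) x) volume 0 b := by
  obtain ⟨K, hK⟩ := uDB h hb
  have hpd : ∀ i j : Fin 3, JC T (fun t x => pd i (fun y => u t y j) x ^ 2) := by
    intro i j
    have h1 : JC T (fun t => pd i (fun y => u t y j)) := JS_JC (JS_pd (js_u h.ns j) i)
    have h2 := JC_mul h1 h1
    have h3 : (fun t x => pd i (fun y => u t y j) x ^ 2) =
        fun t x => pd i (fun y => u t y j) x * pd i (fun y => u t y j) x := by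
      funext t x
      exact pow_two _
    rw [h3]
    exact h2
  have hJC : JC T (fun t x => gv (u t) x) := by
    unfold JC gv gsq
    refine continuousOn_finsetSum _ fun j _ => continuousOn_finsetSum _ fun i _ => ?_
    exact hpd i j
  refine ti_int hJC (K := 9 * K) hb (fun t ht => ?_) le_rfl h0
  have ht' : t ∈ Ico 0 T := ⟨ht.1, ht.2.trans_lt hb⟩
  obtain ⟨K', -, -, -, h1⟩ := ba_vf (vf_u h ht')
  refine ⟨h1, ?_⟩
  have h2 : ∀ x, |gv (u t) x| = ∑ j : Fin 3, ∑ i : Fin 3, pd i (fun y => u t y j) x ^ 2 := by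
    intro x
    rw [abs_of_nonneg (ba_gv x 0 0).1]
    rfl
  simp only [h2]
  have h3 : ∀ j i : Fin 3, Integrable (fun x => pd i (fun y => u t y j) x ^ 2) ∧
      ∫ x, pd i (fun y => u t y j) x ^ 2 ≤ K := fun j i =>
    ⟨((hK t ht j).2 i).1.2.1, ((hK t ht j).2 i).1.2.2⟩
  rw [integral_finsetSum _ fun j _ => integrable_finsetSum _ fun i _ => (h3 j i).1]
  have h4 : ∀ j ∈ (Finset.univ : Finset (Fin 3)),
      ∫ x, ∑ i : Fin 3, pd i (fun y => u t y j) x ^ 2 ≤ 3 * K := by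
    intro j _
    rw [integral_finsetSum _ fun i _ => (h3 j i).1]
    refine (Finset.sum_le_sum fun i _ => (h3 j i).2).trans (le_of_eq ?_)
    rw [Finset.sum_const, Finset.card_univ, Fintype.card_fin, nsmul_eq_mul]
    norm_num
  refine (Finset.sum_le_sum h4).trans (le_of_eq ?_)
  rw [Finset.sum_const, Finset.card_univ, Fintype.card_fin, nsmul_eq_mul]
  ring

theorem Ah_glob {T c : ℝ} {u : ℝ → E3 → E3} {p : ℝ → E3 → ℝ} (h : IsHInfAxisymNS T u p)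
    {Ψ : E3 → ℝ} (w : Wc c Ψ) {a t : ℝ} (ha : 0 ≤ a) (hat : a ≤ t) (ht : t < T) :
    SS (u t) Ψ ≤ ∫ x, ‖u 0 x‖ ^ 2 ∧ ∫ s in a..t, DD (u s) Ψ ≤ ∫ x, ‖u 0 x‖ ^ 2 := by
  have h0t : 0 ≤ t := ha.trans hat
  obtain ⟨h1, h2⟩ := en_glob h ⟨h0t, ht⟩
  refine ⟨(Ah_SSg w (vf_u h ⟨h0t, ht⟩)).trans h1, ?_⟩
  have h3 : ∫ s in a..t, DD (u s) Ψ ≤ ∫ s in (0:ℝ)..t, DD (u s) Ψ :=
    intervalIntegral.integral_mono_interval ha hat le_rfl
      (Eventually.of_forall fun s => Ah_DD0 w) (Ah_ii h w le_rfl h0t ht)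
  have h4 : ∫ s in (0:ℝ)..t, DD (u s) Ψ ≤ ∫ s in (0:ℝ)..t, ∫ x, gv (u s) x :=
    intervalIntegral.integral_mono_on h0t (Ah_ii h w le_rfl h0t ht) (Ah_gvi h h0t ht)
      fun s hs => Ah_DDg w (vf_u h ⟨hs.1, hs.2.trans_lt ht⟩)
  have h5 : 0 ≤ ∫ x, ‖u 0 x‖ ^ 2 := integral_nonneg fun x => sq_nonneg _
  linarith

theorem Ah_mono {N Z t₀ M M' : ℝ} {u : ℝ → E3 → E3} (hN : 1 ≤ N) (hM : M ≤ M')
    (hB : Bd u N Z t₀ M) : Bd u N Z t₀ M' := by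
  intro t ht R z hR
  obtain ⟨h1, h2⟩ := hB t ht R z hR
  have h3 : M * N ^ 3 * R ≤ M' * N ^ 3 * R := by
    have : 0 ≤ N ^ 3 * R := by positivity
    nlinarith
  exact ⟨h1.trans h3, h2.trans h3⟩

theorem Ah_N3 {N R : ℝ} (hN : 1 ≤ N) (hR : 0 < R) (hR1 : R ≤ 1) : N * R ^ 3 ≤ N ^ 3 * R := by
  have h1 : R ^ 3 ≤ R := by
    have h2 : R ^ 2 ≤ 1 := pow_le_one₀ hR.le hR1
    have h3 : R ^ 3 = R ^ 2 * R := by ring
    rw [h3]
    nlinarith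
  have h4 : N ≤ N ^ 3 := le_self_pow₀ hN (by norm_num)
  exact mul_le_mul h4 h1 (by positivity) (by positivity)

theorem Ah_big {N R : ℝ} (hN : 1 ≤ N) (hR : 1 ≤ R) : 1 ≤ N ^ 3 * R := by
  have h1 : 1 ≤ N ^ 3 := one_le_pow₀ hN
  nlinarith

theorem aS {T : ℝ} {u : ℝ → E3 → E3} {p : ℝ → E3 → ℝ} (h : IsHInfAxisymNS T u p) (κ : ℝ) {Z : ℝ} (hZ : 1 ≤ Z) :
    ∃ C N₁ : ℝ, 0 < C ∧ 1 ≤ N₁ ∧ ∀ N t₀ M : ℝ, N₁ ≤ N → UpTo T u κ N t₀ → 1 ≤ M → Bd u N Z t₀ M →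
      ∀ R z t₂ : ℝ, 0 < R → R ≤ 1 → 0 ≤ t₂ → t₂ ≤ t₀ → ∃ t₁ : ℝ, 0 ≤ t₁ ∧ t₁ ≤ max (t₂ - R ^ 2) 0 ∧ t₂ - t₁ ≤ 2 * R ^ 2 ∧
      SS (u t₁) (ww N Z R z) / 2 ≤ 1 / 32 * M * N ^ 3 * R + C * N ^ 3 * R := by
  by_cases hT : 0 < T
  swap
  · refine ⟨1, 1, one_pos, le_rfl, fun N t₀ M _ hu => ?_⟩
    exact absurd (hu.1.1.trans_lt hu.1.2) hT
  obtain ⟨K, hK0, hK⟩ := gv_u h hT
  refine ⟨1285 * Z + 5 * K ^ 2 * Z + 1, 1, by positivity, le_rfl, ?_⟩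
  intro N t₀ M hN hu hM hB R z t₂ hR hR1 h20 h2
  obtain ⟨w, hv0, hv⟩ := ww_ok hN hZ hR z
  have ht0 := hu.1
  have hNR := Ah_N3 hN hR hR1
  have hpos : 0 ≤ N ^ 3 * R := by positivity
  by_cases hc : 2 * R ^ 2 ≤ t₂
  · obtain ⟨a, ha⟩ : ∃ a : ℝ, a = t₂ - 2 * R ^ 2 := ⟨_, rfl⟩
    obtain ⟨b, hb⟩ : ∃ b : ℝ, b = t₂ - R ^ 2 := ⟨_, rfl⟩
    have hR2 : 0 < R ^ 2 := by positivity
    have ha0 : 0 ≤ a := by rw [ha]; linarith
    have hab : a ≤ b := by rw [ha, hb]; linarith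
    have hb0 : b ≤ t₀ := by rw [hb]; linarith
    have hbT : b < T := lt_of_le_of_lt hb0 ht0.2
    have hcont : ContinuousOn (fun s => DD (u s) (ww N Z R z)) (Icc a b) :=
      (tc_u h w).2.1.mono fun s hs => ⟨ha0.trans hs.1, hs.2.trans_lt hbT⟩
    obtain ⟨t₁, ht₁, hmin⟩ := isCompact_Icc.exists_isMinOn (nonempty_Icc.2 hab) hcont
    have hI := (hB b ⟨ha0.trans hab, hb0⟩ R z hR).2
    have hmax : max (b - R ^ 2) 0 = a := by
      have h1 : b - R ^ 2 = a := by rw [ha, hb]; ring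
      rw [h1]
      exact max_eq_left ha0
    rw [hmax] at hI
    have h3 : ∫ _s in a..b, DD (u t₁) (ww N Z R z) ≤ ∫ s in a..b, DD (u s) (ww N Z R z) :=
      intervalIntegral.integral_mono_on hab intervalIntegrable_const
        (Ah_ii h w ha0 hab hbT) fun s hs => hmin hs
    rw [intervalIntegral.integral_const, smul_eq_mul] at h3
    have hba : b - a = R ^ 2 := by rw [ha, hb]; ring
    rw [hba] at h3
    have h4 : R ^ 2 * DD (u t₁) (ww N Z R z) ≤ M * N ^ 3 * R := h3.trans hI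
    have ht₁0 : t₁ ∈ Icc 0 t₀ := ⟨ha0.trans ht₁.1, ht₁.2.trans hb0⟩
    have h5 := fs (hu.2 t₁ ht₁0) w (η := R ^ 2 / 96) (by positivity)
    refine ⟨t₁, ht₁0.1, ?_, ?_, ?_⟩
    · refine le_trans ?_ (le_max_left _ _)
      rw [← hb]
      exact ht₁.2
    · have := ht₁.1
      rw [ha] at this
      linarith
    · have h6 : N ^ 2 * (2 / (R ^ 2 / 96) + 1 + 4 * (4 / R) ^ 2) * VV (ww N Z R z) ≤
          2570 * Z * (N ^ 3 * R) := by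
        have h7 : 2 / (R ^ 2 / 96) + 1 + 4 * (4 / R) ^ 2 ≤ 257 / R ^ 2 := by
          have h8 : 2 / (R ^ 2 / 96) + 1 + 4 * (4 / R) ^ 2 = (256 + R ^ 2) / R ^ 2 := by
            field_simp
            ring
          rw [h8]
          apply div_le_div_of_nonneg_right _ hR2.le
          have : R ^ 2 ≤ 1 := pow_le_one₀ hR.le hR1
          linarith
        have h9 : N ^ 2 * (2 / (R ^ 2 / 96) + 1 + 4 * (4 / R) ^ 2) ≤ N ^ 2 * (257 / R ^ 2) :=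
          mul_le_mul_of_nonneg_left h7 (by positivity)
        refine (mul_le_mul h9 hv hv0 (by positivity)).trans (le_of_eq ?_)
        field_simp
        ring
      have h10 : 3 * (R ^ 2 / 96) * DD (u t₁) (ww N Z R z) ≤ 1 / 32 * (M * N ^ 3 * R) := by
        linarith
      have h11 : 0 ≤ K ^ 2 * Z * (N ^ 3 * R) := by positivity
      have h12 : 0 ≤ M * N ^ 3 * R := by positivity
      have h13 : (1285 * Z + 5 * K ^ 2 * Z + 1) * N ^ 3 * R =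
          1285 * Z * (N ^ 3 * R) + 5 * (K ^ 2 * Z * (N ^ 3 * R)) + N ^ 3 * R := by ring
      rw [h13]
      linarith
  · push Not at hc
    refine ⟨0, le_rfl, le_max_right _ _, by linarith, ?_⟩
    have h00 : (0 : ℝ) ∈ Icc (0 : ℝ) t₀ := ⟨le_rfl, ht0.1⟩
    have h1 := Ah_SS w (hu.2 0 h00).ax.smooth (fun x => (hK 0 ⟨le_rfl, le_rfl⟩ x).1)
    have h3 : K ^ 2 * VV (ww N Z R z) ≤ K ^ 2 * (10 * Z * N * R ^ 3) :=
      mul_le_mul_of_nonneg_left hv (sq_nonneg _)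
    have h4 : K ^ 2 * (10 * Z * N * R ^ 3) ≤ 10 * (K ^ 2 * Z * (N ^ 3 * R)) := by
      have h5 : K ^ 2 * (10 * Z * N * R ^ 3) = 10 * (K ^ 2 * Z) * (N * R ^ 3) := by ring
      rw [h5]
      have h6 : 0 ≤ 10 * (K ^ 2 * Z) := by positivity
      nlinarith
    have h12 : 0 ≤ M * N ^ 3 * R := by positivity
    have h13 : (1285 * Z + 5 * K ^ 2 * Z + 1) * N ^ 3 * R =
        1285 * Z * (N ^ 3 * R) + 5 * (K ^ 2 * Z * (N ^ 3 * R)) + N ^ 3 * R := by ring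
    have h14 : 0 ≤ 1285 * Z * (N ^ 3 * R) := by positivity
    rw [h13]
    linarith

theorem aFin {T : ℝ} {u : ℝ → E3 → E3} {p : ℝ → E3 → ℝ} (h : IsHInfAxisymNS T u p) {κ N Z t₀ : ℝ} (hZ : 1 ≤ Z) (hu : UpTo T u κ N t₀) :
    ∃ M : ℝ, 1 ≤ M ∧ Bd u N Z t₀ M := by
  have ht0 := hu.1
  obtain ⟨K, hK0, hK⟩ := gv_u h ht0.2
  have hN : 1 ≤ N := by
    have h1 := hu.2 0 ⟨le_rfl, ht0.1⟩
    exact h1.one.trans h1.le
  obtain ⟨E, hE⟩ : ∃ E : ℝ, E = ∫ x, ‖u 0 x‖ ^ 2 := ⟨_, rfl⟩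
  have hE0 : 0 ≤ E := by
    rw [hE]
    exact integral_nonneg fun x => sq_nonneg _
  refine ⟨1 + E + 10 * Z * K ^ 2 + 10 * Z * K, by
    have : 0 ≤ Z := by linarith
    have h1 : 0 ≤ 10 * Z * K ^ 2 := by positivity
    have h2 : 0 ≤ 10 * Z * K := by positivity
    linarith, ?_⟩
  intro t ht R z hR
  have htT : t < T := ht.2.trans_lt ht0.2
  obtain ⟨w, hv0, hv⟩ := ww_ok hN hZ hR z
  have hZ0 : 0 ≤ Z := by linarith
  have hmt : max (t - R ^ 2) 0 ≤ t := max_le (by nlinarith) ht.1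
  have hm0 : 0 ≤ max (t - R ^ 2) 0 := le_max_right _ _
  have e0 : (1 + E + 10 * Z * K ^ 2 + 10 * Z * K) * N ^ 3 * R =
      (1 + E) * (N ^ 3 * R) + 10 * Z * K ^ 2 * (N ^ 3 * R) + 10 * Z * K * (N ^ 3 * R) := by ring
  have hp : 0 ≤ N ^ 3 * R := by positivity
  have e1 : 0 ≤ (1 + E) * (N ^ 3 * R) := by positivity
  have e2 : 0 ≤ 10 * Z * K ^ 2 * (N ^ 3 * R) := by positivity
  have e3 : 0 ≤ 10 * Z * K * (N ^ 3 * R) := by positivity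
  rw [e0]
  rcases le_total R 1 with hR1 | hR1
  · have hNR := Ah_N3 hN hR hR1
    constructor
    · have h1 : SS (u t) (ww N Z R z) ≤ K ^ 2 * VV (ww N Z R z) :=
        Ah_SS w (hu.2 t ht).ax.smooth (fun x => (hK t ht x).1)
      have h3 : K ^ 2 * VV (ww N Z R z) ≤ K ^ 2 * (10 * Z * N * R ^ 3) :=
        mul_le_mul_of_nonneg_left hv (sq_nonneg _)
      have h5 : K ^ 2 * (10 * Z * N * R ^ 3) = 10 * Z * K ^ 2 * (N * R ^ 3) := by ring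
      have h6 : 10 * Z * K ^ 2 * (N * R ^ 3) ≤ 10 * Z * K ^ 2 * (N ^ 3 * R) :=
        mul_le_mul_of_nonneg_left hNR (by positivity)
      change SS (u t) (ww N Z R z) ≤ _
      linarith
    · have h1 : ∫ s in (max (t - R ^ 2) 0)..t, DD (u s) (ww N Z R z) ≤
          ∫ _s in (max (t - R ^ 2) 0)..t, K * VV (ww N Z R z) :=
        intervalIntegral.integral_mono_on hmt (Ah_ii h w hm0 hmt htT) intervalIntegrable_const
          fun s hs => by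
            have hs0 : s ∈ Icc 0 t₀ := ⟨hm0.trans hs.1, hs.2.trans ht.2⟩
            exact Ah_DD w (hu.2 s hs0).ax.smooth (fun x => (hK s hs0 x).2.1)
      rw [intervalIntegral.integral_const, smul_eq_mul] at h1
      have h2 : t - max (t - R ^ 2) 0 ≤ 1 := by
        have h3 := le_max_left (t - R ^ 2) 0
        have h4 : R ^ 2 ≤ 1 := pow_le_one₀ hR.le hR1
        linarith
      have h3 : (t - max (t - R ^ 2) 0) * (K * VV (ww N Z R z)) ≤ 1 * (K * VV (ww N Z R z)) :=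
        mul_le_mul_of_nonneg_right h2 (mul_nonneg hK0 hv0)
      have h4 : K * VV (ww N Z R z) ≤ K * (10 * Z * N * R ^ 3) := mul_le_mul_of_nonneg_left hv hK0
      have h5 : K * (10 * Z * N * R ^ 3) = 10 * Z * K * (N * R ^ 3) := by ring
      have h6 : 10 * Z * K * (N * R ^ 3) ≤ 10 * Z * K * (N ^ 3 * R) :=
        mul_le_mul_of_nonneg_left hNR (by positivity)
      change ∫ s in (max (t - R ^ 2) 0)..t, DD (u s) (ww N Z R z) ≤ _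
      linarith
  · obtain ⟨h1, h2⟩ := Ah_glob h w hm0 hmt htT
    rw [← hE] at h1 h2
    have h3 := Ah_big hN hR1
    have h4 : E ≤ (1 + E) * (N ^ 3 * R) := by nlinarith
    constructor
    · change SS (u t) (ww N Z R z) ≤ _
      linarith
    · change ∫ s in (max (t - R ^ 2) 0)..t, DD (u s) (ww N Z R z) ≤ _
      linarith

theorem aStep {T : ℝ} {u : ℝ → E3 → E3} {p : ℝ → E3 → ℝ} (h : IsHInfAxisymNS T u p) (κ : ℝ) :
    ∃ Z C N₁ : ℝ, 1 ≤ Z ∧ 0 < C ∧ 1 ≤ N₁ ∧ ∀ N t₀ M : ℝ, N₁ ≤ N → UpTo T u κ N t₀ → 1 ≤ M → Bd u N Z t₀ M → Bd u N Z t₀ (M / 2 + C) := by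
  obtain ⟨Z, Cw, Nw, hZ, hCw, hNw, HW⟩ := aW h κ
  obtain ⟨Cs, Ns, hCs, hNs, HS⟩ := aS h κ hZ
  obtain ⟨E, hE⟩ : ∃ E : ℝ, E = ∫ x, ‖u 0 x‖ ^ 2 := ⟨_, rfl⟩
  have hE0 : 0 ≤ E := by
    rw [hE]
    exact integral_nonneg fun x => sq_nonneg _
  refine ⟨Z, 2 * (Cs + Cw) + E, max Nw Ns, hZ, by positivity, hNw.trans (le_max_left _ _), ?_⟩
  intro N t₀ M hN hu hM hB t ht R z hR
  have hNw' : Nw ≤ N := (le_max_left _ _).trans hN
  have hNs' : Ns ≤ N := (le_max_right _ _).trans hN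
  have hN1 : 1 ≤ N := hNw.trans hNw'
  have htT : t < T := ht.2.trans_lt hu.1.2
  obtain ⟨w, hv0, hv⟩ := ww_ok hN1 hZ hR z
  have hmt : max (t - R ^ 2) 0 ≤ t := max_le (by nlinarith) ht.1
  have hm0 : 0 ≤ max (t - R ^ 2) 0 := le_max_right _ _
  have hp : 0 ≤ N ^ 3 * R := by positivity
  have e0 : (M / 2 + (2 * (Cs + Cw) + E)) * N ^ 3 * R =
      M * (N ^ 3 * R) / 2 + 2 * (Cs * (N ^ 3 * R)) + 2 * (Cw * (N ^ 3 * R)) +
        E * (N ^ 3 * R) := by ring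
  have e1 : 0 ≤ M * (N ^ 3 * R) := by positivity
  have e2 : 0 ≤ Cs * (N ^ 3 * R) := by positivity
  have e3 : 0 ≤ Cw * (N ^ 3 * R) := by positivity
  have e4 : 0 ≤ E * (N ^ 3 * R) := by positivity
  rw [e0]
  rcases le_total R 1 with hR1 | hR1
  · obtain ⟨t₁, h10, h1m, h1w, h1S⟩ := HS N t₀ M hNs' hu hM hB R z t hR hR1 ht.1 ht.2
    have h1t : t₁ ≤ t := h1m.trans hmt
    have h2 := HW N t₀ M hNw' hu hM hB R z t₁ t hR hR1 h10 h1t ht.2 h1w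
    have h3 : ∫ s in (max (t - R ^ 2) 0)..t, DD (u s) (ww N Z R z) ≤
        ∫ s in t₁..t, DD (u s) (ww N Z R z) :=
      intervalIntegral.integral_mono_interval h1m hmt le_rfl
        (Eventually.of_forall fun s => Ah_DD0 w) (Ah_ii h w h10 h1t htT)
    have h4 : 0 ≤ ∫ s in t₁..t, DD (u s) (ww N Z R z) :=
      intervalIntegral.integral_nonneg h1t fun s _ => Ah_DD0 w
    have h5 : 0 ≤ SS (u t) (ww N Z R z) :=
      integral_nonneg fun x => mul_nonneg (sq_nonneg _) (w.nn x)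
    have e5 : 1 / 32 * M * N ^ 3 * R = M * (N ^ 3 * R) / 32 := by ring
    have e6 : 1 / 16 * M * N ^ 3 * R = M * (N ^ 3 * R) / 16 := by ring
    have e7 : Cs * N ^ 3 * R = Cs * (N ^ 3 * R) := by ring
    have e8 : Cw * N ^ 3 * R = Cw * (N ^ 3 * R) := by ring
    rw [e5, e7] at h1S
    rw [e6, e8] at h2
    constructor
    · change SS (u t) (ww N Z R z) ≤ _
      linarith
    · change ∫ s in (max (t - R ^ 2) 0)..t, DD (u s) (ww N Z R z) ≤ _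
      linarith
  · obtain ⟨h1, h2⟩ := Ah_glob h w hm0 hmt htT
    rw [← hE] at h1 h2
    have h3 := Ah_big hN1 hR1
    have h4 : E ≤ E * (N ^ 3 * R) := by nlinarith
    constructor
    · change SS (u t) (ww N Z R z) ≤ _
      linarith
    · change ∫ s in (max (t - R ^ 2) 0)..t, DD (u s) (ww N Z R z) ≤ _
      linarith

theorem thmA {T : ℝ} {u : ℝ → E3 → E3} {p : ℝ → E3 → ℝ} (h : IsHInfAxisymNS T u p) (κ : ℝ) :
    ∃ Z C N₀ : ℝ, 1 ≤ Z ∧ 0 < C ∧ 1 ≤ N₀ ∧ ∀ N t₀ : ℝ, N₀ ≤ N → UpTo T u κ N t₀ → Bd u N Z t₀ C := by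
  obtain ⟨Z, C, N₁, hZ, hC, hN₁, H⟩ := aStep h κ
  refine ⟨Z, 2 * (C + 1), N₁, hZ, by positivity, hN₁, ?_⟩
  intro N t₀ hN hu
  have hN1 : 1 ≤ N := hN₁.trans hN
  obtain ⟨M₀, hM₀, hB₀⟩ := aFin h hZ hu
  obtain ⟨D, hD⟩ : ∃ D : ℝ, D = M₀ + 2 * (C + 1) := ⟨_, rfl⟩
  have hD0 : 0 ≤ D := by rw [hD]; positivity
  have key : ∀ n : ℕ, Bd u N Z t₀ (2 * (C + 1) + D * (1 / 2) ^ n) := by
    intro n
    induction n with
    | zero =>
      refine Ah_mono hN1 ?_ hB₀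
      rw [pow_zero, hD]
      linarith
    | succ n ih =>
      have h1 : 1 ≤ 2 * (C + 1) + D * (1 / 2) ^ n := by
        have h2 : 0 ≤ D * (1 / 2) ^ n := by positivity
        linarith
      refine Ah_mono hN1 ?_ (H N t₀ _ hN hu h1 ih)
      rw [pow_succ]
      linarith
  have hlim : ∀ c : ℝ, Tendsto (fun n : ℕ => (2 * (C + 1) + D * (1 / 2) ^ n) * N ^ 3 * c) atTop
      (𝓝 (2 * (C + 1) * N ^ 3 * c)) := by
    intro c
    have h1 : Tendsto (fun n : ℕ => ((1 / 2 : ℝ)) ^ n) atTop (𝓝 0) :=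
      tendsto_pow_atTop_nhds_zero_of_lt_one (by norm_num) (by norm_num)
    have h2 := (((h1.const_mul D).const_add (2 * (C + 1))).mul_const (N ^ 3)).mul_const c
    rwa [mul_zero, add_zero] at h2
  intro t ht R z hR
  exact ⟨ge_of_tendsto' (hlim R) fun n => (key n t ht R z hR).1,
    ge_of_tendsto' (hlim R) fun n => (key n t ht R z hR).2⟩

end Pool.Agent.H16.TU
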