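import Pool.Agent.H16.TU.Defs2

/-! The mollified vertical velocity and the commutators: definitions. -/

set_option autoImplicit false

open Set Filter Topology MeasureTheory
open scoped ContDiff

namespace Pool.Agent.H16.TU

open Pool.Agent.H16 Pool.Agent.H87.NS Pool.Agent.H72.CC

/-- The commutators `(v_i v₂)^ε - v_i^ε v₂^ε`. -/
noncomputable def rh (ε : ℝ) (v : E3 → E3) (i : Fin 3) (x : E3) : ℝ :=
  hm ε (fun y => v y i * v y 2) x - hm ε (fun y => v y i) x * hm ε (fun y => v y 2) x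

/-- Commutators against the gradient of the mollified vertical velocity. -/
noncomputable def TT (ε : ℝ) (v : E3 → E3) (x : E3) : ℝ :=
  √(rh ε v 0 x ^ 2 + rh ε v 1 x ^ 2) * hg (hm ε (fun y => v y 2)) x + |rh ε v 2 x| * |pd 2 (hm ε (fun y => v y 2)) x|

/-- The weight of the scale `ε` at distance `r` from the axis. -/
noncomputable def me (ε r : ℝ) : ℝ := 20 * ε * r / (ε ^ 2 + r ^ 2) + ε

/-- The mollified vertical velocity divided by `N`. -/
noncomputable def ft (ε N : ℝ) (v : E3 → E3) (x : E3) : ℝ := hm ε (fun y => v y 2) x / N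

/-- The convex functional. -/
noncomputable def HH (k ε N : ℝ) (v : E3 → E3) (Ψ : E3 → ℝ) : ℝ := ∫ x, hk k (ft ε N v x) * Ψ x

/-- Its rate of change; `q` is the pressure. -/
noncomputable def RR (k ε N : ℝ) (v : E3 → E3) (q Ψ : E3 → ℝ) : ℝ :=
  (- ∫ x, deriv (deriv (hk k)) (ft ε N v x) * gsq (ft ε N v) x * Ψ x) +
  (∫ x, hk k (ft ε N v x) * (lap Ψ x + adv (hv ε v x) Ψ x)) +
  (∫ x, ∑ i : Fin 3, rh ε v i x * (deriv (deriv (hk k)) (ft ε N v x) * pd i (ft ε N v) x * Ψ x + deriv (hk k) (ft ε N v x) * pd i Ψ x)) / N -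
  (∫ x, pd 2 q x * hm ε (fun y => deriv (hk k) (ft ε N v y) * Ψ y) x) / N

/-- Squared increments of the vertical velocity at horizontal distance less than `ε`. -/
noncomputable def Qd (ε : ℝ) (v : E3 → E3) (x : E3) : ℝ :=
  ∫ y in {y : ℝ × ℝ | y.1 ^ 2 + y.2 ^ 2 < 1}, (v (x - ε • sh y) 2 - v x 2) ^ 2

/-- Weighted oscillation on the disc of radius `3 ε` around the axis at height `z`. -/
noncomputable def Y2 (ε : ℝ) (v : E3 → E3) (z : ℝ) : ℝ :=
  ∫ q in {q : ℝ × ℝ | q.1 ^ 2 + q.2 ^ 2 < 9 * ε ^ 2}, (v !₂[q.1, q.2, z] 2 - v !₂[3 * ε, 0, z] 2) ^ 2 / √(q.1 ^ 2 + q.2 ^ 2)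

end Pool.Agent.H16.TU
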