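/-
ROW Ca (MP_09540e_TU). The planar bump. PROOF. b0 = smoothTransition(1 - (y1²+y2²)): smooth (Real.smoothTransition.contDiff composed with a polynomial), between 0 and 1, zero iff y1²+y2² ≥ 1 (smoothTransition.zero_of_nonpos), even, positive at 0; support in the closed unit disc, compact; bm > 0 (continuous, nonneg, not zero: Continuous.integral_pos_of_hasCompactSupport_nonneg_nonzero).
The derivative at a point with y1²+y2² ≥ 1 is 0: b0 ≥ 0 has a (global) minimum there (IsLocalMin.fderiv_eq_zero). Bounded derivative: continuous with compact support. b_d0: the integral of a derivative of a compactly supported C¹ function vanishes (integral_fderiv_eq_zero-type lemma, or integral_mul_fderiv_eq_neg_fderiv_mul_of_integrable with the constant 1... or Fubini and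
the fundamental theorem; alternatively by the symmetry bu(-y) = bu(y): the derivative is odd, so its integral is 0: integral_neg_eq_self). sh_f: coordinates; `‖ε • sh y‖ = |ε| √(y1²+y2²)`.
-/
import Pool.Agent.H16.TU.Defs3
import Pool.Agent.H16.TU.Wd

set_option autoImplicit false

open Set Filter Topology MeasureTheory
open scoped ContDiff

namespace Pool.Agent.H16.TU

open Pool.Agent.H16 Pool.Agent.H87.NS Pool.Agent.H72.CC

private theorem Ca_sm : ContDiff ℝ ∞ b0 := by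
  unfold b0
  exact Real.smoothTransition.contDiff.comp (contDiff_const.sub ((contDiff_fst.pow 2).add (contDiff_snd.pow 2)))

private theorem Ca_z {y : ℝ × ℝ} (h : 1 ≤ y.1 ^ 2 + y.2 ^ 2) : b0 y = 0 :=
  Real.smoothTransition.zero_of_nonpos (by linarith)

private theorem Ca_nn (y : ℝ × ℝ) : 0 ≤ b0 y := Real.smoothTransition.nonneg _

private theorem Ca_cs : HasCompactSupport b0 := by
  refine HasCompactSupport.intro (isCompact_closedBall (0 : ℝ × ℝ) 1) fun y hy => Ca_z ?_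
  rw [Metric.mem_closedBall, dist_zero_right, not_le, Prod.norm_def, lt_max_iff] at hy
  rcases hy with h | h
  · rw [Real.norm_eq_abs] at h
    have h1 : 1 ≤ y.1 ^ 2 := by
      rw [← sq_abs]; nlinarith
    nlinarith [sq_nonneg y.2]
  · rw [Real.norm_eq_abs] at h
    have h1 : 1 ≤ y.2 ^ 2 := by
      rw [← sq_abs]; nlinarith
    nlinarith [sq_nonneg y.1]

private theorem Ca_bm : 0 < bm := by
  have h0 : b0 (0 : ℝ × ℝ) ≠ 0 := by
    refine ne_of_gt (Real.smoothTransition.pos_of_pos ?_)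
    show (0 : ℝ) < 1 - ((0 : ℝ) ^ 2 + (0 : ℝ) ^ 2)
    norm_num
  exact Ca_sm.continuous.integral_pos_of_hasCompactSupport_nonneg_nonzero Ca_cs Ca_nn h0

private theorem Ca_bu : bu = fun y => b0 y * bm⁻¹ := by
  funext y
  unfold bu
  rw [div_eq_mul_inv]

theorem b_facts : ContDiff ℝ ∞ bu ∧ (∀ y, 0 ≤ bu y) ∧ HasCompactSupport bu ∧ Integrable bu ∧ ∫ y, bu y = 1 ∧
    (∀ y : ℝ × ℝ, 1 ≤ y.1 ^ 2 + y.2 ^ 2 → bu y = 0 ∧ fderiv ℝ bu y = 0) ∧ ∀ y, bu (-y) = bu y := by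
  have hb := Ca_bm
  have h1 : ContDiff ℝ ∞ bu := by
    rw [Ca_bu]
    exact Ca_sm.mul contDiff_const
  have h2 : ∀ y, 0 ≤ bu y := fun y => div_nonneg (Ca_nn y) hb.le
  have h3 : HasCompactSupport bu := by
    rw [Ca_bu]
    exact Ca_cs.mul_right
  refine ⟨h1, h2, h3, h1.continuous.integrable_of_hasCompactSupport h3, ?_, fun y hy => ?_, fun y => ?_⟩
  · unfold bu
    rw [integral_div]
    exact div_self hb.ne'
  · have h4 : bu y = 0 := by
      unfold bu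
      rw [Ca_z hy, zero_div]
    refine ⟨h4, IsLocalMin.fderiv_eq_zero (Filter.Eventually.of_forall fun z => ?_)⟩
    show bu y ≤ bu z
    rw [h4]
    exact h2 z
  · unfold bu b0
    simp

theorem b_bd : ∃ C : ℝ, 1 ≤ C ∧ ∀ y : ℝ × ℝ, bu y ≤ C ∧ |fderiv ℝ bu y (1, 0)| ≤ C ∧ |fderiv ℝ bu y (0, 1)| ≤ C := by
  obtain ⟨h1, -, h3, -⟩ := b_facts
  obtain ⟨C₀, hC₀⟩ := h1.continuous.bounded_above_of_compact_support h3
  obtain ⟨C₁, hC₁⟩ := (h1.continuous_fderiv (by simp)).bounded_above_of_compact_support (h3.fderiv ℝ)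
  have a0 : 0 ≤ C₀ := (norm_nonneg _).trans (hC₀ 0)
  have a1 : 0 ≤ C₁ := (norm_nonneg _).trans (hC₁ 0)
  have n1 : ‖((1, 0) : ℝ × ℝ)‖ ≤ 1 := by
    rw [Prod.norm_def]; simp
  have n2 : ‖((0, 1) : ℝ × ℝ)‖ ≤ 1 := by
    rw [Prod.norm_def]; simp
  refine ⟨1 + C₀ + C₁, by linarith, fun y => ⟨?_, ?_, ?_⟩⟩
  · have := (le_abs_self _).trans (hC₀ y)
    linarith
  · have h4 := (fderiv ℝ bu y).le_opNorm ((1, 0) : ℝ × ℝ)
    rw [Real.norm_eq_abs] at h4
    have h5 := mul_le_mul (hC₁ y) n1 (norm_nonneg _) a1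
    linarith
  · have h4 := (fderiv ℝ bu y).le_opNorm ((0, 1) : ℝ × ℝ)
    rw [Real.norm_eq_abs] at h4
    have h5 := mul_le_mul (hC₁ y) n2 (norm_nonneg _) a1
    linarith

private theorem Ca_odd (y w : ℝ × ℝ) : fderiv ℝ bu (-y) w = - fderiv ℝ bu y w := by
  obtain ⟨h1, -, -, -, -, -, h7⟩ := b_facts
  have e1 : HasFDerivAt bu (fderiv ℝ bu (-y)) (-y) := (h1.differentiable (by simp) _).hasFDerivAt
  have e2 : HasFDerivAt (fun z : ℝ × ℝ => -z) (-(ContinuousLinearMap.id ℝ (ℝ × ℝ))) y := (hasFDerivAt_id y).neg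
  have e3 : HasFDerivAt (fun z => bu (-z)) ((fderiv ℝ bu (-y)).comp (-(ContinuousLinearMap.id ℝ (ℝ × ℝ)))) y := e1.comp y e2
  have e4 : (fun z => bu (-z)) = bu := funext h7
  rw [e4] at e3
  rw [e3.fderiv]
  simp

theorem b_d0 : ∫ y : ℝ × ℝ, fderiv ℝ bu y (1, 0) = 0 ∧ ∫ y : ℝ × ℝ, fderiv ℝ bu y (0, 1) = 0 := by
  have h : ∀ w : ℝ × ℝ, ∫ y : ℝ × ℝ, fderiv ℝ bu y w = 0 := by
    intro w
    have e1 := integral_neg_eq_self (fun y : ℝ × ℝ => fderiv ℝ bu y w) volume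
    have e2 : ∫ y : ℝ × ℝ, fderiv ℝ bu (-y) w = - ∫ y : ℝ × ℝ, fderiv ℝ bu y w := by
      rw [← integral_neg]
      exact integral_congr_ae (Filter.Eventually.of_forall fun y => Ca_odd y w)
    linarith
  exact ⟨h _, h _⟩

theorem sh_f (y : ℝ × ℝ) (ε : ℝ) (x : E3) : ‖sh y‖ ^ 2 = y.1 ^ 2 + y.2 ^ 2 ∧ (x - ε • sh y) 0 = x 0 - ε * y.1 ∧
    (x - ε • sh y) 1 = x 1 - ε * y.2 ∧ (x - ε • sh y) 2 = x 2 ∧
    (0 ≤ ε → y.1 ^ 2 + y.2 ^ 2 < 1 → ‖(x - ε • sh y) - x‖ ≤ ε ∧ |rad (x - ε • sh y) - rad x| ≤ ε) := by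
  have h1 : ‖sh y‖ ^ 2 = y.1 ^ 2 + y.2 ^ 2 := by
    rw [norm_sq_eq]
    unfold sh
    simp
  refine ⟨h1, by simp [sh], by simp [sh], by simp [sh], fun hε hy => ?_⟩
  have h2 : ‖(x - ε • sh y) - x‖ ≤ ε := by
    have e1 : (x - ε • sh y) - x = -(ε • sh y) := by abel
    rw [e1, norm_neg, norm_smul, Real.norm_eq_abs, abs_of_nonneg hε]
    have h3 : ‖sh y‖ ≤ 1 := by
      rw [← h1] at hy
      nlinarith [norm_nonneg (sh y)]
    nlinarith
  exact ⟨h2, (rad_lip _ _).trans h2⟩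

end Pool.Agent.H16.TU
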