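/-
ROW Cb (MP_09540e_TU). Smoothness and derivatives of the mollification. PROOF. For f : E3 → F (F a normed space) of class C¹: `x ↦ ∫ bu y • f (x - ε sh y)` has derivative `∫ bu y • fderiv f (x - ε sh y)` (hasFDerivAt_integral_of_dominated_of_fderiv_le: for x in the ball of radius 1 around x₀ and y in the unit disc the points `x - ε sh y` stay in a compact set, where `fderiv f` is bounded by M:
dominating function `M bu y`), and it is continuous if f is (continuous_of_dominated or continuous_parametric_integral_of_continuous on compact support). Induction on n with contDiff_succ_iff_fderiv (state the auxiliary lemma for general F : Type in universe 0, normed space over ℝ) gives ContDiff ℝ n; contDiff_infty for ∞. hm_pd: evaluate the derivative at `e i`.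
hm_k0: `hm_pd`, and integration by parts in the plane: `y ↦ f (x - ε sh y)` is C¹ with derivative in the direction (1,0) equal to `- ε (pd 0 f)(x - ε sh y)`; `∫ bu y ∂₁[f(x - ε sh y)] = - ∫ ∂₁ bu y f(x - ε sh y)` (integral_mul_fderiv_eq_neg_fderiv_mul_of_integrable; compact supports).
-/
import Pool.Agent.H16.TU.Ca

set_option autoImplicit false

open Set Filter Topology MeasureTheory
open scoped ContDiff

namespace Pool.Agent.H16.TU

open Pool.Agent.H16 Pool.Agent.H87.NS Pool.Agent.H72.CC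

private theorem Cb_norm {y : ℝ × ℝ} (hy : y.1 ^ 2 + y.2 ^ 2 < 1) : ‖sh y‖ ≤ 1 := by
  have h1 := (sh_f y 0 0).1
  rw [← h1] at hy
  nlinarith [norm_nonneg (sh y)]

private theorem Cb_shc : Continuous sh := by
  unfold sh
  refine (PiLp.continuous_toLp 2 _).comp (continuous_pi fun i => ?_)
  fin_cases i
  · exact continuous_fst
  · exact continuous_snd
  · exact continuous_const

private theorem Cb_arg (ε : ℝ) : Continuous (fun z : E3 × (ℝ × ℝ) => z.1 - ε • sh z.2) :=
  continuous_fst.sub ((Cb_shc.comp continuous_snd).const_smul ε)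

/-- The mollification with values in a normed space. -/
private noncomputable def Cb_m {F : Type} [NormedAddCommGroup F] [NormedSpace ℝ F] (ε : ℝ) (f : E3 → F) (x : E3) : F :=
  ∫ y : ℝ × ℝ, bu y • f (x - ε • sh y)

/-- Local domination. -/
private theorem Cb_dom {F : Type} [NormedAddCommGroup F] [NormedSpace ℝ F] {f : E3 → F} (hf : Continuous f) (ε : ℝ) (x₀ : E3) :
    ∃ M : ℝ, ∀ x ∈ Metric.ball x₀ 1, ∀ y : ℝ × ℝ, ‖bu y • f (x - ε • sh y)‖ ≤ M * bu y := by
  obtain ⟨-, h2, -, -, -, h6, -⟩ := b_facts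
  obtain ⟨M, hM⟩ := (isCompact_closedBall x₀ (1 + |ε|)).exists_bound_of_continuousOn hf.continuousOn
  refine ⟨M, fun x hx y => ?_⟩
  rw [norm_smul, Real.norm_eq_abs, abs_of_nonneg (h2 y), mul_comm]
  by_cases hy : y.1 ^ 2 + y.2 ^ 2 < 1
  · refine mul_le_mul_of_nonneg_right (hM _ ?_) (h2 y)
    rw [Metric.mem_closedBall, dist_eq_norm]
    rw [Metric.mem_ball, dist_eq_norm] at hx
    have e1 : x - ε • sh y - x₀ = (x - x₀) - ε • sh y := by abel
    rw [e1]
    refine (norm_sub_le _ _).trans ?_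
    rw [norm_smul, Real.norm_eq_abs]
    have := mul_le_mul_of_nonneg_left (Cb_norm hy) (abs_nonneg ε)
    linarith
  · rw [(h6 y (not_lt.1 hy)).1]
    simp

private theorem Cb_meas {F : Type} [NormedAddCommGroup F] [NormedSpace ℝ F] [CompleteSpace F] {f : E3 → F} (hf : Continuous f) (ε : ℝ) (x : E3) :
    Continuous (fun y : ℝ × ℝ => bu y • f (x - ε • sh y)) :=
  b_facts.1.continuous.smul (hf.comp ((Cb_arg ε).comp (continuous_const.prodMk continuous_id)))

private theorem Cb_int {F : Type} [NormedAddCommGroup F] [NormedSpace ℝ F] [CompleteSpace F] {f : E3 → F} (hf : Continuous f) (ε : ℝ) (x : E3) :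
    Integrable (fun y : ℝ × ℝ => bu y • f (x - ε • sh y)) := by
  refine (Cb_meas hf ε x).integrable_of_hasCompactSupport ?_
  exact b_facts.2.2.1.smul_right

private theorem Cb_cont {F : Type} [NormedAddCommGroup F] [NormedSpace ℝ F] [CompleteSpace F] {f : E3 → F} (hf : Continuous f) (ε : ℝ) :
    Continuous (Cb_m ε f) := by
  rw [continuous_iff_continuousAt]
  intro x₀
  obtain ⟨M, hM⟩ := Cb_dom hf ε x₀
  refine continuousAt_of_dominated (bound := fun y => M * bu y) ?_ ?_ (b_facts.2.2.2.1.const_mul M) ?_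
  · exact Filter.Eventually.of_forall fun x => (Cb_meas hf ε x).aestronglyMeasurable
  · filter_upwards [Metric.ball_mem_nhds x₀ one_pos] with x hx
    exact Filter.Eventually.of_forall fun y => hM x hx y
  · refine Filter.Eventually.of_forall fun y => ?_
    have : Continuous (fun x : E3 => bu y • f (x - ε • sh y)) :=
      (hf.comp (continuous_id.sub continuous_const)).const_smul (bu y)
    exact this.continuousAt

private theorem Cb_d {F : Type} [NormedAddCommGroup F] [NormedSpace ℝ F] [CompleteSpace F] {f : E3 → F} (hf : ContDiff ℝ 1 f) (ε : ℝ) (x₀ : E3) :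
    HasFDerivAt (Cb_m ε f) (Cb_m ε (fderiv ℝ f) x₀) x₀ := by
  have hfc : Continuous (fderiv ℝ f) := hf.continuous_fderiv one_ne_zero
  obtain ⟨M, hM⟩ := Cb_dom hfc ε x₀
  refine hasFDerivAt_integral_of_dominated_of_fderiv_le (s := Metric.ball x₀ 1)
    (F' := fun x y => bu y • fderiv ℝ f (x - ε • sh y)) (bound := fun y => M * bu y)
    (Metric.ball_mem_nhds x₀ one_pos)
    (Filter.Eventually.of_forall fun x => (Cb_meas hf.continuous ε x).aestronglyMeasurable)
    (Cb_int hf.continuous ε x₀) (Cb_meas hfc ε x₀).aestronglyMeasurable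
    (Filter.Eventually.of_forall fun y x hx => hM x hx y) (b_facts.2.2.2.1.const_mul M)
    (Filter.Eventually.of_forall fun y x _ => ?_)
  have h3 : HasFDerivAt (fun x : E3 => x - ε • sh y) (ContinuousLinearMap.id ℝ E3) x :=
    (hasFDerivAt_id x).sub_const _
  have h4 := ((hf.differentiable one_ne_zero (x - ε • sh y)).hasFDerivAt).comp x h3
  rw [ContinuousLinearMap.comp_id] at h4
  exact h4.const_smul (bu y)

private theorem Cb_fd {F : Type} [NormedAddCommGroup F] [NormedSpace ℝ F] [CompleteSpace F] {f : E3 → F} (hf : ContDiff ℝ 1 f) (ε : ℝ) :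
    fderiv ℝ (Cb_m ε f) = Cb_m ε (fderiv ℝ f) := funext fun x => (Cb_d hf ε x).fderiv

private theorem Cb_cn (n : ℕ) : ∀ (F : Type) [NormedAddCommGroup F] [NormedSpace ℝ F] [CompleteSpace F] (f : E3 → F),
    ContDiff ℝ n f → ∀ ε : ℝ, ContDiff ℝ n (Cb_m ε f) := by
  induction n with
  | zero =>
    intro F _ _ _ f hf ε
    rw [Nat.cast_zero, contDiff_zero] at hf ⊢
    exact Cb_cont hf ε
  | succ n ih =>
    intro F _ _ _ f hf ε
    have h1 : ContDiff ℝ 1 f := hf.of_le (by norm_cast; omega)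
    rw [Nat.cast_succ, contDiff_succ_iff_fderiv] at hf ⊢
    refine ⟨fun x => (Cb_d h1 ε x).differentiableAt, by simp, ?_⟩
    rw [Cb_fd h1]
    exact ih _ _ hf.2.2 ε

private theorem Cb_hm (f : E3 → ℝ) (ε : ℝ) : hm ε f = Cb_m ε f := rfl

theorem hm_c {f : E3 → ℝ} {n : ℕ} (hf : ContDiff ℝ n f) (ε : ℝ) : ContDiff ℝ n (hm ε f) := by
  rw [Cb_hm]
  exact Cb_cn n ℝ f hf ε

theorem hm_sm {f : E3 → ℝ} (hf : ContDiff ℝ ∞ f) (ε : ℝ) : ContDiff ℝ ∞ (hm ε f) := by
  rw [contDiff_infty] at hf ⊢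
  exact fun n => hm_c (hf n) ε

theorem hm_cont {f : E3 → ℝ} (hf : Continuous f) (ε : ℝ) : Continuous (hm ε f) := by
  rw [Cb_hm]
  exact Cb_cont hf ε

theorem hm_pd {f : E3 → ℝ} (hf : ContDiff ℝ 1 f) (ε : ℝ) (i : Fin 3) : pd i (hm ε f) = hm ε (pd i f) := by
  funext x
  unfold pd
  rw [Cb_hm, Cb_fd hf]
  show (∫ y : ℝ × ℝ, bu y • fderiv ℝ f (x - ε • sh y)) (e i) = ∫ y : ℝ × ℝ, bu y * fderiv ℝ f (x - ε • sh y) (e i)
  rw [ContinuousLinearMap.integral_apply (Cb_int (hf.continuous_fderiv one_ne_zero) ε x)]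
  rfl

private theorem Cb_line {f : E3 → ℝ} (hf : ContDiff ℝ 1 f) (ε : ℝ) (x : E3) (w : ℝ × ℝ) (y : ℝ × ℝ) :
    DifferentiableAt ℝ (fun y : ℝ × ℝ => f (x - ε • sh y)) y ∧
    fderiv ℝ (fun y : ℝ × ℝ => f (x - ε • sh y)) y w = - ε * fderiv ℝ f (x - ε • sh y) (sh w) := by
  obtain ⟨L, hL⟩ : ∃ L : (ℝ × ℝ) →L[ℝ] E3, ∀ y, L y = sh y := by
    refine ⟨(ContinuousLinearMap.fst ℝ ℝ ℝ).smulRight (e 0) + (ContinuousLinearMap.snd ℝ ℝ ℝ).smulRight (e 1), fun y => ?_⟩
    apply ext3 <;> simp [e, sh]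
  have e1 : (fun y : ℝ × ℝ => f (x - ε • sh y)) = fun y => f (x - ε • L y) := by
    funext y
    rw [hL]
  have h2 : HasFDerivAt (fun y : ℝ × ℝ => x - ε • L y) (-(ε • L)) y := (L.hasFDerivAt.const_smul ε).const_sub x
  have h3 := ((hf.differentiable one_ne_zero (x - ε • L y)).hasFDerivAt).comp y h2
  have h4 : HasFDerivAt (fun y : ℝ × ℝ => f (x - ε • sh y)) ((fderiv ℝ f (x - ε • L y)).comp (-(ε • L))) y := by
    rw [e1]
    exact h3
  refine ⟨h4.differentiableAt, ?_⟩
  rw [h4.fderiv]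
  show fderiv ℝ f (x - ε • L y) (-(ε • L w)) = _
  rw [map_neg, map_smul, hL, hL, smul_eq_mul]
  ring

private theorem Cb_k {f : E3 → ℝ} (hf : ContDiff ℝ 1 f) {ε : ℝ} (hε : 0 < ε) (x : E3) (w : ℝ × ℝ) (i : Fin 3) (hw : sh w = e i) :
    pd i (hm ε f) x = (∫ y : ℝ × ℝ, fderiv ℝ bu y w * f (x - ε • sh y)) / ε := by
  obtain ⟨h1, -, h3, -⟩ := b_facts
  have hfc : Continuous (fderiv ℝ f) := hf.continuous_fderiv one_ne_zero
  have hbc : Continuous (fderiv ℝ bu) := h1.continuous_fderiv (by simp)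
  have harg : Continuous (fun y : ℝ × ℝ => x - ε • sh y) := (Cb_arg ε).comp (continuous_const.prodMk continuous_id)
  have hcs : HasCompactSupport (fun y : ℝ × ℝ => fderiv ℝ bu y w) := (h3.fderiv ℝ).comp_left (g := fun L : (ℝ × ℝ) →L[ℝ] ℝ => L w) rfl
  have i1 : Integrable (fun y : ℝ × ℝ => fderiv ℝ bu y w * f (x - ε • sh y)) :=
    ((hbc.clm_apply continuous_const).mul (hf.continuous.comp harg)).integrable_of_hasCompactSupport hcs.mul_right
  have i2 : Integrable (fun y : ℝ × ℝ => bu y * fderiv ℝ (fun y : ℝ × ℝ => f (x - ε • sh y)) y w) := by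
    have e1 : (fun y : ℝ × ℝ => bu y * fderiv ℝ (fun y : ℝ × ℝ => f (x - ε • sh y)) y w) =
        fun y => bu y * (- ε * fderiv ℝ f (x - ε • sh y) (sh w)) := by
      funext y
      rw [(Cb_line hf ε x w y).2]
    rw [e1]
    exact (h1.continuous.mul (continuous_const.mul ((hfc.comp harg).clm_apply continuous_const))).integrable_of_hasCompactSupport
      h3.mul_right
  have i3 : Integrable (fun y : ℝ × ℝ => bu y * f (x - ε • sh y)) :=
    (h1.continuous.mul (hf.continuous.comp harg)).integrable_of_hasCompactSupport h3.mul_right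
  have e2 := integral_mul_fderiv_eq_neg_fderiv_mul_of_integrable (v := w) i1 i2 i3
    (fun y _ => h1.differentiable (by simp) y) (fun y _ => (Cb_line hf ε x w y).1)
  have e3 : ∫ y : ℝ × ℝ, bu y * fderiv ℝ (fun y : ℝ × ℝ => f (x - ε • sh y)) y w = - ε * pd i (hm ε f) x := by
    rw [hm_pd hf]
    unfold hm
    rw [← integral_const_mul]
    refine integral_congr_ae (Filter.Eventually.of_forall fun y => ?_)
    show bu y * fderiv ℝ (fun y : ℝ × ℝ => f (x - ε • sh y)) y w = - ε * (bu y * pd i f (x - ε • sh y))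
    rw [(Cb_line hf ε x w y).2, hw]
    show bu y * (- ε * pd i f (x - ε • sh y)) = _
    ring
  rw [e3] at e2
  rw [eq_div_iff hε.ne']
  linarith

theorem hm_k0 {f : E3 → ℝ} (hf : ContDiff ℝ 1 f) {ε : ℝ} (hε : 0 < ε) (x : E3) :
    pd 0 (hm ε f) x = (∫ y : ℝ × ℝ, fderiv ℝ bu y (1, 0) * f (x - ε • sh y)) / ε ∧
    pd 1 (hm ε f) x = (∫ y : ℝ × ℝ, fderiv ℝ bu y (0, 1) * f (x - ε • sh y)) / ε := by
  refine ⟨Cb_k hf hε x (1, 0) 0 ?_, Cb_k hf hε x (0, 1) 1 ?_⟩
  · apply ext3 <;> simp [e, sh]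
  · apply ext3 <;> simp [e, sh]

end Pool.Agent.H16.TU
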