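/-
ROW Cb2 (MP_09540e_TU). Further properties of the mollification. PROOF. For continuous f the integrand `bu y * f (x - ε sh y)` is continuous with compact support, hence integrable; `bu ≥ 0`, `∫ bu = 1` (b_facts): hm_abs, hm_le, hm_add, hm_cm, hm_sq (`(∫ bu f)² ≤ ∫ bu f²`: expand `0 ≤ ∫ bu (f - m)²`). hm_hg: `(pd 0, pd 1)(hm f) = ∫ bu (pd 0 f, pd 1 f)` (hm_pd): if `s = hg (hm f) x > 0`
then `s² = ∫ bu (A pd 0 f + B pd 1 f) ≤ s ∫ bu hg f` with `A = pd 0 (hm f) x`, `B = pd 1 (hm f) x` (Cauchy-Schwarz pointwise). hm_int: Tonelli/Fubini on (ℝ×ℝ)×E3 with `bu y * g (x - ε sh y)` (integrable: product of bu integrable and translation invariance; Integrable.convolution-type argument), translation invariance in x. hm_dual: Fubini, translate x → x + ε sh y, then y → -y (bu even).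
hm_tf: hm_c, hm_pd, hm_int, hm_abs (TF: C¹, integrable with derivatives, bounded). hm_wt: for ‖shift‖ ≤ ε ≤ R: wt_cmp with A = 1. hm_w: from hm_dual: `∫ hm F wt = ∫ F hm wt ≤ 64 ∫ F wt`. hv_f: components are hm_sm; `fderiv (hv ε v) x (e i) i = pd i (hm ε v_i) x = hm ε (pd i v_i) x`, the sum is hm ε (div v) = 0.
-/
import Pool.Agent.H16.TU.Cb
import Pool.Agent.H16.TU.Wd
import Pool.Agent.H16.TU.Ba
import Pool.Agent.H16.TU.Wb

set_option autoImplicit false

open Set Filter Topology MeasureTheory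
open scoped ContDiff

namespace Pool.Agent.H16.TU

open Pool.Agent.H16 Pool.Agent.H87.NS Pool.Agent.H72.CC

private theorem Cb2_sh : Continuous sh := by
  unfold sh
  refine (PiLp.continuous_toLp 2 _).comp (continuous_pi fun i => ?_)
  fin_cases i
  · exact continuous_fst
  · exact continuous_snd
  · exact continuous_const

private theorem Cb2_arg (ε : ℝ) : Continuous (fun q : (ℝ × ℝ) × E3 => q.2 - ε • sh q.1) :=
  continuous_snd.sub ((Cb2_sh.comp continuous_fst).const_smul ε)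

private theorem Cb2_arg1 (ε : ℝ) (x : E3) : Continuous (fun y : ℝ × ℝ => x - ε • sh y) :=
  continuous_const.sub (Cb2_sh.const_smul ε)

private theorem Cb2_bc : Continuous bu := b_facts.1.continuous

private theorem Cb2_i {f : E3 → ℝ} (hf : Continuous f) (ε : ℝ) (x : E3) :
    Integrable (fun y => bu y * f (x - ε • sh y)) := by
  refine Continuous.integrable_of_hasCompactSupport ?_ ?_
  · exact Cb2_bc.mul (hf.comp (Cb2_arg1 ε x))
  · exact b_facts.2.2.1.mul_right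

private theorem Cb2_prod {g : E3 → ℝ} (hg' : Continuous g) (hi : Integrable g) (ε : ℝ) :
    Integrable (fun q : (ℝ × ℝ) × E3 => bu q.1 * g (q.2 - ε • sh q.1))
      ((volume : Measure (ℝ × ℝ)).prod (volume : Measure E3)) := by
  have hc : Continuous (fun q : (ℝ × ℝ) × E3 => bu q.1 * g (q.2 - ε • sh q.1)) :=
    (Cb2_bc.comp continuous_fst).mul (hg'.comp (Cb2_arg ε))
  rw [integrable_prod_iff hc.aestronglyMeasurable]
  refine ⟨Eventually.of_forall fun y => (hi.comp_sub_right (ε • sh y)).const_mul (bu y), ?_⟩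
  have h1 : (fun y : ℝ × ℝ => ∫ x : E3, ‖bu y * g (x - ε • sh y)‖) =
      fun y => |bu y| * ∫ x, ‖g x‖ := by
    funext y
    simp only [norm_mul]
    rw [integral_const_mul, integral_sub_right_eq_self (fun x => ‖g x‖) (ε • sh y), Real.norm_eq_abs]
  change Integrable (fun y : ℝ × ℝ => ∫ x : E3, ‖bu y * g (x - ε • sh y)‖)
  rw [h1]
  exact b_facts.2.2.2.1.abs.mul_const _

theorem hm_le {f g : E3 → ℝ} (hf : Continuous f) (hg' : Continuous g) (h : ∀ x, f x ≤ g x) (ε : ℝ) (x : E3) : hm ε f x ≤ hm ε g x := by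
  unfold hm
  exact integral_mono (Cb2_i hf ε x) (Cb2_i hg' ε x) fun y =>
    mul_le_mul_of_nonneg_left (h _) (b_facts.2.1 y)

private theorem Cb2_const (K ε : ℝ) (x : E3) : hm ε (fun _ => K) x = K := by
  unfold hm
  rw [integral_mul_const, b_facts.2.2.2.2.1, one_mul]

theorem hm_abs {f : E3 → ℝ} (hf : Continuous f) {K : ℝ} (hK : ∀ x, |f x| ≤ K) (ε : ℝ) (x : E3) : |hm ε f x| ≤ K := by
  rw [abs_le]
  constructor
  · have h1 := hm_le (f := fun _ => -K) continuous_const hf (fun y => (abs_le.1 (hK y)).1) ε x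
    rwa [Cb2_const] at h1
  · have h1 := hm_le (g := fun _ => K) hf continuous_const (fun y => (abs_le.1 (hK y)).2) ε x
    rwa [Cb2_const] at h1

theorem hm_add {f g : E3 → ℝ} (hf : Continuous f) (hg' : Continuous g) (ε : ℝ) (x : E3) :
    hm ε (fun y => f y + g y) x = hm ε f x + hm ε g x := by
  unfold hm
  rw [← integral_add (Cb2_i hf ε x) (Cb2_i hg' ε x)]
  refine integral_congr_ae (Eventually.of_forall fun y => ?_)
  exact mul_add _ _ _

theorem hm_cm (f : E3 → ℝ) (c ε : ℝ) (x : E3) : hm ε (fun y => c * f y) x = c * hm ε f x := by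
  unfold hm
  rw [← integral_const_mul]
  refine integral_congr_ae (Eventually.of_forall fun y => ?_)
  change bu y * (c * f (x - ε • sh y)) = c * (bu y * f (x - ε • sh y))
  ring

theorem hm_sq {f : E3 → ℝ} (hf : Continuous f) (ε : ℝ) (x : E3) : (hm ε f x) ^ 2 ≤ hm ε (fun y => f y ^ 2) x := by
  obtain ⟨m, hm'⟩ : ∃ m, m = hm ε f x := ⟨_, rfl⟩
  have h1 := hm_le (f := fun _ => (0 : ℝ)) (g := fun y => (f y - m) ^ 2) continuous_const
    ((hf.sub continuous_const).pow 2) (fun y => sq_nonneg _) ε x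
  have h2 : (fun y => (f y - m) ^ 2) = fun y => (f y ^ 2 + (-2 * m) * f y) + m ^ 2 := by
    funext y
    ring
  rw [Cb2_const, h2, hm_add (f := fun y => f y ^ 2 + (-2 * m) * f y) (g := fun _ => m ^ 2)
    ((hf.pow 2).add (hf.const_mul _)) continuous_const,
    hm_add (f := fun y => f y ^ 2) (g := fun y => (-2 * m) * f y) (hf.pow 2) (hf.const_mul _),
    hm_cm, Cb2_const, ← hm'] at h1
  rw [← hm']
  nlinarith [_root_.sq_nonneg m]

private theorem Cb2_pdc {f : E3 → ℝ} (hf : ContDiff ℝ 1 f) (i : Fin 3) : Continuous (pd i f) :=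
  (hf.continuous_fderiv one_ne_zero).clm_apply continuous_const

private theorem Cb2_hgc {f : E3 → ℝ} (hf : ContDiff ℝ 1 f) : Continuous (hg f) := by
  unfold hg
  exact (((Cb2_pdc hf 0).pow 2).add ((Cb2_pdc hf 1).pow 2)).sqrt

theorem hm_hg {f : E3 → ℝ} (hf : ContDiff ℝ 1 f) (ε : ℝ) (x : E3) : hg (hm ε f) x ≤ hm ε (hg f) x := by
  obtain ⟨A, hA⟩ : ∃ A, A = pd 0 (hm ε f) x := ⟨_, rfl⟩
  obtain ⟨B, hB⟩ : ∃ B, B = pd 1 (hm ε f) x := ⟨_, rfl⟩
  have e0 : hg (hm ε f) x = √(A ^ 2 + B ^ 2) := by rw [hA, hB]; rfl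
  have hA' : A = hm ε (pd 0 f) x := by rw [hA, hm_pd hf]
  have hB' : B = hm ε (pd 1 f) x := by rw [hB, hm_pd hf]
  have h0 : 0 ≤ hm ε (hg f) x := by
    have h1 := hm_le (f := fun _ => (0 : ℝ)) continuous_const (Cb2_hgc hf)
      (fun y => Real.sqrt_nonneg _) ε x
    rwa [Cb2_const] at h1
  rw [e0]
  obtain ⟨s, hs⟩ : ∃ s, s = √(A ^ 2 + B ^ 2) := ⟨_, rfl⟩
  have hs0 : 0 ≤ s := by rw [hs]; exact Real.sqrt_nonneg _
  have hs2 : s ^ 2 = A ^ 2 + B ^ 2 := by rw [hs]; exact Real.sq_sqrt (by positivity)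
  rw [← hs]
  have h1 := hm_le (f := fun y => A * pd 0 f y + B * pd 1 f y) (g := fun y => s * hg f y)
    (((Cb2_pdc hf 0).const_mul A).add ((Cb2_pdc hf 1).const_mul B)) ((Cb2_hgc hf).const_mul s)
    (fun y => by
      have h2 : s * hg f y = √((A ^ 2 + B ^ 2) * (pd 0 f y ^ 2 + pd 1 f y ^ 2)) := by
        rw [Real.sqrt_mul (by positivity), ← hs]
        rfl
      rw [h2]
      apply Real.le_sqrt_of_sq_le
      nlinarith [sq_nonneg (A * pd 1 f y - B * pd 0 f y)]) ε x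
  rw [hm_add (f := fun y => A * pd 0 f y) (g := fun y => B * pd 1 f y)
    ((Cb2_pdc hf 0).const_mul A) ((Cb2_pdc hf 1).const_mul B), hm_cm, hm_cm, hm_cm, ← hA', ← hB'] at h1
  have h3 : s * s ≤ s * hm ε (hg f) x := by nlinarith
  rcases hs0.eq_or_lt with h4 | h4
  · rw [← h4]
    exact h0
  · exact le_of_mul_le_mul_left h3 h4

theorem hm_int {g : E3 → ℝ} (hg' : Continuous g) (hi : Integrable g) (ε : ℝ) : Integrable (hm ε g) ∧ ∫ x, hm ε g x = ∫ x, g x := by
  have hp := Cb2_prod hg' hi ε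
  refine ⟨hp.integral_prod_right, ?_⟩
  unfold hm
  rw [← integral_integral_swap (f := fun (y : ℝ × ℝ) (x : E3) => bu y * g (x - ε • sh y)) hp]
  have h1 : ∀ y : ℝ × ℝ, ∫ x : E3, bu y * g (x - ε • sh y) = bu y * ∫ x, g x := by
    intro y
    rw [integral_const_mul, integral_sub_right_eq_self g (ε • sh y)]
  simp only [h1]
  rw [integral_mul_const, b_facts.2.2.2.2.1, one_mul]

private theorem Cb2_neg (y : ℝ × ℝ) : sh (-y) = - sh y := by
  unfold sh
  ext i
  fin_cases i <;> simp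

theorem hm_dual {f g : E3 → ℝ} (hf : Continuous f) (hg' : Continuous g) {K : ℝ} (hK : ∀ x, |f x| ≤ K) (hi : Integrable g) (ε : ℝ) :
    ∫ x, hm ε f x * g x = ∫ x, f x * hm ε g x := by
  have hp1 : Integrable (fun q : (ℝ × ℝ) × E3 => bu q.1 * f (q.2 - ε • sh q.1) * g q.2)
      ((volume : Measure (ℝ × ℝ)).prod (volume : Measure E3)) := by
    have h1 : Integrable (fun q : (ℝ × ℝ) × E3 => f (q.2 - ε • sh q.1) * (bu q.1 * g q.2))
        ((volume : Measure (ℝ × ℝ)).prod (volume : Measure E3)) :=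
      (b_facts.2.2.2.1.mul_prod hi).bdd_mul (c := K)
        (hf.comp (Cb2_arg ε)).aestronglyMeasurable (Eventually.of_forall fun q => hK _)
    refine h1.congr (Eventually.of_forall fun q => ?_)
    change f (q.2 - ε • sh q.1) * (bu q.1 * g q.2) = bu q.1 * f (q.2 - ε • sh q.1) * g q.2
    ring
  have hp2 : Integrable (fun q : (ℝ × ℝ) × E3 => f q.2 * (bu q.1 * g (q.2 - ε • sh q.1)))
      ((volume : Measure (ℝ × ℝ)).prod (volume : Measure E3)) :=
    (Cb2_prod hg' hi ε).bdd_mul (c := K) (hf.comp continuous_snd).aestronglyMeasurable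
      (Eventually.of_forall fun q => hK _)
  have e1 : ∫ x, hm ε f x * g x = ∫ y : ℝ × ℝ, ∫ x : E3, bu y * f (x - ε • sh y) * g x := by
    rw [integral_integral_swap (f := fun (y : ℝ × ℝ) (x : E3) => bu y * f (x - ε • sh y) * g x) hp1]
    refine integral_congr_ae (Eventually.of_forall fun x => ?_)
    exact (integral_mul_const (g x) _).symm
  have e2 : ∫ x, f x * hm ε g x = ∫ y : ℝ × ℝ, ∫ x : E3, f x * (bu y * g (x - ε • sh y)) := by
    rw [integral_integral_swap (f := fun (y : ℝ × ℝ) (x : E3) => f x * (bu y * g (x - ε • sh y))) hp2]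
    refine integral_congr_ae (Eventually.of_forall fun x => ?_)
    exact (integral_const_mul (f x) _).symm
  rw [e1, e2]
  have e3 : ∫ y : ℝ × ℝ, ∫ x : E3, f x * (bu y * g (x - ε • sh y)) =
      ∫ y : ℝ × ℝ, ∫ x : E3, f x * (bu (-y) * g (x - ε • sh (-y))) :=
    (integral_neg_eq_self (fun y : ℝ × ℝ => ∫ x : E3, f x * (bu y * g (x - ε • sh y))) _).symm
  rw [e3]
  refine integral_congr_ae (Eventually.of_forall fun y => ?_)
  change ∫ x : E3, bu y * f (x - ε • sh y) * g x = ∫ x : E3, f x * (bu (-y) * g (x - ε • sh (-y)))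
  rw [← integral_sub_right_eq_self (fun x : E3 => f x * (bu (-y) * g (x - ε • sh (-y)))) (ε • sh y)]
  refine integral_congr_ae (Eventually.of_forall fun x => ?_)
  change bu y * f (x - ε • sh y) * g x =
    f (x - ε • sh y) * (bu (-y) * g (x - ε • sh y - ε • sh (-y)))
  rw [b_facts.2.2.2.2.2.2 y, Cb2_neg, smul_neg, sub_neg_eq_add, sub_add_cancel]
  ring

theorem hm_tf {f : E3 → ℝ} (hf : TF f) (ε : ℝ) : TF (hm ε f) := by
  have h1 : ContDiff ℝ ((1 : ℕ) : WithTop ℕ∞) f := by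
    rw [Nat.cast_one]
    exact hf.c1
  have h2 := hm_c h1 ε
  rw [Nat.cast_one] at h2
  obtain ⟨B, hB⟩ := hf.bd
  refine ⟨h2, (hm_int hf.c1.continuous hf.int ε).1, fun i => ?_, B, fun x => ⟨?_, fun i => ?_⟩⟩
  · rw [hm_pd hf.c1]
    exact (hm_int (Cb2_pdc hf.c1 i) (hf.intd i) ε).1
  · exact hm_abs hf.c1.continuous (fun x => (hB x).1) ε x
  · rw [hm_pd hf.c1]
    exact hm_abs (Cb2_pdc hf.c1 i) (fun x => (hB x).2 i) ε x

theorem hm_wt {R L ε : ℝ} (hR : 0 < R) (hL : R ≤ L) (h0 : 0 ≤ ε) (hε : ε ≤ R) (z : ℝ) (x : E3) (y : ℝ × ℝ) (hy : y.1 ^ 2 + y.2 ^ 2 < 1) :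
    wt R L z (x - ε • sh y) ≤ 64 * wt R L z x ∧ wt R L z x ≤ 64 * wt R L z (x - ε • sh y) ∧ hm ε (wt R L z) x ≤ 64 * wt R L z x := by
  have hL0 : 0 < L := lt_of_lt_of_le hR hL
  have key : ∀ y : ℝ × ℝ, y.1 ^ 2 + y.2 ^ 2 < 1 → wt R L z (x - ε • sh y) ≤ 64 * wt R L z x ∧
      wt R L z x ≤ 64 * wt R L z (x - ε • sh y) := by
    intro y hy
    have h1 : ‖(x - ε • sh y) - x‖ ≤ 1 * R := by
      rw [one_mul]
      exact ((sh_f y ε x).2.2.2.2 h0 hy).1.trans hε
    have h2 := wt_cmp le_rfl hR hL z h1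
    have h3 : ‖x - (x - ε • sh y)‖ ≤ 1 * R := by rwa [norm_sub_rev]
    have h4 := wt_cmp le_rfl hR hL z h3
    rw [one_pow, mul_one] at h2 h4
    exact ⟨h2, h4⟩
  refine ⟨(key y hy).1, (key y hy).2, ?_⟩
  have hc : Continuous (wt R L z) := (wt_sm hR hL0 z).continuous
  have h5 : hm ε (wt R L z) x ≤ ∫ y : ℝ × ℝ, bu y * (64 * wt R L z x) := by
    unfold hm
    refine integral_mono (Cb2_i hc ε x) (b_facts.2.2.2.1.mul_const _) fun y => ?_
    change bu y * wt R L z (x - ε • sh y) ≤ bu y * (64 * wt R L z x)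
    by_cases hy : y.1 ^ 2 + y.2 ^ 2 < 1
    · exact mul_le_mul_of_nonneg_left (key y hy).1 (b_facts.2.1 y)
    · rw [(b_facts.2.2.2.2.2.1 y (not_lt.1 hy)).1, zero_mul, zero_mul]
  rwa [integral_mul_const, b_facts.2.2.2.2.1, one_mul] at h5

theorem hm_w {R L ε : ℝ} (hR : 0 < R) (hL : R ≤ L) (h0 : 0 ≤ ε) (hε : ε ≤ R) (z : ℝ) {F : E3 → ℝ} {K : ℝ} (hF : Continuous F)
    (hF0 : ∀ x, 0 ≤ F x ∧ F x ≤ K) : ∫ x, hm ε F x * wt R L z x ≤ 64 * ∫ x, F x * wt R L z x := by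
  have hL0 : 0 < L := lt_of_lt_of_le hR hL
  have hc : Continuous (wt R L z) := (wt_sm hR hL0 z).continuous
  obtain ⟨hi, -⟩ := wt_int hR hL0 z
  have hK : ∀ x, |F x| ≤ K := fun x => by
    rw [abs_of_nonneg (hF0 x).1]
    exact (hF0 x).2
  rw [hm_dual hF hc hK hi ε, ← integral_const_mul]
  refine integral_mono ?_ ?_ fun x => ?_
  · exact (hm_int hc hi ε).1.bdd_mul (c := K) hF.aestronglyMeasurable (Eventually.of_forall fun x => hK x)
  · exact (hi.bdd_mul (c := K) hF.aestronglyMeasurable (Eventually.of_forall fun x => hK x)).const_mul 64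
  · change F x * hm ε (wt R L z) x ≤ 64 * (F x * wt R L z x)
    have h1 := (hm_wt hR hL h0 hε z x 0 (by norm_num)).2.2
    have h2 := mul_le_mul_of_nonneg_left h1 (hF0 x).1
    linarith

theorem hv_f {v : E3 → E3} (hv' : ContDiff ℝ ∞ v) (hd : ∀ x, ∑ i : Fin 3, fderiv ℝ v x (e i) i = 0) (ε : ℝ) :
    ContDiff ℝ ∞ (hv ε v) ∧ (∀ x, ∑ i : Fin 3, fderiv ℝ (hv ε v) x (e i) i = 0) ∧ ∀ i, (fun x => hv ε v x i) = hm ε (fun y => v y i) := by
  have hcomp : ∀ i, (fun x => hv ε v x i) = hm ε (fun y => v y i) := by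
    intro i
    funext x
    unfold hv
    fin_cases i <;> rfl
  have hsm : ContDiff ℝ ∞ (hv ε v) := by
    rw [contDiff_euclidean]
    intro i
    have h1 : ContDiff ℝ ∞ (hm ε (fun y => v y i)) := hm_sm (Bds1_proj_smooth hv' i) ε
    rw [← hcomp i] at h1
    exact h1
  have h1' : ∀ i, ContDiff ℝ 1 (fun y => v y i) := fun i => (Bds1_proj_smooth hv' i).of_le (by simp)
  refine ⟨hsm, fun x => ?_, hcomp⟩
  have h1 : ∀ i, fderiv ℝ (hv ε v) x (e i) i = hm ε (pd i (fun y => v y i)) x := by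
    intro i
    rw [← pd_comp hsm i i x, hcomp i, hm_pd (h1' i)]
  rw [Fin.sum_univ_three, h1, h1, h1]
  have h2 := hm_add (f := fun y => pd 0 (fun y => v y 0) y + pd 1 (fun y => v y 1) y)
    (g := pd 2 (fun y => v y 2)) ((Cb2_pdc (h1' 0) 0).add (Cb2_pdc (h1' 1) 1)) (Cb2_pdc (h1' 2) 2) ε x
  rw [hm_add (Cb2_pdc (h1' 0) 0) (Cb2_pdc (h1' 1) 1)] at h2
  rw [← h2]
  have h3 : (fun y => pd 0 (fun y => v y 0) y + pd 1 (fun y => v y 1) y + pd 2 (fun y => v y 2) y) =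
      fun _ => (0 : ℝ) := by
    funext y
    have h4 := hd y
    rw [Fin.sum_univ_three, ← pd_comp hv', ← pd_comp hv', ← pd_comp hv'] at h4
    exact h4
  rw [h3, Cb2_const]

end Pool.Agent.H16.TU
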