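/-
ROW Cc (MP_09540e_TU). Bounds of the mollified slices. PROOF. pl: |F y| ≤ κ (1/rad y + 1) off the axis. If rad x ≥ 2ε: on the unit disc rad (x - ε sh y) ≥ rad x / 2 (sh_f), so the integral is ≤ B κ (2/rad x + 1) π. If rad x < 2ε: with a = (x 0, x 1)/ε, |a| < 2, `rad (x - ε sh y) = ε |a - y|`, and `∫_{|y|<1} |a - y|⁻¹ dy ≤ ∫_{|q|<3} |q|⁻¹ dq = 6π`
(translation; polar coordinates: Cyl_polar in H72/CC/Cyl.lean or lintegral_comp_polarCoord_symm), so the integral is ≤ B κ (6π/ε + π), and max (rad x) ε < 2ε gives 1/ε ≤ 2/max. C = 60 works.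
m1: `v₂ = pd 0 (x₀P) + pd 1 (x₁P)`, P = sP v smooth (sP_two, sP_smooth, Psi_mul), so `hm ε v₂ = pd 0 (hm ε (x₀P)) + pd 1 (hm ε (x₁P))` (hm_pd, hm_add) and hm_k0: `|..| ≤ (1/ε) ∫ |∂bu| N` each (`|x_a P| ≤ rad |P| ≤ N`), `∫|∂ bu| ≤ C π`. m2: pl with kk = bu, F = v_a (|v_a| ≤ hn v). m3: hm_k0 and pl with kk = ∂bu.
m4: `pd 2 (hm ε v₂) = hm ε (pd 2 v₂) = - hm ε (pd 0 v₀ + pd 1 v₁) = -(pd 0 (hm ε v₀) + pd 1 (hm ε v₁))` (div v = 0) and m3.
-/
import Pool.Agent.H16.TU.Cb2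

set_option autoImplicit false

open Set Filter Topology MeasureTheory
open scoped ContDiff

namespace Pool.Agent.H16.TU

open Pool.Agent.H16 Pool.Agent.H87.NS Pool.Agent.H72.CC

/-! ### auxiliary facts -/

/-- the open unit disc -/
private def Cc_D : Set (ℝ × ℝ) := {y | y.1 ^ 2 + y.2 ^ 2 < 1}

private theorem Cc_meas : MeasurableSet Cc_D :=
  (isOpen_lt (by fun_prop) continuous_const).measurableSet

private theorem Cc_vol : volume Cc_D ≤ ENNReal.ofReal 4 := by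
  have h1 : Cc_D ⊆ Icc (-1 : ℝ) 1 ×ˢ Icc (-1 : ℝ) 1 := by
    intro y hy
    have hy' : y.1 ^ 2 + y.2 ^ 2 < 1 := hy
    have ha : |y.1| ≤ 1 := by
      rw [← sq_le_one_iff_abs_le_one]
      nlinarith [sq_nonneg y.2]
    have hb : |y.2| ≤ 1 := by
      rw [← sq_le_one_iff_abs_le_one]
      nlinarith [sq_nonneg y.1]
    exact mem_prod.2 ⟨abs_le.1 ha, abs_le.1 hb⟩
  calc volume Cc_D ≤ volume (Icc (-1 : ℝ) 1 ×ˢ Icc (-1 : ℝ) 1) := measure_mono h1
    _ = ENNReal.ofReal 4 := by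
      rw [Measure.volume_eq_prod, Measure.prod_prod, Real.volume_Icc,
        ← ENNReal.ofReal_mul (by norm_num)]
      norm_num

private theorem Cc_P {g : ℝ × ℝ → ℝ} {h : ℝ × ℝ → ENNReal} {M : ℝ} (hM : 0 ≤ M)
    (hg : ∀ᵐ y, y ∈ Cc_D → ‖g y‖ₑ ≤ h y) (hg0 : ∀ y, y ∉ Cc_D → g y = 0)
    (hh : ∫⁻ y in Cc_D, h y ≤ ENNReal.ofReal M) : |∫ y, g y| ≤ M := by
  have h1 : ‖∫ y, g y‖ₑ ≤ ∫⁻ y, ‖g y‖ₑ := enorm_integral_le_lintegral_enorm _
  have h2 : ∫⁻ y, ‖g y‖ₑ ≤ ∫⁻ y in Cc_D, h y := by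
    rw [← lintegral_indicator Cc_meas]
    refine lintegral_mono_ae ?_
    filter_upwards [hg] with y hy
    by_cases hD : y ∈ Cc_D
    · rw [indicator_of_mem hD]
      exact hy hD
    · rw [indicator_of_notMem hD, hg0 y hD]
      simp
  have h3 := (h1.trans h2).trans hh
  rw [Real.enorm_eq_ofReal_abs] at h3
  exact (ENNReal.ofReal_le_ofReal_iff hM).1 h3

private theorem Cc_K (a : ℝ × ℝ) (ha : a.1 ^ 2 + a.2 ^ 2 ≤ 4) :
    ∫⁻ y in Cc_D, ENNReal.ofReal ((√((a.1 - y.1) ^ 2 + (a.2 - y.2) ^ 2))⁻¹) ≤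
      ENNReal.ofReal 24 := by
  obtain ⟨G, hGd⟩ : ∃ G : ℝ → ENNReal,
      G = (Iio (3 : ℝ)).indicator fun r => ENNReal.ofReal r⁻¹ := ⟨_, rfl⟩
  have hG : Measurable G := by
    rw [hGd]
    exact (ENNReal.measurable_ofReal.comp measurable_inv).indicator measurableSet_Iio
  have h1 : ∫⁻ y in Cc_D, ENNReal.ofReal ((√((a.1 - y.1) ^ 2 + (a.2 - y.2) ^ 2))⁻¹) ≤
      ∫⁻ y : ℝ × ℝ, G (√((a - y).1 ^ 2 + (a - y).2 ^ 2)) := by
    rw [← lintegral_indicator Cc_meas]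
    refine lintegral_mono fun y => ?_
    by_cases hD : y ∈ Cc_D
    · have hy : y.1 ^ 2 + y.2 ^ 2 < 1 := hD
      have h3 : √((a - y).1 ^ 2 + (a - y).2 ^ 2) < 3 := by
        rw [Real.sqrt_lt' (by norm_num)]
        show (a.1 - y.1) ^ 2 + (a.2 - y.2) ^ 2 < 3 ^ 2
        linarith only [sq_nonneg (a.1 + 2 * y.1), sq_nonneg (a.2 + 2 * y.2), ha, hy]
      rw [indicator_of_mem hD, hGd, indicator_of_mem (show _ ∈ Iio (3 : ℝ) from h3)]
      exact le_rfl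
    · rw [indicator_of_notMem hD]
      exact zero_le
  have h2 : ∫⁻ y : ℝ × ℝ, G (√((a - y).1 ^ 2 + (a - y).2 ^ 2)) =
      ∫⁻ y : ℝ × ℝ, G (√(y.1 ^ 2 + y.2 ^ 2)) :=
    lintegral_sub_left_eq_self (fun y : ℝ × ℝ => G (√(y.1 ^ 2 + y.2 ^ 2))) a
  rw [h2, Cyl_polar hG] at h1
  have h3 : ∫⁻ r in Ioi (0 : ℝ), ENNReal.ofReal r * G r ≤ ENNReal.ofReal 3 := by
    calc ∫⁻ r in Ioi (0 : ℝ), ENNReal.ofReal r * G r
        ≤ ∫⁻ r in Ioi (0 : ℝ), (Iio (3 : ℝ)).indicator (fun _ => (1 : ENNReal)) r := by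
          refine setLIntegral_mono' measurableSet_Ioi fun r hr => ?_
          have hr0 : (0 : ℝ) < r := hr
          by_cases h : r ∈ Iio (3 : ℝ)
          · rw [hGd, indicator_of_mem h, indicator_of_mem h, ← ENNReal.ofReal_mul hr0.le,
              mul_inv_cancel₀ hr0.ne', ENNReal.ofReal_one]
          · rw [hGd, indicator_of_notMem h, indicator_of_notMem h, mul_zero]
      _ = ENNReal.ofReal 3 := by
          rw [lintegral_indicator measurableSet_Iio, setLIntegral_one,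
            Measure.restrict_apply measurableSet_Iio]
          have : Iio (3 : ℝ) ∩ Ioi 0 = Ioo 0 3 := by
            ext r
            simp only [mem_inter_iff, mem_Iio, mem_Ioi, mem_Ioo]
            tauto
          rw [this, Real.volume_Ioo, sub_zero]
  refine h1.trans ?_
  calc ENNReal.ofReal (2 * Real.pi) * ∫⁻ r in Ioi (0 : ℝ), ENNReal.ofReal r * G r
      ≤ ENNReal.ofReal (2 * Real.pi) * ENNReal.ofReal 3 := by gcongr
    _ = ENNReal.ofReal (2 * Real.pi * 3) := (ENNReal.ofReal_mul (by positivity)).symm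
    _ ≤ ENNReal.ofReal 24 := ENNReal.ofReal_le_ofReal (by linarith [Real.pi_le_four])

private theorem Cc_const {c : ℝ} (hc : 0 ≤ c) :
    ∫⁻ _ in Cc_D, ENNReal.ofReal c ≤ ENNReal.ofReal (c * 4) := by
  rw [setLIntegral_const, ENNReal.ofReal_mul hc]
  exact mul_le_mul' le_rfl Cc_vol

private theorem Cc_Q {B M ε : ℝ} {f : E3 → ℝ} {kk : ℝ × ℝ → ℝ} (hB : 0 ≤ B) (hM : 0 ≤ M)
    (hf : ∀ y, |f y| ≤ M) (hk : ∀ y, |kk y| ≤ B)
    (hk0 : ∀ y : ℝ × ℝ, 1 ≤ y.1 ^ 2 + y.2 ^ 2 → kk y = 0) (x : E3) :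
    |∫ y, kk y * f (x - ε • sh y)| ≤ B * M * 4 := by
  refine Cc_P (h := fun _ => ENNReal.ofReal (B * M)) (by positivity)
    (Filter.Eventually.of_forall fun y _ => ?_)
    (fun y hy => by rw [hk0 y (not_lt.1 hy), zero_mul]) (Cc_const (by positivity))
  rw [Real.enorm_eq_ofReal_abs, abs_mul]
  exact ENNReal.ofReal_le_ofReal (mul_le_mul (hk y) (hf _) (abs_nonneg _) hB)

theorem pl : ∃ C : ℝ, 1 ≤ C ∧ ∀ (B κ ε : ℝ) (F : E3 → ℝ) (kk : ℝ × ℝ → ℝ), 0 ≤ B → 0 ≤ κ → 0 < ε → ε ≤ 1 → Continuous F → Continuous kk →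
    (∀ y, rad y * |F y| ≤ κ * (1 + rad y)) → (∀ y, |kk y| ≤ B) → (∀ y : ℝ × ℝ, 1 ≤ y.1 ^ 2 + y.2 ^ 2 → kk y = 0) → ∀ x,
    |∫ y, kk y * F (x - ε • sh y)| ≤ C * B * κ * (1 / max (rad x) ε + 1) := by
  refine ⟨60, by norm_num, ?_⟩
  intro B κ ε F kk hB hκ hε hε1 hF hkk hFb hkb hk0 x
  have hBκ : 0 ≤ B * κ := mul_nonneg hB hκ
  have hg0 : ∀ y, y ∉ Cc_D → kk y * F (x - ε • sh y) = 0 := fun y hy => by
    rw [hk0 y (not_lt.1 hy), zero_mul]
  have hpt : ∀ y, 0 < rad (x - ε • sh y) → ‖kk y * F (x - ε • sh y)‖ₑ ≤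
      ENNReal.ofReal (B * κ * ((rad (x - ε • sh y))⁻¹ + 1)) := by
    intro y hy
    rw [Real.enorm_eq_ofReal_abs, abs_mul]
    refine ENNReal.ofReal_le_ofReal ?_
    have h1 := hFb (x - ε • sh y)
    obtain ⟨r, hr⟩ : ∃ r, r = rad (x - ε • sh y) := ⟨_, rfl⟩
    rw [← hr] at hy h1 ⊢
    have h2 : |F (x - ε • sh y)| ≤ κ * (r⁻¹ + 1) := by
      have e1 : |F (x - ε • sh y)| = r⁻¹ * (r * |F (x - ε • sh y)|) := by
        rw [← mul_assoc, inv_mul_cancel₀ hy.ne', one_mul]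
      rw [e1]
      calc r⁻¹ * (r * |F (x - ε • sh y)|) ≤ r⁻¹ * (κ * (1 + r)) :=
            mul_le_mul_of_nonneg_left h1 (inv_nonneg.2 hy.le)
        _ = κ * (r⁻¹ + 1) := by
            field_simp
    calc |kk y| * |F (x - ε • sh y)| ≤ B * (κ * (r⁻¹ + 1)) :=
          mul_le_mul (hkb y) h2 (abs_nonneg _) hB
      _ = B * κ * (r⁻¹ + 1) := by ring
  rcases le_or_gt (2 * ε) (rad x) with hc | hc
  · have hx : 0 < rad x := by linarith
    have hmax : max (rad x) ε = rad x := max_eq_left (by linarith)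
    rw [hmax, one_div]
    have hix : 0 < (rad x)⁻¹ := inv_pos.2 hx
    have hb : |∫ y, kk y * F (x - ε • sh y)| ≤ B * κ * (2 * (rad x)⁻¹ + 1) * 4 := by
      refine Cc_P (h := fun _ => ENNReal.ofReal (B * κ * (2 * (rad x)⁻¹ + 1))) (by positivity)
        (Filter.Eventually.of_forall fun y hy => ?_) hg0 (Cc_const (by positivity))
      have h5 := ((sh_f y ε x).2.2.2.2 hε.le hy).2
      have h6 : rad x / 2 ≤ rad (x - ε • sh y) := by
        have := (abs_le.1 h5).1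
        linarith
      refine (hpt y (by linarith)).trans (ENNReal.ofReal_le_ofReal ?_)
      have h7 : (rad (x - ε • sh y))⁻¹ ≤ 2 * (rad x)⁻¹ := by
        calc (rad (x - ε • sh y))⁻¹ ≤ (rad x / 2)⁻¹ := inv_anti₀ (by linarith) h6
          _ = 2 * (rad x)⁻¹ := by
              rw [inv_div]
              rfl
      exact mul_le_mul_of_nonneg_left (by linarith) hBκ
    refine hb.trans ?_
    linarith only [mul_nonneg hBκ hix.le, hBκ, hix]
  · obtain ⟨a, ha⟩ : ∃ a : ℝ × ℝ, a = (x 0 / ε, x 1 / ε) := ⟨_, rfl⟩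
    have ha1 : x 0 = ε * a.1 := by
      rw [ha]
      field_simp
    have ha2 : x 1 = ε * a.2 := by
      rw [ha]
      field_simp
    have hrx0 : 0 ≤ rad x := Real.sqrt_nonneg _
    have hrx : rad x ^ 2 = x 0 ^ 2 + x 1 ^ 2 := Real.sq_sqrt (by positivity)
    have hε2 : 0 < ε ^ 2 := by positivity
    have ha4 : a.1 ^ 2 + a.2 ^ 2 ≤ 4 := by
      have h1 : rad x ^ 2 < (2 * ε) ^ 2 := by nlinarith only [hε, hc, hrx0]
      rw [hrx, ha1, ha2] at h1
      have h2 : ε ^ 2 * (a.1 ^ 2 + a.2 ^ 2) < ε ^ 2 * 4 := by linarith only [h1]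
      exact (lt_of_mul_lt_mul_left h2 hε2.le).le
    have hrad : ∀ y : ℝ × ℝ, rad (x - ε • sh y) =
        ε * √((a.1 - y.1) ^ 2 + (a.2 - y.2) ^ 2) := by
      intro y
      have h1 := sh_f y ε x
      unfold rad
      rw [h1.2.1, h1.2.2.1, ha1, ha2]
      have e1 : (ε * a.1 - ε * y.1) ^ 2 + (ε * a.2 - ε * y.2) ^ 2 =
          ε ^ 2 * ((a.1 - y.1) ^ 2 + (a.2 - y.2) ^ 2) := by ring
      rw [e1, Real.sqrt_mul (by positivity), Real.sqrt_sq hε.le]
    have hne : ∀ᵐ y : ℝ × ℝ, y ≠ a := compl_mem_ae_iff.2 (measure_singleton a)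
    have hb : |∫ y, kk y * F (x - ε • sh y)| ≤ B * κ * ε⁻¹ * 24 + B * κ * 4 := by
      refine Cc_P (h := fun y => ENNReal.ofReal (B * κ * ε⁻¹) *
          ENNReal.ofReal ((√((a.1 - y.1) ^ 2 + (a.2 - y.2) ^ 2))⁻¹) + ENNReal.ofReal (B * κ))
        (by positivity) ?_ hg0 ?_
      · filter_upwards [hne] with y hy _
        have hs : 0 < (a.1 - y.1) ^ 2 + (a.2 - y.2) ^ 2 := by
          by_contra hcon
          have h1 : (a.1 - y.1) ^ 2 + (a.2 - y.2) ^ 2 ≤ 0 := not_lt.1 hcon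
          have h2 : (a.1 - y.1) ^ 2 = 0 := by linarith only [sq_nonneg (a.1 - y.1), sq_nonneg (a.2 - y.2), hcon]
          have h3 : (a.2 - y.2) ^ 2 = 0 := by linarith only [sq_nonneg (a.1 - y.1), sq_nonneg (a.2 - y.2), hcon]
          apply hy
          have h4 := pow_eq_zero_iff (two_ne_zero) |>.1 h2
          have h5 := pow_eq_zero_iff (two_ne_zero) |>.1 h3
          exact Prod.ext (by linarith) (by linarith)
        have hs2 : 0 < √((a.1 - y.1) ^ 2 + (a.2 - y.2) ^ 2) := Real.sqrt_pos.2 hs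
        refine (hpt y (by rw [hrad]; positivity)).trans ?_
        rw [hrad, ← ENNReal.ofReal_mul (by positivity), ← ENNReal.ofReal_add (by positivity) hBκ]
        refine ENNReal.ofReal_le_ofReal (le_of_eq ?_)
        rw [mul_inv]
        ring
      · rw [lintegral_add_right _ measurable_const,
          lintegral_const_mul' _ _ ENNReal.ofReal_ne_top,
          ENNReal.ofReal_add (by positivity) (by positivity)]
        refine add_le_add ?_ (Cc_const hBκ)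
        rw [ENNReal.ofReal_mul (show 0 ≤ B * κ * ε⁻¹ by positivity)]
        exact mul_le_mul' le_rfl (Cc_K a ha4)
    refine hb.trans ?_
    have hm0 : 0 < max (rad x) ε := lt_of_lt_of_le hε (le_max_right _ _)
    have hm1 : max (rad x) ε ≤ 2 * ε := max_le hc.le (by linarith)
    have hm2 : ε⁻¹ ≤ 2 * (1 / max (rad x) ε) := by
      rw [one_div]
      calc ε⁻¹ = 2 * (2 * ε)⁻¹ := by
            rw [mul_inv]
            ring
        _ ≤ 2 * (max (rad x) ε)⁻¹ :=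
            mul_le_mul_of_nonneg_left (inv_anti₀ hm0 hm1) (by norm_num)
    have h8 := mul_le_mul_of_nonneg_left hm2 hBκ
    have h9 : 0 ≤ B * κ * (1 / max (rad x) ε) := by positivity
    linarith only [hBκ, h8, h9]

private theorem Cc_abs {a b : ℝ} : |a| ≤ √(a ^ 2 + b ^ 2) ∧ |b| ≤ √(a ^ 2 + b ^ 2) := by
  constructor
  · rw [← Real.sqrt_sq_eq_abs]
    exact Real.sqrt_le_sqrt (by nlinarith [sq_nonneg b])
  · rw [← Real.sqrt_sq_eq_abs]
    exact Real.sqrt_le_sqrt (by nlinarith [sq_nonneg a])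

private theorem Cc_fd : ContDiff ℝ ∞ bu → ∀ w : ℝ × ℝ, Continuous fun y => fderiv ℝ bu y w := by
  intro h w
  exact (h.continuous_fderiv (by simp)).clm_apply continuous_const

private theorem Cc_pdc {v : E3 → E3} (hv : ContDiff ℝ ∞ v) (i : Fin 3) (x : E3) :
    pd i (fun y => v y i) x = fderiv ℝ v x (e i) i := by
  have h : HasFDerivAt (fun y => v y i) ((EuclideanSpace.proj i : E3 →L[ℝ] ℝ).comp (fderiv ℝ v x)) x :=
    (EuclideanSpace.proj i : E3 →L[ℝ] ℝ).hasFDerivAt.comp x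
      ((hv.differentiable (by simp)) x).hasFDerivAt
  unfold pd
  rw [h.fderiv]
  rfl

private theorem Cc_one {f : E3 → ℝ} (hf : ContDiff ℝ ∞ f) : ContDiff ℝ 1 f :=
  hf.of_le (by exact_mod_cast le_top)

private theorem Cc_v2 {v : E3 → E3} (hv : AxF v) (x : E3) :
    v x 2 = pd 0 (fun y => y 0 * sP v y) x + pd 1 (fun y => y 1 * sP v y) x := by
  have hs := sP_smooth hv
  have hd := (Psi_diff hs) x
  rw [Psi_mul (Psi_dc 0 x) hd, Psi_mul (Psi_dc 1 x) hd, Psi_coord, Psi_coord, sP_two hv]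
  simp only [if_true]
  unfold rdr
  ring

theorem m1 : ∃ C : ℝ, 1 ≤ C ∧ ∀ (κ N ε : ℝ) (v : E3 → E3), Sl κ N v → 0 < ε → ε ≤ 1 → ∀ x, |hm ε (fun y => v y 2) x| ≤ C * N / ε := by
  obtain ⟨C, hC, hCb⟩ := b_bd
  obtain ⟨hbs, -, -, -, -, hb0, -⟩ := b_facts
  refine ⟨8 * C, by linarith, ?_⟩
  intro κ N ε v hv hε hε1 x
  have hN : 0 ≤ N := le_trans (le_trans zero_le_one hv.one) hv.le
  have hs := sP_smooth hv.ax
  have hc : ∀ i : Fin 3, ContDiff ℝ ∞ (fun y : E3 => y i * sP v y) := fun i =>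
    ((EuclideanSpace.proj i : E3 →L[ℝ] ℝ).contDiff).mul hs
  have hb : ∀ y : E3, |y 0 * sP v y| ≤ N ∧ |y 1 * sP v y| ≤ N := by
    intro y
    have h1 := Cc_abs (a := y 0) (b := y 1)
    have h2 := hv.str y
    rw [abs_mul, abs_mul]
    exact ⟨le_trans (mul_le_mul_of_nonneg_right h1.1 (abs_nonneg _)) h2,
      le_trans (mul_le_mul_of_nonneg_right h1.2 (abs_nonneg _)) h2⟩
  have e1 : hm ε (fun y => v y 2) x =
      pd 0 (hm ε (fun y => y 0 * sP v y)) x + pd 1 (hm ε (fun y => y 1 * sP v y)) x := by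
    have e2 : (fun y => v y 2) = fun y => pd 0 (fun y => y 0 * sP v y) y +
        pd 1 (fun y => y 1 * sP v y) y := by
      funext y
      exact Cc_v2 hv.ax y
    rw [e2, hm_add (pd_cont (Cc_one (hc 0)) 0) (pd_cont (Cc_one (hc 1)) 1),
      hm_pd (Cc_one (hc 0)), hm_pd (Cc_one (hc 1))]
  have k0 := (hm_k0 (Cc_one (hc 0)) hε x).1
  have k1 := (hm_k0 (Cc_one (hc 1)) hε x).2
  have q0 : |∫ y : ℝ × ℝ, fderiv ℝ bu y (1, 0) * (fun y : E3 => y 0 * sP v y) (x - ε • sh y)| ≤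
      C * N * 4 :=
    Cc_Q (kk := fun y => fderiv ℝ bu y (1, 0)) (f := fun y : E3 => y 0 * sP v y)
      (by linarith) hN (fun y => (hb y).1) (fun y => (hCb y).2.1)
      (fun y hy => by
        show fderiv ℝ bu y (1, 0) = 0
        rw [(hb0 y hy).2]
        rfl) x
  have q1 : |∫ y : ℝ × ℝ, fderiv ℝ bu y (0, 1) * (fun y : E3 => y 1 * sP v y) (x - ε • sh y)| ≤
      C * N * 4 :=
    Cc_Q (kk := fun y => fderiv ℝ bu y (0, 1)) (f := fun y : E3 => y 1 * sP v y)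
      (by linarith) hN (fun y => (hb y).2) (fun y => (hCb y).2.2)
      (fun y hy => by
        show fderiv ℝ bu y (0, 1) = 0
        rw [(hb0 y hy).2]
        rfl) x
  rw [e1, k0, k1]
  refine le_trans (abs_add_le _ _) ?_
  rw [abs_div, abs_div, abs_of_pos hε, ← add_div]
  exact div_le_div_of_nonneg_right (by linarith) hε.le

theorem m2 : ∃ C : ℝ, 1 ≤ C ∧ ∀ (κ N ε : ℝ) (v : E3 → E3), Sl κ N v → 0 < ε → ε ≤ 1 → ∀ x,
    |hm ε (fun y => v y 0) x| ≤ C * κ * (1 / max (rad x) ε + 1) ∧ |hm ε (fun y => v y 1) x| ≤ C * κ * (1 / max (rad x) ε + 1) ∧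
    |pd 0 (hm ε (fun y => v y 0)) x| ≤ C * κ / ε * (1 / max (rad x) ε + 1) ∧
    |pd 1 (hm ε (fun y => v y 1)) x| ≤ C * κ / ε * (1 / max (rad x) ε + 1) ∧
    |pd 2 (hm ε (fun y => v y 2)) x| ≤ C * κ / ε * (1 / max (rad x) ε + 1) := by
  obtain ⟨C, hC, hCb⟩ := b_bd
  obtain ⟨C₁, hC₁, hpl⟩ := pl
  obtain ⟨hbs, hbn, -, -, -, hb0, -⟩ := b_facts
  have hC0 : 0 ≤ C := by linarith
  have hCC : 1 ≤ C₁ * C := by nlinarith
  refine ⟨2 * (C₁ * C), by linarith, ?_⟩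
  intro κ N ε v hv hε hε1 x
  have hκ : 0 ≤ κ := le_trans zero_le_one hv.one
  have hvs : ContDiff ℝ ∞ v := hv.ax.smooth
  have hcp : ∀ i : Fin 3, ContDiff ℝ ∞ (fun y => v y i) := fun i =>
    (EuclideanSpace.proj i : E3 →L[ℝ] ℝ).contDiff.comp hvs
  have hF0 : ∀ y, rad y * |v y 0| ≤ κ * (1 + rad y) := fun y =>
    le_trans (mul_le_mul_of_nonneg_left (Cc_abs (a := v y 0) (b := v y 1)).1 (Real.sqrt_nonneg _))
      (hv.hor y)
  have hF1 : ∀ y, rad y * |v y 1| ≤ κ * (1 + rad y) := fun y =>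
    le_trans (mul_le_mul_of_nonneg_left (Cc_abs (a := v y 0) (b := v y 1)).2 (Real.sqrt_nonneg _))
      (hv.hor y)
  have hbu : ∀ y, |bu y| ≤ C := fun y => by
    rw [abs_of_nonneg (hbn y)]
    exact (hCb y).1
  have hm0 : 0 < max (rad x) ε := lt_of_lt_of_le hε (le_max_right _ _)
  obtain ⟨m, hmd⟩ : ∃ m, m = 1 / max (rad x) ε + 1 := ⟨_, rfl⟩
  have hm1 : 0 ≤ m := by
    rw [hmd]
    positivity
  rw [← hmd]
  have t0 : |hm ε (fun y => v y 0) x| ≤ C₁ * C * κ * m := by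
    rw [hmd]
    exact hpl C κ ε (fun y => v y 0) bu hC0 hκ hε hε1 (hcp 0).continuous hbs.continuous hF0 hbu
      (fun y hy => (hb0 y hy).1) x
  have t1 : |hm ε (fun y => v y 1) x| ≤ C₁ * C * κ * m := by
    rw [hmd]
    exact hpl C κ ε (fun y => v y 1) bu hC0 hκ hε hε1 (hcp 1).continuous hbs.continuous hF1 hbu
      (fun y hy => (hb0 y hy).1) x
  have s0 : |pd 0 (hm ε (fun y => v y 0)) x| ≤ C₁ * C * κ * m / ε := by
    rw [(hm_k0 (Cc_one (hcp 0)) hε x).1, abs_div, abs_of_pos hε, hmd]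
    refine div_le_div_of_nonneg_right ?_ hε.le
    exact hpl C κ ε (fun y => v y 0) (fun y => fderiv ℝ bu y (1, 0)) hC0 hκ hε hε1
      (hcp 0).continuous (Cc_fd hbs _) hF0 (fun y => (hCb y).2.1)
      (fun y hy => by
        show fderiv ℝ bu y (1, 0) = 0
        rw [(hb0 y hy).2]
        rfl) x
  have s1 : |pd 1 (hm ε (fun y => v y 1)) x| ≤ C₁ * C * κ * m / ε := by
    rw [(hm_k0 (Cc_one (hcp 1)) hε x).2, abs_div, abs_of_pos hε, hmd]
    refine div_le_div_of_nonneg_right ?_ hε.le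
    exact hpl C κ ε (fun y => v y 1) (fun y => fderiv ℝ bu y (0, 1)) hC0 hκ hε hε1
      (hcp 1).continuous (Cc_fd hbs _) hF1 (fun y => (hCb y).2.2)
      (fun y hy => by
        show fderiv ℝ bu y (0, 1) = 0
        rw [(hb0 y hy).2]
        rfl) x
  have s2 : |pd 2 (hm ε (fun y => v y 2)) x| ≤ 2 * (C₁ * C * κ * m / ε) := by
    have e0 : pd 2 (fun y => v y 2) = fun y => (-1) * (pd 0 (fun y => v y 0) y +
        pd 1 (fun y => v y 1) y) := by
      funext y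
      have h1 := hv.ax.div y
      rw [Fin.sum_univ_three, ← Cc_pdc hvs, ← Cc_pdc hvs, ← Cc_pdc hvs] at h1
      linarith
    have e1 : pd 2 (hm ε (fun y => v y 2)) x =
        (-1) * (pd 0 (hm ε (fun y => v y 0)) x + pd 1 (hm ε (fun y => v y 1)) x) := by
      rw [hm_pd (Cc_one (hcp 2)), e0, hm_cm,
        hm_add (pd_cont (Cc_one (hcp 0)) 0) (pd_cont (Cc_one (hcp 1)) 1),
        hm_pd (Cc_one (hcp 0)), hm_pd (Cc_one (hcp 1))]
    rw [e1, abs_mul, abs_neg, abs_one, one_mul]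
    refine le_trans (abs_add_le _ _) ?_
    linarith
  have hX : 0 ≤ C₁ * C * κ * m := by positivity
  have hXε : 0 ≤ C₁ * C * κ * m / ε := by positivity
  have r1 : 2 * (C₁ * C) * κ * m = 2 * (C₁ * C * κ * m) := by ring
  have r2 : 2 * (C₁ * C) * κ / ε * m = 2 * (C₁ * C * κ * m / ε) := by ring
  rw [r1, r2]
  exact ⟨by linarith, by linarith, by linarith, by linarith, s2⟩

end Pool.Agent.H16.TU
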