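/-
ROW Cd (MP_09540e_TU). The convex function. PROOF. hz is 0 for s ≤ 0, `s⁴/4 - s⁵/10` on [0,1], `s²/2 - s/2 + 3/20` for s ≥ 1; derivatives `hz' = s³ - s⁴/2`, resp. `s - 1/2`; `hz'' = s²(3-2s)`, resp. 1; third derivative `6s - 6s²`, resp. 0: all continuous at 0 and 1, so C³. (HasDerivAt at 0 and 1 by the one-sided derivatives: HasDerivWithinAt.union / hasDerivAt_of_hasDerivWithinAt Iic, Ici; or write
hz as an iterated integral of the continuous function clamp; ContDiff ℝ 3 via contDiff_succ_iff_deriv.) Facts for s ≥ 0: `0 ≤ hz'' ≤ 1`, `0 ≤ hz' ≤ s`, `0 ≤ hz ≤ s²/2`, `hz ≤ s hz'`, `hz'² ≤ 2 hz hz''`: on [0,1]: `s⁶ (1-s/2)² ≤ 2 s⁶ (1/4 - s/10)(3-2s)` i.e. `(1-s/2)² ≤ 2(1/4-s/10)(3-2s)`, i.e. `1 - s + s²/4 ≤ 3/2 - 8s/5 + 2s²/5`, true on [0,1]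
(difference 1/2 - 3s/5 + 3s²/20 ≥ 1/20 > 0); for s ≥ 1: `(s-1/2)² ≤ 2 (s²/2 - s/2 + 3/20)`. hk k w = hz(w-k) + hz(-w-k); for k > 0 at most one term is nonzero. h4: for w > k: s = w - k ≤ w, `hk ≤ s hz' ≤ w hz'`, so `(hk + |w||hk'|)² ≤ 4 w² hz'² ≤ 8 w² hk hk''`; symmetric for w < -k. h6: with s = |w| - k > 0: if s ≤ b fine; if b < s ≤ 1:
`hk ≥ 3/20 s⁴` and `s ≤ s⁴/b³ ≤ (20/3) hk/b³`; if s ≥ 1: `hk ≥ 3/20 s²`, `s ≤ s² ≤ (20/3) hk ≤ (20/3) hk / b³`.
-/
import Pool.Agent.H16.TU.Defs3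

set_option autoImplicit false

open Set Filter Topology MeasureTheory
open scoped ContDiff

namespace Pool.Agent.H16.TU

open Pool.Agent.H16 Pool.Agent.H87.NS Pool.Agent.H72.CC

/-- gluing two differentiable functions -/
theorem Cd_glue {f g f' g' : ℝ → ℝ} {a : ℝ} (hf : ∀ s, HasDerivAt f (f' s) s)
    (hg : ∀ s, HasDerivAt g (g' s) s) (h0 : f a = g a) (h1 : f' a = g' a) (s : ℝ) :
    HasDerivAt (fun s => if s ≤ a then f s else g s) (if s ≤ a then f' s else g' s) s := by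
  rcases lt_trichotomy s a with h | h | h
  · rw [if_pos h.le]
    refine (hf s).congr_of_eventuallyEq ?_
    filter_upwards [Iio_mem_nhds h] with t ht
    rw [if_pos (le_of_lt ht)]
  · subst h
    rw [if_pos le_rfl, ← hasDerivWithinAt_univ, ← Iic_union_Ici (a := s)]
    refine HasDerivWithinAt.union ?_ ?_
    · refine (hf s).hasDerivWithinAt.congr (fun t ht => ?_) ?_
      · exact if_pos (mem_Iic.1 ht)
      · rw [if_pos le_rfl]
    · rw [h1]
      refine (hg s).hasDerivWithinAt.congr (fun t ht => ?_) ?_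
      · by_cases hts : t ≤ s
        · have : t = s := le_antisymm hts ht
          rw [if_pos hts, this, h0]
        · rw [if_neg hts]
      · rw [if_pos le_rfl, h0]
  · rw [if_neg (not_le.2 h)]
    refine (hg s).congr_of_eventuallyEq ?_
    filter_upwards [Ioi_mem_nhds h] with t ht
    rw [if_neg (not_le.2 ht)]

/-- first derivative of the profile -/
noncomputable def Cd_1 (s : ℝ) : ℝ := if s ≤ 0 then 0 else if s ≤ 1 then s ^ 3 - s ^ 4 / 2 else s - 1 / 2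

/-- second derivative of the profile -/
noncomputable def Cd_2 (s : ℝ) : ℝ := if s ≤ 0 then 0 else if s ≤ 1 then 3 * s ^ 2 - 2 * s ^ 3 else 1

/-- third derivative of the profile -/
noncomputable def Cd_3 (s : ℝ) : ℝ := if s ≤ 0 then 0 else if s ≤ 1 then 6 * s - 6 * s ^ 2 else 0

theorem Cd_d0 (s : ℝ) : HasDerivAt hz (Cd_1 s) s := by
  refine Cd_glue (f := fun _ => (0 : ℝ)) (f' := fun _ => (0 : ℝ))
    (g := fun s => if s ≤ 1 then s ^ 4 / 4 - s ^ 5 / 10 else s ^ 2 / 2 - s / 2 + 3 / 20)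
    (g' := fun s => if s ≤ 1 then s ^ 3 - s ^ 4 / 2 else s - 1 / 2) (fun s => hasDerivAt_const s 0)
    (fun s => ?_) (by norm_num) (by norm_num) s
  refine Cd_glue (f := fun s => s ^ 4 / 4 - s ^ 5 / 10) (f' := fun s => s ^ 3 - s ^ 4 / 2)
    (g := fun s => s ^ 2 / 2 - s / 2 + 3 / 20) (g' := fun s => s - 1 / 2) (fun s => ?_) (fun s => ?_)
    (by norm_num) (by norm_num) s
  · have h := ((hasDerivAt_pow 4 s).div_const 4).sub ((hasDerivAt_pow 5 s).div_const 10)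
    refine h.congr_deriv ?_
    norm_num
    ring
  · have h := (((hasDerivAt_pow 2 s).div_const 2).sub ((hasDerivAt_id s).div_const 2)).add_const (3 / 20)
    refine h.congr_deriv ?_
    norm_num

theorem Cd_d1 (s : ℝ) : HasDerivAt Cd_1 (Cd_2 s) s := by
  refine Cd_glue (f := fun _ => (0 : ℝ)) (f' := fun _ => (0 : ℝ))
    (g := fun s => if s ≤ 1 then s ^ 3 - s ^ 4 / 2 else s - 1 / 2)
    (g' := fun s => if s ≤ 1 then 3 * s ^ 2 - 2 * s ^ 3 else 1) (fun s => hasDerivAt_const s 0)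
    (fun s => ?_) (by norm_num) (by norm_num) s
  refine Cd_glue (f := fun s => s ^ 3 - s ^ 4 / 2) (f' := fun s => 3 * s ^ 2 - 2 * s ^ 3)
    (g := fun s => s - 1 / 2) (g' := fun _ => 1) (fun s => ?_) (fun s => ?_)
    (by norm_num) (by norm_num) s
  · have h := (hasDerivAt_pow 3 s).sub ((hasDerivAt_pow 4 s).div_const 2)
    refine h.congr_deriv ?_
    norm_num
    ring
  · exact (hasDerivAt_id s).sub_const _

theorem Cd_d2 (s : ℝ) : HasDerivAt Cd_2 (Cd_3 s) s := by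
  refine Cd_glue (f := fun _ => (0 : ℝ)) (f' := fun _ => (0 : ℝ))
    (g := fun s => if s ≤ 1 then 3 * s ^ 2 - 2 * s ^ 3 else 1)
    (g' := fun s => if s ≤ 1 then 6 * s - 6 * s ^ 2 else 0) (fun s => hasDerivAt_const s 0)
    (fun s => ?_) (by norm_num) (by norm_num) s
  refine Cd_glue (f := fun s => 3 * s ^ 2 - 2 * s ^ 3) (f' := fun s => 6 * s - 6 * s ^ 2)
    (g := fun _ => 1) (g' := fun _ => 0) (fun s => ?_) (fun s => hasDerivAt_const s 1)
    (by norm_num) (by norm_num) s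
  have h := ((hasDerivAt_pow 2 s).const_mul 3).sub ((hasDerivAt_pow 3 s).const_mul 2)
  refine h.congr_deriv ?_
  norm_num
  ring

theorem Cd_c3 : Continuous Cd_3 := by
  unfold Cd_3
  refine Continuous.if_le continuous_const ?_ continuous_id continuous_const ?_
  · refine Continuous.if_le (by fun_prop) continuous_const continuous_id continuous_const ?_
    intro x hx
    have hx' : x = 1 := hx
    rw [hx']
    norm_num
  · intro x hx
    have hx' : x = 0 := hx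
    rw [hx']
    norm_num

theorem Cd_smooth : ContDiff ℝ 3 hz := by
  have e1 : deriv hz = Cd_1 := funext fun s => (Cd_d0 s).deriv
  have e2 : deriv Cd_1 = Cd_2 := funext fun s => (Cd_d1 s).deriv
  have e3 : deriv Cd_2 = Cd_3 := funext fun s => (Cd_d2 s).deriv
  have h0 : ContDiff ℝ 0 Cd_3 := contDiff_zero.2 Cd_c3
  have h1 : ContDiff ℝ (0 + 1) Cd_2 :=
    contDiff_succ_iff_deriv.2 ⟨fun s => (Cd_d2 s).differentiableAt, by simp, by rw [e3]; exact h0⟩
  have h2 : ContDiff ℝ ((0 + 1) + 1) Cd_1 :=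
    contDiff_succ_iff_deriv.2 ⟨fun s => (Cd_d1 s).differentiableAt, by
      intro h; exact absurd h (by decide), by rw [e2]; exact h1⟩
  have h3 : ContDiff ℝ (((0 + 1) + 1) + 1) hz :=
    contDiff_succ_iff_deriv.2 ⟨fun s => (Cd_d0 s).differentiableAt, by
      intro h; exact absurd h (by decide), by rw [e1]; exact h2⟩
  have e : (((0 + 1) + 1) + 1 : WithTop ℕ∞) = 3 := by norm_num
  rw [e] at h3
  exact h3

theorem Cd_neg {s : ℝ} (h : s ≤ 0) : hz s = 0 ∧ Cd_1 s = 0 ∧ Cd_2 s = 0 ∧ Cd_3 s = 0 := by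
  refine ⟨if_pos h, if_pos h, if_pos h, if_pos h⟩

theorem Cd_facts (s : ℝ) : 0 ≤ hz s ∧ 0 ≤ Cd_1 s ∧ 0 ≤ Cd_2 s ∧ Cd_2 s ≤ 1 ∧ |Cd_3 s| ≤ 2 ∧
    (0 < s → hz s ≤ s ^ 2 / 2 ∧ Cd_1 s ≤ s ∧ hz s ≤ s * Cd_1 s) ∧ Cd_1 s ^ 2 ≤ 2 * hz s * Cd_2 s := by
  rcases le_or_gt s 0 with h | h
  · obtain ⟨a, b, c, d⟩ := Cd_neg h
    rw [a, b, c, d]
    refine ⟨le_rfl, le_rfl, le_rfl, zero_le_one, by norm_num, fun h' => absurd h' (not_lt.2 h), by norm_num⟩
  · rcases le_or_gt s 1 with h1 | h1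
    · have a : hz s = s ^ 4 / 4 - s ^ 5 / 10 := by
        unfold hz; rw [if_neg (not_le.2 h), if_pos h1]
      have b : Cd_1 s = s ^ 3 - s ^ 4 / 2 := by
        unfold Cd_1; rw [if_neg (not_le.2 h), if_pos h1]
      have c : Cd_2 s = 3 * s ^ 2 - 2 * s ^ 3 := by
        unfold Cd_2; rw [if_neg (not_le.2 h), if_pos h1]
      have d : Cd_3 s = 6 * s - 6 * s ^ 2 := by
        unfold Cd_3; rw [if_neg (not_le.2 h), if_pos h1]
      rw [a, b, c, d]
      have h2 : 0 < s ^ 2 := by positivity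
      have h3 : 0 < s ^ 3 := by positivity
      have h4 : 0 < s ^ 4 := by positivity
      have h5 : 0 < s ^ 5 := by positivity
      have h21 : s ^ 2 ≤ s := by nlinarith only [h, h1]
      have h32 : s ^ 3 ≤ s ^ 2 := by nlinarith only [h1]
      have h43 : s ^ 4 ≤ s ^ 3 := by nlinarith only [h21]
      have h54 : s ^ 5 ≤ s ^ 4 := by nlinarith only [h32]
      refine ⟨by linarith only [h4, h54], by linarith, by linarith, by nlinarith only [mul_nonneg (sub_nonneg.2 h1) (sub_nonneg.2 h1), h], ?_, ?_, ?_⟩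
      · rw [abs_le]
        constructor <;> linarith only [sq_nonneg (s - 1 / 2), h21]
      · intro _
        refine ⟨by linarith, by linarith, ?_⟩
        have : s * (s ^ 3 - s ^ 4 / 2) = s ^ 4 - s ^ 5 / 2 := by ring
        rw [this]
        linarith only [h4, h54]
      · have e : 2 * (s ^ 4 / 4 - s ^ 5 / 10) * (3 * s ^ 2 - 2 * s ^ 3) - (s ^ 3 - s ^ 4 / 2) ^ 2 =
            s ^ 6 * (1 / 2 - 3 * s / 5 + 3 * s ^ 2 / 20) := by ring
        have h6 : 0 ≤ s ^ 6 * (1 / 2 - 3 * s / 5 + 3 * s ^ 2 / 20) := by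
          apply mul_nonneg (by positivity)
          nlinarith only [h, h1, h4, h32]
        linarith
    · have a : hz s = s ^ 2 / 2 - s / 2 + 3 / 20 := by
        unfold hz; rw [if_neg (not_le.2 h), if_neg (not_le.2 h1)]
      have b : Cd_1 s = s - 1 / 2 := by
        unfold Cd_1; rw [if_neg (not_le.2 h), if_neg (not_le.2 h1)]
      have c : Cd_2 s = 1 := by
        unfold Cd_2; rw [if_neg (not_le.2 h), if_neg (not_le.2 h1)]
      have d : Cd_3 s = 0 := by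
        unfold Cd_3; rw [if_neg (not_le.2 h), if_neg (not_le.2 h1)]
      rw [a, b, c, d]
      refine ⟨by nlinarith only [h, h1], by linarith only [h1], by norm_num, le_rfl, by norm_num, ?_, by nlinarith⟩
      intro _
      refine ⟨by linarith, by linarith, by nlinarith⟩

theorem Cd_sh1 {f f' : ℝ → ℝ} (h : ∀ s, HasDerivAt f (f' s) s) (k w : ℝ) :
    HasDerivAt (fun w : ℝ => f (w - k)) (f' (w - k) * 1) w := by
  have h1 : HasDerivAt (fun w : ℝ => w - k) 1 w := (hasDerivAt_id' w).sub_const k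
  exact HasDerivAt.comp (h₂ := f) w (h (w - k)) h1

theorem Cd_sh2 {f f' : ℝ → ℝ} (h : ∀ s, HasDerivAt f (f' s) s) (k w : ℝ) :
    HasDerivAt (fun w : ℝ => f (-w - k)) (f' (-w - k) * (-1)) w := by
  have h1 : HasDerivAt (fun w : ℝ => -w - k) (-1) w := (hasDerivAt_neg w).sub_const k
  exact HasDerivAt.comp (h₂ := f) w (h (-w - k)) h1

theorem Cd_e1 (k w : ℝ) : deriv (hk k) w = Cd_1 (w - k) - Cd_1 (-w - k) := by
  have h1 : HasDerivAt (fun w : ℝ => hz (w - k)) (Cd_1 (w - k) * 1) w :=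
    Cd_sh1 Cd_d0 k w
  have h2 : HasDerivAt (fun w : ℝ => hz (-w - k)) (Cd_1 (-w - k) * (-1)) w :=
    Cd_sh2 Cd_d0 k w
  have h3 := (h1.add h2).deriv
  have h4 : (fun w : ℝ => hz (w - k)) + (fun w : ℝ => hz (-w - k)) = hk k := rfl
  rw [h4] at h3
  rw [h3]
  ring

theorem Cd_e2 (k w : ℝ) : deriv (deriv (hk k)) w = Cd_2 (w - k) + Cd_2 (-w - k) := by
  have e : deriv (hk k) = fun w => Cd_1 (w - k) - Cd_1 (-w - k) := funext (Cd_e1 k)
  rw [e]
  have h1 : HasDerivAt (fun w : ℝ => Cd_1 (w - k)) (Cd_2 (w - k) * 1) w :=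
    Cd_sh1 Cd_d1 k w
  have h2 : HasDerivAt (fun w : ℝ => Cd_1 (-w - k)) (Cd_2 (-w - k) * (-1)) w :=
    Cd_sh2 Cd_d1 k w
  have h3 : HasDerivAt (fun w => Cd_1 (w - k) - Cd_1 (-w - k))
    (Cd_2 (w - k) * 1 - Cd_2 (-w - k) * (-1)) w := h1.sub h2
  rw [h3.deriv]
  ring

theorem Cd_e3 (k w : ℝ) : deriv (deriv (deriv (hk k))) w = Cd_3 (w - k) - Cd_3 (-w - k) := by
  have e : deriv (deriv (hk k)) = fun w => Cd_2 (w - k) + Cd_2 (-w - k) := funext (Cd_e2 k)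
  rw [e]
  have h1 : HasDerivAt (fun w : ℝ => Cd_2 (w - k)) (Cd_3 (w - k) * 1) w :=
    Cd_sh1 Cd_d2 k w
  have h2 : HasDerivAt (fun w : ℝ => Cd_2 (-w - k)) (Cd_3 (-w - k) * (-1)) w :=
    Cd_sh2 Cd_d2 k w
  have h3 : HasDerivAt (fun w => Cd_2 (w - k) + Cd_2 (-w - k))
    (Cd_3 (w - k) * 1 + Cd_3 (-w - k) * (-1)) w := h1.add h2
  rw [h3.deriv]
  ring

/-- everything in terms of `|w| - k` -/
theorem Cd_split {k : ℝ} (hk0 : 0 < k) (w : ℝ) : hk k w = hz (|w| - k) ∧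
    |deriv (hk k) w| = Cd_1 (|w| - k) ∧ deriv (deriv (hk k)) w = Cd_2 (|w| - k) ∧
    |deriv (deriv (deriv (hk k))) w| = |Cd_3 (|w| - k)| := by
  rw [Cd_e1, Cd_e2, Cd_e3]
  unfold hk
  rcases le_total 0 w with h | h
  · obtain ⟨a, b, c, d⟩ := Cd_neg (s := -w - k) (by linarith)
    rw [a, b, c, d, abs_of_nonneg h]
    refine ⟨by ring, ?_, by ring, by rw [sub_zero]⟩
    rw [sub_zero, abs_of_nonneg (Cd_facts _).2.1]
  · obtain ⟨a, b, c, d⟩ := Cd_neg (s := w - k) (by linarith)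
    rw [a, b, c, d, abs_of_nonpos h]
    refine ⟨by ring, ?_, by ring, by rw [zero_sub, abs_neg]⟩
    rw [zero_sub, abs_neg, abs_of_nonneg (Cd_facts _).2.1]

theorem hk_c {k : ℝ} : ContDiff ℝ 3 (hk k) := by
  have h1 : ContDiff ℝ 3 (fun w : ℝ => hz (w - k)) := Cd_smooth.comp (by fun_prop)
  have h2 : ContDiff ℝ 3 (fun w : ℝ => hz (-w - k)) := Cd_smooth.comp (by fun_prop)
  exact h1.add h2

theorem hk_0 {k : ℝ} (hk0 : 0 < k) (w : ℝ) : 0 ≤ hk k w ∧ hk k w ≤ w ^ 2 / 2 ∧ |deriv (hk k) w| ≤ |w| ∧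
    0 ≤ deriv (deriv (hk k)) w ∧ deriv (deriv (hk k)) w ≤ 1 ∧ |deriv (deriv (deriv (hk k))) w| ≤ 2 := by
  obtain ⟨a, b, c, d⟩ := Cd_split hk0 w
  rw [a, b, c, d]
  obtain ⟨f1, f2, f3, f4, f5, f6, -⟩ := Cd_facts (|w| - k)
  have hw := abs_nonneg w
  refine ⟨f1, ?_, ?_, f3, f4, f5⟩
  · rcases le_or_gt (|w| - k) 0 with h | h
    · rw [(Cd_neg h).1]
      positivity
    · refine (f6 h).1.trans ?_
      have h1 : (|w| - k) ^ 2 ≤ |w| ^ 2 := pow_le_pow_left₀ h.le (by linarith) 2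
      rw [sq_abs] at h1
      linarith
  · rcases le_or_gt (|w| - k) 0 with h | h
    · rw [(Cd_neg h).2.1]
      exact hw
    · refine (f6 h).2.1.trans (by linarith)

theorem hk_4 {k : ℝ} (hk0 : 0 < k) (w : ℝ) :
    (hk k w + |w| * |deriv (hk k) w|) ^ 2 ≤ 8 * w ^ 2 * hk k w * deriv (deriv (hk k)) w := by
  obtain ⟨a, b, c, -⟩ := Cd_split hk0 w
  rw [a, b, c]
  obtain ⟨f1, f2, f3, -, -, f6, f7⟩ := Cd_facts (|w| - k)
  have hw := abs_nonneg w
  rcases le_or_gt (|w| - k) 0 with h | h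
  · obtain ⟨g1, g2, -⟩ := Cd_neg h
    rw [g1, g2]
    norm_num
  · have h1 : hz (|w| - k) ≤ |w| * Cd_1 (|w| - k) :=
      (f6 h).2.2.trans (mul_le_mul_of_nonneg_right (by linarith) f2)
    have h2 : (hz (|w| - k) + |w| * Cd_1 (|w| - k)) ^ 2 ≤ (2 * (|w| * Cd_1 (|w| - k))) ^ 2 :=
      pow_le_pow_left₀ (by positivity) (by linarith) 2
    have h3 : (2 * (|w| * Cd_1 (|w| - k))) ^ 2 = 4 * w ^ 2 * Cd_1 (|w| - k) ^ 2 := by
      rw [mul_pow, mul_pow, sq_abs]; ring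
    have h4 := mul_le_mul_of_nonneg_left f7 (show 0 ≤ 4 * w ^ 2 by positivity)
    calc _ ≤ _ := h2
      _ = _ := h3
      _ ≤ _ := h4
      _ = _ := by ring

theorem hk_5 {k : ℝ} (hk0 : 0 < k) (w : ℝ) : k ^ 2 * hk k w ≤ w ^ 2 * hk k w ∧ k * |w| * hk k w ≤ w ^ 2 * hk k w := by
  obtain ⟨a, -⟩ := Cd_split hk0 w
  rw [a]
  have f1 := (Cd_facts (|w| - k)).1
  have hw := abs_nonneg w
  rcases le_or_gt (|w| - k) 0 with h | h
  · rw [(Cd_neg h).1]
    norm_num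
  · have hkw : k ≤ |w| := by linarith
    have hw2 : w ^ 2 = |w| ^ 2 := (sq_abs w).symm
    rw [hw2]
    refine ⟨mul_le_mul_of_nonneg_right (pow_le_pow_left₀ hk0.le hkw 2) f1, ?_⟩
    refine mul_le_mul_of_nonneg_right ?_ f1
    rw [pow_two]
    exact mul_le_mul_of_nonneg_right hkw hw

theorem hk_6 {k b : ℝ} (hk0 : 0 < k) (hb : 0 < b) (hb1 : b ≤ 1) (w : ℝ) : |w| ≤ k + b + 7 / b ^ 3 * hk k w := by
  obtain ⟨a, -⟩ := Cd_split hk0 w
  rw [a]
  obtain ⟨s, hs⟩ : ∃ s, s = |w| - k := ⟨_, rfl⟩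
  rw [← hs]
  have f1 := (Cd_facts s).1
  have hb3 : 0 < b ^ 3 := by positivity
  have hb31 : b ^ 3 ≤ 1 := pow_le_one₀ hb.le hb1
  have key : s ≤ b + 7 / b ^ 3 * hz s := by
    rcases le_or_gt s b with h | h
    · have : 0 ≤ 7 / b ^ 3 * hz s := by positivity
      linarith
    · have hs0 : 0 < s := hb.trans h
      have h2 : s ≤ 7 / b ^ 3 * hz s := by
        rw [div_mul_eq_mul_div, le_div_iff₀ hb3]
        rcases le_or_gt s 1 with h1 | h1
        · have e : hz s = s ^ 4 / 4 - s ^ 5 / 10 := by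
            unfold hz; rw [if_neg (not_le.2 hs0), if_pos h1]
          rw [e]
          have h3 : s * b ^ 3 ≤ s * s ^ 3 :=
            mul_le_mul_of_nonneg_left (pow_le_pow_left₀ hb.le h.le 3) hs0.le
          have h4 : s ^ 5 ≤ s ^ 4 := by
            have : s ^ 4 * s ≤ s ^ 4 * 1 := mul_le_mul_of_nonneg_left h1 (by positivity)
            calc s ^ 5 = s ^ 4 * s := by ring
              _ ≤ _ := this
              _ = _ := by ring
          have h5 : 0 < s ^ 4 := by positivity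
          have h6 : s * s ^ 3 = s ^ 4 := by ring
          linarith
        · have e : hz s = s ^ 2 / 2 - s / 2 + 3 / 20 := by
            unfold hz; rw [if_neg (not_le.2 hs0), if_neg (not_le.2 h1)]
          rw [e]
          have h3 : s * b ^ 3 ≤ s * 1 := mul_le_mul_of_nonneg_left hb31 hs0.le
          nlinarith only [hb, h, h1, h3]
      linarith
  linarith

end Pool.Agent.H16.TU
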