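/-
ROW Ce (MP_09540e_TU). The stream function inequality for the mollified velocity, and the inequality (*). PROOF. f1m: `∫ hm ε v₂ G = ∫ v₂ hm ε G` (hm_dual), f1 with `hm ε G` (TF: hm_tf), `hg (hm ε G) ≤ hm ε (hg G)` (hm_hg; hg G continuous), `∫ hm ε (hg G) = ∫ hg G` (hm_int; hg G integrable). star: `w = ft ε N v`, Φ = ww N Z R₁ 0, c = 4/R₁ (ww_ok / wt_wc). `G x = w x * hk k (w x) * Φ x` is TF
(ba_tf; w bounded with bounded derivatives since v is in DB 4: hm_pd, hm_abs). `∫ w² hk(w) Φ = (1/N) ∫ hm ε v₂ G ≤ ∫ hg G` and `hg G ≤ |hk(w) + w hk'(w)| hg w Φ + |w| hk(w) 2 c Φ` (ba_hg, ba_hgw, chain rule) `≤ √(8 w² hk hk'') hg w Φ + (8/(R₁ k)) w² hk Φ` (hk_4, hk_5) `≤ (1/4) w² hk Φ + 8 hk'' (hg w)² Φ + (1/4) w² hk Φ`.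
-/
import Pool.Agent.H16.TU.Cc
import Pool.Agent.H16.TU.Cd
import Pool.Agent.H16.TU.Fa
import Pool.Agent.H16.TU.Ad0

set_option autoImplicit false

open Set Filter Topology MeasureTheory
open scoped ContDiff

namespace Pool.Agent.H16.TU

open Pool.Agent.H16 Pool.Agent.H87.NS Pool.Agent.H72.CC

private theorem Ce_comp {v : E3 → E3} (hv : ContDiff ℝ ∞ v) (j : Fin 3) : ContDiff ℝ ∞ (fun y => v y j) :=
  (EuclideanSpace.proj j : E3 →L[ℝ] ℝ).contDiff.comp hv

private theorem Ce_sqrt (a b : ℝ) : √(a ^ 2 + b ^ 2) ≤ |a| + |b| := by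
  refine Real.sqrt_le_iff.2 ⟨by positivity, ?_⟩
  have h1 : 0 ≤ |a| * |b| := by positivity
  nlinarith [sq_abs a, sq_abs b]

private theorem Ce_hg0 (f : E3 → ℝ) (x : E3) : 0 ≤ hg f x := Real.sqrt_nonneg _

private theorem Ce_hgc {f : E3 → ℝ} (hf : ContDiff ℝ 1 f) : Continuous (hg f) := by
  unfold hg
  exact (((pd_cont hf 0).pow 2).add ((pd_cont hf 1).pow 2)).sqrt

private theorem Ce_hgi {f : E3 → ℝ} (hf : TF f) : Integrable (hg f) := by
  refine Integrable.mono' ((hf.intd 0).abs.add (hf.intd 1).abs) (Ce_hgc hf.c1).aestronglyMeasurable ?_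
  refine Filter.Eventually.of_forall fun x => ?_
  rw [Real.norm_eq_abs, abs_of_nonneg (Ce_hg0 f x)]
  exact Ce_sqrt _ _

theorem f1m {κ N ε : ℝ} {v : E3 → E3} (h : Sl κ N v) {G : E3 → ℝ} (hG : TF G) :
    |∫ x, hm ε (fun y => v y 2) x * G x| ≤ N * ∫ x, hg G x := by
  obtain ⟨K, hK⟩ := h.db
  have hc : Continuous (fun y => v y 2) := (Ce_comp h.ax.smooth 2).continuous
  have hN : 0 ≤ N := by linarith [h.one, h.le]
  rw [hm_dual hc hG.c1.continuous (fun x => (DB_BL (hK 2)).1 x) hG.int ε]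
  have h1 := f1 h (hm_tf hG ε)
  refine h1.trans (mul_le_mul_of_nonneg_left ?_ hN)
  have h2 := hm_int (Ce_hgc hG.c1) (Ce_hgi hG) ε
  rw [← h2.2]
  exact integral_mono_of_nonneg (Filter.Eventually.of_forall fun x => Ce_hg0 _ x) h2.1
    (Filter.Eventually.of_forall fun x => hm_hg hG.c1 ε x)

private theorem Ce_ft (ε N : ℝ) (v : E3 → E3) : ft ε N v = fun x => N⁻¹ * hm ε (fun y => v y 2) x := by
  funext x
  unfold ft
  rw [div_eq_inv_mul]

theorem ft_bd {κ N ε : ℝ} {v : E3 → E3} (h : Sl κ N v) : ContDiff ℝ ∞ (ft ε N v) ∧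
    ∃ K : ℝ, ∀ x, |ft ε N v x| ≤ K ∧ (∀ i, |pd i (ft ε N v) x| ≤ K) ∧ ∀ i j, |pd i (pd j (ft ε N v)) x| ≤ K := by
  obtain ⟨K, hK⟩ := h.db
  have hN : 1 ≤ N := h.one.trans h.le
  have hN' : N⁻¹ ≤ 1 := inv_le_one_of_one_le₀ hN
  have hN0 : 0 ≤ N⁻¹ := by positivity
  have h2 := Ce_comp h.ax.smooth 2
  have h2' : ContDiff ℝ 1 (fun y => v y 2) := h2.of_le (by exact_mod_cast le_top)
  have hs : ContDiff ℝ ∞ (hm ε (fun y => v y 2)) := hm_sm h2 ε
  have hp : ∀ j, ContDiff ℝ ∞ (pd j (fun y => v y 2)) := fun j => pd_smooth h2 j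
  have hp' : ∀ j, ContDiff ℝ 1 (pd j (fun y => v y 2)) := fun j => (hp j).of_le (by exact_mod_cast le_top)
  have e1 : ∀ j, pd j (ft ε N v) = fun x => N⁻¹ * hm ε (pd j (fun y => v y 2)) x := by
    intro j
    funext x
    rw [Ce_ft, Psi_cm (Psi_diff hs x), hm_pd h2']
  have e2 : ∀ i j, pd i (pd j (ft ε N v)) = fun x => N⁻¹ * hm ε (pd i (pd j (fun y => v y 2))) x := by
    intro i j
    funext x
    rw [e1 j, Psi_cm (Psi_diff (hm_sm (hp j) ε) x), hm_pd (hp' j)]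
  have key : ∀ {f : E3 → ℝ} (x : E3), Continuous f → (∀ y, |f y| ≤ K) → |N⁻¹ * hm ε f x| ≤ K := by
    intro f x hf hb
    have h3 := hm_abs hf hb ε x
    rw [abs_mul, abs_of_nonneg hN0]
    calc N⁻¹ * |hm ε f x| ≤ 1 * |hm ε f x| := mul_le_mul_of_nonneg_right hN' (abs_nonneg _)
      _ = |hm ε f x| := one_mul _
      _ ≤ K := h3
  refine ⟨?_, K, fun x => ⟨?_, fun i => ?_, fun i j => ?_⟩⟩
  · rw [Ce_ft]
    exact contDiff_const.mul hs
  · rw [Ce_ft]
    exact key x h2.continuous fun y => (DB_BL (hK 2)).1 y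
  · rw [e1]
    exact key x (hp i).continuous fun y => (DB_BL (DB_pd (hK 2) i)).1 y
  · rw [e2]
    exact key x (pd_smooth (hp j) i).continuous fun y => (DB_BL (DB_pd (DB_pd (hK 2) j) i)).1 y

private theorem Ce_alg {a A B h c : ℝ} (ha : 0 ≤ a) (hh : 0 ≤ h) (hA : 0 ≤ A) (hB : 0 ≤ B) (haa : a ^ 2 ≤ 8 * A * B)
    (hc : c = A / 4 + 8 * (B * h ^ 2)) : a * h ≤ c := by
  rw [hc]
  have h1 : 0 ≤ A / 4 + 8 * (B * h ^ 2) := by positivity
  refine (abs_le_of_sq_le_sq' ?_ h1).2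
  have h2 := mul_le_mul_of_nonneg_right haa (sq_nonneg h)
  linarith only [sq_nonneg (A / 4 - 8 * (B * h ^ 2)), h2]

theorem star {κ N Z ε k R₁ : ℝ} {v : E3 → E3} (h : Sl κ N v) (hZ : 1 ≤ Z) (hR : 1 ≤ R₁) (hk0 : 0 < k) (hk1 : 32 ≤ R₁ * k) :
    ∫ x, ft ε N v x ^ 2 * hk k (ft ε N v x) * ww N Z R₁ 0 x ≤
      16 * ∫ x, deriv (deriv (hk k)) (ft ε N v x) * (hg (ft ε N v) x) ^ 2 * ww N Z R₁ 0 x := by
  obtain ⟨ws, K, hK⟩ := ft_bd (ε := ε) h
  have hN : 1 ≤ N := h.one.trans h.le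
  have hN0 : 0 < N := by linarith
  have hR0 : 0 < R₁ := by linarith
  obtain ⟨hW, -, -⟩ := ww_ok hN hZ hR0 0
  obtain ⟨Φ, hΦ⟩ : ∃ Φ, Φ = ww N Z R₁ 0 := ⟨_, rfl⟩
  obtain ⟨w, hw⟩ : ∃ w, w = ft ε N v := ⟨_, rfl⟩
  rw [← hΦ] at hW ⊢
  rw [← hw] at ws hK ⊢
  have hK0 : 0 ≤ K := (abs_nonneg _).trans (hK 0).1
  have w1 : ContDiff ℝ 1 w := ws.of_le (by exact_mod_cast le_top)
  have hkc : ContDiff ℝ 3 (hk k) := hk_c
  have hk1c : ContDiff ℝ 1 (hk k) := hkc.of_le (by norm_num)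
  have hkd : ContDiff ℝ 2 (deriv (hk k)) := by
    have h3 : (3 : WithTop ℕ∞) = 2 + 1 := by norm_num
    rw [h3] at hkc
    exact (contDiff_succ_iff_deriv.1 hkc).2.2
  have hkdd : ContDiff ℝ 1 (deriv (deriv (hk k))) := by
    have h3 : (2 : WithTop ℕ∞) = 1 + 1 := by norm_num
    rw [h3] at hkd
    exact (contDiff_succ_iff_deriv.1 hkd).2.2
  have hkb : ∀ x, |hk k (w x)| ≤ K ^ 2 := by
    intro x
    obtain ⟨a1, a2, -⟩ := hk_0 hk0 (w x)
    rw [abs_of_nonneg a1]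
    have a3 := pow_le_pow_left₀ (abs_nonneg _) (hK x).1 2
    rw [sq_abs] at a3
    have a4 := sq_nonneg K
    linarith
  have hkb' : ∀ x, |deriv (hk k) (w x)| ≤ K := fun x => (hk_0 hk0 (w x)).2.2.1.trans (hK x).1
  have pw : ∀ i x, pd i (fun y => w y * hk k (w y)) x = (hk k (w x) + w x * deriv (hk k) (w x)) * pd i w x := by
    intro i x
    have d1 : DifferentiableAt ℝ w x := Psi_diff ws x
    have d2 : DifferentiableAt ℝ (fun y => hk k (w y)) x :=
      ((hk1c.comp w1).differentiable one_ne_zero) x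
    rw [Psi_mul d1 d2, comp_pd w1 hk1c]
    ring
  have fc : ContDiff ℝ 1 (fun y => w y * hk k (w y)) := w1.mul (hk1c.comp w1)
  have hf : TF (fun x => (w x * hk k (w x)) * Φ x) := by
    refine ba_tf (K := K * K ^ 2 + (K ^ 2 + K * K) * K) hW fc fun x => ⟨?_, fun i => ?_⟩
    · rw [abs_mul]
      have b1 := mul_le_mul (hK x).1 (hkb x) (abs_nonneg _) hK0
      have b2 : 0 ≤ (K ^ 2 + K * K) * K := by positivity
      linarith
    · rw [pw, abs_mul]
      have b1 : |hk k (w x) + w x * deriv (hk k) (w x)| ≤ K ^ 2 + K * K := by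
        refine (abs_add_le _ _).trans (add_le_add (hkb x) ?_)
        rw [abs_mul]
        exact mul_le_mul (hK x).1 (hkb' x) (abs_nonneg _) hK0
      have b2 := mul_le_mul b1 ((hK x).2.1 i) (abs_nonneg _) (by positivity)
      have b3 : 0 ≤ K * K ^ 2 := by positivity
      linarith
  have hgf : ∀ x, hg (fun y => w y * hk k (w y)) x = |hk k (w x) + w x * deriv (hk k) (w x)| * hg w x := by
    intro x
    unfold hg
    rw [pw, pw, ← Real.sqrt_sq_eq_abs, ← Real.sqrt_mul (sq_nonneg _)]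
    congr 1
    ring
  -- the pointwise inequality
  have key : ∀ x, hg (fun x => (w x * hk k (w x)) * Φ x) x ≤
      1 / 2 * (w x ^ 2 * hk k (w x) * Φ x) + 8 * (deriv (deriv (hk k)) (w x) * (hg w x) ^ 2 * Φ x) := by
    intro x
    obtain ⟨a1, a2, a3, a4, a5, a6⟩ := hk_0 hk0 (w x)
    have hΦ0 := hW.nn x
    have c1 := ba_hg (f := fun y => w y * hk k (w y)) (Ψ := Φ) (x := x) (fc.differentiable one_ne_zero x)
      (hW.sm.differentiable (by simp) x)
    refine c1.trans ?_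
    rw [hgf, abs_of_nonneg hΦ0]
    have c2 : |hk k (w x) + w x * deriv (hk k) (w x)| ≤ hk k (w x) + |w x| * |deriv (hk k) (w x)| := by
      refine (abs_add_le _ _).trans ?_
      rw [abs_mul, abs_of_nonneg a1]
    have c3 : (hk k (w x) + |w x| * |deriv (hk k) (w x)|) * hg w x ≤
        w x ^ 2 * hk k (w x) / 4 + 8 * (deriv (deriv (hk k)) (w x) * hg w x ^ 2) := by
      refine Ce_alg (A := w x ^ 2 * hk k (w x)) (B := deriv (deriv (hk k)) (w x)) (by positivity) (Ce_hg0 w x)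
        (by positivity) a4 ?_ rfl
      have := hk_4 hk0 (w x)
      linarith
    have c4 : |hk k (w x) + w x * deriv (hk k) (w x)| * hg w x ≤
        w x ^ 2 * hk k (w x) / 4 + 8 * (deriv (deriv (hk k)) (w x) * hg w x ^ 2) :=
      (mul_le_mul_of_nonneg_right c2 (Ce_hg0 w x)).trans c3
    have c5 := mul_le_mul_of_nonneg_right c4 hΦ0
    have c6 : |w x * hk k (w x)| * hg Φ x ≤ w x ^ 2 * hk k (w x) / 4 * Φ x := by
      have d1 := ba_hgw hW x
      have d2 : |w x * hk k (w x)| = |w x| * hk k (w x) := by rw [abs_mul, abs_of_nonneg a1]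
      rw [d2]
      have d3 : 0 ≤ |w x| * hk k (w x) := by positivity
      have d4 := mul_le_mul_of_nonneg_left d1 d3
      refine d4.trans ?_
      have d5 := (hk_5 hk0 (w x)).2
      have d6 : |w x| * hk k (w x) ≤ w x ^ 2 * hk k (w x) / k := by
        rw [le_div_iff₀ hk0]
        linarith
      have d7 : 2 * (4 / R₁) * (w x ^ 2 * hk k (w x) / k) ≤ w x ^ 2 * hk k (w x) / 4 := by
        have e1 : 2 * (4 / R₁) * (w x ^ 2 * hk k (w x) / k) = (w x ^ 2 * hk k (w x)) * (8 / (R₁ * k)) := by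
          field_simp
          ring
        have e2 : 8 / (R₁ * k) ≤ 1 / 4 := by
          rw [div_le_div_iff₀ (by positivity) (by norm_num)]
          linarith only [hk1]
        have e3 : 0 ≤ w x ^ 2 * hk k (w x) := by positivity
        rw [e1]
        have := mul_le_mul_of_nonneg_left e2 e3
        linarith only [this]
      have d8 : 0 ≤ 2 * (4 / R₁) := by positivity
      have d9 := mul_le_mul_of_nonneg_left d6 d8
      have d10 := mul_le_mul_of_nonneg_right (d9.trans d7) hΦ0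
      calc |w x| * hk k (w x) * (2 * (4 / R₁) * Φ x) = 2 * (4 / R₁) * (|w x| * hk k (w x)) * Φ x := by ring
        _ ≤ _ := d10
    have c7 : 1 / 2 * (w x ^ 2 * hk k (w x) * Φ x) + 8 * (deriv (deriv (hk k)) (w x) * (hg w x) ^ 2 * Φ x) =
        (w x ^ 2 * hk k (w x) / 4 + 8 * (deriv (deriv (hk k)) (w x) * hg w x ^ 2)) * Φ x +
        w x ^ 2 * hk k (w x) / 4 * Φ x := by ring
    rw [c7]
    exact add_le_add c5 c6
  -- integrability
  have hwsq : ∀ x, w x ^ 2 ≤ K ^ 2 := by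
    intro x
    have a3 := pow_le_pow_left₀ (abs_nonneg _) (hK x).1 2
    rwa [sq_abs] at a3
  have i1 : Integrable (fun x => w x ^ 2 * hk k (w x) * Φ x) := by
    refine wi (K := K ^ 2 * K ^ 2) hW ((ws.continuous.pow 2).mul (hk1c.continuous.comp ws.continuous)) fun x => ?_
    rw [abs_mul, abs_of_nonneg (sq_nonneg _)]
    exact mul_le_mul (hwsq x) (hkb x) (abs_nonneg _) (by positivity)
  have hgw2 : ∀ x, (hg w x) ^ 2 ≤ K ^ 2 + K ^ 2 := by
    intro x
    have e1 : (hg w x) ^ 2 = pd 0 w x ^ 2 + pd 1 w x ^ 2 := Real.sq_sqrt (by positivity)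
    rw [e1]
    have e2 : ∀ i, pd i w x ^ 2 ≤ K ^ 2 := by
      intro i
      have a3 := pow_le_pow_left₀ (abs_nonneg _) ((hK x).2.1 i) 2
      rwa [sq_abs] at a3
    exact add_le_add (e2 0) (e2 1)
  have i2 : Integrable (fun x => deriv (deriv (hk k)) (w x) * (hg w x) ^ 2 * Φ x) := by
    refine wi (K := 1 * (K ^ 2 + K ^ 2)) hW ((hkdd.continuous.comp ws.continuous).mul ((Ce_hgc w1).pow 2)) fun x => ?_
    obtain ⟨a1, a2, a3, a4, a5, a6⟩ := hk_0 hk0 (w x)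
    rw [abs_mul, abs_of_nonneg a4, abs_of_nonneg (sq_nonneg _)]
    exact mul_le_mul a5 (hgw2 x) (sq_nonneg _) zero_le_one
  have s1 : ∫ x, w x ^ 2 * hk k (w x) * Φ x ≤ ∫ x, hg (fun x => (w x * hk k (w x)) * Φ x) x := by
    have e1 := f1m (ε := ε) h hf
    have e2 : ∫ x, w x ^ 2 * hk k (w x) * Φ x = N⁻¹ * ∫ x, hm ε (fun y => v y 2) x * ((w x * hk k (w x)) * Φ x) := by
      rw [← integral_const_mul]
      refine integral_congr_ae (Filter.Eventually.of_forall fun x => ?_)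
      have e3 : w x = N⁻¹ * hm ε (fun y => v y 2) x := by
        rw [hw, Ce_ft]
      show w x ^ 2 * hk k (w x) * Φ x = N⁻¹ * (hm ε (fun y => v y 2) x * ((w x * hk k (w x)) * Φ x))
      rw [pow_two]
      nth_rewrite 1 [e3]
      ring
    have e4 := (le_abs_self _).trans e1
    have e5 := mul_le_mul_of_nonneg_left e4 (inv_nonneg.2 hN0.le)
    rw [← e2, ← mul_assoc, inv_mul_cancel₀ hN0.ne', one_mul] at e5
    exact e5
  have s2 : ∫ x, hg (fun x => (w x * hk k (w x)) * Φ x) x ≤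
      ∫ x, (1 / 2 * (w x ^ 2 * hk k (w x) * Φ x) + 8 * (deriv (deriv (hk k)) (w x) * (hg w x) ^ 2 * Φ x)) :=
    integral_mono_of_nonneg (Filter.Eventually.of_forall fun x => Ce_hg0 _ x)
      ((i1.const_mul _).add (i2.const_mul _)) (Filter.Eventually.of_forall key)
  rw [integral_add (i1.const_mul _) (i2.const_mul _), integral_const_mul, integral_const_mul] at s2
  linarith

end Pool.Agent.H16.TU
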