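/-
ROW Cg (MP_09540e_TU). The derivative of the functional. PROOF. Let `g t x = hm ε (fun y => lap u₂ y - adv (u t y) u₂ y - pd 2 (p t) y) x / N` (u₂ = fun y => u t y 2). en0 with `f t x = ft ε N (u t) x`, j = hk k (C³): joint continuity of f and g on Icc a b × E3 (the mollified functions are jointly continuous: dominated convergence, compact support of bu, JC), bounds: gv_u, pres (|pd 2 p| ≤ K for t ∈ Ioo 0 T', extended to
Icc a b by continuity), hm_abs; `HasDerivAt (fun s => f s x) (g t x) t`, t ∈ Ioo a b: differentiate under the integral over y (hasDerivAt_integral_of_dominated_loc_of_deriv_le; ∂_t u₂ = lap - adv - pd 2 p by ns_comp, bounded). So `HH(b) - HH(a) = ∫_a^b ∫ hk'(f) g Ψ`.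
At fixed t ∈ Ioo 0 T (v = u t): `hm ε (lap v₂) = lap (hm ε v₂)` (hm_pd twice), `adv v v₂ = ∑ pd i (v_i v₂)` (div v = 0), so `hm ε (adv v v₂) = ∑ pd i (hm ε (v_i v₂)) = ∑ pd i (rh ε v i) + adv (hv ε v) (hm ε v₂)` (div hv = 0: hv_f). Hence `g = lap f - adv (hv ε v) f - (∑ pd i (rh i))/N - hm ε (pd 2 p)/N`. en1 (b = hv ε v) for the first two terms;
IBP (ibpI, Ψ weights) `- ∫ hk'(f) pd i (rh i) Ψ = ∫ rh i (hk''(f) pd i f Ψ + hk'(f) pd i Ψ)`; `∫ hk'(f) Ψ hm ε (pd 2 p) = ∫ hm ε (hk'(f) Ψ) pd 2 p` (hm_dual; pd 2 p bounded, continuous). Integrability in t of RR: it equals the continuous function `∫ hk'(f) g Ψ` of t on (a,b) (continuity: dominated convergence), bounded; a.e. equality on [a,b].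
-/
import Pool.Agent.H16.TU.Ce
import Pool.Agent.H16.TU.Tb
import Pool.Agent.H16.TU.Ta
import Pool.Agent.H16.TU.Pm

set_option autoImplicit false

open Set Filter Topology MeasureTheory
open scoped ContDiff

namespace Pool.Agent.H16.TU

open Pool.Agent.H16 Pool.Agent.H87.NS Pool.Agent.H72.CC

/-- Jointly continuous, bounded on compact time intervals. -/
def Cg_BC (T : ℝ) (F : ℝ → E3 → ℝ) : Prop :=
  JC T F ∧ ∀ T' < T, ∃ K : ℝ, ∀ t ∈ Icc 0 T', ∀ x, |F t x| ≤ K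

theorem Cg_slice {T : ℝ} {F : ℝ → E3 → ℝ} (hF : JC T F) {t : ℝ} (ht : t ∈ Ico 0 T) : Continuous (F t) := by
  have h1 : ContinuousOn (fun x : E3 => (t, x)) univ := (by fun_prop : Continuous fun x : E3 => (t, x)).continuousOn
  have h2 := ContinuousOn.comp (g := fun q : ℝ × E3 => F q.1 q.2) hF h1 (fun x _ => ⟨ht, mem_univ _⟩)
  exact continuousOn_univ.1 h2

theorem Cg_add {T : ℝ} {F G : ℝ → E3 → ℝ} (hF : Cg_BC T F) (hG : Cg_BC T G) :
    Cg_BC T (fun t x => F t x + G t x) := by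
  refine ⟨JC_add hF.1 hG.1, fun T' hT' => ?_⟩
  obtain ⟨K, hK⟩ := hF.2 T' hT'
  obtain ⟨L, hL⟩ := hG.2 T' hT'
  exact ⟨K + L, fun t ht x => (abs_add_le _ _).trans (add_le_add (hK t ht x) (hL t ht x))⟩

theorem Cg_mul {T : ℝ} {F G : ℝ → E3 → ℝ} (hF : Cg_BC T F) (hG : Cg_BC T G) :
    Cg_BC T (fun t x => F t x * G t x) := by
  refine ⟨JC_mul hF.1 hG.1, fun T' hT' => ?_⟩
  obtain ⟨K, hK⟩ := hF.2 T' hT'
  obtain ⟨L, hL⟩ := hG.2 T' hT'
  refine ⟨K * L, fun t ht x => ?_⟩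
  rw [abs_mul]
  exact mul_le_mul (hK t ht x) (hL t ht x) (abs_nonneg _) ((abs_nonneg _).trans (hK t ht x))

theorem Cg_comp {T : ℝ} {F : ℝ → E3 → ℝ} (hF : Cg_BC T F) {H : ℝ → ℝ} (hH : Continuous H) :
    Cg_BC T (fun t x => H (F t x)) := by
  refine ⟨JC_comp hF.1 hH, fun T' hT' => ?_⟩
  obtain ⟨K, hK⟩ := hF.2 T' hT'
  obtain ⟨B, _, hB⟩ := Tb_bd hH K
  exact ⟨B, fun t ht x => hB _ (hK t ht x)⟩

theorem Cg_sum {T : ℝ} {F : Fin 3 → ℝ → E3 → ℝ} (hF : ∀ i, Cg_BC T (F i)) :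
    Cg_BC T (fun t x => ∑ i : Fin 3, F i t x) := by
  have h1 := Cg_add (Cg_add (hF 0) (hF 1)) (hF 2)
  simp only [Fin.sum_univ_three]
  exact h1

theorem Cg_sh : Continuous sh := by
  unfold sh
  fun_prop

theorem Cg_hm {T : ℝ} {F : ℝ → E3 → ℝ} (hF : Cg_BC T F) (ε : ℝ) : Cg_BC T (fun t => hm ε (F t)) := by
  refine ⟨?_, fun T' hT' => ?_⟩
  · rintro ⟨t₀, x₀⟩ ⟨ht₀, -⟩
    have ht₀' : t₀ ∈ Ico 0 T := ht₀
    obtain ⟨K, hK⟩ := hF.2 ((t₀ + T) / 2) (by linarith [ht₀'.2])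
    have hlt : ∀ᶠ q : ℝ × E3 in 𝓝[Ico 0 T ×ˢ univ] (t₀, x₀), q.1 ∈ Ico 0 T ∧ q.1 ≤ (t₀ + T) / 2 := by
      refine Filter.Eventually.and ?_ ?_
      · filter_upwards [self_mem_nhdsWithin] with q hq using hq.1
      · refine nhdsWithin_le_nhds ?_
        have h1 : Tendsto (fun q : ℝ × E3 => q.1) (𝓝 (t₀, x₀)) (𝓝 t₀) := continuous_fst.tendsto _
        exact h1.eventually (Iic_mem_nhds (by linarith [ht₀'.2]))
    change ContinuousWithinAt (fun q : ℝ × E3 => ∫ y : ℝ × ℝ, bu y * F q.1 (q.2 - ε • sh y)) (Ico 0 T ×ˢ univ) (t₀, x₀)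
    refine continuousWithinAt_of_dominated (bound := fun y => bu y * K) ?_ ?_ (b_facts.2.2.2.1.mul_const K) ?_
    · filter_upwards [hlt] with q hq
      have h2 : Continuous fun y : ℝ × ℝ => F q.1 (q.2 - ε • sh y) :=
        (Cg_slice hF.1 hq.1).comp (continuous_const.sub (Cg_sh.const_smul ε))
      exact (b_facts.1.continuous.mul h2).aestronglyMeasurable
    · filter_upwards [hlt] with q hq
      refine ae_of_all _ fun y => ?_
      rw [norm_mul, Real.norm_eq_abs, Real.norm_eq_abs, abs_of_nonneg (b_facts.2.1 y)]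
      exact mul_le_mul_of_nonneg_left (hK _ ⟨hq.1.1, hq.2⟩ _) (b_facts.2.1 y)
    · refine ae_of_all _ fun y => ?_
      have h1 : ContinuousWithinAt (fun q : ℝ × E3 => F q.1 q.2) (Ico 0 T ×ˢ univ) (t₀, x₀ - ε • sh y) :=
        hF.1 (t₀, x₀ - ε • sh y) ⟨ht₀', mem_univ _⟩
      have h2 : ContinuousWithinAt (fun q : ℝ × E3 => (q.1, q.2 - ε • sh y)) (Ico 0 T ×ˢ univ) (t₀, x₀) :=
        (by fun_prop : Continuous fun q : ℝ × E3 => (q.1, q.2 - ε • sh y)).continuousWithinAt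
      exact continuousWithinAt_const.mul
        (ContinuousWithinAt.comp (g := fun q : ℝ × E3 => F q.1 q.2) (f := fun q : ℝ × E3 => (q.1, q.2 - ε • sh y))
          (x := (t₀, x₀)) h1 h2 (fun q hq => ⟨hq.1, mem_univ _⟩))
  · obtain ⟨K, hK⟩ := hF.2 T' hT'
    exact ⟨K, fun t ht x => hm_abs (Cg_slice hF.1 ⟨ht.1, lt_of_le_of_lt ht.2 hT'⟩) (fun x => hK t ht x) ε x⟩

theorem Cg_u {T : ℝ} {u : ℝ → E3 → E3} {p : ℝ → E3 → ℝ} (h : IsHInfAxisymNS T u p) (j : Fin 3) :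
    Cg_BC T (fun t x => u t x j) :=
  ⟨JS_JC (js_u h.ns j), fun T' hT' => by
    obtain ⟨K, hK0, hK⟩ := gv_u h hT'
    exact ⟨K, fun t ht x => (Pk_co (u t x) j).trans (hK t ht x).1⟩⟩

theorem Cg_pu {T : ℝ} {u : ℝ → E3 → E3} {p : ℝ → E3 → ℝ} (h : IsHInfAxisymNS T u p) (i j : Fin 3) :
    Cg_BC T (fun t => pd i (fun y => u t y j)) :=
  ⟨JS_JC (JS_pd (js_u h.ns j) i), fun T' hT' => by
    obtain ⟨K, hK0, hK⟩ := gv_u h hT'
    exact ⟨K, fun t ht x => (hK t ht x).2.2.1 i j⟩⟩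

theorem Cg_ppu {T : ℝ} {u : ℝ → E3 → E3} {p : ℝ → E3 → ℝ} (h : IsHInfAxisymNS T u p) (i j k : Fin 3) :
    Cg_BC T (fun t => pd i (pd j (fun y => u t y k))) :=
  ⟨JS_JC (JS_pd (JS_pd (js_u h.ns k) j) i), fun T' hT' => by
    obtain ⟨K, hK0, hK⟩ := gv_u h hT'
    exact ⟨K, fun t ht x => (hK t ht x).2.2.2.1 i j k⟩⟩

theorem Cg_p {T : ℝ} {u : ℝ → E3 → E3} {p : ℝ → E3 → ℝ} (h : IsHInfAxisymNS T u p) (k : Fin 3) :
    Cg_BC T (fun t => pd k (p t)) := by
  have hp : JS T p := h.ns.smooth_p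
  have hJ : JC T (fun t => pd k (p t)) := JS_JC (JS_pd hp k)
  refine ⟨hJ, fun T' hT' => ?_⟩
  obtain ⟨K, hK⟩ := pres h (T' := (T' + T) / 2) (by linarith)
  refine ⟨K, fun t ht x => ?_⟩
  rcases eq_or_lt_of_le ht.1 with h0 | h0
  · subst h0
    have hT : 0 < T := lt_of_le_of_lt ht.2 hT'
    have h1 : ContinuousWithinAt (fun q : ℝ × E3 => pd k (p q.1) q.2) (Ico 0 T ×ˢ univ) (0, x) :=
      hJ (0, x) ⟨⟨le_rfl, hT⟩, mem_univ _⟩
    have h2 : ContinuousWithinAt (fun t : ℝ => (t, x)) (Ico 0 T) 0 :=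
      (by fun_prop : Continuous fun t : ℝ => (t, x)).continuousWithinAt
    have h3 : ContinuousWithinAt (fun t => pd k (p t) x) (Ico 0 T) 0 :=
      ContinuousWithinAt.comp (g := fun q : ℝ × E3 => pd k (p q.1) q.2) (f := fun t : ℝ => (t, x)) h1 h2
        (fun t ht => ⟨ht, mem_univ _⟩)
    have h4 : ContinuousWithinAt (fun t => pd k (p t) x) (Ioo 0 T) 0 := h3.mono Ioo_subset_Ico_self
    have h5 : Tendsto (fun t => |pd k (p t) x|) (𝓝[>] 0) (𝓝 |pd k (p 0) x|) := by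
      have h6 : 𝓝[Ioo 0 T] (0:ℝ) = 𝓝[>] 0 := nhdsWithin_Ioo_eq_nhdsGT hT
      rw [← h6]
      exact h4.tendsto.abs
    refine le_of_tendsto h5 ?_
    have h7 : Ioo 0 ((T' + T) / 2) ∈ 𝓝[>] (0:ℝ) := Ioo_mem_nhdsGT (by linarith [ht.2])
    filter_upwards [h7] with s hs using (hK s hs x k).1
  · exact (hK t ⟨h0, by linarith [ht.2]⟩ x k).1

/-- The time derivative of the vertical velocity. -/
noncomputable def Cg_G (v : E3 → E3) (q : E3 → ℝ) (x : E3) : ℝ :=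
  lap (fun y => v y 2) x - adv (v x) (fun y => v y 2) x - pd 2 q x

theorem Cg_GBC {T : ℝ} {u : ℝ → E3 → E3} {p : ℝ → E3 → ℝ} (h : IsHInfAxisymNS T u p) :
    Cg_BC T (fun t => Cg_G (u t) (p t)) := by
  have h1 : Cg_BC T (fun t x => ∑ i : Fin 3, pd i (pd i (fun y => u t y 2)) x) := Cg_sum fun i => Cg_ppu h i i 2
  have h2 : Cg_BC T (fun t x => ∑ i : Fin 3, u t x i * pd i (fun y => u t y 2) x) :=
    Cg_sum fun i => Cg_mul (Cg_u h i) (Cg_pu h i 2)
  have h3 := Cg_add (Cg_add h1 (Cg_comp h2 continuous_neg)) (Cg_comp (Cg_p h 2) continuous_neg)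
  exact h3

theorem Cg_dt {T : ℝ} {u : ℝ → E3 → E3} {p : ℝ → E3 → ℝ} (h : IsHInfAxisymNS T u p) {t : ℝ} (ht : t ∈ Ioo 0 T) (x : E3) :
    HasDerivAt (fun s => u s x 2) (Cg_G (u t) (p t) x) t := by
  have h1 := hasDerivAt_coord (h.ns.hasDerivAt_time ht x) 2
  have h2 := ns_comp h.ns ht x 2
  have h3 : deriv (fun s => u s x 2) t = Cg_G (u t) (p t) x := by
    unfold Cg_G
    linarith
  rw [← h3]
  exact h1.differentiableAt.hasDerivAt

theorem Cg_hmdt {T : ℝ} {u : ℝ → E3 → E3} {p : ℝ → E3 → ℝ} (h : IsHInfAxisymNS T u p) (ε : ℝ) {t : ℝ} (ht : t ∈ Ioo 0 T) (x : E3) :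
    HasDerivAt (fun s => hm ε (fun y => u s y 2) x) (hm ε (Cg_G (u t) (p t)) x) t := by
  obtain ⟨K, hK⟩ := (Cg_GBC h).2 ((t + T) / 2) (by linarith [ht.2])
  have hs : Ioo 0 ((t + T) / 2) ∈ 𝓝 t := Ioo_mem_nhds ht.1 (by linarith [ht.2])
  have hsh : Continuous fun y : ℝ × ℝ => x - ε • sh y := continuous_const.sub (Cg_sh.const_smul ε)
  have hm1 : ∀ s ∈ Ioo 0 ((t + T) / 2), Continuous fun y : ℝ × ℝ => bu y * u s (x - ε • sh y) 2 := fun s hs =>
    b_facts.1.continuous.mul ((Cg_slice (Cg_u h 2).1 ⟨hs.1.le, by linarith [hs.2, ht.2]⟩).comp hsh)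
  have hm2 : Continuous fun y : ℝ × ℝ => bu y * Cg_G (u t) (p t) (x - ε • sh y) :=
    b_facts.1.continuous.mul ((Cg_slice (Cg_GBC h).1 ⟨ht.1.le, ht.2⟩).comp hsh)
  have ht2 : t ∈ Ioo 0 ((t + T) / 2) := ⟨ht.1, by linarith [ht.2]⟩
  refine (hasDerivAt_integral_of_dominated_loc_of_deriv_le (μ := volume)
    (F := fun s (y : ℝ × ℝ) => bu y * u s (x - ε • sh y) 2)
    (F' := fun s (y : ℝ × ℝ) => bu y * Cg_G (u s) (p s) (x - ε • sh y))
    (bound := fun y => bu y * K) hs ?_ ?_ hm2.aestronglyMeasurable ?_ (b_facts.2.2.2.1.mul_const K) ?_).2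
  · filter_upwards [hs] with s hs using (hm1 s hs).aestronglyMeasurable
  · exact (hm1 t ht2).integrable_of_hasCompactSupport b_facts.2.2.1.mul_right
  · refine ae_of_all _ fun y s hs => ?_
    rw [norm_mul, Real.norm_eq_abs, Real.norm_eq_abs, abs_of_nonneg (b_facts.2.1 y)]
    exact mul_le_mul_of_nonneg_left (hK _ ⟨hs.1.le, hs.2.le⟩ _) (b_facts.2.1 y)
  · refine ae_of_all _ fun y s hs => ?_
    exact (Cg_dt h ⟨hs.1, by linarith [hs.2, ht.2]⟩ (x - ε • sh y)).const_mul (bu y)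

theorem Cg_fBC {T : ℝ} {u : ℝ → E3 → E3} {p : ℝ → E3 → ℝ} (h : IsHInfAxisymNS T u p) (ε N : ℝ) :
    Cg_BC T (fun t => ft ε N (u t)) :=
  Cg_comp (Cg_hm (Cg_u h 2) ε) (H := fun s => s / N) (by fun_prop)

theorem Cg_pdd (f : E3 → ℝ) (N : ℝ) (i : Fin 3) : pd i (fun y => f y / N) = fun x => pd i f x / N := by
  funext x
  unfold pd
  have h1 : (fun y => f y / N) = N⁻¹ • f := by
    funext y
    rw [Pi.smul_apply, smul_eq_mul, div_eq_inv_mul]
  rw [h1, fderiv_const_smul_field]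
  rw [div_eq_inv_mul]
  rfl

theorem Cg_div {v : E3 → E3} (hv : ContDiff ℝ ∞ v) (hd : ∀ x, ∑ i : Fin 3, fderiv ℝ v x (e i) i = 0) (x : E3) :
    ∑ i : Fin 3, pd i (fun y => v y i) x = 0 := by
  rw [← hd x]
  exact Finset.sum_congr rfl fun i _ => pd_comp hv i i x

theorem Cg_hmsum {F : Fin 3 → E3 → ℝ} (hF : ∀ i, Continuous (F i)) (ε : ℝ) (x : E3) :
    hm ε (fun y => ∑ i : Fin 3, F i y) x = ∑ i : Fin 3, hm ε (F i) x := by
  have h1 := hm_add (f := fun y => F 0 y + F 1 y) (g := F 2) ((hF 0).add (hF 1)) (hF 2) ε x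
  have h2 := hm_add (hF 0) (hF 1) ε x
  simp only [Fin.sum_univ_three]
  rw [h1, h2]

theorem Cg_hmlap {f : E3 → ℝ} (hf : ContDiff ℝ ∞ f) (ε : ℝ) (x : E3) : hm ε (lap f) x = lap (hm ε f) x := by
  have hc : ∀ i, Continuous (pd i (pd i f)) := fun i => (pd_smooth (pd_smooth hf i) i).continuous
  have h2 : ∀ i, pd i (pd i (hm ε f)) = hm ε (pd i (pd i f)) := fun i => by
    rw [hm_pd (hf.of_le (by simp)) ε i, hm_pd ((pd_smooth hf i).of_le (by simp)) ε i]
  have h3 := Cg_hmsum hc ε x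
  have h4 : lap (hm ε f) x = ∑ i, hm ε (pd i (pd i f)) x := by
    unfold lap
    exact Finset.sum_congr rfl fun i _ => by rw [h2 i]
  rw [h4]
  exact h3

theorem Cg_hmneg (f : E3 → ℝ) (ε : ℝ) (x : E3) : hm ε (fun y => - f y) x = - hm ε f x := by
  have h1 := hm_cm f (-1) ε x
  simp only [neg_one_mul] at h1
  exact h1

theorem Cg_rhpd {v : E3 → E3} (hvs : ContDiff ℝ ∞ v) (ε : ℝ) (i j : Fin 3) (x : E3) :
    ContDiff ℝ ∞ (rh ε v j) ∧
    pd i (rh ε v j) x = pd i (hm ε (fun z => v z j * v z 2)) x -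
      (pd i (hm ε (fun y => v y j)) x * hm ε (fun y => v y 2) x + hm ε (fun y => v y j) x * pd i (hm ε (fun y => v y 2)) x) := by
  have hs : ∀ j : Fin 3, ContDiff ℝ ∞ (fun y => v y j) := Bds1_proj_smooth hvs
  have hp : ContDiff ℝ ∞ (fun y => v y j * v y 2) := (hs j).mul (hs 2)
  have h0 : rh ε v j = fun x => (hm ε (fun z => v z j * v z 2)) x - (fun y => hm ε (fun y => v y j) y * hm ε (fun y => v y 2) y) x := rfl
  have h1 := (hm_sm (hs j) ε).mul (hm_sm (hs 2) ε)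
  refine ⟨(hm_sm hp ε).sub h1, ?_⟩
  rw [h0, Bds1_pd_sub (hm_sm hp ε) h1 i]
  have h2 := Psi_mul (f := hm ε (fun y => v y j)) (g := hm ε (fun y => v y 2)) (x := x)
    ((hm_sm (hs j) ε).differentiable (by simp) x) ((hm_sm (hs 2) ε).differentiable (by simp) x) i
  rw [← h2]

theorem Cg_hmadv {v : E3 → E3} (hvs : ContDiff ℝ ∞ v) (hd : ∀ x, ∑ i : Fin 3, fderiv ℝ v x (e i) i = 0) (ε : ℝ) (x : E3) :
    hm ε (fun y => adv (v y) (fun z => v z 2) y) x =
      (∑ i : Fin 3, pd i (rh ε v i) x) + adv (hv ε v x) (hm ε (fun z => v z 2)) x := by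
  have hs : ∀ j : Fin 3, ContDiff ℝ ∞ (fun y => v y j) := Bds1_proj_smooth hvs
  have hsd : ∀ (j : Fin 3) (y : E3), DifferentiableAt ℝ (fun y => v y j) y := fun j y => (hs j).differentiable (by simp) y
  have hp : ∀ i : Fin 3, ContDiff ℝ ∞ (fun y => v y i * v y 2) := fun i => (hs i).mul (hs 2)
  have e1 : (fun y => adv (v y) (fun z => v z 2) y) = fun y => ∑ i : Fin 3, pd i (fun z => v z i * v z 2) y := by
    funext y
    have h1 : ∀ i : Fin 3, pd i (fun z => v z i * v z 2) y = pd i (fun z => v z i) y * v y 2 + v y i * pd i (fun z => v z 2) y :=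
      fun i => Psi_mul (hsd i y) (hsd 2 y) i
    unfold adv
    rw [Finset.sum_congr rfl fun i _ => h1 i, Finset.sum_add_distrib, ← Finset.sum_mul, Cg_div hvs hd, zero_mul, zero_add]
  have e2 : ∀ i : Fin 3, hm ε (pd i (fun z => v z i * v z 2)) x = pd i (hm ε (fun z => v z i * v z 2)) x := fun i => by
    rw [hm_pd ((hp i).of_le (by simp))]
  obtain ⟨k1, k2, k3⟩ := hv_f hvs hd ε
  have e4 : ∑ i : Fin 3, pd i (hm ε (fun y => v y i)) x = 0 := by
    rw [← k2 x]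
    exact Finset.sum_congr rfl fun i _ => by rw [← k3 i]; exact pd_comp k1 i i x
  have e5 : adv (hv ε v x) (hm ε (fun z => v z 2)) x = ∑ i : Fin 3, hm ε (fun y => v y i) x * pd i (hm ε (fun z => v z 2)) x := by
    unfold adv
    exact Finset.sum_congr rfl fun i _ => by rw [← congrFun (k3 i) x]
  rw [e1, Cg_hmsum (fun i => (pd_smooth (hp i) i).continuous), e5, Finset.sum_congr rfl fun i _ => e2 i,
    Finset.sum_congr rfl fun i _ => (Cg_rhpd hvs ε i i x).2, Finset.sum_sub_distrib, Finset.sum_add_distrib, ← Finset.sum_mul, e4]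
  ring

theorem Cg_mm {p q r s : ℝ} (h1 : |p| ≤ r) (h2 : |q| ≤ s) : |p * q| ≤ r * s := by
  rw [abs_mul]
  exact mul_le_mul h1 h2 (abs_nonneg _) ((abs_nonneg _).trans h1)

theorem Cg_rhb {v : E3 → E3} (hV : Vf v) (ε : ℝ) : ∃ B : ℝ, ∀ (i j : Fin 3) (x : E3),
    |rh ε v j x| ≤ B ∧ |pd i (rh ε v j) x| ≤ B := by
  obtain ⟨K, hK0, hK, -, -⟩ := ba_vf hV
  have hs : ∀ j : Fin 3, ContDiff ℝ ∞ (fun y => v y j) := Bds1_proj_smooth hV.sm
  have hsd : ∀ (j : Fin 3) (y : E3), DifferentiableAt ℝ (fun y => v y j) y := fun j y => (hs j).differentiable (by simp) y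
  have hp : ∀ j : Fin 3, ContDiff ℝ ∞ (fun y => v y j * v y 2) := fun i => (hs i).mul (hs 2)
  have c0 : ∀ (j : Fin 3) (x : E3), |v x j| ≤ K := fun j x => (Pk_co (v x) j).trans (hK x).1
  have c1 : ∀ (i j : Fin 3) (x : E3), |pd i (fun y => v y j) x| ≤ K := fun i j x => (hK x).2.2.1 i j
  have m0 : ∀ (j : Fin 3) (x : E3), |hm ε (fun y => v y j) x| ≤ K := fun j x => hm_abs (hs j).continuous (c0 j) ε x
  have m1 : ∀ (i j : Fin 3) (x : E3), |pd i (hm ε (fun y => v y j)) x| ≤ K := fun i j x => by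
    rw [hm_pd ((hs j).of_le (by simp)) ε i]
    exact hm_abs (pd_smooth (hs j) i).continuous (c1 i j) ε x
  have n0 : ∀ (j : Fin 3) (x : E3), |hm ε (fun y => v y j * v y 2) x| ≤ K * K := fun j x =>
    hm_abs (hp j).continuous (fun x => Cg_mm (c0 j x) (c0 2 x)) ε x
  have n1 : ∀ (i j : Fin 3) (x : E3), |pd i (hm ε (fun y => v y j * v y 2)) x| ≤ K * K + K * K := fun i j x => by
    rw [hm_pd ((hp j).of_le (by simp)) ε i]
    refine hm_abs (pd_smooth (hp j) i).continuous (fun y => ?_) ε x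
    rw [Psi_mul (hsd j y) (hsd 2 y) i]
    exact (abs_add_le _ _).trans (add_le_add (Cg_mm (c1 i j y) (c0 2 y)) (Cg_mm (c0 j y) (c1 i 2 y)))
  refine ⟨4 * (K * K), fun i j x => ⟨?_, ?_⟩⟩
  · have h1 := Cg_mm (m0 j x) (m0 2 x)
    have h2 := n0 j x
    unfold rh
    rw [abs_le] at *
    constructor <;> nlinarith [mul_nonneg hK0 hK0]
  · rw [(Cg_rhpd hV.sm ε i j x).2]
    have h1 := Cg_mm (m1 i j x) (m0 2 x)
    have h2 := Cg_mm (m0 j x) (m1 i 2 x)
    have h3 := n1 i j x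
    rw [abs_le] at *
    constructor <;> nlinarith [mul_nonneg hK0 hK0]

theorem Cg_hvn {v : E3 → E3} {K ε : ℝ} (hK0 : 0 ≤ K) {x : E3} (h : ∀ j : Fin 3, |hm ε (fun y => v y j) x| ≤ K) :
    ‖hv ε v x‖ ≤ 3 * K := by
  have h3 : ‖hv ε v x‖ ^ 2 ≤ (3 * K) ^ 2 := by
    rw [EuclideanSpace.real_norm_sq_eq, Fin.sum_univ_three]
    have a0 := pow_le_pow_left₀ (abs_nonneg _) (h 0) 2
    have a1 := pow_le_pow_left₀ (abs_nonneg _) (h 1) 2
    have a2 := pow_le_pow_left₀ (abs_nonneg _) (h 2) 2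
    rw [sq_abs] at a0 a1 a2
    change hm ε (fun y => v y 0) x ^ 2 + hm ε (fun y => v y 1) x ^ 2 + hm ε (fun y => v y 2) x ^ 2 ≤ _
    nlinarith [sq_nonneg K]
  have h4 := abs_le_of_sq_le_sq h3 (by positivity)
  rwa [abs_of_nonneg (norm_nonneg _)] at h4

theorem Cg_fix {c k ε N K : ℝ} {v : E3 → E3} {q Ψ : E3 → ℝ} (w : Wc c Ψ) (hV : Vf v) (hN : 0 < N)
    (hq : Continuous (pd 2 q)) (hqK : ∀ x, |pd 2 q x| ≤ K) :
    ∫ x, deriv (hk k) (ft ε N v x) * (hm ε (Cg_G v q) x / N) * Ψ x = RR k ε N v q Ψ := by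
  have hj2 : ContDiff ℝ 2 (hk k) := (hk_c (k := k)).of_le (by norm_num)
  have hj1 : ContDiff ℝ 1 (deriv (hk k)) := by
    have h2 : (1 : WithTop ℕ∞) + 1 = 2 := one_add_one_eq_two
    have h := (contDiff_succ_iff_deriv (n := 1) (f := hk k)).1 (by rw [h2]; exact hj2)
    exact h.2.2
  have hjc : Continuous (deriv (hk k)) := hj1.continuous
  have hjc2 : Continuous (deriv (deriv (hk k))) := hj1.continuous_deriv (le_refl _)
  have hjd : Differentiable ℝ (deriv (hk k)) := hj1.differentiable one_ne_zero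
  have hs : ∀ j : Fin 3, ContDiff ℝ ∞ (fun y => v y j) := Bds1_proj_smooth hV.sm
  obtain ⟨K0, hK00, hK0, -, -⟩ := ba_vf hV
  have m0 : ∀ (j : Fin 3) (x : E3), |hm ε (fun y => v y j) x| ≤ K0 := fun j x =>
    hm_abs (hs j).continuous (fun x => (Pk_co (v x) j).trans (hK0 x).1) ε x
  have m1e : ∀ i j : Fin 3, pd i (hm ε (fun y => v y j)) = hm ε (pd i (fun y => v y j)) := fun i j =>
    hm_pd ((hs j).of_le (by simp)) ε i
  have m1 : ∀ (i j : Fin 3) (x : E3), |pd i (hm ε (fun y => v y j)) x| ≤ K0 := fun i j x => by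
    rw [m1e]
    exact hm_abs (pd_smooth (hs j) i).continuous (fun x => (hK0 x).2.2.1 i j) ε x
  have m2 : ∀ (i j k : Fin 3) (x : E3), |pd i (pd j (hm ε (fun y => v y k))) x| ≤ K0 := fun i j k x => by
    rw [m1e j k, hm_pd ((pd_smooth (hs k) j).of_le (by simp)) ε i]
    exact hm_abs (pd_smooth (pd_smooth (hs k) j) i).continuous (fun x => (hK0 x).2.2.2 i j k) ε x
  obtain ⟨f, hfe⟩ : ∃ f : E3 → ℝ, f = ft ε N v := ⟨_, rfl⟩
  have hfe' : f = fun x => hm ε (fun y => v y 2) x / N := hfe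
  have hfs : ContDiff ℝ ∞ f := by rw [hfe']; exact (hm_sm (hs 2) ε).div_const N
  have f1 : ∀ i : Fin 3, pd i f = fun x => pd i (hm ε (fun y => v y 2)) x / N := fun i => by
    rw [hfe']; exact Cg_pdd _ N i
  have f2 : ∀ i : Fin 3, pd i (pd i f) = fun x => pd i (pd i (hm ε (fun y => v y 2))) x / N := fun i => by
    rw [f1 i]; exact Cg_pdd _ N i
  have hdN : ∀ s : ℝ, |s| ≤ K0 → |s / N| ≤ K0 / N := fun s h => by
    rw [abs_div, abs_of_pos hN]; gcongr
  have hL1 : K0 / N ≤ K0 / N + 3 * K0 := by linarith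
  have hL2 : 3 * K0 ≤ K0 / N + 3 * K0 := by have := div_nonneg hK00 hN.le; linarith
  have hL3 : K0 ≤ K0 / N + 3 * K0 := by linarith
  obtain ⟨L, hL⟩ : ∃ L, L = K0 / N + 3 * K0 := ⟨_, rfl⟩
  rw [← hL] at hL1 hL2 hL3
  have g0 : ∀ x, |f x| ≤ L := fun x => by rw [hfe']; exact (hdN _ (m0 2 x)).trans hL1
  have g1 : ∀ (i : Fin 3) (x : E3), |pd i f x| ≤ L := fun i x => by rw [f1 i]; exact (hdN _ (m1 i 2 x)).trans hL1
  have g2 : ∀ (i : Fin 3) (x : E3), |pd i (pd i f) x| ≤ L := fun i x => by rw [f2 i]; exact (hdN _ (m2 i i 2 x)).trans hL1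
  obtain ⟨k1, k2, k3⟩ := hv_f hV.sm hV.div ε
  have hb1 : ∀ x, ‖hv ε v x‖ ≤ L := fun x => (Cg_hvn hK00 fun j => m0 j x).trans hL2
  have hb2 : ∀ (x : E3) (i : Fin 3), |pd i (fun y => hv ε v y i) x| ≤ L := fun x i => by
    rw [k3 i]; exact (m1 i i x).trans hL3
  have hen := en1 w hfs k1 (fun x => ⟨g0 x, fun i => g1 i x, fun i => g2 i x⟩) (fun x => ⟨hb1 x, hb2 x⟩) k2 hj2
  obtain ⟨B, hB⟩ := Cg_rhb hV ε
  have hrs : ∀ j : Fin 3, ContDiff ℝ ∞ (rh ε v j) := fun j => (Cg_rhpd hV.sm ε 0 j 0).1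
  obtain ⟨B1, hB10, hB1⟩ := Tb_bd hjc L
  obtain ⟨B2, hB20, hB2⟩ := Tb_bd hjc2 L
  have hΨc : Continuous Ψ := w.sm.continuous
  have hΨd : Differentiable ℝ Ψ := w.sm.differentiable (by simp)
  have aΨ : ∀ x, |Ψ x| ≤ Ψ x := fun x => (abs_of_nonneg (w.nn x)).le
  have hφc : Continuous fun x => deriv (hk k) (f x) := hjc.comp hfs.continuous
  have hφ2 : Continuous fun x => deriv (deriv (hk k)) (f x) := hjc2.comp hfs.continuous
  have b1 : ∀ x, |deriv (hk k) (f x)| ≤ B1 := fun x => hB1 _ (g0 x)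
  have b2 : ∀ x, |deriv (deriv (hk k)) (f x)| ≤ B2 := fun x => hB2 _ (g0 x)
  have hqc : Continuous (hm ε (pd 2 q)) := hm_cont hq ε
  have hqb : ∀ x, |hm ε (pd 2 q) x| ≤ K := fun x => hm_abs hq hqK ε x
  have hlc : Continuous fun x => lap f x - adv (hv ε v x) f x := by
    unfold lap adv
    refine Continuous.sub (continuous_finsetSum _ fun i _ => (pd_smooth (pd_smooth hfs i) i).continuous)
      (continuous_finsetSum _ fun i _ => ?_)
    have h1 : Continuous fun x => hv ε v x i := by rw [k3 i]; exact (hm_sm (hs i) ε).continuous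
    exact h1.mul (pd_smooth hfs i).continuous
  have hlb : ∀ x, |lap f x - adv (hv ε v x) f x| ≤ 3 * L + 3 * (L * L) := by
    intro x
    have h1 : |lap f x| ≤ 3 * L := by
      unfold lap
      refine (Finset.abs_sum_le_sum_abs _ _).trans ?_
      rw [Fin.sum_univ_three]
      linarith [g2 0 x, g2 1 x, g2 2 x]
    have h2 : |adv (hv ε v x) f x| ≤ 3 * (L * L) := by
      unfold adv
      refine (Finset.abs_sum_le_sum_abs _ _).trans ?_
      have h3 : ∀ i : Fin 3, |hv ε v x i * pd i f x| ≤ L * L := fun i =>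
        Cg_mm ((Pk_co _ i).trans (hb1 x)) (g1 i x)
      rw [Fin.sum_univ_three]
      linarith [h3 0, h3 1, h3 2]
    calc |lap f x - adv (hv ε v x) f x| ≤ |lap f x| + |adv (hv ε v x) f x| := abs_sub _ _
      _ ≤ _ := add_le_add h1 h2
  -- pointwise identity
  have hpt : ∀ x, deriv (hk k) (ft ε N v x) * (hm ε (Cg_G v q) x / N) * Ψ x =
      deriv (hk k) (f x) * (lap f x - adv (hv ε v x) f x) * Ψ x -
      (∑ i : Fin 3, deriv (hk k) (f x) * Ψ x * pd i (rh ε v i) x) / N -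
      (hm ε (pd 2 q) x * (deriv (hk k) (f x) * Ψ x)) / N := by
    intro x
    have hc1 : Continuous (lap (fun y => v y 2)) := by
      unfold lap
      exact continuous_finsetSum _ fun i _ => (pd_smooth (pd_smooth (hs 2) i) i).continuous
    have hc2 : Continuous (fun y => adv (v y) (fun z => v z 2) y) := by
      unfold adv
      exact continuous_finsetSum _ fun i _ => (hs i).continuous.mul (pd_smooth (hs 2) i).continuous
    have h1 := hm_add (f := fun y => lap (fun z => v z 2) y + - adv (v y) (fun z => v z 2) y) (g := fun y => - pd 2 q y)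
      (hc1.add hc2.neg) hq.neg ε x
    have h2 := hm_add (f := lap (fun z => v z 2)) (g := fun y => - adv (v y) (fun z => v z 2) y) hc1 hc2.neg ε x
    have h3 := Cg_hmneg (fun y => adv (v y) (fun z => v z 2) y) ε x
    have h4 := Cg_hmneg (pd 2 q) ε x
    have h5 : hm ε (Cg_G v q) x = hm ε (fun y => (lap (fun z => v z 2) y + - adv (v y) (fun z => v z 2) y) + - pd 2 q y) x := rfl
    have h6 := Cg_hmadv hV.sm hV.div ε x
    have h7 := Cg_hmlap (hs 2) ε x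
    have h8 : lap f x = lap (hm ε (fun y => v y 2)) x / N := by
      unfold lap
      rw [Finset.sum_div]
      exact Finset.sum_congr rfl fun i _ => by rw [f2 i]
    have h9 : adv (hv ε v x) f x = adv (hv ε v x) (hm ε (fun y => v y 2)) x / N := by
      unfold adv
      rw [Finset.sum_div]
      exact Finset.sum_congr rfl fun i _ => by rw [f1 i]; ring
    rw [h5, h1, h2, h3, h4, h6, h7, h8, h9, ← Finset.mul_sum, ← hfe]
    ring
  -- integrability
  have I1 : Integrable fun x => deriv (hk k) (f x) * (lap f x - adv (hv ε v x) f x) * Ψ x :=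
    wi w (hφc.mul hlc) fun x => Cg_mm (b1 x) (hlb x)
  have hφΨ : Integrable fun x => deriv (hk k) (f x) * Ψ x := wi w hφc b1
  have I2 : ∀ i : Fin 3, Integrable fun x => deriv (hk k) (f x) * Ψ x * pd i (rh ε v i) x := fun i =>
    Tb_int w (B1 * B) ((hφc.mul hΨc).mul (pd_smooth (hrs i) i).continuous) fun x =>
      (Cg_mm (Cg_mm (b1 x) (aΨ x)) (hB i i x).2).trans (le_of_eq (by ring))
  have I3 : Integrable fun x => hm ε (pd 2 q) x * (deriv (hk k) (f x) * Ψ x) :=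
    Tb_int w (K * B1) (hqc.mul (hφc.mul hΨc)) fun x =>
      (Cg_mm (hqb x) (Cg_mm (b1 x) (aΨ x))).trans (le_of_eq (by ring))
  have I4 : ∀ i : Fin 3, Integrable fun x => deriv (hk k) (f x) * Ψ x * rh ε v i x := fun i =>
    Tb_int w (B1 * B) ((hφc.mul hΨc).mul (hrs i).continuous) fun x =>
      (Cg_mm (Cg_mm (b1 x) (aΨ x)) (hB i i x).1).trans (le_of_eq (by ring))
  have hder : ∀ (i : Fin 3) (x : E3), pd i (fun y => deriv (hk k) (f y) * Ψ y) x =
      deriv (deriv (hk k)) (f x) * pd i f x * Ψ x + deriv (hk k) (f x) * pd i Ψ x := by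
    intro i x
    have hfd : DifferentiableAt ℝ f x := hfs.differentiable (by simp) x
    rw [Psi_mul (f := fun y => deriv (hk k) (f y)) ((hjd _).comp x hfd) (hΨd x) i, Tb_pdc (hjd _) hfd i]
  have I5 : ∀ i : Fin 3, Integrable fun x => pd i (fun y => deriv (hk k) (f y) * Ψ y) x * rh ε v i x := fun i => by
    have e1 : (fun x => pd i (fun y => deriv (hk k) (f y) * Ψ y) x * rh ε v i x) =
        fun x => (deriv (deriv (hk k)) (f x) * pd i f x * Ψ x + deriv (hk k) (f x) * pd i Ψ x) * rh ε v i x := by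
      funext x; rw [hder]
    rw [e1]
    refine Tb_int w ((B2 * L * 1 + B1 * c) * B) ((((hφ2.mul (pd_smooth hfs i).continuous).mul hΨc).add
      (hφc.mul (pd_smooth w.sm i).continuous)).mul (hrs i).continuous) fun x => ?_
    have h1 := Cg_mm (Cg_mm (b2 x) (g1 i x)) (aΨ x)
    have h2 := Cg_mm (b1 x) (w.g1 i x)
    have h3 := Cg_mm ((abs_add_le _ _).trans (add_le_add h1 h2)) (hB i i x).1
    refine h3.trans (le_of_eq ?_)
    ring
  -- the three integrals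
  have J2 : ∫ x, ∑ i : Fin 3, deriv (hk k) (f x) * Ψ x * pd i (rh ε v i) x =
      - ∫ x, ∑ i : Fin 3, rh ε v i x * (deriv (deriv (hk k)) (f x) * pd i f x * Ψ x + deriv (hk k) (f x) * pd i Ψ x) := by
    rw [integral_finsetSum _ fun i _ => I2 i, integral_finsetSum, ← Finset.sum_neg_distrib]
    · refine Finset.sum_congr rfl fun i _ => ?_
      have hd1 : Differentiable ℝ (fun y => deriv (hk k) (f y) * Ψ y) :=
        (hjd.comp (hfs.differentiable (by simp))).mul hΨd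
      have h1 := ibpI (f := fun y => deriv (hk k) (f y) * Ψ y) (g := rh ε v i) hd1
        ((hrs i).differentiable (by simp)) i (I5 i) (I2 i) (I4 i)
      rw [h1]
      congr 1
      refine integral_congr_ae (ae_of_all _ fun x => ?_)
      simp only
      rw [hder]
      ring
    · intro i _
      refine (I5 i).congr (ae_of_all _ fun x => ?_)
      simp only
      rw [hder]
      ring
  have J3 := hm_dual (g := fun x => deriv (hk k) (f x) * Ψ x) hq (hφc.mul hΨc) hqK hφΨ ε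
  have J0 : ∫ x, deriv (hk k) (ft ε N v x) * (hm ε (Cg_G v q) x / N) * Ψ x =
      (∫ x, deriv (hk k) (f x) * (lap f x - adv (hv ε v x) f x) * Ψ x) -
      (∫ x, ∑ i : Fin 3, deriv (hk k) (f x) * Ψ x * pd i (rh ε v i) x) / N -
      (∫ x, hm ε (pd 2 q) x * (deriv (hk k) (f x) * Ψ x)) / N := by
    have I2' : Integrable fun x => ∑ i : Fin 3, deriv (hk k) (f x) * Ψ x * pd i (rh ε v i) x :=
      integrable_finsetSum _ fun i _ => I2 i
    have e1 := integral_sub I1 (I2'.div_const N)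
    have e2 := integral_sub (f := fun x => deriv (hk k) (f x) * (lap f x - adv (hv ε v x) f x) * Ψ x -
      (∑ i : Fin 3, deriv (hk k) (f x) * Ψ x * pd i (rh ε v i) x) / N) (I1.sub (I2'.div_const N)) (I3.div_const N)
    rw [integral_congr_ae (ae_of_all _ hpt), e2, e1, integral_div, integral_div]
  rw [J0, hen, J2, J3]
  unfold RR
  rw [← hfe]
  ring

theorem hR {T c a b k ε N : ℝ} {u : ℝ → E3 → E3} {p : ℝ → E3 → ℝ} (h : IsHInfAxisymNS T u p) {Ψ : E3 → ℝ} (w : Wc c Ψ)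
    (ha : 0 ≤ a) (hab : a ≤ b) (hb : b < T) (hk0 : 0 < k) (hε : 0 < ε) (hN : 0 < N) :
    IntervalIntegrable (fun t => RR k ε N (u t) (p t) Ψ) volume a b ∧
    HH k ε N (u b) Ψ - HH k ε N (u a) Ψ = ∫ t in a..b, RR k ε N (u t) (p t) Ψ := by
  have hsub : Icc a b ⊆ Ico 0 T := fun t ht => ⟨ha.trans ht.1, lt_of_le_of_lt ht.2 hb⟩
  have hj1 : ContDiff ℝ 1 (hk k) := (hk_c (k := k)).of_le (by norm_num)
  have hjc : Continuous (deriv (hk k)) := hj1.continuous_deriv (le_refl _)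
  have hg : Cg_BC T (fun t x => hm ε (Cg_G (u t) (p t)) x / N) :=
    Cg_comp (Cg_hm (Cg_GBC h) ε) (H := fun s => s / N) (by fun_prop)
  have hf := Cg_fBC h ε N
  -- the rate of change
  have hRR : ∀ t ∈ Ico 0 T, RR k ε N (u t) (p t) Ψ =
      ∫ x, deriv (hk k) (ft ε N (u t) x) * (hm ε (Cg_G (u t) (p t)) x / N) * Ψ x := by
    intro t ht
    obtain ⟨K, hK⟩ := (Cg_p h 2).2 t ht.2
    exact (Cg_fix w (vf_u h ht) hN (Cg_slice (Cg_p h 2).1 ht) (hK t ⟨ht.1, le_rfl⟩)).symm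
  have hBC : Cg_BC T (fun t x => deriv (hk k) (ft ε N (u t) x) * (hm ε (Cg_G (u t) (p t)) x / N)) :=
    Cg_mul (Cg_comp hf hjc) hg
  have hcont : ContinuousOn (fun t => RR k ε N (u t) (p t) Ψ) (Icc a b) := by
    refine ((tc hBC.1 hBC.2 w.sm.continuous w.int).mono hsub).congr fun t ht => ?_
    exact hRR t (hsub ht)
  refine ⟨ContinuousOn.intervalIntegrable (by rwa [uIcc_of_le hab]), ?_⟩
  obtain ⟨K1, hK1⟩ := hf.2 b hb
  obtain ⟨K2, hK2⟩ := hg.2 b hb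
  have hfg : ∀ {F : ℝ → E3 → ℝ}, JC T F → ContinuousOn (fun q : ℝ × E3 => F q.1 q.2) (Icc a b ×ˢ univ) := fun hF =>
    ContinuousOn.mono hF (prod_mono hsub (subset_refl _))
  have hmain := en0 hab (K := max K1 K2) (f := fun t => ft ε N (u t)) (g := fun t x => hm ε (Cg_G (u t) (p t)) x / N)
    (hfg hf.1) (hfg hg.1) (fun t ht x => ?_) (fun t ht x => ?_) hj1 w.sm.continuous w.int
  · change (∫ x, hk k (ft ε N (u b) x) * Ψ x) - ∫ x, hk k (ft ε N (u a) x) * Ψ x = _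
    rw [hmain]
    refine intervalIntegral.integral_congr fun t ht => ?_
    rw [uIcc_of_le hab] at ht
    exact (hRR t (hsub ht)).symm
  · have ht' : t ∈ Ioo 0 T := ⟨lt_of_le_of_lt ha ht.1, ht.2.trans hb⟩
    exact (Cg_hmdt h ε ht' x).div_const N
  · exact ⟨(hK1 t ⟨ha.trans ht.1, ht.2⟩ x).trans (le_max_left _ _),
      (hK2 t ⟨ha.trans ht.1, ht.2⟩ x).trans (le_max_right _ _)⟩

theorem HH_cont {T c k ε N : ℝ} {u : ℝ → E3 → E3} {p : ℝ → E3 → ℝ} (h : IsHInfAxisymNS T u p) {Ψ : E3 → ℝ} (w : Wc c Ψ)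
    (hk0 : 0 < k) (hN : 0 < N) : ContinuousOn (fun t => HH k ε N (u t) Ψ) (Ico 0 T) := by
  have h1 : Cg_BC T (fun t x => hk k (ft ε N (u t) x)) := Cg_comp (Cg_fBC h ε N) hk_c.continuous
  exact tc h1.1 h1.2 w.sm.continuous w.int

end Pool.Agent.H16.TU
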