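/-
ROW Ch (MP_09540e_TU). The fluxes. PROOF. Φ = ww N Z R₁ 0, f = ft ε N v. `|lap Φ| ≤ 24/R₁² Φ` (wt_lap). Horizontal: `hv ε v` has components hm ε v_i (hv_f); m2: `|hm ε v_a| ≤ C κ (1/max(rad x, ε) + 1)`; `hg Φ ≤ 2/R₁ Φ` and `≤ 4 rad x/R₁² Φ` (wt_h): `|b₀ pd 0 Φ + b₁ pd 1 Φ| ≤ √2 max|b_a| hg Φ ≤ 2 C κ (4/R₁² + 2/R₁) Φ ≤ 12 C κ/R₁ Φ` (rad x ≤ max, R₁ ≥ 1).
Axial: `|hm ε v₂| |pd 2 Φ| ≤ N |f| Φ/(Z N R₁) ≤ |f| Φ/R₁` (wt_z). With hk_5: `hk ≤ w² hk/k²`, `|w| hk ≤ w² hk/k`: total `≤ ((24 + 12Cκ)/(R₁ k²) + 1/(R₁ k)) ∫ f² hk Φ ≤ (1/64) ∫ f² hk Φ` if `R₁ k² ≥ 64 (25 + 12 C) κ` (k ≤ 1 ≤ κ).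
-/
import Pool.Agent.H16.TU.Ce

set_option autoImplicit false

open Set Filter Topology MeasureTheory
open scoped ContDiff

namespace Pool.Agent.H16.TU

open Pool.Agent.H16 Pool.Agent.H87.NS Pool.Agent.H72.CC

private theorem Ch_pdhg (f : E3 → ℝ) (x : E3) : |pd 0 f x| ≤ hg f x ∧ |pd 1 f x| ≤ hg f x := by
  unfold hg
  constructor
  · refine Real.abs_le_sqrt ?_
    have := sq_nonneg (pd 1 f x)
    linarith
  · refine Real.abs_le_sqrt ?_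
    have := sq_nonneg (pd 0 f x)
    linarith

private theorem Ch_adv {κ N Z R₁ ε C : ℝ} {v : E3 → E3} (h : Sl κ N v) (hZ : 1 ≤ Z) (hR : 1 ≤ R₁) (hε : 0 < ε)
    (hC : 0 ≤ C) (x : E3)
    (hm : |hm ε (fun y => v y 0) x| ≤ C * κ * (1 / max (rad x) ε + 1) ∧ |hm ε (fun y => v y 1) x| ≤ C * κ * (1 / max (rad x) ε + 1)) :
    |lap (ww N Z R₁ 0) x + adv (hv ε v x) (ww N Z R₁ 0) x| ≤
      ((24 + 12 * C * κ) / R₁ + |ft ε N v x| / R₁) * ww N Z R₁ 0 x := by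
  have hN : 1 ≤ N := h.one.trans h.le
  have hN0 : 0 < N := by linarith
  have hR0 : 0 < R₁ := by linarith
  have hκ := h.one
  have hZ0 : 0 < Z := by linarith
  obtain ⟨hL, hRL⟩ := Ad0_L hN hZ hR0
  have hΦ0 : 0 < ww N Z R₁ 0 x := wt_pos hR0 hL 0 x
  have hlap : |lap (ww N Z R₁ 0) x| ≤ 24 / R₁ ^ 2 * ww N Z R₁ 0 x := wt_lap hR0 hRL 0 x
  obtain ⟨g1, g2⟩ := wt_h hR0 hL 0 x
  have hz : |pd 2 (ww N Z R₁ 0) x| ≤ 1 / (Z * N * R₁) * ww N Z R₁ 0 x := wt_z hR0 hL 0 x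
  have g1' : hg (ww N Z R₁ 0) x ≤ 2 / R₁ * ww N Z R₁ 0 x := g1
  have g2' : hg (ww N Z R₁ 0) x ≤ 4 * rad x / R₁ ^ 2 * ww N Z R₁ 0 x := g2
  obtain ⟨p0, p1⟩ := Ch_pdhg (ww N Z R₁ 0) x
  have hg0 : 0 ≤ hg (ww N Z R₁ 0) x := (abs_nonneg _).trans p0
  have hr0 : 0 ≤ rad x := Real.sqrt_nonneg _
  obtain ⟨Φ, hΦ⟩ : ∃ Φ, Φ = ww N Z R₁ 0 := ⟨_, rfl⟩
  rw [← hΦ] at hΦ0 hlap hz g1' g2' p0 p1 hg0 ⊢
  have hm0 : 0 < max (rad x) ε := lt_of_lt_of_le hε (le_max_right _ _)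
  have r1 : R₁ ≤ R₁ ^ 2 := by nlinarith
  -- the factor
  have e0 : (1 / max (rad x) ε + 1) * hg Φ x ≤ 6 / R₁ * Φ x := by
    have a1 : 1 / max (rad x) ε * hg Φ x ≤ 4 / R₁ * Φ x := by
      have b1 : 1 / max (rad x) ε * hg Φ x ≤ 1 / max (rad x) ε * (4 * rad x / R₁ ^ 2 * Φ x) :=
        mul_le_mul_of_nonneg_left g2' (by positivity)
      refine b1.trans ?_
      have b2 : 1 / max (rad x) ε * (4 * rad x / R₁ ^ 2 * Φ x) = (rad x / max (rad x) ε) * (4 / R₁ ^ 2) * Φ x := by ring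
      rw [b2]
      refine mul_le_mul_of_nonneg_right ?_ hΦ0.le
      have b3 : rad x / max (rad x) ε ≤ 1 := (div_le_one hm0).2 (le_max_left _ _)
      have b4 : 4 / R₁ ^ 2 ≤ 4 / R₁ := div_le_div_of_nonneg_left (by norm_num) hR0 r1
      calc rad x / max (rad x) ε * (4 / R₁ ^ 2) ≤ 1 * (4 / R₁) := mul_le_mul b3 b4 (by positivity) zero_le_one
        _ = 4 / R₁ := one_mul _
    have a2 : (1 / max (rad x) ε + 1) * hg Φ x = 1 / max (rad x) ε * hg Φ x + hg Φ x := by ring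
    have a3 : 6 / R₁ * Φ x = 4 / R₁ * Φ x + 2 / R₁ * Φ x := by ring
    rw [a2, a3]
    exact add_le_add a1 g1'
  have hb : ∀ {b p : ℝ}, |b| ≤ C * κ * (1 / max (rad x) ε + 1) → |p| ≤ hg Φ x → |b * p| ≤ C * κ * (6 / R₁ * Φ x) := by
    intro b p hb hp
    rw [abs_mul]
    have c1 := mul_le_mul hb hp (abs_nonneg _) ((abs_nonneg _).trans hb)
    refine c1.trans ?_
    rw [mul_assoc (C * κ)]
    exact mul_le_mul_of_nonneg_left e0 (by positivity)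
  have f0 := hb hm.1 p0
  have f1 := hb hm.2 p1
  have f2 : |Pool.Agent.H16.TU.hm ε (fun y => v y 2) x * pd 2 Φ x| ≤ |ft ε N v x| / R₁ * Φ x := by
    have c1 : Pool.Agent.H16.TU.hm ε (fun y => v y 2) x = N * ft ε N v x := by
      unfold ft
      field_simp
    rw [c1, abs_mul, abs_mul, abs_of_pos hN0]
    have c2 := mul_le_mul_of_nonneg_left hz (by positivity : 0 ≤ N * |ft ε N v x|)
    refine c2.trans ?_
    have c3 : N * |ft ε N v x| * (1 / (Z * N * R₁) * Φ x) = (1 / Z) * (|ft ε N v x| / R₁ * Φ x) := by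
      field_simp
    rw [c3]
    have c4 : 1 / Z ≤ 1 := (div_le_one hZ0).2 hZ
    have c5 : 0 ≤ |ft ε N v x| / R₁ * Φ x := by positivity
    calc 1 / Z * (|ft ε N v x| / R₁ * Φ x) ≤ 1 * (|ft ε N v x| / R₁ * Φ x) := mul_le_mul_of_nonneg_right c4 c5
      _ = _ := one_mul _
  have hadv : adv (hv ε v x) Φ x = Pool.Agent.H16.TU.hm ε (fun y => v y 0) x * pd 0 Φ x +
      Pool.Agent.H16.TU.hm ε (fun y => v y 1) x * pd 1 Φ x + Pool.Agent.H16.TU.hm ε (fun y => v y 2) x * pd 2 Φ x := by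
    unfold adv
    rw [Fin.sum_univ_three]
    rfl
  rw [hadv]
  have t1 := abs_add_le (lap Φ x) (Pool.Agent.H16.TU.hm ε (fun y => v y 0) x * pd 0 Φ x +
      Pool.Agent.H16.TU.hm ε (fun y => v y 1) x * pd 1 Φ x + Pool.Agent.H16.TU.hm ε (fun y => v y 2) x * pd 2 Φ x)
  have t2 := abs_add_le (Pool.Agent.H16.TU.hm ε (fun y => v y 0) x * pd 0 Φ x +
      Pool.Agent.H16.TU.hm ε (fun y => v y 1) x * pd 1 Φ x) (Pool.Agent.H16.TU.hm ε (fun y => v y 2) x * pd 2 Φ x)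
  have t3 := abs_add_le (Pool.Agent.H16.TU.hm ε (fun y => v y 0) x * pd 0 Φ x)
      (Pool.Agent.H16.TU.hm ε (fun y => v y 1) x * pd 1 Φ x)
  have t4 : 24 / R₁ ^ 2 * Φ x ≤ 24 / R₁ * Φ x :=
    mul_le_mul_of_nonneg_right (div_le_div_of_nonneg_left (by norm_num) hR0 r1) hΦ0.le
  have t5 : ((24 + 12 * C * κ) / R₁ + |ft ε N v x| / R₁) * Φ x = 24 / R₁ * Φ x + C * κ * (6 / R₁ * Φ x) +
      C * κ * (6 / R₁ * Φ x) + |ft ε N v x| / R₁ * Φ x := by ring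
  rw [t5]
  linarith

theorem fx : ∃ C : ℝ, 1 ≤ C ∧ ∀ (κ N Z R₁ k ε : ℝ) (v : E3 → E3), Sl κ N v → 1 ≤ Z → 1 ≤ R₁ → 0 < k → k ≤ 1 → C * κ ≤ R₁ * k ^ 2 →
    0 < ε → ε ≤ 1 →
    |∫ x, hk k (ft ε N v x) * (lap (ww N Z R₁ 0) x + adv (hv ε v x) (ww N Z R₁ 0) x)| ≤
      1 / 64 * ∫ x, ft ε N v x ^ 2 * hk k (ft ε N v x) * ww N Z R₁ 0 x := by
  obtain ⟨C, hC, hm2⟩ := m2
  refine ⟨64 * (25 + 12 * C), by linarith, fun κ N Z R₁ k ε v h hZ hR hk0 hk1 hCk hε hε1 => ?_⟩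
  have hN : 1 ≤ N := h.one.trans h.le
  have hR0 : 0 < R₁ := by linarith
  have hκ := h.one
  obtain ⟨ws, K, hK⟩ := ft_bd (ε := ε) h
  have hK0 : 0 ≤ K := (abs_nonneg _).trans (hK 0).1
  obtain ⟨hW, -, -⟩ := ww_ok hN hZ hR0 0
  have hkc : ContDiff ℝ 3 (hk k) := hk_c
  have i1 : Integrable (fun x => ft ε N v x ^ 2 * hk k (ft ε N v x) * ww N Z R₁ 0 x) := by
    refine wi (K := K ^ 2 * K ^ 2) hW ((ws.continuous.pow 2).mul (hkc.continuous.comp ws.continuous)) fun x => ?_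
    have a3 := pow_le_pow_left₀ (abs_nonneg _) (hK x).1 2
    rw [sq_abs] at a3
    obtain ⟨a1, a2, -⟩ := hk_0 hk0 (ft ε N v x)
    rw [abs_mul, abs_of_nonneg (sq_nonneg _), abs_of_nonneg a1]
    have a4 := sq_nonneg K
    exact mul_le_mul a3 (by linarith) a1 (by positivity)
  rw [← integral_const_mul, ← Real.norm_eq_abs]
  refine norm_integral_le_of_norm_le (i1.const_mul _) (Filter.Eventually.of_forall fun x => ?_)
  obtain ⟨b1, b2, -⟩ := hm2 κ N ε v h hε hε1 x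
  have b3 := Ch_adv (R₁ := R₁) h hZ hR hε (by linarith : 0 ≤ C) x ⟨b1, b2⟩
  obtain ⟨a1, -⟩ := hk_0 hk0 (ft ε N v x)
  obtain ⟨c1, c2⟩ := hk_5 hk0 (ft ε N v x)
  have hΦ := hW.nn x
  rw [Real.norm_eq_abs, abs_mul, abs_of_nonneg a1]
  refine (mul_le_mul_of_nonneg_left b3 a1).trans ?_
  obtain ⟨w, hw⟩ : ∃ w, w = ft ε N v x := ⟨_, rfl⟩
  rw [← hw] at a1 c1 c2 ⊢
  have d1 : hk k w ≤ w ^ 2 * hk k w / k ^ 2 := by
    rw [le_div_iff₀ (by positivity)]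
    linarith
  have d2 : |w| * hk k w ≤ w ^ 2 * hk k w / k := by
    rw [le_div_iff₀ hk0]
    linarith
  have e0 : 0 ≤ w ^ 2 * hk k w := by positivity
  have d3 : hk k w * ((24 + 12 * C * κ) / R₁ + |w| / R₁) ≤ 1 / 64 * (w ^ 2 * hk k w) := by
    have f1 : hk k w * ((24 + 12 * C * κ) / R₁ + |w| / R₁) = (24 + 12 * C * κ) / R₁ * hk k w + 1 / R₁ * (|w| * hk k w) := by
      ring
    have f2 : (24 + 12 * C * κ) / R₁ * hk k w ≤ (24 + 12 * C * κ) / R₁ * (w ^ 2 * hk k w / k ^ 2) :=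
      mul_le_mul_of_nonneg_left d1 (by positivity)
    have f3 : 1 / R₁ * (|w| * hk k w) ≤ 1 / R₁ * (w ^ 2 * hk k w / k) := mul_le_mul_of_nonneg_left d2 (by positivity)
    have f4 : 1 / R₁ * (w ^ 2 * hk k w / k) ≤ 1 / R₁ * (w ^ 2 * hk k w / k ^ 2) := by
      refine mul_le_mul_of_nonneg_left ?_ (by positivity)
      exact div_le_div_of_nonneg_left e0 (by positivity) (by nlinarith)
    have f5 : (24 + 12 * C * κ) / R₁ * (w ^ 2 * hk k w / k ^ 2) + 1 / R₁ * (w ^ 2 * hk k w / k ^ 2) =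
        ((25 + 12 * C * κ) / (R₁ * k ^ 2)) * (w ^ 2 * hk k w) := by
      field_simp
      ring
    have f6 : (25 + 12 * C * κ) / (R₁ * k ^ 2) ≤ 1 / 64 := by
      rw [div_le_div_iff₀ (by positivity) (by norm_num)]
      nlinarith
    have f7 := mul_le_mul_of_nonneg_right f6 e0
    rw [f1]
    linarith
  have d4 := mul_le_mul_of_nonneg_right d3 hΦ
  linarith

end Pool.Agent.H16.TU
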