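/-
ROW Ci (MP_09540e_TU). Commutators away from the axis. PROOF. Let `δ y = v₂ (x - ε sh y) - v₂ x`, D the unit disc, bu ≤ C on D, 0 outside. `hm ε v₂ x - v₂ x = ∫ bu δ`. cC: `rh 2 = ∫ bu δ² - (∫ bu δ)²` (expand v₂ = v₂ x + δ; ∫ bu = 1), between 0 and `C ∫_D δ² = C Qd`. cFar: `rh a = ∫ bu v_a(x - ε sh y) δ - (hm ε v_a x) ∫ bu δ` (a = 0, 1); for rad x ≥ 2ε: `|v_a (x - ε sh y)| ≤ κ(2/rad x + 1)` (h.hor, sh_f),
so `|rh a| ≤ 2 κ (2/rad x + 1) ∫ bu |δ| ≤ 2κ(2/rad x + 1) C √π √Qd` (Cauchy-Schwarz on the disc of area π: `(∫_D |δ|)² ≤ π ∫_D δ²`). `hg (hm ε v₂) x ≤ |pd 0| + |pd 1| ≤ (2/ε) C ∫_D |δ|` (hm_k0; subtract the constant v₂ x using b_d0) `≤ (2C√π/ε) √Qd`. `|pd 2 (hm ε v₂) x| ≤ (Cκ/ε)(1/rad x + 1)` (m2, max (rad x) ε = rad x). Multiply.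
Qd is finite: continuous integrand on a bounded set. Qd_c: continuity of Qd (dominated convergence; v₂ bounded).
-/
import Pool.Agent.H16.TU.Cc

set_option autoImplicit false

open Set Filter Topology MeasureTheory
open scoped ContDiff

namespace Pool.Agent.H16.TU

open Pool.Agent.H16 Pool.Agent.H87.NS Pool.Agent.H72.CC

theorem Ci_m : MeasurableSet {y : ℝ × ℝ | y.1 ^ 2 + y.2 ^ 2 < 1} :=
  (isOpen_lt (by fun_prop) (by fun_prop)).measurableSet

theorem Ci_sub : {y : ℝ × ℝ | y.1 ^ 2 + y.2 ^ 2 < 1} ⊆ Icc (-1 : ℝ) 1 ×ˢ Icc (-1 : ℝ) 1 := by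
  rintro ⟨a, b⟩ h
  have h' : a ^ 2 + b ^ 2 < 1 := h
  refine ⟨⟨?_, ?_⟩, ?_, ?_⟩ <;> dsimp only <;> nlinarith

theorem Ci_vol : (volume {y : ℝ × ℝ | y.1 ^ 2 + y.2 ^ 2 < 1}) ≤ 4 := by
  refine (measure_mono Ci_sub).trans ?_
  rw [Measure.volume_eq_prod, Measure.prod_prod, Real.volume_Icc]
  have h : (1 : ℝ) - -1 = 2 := by norm_num
  rw [h, ← ENNReal.ofReal_mul (by norm_num)]
  have h2 : (2 : ℝ) * 2 = 4 := by norm_num
  rw [h2]
  have h3 : ENNReal.ofReal 4 = 4 := by simp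
  rw [h3]

theorem Ci_real : volume.real {y : ℝ × ℝ | y.1 ^ 2 + y.2 ^ 2 < 1} ≤ 4 := by
  have h := ENNReal.toReal_mono (by norm_num) Ci_vol
  have h2 : (4 : ENNReal).toReal = 4 := by norm_num
  rw [h2] at h
  exact h

theorem Ci_fin : volume {y : ℝ × ℝ | y.1 ^ 2 + y.2 ^ 2 < 1} < ⊤ :=
  lt_of_le_of_lt Ci_vol (by norm_num)

theorem Ci_int {g : ℝ × ℝ → ℝ} (hg : Continuous g) :
    IntegrableOn g {y : ℝ × ℝ | y.1 ^ 2 + y.2 ^ 2 < 1} :=
  (hg.continuousOn.integrableOn_compact (isCompact_Icc.prod isCompact_Icc)).mono_set Ci_sub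

theorem Ci_cs {g : ℝ × ℝ → ℝ} (hg : Continuous g) :
    ∫ y in {y : ℝ × ℝ | y.1 ^ 2 + y.2 ^ 2 < 1}, |g y| ≤
      2 * √(∫ y in {y : ℝ × ℝ | y.1 ^ 2 + y.2 ^ 2 < 1}, g y ^ 2) := by
  obtain ⟨a, ha⟩ : ∃ a : ℝ, a = ∫ y in {y : ℝ × ℝ | y.1 ^ 2 + y.2 ^ 2 < 1}, |g y| := ⟨_, rfl⟩
  obtain ⟨q, hq⟩ : ∃ q : ℝ, q = ∫ y in {y : ℝ × ℝ | y.1 ^ 2 + y.2 ^ 2 < 1}, g y ^ 2 := ⟨_, rfl⟩
  rw [← ha, ← hq]
  have h0 : 0 ≤ a := by
    rw [ha]
    exact integral_nonneg (fun _ => abs_nonneg _)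
  have hq0 : 0 ≤ q := by
    rw [hq]
    exact integral_nonneg (fun _ => sq_nonneg _)
  have h1 : 0 ≤ ∫ y in {y : ℝ × ℝ | y.1 ^ 2 + y.2 ^ 2 < 1}, (|g y| - a / 4) ^ 2 :=
    integral_nonneg (fun _ => sq_nonneg _)
  have h2 : ∫ y in {y : ℝ × ℝ | y.1 ^ 2 + y.2 ^ 2 < 1}, (|g y| - a / 4) ^ 2 =
      q - 2 * (a / 4) * a + volume.real {y : ℝ × ℝ | y.1 ^ 2 + y.2 ^ 2 < 1} * (a / 4) ^ 2 := by
    have e1 : ∀ y, (|g y| - a / 4) ^ 2 = g y ^ 2 - 2 * (a / 4) * |g y| + (a / 4) ^ 2 := by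
      intro y
      rw [← sq_abs (g y)]
      ring
    simp only [e1]
    have i1 : IntegrableOn (fun y => g y ^ 2) {y : ℝ × ℝ | y.1 ^ 2 + y.2 ^ 2 < 1} :=
      Ci_int (hg.pow 2)
    have i2 : IntegrableOn (fun y => 2 * (a / 4) * |g y|) {y : ℝ × ℝ | y.1 ^ 2 + y.2 ^ 2 < 1} :=
      (Ci_int hg.abs).const_mul _
    have i3 : IntegrableOn (fun _ : ℝ × ℝ => (a / 4) ^ 2)
        {y : ℝ × ℝ | y.1 ^ 2 + y.2 ^ 2 < 1} := Ci_int continuous_const
    have i4 : IntegrableOn (fun y => g y ^ 2 - 2 * (a / 4) * |g y|)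
        {y : ℝ × ℝ | y.1 ^ 2 + y.2 ^ 2 < 1} := i1.sub i2
    rw [integral_add i4 i3, integral_sub i1 i2, integral_const_mul, setIntegral_const,
      ← ha, ← hq, smul_eq_mul]
  have h3 := Ci_real
  have h4 : a ^ 2 ≤ 4 * q := by
    rw [h2] at h1
    have e2 : volume.real {y : ℝ × ℝ | y.1 ^ 2 + y.2 ^ 2 < 1} * (a / 4) ^ 2 ≤ 4 * (a / 4) ^ 2 :=
      mul_le_mul_of_nonneg_right h3 (sq_nonneg _)
    nlinarith
  have h5 : a ^ 2 ≤ (2 * √q) ^ 2 := by
    rw [mul_pow, Real.sq_sqrt hq0]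
    linarith
  exact (sq_le_sq₀ h0 (by positivity)).1 h5

theorem Ci_k {C : ℝ} {kk g : ℝ × ℝ → ℝ} (h1 : ∀ y, |kk y| ≤ C)
    (h0 : ∀ y : ℝ × ℝ, 1 ≤ y.1 ^ 2 + y.2 ^ 2 → kk y = 0) (hg : Continuous g) :
    |∫ y, kk y * g y| ≤ C * ∫ y in {y : ℝ × ℝ | y.1 ^ 2 + y.2 ^ 2 < 1}, |g y| := by
  have h2 : ∫ y in {y : ℝ × ℝ | y.1 ^ 2 + y.2 ^ 2 < 1}, kk y * g y = ∫ y, kk y * g y := by
    refine setIntegral_eq_integral_of_forall_compl_eq_zero fun y hy => ?_
    have h3 : 1 ≤ y.1 ^ 2 + y.2 ^ 2 := not_lt.1 hy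
    rw [h0 y h3, zero_mul]
  rw [← h2, ← integral_const_mul, ← Real.norm_eq_abs]
  refine norm_integral_le_of_norm_le ((Ci_int hg.abs).const_mul C)
    (Eventually.of_forall fun y => ?_)
  rw [norm_mul, Real.norm_eq_abs, Real.norm_eq_abs]
  exact mul_le_mul_of_nonneg_right (h1 y) (abs_nonneg _)

theorem Ci_sh : Continuous sh := by
  unfold sh
  refine (PiLp.continuous_toLp 2 _).comp (continuous_pi fun i => ?_)
  fin_cases i
  · exact continuous_fst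
  · exact continuous_snd
  · exact continuous_const

theorem Ci_vc {v : E3 → E3} (hc : Continuous v) (ε : ℝ) (i : Fin 3) (x : E3) :
    Continuous fun y : ℝ × ℝ => v (x - ε • sh y) i := by
  have h1 : Continuous fun y : ℝ × ℝ => ε • sh y := Ci_sh.const_smul ε
  have h2 : Continuous fun y : ℝ × ℝ => x - ε • sh y := continuous_const.sub h1
  exact (PiLp.continuous_apply 2 _ i).comp (hc.comp h2)

theorem Ci_bi {g : ℝ × ℝ → ℝ} (hg : Continuous g) : Integrable fun y => bu y * g y := by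
  obtain ⟨h1, _, h3, _⟩ := b_facts
  exact (h1.continuous.mul hg).integrable_of_hasCompactSupport h3.mul_right

theorem Ci_e2 {v : E3 → E3} (hc : Continuous v) (ε : ℝ) (x : E3) :
    ∫ y, bu y * v (x - ε • sh y) 2 =
      (∫ y, bu y * (v (x - ε • sh y) 2 - v x 2)) + v x 2 := by
  obtain ⟨_, _, _, h4, h5, _⟩ := b_facts
  have e3 : ∫ y, v x 2 * bu y = v x 2 := by
    rw [integral_const_mul, h5, mul_one]
  have i1 : Integrable fun y => bu y * (v (x - ε • sh y) 2 - v x 2) :=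
    Ci_bi ((Ci_vc hc ε 2 x).sub continuous_const)
  have i2 : Integrable fun y => v x 2 * bu y := h4.const_mul _
  have e4 : ∫ y, bu y * v (x - ε • sh y) 2 =
      (∫ y, bu y * (v (x - ε • sh y) 2 - v x 2)) + ∫ y, v x 2 * bu y := by
    rw [← integral_add i1 i2]
    refine integral_congr_ae (Eventually.of_forall fun y => ?_)
    dsimp only
    ring
  rw [e4, e3]

theorem Ci_rh {v : E3 → E3} (hc : Continuous v) (ε : ℝ) (i : Fin 3) (x : E3) :
    rh ε v i x = (∫ y, bu y * (v (x - ε • sh y) i * (v (x - ε • sh y) 2 - v x 2))) -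
      (∫ y, bu y * v (x - ε • sh y) i) * ∫ y, bu y * (v (x - ε • sh y) 2 - v x 2) := by
  obtain ⟨_, _, _, h4, h5, _⟩ := b_facts
  have c1 := Ci_vc hc ε i x
  have c2 := Ci_vc hc ε 2 x
  have e1 : ∫ y, bu y * (v (x - ε • sh y) i * v (x - ε • sh y) 2) =
      (∫ y, bu y * (v (x - ε • sh y) i * (v (x - ε • sh y) 2 - v x 2))) +
        v x 2 * ∫ y, bu y * v (x - ε • sh y) i := by
    have i1 : Integrable fun y =>
        bu y * (v (x - ε • sh y) i * (v (x - ε • sh y) 2 - v x 2)) :=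
      Ci_bi (c1.mul (c2.sub continuous_const))
    have i2 : Integrable fun y => v x 2 * (bu y * v (x - ε • sh y) i) :=
      (Ci_bi c1).const_mul _
    rw [← integral_const_mul, ← integral_add i1 i2]
    refine integral_congr_ae (Eventually.of_forall fun y => ?_)
    dsimp only
    ring
  have e2 : ∫ y, bu y * v (x - ε • sh y) 2 =
      (∫ y, bu y * (v (x - ε • sh y) 2 - v x 2)) + v x 2 := by
    exact Ci_e2 hc ε x
  unfold rh hm
  rw [e1, e2]
  ring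

theorem Ci_d {v : E3 → E3} (hc : Continuous v) (ε : ℝ) (x : E3) :
    Continuous fun y : ℝ × ℝ => v (x - ε • sh y) 2 - v x 2 :=
  (Ci_vc hc ε 2 x).sub continuous_const

theorem Ci_c2 {C : ℝ} (hC : ∀ y, bu y ≤ C) {v : E3 → E3} (hc : Continuous v) (ε : ℝ) (x : E3) :
    0 ≤ rh ε v 2 x ∧ rh ε v 2 x ≤ C * Qd ε v x := by
  obtain ⟨_, hb0, _, h4, h5, h6, _⟩ := b_facts
  have c2 := Ci_vc hc ε 2 x
  have hd := Ci_d hc ε x
  constructor
  · have h1 := hm_sq (f := fun y => v y 2) ((PiLp.continuous_apply 2 _ 2).comp hc) ε x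
    have h2 : hm ε (fun y => v y 2 * v y 2) x = hm ε (fun y => v y 2 ^ 2) x := by
      unfold hm
      refine integral_congr_ae (Eventually.of_forall fun y => ?_)
      dsimp only
      ring
    unfold rh
    rw [h2]
    nlinarith
  · have e1 : ∫ y, bu y * (v (x - ε • sh y) 2 * (v (x - ε • sh y) 2 - v x 2)) =
        (∫ y, bu y * (v (x - ε • sh y) 2 - v x 2) ^ 2) +
          v x 2 * ∫ y, bu y * (v (x - ε • sh y) 2 - v x 2) := by
      have i1 : Integrable fun y => bu y * (v (x - ε • sh y) 2 - v x 2) ^ 2 :=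
        Ci_bi (hd.pow 2)
      have i2 : Integrable fun y => v x 2 * (bu y * (v (x - ε • sh y) 2 - v x 2)) :=
        (Ci_bi hd).const_mul _
      rw [← integral_const_mul, ← integral_add i1 i2]
      refine integral_congr_ae (Eventually.of_forall fun y => ?_)
      dsimp only
      ring
    have e2 : ∫ y, bu y * v (x - ε • sh y) 2 =
        (∫ y, bu y * (v (x - ε • sh y) 2 - v x 2)) + v x 2 := by
      exact Ci_e2 hc ε x
    have h7 : |∫ y, bu y * (v (x - ε • sh y) 2 - v x 2) ^ 2| ≤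
        C * ∫ y in {y : ℝ × ℝ | y.1 ^ 2 + y.2 ^ 2 < 1}, |(v (x - ε • sh y) 2 - v x 2) ^ 2| :=
      Ci_k (fun y => by rw [abs_of_nonneg (hb0 y)]; exact hC y) (fun y hy => (h6 y hy).1)
        (hd.pow 2)
    have h8 : ∫ y in {y : ℝ × ℝ | y.1 ^ 2 + y.2 ^ 2 < 1}, |(v (x - ε • sh y) 2 - v x 2) ^ 2| =
        Qd ε v x := by
      unfold Qd
      refine integral_congr_ae (Eventually.of_forall fun y => ?_)
      exact abs_of_nonneg (sq_nonneg _)
    rw [h8] at h7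
    rw [Ci_rh hc, e1, e2]
    have h9 := le_abs_self (∫ y, bu y * (v (x - ε • sh y) 2 - v x 2) ^ 2)
    nlinarith [sq_nonneg (∫ y, bu y * (v (x - ε • sh y) 2 - v x 2))]

theorem Qd_c {v : E3 → E3} (hv' : ContDiff ℝ ∞ v) {K : ℝ} (hK : ∀ x, ‖v x‖ ≤ K) (ε : ℝ) : Continuous (Qd ε v) ∧
    ∀ x, 0 ≤ Qd ε v x ∧ Qd ε v x ≤ 16 * K ^ 2 := by
  have hc := hv'.continuous
  have hv2 : ∀ x, |v x 2| ≤ K := fun x => (PiLp.norm_apply_le (v x) 2).trans (hK x)
  have hb : ∀ x y, (v (x - ε • sh y) 2 - v x 2) ^ 2 ≤ 4 * K ^ 2 := by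
    intro x y
    obtain ⟨a1, a2⟩ := abs_le.1 (hv2 (x - ε • sh y))
    obtain ⟨b1, b2⟩ := abs_le.1 (hv2 x)
    nlinarith
  constructor
  · unfold Qd
    refine continuous_of_dominated (bound := fun _ => 4 * K ^ 2) (fun x => ?_)
      (fun x => Eventually.of_forall fun y => ?_) (Ci_int continuous_const)
      (Eventually.of_forall fun y => ?_)
    · exact ((Ci_d hc ε x).pow 2).aestronglyMeasurable
    · rw [Real.norm_eq_abs, abs_of_nonneg (sq_nonneg _)]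
      exact hb x y
    · exact (((PiLp.continuous_apply 2 _ 2).comp (hc.comp (continuous_id.sub
        continuous_const))).sub ((PiLp.continuous_apply 2 _ 2).comp hc)).pow 2
  · intro x
    constructor
    · exact integral_nonneg fun y => sq_nonneg _
    · unfold Qd
      have h1 : ∫ y in {y : ℝ × ℝ | y.1 ^ 2 + y.2 ^ 2 < 1}, (v (x - ε • sh y) 2 - v x 2) ^ 2 ≤
          ∫ _ in {y : ℝ × ℝ | y.1 ^ 2 + y.2 ^ 2 < 1}, 4 * K ^ 2 :=
        integral_mono (Ci_int ((Ci_d hc ε x).pow 2)) (Ci_int continuous_const)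
          (fun y => hb x y)
      rw [setIntegral_const, smul_eq_mul] at h1
      have h2 : volume.real {y : ℝ × ℝ | y.1 ^ 2 + y.2 ^ 2 < 1} * (4 * K ^ 2) ≤
          4 * (4 * K ^ 2) := mul_le_mul_of_nonneg_right Ci_real (by positivity)
      linarith

theorem cC : ∃ C : ℝ, 1 ≤ C ∧ ∀ (κ N ε : ℝ) (v : E3 → E3), Sl κ N v → ∀ x, 0 ≤ rh ε v 2 x ∧ rh ε v 2 x ≤ C * Qd ε v x := by
  obtain ⟨C, hC1, hC⟩ := b_bd
  exact ⟨C, hC1, fun κ N ε v hv x => Ci_c2 (fun y => (hC y).1) hv.ax.smooth.continuous ε x⟩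

theorem cFar : ∃ C : ℝ, 1 ≤ C ∧ ∀ (κ N ε : ℝ) (v : E3 → E3), Sl κ N v → 0 < ε → ε ≤ 1 → ∀ x, 2 * ε ≤ rad x →
    √(rh ε v 0 x ^ 2 + rh ε v 1 x ^ 2) ≤ C * κ * (1 / rad x + 1) * √(Qd ε v x) ∧
    TT ε v x ≤ C * κ / ε * (1 / rad x + 1) * Qd ε v x := by
  obtain ⟨C0, hC1, hC⟩ := b_bd
  obtain ⟨C3, hC3, hm2⟩ := m2
  obtain ⟨_, hb0, _, h4, h5, h6, _⟩ := b_facts
  refine ⟨64 * C0 ^ 2 + C0 * C3, by nlinarith, ?_⟩
  intro κ N ε v hv hε hε1 x hx
  have hc := hv.ax.smooth.continuous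
  have hd := Ci_d hc ε x
  have hr : 0 < rad x := by linarith
  have hκ : 0 < κ := by linarith [hv.one]
  have hri : 0 < 1 / rad x := by positivity
  obtain ⟨s, hs⟩ : ∃ s : ℝ, s = √(Qd ε v x) := ⟨_, rfl⟩
  obtain ⟨w, hw⟩ : ∃ w : ℝ, w = 1 / rad x + 1 := ⟨_, rfl⟩
  have hs0 : 0 ≤ s := by
    rw [hs]
    exact Real.sqrt_nonneg _
  have hw0 : 0 < w := by linarith
  have hQ0 : 0 ≤ Qd ε v x := integral_nonneg fun y => sq_nonneg _
  have hss : s * s = Qd ε v x := by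
    rw [hs]
    exact Real.mul_self_sqrt hQ0
  obtain ⟨a, ha⟩ : ∃ a : ℝ, a = ∫ y in {y : ℝ × ℝ | y.1 ^ 2 + y.2 ^ 2 < 1},
      |v (x - ε • sh y) 2 - v x 2| := ⟨_, rfl⟩
  have ha0 : 0 ≤ a := by
    rw [ha]
    exact integral_nonneg fun _ => abs_nonneg _
  have has : a ≤ 2 * s := by
    rw [ha, hs]
    exact Ci_cs hd
  -- the horizontal components on the disc
  have hM : ∀ i : Fin 3, i ≠ 2 → ∀ y : ℝ × ℝ, y.1 ^ 2 + y.2 ^ 2 < 1 →
      |v (x - ε • sh y) i| ≤ 2 * κ * w := by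
    intro i hi y hy
    have h7 := ((sh_f y ε x).2.2.2.2 hε.le hy).2
    have h8 := (abs_le.1 h7).1
    have h9 : rad x / 2 ≤ rad (x - ε • sh y) := by linarith
    have h10 := hv.hor (x - ε • sh y)
    have h11 : |v (x - ε • sh y) i| ≤ hn v (x - ε • sh y) := by
      unfold hn
      refine Real.abs_le_sqrt ?_
      have h0 := sq_nonneg (v (x - ε • sh y) 0)
      have h1 := sq_nonneg (v (x - ε • sh y) 1)
      fin_cases i
      · show v (x - ε • sh y) 0 ^ 2 ≤ _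
        linarith
      · show v (x - ε • sh y) 1 ^ 2 ≤ _
        linarith
      · exact absurd rfl hi
    have h12 : 0 < rad (x - ε • sh y) := by linarith
    have h13 : hn v (x - ε • sh y) ≤ κ * (1 / rad (x - ε • sh y) + 1) := by
      have e1 : κ * (1 / rad (x - ε • sh y) + 1) =
          κ * (1 + rad (x - ε • sh y)) / rad (x - ε • sh y) := by
        field_simp
      rw [e1, le_div_iff₀ h12]
      linarith
    have h14 : 1 / rad (x - ε • sh y) ≤ 2 * (1 / rad x) := by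
      have e1 : 2 * (1 / rad x) = 1 / (rad x / 2) := by
        field_simp
      rw [e1]
      exact one_div_le_one_div_of_le (by linarith) h9
    have h15 : κ * (1 / rad (x - ε • sh y) + 1) ≤ κ * (2 * w) :=
      mul_le_mul_of_nonneg_left (by linarith) hκ.le
    linarith
  have hM0 : 0 ≤ 2 * κ * w := by positivity
  have hδ : |∫ y, bu y * (v (x - ε • sh y) 2 - v x 2)| ≤ C0 * a := by
    rw [ha]
    exact Ci_k (fun y => by rw [abs_of_nonneg (hb0 y)]; exact (hC y).1)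
      (fun y hy => (h6 y hy).1) hd
  have hrh : ∀ i : Fin 3, i ≠ 2 → |rh ε v i x| ≤ 8 * C0 * κ * w * s := by
    intro i hi
    have c1 := Ci_vc hc ε i x
    have k1 : |∫ y, bu y * (v (x - ε • sh y) i * (v (x - ε • sh y) 2 - v x 2))| ≤
        C0 * (2 * κ * w) * a := by
      have e1 : ∫ y, bu y * (v (x - ε • sh y) i * (v (x - ε • sh y) 2 - v x 2)) =
          ∫ y, bu y * v (x - ε • sh y) i * (v (x - ε • sh y) 2 - v x 2) := by
        refine integral_congr_ae (Eventually.of_forall fun y => ?_)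
        dsimp only
        ring
      rw [e1, ha]
      refine Ci_k (fun y => ?_) (fun y hy => by rw [(h6 y hy).1, zero_mul]) hd
      rcases lt_or_ge (y.1 ^ 2 + y.2 ^ 2) 1 with h | h
      · rw [abs_mul, abs_of_nonneg (hb0 y)]
        exact mul_le_mul (hC y).1 (hM i hi y h) (abs_nonneg _) (by linarith)
      · rw [(h6 y h).1, zero_mul, abs_zero]
        positivity
    have k2 : |∫ y, bu y * v (x - ε • sh y) i| ≤ 2 * κ * w := by
      have e1 : ∫ y, bu y * (2 * κ * w) = 2 * κ * w := by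
        rw [integral_mul_const, h5, one_mul]
      rw [← e1, ← Real.norm_eq_abs]
      refine norm_integral_le_of_norm_le (h4.mul_const _) (Eventually.of_forall fun y => ?_)
      rw [norm_mul, Real.norm_eq_abs, Real.norm_eq_abs, abs_of_nonneg (hb0 y)]
      rcases lt_or_ge (y.1 ^ 2 + y.2 ^ 2) 1 with h | h
      · exact mul_le_mul_of_nonneg_left (hM i hi y h) (hb0 y)
      · rw [(h6 y h).1, zero_mul, zero_mul]
    have k3 : |(∫ y, bu y * v (x - ε • sh y) i) *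
        ∫ y, bu y * (v (x - ε • sh y) 2 - v x 2)| ≤ 2 * κ * w * (C0 * a) := by
      rw [abs_mul]
      exact mul_le_mul k2 hδ (abs_nonneg _) hM0
    rw [Ci_rh hc]
    refine (abs_sub _ _).trans ?_
    have k4 : 4 * C0 * κ * w * a ≤ 4 * C0 * κ * w * (2 * s) :=
      mul_le_mul_of_nonneg_left has (by positivity)
    linarith
  have hS : √(rh ε v 0 x ^ 2 + rh ε v 1 x ^ 2) ≤ 16 * C0 * κ * w * s := by
    have e1 := hrh 0 (by decide)
    have e2 := hrh 1 (by decide)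
    rw [Real.sqrt_le_left (by positivity)]
    rw [← sq_abs (rh ε v 0 x), ← sq_abs (rh ε v 1 x)]
    nlinarith [abs_nonneg (rh ε v 0 x), abs_nonneg (rh ε v 1 x)]
  have hv2 : ContDiff ℝ 1 fun y => v y 2 := by
    have h7 : ContDiff ℝ ∞ fun y => v y 2 := contDiff_euclidean.1 hv.ax.smooth 2
    exact h7.of_le (by exact_mod_cast le_top)
  have hkd : ∀ kk : ℝ × ℝ → ℝ, Continuous kk → HasCompactSupport kk → (∀ y, |kk y| ≤ C0) →
      (∀ y : ℝ × ℝ, 1 ≤ y.1 ^ 2 + y.2 ^ 2 → kk y = 0) → ∫ y, kk y = 0 →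
      |(∫ y, kk y * v (x - ε • sh y) 2) / ε| ≤ 2 * C0 * s / ε := by
    intro kk k1 k2 k3 k4 k5
    have e1 : ∫ y, kk y * v (x - ε • sh y) 2 =
        ∫ y, kk y * (v (x - ε • sh y) 2 - v x 2) := by
      have e2 : ∫ y, kk y * v (x - ε • sh y) 2 =
          (∫ y, kk y * (v (x - ε • sh y) 2 - v x 2)) + ∫ y, v x 2 * kk y := by
        have i1 : Integrable fun y => kk y * (v (x - ε • sh y) 2 - v x 2) :=
          (k1.mul hd).integrable_of_hasCompactSupport k2.mul_right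
        have i2 : Integrable fun y => v x 2 * kk y :=
          (k1.integrable_of_hasCompactSupport k2).const_mul _
        rw [← integral_add i1 i2]
        refine integral_congr_ae (Eventually.of_forall fun y => ?_)
        dsimp only
        ring
      rw [e2, integral_const_mul, k5, mul_zero, add_zero]
    have e3 : |∫ y, kk y * (v (x - ε • sh y) 2 - v x 2)| ≤ C0 * a := by
      rw [ha]
      exact Ci_k k3 k4 hd
    have e4 : C0 * a ≤ C0 * (2 * s) := mul_le_mul_of_nonneg_left has (by linarith)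
    rw [e1, abs_div, abs_of_pos hε]
    exact div_le_div_of_nonneg_right (by linarith) hε.le
  have hcd : ∀ u : ℝ × ℝ, Continuous fun y => fderiv ℝ bu y u := by
    intro u
    exact (b_facts.1.continuous_fderiv (by norm_num)).clm_apply continuous_const
  have hcs : ∀ u : ℝ × ℝ, HasCompactSupport fun y => fderiv ℝ bu y u := by
    intro u
    have h7 := b_facts.2.2.1.fderiv (𝕜 := ℝ)
    exact h7.comp_left (g := fun L : ℝ × ℝ →L[ℝ] ℝ => L u) rfl
  have hz0 : ∀ u : ℝ × ℝ, ∀ y : ℝ × ℝ, 1 ≤ y.1 ^ 2 + y.2 ^ 2 → fderiv ℝ bu y u = 0 := by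
    intro u y hy
    rw [(h6 y hy).2]
    rfl
  have hhg : hg (hm ε (fun y => v y 2)) x ≤ 4 * C0 * s / ε := by
    obtain ⟨g0, g1⟩ := hm_k0 hv2 hε x
    have e1 : |pd 0 (hm ε (fun y => v y 2)) x| ≤ 2 * C0 * s / ε := by
      rw [g0]
      exact hkd _ (hcd _) (hcs _) (fun y => (hC y).2.1) (hz0 _) b_d0.1
    have e2 : |pd 1 (hm ε (fun y => v y 2)) x| ≤ 2 * C0 * s / ε := by
      rw [g1]
      exact hkd _ (hcd _) (hcs _) (fun y => (hC y).2.2) (hz0 _) b_d0.2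
    have e3 : 0 ≤ 2 * C0 * s / ε := by positivity
    have e4 : 4 * C0 * s / ε = 2 * (2 * C0 * s / ε) := by ring
    unfold hg
    rw [e4, Real.sqrt_le_left (by positivity)]
    rw [← sq_abs (pd 0 (hm ε (fun y => v y 2)) x), ← sq_abs (pd 1 (hm ε (fun y => v y 2)) x)]
    nlinarith [abs_nonneg (pd 0 (hm ε (fun y => v y 2)) x),
      abs_nonneg (pd 1 (hm ε (fun y => v y 2)) x)]
  have hp2 : |pd 2 (hm ε (fun y => v y 2)) x| ≤ C3 * κ / ε * w := by
    have h7 := (hm2 κ N ε v hv hε hε1 x).2.2.2.2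
    rwa [max_eq_left (by linarith : ε ≤ rad x), ← hw] at h7
  have h2x := Ci_c2 (fun y => (hC y).1) hc ε x
  rw [← hw, ← hs]
  have hsw : 0 ≤ κ * w * s := by positivity
  constructor
  · refine hS.trans ?_
    have e1 : 16 * C0 ≤ 64 * C0 ^ 2 + C0 * C3 := by nlinarith
    have e2 : 16 * C0 * (κ * w * s) ≤ (64 * C0 ^ 2 + C0 * C3) * (κ * w * s) :=
      mul_le_mul_of_nonneg_right e1 hsw
    linarith
  · unfold TT
    have e1 : √(rh ε v 0 x ^ 2 + rh ε v 1 x ^ 2) * hg (hm ε (fun y => v y 2)) x ≤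
        16 * C0 * κ * w * s * (4 * C0 * s / ε) :=
      mul_le_mul hS hhg (Real.sqrt_nonneg _) (by positivity)
    have e2 : |rh ε v 2 x| * |pd 2 (hm ε (fun y => v y 2)) x| ≤
        C0 * Qd ε v x * (C3 * κ / ε * w) := by
      rw [abs_of_nonneg h2x.1]
      exact mul_le_mul h2x.2 hp2 (abs_nonneg _) (by positivity)
    have e3 : 16 * C0 * κ * w * s * (4 * C0 * s / ε) + C0 * Qd ε v x * (C3 * κ / ε * w) =
        (64 * C0 ^ 2 + C0 * C3) * κ / ε * w * Qd ε v x := by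
      rw [← hss]
      ring
    linarith

end Pool.Agent.H16.TU
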