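/-
ROW Cj (MP_09540e_TU). Integration of the increments. PROOF. For y in the unit disc: `v₂(x - ε sh y) - v₂ x = - ε ∫_0^1 (y1 pd 0 v₂ + y2 pd 1 v₂)(x - s ε sh y) ds`, so by Cauchy-Schwarz `(..)² ≤ ε² ∫_0^1 (hg v₂)²(x - s ε sh y) ds`. (a) multiply by `(1/rad x + 1) Φ x` and integrate over `rad x ≥ 2ε`, swap the integrals (everything nonnegative, continuous: lintegral/Tonelli), for fixed (y, s) translate `x' = x - s ε sh y`:
`rad x' ≥ rad x - ε ≥ rad x/2 ≥ ε`, so `1/rad x ≤ 2/rad x'`... precisely `rad x ≥ rad x' - ε ≥ ... ` use `rad x' ≤ rad x + ε ≤ 2 rad x`, i.e. `1/rad x ≤ 2/rad x'`; `Φ x ≤ 64 Φ x'` (wt_cmp, A = 1, ε ≤ 1 ≤ R₁). So (a) holds with C = 128 π. (b) the same without the restriction. All integrals are finite: hg v₂ bounded, Φ integrable, 1/rad x ≤ 1/ε on the domains.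
-/
import Pool.Agent.H16.TU.Ci
import Pool.Agent.H16.TU.Ad0

set_option autoImplicit false

open Set Filter Topology MeasureTheory
open scoped ContDiff

namespace Pool.Agent.H16.TU

open Pool.Agent.H16 Pool.Agent.H87.NS Pool.Agent.H72.CC

theorem Cj_jen {h : ℝ → ℝ} (hh : Continuous h) :
    (∫ s in (0:ℝ)..1, h s) ^ 2 ≤ ∫ s in (0:ℝ)..1, h s ^ 2 := by
  obtain ⟨m, hm⟩ : ∃ m, m = ∫ s in (0:ℝ)..1, h s := ⟨_, rfl⟩
  have h1 : 0 ≤ ∫ s in (0:ℝ)..1, (h s - m) ^ 2 :=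
    intervalIntegral.integral_nonneg zero_le_one fun s _ => sq_nonneg _
  have h2 : ∫ s in (0:ℝ)..1, (h s - m) ^ 2 = (∫ s in (0:ℝ)..1, h s ^ 2) - m ^ 2 := by
    have e : ∀ s, (h s - m) ^ 2 = h s ^ 2 - 2 * m * h s + m ^ 2 := fun s => by ring
    simp only [e]
    have i1 : IntervalIntegrable (fun s => h s ^ 2) volume 0 1 := (hh.pow 2).intervalIntegrable _ _
    have i2 : IntervalIntegrable (fun s => 2 * m * h s) volume 0 1 :=
      (continuous_const.mul hh).intervalIntegrable _ _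
    have i3 : IntervalIntegrable (fun _ : ℝ => m ^ 2) volume 0 1 :=
      continuous_const.intervalIntegrable _ _
    rw [intervalIntegral.integral_add (i1.sub i2) i3, intervalIntegral.integral_sub i1 i2,
      intervalIntegral.integral_const_mul, intervalIntegral.integral_const, ← hm]
    simp only [sub_zero, smul_eq_mul]
    ring
  rw [← hm]
  linarith

theorem Cj_sh (y : ℝ × ℝ) : sh y = y.1 • e 0 + y.2 • e 1 := by
  ext i
  unfold sh e
  fin_cases i <;> simp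

theorem Cj_shc : Continuous sh := by
  have h : sh = fun y : ℝ × ℝ => y.1 • e 0 + y.2 • e 1 := funext Cj_sh
  rw [h]
  fun_prop

theorem Cj_hg (f : E3 → ℝ) (x : E3) : hg f x ^ 2 = pd 0 f x ^ 2 + pd 1 f x ^ 2 :=
  Real.sq_sqrt (by positivity)

theorem Cj_hgc {f : E3 → ℝ} (hf : ContDiff ℝ ∞ f) : Continuous (fun x => hg f x ^ 2) := by
  simp only [Cj_hg]
  exact ((pd_smooth hf 0).continuous.pow 2).add ((pd_smooth hf 1).continuous.pow 2)

theorem Cj_pt {f : E3 → ℝ} (hf : ContDiff ℝ ∞ f) (ε : ℝ) (x : E3) {y : ℝ × ℝ}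
    (hy : y.1 ^ 2 + y.2 ^ 2 < 1) :
    (f (x - ε • sh y) - f x) ^ 2 ≤ ε ^ 2 * ∫ s in (0:ℝ)..1, hg f (x - (s * ε) • sh y) ^ 2 := by
  have hd : ∀ s : ℝ, HasDerivAt (fun s : ℝ => f (x - (s * ε) • sh y))
      (fderiv ℝ f (x - (s * ε) • sh y) (-(ε • sh y))) s := by
    intro s
    have h1 : HasDerivAt (fun s : ℝ => x - (s * ε) • sh y) (-(ε • sh y)) s := by
      have h2 : HasDerivAt (fun s : ℝ => (s * ε) • sh y) (ε • sh y) s := by
        have h3 := ((hasDerivAt_id s).mul_const ε).smul_const (sh y)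
        simpa using h3
      simpa using h2.const_sub x
    exact (((hf.differentiable (by simp)) _).hasFDerivAt.comp_hasDerivAt s h1)
  have hcurve : Continuous (fun s : ℝ => x - (s * ε) • sh y) := by fun_prop
  have hc : Continuous (fun s : ℝ => fderiv ℝ f (x - (s * ε) • sh y) (-(ε • sh y))) :=
    ((hf.continuous_fderiv (by simp)).comp hcurve).clm_apply continuous_const
  have h1 : ∫ s in (0:ℝ)..1, fderiv ℝ f (x - (s * ε) • sh y) (-(ε • sh y)) =
      f (x - ε • sh y) - f x := by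
    rw [intervalIntegral.integral_eq_sub_of_hasDerivAt (fun s _ => hd s)
      (hc.intervalIntegrable _ _)]
    simp
  rw [← h1]
  refine (Cj_jen hc).trans ?_
  rw [← intervalIntegral.integral_const_mul]
  have hG : Continuous (fun s : ℝ => ε ^ 2 * hg f (x - (s * ε) • sh y) ^ 2) :=
    continuous_const.mul ((Cj_hgc hf).comp hcurve)
  refine intervalIntegral.integral_mono_on zero_le_one ((hc.pow 2).intervalIntegrable _ _)
    (hG.intervalIntegrable _ _) fun s _ => ?_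
  rw [Cj_hg]
  have e1 : fderiv ℝ f (x - (s * ε) • sh y) (-(ε • sh y)) =
      -(ε * (y.1 * pd 0 f (x - (s * ε) • sh y) + y.2 * pd 1 f (x - (s * ε) • sh y))) := by
    unfold pd
    rw [map_neg, map_smul]
    conv_lhs => rw [Cj_sh y]
    rw [map_add, map_smul, map_smul]
    simp only [smul_eq_mul, ← Cj_sh]
  rw [e1]
  generalize pd 0 f (x - (s * ε) • sh y) = p
  generalize pd 1 f (x - (s * ε) • sh y) = q
  have h2 : (y.1 * p + y.2 * q) ^ 2 ≤ p ^ 2 + q ^ 2 := by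
    have h3 : (y.1 * p + y.2 * q) ^ 2 ≤ (y.1 ^ 2 + y.2 ^ 2) * (p ^ 2 + q ^ 2) := by
      nlinarith [sq_nonneg (y.1 * q - y.2 * p)]
    have h4 : (y.1 ^ 2 + y.2 ^ 2) * (p ^ 2 + q ^ 2) ≤ 1 * (p ^ 2 + q ^ 2) :=
      mul_le_mul_of_nonneg_right hy.le (by positivity)
    linarith
  calc (-(ε * (y.1 * p + y.2 * q))) ^ 2 = ε ^ 2 * (y.1 * p + y.2 * q) ^ 2 := by ring
    _ ≤ ε ^ 2 * (p ^ 2 + q ^ 2) := mul_le_mul_of_nonneg_left h2 (sq_nonneg _)

theorem Cj_ptl {f : E3 → ℝ} (hf : ContDiff ℝ ∞ f) (ε : ℝ) (x : E3) {y : ℝ × ℝ}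
    (hy : y.1 ^ 2 + y.2 ^ 2 < 1) :
    ENNReal.ofReal ((f (x - ε • sh y) - f x) ^ 2) ≤ ENNReal.ofReal (ε ^ 2) *
      ∫⁻ s in Ioc (0:ℝ) 1, ENNReal.ofReal (hg f (x - (s * ε) • sh y) ^ 2) := by
  have hcurve : Continuous (fun s : ℝ => x - (s * ε) • sh y) := by fun_prop
  have hG : Continuous (fun s : ℝ => hg f (x - (s * ε) • sh y) ^ 2) := (Cj_hgc hf).comp hcurve
  have h1 := ENNReal.ofReal_le_ofReal (Cj_pt hf ε x hy)
  rw [ENNReal.ofReal_mul (sq_nonneg _), intervalIntegral.integral_of_le zero_le_one,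
    ofReal_integral_eq_lintegral_ofReal (hG.intervalIntegrable 0 1).1
      (Filter.Eventually.of_forall fun s => sq_nonneg _)] at h1
  exact h1

theorem Cj_vol : volume {y : ℝ × ℝ | y.1 ^ 2 + y.2 ^ 2 < 1} ≤ ENNReal.ofReal 4 := by
  have h1 : {y : ℝ × ℝ | y.1 ^ 2 + y.2 ^ 2 < 1} ⊆ Icc (-1 : ℝ) 1 ×ˢ Icc (-1 : ℝ) 1 := by
    intro y hy
    have hy' : y.1 ^ 2 + y.2 ^ 2 < 1 := hy
    refine ⟨⟨?_, ?_⟩, ⟨?_, ?_⟩⟩ <;> nlinarith [sq_nonneg y.1, sq_nonneg y.2]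
  refine (measure_mono h1).trans ?_
  rw [Measure.volume_eq_prod, Measure.prod_prod, Real.volume_Icc,
    ← ENNReal.ofReal_mul (by norm_num)]
  exact ENNReal.ofReal_le_ofReal (by norm_num)

theorem Cj_meas : MeasurableSet {y : ℝ × ℝ | y.1 ^ 2 + y.2 ^ 2 < 1} :=
  (isOpen_lt (by fun_prop) continuous_const).measurableSet

theorem Cj_swap {H : E3 → ENNReal} (hH : Measurable H) (ε : ℝ) :
    ∫⁻ x, ∫⁻ y in {y : ℝ × ℝ | y.1 ^ 2 + y.2 ^ 2 < 1}, ∫⁻ s in Ioc (0:ℝ) 1,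
      H (x - (s * ε) • sh y) ≤ ENNReal.ofReal 4 * ∫⁻ x, H x := by
  have hsh := Cj_shc
  have hc : Continuous (fun q : (E3 × (ℝ × ℝ)) × ℝ => q.1.1 - (q.2 * ε) • sh q.1.2) := by
    fun_prop
  have hm : Measurable (fun q : (E3 × (ℝ × ℝ)) × ℝ => H (q.1.1 - (q.2 * ε) • sh q.1.2)) :=
    hH.comp hc.measurable
  rw [lintegral_lintegral_swap (hm.lintegral_prod_right'.aemeasurable)]
  have h1 : ∀ y : ℝ × ℝ, ∫⁻ x, ∫⁻ s in Ioc (0:ℝ) 1, H (x - (s * ε) • sh y) = ∫⁻ x, H x := by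
    intro y
    have hc2 : Continuous (fun q : E3 × ℝ => q.1 - (q.2 * ε) • sh y) := by fun_prop
    rw [lintegral_lintegral_swap (f := fun (x : E3) (s : ℝ) => H (x - (s * ε) • sh y))
      ((hH.comp hc2.measurable).aemeasurable)]
    have h2 : ∀ s : ℝ, ∫⁻ x, H (x - (s * ε) • sh y) = ∫⁻ x, H x := fun s =>
      lintegral_sub_right_eq_self H _
    simp only [h2]
    rw [lintegral_const, Measure.restrict_apply MeasurableSet.univ, Set.univ_inter,
      Real.volume_Ioc]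
    simp
  simp only [h1]
  rw [lintegral_const, Measure.restrict_apply MeasurableSet.univ, Set.univ_inter, mul_comm]
  exact mul_le_mul_left Cj_vol _

theorem Cj_abs {ε c : ℝ} {v : E3 → E3} (hv : ContDiff ℝ ∞ v) (hQ : Continuous (Qd ε v))
    {a b : E3 → ℝ} (ha : Measurable a) (hb : Measurable b) (ha0 : ∀ x, 0 ≤ a x)
    (hb0 : ∀ x, 0 ≤ b x) (hc : 0 ≤ c)
    (hab : ∀ (x : E3) (y : ℝ × ℝ) (s : ℝ), y.1 ^ 2 + y.2 ^ 2 < 1 → s ∈ Ioc (0:ℝ) 1 →
      a x ≤ c * b (x - (s * ε) • sh y))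
    (hint : Integrable (fun x => b x * hg (fun y => v y 2) x ^ 2)) :
    ∫ x, a x * Qd ε v x ≤ 4 * c * ε ^ 2 * ∫ x, b x * hg (fun y => v y 2) x ^ 2 := by
  obtain ⟨f, hf⟩ : ∃ f : E3 → ℝ, f = fun y => v y 2 := ⟨_, rfl⟩
  have hfs : ContDiff ℝ ∞ f := by
    rw [hf]
    exact contDiff_euclidean.1 hv 2
  rw [← hf] at hint ⊢
  have hsh := Cj_shc
  have hQ0 : ∀ x, 0 ≤ Qd ε v x := fun x => integral_nonneg fun y => sq_nonneg _
  have hG := Cj_hgc hfs
  have hHm : Measurable (fun x => ENNReal.ofReal (b x * hg f x ^ 2)) :=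
    (hb.mul hG.measurable).ennreal_ofReal
  -- step A
  have hA : ∀ x, ENNReal.ofReal (Qd ε v x) ≤ ENNReal.ofReal (ε ^ 2) *
      ∫⁻ y in {y : ℝ × ℝ | y.1 ^ 2 + y.2 ^ 2 < 1}, ∫⁻ s in Ioc (0:ℝ) 1,
        ENNReal.ofReal (hg f (x - (s * ε) • sh y) ^ 2) := by
    intro x
    have hfc : Continuous f := hfs.continuous
    have hcy : Continuous (fun y : ℝ × ℝ => (f (x - ε • sh y) - f x) ^ 2) :=
      ((hfc.comp (continuous_const.sub (hsh.const_smul ε))).sub continuous_const).pow 2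
    have e1 : Qd ε v x = ∫ y in {y : ℝ × ℝ | y.1 ^ 2 + y.2 ^ 2 < 1}, (f (x - ε • sh y) - f x) ^ 2 := by
      rw [hf]
      rfl
    rw [e1, integral_eq_lintegral_of_nonneg_ae (Filter.Eventually.of_forall fun y => sq_nonneg _)
      hcy.aestronglyMeasurable]
    refine ENNReal.ofReal_toReal_le.trans ?_
    rw [← lintegral_const_mul' _ _ ENNReal.ofReal_ne_top]
    exact setLIntegral_mono' Cj_meas fun y hy => Cj_ptl hfs ε x hy
  -- step B
  have hB : ∀ x, ENNReal.ofReal (a x * Qd ε v x) ≤ ENNReal.ofReal (ε ^ 2) * (ENNReal.ofReal c *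
      ∫⁻ y in {y : ℝ × ℝ | y.1 ^ 2 + y.2 ^ 2 < 1}, ∫⁻ s in Ioc (0:ℝ) 1,
        (fun z => ENNReal.ofReal (b z * hg f z ^ 2)) (x - (s * ε) • sh y)) := by
    intro x
    rw [ENNReal.ofReal_mul (ha0 x)]
    refine (mul_le_mul_right (hA x) _).trans ?_
    rw [mul_left_comm]
    refine mul_le_mul_right ?_ _
    rw [← lintegral_const_mul' _ _ ENNReal.ofReal_ne_top,
      ← lintegral_const_mul' _ _ ENNReal.ofReal_ne_top]
    refine setLIntegral_mono' Cj_meas fun y hy => ?_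
    rw [← lintegral_const_mul' _ _ ENNReal.ofReal_ne_top,
      ← lintegral_const_mul' _ _ ENNReal.ofReal_ne_top]
    refine setLIntegral_mono' measurableSet_Ioc fun s hs => ?_
    rw [← ENNReal.ofReal_mul (ha0 x), ← ENNReal.ofReal_mul hc]
    apply ENNReal.ofReal_le_ofReal
    rw [← mul_assoc]
    exact mul_le_mul_of_nonneg_right (hab x y s hy hs) (sq_nonneg _)
  -- the end
  have hR0 : 0 ≤ 4 * c * ε ^ 2 * ∫ x, b x * hg f x ^ 2 :=
    mul_nonneg (by positivity) (integral_nonneg fun x => mul_nonneg (hb0 x) (sq_nonneg _))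
  rw [← ENNReal.ofReal_le_ofReal_iff hR0,
    integral_eq_lintegral_of_nonneg_ae
      (Filter.Eventually.of_forall fun x => mul_nonneg (ha0 x) (hQ0 x))
      (ha.mul hQ.measurable).aestronglyMeasurable]
  refine ENNReal.ofReal_toReal_le.trans ((lintegral_mono hB).trans ?_)
  rw [lintegral_const_mul' _ _ ENNReal.ofReal_ne_top,
    lintegral_const_mul' _ _ ENNReal.ofReal_ne_top]
  refine (mul_le_mul_right (mul_le_mul_right (Cj_swap hHm ε) _) _).trans (le_of_eq ?_)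
  rw [← ofReal_integral_eq_lintegral_ofReal hint
    (Filter.Eventually.of_forall fun x => mul_nonneg (hb0 x) (sq_nonneg _)),
    ← ENNReal.ofReal_mul (by norm_num), ← ENNReal.ofReal_mul hc, ← ENNReal.ofReal_mul (sq_nonneg _)]
  congr 1
  ring

theorem Cj_bd {κ N : ℝ} {v : E3 → E3} (h : Sl κ N v) :
    ∃ K : ℝ, 0 ≤ K ∧ (∀ x, |v x 0| ≤ K) ∧ (∀ x, |v x 1| ≤ K) ∧ (∀ x, |v x 2| ≤ K) ∧
      ∀ x, hg (fun y => v y 2) x ^ 2 ≤ K := by
  obtain ⟨K, hK⟩ := h.db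
  have h0 : ∀ (j : Fin 3) x, |v x j| ≤ K := fun j x => (hK j).1.1 x
  have h1 : ∀ (i : Fin 3) x, |pd i (fun y => v y 2) x| ≤ K := fun i x => ((hK 2).2 i).1.1 x
  have hK0 : 0 ≤ K := (abs_nonneg _).trans (h0 0 0)
  refine ⟨K + 2 * K ^ 2, by positivity, fun x => ?_, fun x => ?_, fun x => ?_, fun x => ?_⟩
  · have := h0 0 x
    nlinarith
  · have := h0 1 x
    nlinarith
  · have := h0 2 x
    nlinarith
  · rw [Cj_hg]
    have h2 := sq_le_sq' (abs_le.1 (h1 0 x)).1 (abs_le.1 (h1 0 x)).2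
    have h3 := sq_le_sq' (abs_le.1 (h1 1 x)).1 (abs_le.1 (h1 1 x)).2
    linarith

theorem Cj_Q {κ N : ℝ} {v : E3 → E3} (h : Sl κ N v) (ε : ℝ) : Continuous (Qd ε v) := by
  obtain ⟨K, hK0, k0, k1, k2, _⟩ := Cj_bd h
  refine (Qd_c h.ax.smooth (K := 3 * K) (fun x => ?_) ε).1
  have h1 : ‖v x‖ ^ 2 ≤ (3 * K) ^ 2 := by
    rw [norm_sq_eq]
    have a0 := sq_le_sq' (abs_le.1 (k0 x)).1 (abs_le.1 (k0 x)).2
    have a1 := sq_le_sq' (abs_le.1 (k1 x)).1 (abs_le.1 (k1 x)).2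
    have a2 := sq_le_sq' (abs_le.1 (k2 x)).1 (abs_le.1 (k2 x)).2
    nlinarith
  exact (pow_le_pow_iff_left₀ (norm_nonneg _) (by positivity) two_ne_zero).1 h1

theorem Cj_near {N Z R₁ ε : ℝ} (hN : 1 ≤ N) (hZ : 1 ≤ Z) (hR : 1 ≤ R₁) (hε : 0 < ε) (hε1 : ε ≤ 1)
    (x : E3) {y : ℝ × ℝ} {s : ℝ} (hy : y.1 ^ 2 + y.2 ^ 2 < 1) (hs : s ∈ Ioc (0:ℝ) 1) :
    ww N Z R₁ 0 x ≤ 64 * ww N Z R₁ 0 (x - (s * ε) • sh y) ∧
      |rad (x - (s * ε) • sh y) - rad x| ≤ ε := by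
  have hR0 : 0 < R₁ := by linarith
  obtain ⟨hL, hRL⟩ := Ad0_L hN hZ hR0
  have hse : 0 ≤ s * ε := mul_nonneg hs.1.le hε.le
  have hse1 : s * ε ≤ ε := by nlinarith [hs.2]
  obtain ⟨_, _, _, _, h5⟩ := sh_f y (s * ε) x
  obtain ⟨h6, h7⟩ := h5 hse hy
  refine ⟨?_, h7.trans hse1⟩
  have h8 := wt_cmp (A := 1) le_rfl hR0 hRL 0 (x := x) (y := x - (s * ε) • sh y) (by
    rw [norm_sub_rev]
    linarith)
  rw [one_pow, mul_one] at h8
  exact h8

theorem Cj_rm : Measurable rad := continuous_rad.measurable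

theorem cFi : ∃ C : ℝ, 1 ≤ C ∧ ∀ (κ N Z R₁ ε : ℝ) (v : E3 → E3), Sl κ N v → 1 ≤ Z → 1 ≤ R₁ → 0 < ε → ε ≤ 1 →
    (∫ x in {x : E3 | 2 * ε ≤ rad x}, (1 / rad x + 1) * Qd ε v x * ww N Z R₁ 0 x) ≤
      C * ε ^ 2 * ∫ x in {x : E3 | ε ≤ rad x}, (1 / rad x + 1) * (hg (fun y => v y 2) x) ^ 2 * ww N Z R₁ 0 x := by
  refine ⟨512, by norm_num, ?_⟩
  intro κ N Z R₁ ε v h hZ hR hε hε1
  have hN : 1 ≤ N := h.one.trans h.le
  have hR0 : 0 < R₁ := by linarith
  obtain ⟨hW, -, -⟩ := ww_ok hN hZ hR0 0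
  obtain ⟨K, hK0, -, -, -, hK⟩ := Cj_bd h
  have hwm : Measurable (ww N Z R₁ 0) := hW.sm.continuous.measurable
  have hsm : ContDiff ℝ ∞ (fun y => v y 2) := contDiff_euclidean.1 h.ax.smooth 2
  have hrm := Cj_rm
  have hS : ∀ t : ℝ, MeasurableSet {x : E3 | t ≤ rad x} := fun t =>
    measurableSet_le measurable_const hrm
  have hfm : Measurable (fun x : E3 => (1 / rad x + 1) * ww N Z R₁ 0 x) :=
    ((measurable_const.div hrm).add_const 1).mul hwm
  have hf0 : ∀ x : E3, 0 ≤ (1 / rad x + 1) * ww N Z R₁ 0 x := fun x =>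
    mul_nonneg (add_nonneg (div_nonneg zero_le_one (rad_nonneg x)) zero_le_one) (hW.nn x)
  have key := Cj_abs (ε := ε) (c := 128) (v := v) h.ax.smooth (Cj_Q h ε)
    (a := indicator {x : E3 | 2 * ε ≤ rad x} (fun x => (1 / rad x + 1) * ww N Z R₁ 0 x))
    (b := indicator {x : E3 | ε ≤ rad x} (fun x => (1 / rad x + 1) * ww N Z R₁ 0 x))
    (hfm.indicator (hS _)) (hfm.indicator (hS _)) (fun x => indicator_nonneg (fun x _ => hf0 x) x)
    (fun x => indicator_nonneg (fun x _ => hf0 x) x) (by norm_num) ?_ ?_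
  · have e1 : ∫ x in {x : E3 | 2 * ε ≤ rad x}, (1 / rad x + 1) * Qd ε v x * ww N Z R₁ 0 x =
        ∫ x, indicator {x : E3 | 2 * ε ≤ rad x} (fun x => (1 / rad x + 1) * ww N Z R₁ 0 x) x *
          Qd ε v x := by
      rw [← integral_indicator (hS _)]
      congr 1
      ext x
      by_cases hx : x ∈ {x : E3 | 2 * ε ≤ rad x}
      · rw [indicator_of_mem hx, indicator_of_mem hx]
        ring
      · rw [indicator_of_notMem hx, indicator_of_notMem hx, zero_mul]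
    have e2 : ∫ x in {x : E3 | ε ≤ rad x}, (1 / rad x + 1) * (hg (fun y => v y 2) x) ^ 2 *
        ww N Z R₁ 0 x =
        ∫ x, indicator {x : E3 | ε ≤ rad x} (fun x => (1 / rad x + 1) * ww N Z R₁ 0 x) x *
          hg (fun y => v y 2) x ^ 2 := by
      rw [← integral_indicator (hS _)]
      congr 1
      ext x
      by_cases hx : x ∈ {x : E3 | ε ≤ rad x}
      · rw [indicator_of_mem hx, indicator_of_mem hx]
        ring
      · rw [indicator_of_notMem hx, indicator_of_notMem hx, zero_mul]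
    rw [e1, e2]
    refine key.trans (le_of_eq ?_)
    ring
  · intro x y s hy hs
    obtain ⟨h1, h2⟩ := Cj_near hN hZ hR hε hε1 x hy hs
    by_cases hx : x ∈ {x : E3 | 2 * ε ≤ rad x}
    · have hx' : 2 * ε ≤ rad x := hx
      rw [abs_le] at h2
      have hx2 : x - (s * ε) • sh y ∈ {x : E3 | ε ≤ rad x} := by
        change ε ≤ rad (x - (s * ε) • sh y)
        linarith
      have hx3 : ε ≤ rad (x - (s * ε) • sh y) := hx2
      rw [indicator_of_mem hx, indicator_of_mem hx2]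
      have hw := hW.nn (x - (s * ε) • sh y)
      generalize ww N Z R₁ 0 (x - (s * ε) • sh y) = w' at *
      generalize rad (x - (s * ε) • sh y) = r' at *
      have hr' : 0 < r' := by linarith
      have hr : 0 < rad x := by linarith
      have h3 : 1 / rad x ≤ 2 / r' := by
        rw [div_le_div_iff₀ hr hr']
        linarith
      have h4 : 0 ≤ 1 / r' := by positivity
      have h5 : 2 / r' = 2 * (1 / r') := by ring
      calc (1 / rad x + 1) * ww N Z R₁ 0 x ≤ (2 * (1 / r' + 1)) * (64 * w') := by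
            apply mul_le_mul _ h1 (hW.nn x) (by positivity)
            rw [h5] at h3
            linarith
        _ = 128 * ((1 / r' + 1) * w') := by ring
    · rw [indicator_of_notMem hx]
      exact mul_nonneg (by norm_num) (indicator_nonneg (fun x _ => hf0 x) _)
  · refine Integrable.mono' (hW.int.const_mul ((1 / ε + 1) * K))
      (((hfm.indicator (hS _)).mul (Cj_hgc hsm).measurable).aestronglyMeasurable)
      (Filter.Eventually.of_forall fun x => ?_)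
    rw [Real.norm_of_nonneg (mul_nonneg (indicator_nonneg (fun x _ => hf0 x) _) (sq_nonneg _))]
    by_cases hx : x ∈ {x : E3 | ε ≤ rad x}
    · have hx' : ε ≤ rad x := hx
      rw [indicator_of_mem hx]
      have h3 : 1 / rad x ≤ 1 / ε := one_div_le_one_div_of_le hε hx'
      have h4 : 0 ≤ 1 / ε := by positivity
      calc (1 / rad x + 1) * ww N Z R₁ 0 x * hg (fun y => v y 2) x ^ 2 ≤
            (1 / ε + 1) * ww N Z R₁ 0 x * K := by
            apply mul_le_mul _ (hK x) (sq_nonneg _) (mul_nonneg (by linarith) (hW.nn x))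
            exact mul_le_mul_of_nonneg_right (by linarith) (hW.nn x)
        _ = (1 / ε + 1) * K * ww N Z R₁ 0 x := by ring
    · rw [indicator_of_notMem hx, zero_mul]
      exact mul_nonneg (mul_nonneg (by positivity) hK0) (hW.nn x)

theorem cFi2 : ∃ C : ℝ, 1 ≤ C ∧ ∀ (κ N Z R₁ ε : ℝ) (v : E3 → E3), Sl κ N v → 1 ≤ Z → 1 ≤ R₁ → 0 < ε → ε ≤ 1 →
    ∫ x, Qd ε v x * ww N Z R₁ 0 x ≤ C * ε ^ 2 * ∫ x, (hg (fun y => v y 2) x) ^ 2 * ww N Z R₁ 0 x := by
  refine ⟨256, by norm_num, ?_⟩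
  intro κ N Z R₁ ε v h hZ hR hε hε1
  have hN : 1 ≤ N := h.one.trans h.le
  have hR0 : 0 < R₁ := by linarith
  obtain ⟨hW, -, -⟩ := ww_ok hN hZ hR0 0
  obtain ⟨K, hK0, -, -, -, hK⟩ := Cj_bd h
  have hwm : Measurable (ww N Z R₁ 0) := hW.sm.continuous.measurable
  have hsm : ContDiff ℝ ∞ (fun y => v y 2) := contDiff_euclidean.1 h.ax.smooth 2
  have key := Cj_abs (ε := ε) (c := 64) (v := v) h.ax.smooth (Cj_Q h ε)
    (a := ww N Z R₁ 0) (b := ww N Z R₁ 0) hwm hwm hW.nn hW.nn (by norm_num)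
    (fun x y s hy hs => (Cj_near hN hZ hR hε hε1 x hy hs).1) ?_
  · have e1 : ∫ x, Qd ε v x * ww N Z R₁ 0 x = ∫ x, ww N Z R₁ 0 x * Qd ε v x := by
      congr 1
      ext x
      ring
    have e2 : ∫ x, (hg (fun y => v y 2) x) ^ 2 * ww N Z R₁ 0 x =
        ∫ x, ww N Z R₁ 0 x * hg (fun y => v y 2) x ^ 2 := by
      congr 1
      ext x
      ring
    rw [e1, e2]
    refine key.trans (le_of_eq ?_)
    ring
  · refine Integrable.mono' (hW.int.const_mul K)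
      ((hwm.mul (Cj_hgc hsm).measurable).aestronglyMeasurable)
      (Filter.Eventually.of_forall fun x => ?_)
    rw [Real.norm_of_nonneg (mul_nonneg (hW.nn x) (sq_nonneg _)), mul_comm K]
    exact mul_le_mul_of_nonneg_left (hK x) (hW.nn x)

end Pool.Agent.H16.TU
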