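/-
ROW Ck (MP_09540e_TU). Commutators near the axis. PROOF. Let `rad x < 2ε`, z = x 2, `c = v₂(3ε, 0, z)`, `D3 = {q : q1²+q2² < 9ε²}`, `δ q = v₂(q, z) - c`, `Y = ∫_{D3} |δ|/|q|`, so `Y2 = ∫_{D3} δ²/|q|`. For F ≥ 0 continuous (or integrable on D3) and |kk| ≤ B supported in the unit disc: `∫ |kk y| F(x - ε sh y) dy ≤ B ε⁻² ∫_{D3} F(q, z) dq` (change of variables q = (x0,x1) - ε y, |q| < 3ε).
`∫_{D3} 1/|q| = 6π ε` (polar coordinates: Cyl_polar), Cauchy-Schwarz: `Y² ≤ 6π ε Y2`; `∫_{D3} |δ| ≤ 3ε Y`, `∫_{D3} δ² ≤ 3ε Y2`. Then (C from b_bd, all with ∫ bu = 1, b_d0): `rh a = ∫ bu v_a δ - hm v_a ∫ bu δ` (δ evaluated at x - ε sh y; subtracting the constant c from v₂ does not change rh a), `|v_a| ≤ κ(1/|q|+1) ≤ 4κ/|q|` on D3 (ε ≤ 1):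
`|rh a| ≤ 4κ C ε⁻² Y + (C κ(1/ε + 1)) C ε⁻² 3ε Y ≤ C' κ ε⁻² Y` (m2, max ≥ ε); `|pd a (hm v₂)| ≤ C ε⁻³ ∫_{D3} |δ| ≤ 3 C ε⁻² Y`; `0 ≤ rh 2 ≤ ∫ bu δ² ≤ C ε⁻² 3ε Y2`; `|pd 2 (hm v₂)| ≤ C κ/ε (1/ε + 1) ≤ 2Cκ/ε²`. So `TT ≤ C κ ε⁻⁴ Y² + C κ ε⁻³ Y2 ≤ C κ ε⁻³ Y2`, and `(rh 0)²+(rh 1)² ≤ C κ² ε⁻⁴ Y² ≤ C κ² ε⁻³ Y2`.
Y2 is finite: δ bounded, 1/|q| integrable on D3. (Real integrals: δ²/√(q1²+q2²), at q = 0 division by zero gives 0, a null set.)
-/
import Pool.Agent.H16.TU.Cc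

set_option autoImplicit false

open Set Filter Topology MeasureTheory
open scoped ContDiff

namespace Pool.Agent.H16.TU

open Pool.Agent.H16 Pool.Agent.H87.NS Pool.Agent.H72.CC

/-- the disc of radius `3 ε` -/
def Ck_D (ε : ℝ) : Set (ℝ × ℝ) := {q | q.1 ^ 2 + q.2 ^ 2 < 9 * ε ^ 2}

/-- distance to the axis -/
noncomputable def Ck_W (q : ℝ × ℝ) : ℝ := √(q.1 ^ 2 + q.2 ^ 2)

theorem Ck_Dm (ε : ℝ) : MeasurableSet (Ck_D ε) := by
  have h : IsOpen (Ck_D ε) := isOpen_lt (by fun_prop) (by fun_prop)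
  exact h.measurableSet

theorem Ck_Wc : Continuous Ck_W := by
  unfold Ck_W
  fun_prop

theorem Ck_W0 (q : ℝ × ℝ) : 0 ≤ Ck_W q := Real.sqrt_nonneg _

theorem Ck_Wpos {q : ℝ × ℝ} (hq : q ≠ 0) : 0 < Ck_W q := by
  apply Real.sqrt_pos.2
  by_contra hcon
  push Not at hcon
  have h1 : q.1 = 0 := by nlinarith [sq_nonneg q.1, sq_nonneg q.2]
  have h2 : q.2 = 0 := by nlinarith [sq_nonneg q.1, sq_nonneg q.2]
  exact hq (Prod.ext h1 h2)

theorem Ck_WD {ε : ℝ} (hε : 0 < ε) (q : ℝ × ℝ) : q ∈ Ck_D ε ↔ Ck_W q < 3 * ε := by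
  unfold Ck_D Ck_W
  rw [Real.sqrt_lt' (by positivity), mem_setOf_eq]
  have : (3 * ε) ^ 2 = 9 * ε ^ 2 := by ring
  rw [this]

theorem Ck_int {ε : ℝ} (hε : 0 < ε) : IntegrableOn (fun q => (Ck_W q)⁻¹) (Ck_D ε) ∧
    ∫ q in Ck_D ε, (Ck_W q)⁻¹ ≤ 19 * ε := by
  have hm : Measurable (fun q => (Ck_W q)⁻¹) := Ck_Wc.measurable.inv
  have h1 : ∫⁻ q in Ck_D ε, ENNReal.ofReal ((Ck_W q)⁻¹) ≤ ENNReal.ofReal (19 * ε) := by
    rw [← lintegral_indicator (Ck_Dm ε)]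
    have h2 : (Ck_D ε).indicator (fun q => ENNReal.ofReal ((Ck_W q)⁻¹)) =
        fun q => (Iio (3 * ε)).indicator (fun r => ENNReal.ofReal r⁻¹) (√(q.1 ^ 2 + q.2 ^ 2)) := by
      funext q
      by_cases hq : q ∈ Ck_D ε
      · rw [indicator_of_mem hq, indicator_of_mem]
        · rfl
        · exact (Ck_WD hε q).1 hq
      · rw [indicator_of_notMem hq, indicator_of_notMem]
        intro h3
        exact hq ((Ck_WD hε q).2 h3)
    rw [h2]
    have hF : Measurable ((Iio (3 * ε)).indicator (fun r : ℝ => ENNReal.ofReal r⁻¹)) :=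
      (measurable_inv.ennreal_ofReal).indicator measurableSet_Iio
    rw [Cyl_polar hF]
    have h3 : ∫⁻ r in Ioi (0 : ℝ), ENNReal.ofReal r * (Iio (3 * ε)).indicator (fun r : ℝ => ENNReal.ofReal r⁻¹) r ≤
        ENNReal.ofReal (3 * ε) := by
      calc ∫⁻ r in Ioi (0 : ℝ), ENNReal.ofReal r * (Iio (3 * ε)).indicator (fun r : ℝ => ENNReal.ofReal r⁻¹) r
          ≤ ∫⁻ r in Ioi (0 : ℝ), (Iio (3 * ε)).indicator (fun _ : ℝ => (1 : ENNReal)) r := by
            refine setLIntegral_mono' measurableSet_Ioi ?_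
            intro r hr
            by_cases h4 : r ∈ Iio (3 * ε)
            · rw [indicator_of_mem h4, indicator_of_mem h4, ← ENNReal.ofReal_mul (le_of_lt hr),
                mul_inv_cancel₀ (ne_of_gt hr), ENNReal.ofReal_one]
            · rw [indicator_of_notMem h4, mul_zero]
              exact bot_le
        _ = volume (Iio (3 * ε) ∩ Ioi 0) := by
            rw [lintegral_indicator measurableSet_Iio, lintegral_one, Measure.restrict_apply_univ,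
              Measure.restrict_apply measurableSet_Iio]
        _ ≤ ENNReal.ofReal (3 * ε) := by
            have h5 : Iio (3 * ε) ∩ Ioi (0 : ℝ) = Ioo 0 (3 * ε) := by
              ext r
              simp only [mem_inter_iff, mem_Iio, mem_Ioi, mem_Ioo]
              tauto
            rw [h5, Real.volume_Ioo, sub_zero]
    refine (mul_le_mul_right h3 _).trans ?_
    rw [← ENNReal.ofReal_mul (by positivity)]
    apply ENNReal.ofReal_le_ofReal
    have hpi := Real.pi_lt_d2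
    nlinarith
  have hae : 0 ≤ᵐ[volume.restrict (Ck_D ε)] fun q => (Ck_W q)⁻¹ :=
    Filter.Eventually.of_forall fun q => inv_nonneg.2 (Ck_W0 q)
  constructor
  · refine ⟨hm.aestronglyMeasurable, ?_⟩
    rw [hasFiniteIntegral_iff_ofReal hae]
    exact lt_of_le_of_lt h1 ENNReal.ofReal_lt_top
  · rw [integral_eq_lintegral_of_nonneg_ae hae hm.aestronglyMeasurable]
    exact ENNReal.toReal_le_of_le_ofReal (by positivity) h1

theorem Ck_cv {ε : ℝ} (hε : 0 < ε) {p : ℝ × ℝ} (hp : p.1 ^ 2 + p.2 ^ 2 < (2 * ε) ^ 2) {F Φ : ℝ × ℝ → ℝ} {B : ℝ}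
    (hB : 0 ≤ B) (hF0 : ∀ q, 0 ≤ F q) (hFi : IntegrableOn F (Ck_D ε))
    (h1 : ∀ y : ℝ × ℝ, y.1 ^ 2 + y.2 ^ 2 < 1 → p - ε • y ∈ Ck_D ε → p - ε • y ≠ 0 → |Φ y| ≤ B * F (p - ε • y))
    (h0 : ∀ y : ℝ × ℝ, 1 ≤ y.1 ^ 2 + y.2 ^ 2 → Φ y = 0) :
    |∫ y, Φ y| ≤ B / ε ^ 2 * ∫ q in Ck_D ε, F q := by
  set g : ℝ × ℝ → ℝ := (Ck_D ε).indicator F with hg
  have gi : Integrable g := hFi.integrable_indicator (Ck_Dm ε)
  have i1 : Integrable (fun w => g (p - w)) := gi.comp_sub_left p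
  have i2 : Integrable (fun y => g (p - ε • y)) := i1.comp_smul hε.ne'
  have e1 : ∫ y, g (p - ε • y) = (ε ^ 2)⁻¹ * ∫ q in Ck_D ε, F q := by
    have e2 := Measure.integral_comp_smul volume (fun w => g (p - w)) ε
    have e3 : Module.finrank ℝ (ℝ × ℝ) = 2 := by simp
    rw [e3, integral_sub_left_eq_self g volume p, integral_indicator (Ck_Dm ε), smul_eq_mul,
      abs_of_pos (by positivity)] at e2
    exact e2
  have g0 : ∀ q, 0 ≤ g q := fun q => indicator_nonneg (fun q _ => hF0 q) q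
  have key : ∀ᵐ y : ℝ × ℝ, ‖Φ y‖ ≤ B * g (p - ε • y) := by
    have hne : ∀ᵐ y : ℝ × ℝ, y ≠ ε⁻¹ • p := by
      rw [ae_iff]
      simp only [ne_eq, not_not, setOf_eq_eq_singleton]
      exact measure_singleton _
    filter_upwards [hne] with y hy
    rcases lt_or_ge (y.1 ^ 2 + y.2 ^ 2) 1 with hc | hc
    · have hD : p - ε • y ∈ Ck_D ε := by
        show (p.1 - ε * y.1) ^ 2 + (p.2 - ε * y.2) ^ 2 < 9 * ε ^ 2
        have e4 := sq_nonneg (p.1 + 2 * ε * y.1)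
        have e5 := sq_nonneg (p.2 + 2 * ε * y.2)
        have e6 : 3 * ε ^ 2 * (y.1 ^ 2 + y.2 ^ 2) < 3 * ε ^ 2 * 1 :=
          mul_lt_mul_of_pos_left hc (by positivity)
        nlinarith
      have hne0 : p - ε • y ≠ 0 := by
        intro h2
        apply hy
        rw [sub_eq_zero.1 h2, smul_smul, inv_mul_cancel₀ hε.ne', one_smul]
      rw [hg, indicator_of_mem hD]
      exact h1 y hc hD hne0
    · rw [h0 y hc, norm_zero]
      exact mul_nonneg hB (g0 _)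
  have e7 := norm_integral_le_of_norm_le (i2.const_mul B) key
  rw [integral_const_mul, e1, Real.norm_eq_abs] at e7
  calc |∫ y, Φ y| ≤ B * ((ε ^ 2)⁻¹ * ∫ q in Ck_D ε, F q) := e7
    _ = B / ε ^ 2 * ∫ q in Ck_D ε, F q := by ring

theorem Ck_ha (v : E3 → E3) (y : E3) : |v y 0| ≤ hn v y ∧ |v y 1| ≤ hn v y := by
  unfold hn
  constructor
  · apply Real.abs_le_sqrt
    nlinarith [sq_nonneg (v y 1)]
  · apply Real.abs_le_sqrt
    nlinarith [sq_nonneg (v y 0)]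

/-- the point above `q` at height `z` -/
noncomputable def Ck_pt (z : ℝ) (q : ℝ × ℝ) : E3 := !₂[q.1, q.2, z]

theorem Ck_ptc (z : ℝ) : Continuous (Ck_pt z) := by
  unfold Ck_pt
  fun_prop

theorem Ck_ptx (ε : ℝ) (x : E3) (y : ℝ × ℝ) : x - ε • sh y = Ck_pt (x 2) ((x 0, x 1) - ε • y) := by
  obtain ⟨-, h0, h1, h2, -⟩ := sh_f y ε x
  ext i
  fin_cases i
  · exact h0
  · exact h1
  · exact h2

theorem Ck_rad (z : ℝ) (q : ℝ × ℝ) : rad (Ck_pt z q) = Ck_W q := rfl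

theorem Ck_hmc {f : E3 → ℝ} (hf : Continuous f) (c ε : ℝ) (x : E3) : hm ε (fun y => f y - c) x = hm ε f x - c := by
  have h1 := hm_add hf (continuous_const (y := -c)) ε x
  have h2 : hm ε (fun _ : E3 => -c) x = -c := by
    unfold hm
    rw [integral_mul_const, b_facts.2.2.2.2.1, one_mul]
  rw [h2] at h1
  have e : (fun y => f y - c) = fun y => f y + -c := by
    funext y
    ring
  rw [e, h1]
  ring

theorem Ck_rh {v : E3 → E3} (hv : ContDiff ℝ ∞ v) (c ε : ℝ) (i : Fin 3) (x : E3) :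
    rh ε v i x = hm ε (fun y => v y i * (v y 2 - c)) x -
      hm ε (fun y => v y i) x * hm ε (fun y => v y 2 - c) x := by
  have hj : ∀ j : Fin 3, Continuous (fun y => v y j) := fun j =>
    (contDiff_euclidean.1 hv j).continuous
  have h1 := hm_add (f := fun y => v y i * v y 2) (g := fun y => -c * v y i) ((hj i).mul (hj 2))
    ((hj i).const_mul (-c)) ε x
  rw [hm_cm] at h1
  have e : (fun y => v y i * (v y 2 - c)) = fun y => v y i * v y 2 + -c * v y i := by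
    funext y
    ring
  rw [e, h1, Ck_hmc (hj 2)]
  unfold rh
  ring

theorem Ck_pdc {f : E3 → ℝ} (c : ℝ) (i : Fin 3) (x : E3) : pd i (fun y => f y - c) x = pd i f x := by
  unfold pd
  rw [fderiv_sub_const]

theorem Ck_fin {A B κ ε Y S r0 r1 r2 p0 p1 p4 : ℝ} (hA : 1 ≤ A) (hB : 1 ≤ B) (hκ : 1 ≤ κ) (hε : 0 < ε)
    (hY0 : 0 ≤ Y) (hS0 : 0 ≤ S) (hCS : Y ^ 2 ≤ 19 * ε * S) (h0 : |r0| ≤ 10 * A * B * κ / ε ^ 2 * Y)
    (h1 : |r1| ≤ 10 * A * B * κ / ε ^ 2 * Y) (h2 : |r2| ≤ 3 * B / ε * S) (g0 : |p0| ≤ 3 * B / ε ^ 2 * Y)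
    (g1 : |p1| ≤ 3 * B / ε ^ 2 * Y) (g4 : |p4| ≤ A * κ / ε * (2 / ε)) :
    r0 ^ 2 + r1 ^ 2 ≤ 4000 * A ^ 2 * B ^ 2 * κ ^ 2 / ε ^ 3 * S ∧
    √(r0 ^ 2 + r1 ^ 2) * √(p0 ^ 2 + p1 ^ 2) + |r2| * |p4| ≤ 4000 * A ^ 2 * B ^ 2 * κ / ε ^ 3 * S := by
  have hA0 : 0 < A := by linarith
  have hB0 : 0 < B := by linarith
  have hκ0 : 0 < κ := by linarith
  have hsq2 : ∀ a b : ℝ, √(a ^ 2 + b ^ 2) ≤ |a| + |b| := by
    intro a b
    rw [Real.sqrt_le_left (by positivity)]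
    have e1 := sq_abs a
    have e2 := sq_abs b
    nlinarith [mul_nonneg (abs_nonneg a) (abs_nonneg b)]
  have c1 : r0 ^ 2 + r1 ^ 2 ≤ 2 * (10 * A * B * κ / ε ^ 2 * Y) ^ 2 := by
    have e1 := pow_le_pow_left₀ (abs_nonneg _) h0 2
    have e2 := pow_le_pow_left₀ (abs_nonneg _) h1 2
    rw [sq_abs] at e1 e2
    linarith only [e1, e2]
  constructor
  · refine c1.trans ?_
    have e1 : 2 * (10 * A * B * κ / ε ^ 2 * Y) ^ 2 = 200 * A ^ 2 * B ^ 2 * κ ^ 2 / ε ^ 4 * Y ^ 2 := by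
      field_simp
      ring
    rw [e1]
    refine (mul_le_mul_of_nonneg_left hCS (by positivity)).trans ?_
    have e2 : 200 * A ^ 2 * B ^ 2 * κ ^ 2 / ε ^ 4 * (19 * ε * S) = 3800 * A ^ 2 * B ^ 2 * κ ^ 2 / ε ^ 3 * S := by
      field_simp
      ring
    rw [e2]
    apply mul_le_mul_of_nonneg_right _ hS0
    apply div_le_div_of_nonneg_right _ (by positivity)
    have e3 : 0 ≤ A ^ 2 * B ^ 2 * κ ^ 2 := by positivity
    nlinarith only [e3]
  · have e1 : √(r0 ^ 2 + r1 ^ 2) ≤ 20 * A * B * κ / ε ^ 2 * Y := by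
      refine (hsq2 _ _).trans ?_
      have e2 : 20 * A * B * κ / ε ^ 2 * Y = 10 * A * B * κ / ε ^ 2 * Y + 10 * A * B * κ / ε ^ 2 * Y := by ring
      rw [e2]
      exact add_le_add h0 h1
    have e3 : √(p0 ^ 2 + p1 ^ 2) ≤ 6 * B / ε ^ 2 * Y := by
      refine (hsq2 _ _).trans ?_
      have e4 : 6 * B / ε ^ 2 * Y = 3 * B / ε ^ 2 * Y + 3 * B / ε ^ 2 * Y := by ring
      rw [e4]
      exact add_le_add g0 g1
    have e5 := mul_le_mul e1 e3 (Real.sqrt_nonneg _) (by positivity)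
    have e6 := mul_le_mul h2 g4 (abs_nonneg _) (by positivity)
    have e7 : 20 * A * B * κ / ε ^ 2 * Y * (6 * B / ε ^ 2 * Y) = 120 * A * B ^ 2 * κ / ε ^ 4 * Y ^ 2 := by
      field_simp
      ring
    rw [e7] at e5
    have e8 : 120 * A * B ^ 2 * κ / ε ^ 4 * Y ^ 2 ≤ 2280 * A * B ^ 2 * κ / ε ^ 3 * S := by
      refine (mul_le_mul_of_nonneg_left hCS (by positivity)).trans (le_of_eq ?_)
      field_simp
      ring
    have e9 : 3 * B / ε * S * (A * κ / ε * (2 / ε)) = 6 * A * B * κ / ε ^ 3 * S := by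
      field_simp
      ring
    rw [e9] at e6
    have e10 : 2280 * A * B ^ 2 * κ / ε ^ 3 * S + 6 * A * B * κ / ε ^ 3 * S ≤
        4000 * A ^ 2 * B ^ 2 * κ / ε ^ 3 * S := by
      rw [← add_mul, ← add_div]
      apply mul_le_mul_of_nonneg_right _ hS0
      apply div_le_div_of_nonneg_right _ (by positivity)
      have f1 : A * B ^ 2 * κ ≤ A ^ 2 * B ^ 2 * κ := by
        have f0 : A ≤ A ^ 2 := by nlinarith only [hA]
        have f2 : 0 ≤ B ^ 2 * κ := by positivity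
        nlinarith only [mul_le_mul_of_nonneg_right f0 f2]
      have f3 : A * B * κ ≤ A * B ^ 2 * κ := by
        have f0 : B ≤ B ^ 2 := by nlinarith only [hB]
        have f2 : 0 ≤ A * κ := by positivity
        nlinarith only [mul_le_mul_of_nonneg_left f0 f2]
      have f4 : 0 ≤ A ^ 2 * B ^ 2 * κ := by positivity
      nlinarith only [f1, f3, f4]
    linarith only [e5, e6, e8, e10]

theorem cNr : ∃ C : ℝ, 1 ≤ C ∧ ∀ (κ N ε : ℝ) (v : E3 → E3), Sl κ N v → 0 < ε → ε ≤ 1 → ∀ x, rad x < 2 * ε →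
    rh ε v 0 x ^ 2 + rh ε v 1 x ^ 2 ≤ C * κ ^ 2 / ε ^ 3 * Y2 ε v (x 2) ∧ TT ε v x ≤ C * κ / ε ^ 3 * Y2 ε v (x 2) := by
  obtain ⟨A, hA, hm2⟩ := m2
  obtain ⟨B, hB, hb⟩ := b_bd
  have hbu0 : ∀ y, 0 ≤ bu y := b_facts.2.1
  have hbuz : ∀ y : ℝ × ℝ, 1 ≤ y.1 ^ 2 + y.2 ^ 2 → bu y = 0 ∧ fderiv ℝ bu y = 0 := b_facts.2.2.2.2.2.1
  refine ⟨4000 * A ^ 2 * B ^ 2, ?_, ?_⟩
  · have h1 : 1 ≤ A ^ 2 := one_le_pow₀ hA
    have h2 : 1 ≤ B ^ 2 := one_le_pow₀ hB
    nlinarith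
  intro κ N ε v h hε hε1 x hx
  have hκ : 1 ≤ κ := h.one
  have hv := h.ax.smooth
  obtain ⟨K, hK0, hK, -, -⟩ := ba_vf h.vf
  have hj : ∀ j : Fin 3, ContDiff ℝ ∞ (fun y => v y j) := fun j => contDiff_euclidean.1 hv j
  set z : ℝ := x 2 with hz
  set c : ℝ := v !₂[3 * ε, 0, z] 2 with hc
  set p : ℝ × ℝ := (x 0, x 1) with hp
  have hpx : p.1 ^ 2 + p.2 ^ 2 < (2 * ε) ^ 2 := by
    have h1 : √(x 0 ^ 2 + x 1 ^ 2) < 2 * ε := hx
    rw [Real.sqrt_lt' (by positivity)] at h1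
    exact h1
  set d : ℝ × ℝ → ℝ := fun q => v (Ck_pt z q) 2 - c with hd
  have hdc : Continuous d := ((hj 2).continuous.comp (Ck_ptc z)).sub continuous_const
  have hdb : ∀ q, |d q| ≤ 2 * K := by
    intro q
    have h1 : |v (Ck_pt z q) 2| ≤ K := (ba_gv (v := v) (Ck_pt z q) 0 0).2.2.2.2.2.1.trans (hK _).1
    have h2 : |c| ≤ K := (ba_gv (v := v) !₂[3 * ε, 0, z] 0 0).2.2.2.2.2.1.trans (hK _).1
    have h3 := abs_sub (v (Ck_pt z q) 2) c
    show |v (Ck_pt z q) 2 - c| ≤ 2 * K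
    linarith
  obtain ⟨iW, hI⟩ := Ck_int hε
  have i1 : IntegrableOn (fun q => |d q| * (Ck_W q)⁻¹) (Ck_D ε) := by
    refine Integrable.mono' (iW.const_mul (2 * K)) ?_ ?_
    · exact (hdc.abs.measurable.mul Ck_Wc.measurable.inv).aestronglyMeasurable
    · refine Filter.Eventually.of_forall fun q => ?_
      rw [Real.norm_eq_abs, abs_mul, abs_abs, abs_of_nonneg (inv_nonneg.2 (Ck_W0 q))]
      exact mul_le_mul_of_nonneg_right (hdb q) (inv_nonneg.2 (Ck_W0 q))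
  have i2 : IntegrableOn (fun q => d q ^ 2 * (Ck_W q)⁻¹) (Ck_D ε) := by
    refine Integrable.mono' (iW.const_mul ((2 * K) ^ 2)) ?_ ?_
    · exact ((hdc.pow 2).measurable.mul Ck_Wc.measurable.inv).aestronglyMeasurable
    · refine Filter.Eventually.of_forall fun q => ?_
      rw [Real.norm_eq_abs, abs_mul, abs_pow, abs_of_nonneg (inv_nonneg.2 (Ck_W0 q))]
      exact mul_le_mul_of_nonneg_right (pow_le_pow_left₀ (abs_nonneg _) (hdb q) 2) (inv_nonneg.2 (Ck_W0 q))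
  have hY2 : Y2 ε v z = ∫ q in Ck_D ε, d q ^ 2 * (Ck_W q)⁻¹ := rfl
  rw [hY2]
  set Y : ℝ := ∫ q in Ck_D ε, |d q| * (Ck_W q)⁻¹ with hY
  set S : ℝ := ∫ q in Ck_D ε, d q ^ 2 * (Ck_W q)⁻¹ with hS
  set I : ℝ := ∫ q in Ck_D ε, (Ck_W q)⁻¹ with hII
  have hY0 : 0 ≤ Y := integral_nonneg fun q => mul_nonneg (abs_nonneg _) (inv_nonneg.2 (Ck_W0 q))
  have hS0 : 0 ≤ S := integral_nonneg fun q => mul_nonneg (sq_nonneg _) (inv_nonneg.2 (Ck_W0 q))
  -- Cauchy-Schwarz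
  have hCS : Y ^ 2 ≤ 19 * ε * S := by
    set t : ℝ := Y / (19 * ε) with ht
    have e1 : 0 ≤ ∫ q in Ck_D ε, (d q ^ 2 * (Ck_W q)⁻¹ + (-(2 * t)) * (|d q| * (Ck_W q)⁻¹) + t ^ 2 * (Ck_W q)⁻¹) := by
      refine integral_nonneg fun q => ?_
      have e2 : d q ^ 2 * (Ck_W q)⁻¹ + (-(2 * t)) * (|d q| * (Ck_W q)⁻¹) + t ^ 2 * (Ck_W q)⁻¹ =
          (|d q| - t) ^ 2 * (Ck_W q)⁻¹ := by
        rw [← sq_abs (d q)]
        ring
      show 0 ≤ d q ^ 2 * (Ck_W q)⁻¹ + (-(2 * t)) * (|d q| * (Ck_W q)⁻¹) + t ^ 2 * (Ck_W q)⁻¹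
      rw [e2]
      exact mul_nonneg (sq_nonneg _) (inv_nonneg.2 (Ck_W0 q))
    have j1 : Integrable (fun q => (-(2 * t)) * (|d q| * (Ck_W q)⁻¹)) (volume.restrict (Ck_D ε)) :=
      i1.const_mul _
    have j2 : Integrable (fun q => d q ^ 2 * (Ck_W q)⁻¹ + (-(2 * t)) * (|d q| * (Ck_W q)⁻¹))
      (volume.restrict (Ck_D ε)) := i2.add j1
    have j3 : Integrable (fun q => t ^ 2 * (Ck_W q)⁻¹) (volume.restrict (Ck_D ε)) := iW.const_mul _
    rw [integral_add j2 j3, integral_add i2 j1, integral_const_mul, integral_const_mul] at e1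
    have e3 : t ^ 2 * I ≤ t ^ 2 * (19 * ε) := mul_le_mul_of_nonneg_left hI (sq_nonneg _)
    have e4 : t * (19 * ε) = Y := by
      rw [ht]
      field_simp
    have e5 : 0 ≤ S + -(2 * t) * Y + t ^ 2 * (19 * ε) := by
      have : 0 ≤ S + -(2 * t) * Y + t ^ 2 * I := e1
      linarith
    have e6 : t ^ 2 * (19 * ε) = t * Y := by
      rw [← e4]
      ring
    rw [e6] at e5
    have e7 : t * Y ≤ S := by linarith
    have e8 := mul_le_mul_of_nonneg_left e7 (by positivity : (0 : ℝ) ≤ 19 * ε)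
    calc Y ^ 2 = 19 * ε * (t * Y) := by
          rw [← e4]
          ring
      _ ≤ 19 * ε * S := e8
  -- bounds of kernels against the oscillation
  have hK1 : ∀ kk : ℝ × ℝ → ℝ, (∀ y, |kk y| ≤ B) → (∀ y : ℝ × ℝ, 1 ≤ y.1 ^ 2 + y.2 ^ 2 → kk y = 0) →
      |∫ y, kk y * (v (x - ε • sh y) 2 - c)| ≤ 3 * B / ε * Y := by
    intro kk hk1 hk2
    have e1 := Ck_cv (F := fun q => |d q| * (Ck_W q)⁻¹) (Φ := fun y => kk y * (v (x - ε • sh y) 2 - c))
      (B := B * (3 * ε)) hε hpx (by positivity)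
      (fun q => mul_nonneg (abs_nonneg _) (inv_nonneg.2 (Ck_W0 q))) i1 (by
        intro y hy hD hne
        have hW := Ck_Wpos hne
        have hW3 := (Ck_WD hε _).1 hD
        show |kk y * (v (x - ε • sh y) 2 - c)| ≤ B * (3 * ε) * (|d (p - ε • y)| * (Ck_W (p - ε • y))⁻¹)
        rw [Ck_ptx, abs_mul]
        have e2 : (1 : ℝ) ≤ 3 * ε * (Ck_W (p - ε • y))⁻¹ := by
          rw [← div_eq_mul_inv, one_le_div hW]
          exact hW3.le
        have e3 : |d (p - ε • y)| ≤ 3 * ε * (Ck_W (p - ε • y))⁻¹ * |d (p - ε • y)| :=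
          le_mul_of_one_le_left (abs_nonneg _) e2
        calc |kk y| * |v (Ck_pt (x 2) ((x 0, x 1) - ε • y)) 2 - c|
            ≤ B * |d (p - ε • y)| := mul_le_mul_of_nonneg_right (hk1 y) (abs_nonneg _)
          _ ≤ B * (3 * ε * (Ck_W (p - ε • y))⁻¹ * |d (p - ε • y)|) := mul_le_mul_of_nonneg_left e3 (by positivity)
          _ = B * (3 * ε) * (|d (p - ε • y)| * (Ck_W (p - ε • y))⁻¹) := by ring)
      (by
        intro y hy
        show kk y * (v (x - ε • sh y) 2 - c) = 0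
        rw [hk2 y hy, zero_mul])
    have e4 : B * (3 * ε) / ε ^ 2 = 3 * B / ε := by
      field_simp
    rw [e4] at e1
    exact e1
  have hbB : ∀ y, |bu y| ≤ B := fun y => by
    rw [abs_of_nonneg (hbu0 y)]
    exact (hb y).1
  have hdm : |hm ε (fun y => v y 2 - c) x| ≤ 3 * B / ε * Y := hK1 bu hbB fun y hy => (hbuz y hy).1
  have hpd0 : |pd 0 (hm ε (fun y => v y 2)) x| ≤ 3 * B / ε ^ 2 * Y := by
    have e1 : pd 0 (hm ε (fun y => v y 2)) x = pd 0 (hm ε (fun y => v y 2 - c)) x := by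
      have e2 : hm ε (fun y => v y 2 - c) = fun x => hm ε (fun y => v y 2) x - c := by
        funext x'
        exact Ck_hmc (hj 2).continuous c ε x'
      rw [e2, Ck_pdc]
    have e3 := (hm_k0 (f := fun y => v y 2 - c) (((hj 2).sub contDiff_const).of_le (by exact_mod_cast le_top)) hε x).1
    rw [e1, e3, abs_div, abs_of_pos hε, div_le_iff₀ hε]
    refine (hK1 (fun y => fderiv ℝ bu y (1, 0)) (fun y => (hb y).2.1) fun y hy => ?_).trans (le_of_eq ?_)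
    · show fderiv ℝ bu y (1, 0) = 0
      rw [(hbuz y hy).2]
      rfl
    · field_simp
  have hpd1 : |pd 1 (hm ε (fun y => v y 2)) x| ≤ 3 * B / ε ^ 2 * Y := by
    have e1 : pd 1 (hm ε (fun y => v y 2)) x = pd 1 (hm ε (fun y => v y 2 - c)) x := by
      have e2 : hm ε (fun y => v y 2 - c) = fun x => hm ε (fun y => v y 2) x - c := by
        funext x'
        exact Ck_hmc (hj 2).continuous c ε x'
      rw [e2, Ck_pdc]
    have e3 := (hm_k0 (f := fun y => v y 2 - c) (((hj 2).sub contDiff_const).of_le (by exact_mod_cast le_top)) hε x).2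
    rw [e1, e3, abs_div, abs_of_pos hε, div_le_iff₀ hε]
    refine (hK1 (fun y => fderiv ℝ bu y (0, 1)) (fun y => (hb y).2.2) fun y hy => ?_).trans (le_of_eq ?_)
    · show fderiv ℝ bu y (0, 1) = 0
      rw [(hbuz y hy).2]
      rfl
    · field_simp
  -- squares
  have hsq : hm ε (fun y => (v y 2 - c) ^ 2) x ≤ 3 * B / ε * S := by
    have e1 := Ck_cv (F := fun q => d q ^ 2 * (Ck_W q)⁻¹) (Φ := fun y => bu y * (v (x - ε • sh y) 2 - c) ^ 2)
      (B := B * (3 * ε)) hε hpx (by positivity)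
      (fun q => mul_nonneg (sq_nonneg _) (inv_nonneg.2 (Ck_W0 q))) i2 (by
        intro y hy hD hne
        have hW := Ck_Wpos hne
        have hW3 := (Ck_WD hε _).1 hD
        show |bu y * (v (x - ε • sh y) 2 - c) ^ 2| ≤ B * (3 * ε) * (d (p - ε • y) ^ 2 * (Ck_W (p - ε • y))⁻¹)
        rw [Ck_ptx, abs_mul, abs_of_nonneg (sq_nonneg (v (Ck_pt (x 2) ((x 0, x 1) - ε • y)) 2 - c))]
        have e2 : (1 : ℝ) ≤ 3 * ε * (Ck_W (p - ε • y))⁻¹ := by
          rw [← div_eq_mul_inv, one_le_div hW]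
          exact hW3.le
        have e3 : d (p - ε • y) ^ 2 ≤ 3 * ε * (Ck_W (p - ε • y))⁻¹ * d (p - ε • y) ^ 2 :=
          le_mul_of_one_le_left (sq_nonneg _) e2
        calc |bu y| * (v (Ck_pt (x 2) ((x 0, x 1) - ε • y)) 2 - c) ^ 2
            ≤ B * d (p - ε • y) ^ 2 := mul_le_mul_of_nonneg_right (hbB y) (sq_nonneg _)
          _ ≤ B * (3 * ε * (Ck_W (p - ε • y))⁻¹ * d (p - ε • y) ^ 2) := mul_le_mul_of_nonneg_left e3 (by positivity)
          _ = B * (3 * ε) * (d (p - ε • y) ^ 2 * (Ck_W (p - ε • y))⁻¹) := by ring)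
      (by
        intro y hy
        show bu y * (v (x - ε • sh y) 2 - c) ^ 2 = 0
        rw [(hbuz y hy).1, zero_mul])
    have e4 : B * (3 * ε) / ε ^ 2 = 3 * B / ε := by
      field_simp
    rw [e4] at e1
    exact (le_abs_self _).trans e1
  -- products with the horizontal components
  have hpr : ∀ a : Fin 3, (∀ y, |v y a| ≤ hn v y) → |hm ε (fun y => v y a * (v y 2 - c)) x| ≤ 4 * κ * B / ε ^ 2 * Y := by
    intro a ha
    have e1 := Ck_cv (F := fun q => |d q| * (Ck_W q)⁻¹) (Φ := fun y => bu y * (v (x - ε • sh y) a * (v (x - ε • sh y) 2 - c)))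
      (B := 4 * κ * B) hε hpx (by positivity)
      (fun q => mul_nonneg (abs_nonneg _) (inv_nonneg.2 (Ck_W0 q))) i1 (by
        intro y hy hD hne
        have hW := Ck_Wpos hne
        have hW3 := (Ck_WD hε _).1 hD
        show |bu y * (v (x - ε • sh y) a * (v (x - ε • sh y) 2 - c))| ≤ 4 * κ * B * (|d (p - ε • y)| * (Ck_W (p - ε • y))⁻¹)
        rw [Ck_ptx, abs_mul, abs_mul]
        have e2 : |v (Ck_pt (x 2) ((x 0, x 1) - ε • y)) a| ≤ 4 * κ * (Ck_W (p - ε • y))⁻¹ := by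
          refine (ha _).trans ?_
          have e3 := h.hor (Ck_pt (x 2) ((x 0, x 1) - ε • y))
          rw [Ck_rad] at e3
          rw [← div_eq_mul_inv, le_div_iff₀ hW]
          have e4 : κ * (1 + Ck_W (p - ε • y)) ≤ 4 * κ := by nlinarith
          have e5 : Ck_W (p - ε • y) * hn v (Ck_pt (x 2) ((x 0, x 1) - ε • y)) ≤ κ * (1 + Ck_W (p - ε • y)) := e3
          linarith
        calc |bu y| * (|v (Ck_pt (x 2) ((x 0, x 1) - ε • y)) a| * |v (Ck_pt (x 2) ((x 0, x 1) - ε • y)) 2 - c|)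
            ≤ B * (4 * κ * (Ck_W (p - ε • y))⁻¹ * |d (p - ε • y)|) := by
              apply mul_le_mul (hbB y) _ (by positivity) (by positivity)
              exact mul_le_mul_of_nonneg_right e2 (abs_nonneg _)
          _ = 4 * κ * B * (|d (p - ε • y)| * (Ck_W (p - ε • y))⁻¹) := by ring)
      (by
        intro y hy
        show bu y * (v (x - ε • sh y) a * (v (x - ε • sh y) 2 - c)) = 0
        rw [(hbuz y hy).1, zero_mul])
    exact e1
  obtain ⟨n0, n1, -, -, n4⟩ := hm2 κ N ε v h hε hε1 x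
  have hmax : 1 / max (rad x) ε + 1 ≤ 2 / ε := by
    have e1 : 1 / max (rad x) ε ≤ 1 / ε := one_div_le_one_div_of_le hε (le_max_right _ _)
    have e2 : 1 ≤ 1 / ε := by
      rw [one_le_div hε]
      exact hε1
    have e3 : 2 / ε = 1 / ε + 1 / ε := by ring
    rw [e3]
    linarith
  have hAκ : 0 ≤ A * κ := by positivity
  have q0 : |hm ε (fun y => v y 0) x| ≤ A * κ * (2 / ε) := n0.trans (mul_le_mul_of_nonneg_left hmax hAκ)
  have q1 : |hm ε (fun y => v y 1) x| ≤ A * κ * (2 / ε) := n1.trans (mul_le_mul_of_nonneg_left hmax hAκ)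
  have q4 : |pd 2 (hm ε (fun y => v y 2)) x| ≤ A * κ / ε * (2 / ε) :=
    n4.trans (mul_le_mul_of_nonneg_left hmax (by positivity))
  have hrh : ∀ a : Fin 3, (∀ y, |v y a| ≤ hn v y) → |hm ε (fun y => v y a) x| ≤ A * κ * (2 / ε) →
      |rh ε v a x| ≤ 10 * A * B * κ / ε ^ 2 * Y := by
    intro a ha hq
    rw [Ck_rh hv c]
    refine (abs_sub _ _).trans ?_
    rw [abs_mul]
    have e1 := hpr a ha
    have e2 := mul_le_mul hq hdm (abs_nonneg _) (by positivity)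
    have e3 : A * κ * (2 / ε) * (3 * B / ε * Y) = 6 * A * B * κ / ε ^ 2 * Y := by
      field_simp
      ring
    rw [e3] at e2
    have e4 : 4 * κ * B / ε ^ 2 * Y ≤ 4 * A * B * κ / ε ^ 2 * Y := by
      apply mul_le_mul_of_nonneg_right _ hY0
      apply div_le_div_of_nonneg_right _ (by positivity)
      nlinarith [mul_nonneg (by positivity : (0 : ℝ) ≤ 4 * κ * B) (by linarith : (0 : ℝ) ≤ A - 1)]
    have e5 : 10 * A * B * κ / ε ^ 2 * Y = 4 * A * B * κ / ε ^ 2 * Y + 6 * A * B * κ / ε ^ 2 * Y := by ring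
    rw [e5]
    linarith
  have r0 := hrh 0 (fun y => (Ck_ha v y).1) q0
  have r1 := hrh 1 (fun y => (Ck_ha v y).2) q1
  have r2 : |rh ε v 2 x| ≤ 3 * B / ε * S := by
    have e1 : rh ε v 2 x = hm ε (fun y => (v y 2 - c) ^ 2) x - (hm ε (fun y => v y 2 - c) x) ^ 2 := by
      rw [Ck_rh hv c]
      have e2 := hm_add (f := fun y => (v y 2 - c) ^ 2) (g := fun y => c * (v y 2 - c))
        (((hj 2).continuous.sub (continuous_const (y := c))).pow 2)
        (((hj 2).continuous.sub (continuous_const (y := c))).const_mul c) ε x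
      rw [hm_cm] at e2
      have e3 : (fun y => v y 2 * (v y 2 - c)) = fun y => (v y 2 - c) ^ 2 + c * (v y 2 - c) := by
        funext y
        ring
      rw [e3, e2]
      have e4 := Ck_hmc (hj 2).continuous c ε x
      have e5 : hm ε (fun y => v y 2) x = hm ε (fun y => v y 2 - c) x + c := by
        rw [e4]
        ring
      rw [e5]
      ring
    have e6 := hm_sq (f := fun y => v y 2 - c) ((hj 2).continuous.sub continuous_const) ε x
    rw [abs_of_nonneg (by rw [e1]; linarith), e1]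
    have e7 := sq_nonneg (hm ε (fun y => v y 2 - c) x)
    linarith
  exact Ck_fin hA hB hκ hε hY0 hS0 hCS r0 r1 r2 hpd0 hpd1 q4

end Pool.Agent.H16.TU
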