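/-
ROW Cl (MP_09540e_TU). Hardy's inequality near the axis. PROOF. hardy: for φ of class C¹ on [0, ρ]: let f = φ - φ(ρ): `∫_0^ρ f² ds = [s f²]_0^ρ - ∫ 2 s f f' = - 2 ∫ s f f' ≤ 2 (∫ f²)^(1/2) (∫ s² f'²)^(1/2)`, so `∫ f² ≤ 4 ∫ s² f'²` (or with Young: `2|s f f'| ≤ f²/2 + 2 s² f'²`).
y2h: v₂ is invariant under rotations (h.ax.ax, rot_two'), so `v₂(q, z) = φ(|q|)` with `φ s = v₂(s, 0, z)` (for every q there is θ with rot θ (|q|,0,z) = (q,z); KSym_trig) and in polar coordinates (Cyl_polar / lintegral_comp_polarCoord_symm) `Y2 = 2π ∫_0^{3ε} (φ s - φ(3ε))² ds ≤ 8π ∫_0^{3ε} s² φ'(s)² ds = 4 ∫_{D3} |q| φ'(|q|)² dq`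
and `φ'(s)² = (pd 0 v₂ (s,0,z))² ≤ (hg v₂ (s,0,z))² = (hg v₂ (q,z))²` for |q| = s (hg of a rotation invariant function is rotation invariant: by rot_inv, or from f(rot θ x) = f x: fderiv_rot-type computation). cNi: E3 integrals as iterated integrals over z and the plane (Cyl_mp in H72/CC/Cyl.lean): the left side is
`∫_z Y2(z) ∫_{|q|<2ε} Φ(q,z)`, `Φ(q, z) ≤ 64·5⁶ Φ(q', z)` for |q - q'| ≤ 5ε ≤ 5R₁ (wt_cmp), area 4πε²: `≤ 4πε² C ∫_z ∫_{D3} 4 |q'| (hg v₂)²(q',z) Φ(q',z)`.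
-/
import Pool.Agent.H16.TU.Ck
import Pool.Agent.H16.TU.Ad0

set_option autoImplicit false

open Set Filter Topology MeasureTheory
open scoped ContDiff

namespace Pool.Agent.H16.TU

open Pool.Agent.H16 Pool.Agent.H87.NS Pool.Agent.H72.CC

theorem hardy {φ : ℝ → ℝ} {ρ : ℝ} (hρ : 0 < ρ) (hφ : ContDiff ℝ 1 φ) :
    ∫ s in (0:ℝ)..ρ, (φ s - φ ρ) ^ 2 ≤ 4 * ∫ s in (0:ℝ)..ρ, s ^ 2 * deriv φ s ^ 2 := by
  have hd : ∀ s, HasDerivAt φ (deriv φ s) s := fun s =>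
    (hφ.differentiable one_ne_zero s).hasDerivAt
  have hc : Continuous φ := hφ.continuous
  have hc' : Continuous (deriv φ) := hφ.continuous_deriv le_rfl
  have cA : Continuous (fun s => (φ s - φ ρ) ^ 2) := by fun_prop
  have cB : Continuous (fun s => s ^ 2 * deriv φ s ^ 2) := by fun_prop
  have h1 : ∫ s in (0:ℝ)..ρ, ((φ s - φ ρ) ^ 2 + s * (2 * (φ s - φ ρ) * deriv φ s)) =
      ρ * (φ ρ - φ ρ) ^ 2 - 0 * (φ 0 - φ ρ) ^ 2 := by
    refine intervalIntegral.integral_eq_sub_of_hasDerivAt (f := fun s => s * (φ s - φ ρ) ^ 2)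
      ?_ ?_
    · intro s _
      have h2 : HasDerivAt (fun s => (φ s - φ ρ) ^ 2) (2 * (φ s - φ ρ) * deriv φ s) s := by
        have h3 := ((hd s).sub_const (φ ρ)).pow 2
        refine h3.congr_deriv ?_
        norm_num
      have h3 := (hasDerivAt_id s).mul h2
      refine h3.congr_deriv ?_
      simp only [id]
      ring
    · exact Continuous.intervalIntegrable (by fun_prop) _ _
  have h2 : ∫ s in (0:ℝ)..ρ, (1 / 2 * (φ s - φ ρ) ^ 2 - 2 * (s ^ 2 * deriv φ s ^ 2)) ≤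
      ∫ s in (0:ℝ)..ρ, ((φ s - φ ρ) ^ 2 + s * (2 * (φ s - φ ρ) * deriv φ s)) := by
    refine intervalIntegral.integral_mono_on hρ.le (Continuous.intervalIntegrable (by fun_prop) _ _)
      (Continuous.intervalIntegrable (by fun_prop) _ _) ?_
    intro s _
    nlinarith [sq_nonneg ((φ s - φ ρ) + 2 * (s * deriv φ s))]
  rw [h1, intervalIntegral.integral_sub ((cA.const_mul (1 / 2)).intervalIntegrable _ _)
    ((cB.const_mul 2).intervalIntegrable _ _),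
    intervalIntegral.integral_const_mul, intervalIntegral.integral_const_mul, sub_self] at h2
  have h3 : ρ * (0:ℝ) ^ 2 - 0 * (φ 0 - φ ρ) ^ 2 = 0 := by ring
  rw [h3] at h2
  linarith

theorem Cl_meas (ρ : ℝ) : MeasurableSet {q : ℝ × ℝ | q.1 ^ 2 + q.2 ^ 2 < ρ ^ 2} :=
  (isOpen_lt (by fun_prop) (by fun_prop)).measurableSet

theorem Cl_polar {F : ℝ × ℝ → ℝ} {G : ℝ → ℝ} {ρ : ℝ} (hρ : 0 < ρ)
    (hF : ∀ r θ : ℝ, 0 < r → F (r * Real.cos θ, r * Real.sin θ) = G r) :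
    ∫ q in {q : ℝ × ℝ | q.1 ^ 2 + q.2 ^ 2 < ρ ^ 2}, F q =
      2 * Real.pi * ∫ r in (0:ℝ)..ρ, r * G r := by
  rw [← integral_indicator (Cl_meas ρ), ← integral_comp_polarCoord_symm]
  have h1 : ∫ p in polarCoord.target,
      p.1 • indicator {q : ℝ × ℝ | q.1 ^ 2 + q.2 ^ 2 < ρ ^ 2} F (polarCoord.symm p) =
      ∫ p in polarCoord.target, (indicator (Iio ρ) (fun r => r * G r) p.1) * (1 : ℝ) := by
    refine setIntegral_congr_fun polarCoord.open_target.measurableSet ?_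
    intro p hp
    rw [polarCoord_target, mem_prod] at hp
    have hp0 : 0 < p.1 := hp.1
    change p.1 • indicator {q : ℝ × ℝ | q.1 ^ 2 + q.2 ^ 2 < ρ ^ 2} F
      (p.1 * Real.cos p.2, p.1 * Real.sin p.2) = indicator (Iio ρ) (fun r => r * G r) p.1 * (1 : ℝ)
    have h2 : (p.1 * Real.cos p.2) ^ 2 + (p.1 * Real.sin p.2) ^ 2 = p.1 ^ 2 := by
      have := Real.sin_sq_add_cos_sq p.2
      linear_combination p.1 ^ 2 * this
    by_cases h : p.1 < ρ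
    · have h3 : (p.1 * Real.cos p.2, p.1 * Real.sin p.2) ∈
          {q : ℝ × ℝ | q.1 ^ 2 + q.2 ^ 2 < ρ ^ 2} := by
        change (p.1 * Real.cos p.2) ^ 2 + (p.1 * Real.sin p.2) ^ 2 < ρ ^ 2
        rw [h2]
        exact pow_lt_pow_left₀ h hp0.le two_ne_zero
      have h4 : p.1 ∈ Iio ρ := h
      rw [indicator_of_mem h3, indicator_of_mem h4, hF _ _ hp0, smul_eq_mul, mul_one]
    · have h3 : (p.1 * Real.cos p.2, p.1 * Real.sin p.2) ∉
          {q : ℝ × ℝ | q.1 ^ 2 + q.2 ^ 2 < ρ ^ 2} := by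
        intro h5
        change (p.1 * Real.cos p.2) ^ 2 + (p.1 * Real.sin p.2) ^ 2 < ρ ^ 2 at h5
        rw [h2] at h5
        exact h (lt_of_pow_lt_pow_left₀ 2 hρ.le h5)
      have h4 : p.1 ∉ Iio ρ := h
      rw [indicator_of_notMem h3, indicator_of_notMem h4, smul_zero, zero_mul]
  rw [h1, polarCoord_target, Measure.volume_eq_prod,
    setIntegral_prod_mul (fun r => indicator (Iio ρ) (fun r => r * G r) r) (fun _ => (1 : ℝ)),
    setIntegral_indicator measurableSet_Iio, Ioi_inter_Iio, ← integral_Ioc_eq_integral_Ioo,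
    ← intervalIntegral.integral_of_le hρ.le]
  have h2 : ∫ _y in Ioo (-Real.pi) Real.pi, (1 : ℝ) = 2 * Real.pi := by
    rw [setIntegral_const, smul_eq_mul, mul_one, Measure.real, Real.volume_Ioo,
      ENNReal.toReal_ofReal (by linarith [Real.pi_pos])]
    ring
  rw [h2]
  ring

theorem Cl_rot (θ r z : ℝ) : rot θ !₂[r, 0, z] = !₂[r * Real.cos θ, r * Real.sin θ, z] := by
  apply ext3
  · rw [rot_zero']
    change Real.cos θ * r - Real.sin θ * 0 = r * Real.cos θ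
    ring
  · rw [rot_one']
    change Real.sin θ * r + Real.cos θ * 0 = r * Real.sin θ
    ring
  · rw [rot_two']
    rfl

theorem Cl_hg {f : E3 → ℝ} (hf : Differentiable ℝ f) (hr : ∀ θ x, f (rot θ x) = f x) (θ : ℝ)
    (x : E3) : hg f (rot θ x) = hg f x := by
  have h1 : ∀ w, fderiv ℝ f (rot θ x) (rot θ w) = fderiv ℝ f x w := by
    intro w
    have h1 : HasFDerivAt (fun y => f (rotL θ y))
        ((fderiv ℝ f (rot θ x)).comp (rotL θ).toContinuousLinearEquiv.toContinuousLinearMap) x :=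
      (hf (rot θ x)).hasFDerivAt.comp x
        (rotL θ).toContinuousLinearEquiv.toContinuousLinearMap.hasFDerivAt
    have h3 : (fun y => f (rotL θ y)) = f := by
      ext1 y
      exact hr θ y
    rw [h3] at h1
    have h4 := congrArg (fun L => L w) (h1.unique (hf x).hasFDerivAt)
    simpa using h4
  have e0 : rot θ (e 0) = Real.cos θ • e 0 + Real.sin θ • e 1 := by
    apply ext3 <;> simp [e_apply]
  have e1 : rot θ (e 1) = (-Real.sin θ) • e 0 + Real.cos θ • e 1 := by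
    apply ext3 <;> simp [e_apply]
  have p0 : Real.cos θ * pd 0 f (rot θ x) + Real.sin θ * pd 1 f (rot θ x) = pd 0 f x := by
    have h2 := h1 (e 0)
    rw [e0, map_add, map_smul, map_smul] at h2
    exact h2
  have p1 : (-Real.sin θ) * pd 0 f (rot θ x) + Real.cos θ * pd 1 f (rot θ x) = pd 1 f x := by
    have h2 := h1 (e 1)
    rw [e1, map_add, map_smul, map_smul] at h2
    exact h2
  unfold hg
  congr 1
  rw [← p0, ← p1]
  have h5 := Real.sin_sq_add_cos_sq θ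
  linear_combination (-(pd 0 f (rot θ x) ^ 2 + pd 1 f (rot θ x) ^ 2)) * h5

theorem Cl_sm {κ N : ℝ} {v : E3 → E3} (h : Sl κ N v) : ContDiff ℝ ∞ (fun y => v y 2) :=
  (EuclideanSpace.proj 2 : E3 →L[ℝ] ℝ).contDiff.comp h.ax.smooth

theorem Cl_inv {κ N : ℝ} {v : E3 → E3} (h : Sl κ N v) (θ : ℝ) (x : E3) :
    v (rot θ x) 2 = v x 2 := by
  rw [h.ax.ax, rot_two']

theorem Cl_hgc {κ N : ℝ} {v : E3 → E3} (h : Sl κ N v) : Continuous (hg (fun y => v y 2)) := by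
  have h0 : Continuous (pd 0 (fun y => v y 2)) := (pd_smooth (Cl_sm h) 0).continuous
  have h1 : Continuous (pd 1 (fun y => v y 2)) := (pd_smooth (Cl_sm h) 1).continuous
  exact ((h0.pow 2).add (h1.pow 2)).sqrt

theorem Cl_line (s z : ℝ) : HasDerivAt (fun t : ℝ => (!₂[t, 0, z] : E3)) (e 0) s := by
  apply hasDerivAt_e3
  intro i
  fin_cases i
  · have h1 : (e 0 : E3) 0 = 1 := by simp [e_apply]
    change HasDerivAt (fun t : ℝ => t) ((e 0 : E3) 0) s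
    rw [h1]
    exact hasDerivAt_id s
  · have h1 : (e 0 : E3) 1 = 0 := by simp [e_apply]
    change HasDerivAt (fun _ : ℝ => (0 : ℝ)) ((e 0 : E3) 1) s
    rw [h1]
    exact hasDerivAt_const s _
  · have h1 : (e 0 : E3) 2 = 0 := by simp [e_apply]
    change HasDerivAt (fun _ : ℝ => z) ((e 0 : E3) 2) s
    rw [h1]
    exact hasDerivAt_const s _

theorem Cl_lsm (z : ℝ) : ContDiff ℝ 1 (fun t : ℝ => (!₂[t, 0, z] : E3)) := by
  rw [contDiff_euclidean]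
  intro i
  fin_cases i
  · exact contDiff_id
  · exact contDiff_const
  · exact contDiff_const

theorem Cl_mk : Continuous (fun p : ℝ × (ℝ × ℝ) => (!₂[p.2.1, p.2.2, p.1] : E3)) := by
  have h : ContDiff ℝ 0 (fun p : ℝ × (ℝ × ℝ) => (!₂[p.2.1, p.2.2, p.1] : E3)) := by
    rw [contDiff_euclidean]
    intro i
    fin_cases i
    · exact contDiff_fst.comp contDiff_snd
    · exact contDiff_snd.comp contDiff_snd
    · exact contDiff_fst
  exact h.continuous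

theorem Cl_Y2 {κ N ε : ℝ} {v : E3 → E3} (h : Sl κ N v) (hε : 0 < ε) (z : ℝ) :
    Y2 ε v z = 2 * Real.pi *
      ∫ s in (0:ℝ)..(3 * ε), (v !₂[s, 0, z] 2 - v !₂[3 * ε, 0, z] 2) ^ 2 := by
  have hs : {q : ℝ × ℝ | q.1 ^ 2 + q.2 ^ 2 < 9 * ε ^ 2} =
      {q : ℝ × ℝ | q.1 ^ 2 + q.2 ^ 2 < (3 * ε) ^ 2} := by
    have h1 : 9 * ε ^ 2 = (3 * ε) ^ 2 := by ring
    rw [h1]
  unfold Y2
  rw [hs, Cl_polar (G := fun r => (v !₂[r, 0, z] 2 - v !₂[3 * ε, 0, z] 2) ^ 2 / r)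
    (by positivity : 0 < 3 * ε)]
  · congr 1
    refine intervalIntegral.integral_congr_ae (Eventually.of_forall fun r hr => ?_)
    rw [uIoc_of_le (by positivity : (0:ℝ) ≤ 3 * ε)] at hr
    have hr0 : r ≠ 0 := hr.1.ne'
    field_simp
  · intro r θ hr
    have h1 : v !₂[r * Real.cos θ, r * Real.sin θ, z] 2 = v !₂[r, 0, z] 2 := by
      rw [← Cl_rot, Cl_inv h]
    have h2 : √((r * Real.cos θ) ^ 2 + (r * Real.sin θ) ^ 2) = r := by
      have h3 : (r * Real.cos θ) ^ 2 + (r * Real.sin θ) ^ 2 = r ^ 2 := by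
        have := Real.sin_sq_add_cos_sq θ
        linear_combination r ^ 2 * this
      rw [h3, Real.sqrt_sq hr.le]
    change (v !₂[r * Real.cos θ, r * Real.sin θ, z] 2 - v !₂[3 * ε, 0, z] 2) ^ 2 /
      √((r * Real.cos θ) ^ 2 + (r * Real.sin θ) ^ 2) = _
    rw [h1, h2]

theorem Cl_R {κ N ε : ℝ} {v : E3 → E3} (h : Sl κ N v) (hε : 0 < ε) (z : ℝ) :
    ∫ q in {q : ℝ × ℝ | q.1 ^ 2 + q.2 ^ 2 < 9 * ε ^ 2},
      √(q.1 ^ 2 + q.2 ^ 2) * (hg (fun y => v y 2) !₂[q.1, q.2, z]) ^ 2 =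
    2 * Real.pi * ∫ r in (0:ℝ)..(3 * ε), r * (r * (hg (fun y => v y 2) !₂[r, 0, z]) ^ 2) := by
  have hs : {q : ℝ × ℝ | q.1 ^ 2 + q.2 ^ 2 < 9 * ε ^ 2} =
      {q : ℝ × ℝ | q.1 ^ 2 + q.2 ^ 2 < (3 * ε) ^ 2} := by
    have h1 : 9 * ε ^ 2 = (3 * ε) ^ 2 := by ring
    rw [h1]
  rw [hs, Cl_polar (G := fun r => r * (hg (fun y => v y 2) !₂[r, 0, z]) ^ 2)
    (by positivity : 0 < 3 * ε)]
  intro r θ hr
  have h1 : hg (fun y => v y 2) !₂[r * Real.cos θ, r * Real.sin θ, z] =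
      hg (fun y => v y 2) !₂[r, 0, z] := by
    rw [← Cl_rot, Cl_hg ((Cl_sm h).differentiable (by norm_num)) (fun θ x => Cl_inv h θ x)]
  have h2 : √((r * Real.cos θ) ^ 2 + (r * Real.sin θ) ^ 2) = r := by
    have h3 : (r * Real.cos θ) ^ 2 + (r * Real.sin θ) ^ 2 = r ^ 2 := by
      have := Real.sin_sq_add_cos_sq θ
      linear_combination r ^ 2 * this
    rw [h3, Real.sqrt_sq hr.le]
  change √((r * Real.cos θ) ^ 2 + (r * Real.sin θ) ^ 2) *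
    (hg (fun y => v y 2) !₂[r * Real.cos θ, r * Real.sin θ, z]) ^ 2 = _
  rw [h1, h2]

theorem y2h {κ N ε : ℝ} {v : E3 → E3} (h : Sl κ N v) (hε : 0 < ε) (z : ℝ) :
    Y2 ε v z ≤ 4 * ∫ q in {q : ℝ × ℝ | q.1 ^ 2 + q.2 ^ 2 < 9 * ε ^ 2}, √(q.1 ^ 2 + q.2 ^ 2) * (hg (fun y => v y 2) !₂[q.1, q.2, z]) ^ 2 := by
  rw [Cl_Y2 h hε, Cl_R h hε]
  obtain ⟨φ, hφ⟩ : ∃ φ : ℝ → ℝ, φ = fun s => v !₂[s, 0, z] 2 := ⟨_, rfl⟩
  have hsm := Cl_sm h
  have hφ1 : ContDiff ℝ 1 φ := by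
    rw [hφ]
    exact (hsm.of_le (by norm_cast)).comp (Cl_lsm z)
  have hφd : ∀ s, deriv φ s = pd 0 (fun y => v y 2) !₂[s, 0, z] := by
    intro s
    rw [hφ]
    exact (((hsm.differentiable (by norm_num)) !₂[s, 0, z]).hasFDerivAt.comp_hasDerivAt s
      (Cl_line s z)).deriv
  have h1 := hardy (by positivity : 0 < 3 * ε) hφ1
  have h2 : ∫ s in (0:ℝ)..(3 * ε), s ^ 2 * deriv φ s ^ 2 ≤
      ∫ r in (0:ℝ)..(3 * ε), r * (r * (hg (fun y => v y 2) !₂[r, 0, z]) ^ 2) := by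
    have hc' : Continuous (deriv φ) := hφ1.continuous_deriv le_rfl
    have hl : Continuous (fun r : ℝ => hg (fun y => v y 2) !₂[r, 0, z]) :=
      (Cl_hgc h).comp (Cl_lsm z).continuous
    refine intervalIntegral.integral_mono_on (by positivity)
      (Continuous.intervalIntegrable (by fun_prop) _ _)
      (Continuous.intervalIntegrable (by fun_prop) _ _) ?_
    intro s _
    have h3 : deriv φ s ^ 2 ≤ (hg (fun y => v y 2) !₂[s, 0, z]) ^ 2 := by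
      rw [hφd]
      unfold hg
      rw [Real.sq_sqrt (by positivity)]
      exact le_add_of_nonneg_right (sq_nonneg _)
    have h4 : s * (s * (hg (fun y => v y 2) !₂[s, 0, z]) ^ 2) =
        s ^ 2 * (hg (fun y => v y 2) !₂[s, 0, z]) ^ 2 := by ring
    rw [h4]
    exact mul_le_mul_of_nonneg_left h3 (sq_nonneg _)
  have h5 : ∫ s in (0:ℝ)..(3 * ε), (v !₂[s, 0, z] 2 - v !₂[3 * ε, 0, z] 2) ^ 2 =
      ∫ s in (0:ℝ)..(3 * ε), (φ s - φ (3 * ε)) ^ 2 := by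
    rw [hφ]
  rw [h5]
  have hπ := Real.pi_pos
  have h6 : ∫ s in (0:ℝ)..(3 * ε), (φ s - φ (3 * ε)) ^ 2 ≤
      4 * ∫ r in (0:ℝ)..(3 * ε), r * (r * (hg (fun y => v y 2) !₂[r, 0, z]) ^ 2) := by linarith
  have h7 := mul_le_mul_of_nonneg_left h6 (by positivity : 0 ≤ 2 * Real.pi)
  linarith

theorem Cl_emb : MeasurableEmbedding (fun x : E3 => (x 2, ((x 0, x 1) : ℝ × ℝ))) := by
  refine Continuous.measurableEmbedding ?_ ?_
  · have h : ∀ i : Fin 3, Continuous (fun x : E3 => x i) := fun i =>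
      (EuclideanSpace.proj i : E3 →L[ℝ] ℝ).continuous
    exact (h 2).prodMk ((h 0).prodMk (h 1))
  · intro x y hxy
    have h1 : x 2 = y 2 := congrArg Prod.fst hxy
    have h2 := congrArg Prod.snd hxy
    have h3 : x 0 = y 0 := congrArg Prod.fst h2
    have h4 : x 1 = y 1 := congrArg Prod.snd h2
    exact ext3 h3 h4 h1

theorem Cl_set {ρ : ℝ} (hρ : 0 < ρ) : {x : E3 | rad x < ρ} =
    (fun x : E3 => (x 2, ((x 0, x 1) : ℝ × ℝ))) ⁻¹'
      (univ ×ˢ {q : ℝ × ℝ | q.1 ^ 2 + q.2 ^ 2 < ρ ^ 2}) := by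
  ext x
  constructor
  · intro hx
    refine ⟨mem_univ _, ?_⟩
    exact (Real.sqrt_lt' hρ).1 hx
  · rintro ⟨-, hx⟩
    exact (Real.sqrt_lt' hρ).2 hx

theorem Cl_msr (D : Set (ℝ × ℝ)) : (volume : Measure (ℝ × (ℝ × ℝ))).restrict (univ ×ˢ D) =
    (volume : Measure ℝ).prod ((volume : Measure (ℝ × ℝ)).restrict D) := by
  rw [Measure.volume_eq_prod, ← Measure.prod_restrict, Measure.restrict_univ]

theorem Cl_tr (F : E3 → ℝ) {ρ : ℝ} (hρ : 0 < ρ) :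
    ∫ x in {x : E3 | rad x < ρ}, F x = ∫ p : ℝ × (ℝ × ℝ), F !₂[p.2.1, p.2.2, p.1]
      ∂((volume : Measure ℝ).prod
        ((volume : Measure (ℝ × ℝ)).restrict {q : ℝ × ℝ | q.1 ^ 2 + q.2 ^ 2 < ρ ^ 2})) := by
  rw [Cl_set hρ, ← Cl_msr, ← Cyl_mp.setIntegral_preimage_emb Cl_emb]
  refine setIntegral_congr_fun (Cl_emb.measurable (MeasurableSet.univ.prod (Cl_meas ρ))) ?_
  intro x _
  have h1 : (!₂[x 0, x 1, x 2] : E3) = x := by
    apply ext3 <;> rfl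
  change F x = F !₂[x 0, x 1, x 2]
  rw [h1]

theorem Cl_tri {F : E3 → ℝ} {ρ : ℝ} (hρ : 0 < ρ) (hF : IntegrableOn F {x : E3 | rad x < ρ}) :
    Integrable (fun p : ℝ × (ℝ × ℝ) => F !₂[p.2.1, p.2.2, p.1])
      ((volume : Measure ℝ).prod
        ((volume : Measure (ℝ × ℝ)).restrict {q : ℝ × ℝ | q.1 ^ 2 + q.2 ^ 2 < ρ ^ 2})) := by
  rw [← Cl_msr]
  rw [Cl_set hρ] at hF
  refine (Cyl_mp.integrableOn_comp_preimage Cl_emb).1 ?_
  refine hF.congr_fun ?_ (Cl_emb.measurable (MeasurableSet.univ.prod (Cl_meas ρ)))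
  intro x _
  have h1 : (!₂[x 0, x 1, x 2] : E3) = x := by
    apply ext3 <;> rfl
  change F x = F !₂[x 0, x 1, x 2]
  rw [h1]

theorem Cl_area {ρ : ℝ} (hρ : 0 < ρ) :
    ∫ _q in {q : ℝ × ℝ | q.1 ^ 2 + q.2 ^ 2 < ρ ^ 2}, (1 : ℝ) = Real.pi * ρ ^ 2 := by
  rw [Cl_polar (G := fun _ => 1) hρ (fun _ _ _ => rfl)]
  simp only [mul_one]
  rw [integral_id]
  ring

theorem Cl_fin {ρ : ℝ} (hρ : 0 < ρ) :
    (volume : Measure (ℝ × ℝ)) {q : ℝ × ℝ | q.1 ^ 2 + q.2 ^ 2 < ρ ^ 2} < ⊤ := by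
  refine lt_of_le_of_lt (measure_mono ?_)
    (measure_Icc_lt_top (a := ((-ρ, -ρ) : ℝ × ℝ)) (b := (ρ, ρ)))
  intro q hq
  have hq' : q.1 ^ 2 + q.2 ^ 2 < ρ ^ 2 := hq
  have h1 : |q.1| ≤ ρ := abs_le_of_sq_le_sq (by nlinarith [sq_nonneg q.2]) hρ.le
  have h2 : |q.2| ≤ ρ := abs_le_of_sq_le_sq (by nlinarith [sq_nonneg q.1]) hρ.le
  rw [abs_le] at h1 h2
  exact ⟨⟨h1.1, h2.1⟩, ⟨h1.2, h2.2⟩⟩

theorem Cl_Y2c {κ N ε : ℝ} {v : E3 → E3} (h : Sl κ N v) (hε : 0 < ε) :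
    Continuous (Y2 ε v) ∧ ∃ B : ℝ, 0 ≤ B ∧ ∀ z, 0 ≤ Y2 ε v z ∧ Y2 ε v z ≤ B := by
  have hf : Y2 ε v = fun z => 2 * Real.pi *
      ∫ s in (0:ℝ)..(3 * ε), (v !₂[s, 0, z] 2 - v !₂[3 * ε, 0, z] 2) ^ 2 := by
    funext z
    exact Cl_Y2 h hε z
  have hsm := (Cl_sm h).continuous
  obtain ⟨K, hK0, hK, -, -⟩ := ba_vf h.vf
  have hv2 : ∀ x, |v x 2| ≤ K := fun x => (ba_gv (v := v) x 0 0).2.2.2.2.2.1.trans (hK x).1
  have hπ := Real.pi_pos
  have hin : ∀ s z, (v !₂[s, 0, z] 2 - v !₂[3 * ε, 0, z] 2) ^ 2 ≤ 4 * K ^ 2 := by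
    intro s z
    have h1 := abs_le.1 (hv2 !₂[s, 0, z])
    have h2 := abs_le.1 (hv2 !₂[3 * ε, 0, z])
    have h3 : |v !₂[s, 0, z] 2 - v !₂[3 * ε, 0, z] 2| ≤ 2 * K := by
      rw [abs_le]
      constructor <;> linarith
    have h4 := pow_le_pow_left₀ (abs_nonneg _) h3 2
    rw [sq_abs] at h4
    linarith
  constructor
  · rw [hf]
    refine continuous_const.mul ?_
    refine intervalIntegral.continuous_parametric_intervalIntegral_of_continuous' ?_ 0 (3 * ε)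
    have h1 : Continuous (fun p : ℝ × ℝ => v !₂[p.2, 0, p.1] 2) :=
      hsm.comp (Cl_mk.comp (f := fun p : ℝ × ℝ => (p.1, (p.2, (0:ℝ)))) (by fun_prop))
    have h2 : Continuous (fun p : ℝ × ℝ => v !₂[3 * ε, 0, p.1] 2) :=
      hsm.comp (Cl_mk.comp (f := fun p : ℝ × ℝ => (p.1, (3 * ε, (0:ℝ)))) (by fun_prop))
    exact (h1.sub h2).pow 2
  · refine ⟨2 * Real.pi * (3 * ε * (4 * K ^ 2)), by positivity, fun z => ?_⟩
    rw [hf]
    constructor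
    · refine mul_nonneg (by positivity) (intervalIntegral.integral_nonneg (by positivity)
        fun s _ => sq_nonneg _)
    · refine mul_le_mul_of_nonneg_left ?_ (by positivity)
      have h1 : Continuous (fun s : ℝ => (v !₂[s, 0, z] 2 - v !₂[3 * ε, 0, z] 2) ^ 2) :=
        ((hsm.comp (Cl_lsm z).continuous).sub continuous_const).pow 2
      have h2 : ∫ s in (0:ℝ)..(3 * ε), (v !₂[s, 0, z] 2 - v !₂[3 * ε, 0, z] 2) ^ 2 ≤
          ∫ _s in (0:ℝ)..(3 * ε), 4 * K ^ 2 :=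
        intervalIntegral.integral_mono_on (by positivity) (h1.intervalIntegrable _ _)
          intervalIntegrable_const fun s _ => hin s z
      refine h2.trans (le_of_eq ?_)
      rw [intervalIntegral.integral_const, smul_eq_mul, sub_zero]

theorem Cl_w {L : ℝ} (hL : 0 < L) : Integrable (fun z : ℝ => (1 + (z - 0) ^ 2 / L ^ 2)⁻¹) := by
  have h1 := integrable_inv_one_add_sq.comp_div hL.ne'
  refine h1.congr (Eventually.of_forall fun z => ?_)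
  change (1 + (z / L) ^ 2)⁻¹ = (1 + (z - 0) ^ 2 / L ^ 2)⁻¹
  rw [sub_zero, div_pow]

theorem Cl_ww1 {R L : ℝ} (x : E3) : wt R L 0 x ≤ (1 + (x 2 - 0) ^ 2 / L ^ 2)⁻¹ := by
  unfold wt
  have h1 : 0 ≤ rsq x := by unfold rsq; positivity
  have h2 : ((1 + rsq x / R ^ 2) ^ 2)⁻¹ ≤ 1 := by
    apply inv_le_one_of_one_le₀
    apply one_le_pow₀
    have : 0 ≤ rsq x / R ^ 2 := by positivity
    linarith
  have h3 : 0 ≤ (1 + (x 2 - 0) ^ 2 / L ^ 2)⁻¹ := by positivity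
  exact mul_le_of_le_one_left h3 h2

theorem Cl_ww2 {R L : ℝ} (hR : 1 ≤ R) (x : E3) (hx : rad x ≤ 3) :
    1 / 100 * (1 + (x 2 - 0) ^ 2 / L ^ 2)⁻¹ ≤ wt R L 0 x := by
  unfold wt
  have h0 : 0 ≤ rsq x := by unfold rsq; positivity
  have h1 : rsq x ≤ 9 := by
    rw [← rad_sq']
    have h2 : 0 ≤ rad x := Real.sqrt_nonneg _
    nlinarith
  have h2 : rsq x / R ^ 2 ≤ 9 := by
    rw [div_le_iff₀ (by positivity)]
    have : 1 ≤ R ^ 2 := one_le_pow₀ hR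
    nlinarith
  have h3 : (1 + rsq x / R ^ 2) ^ 2 ≤ 100 := by
    have h4 : 0 ≤ rsq x / R ^ 2 := by positivity
    nlinarith
  have h4 : 1 / 100 ≤ ((1 + rsq x / R ^ 2) ^ 2)⁻¹ := by
    have h6 : 0 < (1 + rsq x / R ^ 2) ^ 2 := by
      have h4 : 0 ≤ rsq x / R ^ 2 := by positivity
      positivity
    rw [one_div]
    exact inv_anti₀ h6 h3
  have h5 : 0 ≤ (1 + (x 2 - 0) ^ 2 / L ^ 2)⁻¹ := by positivity
  exact mul_le_mul_of_nonneg_right h4 h5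

theorem cNi : ∃ C : ℝ, 1 ≤ C ∧ ∀ (κ N Z R₁ ε : ℝ) (v : E3 → E3), Sl κ N v → 1 ≤ Z → 1 ≤ R₁ → 0 < ε → ε ≤ 1 →
    IntegrableOn (fun x : E3 => Y2 ε v (x 2) * ww N Z R₁ 0 x) {x | rad x < 2 * ε} ∧
    (∫ x in {x : E3 | rad x < 2 * ε}, Y2 ε v (x 2) * ww N Z R₁ 0 x) ≤
      C * ε ^ 2 * ∫ x in {x : E3 | rad x < 3 * ε}, rad x * (hg (fun y => v y 2) x) ^ 2 * ww N Z R₁ 0 x := by
  have hπ := Real.pi_pos
  refine ⟨1600 * Real.pi, by linarith [Real.pi_gt_three], ?_⟩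
  intro κ N Z R₁ ε v h hZ hR₁ hε hε1
  have hN : 1 ≤ N := h.one.trans h.le
  have hR0 : 0 < R₁ := by linarith
  obtain ⟨w, -, -⟩ := ww_ok hN hZ hR0 0
  obtain ⟨hYc, B, hB0, hYB⟩ := Cl_Y2c h hε
  have hc2 : Continuous (fun x : E3 => x 2) := (EuclideanSpace.proj 2 : E3 →L[ℝ] ℝ).continuous
  have hint : Integrable (fun x : E3 => Y2 ε v (x 2) * ww N Z R₁ 0 x) :=
    wi w (f := fun x : E3 => Y2 ε v (x 2)) (K := B) (hYc.comp hc2) (fun x => by
      rw [abs_of_nonneg (hYB _).1]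
      exact (hYB _).2)
  refine ⟨hint.integrableOn, ?_⟩
  obtain ⟨L, hL⟩ : ∃ L : ℝ, L = Z * N * R₁ := ⟨_, rfl⟩
  have hL0 : 0 < L := by
    rw [hL]
    have : 0 < Z := by linarith
    have : 0 < N := by linarith
    positivity
  obtain ⟨wz, hwz⟩ : ∃ wz : ℝ → ℝ, wz = fun z => (1 + (z - 0) ^ 2 / L ^ 2)⁻¹ := ⟨_, rfl⟩
  have hwi : Integrable wz := by rw [hwz]; exact Cl_w hL0
  have hw0 : ∀ z, 0 ≤ wz z := by
    intro z
    rw [hwz]
    positivity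
  have hwc : Continuous wz := by
    rw [hwz]
    refine Continuous.inv₀ (by fun_prop) fun z => ?_
    positivity
  have hYw : Integrable (fun z => Y2 ε v z * wz z) := by
    refine Integrable.mono' (hwi.const_mul B) (hYc.mul hwc).aestronglyMeasurable
      (Eventually.of_forall fun z => ?_)
    rw [Real.norm_eq_abs, abs_of_nonneg (mul_nonneg (hYB z).1 (hw0 z))]
    exact mul_le_mul_of_nonneg_right (hYB z).2 (hw0 z)
  -- the left side
  have hleft : (∫ x in {x : E3 | rad x < 2 * ε}, Y2 ε v (x 2) * ww N Z R₁ 0 x) ≤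
      (∫ z, Y2 ε v z * wz z) * (Real.pi * (2 * ε) ^ 2) := by
    rw [Cl_tr _ (by positivity : 0 < 2 * ε), ← Cl_area (by positivity : 0 < 2 * ε),
      ← integral_prod_mul]
    haveI : IsFiniteMeasure ((volume : Measure (ℝ × ℝ)).restrict
        {q : ℝ × ℝ | q.1 ^ 2 + q.2 ^ 2 < (2 * ε) ^ 2}) :=
      ⟨by rw [Measure.restrict_apply_univ]; exact Cl_fin (by positivity)⟩
    refine integral_mono_of_nonneg (Eventually.of_forall fun p => ?_)
      (hYw.mul_prod (integrable_const (1 : ℝ))) (Eventually.of_forall fun p => ?_)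
    · exact mul_nonneg (hYB _).1 (w.nn _)
    · change Y2 ε v p.1 * ww N Z R₁ 0 !₂[p.2.1, p.2.2, p.1] ≤ Y2 ε v p.1 * wz p.1 * 1
      rw [mul_one]
      refine mul_le_mul_of_nonneg_left ?_ (hYB _).1
      rw [hwz, hL]
      exact Cl_ww1 !₂[p.2.1, p.2.2, p.1]
  -- the right side
  obtain ⟨K, hK0, hK, -, -⟩ := ba_vf h.vf
  have hhg : ∀ x, (hg (fun y => v y 2) x) ^ 2 ≤ K := by
    intro x
    have h1 := (ba_gv (v := v) x 0 2).2.2.2.1
    have h2 := (ba_gv (v := v) x 0 2).1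
    have h3 : 0 ≤ hg (fun y => v y 2) x := Real.sqrt_nonneg _
    have h4 := pow_le_pow_left₀ h3 h1 2
    rw [Real.sq_sqrt h2] at h4
    exact h4.trans (hK x).2.1
  have hradc : Continuous (fun x : E3 => rad x) := by
    have h : ∀ i : Fin 3, Continuous (fun x : E3 => x i) := fun i =>
      (EuclideanSpace.proj i : E3 →L[ℝ] ℝ).continuous
    exact (((h 0).pow 2).add ((h 1).pow 2)).sqrt
  have hGc : Continuous (fun x : E3 => rad x * (hg (fun y => v y 2) x) ^ 2 * ww N Z R₁ 0 x) :=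
    (hradc.mul ((Cl_hgc h).pow 2)).mul w.sm.continuous
  have hms : MeasurableSet {x : E3 | rad x < 3 * ε} := (isOpen_lt hradc continuous_const).measurableSet
  have hGi : IntegrableOn (fun x : E3 => rad x * (hg (fun y => v y 2) x) ^ 2 * ww N Z R₁ 0 x)
      {x : E3 | rad x < 3 * ε} := by
    refine Integrable.mono' ((w.int.const_mul (3 * ε * K)).integrableOn (s := {x : E3 | rad x < 3 * ε}))
      hGc.aestronglyMeasurable ((ae_restrict_iff' hms).2 (Eventually.of_forall fun x hx => ?_))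
    have hx' : rad x < 3 * ε := hx
    have h0 : 0 ≤ rad x := Real.sqrt_nonneg _
    rw [Real.norm_eq_abs, abs_of_nonneg (mul_nonneg (mul_nonneg h0 (sq_nonneg _)) (w.nn x))]
    exact mul_le_mul_of_nonneg_right (mul_le_mul hx'.le (hhg x) (sq_nonneg _) (by positivity))
      (w.nn x)
  have hGp := Cl_tri (by positivity : 0 < 3 * ε) hGi
  have hright : 1 / 400 * (∫ z, Y2 ε v z * wz z) ≤
      ∫ x in {x : E3 | rad x < 3 * ε}, rad x * (hg (fun y => v y 2) x) ^ 2 * ww N Z R₁ 0 x := by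
    rw [Cl_tr _ (by positivity : 0 < 3 * ε), integral_prod _ hGp, ← integral_const_mul]
    refine integral_mono (hYw.const_mul (1 / 400)) hGp.integral_prod_left fun z => ?_
    have hs : {q : ℝ × ℝ | q.1 ^ 2 + q.2 ^ 2 < 9 * ε ^ 2} =
        {q : ℝ × ℝ | q.1 ^ 2 + q.2 ^ 2 < (3 * ε) ^ 2} := by
      have h1 : 9 * ε ^ 2 = (3 * ε) ^ 2 := by ring
      rw [h1]
    have h1 := y2h h hε z
    rw [hs] at h1
    haveI : IsFiniteMeasure ((volume : Measure (ℝ × ℝ)).restrict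
        {q : ℝ × ℝ | q.1 ^ 2 + q.2 ^ 2 < (3 * ε) ^ 2}) :=
      ⟨by rw [Measure.restrict_apply_univ]; exact Cl_fin (by positivity)⟩
    have hmk : Continuous (fun q : ℝ × ℝ => (!₂[q.1, q.2, z] : E3)) :=
      Cl_mk.comp (f := fun q : ℝ × ℝ => (z, q)) (by fun_prop)
    have hrq : ∀ q : ℝ × ℝ, rad !₂[q.1, q.2, z] = √(q.1 ^ 2 + q.2 ^ 2) := fun q => rfl
    have hlt : ∀ q ∈ {q : ℝ × ℝ | q.1 ^ 2 + q.2 ^ 2 < (3 * ε) ^ 2},
        rad !₂[q.1, q.2, z] < 3 * ε := fun q hq => (Real.sqrt_lt' (by positivity)).2 hq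
    have hbd : ∀ᵐ q ∂((volume : Measure (ℝ × ℝ)).restrict
        {q : ℝ × ℝ | q.1 ^ 2 + q.2 ^ 2 < (3 * ε) ^ 2}),
        ‖√(q.1 ^ 2 + q.2 ^ 2) * (hg (fun y => v y 2) !₂[q.1, q.2, z]) ^ 2‖ ≤ 3 * ε * K := by
      refine (ae_restrict_iff' (Cl_meas _)).2 (Eventually.of_forall fun q hq => ?_)
      rw [Real.norm_eq_abs, abs_of_nonneg (mul_nonneg (Real.sqrt_nonneg _) (sq_nonneg _))]
      exact mul_le_mul (hlt q hq).le (hhg _) (sq_nonneg _) (by positivity)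
    have hi1 : IntegrableOn (fun q : ℝ × ℝ =>
        √(q.1 ^ 2 + q.2 ^ 2) * (hg (fun y => v y 2) !₂[q.1, q.2, z]) ^ 2)
        {q : ℝ × ℝ | q.1 ^ 2 + q.2 ^ 2 < (3 * ε) ^ 2} :=
      Integrable.mono' (integrable_const (3 * ε * K))
        ((hradc.comp hmk).mul (((Cl_hgc h).comp hmk).pow 2)).aestronglyMeasurable hbd
    have hi2 : IntegrableOn (fun q : ℝ × ℝ => rad !₂[q.1, q.2, z] *
        (hg (fun y => v y 2) !₂[q.1, q.2, z]) ^ 2 * ww N Z R₁ 0 !₂[q.1, q.2, z])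
        {q : ℝ × ℝ | q.1 ^ 2 + q.2 ^ 2 < (3 * ε) ^ 2} := by
      refine Integrable.mono' (integrable_const (3 * ε * K)) (hGc.comp hmk).aestronglyMeasurable
        ((ae_restrict_iff' (Cl_meas _)).2 (Eventually.of_forall fun q hq => ?_))
      have h0 : 0 ≤ rad !₂[q.1, q.2, z] := Real.sqrt_nonneg _
      have h2 : rad !₂[q.1, q.2, z] * (hg (fun y => v y 2) !₂[q.1, q.2, z]) ^ 2 ≤ 3 * ε * K :=
        mul_le_mul (hlt q hq).le (hhg _) (sq_nonneg _) (by positivity)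
      have h3 : 0 ≤ rad !₂[q.1, q.2, z] * (hg (fun y => v y 2) !₂[q.1, q.2, z]) ^ 2 :=
        mul_nonneg h0 (sq_nonneg _)
      rw [Real.norm_eq_abs, abs_of_nonneg (mul_nonneg h3 (w.nn _))]
      calc rad !₂[q.1, q.2, z] * (hg (fun y => v y 2) !₂[q.1, q.2, z]) ^ 2 *
            ww N Z R₁ 0 !₂[q.1, q.2, z]
          ≤ rad !₂[q.1, q.2, z] * (hg (fun y => v y 2) !₂[q.1, q.2, z]) ^ 2 * 1 :=
            mul_le_mul_of_nonneg_left (w.le _) h3
        _ ≤ 3 * ε * K := by rw [mul_one]; exact h2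
    have h4 : ∫ q in {q : ℝ × ℝ | q.1 ^ 2 + q.2 ^ 2 < (3 * ε) ^ 2}, 1 / 100 * wz z *
        (√(q.1 ^ 2 + q.2 ^ 2) * (hg (fun y => v y 2) !₂[q.1, q.2, z]) ^ 2) ≤
        ∫ q in {q : ℝ × ℝ | q.1 ^ 2 + q.2 ^ 2 < (3 * ε) ^ 2}, rad !₂[q.1, q.2, z] *
          (hg (fun y => v y 2) !₂[q.1, q.2, z]) ^ 2 * ww N Z R₁ 0 !₂[q.1, q.2, z] := by
      refine setIntegral_mono_on (hi1.const_mul _) hi2 (Cl_meas _) fun q hq => ?_
      have h5 : 1 / 100 * wz z ≤ ww N Z R₁ 0 !₂[q.1, q.2, z] := by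
        rw [hwz, hL]
        exact Cl_ww2 hR₁ !₂[q.1, q.2, z] ((hlt q hq).le.trans (by linarith))
      have h3 : 0 ≤ rad !₂[q.1, q.2, z] * (hg (fun y => v y 2) !₂[q.1, q.2, z]) ^ 2 :=
        mul_nonneg (Real.sqrt_nonneg _) (sq_nonneg _)
      rw [hrq] at h3 ⊢
      rw [mul_comm (1 / 100 * wz z)]
      exact mul_le_mul_of_nonneg_left h5 h3
    rw [integral_const_mul] at h4
    refine le_trans ?_ h4
    have h5 : 0 ≤ 1 / 400 * wz z := by
      have := hw0 z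
      positivity
    have h6 := mul_le_mul_of_nonneg_left h1 h5
    change 1 / 400 * (Y2 ε v z * wz z) ≤ _
    linarith
  have h1 : 0 ≤ Real.pi * (2 * ε) ^ 2 := by positivity
  have h2 := mul_le_mul_of_nonneg_left hright (by positivity : 0 ≤ 1600 * Real.pi * ε ^ 2)
  linarith

end Pool.Agent.H16.TU
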