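/-
ROW Cm (MP_09540e_TU). The commutator estimate and the sum over the scales. PROOF. cCom: `∫ TT Φ = ∫_{rad<2ε} + ∫_{rad≥2ε}`. Near: cNr, cNi: `≤ (C κ/ε³) C ε² ∫_{rad<3ε} rad (hg v₂)² Φ = C²κ ∫_{rad<3ε} (rad/ε)(hg v₂)² Φ`. Far: cFar, cFi: `≤ (Cκ/ε) C ε² ∫_{rad≥ε} (1/rad + 1)(hg v₂)² Φ = C²κ ∫_{rad≥ε} (ε/rad + ε)(hg v₂)²Φ`. With t = rad/ε:
`t 1_{t<3} ≤ 9 min(t,1/t) ≤ 18 t/(1+t²)`, `(1/t) 1_{t≥1} ≤ min(t,1/t) ≤ 2t/(1+t²)`, so the sum of the two weights is ≤ me ε (rad x) = 20 t/(1+t²) + ε. TT is continuous (hm of smooth functions), bounded; everything times Φ integrable. me_sum: `20 ε r/(ε²+r²) ≤ 20 min(r/ε, ε/r)`; for ε = 2^(-j), j ≥ 0: the sum over the j with ε ≥ r is ≤ 20·2 (geometric, largest term ≤ 1), over those with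
ε < r also ≤ 20·2, and ∑ ε ≤ 2: total ≤ 82 ≤ 90 (for r = 0 the first part is 0). me_b: 0 ≤ me ≤ 10 + ε.
-/
import Pool.Agent.H16.TU.Ci
import Pool.Agent.H16.TU.Cj
import Pool.Agent.H16.TU.Ck
import Pool.Agent.H16.TU.Cl

set_option autoImplicit false

open Set Filter Topology MeasureTheory
open scoped ContDiff

namespace Pool.Agent.H16.TU

open Pool.Agent.H16 Pool.Agent.H87.NS Pool.Agent.H72.CC

private theorem Cm_g {r : ℝ} (hr : 0 ≤ r) (J : ℕ) :
    ∑ j ∈ Finset.range J, (r * 2 ^ j) / (1 + (r * 2 ^ j) ^ 2) ≤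
      if r * 2 ^ J ≤ 1 then r * 2 ^ J else 3 - 2 / (r * 2 ^ J) := by
  induction J with
  | zero =>
    rw [Finset.sum_range_zero, pow_zero, mul_one]
    split_ifs with h
    · exact hr
    · have h1 : 1 < r := not_le.1 h
      have h2 : 2 / r ≤ 2 := by
        rw [div_le_iff₀ (by linarith)]
        linarith
      linarith
  | succ J ih =>
    rw [Finset.sum_range_succ]
    obtain ⟨a, ha⟩ : ∃ a : ℝ, a = r * 2 ^ J := ⟨_, rfl⟩
    have ha0 : 0 ≤ a := by
      rw [ha]
      positivity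
    have h2a : r * 2 ^ (J + 1) = 2 * a := by
      rw [ha, pow_succ]
      ring
    rw [← ha] at ih ⊢
    rw [h2a]
    have hg1 : a / (1 + a ^ 2) ≤ a := by
      rw [div_le_iff₀ (by positivity)]
      have : 0 ≤ a * a ^ 2 := by positivity
      linarith
    by_cases h1 : 2 * a ≤ 1
    · rw [if_pos h1]
      rw [if_pos (by linarith)] at ih
      linarith
    · rw [if_neg h1]
      have ha2 : 0 < a := by linarith [not_le.1 h1]
      by_cases h2 : a ≤ 1
      · rw [if_pos h2] at ih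
        have h3 : 2 * a ≤ 3 - 2 / (2 * a) := by
          have e : 2 / (2 * a) = 1 / a := by
            field_simp
          rw [e]
          have h4 : 1 / a ≤ 3 - 2 * a := by
            rw [div_le_iff₀ ha2]
            nlinarith [not_le.1 h1]
          linarith
        linarith
      · rw [if_neg h2] at ih
        have e : 2 / (2 * a) = 1 / a := by
          field_simp
        have e2 : 2 / a = 1 / a + 1 / a := by ring
        have hg2 : a / (1 + a ^ 2) ≤ 1 / a := by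
          rw [div_le_div_iff₀ (by positivity) ha2]
          nlinarith
        rw [e]
        rw [e2] at ih
        linarith

private theorem Cm_geo (J : ℕ) : ∑ j ∈ Finset.range J, ((1 : ℝ) / 2) ^ j ≤ 2 := by
  have h1 : ∑ j ∈ Finset.range J, ((1 : ℝ) / 2) ^ j = 2 - 2 * (1 / 2) ^ J := by
    induction J with
    | zero => norm_num
    | succ J ih =>
      rw [Finset.sum_range_succ, ih, pow_succ]
      ring
  rw [h1]
  have : (0 : ℝ) ≤ 2 * (1 / 2) ^ J := by positivity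
  linarith

theorem me_b {ε r : ℝ} (hε : 0 < ε) (hr : 0 ≤ r) : 0 ≤ me ε r ∧ me ε r ≤ 10 + ε := by
  unfold me
  constructor
  · positivity
  · have h1 : 20 * ε * r / (ε ^ 2 + r ^ 2) ≤ 10 := by
      rw [div_le_iff₀ (by positivity)]
      nlinarith [sq_nonneg (ε - r)]
    linarith

theorem me_sum {r : ℝ} (hr : 0 ≤ r) (j₀ J : ℕ) : ∑ j ∈ Finset.Icc j₀ J, me ((1/2) ^ j) r ≤ 90 := by
  have hnn : ∀ j : ℕ, 0 ≤ me ((1/2) ^ j) r := fun j => (me_b (by positivity) hr).1
  have h1 : ∑ j ∈ Finset.Icc j₀ J, me ((1/2) ^ j) r ≤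
      ∑ j ∈ Finset.range (J + 1), me ((1/2) ^ j) r := by
    refine Finset.sum_le_sum_of_subset_of_nonneg ?_ fun j _ _ => hnn j
    intro j hj
    rw [Finset.mem_Icc] at hj
    rw [Finset.mem_range]
    omega
  have h2 : ∀ j : ℕ, me ((1/2) ^ j) r = 20 * ((r * 2 ^ j) / (1 + (r * 2 ^ j) ^ 2)) + (1/2) ^ j := by
    intro j
    unfold me
    have e : ((1 : ℝ) / 2) ^ j = 1 / 2 ^ j := by rw [div_pow, one_pow]
    have h3 : (0 : ℝ) < 2 ^ j := by positivity
    rw [e]
    congr 1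
    field_simp
  refine h1.trans ?_
  rw [Finset.sum_congr rfl fun j _ => h2 j, Finset.sum_add_distrib, ← Finset.mul_sum]
  have h3 := Cm_g hr (J + 1)
  have h4 := Cm_geo (J + 1)
  have h5 : (if r * 2 ^ (J + 1) ≤ 1 then r * 2 ^ (J + 1) else 3 - 2 / (r * 2 ^ (J + 1))) ≤ 3 := by
    split_ifs with h
    · linarith
    · have : 0 ≤ 2 / (r * 2 ^ (J + 1)) := by positivity
      linarith
  linarith

private theorem Cm_w {ε r : ℝ} (hε : 0 < ε) (hr : 0 ≤ r) :
    (if r < 3 * ε then 1 / ε * r else 0) + (if ε ≤ r then ε * (1 / r + 1) else 0) ≤ me ε r := by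
  unfold me
  have hp : 0 < ε ^ 2 + r ^ 2 := by positivity
  split_ifs with h1 h2 h2
  · have hr0 : 0 < r := lt_of_lt_of_le hε h2
    have h3 : 1 / ε * r + ε * (1 / r) ≤ 20 * ε * r / (ε ^ 2 + r ^ 2) := by
      have e : 1 / ε * r + ε * (1 / r) = (ε ^ 2 + r ^ 2) / (ε * r) := by
        field_simp
        ring
      rw [e, div_le_div_iff₀ (by positivity) hp]
      have h4 : ε ^ 2 + r ^ 2 ≤ 4 * ε * r := by nlinarith
      have h5 : 0 ≤ 4 * ε * r := by positivity
      calc (ε ^ 2 + r ^ 2) * (ε ^ 2 + r ^ 2) ≤ (4 * ε * r) * (4 * ε * r) :=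
            mul_le_mul h4 h4 hp.le h5
        _ ≤ 20 * ε * r * (ε * r) := by nlinarith [mul_pos hε hr0]
    linarith
  · have h3 : 1 / ε * r ≤ 20 * ε * r / (ε ^ 2 + r ^ 2) := by
      have e : 1 / ε * r = r / ε := by ring
      rw [e, div_le_div_iff₀ hε hp]
      have h4 : ε ^ 2 + r ^ 2 ≤ 20 * ε ^ 2 := by nlinarith [not_le.1 h2]
      calc r * (ε ^ 2 + r ^ 2) ≤ r * (20 * ε ^ 2) := mul_le_mul_of_nonneg_left h4 hr
        _ = 20 * ε * r * ε := by ring
    linarith
  · have hr0 : 0 < r := lt_of_lt_of_le hε h2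
    have h3 : ε * (1 / r) ≤ 20 * ε * r / (ε ^ 2 + r ^ 2) := by
      have e : ε * (1 / r) = ε / r := by ring
      rw [e, div_le_div_iff₀ hr0 hp]
      have h4 : ε ^ 2 + r ^ 2 ≤ 20 * r ^ 2 := by nlinarith
      calc ε * (ε ^ 2 + r ^ 2) ≤ ε * (20 * r ^ 2) := mul_le_mul_of_nonneg_left h4 hε.le
        _ = 20 * ε * r * r := by ring
    linarith
  · have h3 : 0 ≤ 20 * ε * r / (ε ^ 2 + r ^ 2) := by positivity
    linarith

private theorem Cm_me {ε : ℝ} (hε : 0 < ε) : Continuous fun x : E3 => me ε (rad x) := by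
  unfold me
  refine Continuous.add ?_ continuous_const
  refine Continuous.div (continuous_const.mul continuous_rad)
    (continuous_const.add (continuous_rad.pow 2)) fun x => ?_
  positivity

private theorem Cm_dom {c : ℝ} {Ψ F : E3 → ℝ} (w : Wc c Ψ) {S : Set E3} (hS : MeasurableSet S)
    (hF : Measurable F) {K : ℝ} (hK : ∀ x ∈ S, 0 ≤ F x ∧ F x ≤ K * Ψ x) (hK0 : 0 ≤ K) :
    Integrable (S.indicator F) := by
  refine Integrable.mono' (w.int.const_mul K) (hF.indicator hS).aestronglyMeasurable ?_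
  refine Filter.Eventually.of_forall fun x => ?_
  rw [Real.norm_eq_abs]
  by_cases hx : x ∈ S
  · rw [indicator_of_mem hx, abs_of_nonneg (hK x hx).1]
    exact (hK x hx).2
  · rw [indicator_of_notMem hx, abs_zero]
    exact mul_nonneg hK0 (w.nn x)

private theorem Cm_comb {c K ε : ℝ} {Ψ H : E3 → ℝ} (w : Wc c Ψ) (hε : 0 < ε)
    (hH : Continuous H) (hH0 : ∀ x, 0 ≤ H x) (hHK : ∀ x, H x ≤ K) :
    1 / ε * (∫ x in {x : E3 | rad x < 3 * ε}, rad x * H x * Ψ x) +
      ε * (∫ x in {x : E3 | ε ≤ rad x}, (1 / rad x + 1) * H x * Ψ x) ≤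
      ∫ x, H x * (me ε (rad x) * Ψ x) := by
  have hK0 : 0 ≤ K := (hH0 0).trans (hHK 0)
  have hS1 : MeasurableSet {x : E3 | rad x < 3 * ε} :=
    measurableSet_lt continuous_rad.measurable measurable_const
  have hS2 : MeasurableSet {x : E3 | ε ≤ rad x} :=
    measurableSet_le measurable_const continuous_rad.measurable
  have hΨm : Measurable Ψ := w.sm.continuous.measurable
  have i1 : Integrable ({x : E3 | rad x < 3 * ε}.indicator fun x => rad x * H x * Ψ x) := by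
    refine Cm_dom w hS1 ((continuous_rad.measurable.mul hH.measurable).mul hΨm)
      (K := 3 * ε * K) ?_ (by positivity)
    intro x hx
    have hx' : rad x < 3 * ε := hx
    have h0 := rad_nonneg x
    refine ⟨mul_nonneg (mul_nonneg h0 (hH0 x)) (w.nn x), ?_⟩
    exact mul_le_mul_of_nonneg_right (mul_le_mul hx'.le (hHK x) (hH0 x) (by positivity)) (w.nn x)
  have i2 : Integrable ({x : E3 | ε ≤ rad x}.indicator
      fun x => (1 / rad x + 1) * H x * Ψ x) := by
    refine Cm_dom w hS2 (((((measurable_const.div continuous_rad.measurable).add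
      measurable_const)).mul hH.measurable).mul hΨm)
      (K := (1 / ε + 1) * K) ?_ (by positivity)
    intro x hx
    have hx' : ε ≤ rad x := hx
    have h0 := rad_nonneg x
    have h1 : 1 / rad x ≤ 1 / ε := one_div_le_one_div_of_le hε hx'
    refine ⟨mul_nonneg (mul_nonneg (by positivity) (hH0 x)) (w.nn x), ?_⟩
    exact mul_le_mul_of_nonneg_right (mul_le_mul (by linarith) (hHK x) (hH0 x) (by positivity))
      (w.nn x)
  have i3 : Integrable fun x => H x * (me ε (rad x) * Ψ x) := by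
    have h1 := wi w (hH.mul (Cm_me hε)) (K := K * (10 + ε)) (fun x => by
      have h2 := me_b hε (rad_nonneg x)
      show |H x * me ε (rad x)| ≤ K * (10 + ε)
      rw [abs_of_nonneg (mul_nonneg (hH0 x) h2.1)]
      exact mul_le_mul (hHK x) h2.2 h2.1 hK0)
    refine h1.congr (Filter.Eventually.of_forall fun x => ?_)
    show H x * me ε (rad x) * Ψ x = H x * (me ε (rad x) * Ψ x)
    ring
  rw [← integral_indicator hS1, ← integral_indicator hS2, ← integral_const_mul,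
    ← integral_const_mul, ← integral_add (i1.const_mul _) (i2.const_mul _)]
  refine integral_mono ((i1.const_mul _).add (i2.const_mul _)) i3 fun x => ?_
  have h1 := Cm_w hε (rad_nonneg x)
  have h2 : 0 ≤ H x * Ψ x := mul_nonneg (hH0 x) (w.nn x)
  have h3 := mul_le_mul_of_nonneg_left h1 h2
  have e3 : H x * (me ε (rad x) * Ψ x) = H x * Ψ x * me ε (rad x) := by ring
  show 1 / ε * ({x : E3 | rad x < 3 * ε}.indicator (fun x => rad x * H x * Ψ x) x) +
    ε * ({x : E3 | ε ≤ rad x}.indicator (fun x => (1 / rad x + 1) * H x * Ψ x) x) ≤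
    H x * (me ε (rad x) * Ψ x)
  rw [e3]
  refine le_of_eq_of_le ?_ h3
  rw [mul_add]
  congr 1
  · by_cases hx : rad x < 3 * ε
    · rw [indicator_of_mem (show x ∈ {x : E3 | rad x < 3 * ε} from hx), if_pos hx]
      ring
    · rw [indicator_of_notMem (show x ∉ {x : E3 | rad x < 3 * ε} from hx), if_neg hx]
      ring
  · by_cases hx : ε ≤ rad x
    · rw [indicator_of_mem (show x ∈ {x : E3 | ε ≤ rad x} from hx), if_pos hx]
      ring
    · rw [indicator_of_notMem (show x ∉ {x : E3 | ε ≤ rad x} from hx), if_neg hx]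
      ring

theorem cCom : ∃ C : ℝ, 1 ≤ C ∧ ∀ (κ N Z R₁ ε : ℝ) (v : E3 → E3), Sl κ N v → 1 ≤ Z → 1 ≤ R₁ → 0 < ε → ε ≤ 1 →
    ∫ x, TT ε v x * ww N Z R₁ 0 x ≤ C * κ * ∫ x, (hg (fun y => v y 2) x) ^ 2 * (me ε (rad x) * ww N Z R₁ 0 x) := by
  obtain ⟨C1, hC1, h1⟩ := cNr
  obtain ⟨C2, hC2, h2⟩ := cNi
  obtain ⟨C3, hC3, h3⟩ := cFar
  obtain ⟨C4, hC4, h4⟩ := cFi
  refine ⟨C1 * C2 + C3 * C4, by nlinarith, ?_⟩
  intro κ N Z R₁ ε v h hZ hR hε hε1
  have hκ : 1 ≤ κ := h.one
  have hN : 1 ≤ N := h.one.trans h.le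
  obtain ⟨w, -, -⟩ := ww_ok hN hZ (lt_of_lt_of_le one_pos hR) 0
  obtain ⟨Ψ, hΨ⟩ : ∃ Ψ, Ψ = ww N Z R₁ 0 := ⟨_, rfl⟩
  rw [← hΨ] at w
  obtain ⟨K, hK0, hK, -, -⟩ := ba_vf h.vf
  obtain ⟨H, hH⟩ : ∃ H : E3 → ℝ, H = fun x => (hg (fun y => v y 2) x) ^ 2 := ⟨_, rfl⟩
  have hH0 : ∀ x, 0 ≤ H x := by
    intro x
    rw [hH]
    exact sq_nonneg _
  have hHK : ∀ x, H x ≤ K := by
    intro x
    have e1 := (ba_gv (v := v) x 0 2).2.2.2.1
    have e2 : 0 ≤ hg (fun y => v y 2) x := Real.sqrt_nonneg _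
    have e3 := pow_le_pow_left₀ e2 e1 2
    rw [Real.sq_sqrt (ba_gv (v := v) x 0 2).1] at e3
    rw [hH]
    exact e3.trans (hK x).2.1
  have hHc : Continuous H := by
    have hv2 : ContDiff ℝ 1 (fun y => v y 2) :=
      ((EuclideanSpace.proj 2 : E3 →L[ℝ] ℝ).contDiff.comp h.ax.smooth).of_le
        (by exact_mod_cast le_top)
    rw [hH]
    unfold hg
    exact ((((pd_cont hv2 0).pow 2).add ((pd_cont hv2 1).pow 2)).sqrt).pow 2
  have hcomb := Cm_comb w hε hHc hH0 hHK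
  obtain ⟨hi2, hb2⟩ := h2 κ N Z R₁ ε v h hZ hR hε hε1
  have hb4 := h4 κ N Z R₁ ε v h hZ hR hε hε1
  have hQ := Qd_c h.ax.smooth (fun x => (hK x).1) ε
  rw [← hΨ] at hi2 hb2 hb4 ⊢
  obtain ⟨I1, hI1⟩ : ∃ I1 : ℝ, I1 = ∫ x in {x : E3 | rad x < 3 * ε}, rad x * H x * Ψ x := ⟨_, rfl⟩
  obtain ⟨I2, hI2⟩ : ∃ I2 : ℝ, I2 = ∫ x in {x : E3 | ε ≤ rad x}, (1 / rad x + 1) * H x * Ψ x :=
    ⟨_, rfl⟩
  have hI10 : 0 ≤ I1 := by
    rw [hI1]
    exact integral_nonneg fun x => mul_nonneg (mul_nonneg (rad_nonneg x) (hH0 x)) (w.nn x)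
  have hI20 : 0 ≤ I2 := by
    rw [hI2]
    refine integral_nonneg fun x => mul_nonneg (mul_nonneg ?_ (hH0 x)) (w.nn x)
    have := rad_nonneg x
    positivity
  have hb2' : (∫ x in {x : E3 | rad x < 2 * ε}, Y2 ε v (x 2) * Ψ x) ≤ C2 * ε ^ 2 * I1 := by
    rw [hI1, hH]
    exact hb2
  have hb4' : (∫ x in {x : E3 | 2 * ε ≤ rad x}, (1 / rad x + 1) * Qd ε v x * Ψ x) ≤
      C4 * ε ^ 2 * I2 := by
    rw [hI2, hH]
    exact hb4
  rw [← hI1, ← hI2] at hcomb
  obtain ⟨R, hR'⟩ : ∃ R : ℝ, R = ∫ x, H x * (me ε (rad x) * Ψ x) := ⟨_, rfl⟩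
  rw [← hR'] at hcomb
  have hgoal : (∫ x, TT ε v x * Ψ x) ≤ (C1 * C2 + C3 * C4) * κ * R := by
    have hRn : 0 ≤ R := by
      refine le_trans ?_ hcomb
      positivity
    by_cases hint : Integrable fun x => TT ε v x * Ψ x
    · have hT : MeasurableSet {x : E3 | rad x < 2 * ε} :=
        measurableSet_lt continuous_rad.measurable measurable_const
      have hTc : {x : E3 | rad x < 2 * ε}ᶜ = {x : E3 | 2 * ε ≤ rad x} := by
        ext x
        exact (not_lt : ¬ rad x < 2 * ε ↔ 2 * ε ≤ rad x)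
      have hT2 : MeasurableSet {x : E3 | 2 * ε ≤ rad x} :=
        measurableSet_le measurable_const continuous_rad.measurable
      have hsplit := integral_add_compl hT hint
      rw [hTc] at hsplit
      have hnear : (∫ x in {x : E3 | rad x < 2 * ε}, TT ε v x * Ψ x) ≤
          C1 * κ / ε ^ 3 * (C2 * ε ^ 2 * I1) := by
        refine le_trans ?_ (mul_le_mul_of_nonneg_left hb2' (by positivity))
        rw [← integral_const_mul]
        refine setIntegral_mono_on hint.integrableOn (hi2.const_mul _) hT fun x hx => ?_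
        have e1 := (h1 κ N ε v h hε hε1 x hx).2
        calc TT ε v x * Ψ x ≤ (C1 * κ / ε ^ 3 * Y2 ε v (x 2)) * Ψ x :=
              mul_le_mul_of_nonneg_right e1 (w.nn x)
          _ = C1 * κ / ε ^ 3 * (Y2 ε v (x 2) * Ψ x) := by ring
      have hi4 : IntegrableOn (fun x => (1 / rad x + 1) * Qd ε v x * Ψ x)
          {x : E3 | 2 * ε ≤ rad x} := by
        rw [← integrable_indicator_iff hT2]
        refine Cm_dom w hT2 (((((measurable_const.div continuous_rad.measurable).add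
          measurable_const)).mul hQ.1.measurable).mul w.sm.continuous.measurable)
          (K := (1 / (2 * ε) + 1) * (16 * K ^ 2)) ?_ (by positivity)
        intro x hx
        have hx' : 2 * ε ≤ rad x := hx
        have h0 := rad_nonneg x
        have e1 : 1 / rad x ≤ 1 / (2 * ε) := one_div_le_one_div_of_le (by positivity) hx'
        have e2 := hQ.2 x
        refine ⟨mul_nonneg (mul_nonneg (by positivity) e2.1) (w.nn x), ?_⟩
        exact mul_le_mul_of_nonneg_right (mul_le_mul (by linarith) e2.2 e2.1 (by positivity))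
          (w.nn x)
      have hfar : (∫ x in {x : E3 | 2 * ε ≤ rad x}, TT ε v x * Ψ x) ≤
          C3 * κ / ε * (C4 * ε ^ 2 * I2) := by
        refine le_trans ?_ (mul_le_mul_of_nonneg_left hb4' (by positivity))
        rw [← integral_const_mul]
        refine setIntegral_mono_on hint.integrableOn (hi4.const_mul _) hT2 fun x hx => ?_
        have e1 := (h3 κ N ε v h hε hε1 x hx).2
        calc TT ε v x * Ψ x ≤ (C3 * κ / ε * (1 / rad x + 1) * Qd ε v x) * Ψ x :=
              mul_le_mul_of_nonneg_right e1 (w.nn x)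
          _ = C3 * κ / ε * ((1 / rad x + 1) * Qd ε v x * Ψ x) := by ring
      have e1 : C1 * κ / ε ^ 3 * (C2 * ε ^ 2 * I1) = C1 * C2 * κ * (1 / ε * I1) := by
        field_simp
      have e2 : C3 * κ / ε * (C4 * ε ^ 2 * I2) = C3 * C4 * κ * (ε * I2) := by
        field_simp
      have e3 : 0 ≤ 1 / ε * I1 := by positivity
      have e4 : 0 ≤ ε * I2 := by positivity
      have e5 : 0 ≤ C1 * C2 * κ := by positivity
      have e6 : 0 ≤ C3 * C4 * κ := by positivity
      have e7 : (C1 * C2 + C3 * C4) * κ * (1 / ε * I1 + ε * I2) ≤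
          (C1 * C2 + C3 * C4) * κ * R := mul_le_mul_of_nonneg_left hcomb (by positivity)
      have e8 := mul_nonneg e5 e4
      have e9 := mul_nonneg e6 e3
      calc (∫ x, TT ε v x * Ψ x) = (∫ x in {x : E3 | rad x < 2 * ε}, TT ε v x * Ψ x) +
            ∫ x in {x : E3 | 2 * ε ≤ rad x}, TT ε v x * Ψ x := hsplit.symm
        _ ≤ C1 * C2 * κ * (1 / ε * I1) + C3 * C4 * κ * (ε * I2) := by
            rw [← e1, ← e2]
            exact add_le_add hnear hfar
        _ ≤ (C1 * C2 + C3 * C4) * κ * (1 / ε * I1 + ε * I2) := by linarith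
        _ ≤ _ := e7
    · rw [integral_undef hint]
      positivity
  rw [hR', hH] at hgoal
  exact hgoal

end Pool.Agent.H16.TU
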