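/-
ROW Cn (MP_09540e_TU). The lower order commutator term. PROOF. f = ft ε N v, `|hk'(f)| ≤ |f|` (hk_0), Φ = ww N Z R₁ 0. The sum over i is at most `|f| (√(rh 0² + rh 1²) hg Φ + |rh 2| |pd 2 Φ|)`. Axial: `|f| ≤ C/ε` (m1), `|pd 2 Φ| ≤ Φ/(Z N R₁) ≤ Φ/N`, `0 ≤ rh 2 ≤ C Qd` (cC), cFi2: `(1/N)(C/ε)(1/N) C ∫ Qd Φ ≤ C' ε/N² ∫ (hg v₂)² Φ ≤ C' ε/N² DD` (hg² ≤ gv: ba_gv).
Horizontal, far (rad x ≥ 2ε): `√(..) hg Φ ≤ Cκ(1/rad + 1) √Qd min(2, 4 rad) Φ ≤ 6 C κ √Qd Φ` (wt_h, R₁ ≥ 1); near: `√(..) hg Φ ≤ (Cκ² ε⁻³ Y2)^(1/2) 8ε Φ`. So with Young (for the parameter ε κ): `(1/N) |f| √(..) hg Φ ≤ (κ ε/2) f² Φ + (1/(2 κ ε N²)) (√(..) hg Φ)²/Φ`, where `(√(..) hg Φ)²/Φ ≤ 36 C² κ² Qd Φ` (far), `≤ 64 C κ² ε⁻¹ Y2 Φ` (near). Integrate: cFi2: `Qd`-part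
`≤ C κ² ε² ∫ (hg v₂)²Φ`; near: cNi: `κ² ε⁻¹ ε² ∫_{rad<3ε} rad (hg v₂)² Φ ≤ 3 κ² ε² ∫ (hg v₂)² Φ`. Total `≤ (κε/2) ∫ f²Φ + C κ ε/N² DD`, and `∫ f² Φ ≤ (1/N²) ∫ hm ε (v₂²) Φ ≤ (64/N²) SS` (hm_sq, hm_w, v₂² ≤ ‖v‖²).
-/
import Pool.Agent.H16.TU.Cm
import Pool.Agent.H16.TU.Ce

set_option autoImplicit false

open Set Filter Topology MeasureTheory
open scoped ContDiff

namespace Pool.Agent.H16.TU

open Pool.Agent.H16 Pool.Agent.H87.NS Pool.Agent.H72.CC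

theorem Cn_hgc {f : E3 → ℝ} (hf : ContDiff ℝ ∞ f) : Continuous (hg f) := by
  have h : ∀ i, Continuous (pd i f) := fun i =>
    (hf.continuous_fderiv (by simp)).clm_apply continuous_const
  unfold hg
  exact (((h 0).pow 2).add ((h 1).pow 2)).sqrt

theorem Cn_hgn (f : E3 → ℝ) (x : E3) : 0 ≤ hg f x := Real.sqrt_nonneg _

theorem Cn_hgv (v : E3 → E3) (x : E3) : (hg (fun y => v y 2) x) ^ 2 ≤ gv v x := by
  have h := ba_gv (v := v) x 0 2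
  have h1 := pow_le_pow_left₀ (Cn_hgn _ x) h.2.2.2.1 2
  rwa [Real.sq_sqrt h.1] at h1

theorem Cn_Y2 (ε : ℝ) (v : E3 → E3) (z : ℝ) : 0 ≤ Y2 ε v z := by
  unfold Y2
  exact integral_nonneg fun q => div_nonneg (sq_nonneg _) (Real.sqrt_nonneg _)

theorem Cn_young {a s t φ B : ℝ} (ha : 0 < a) (hφ : 0 < φ) (h : t ^ 2 ≤ B * φ ^ 2) :
    s * t ≤ a / 2 * (s ^ 2 * φ) + B / (2 * a) * φ := by
  have h1 : 2 * a * φ * (s * t) ≤ 2 * a * φ * (a / 2 * (s ^ 2 * φ) + B / (2 * a) * φ) := by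
    have h2 : 2 * a * φ * (a / 2 * (s ^ 2 * φ) + B / (2 * a) * φ) =
        a ^ 2 * s ^ 2 * φ ^ 2 + B * φ ^ 2 := by
      field_simp
    rw [h2]
    nlinarith [sq_nonneg (a * φ * s - t)]
  exact le_of_mul_le_mul_left h1 (by positivity)

/-- the pointwise bound of the sum -/
theorem Cn_sum (a0 a1 a2 d p0 p1 p2 s : ℝ) (hd : |d| ≤ s) :
    |a0 * (d * p0) + a1 * (d * p1) + a2 * (d * p2)| ≤
      s * (√(a0 ^ 2 + a1 ^ 2) * √(p0 ^ 2 + p1 ^ 2)) + s * (|a2| * |p2|) := by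
  have h1 : a0 * (d * p0) + a1 * (d * p1) + a2 * (d * p2) =
      d * (a0 * p0 + a1 * p1) + d * (a2 * p2) := by ring
  rw [h1]
  refine (abs_add_le _ _).trans ?_
  rw [abs_mul, abs_mul d (a2 * p2), abs_mul a2 p2]
  exact add_le_add (mul_le_mul hd (Fa_cs a0 a1 p0 p1) (abs_nonneg _) ((abs_nonneg _).trans hd))
    (mul_le_mul_of_nonneg_right hd (mul_nonneg (abs_nonneg _) (abs_nonneg _)))

/-- the far bound -/
theorem Cn_far {C4 κ ρ Q H g φ : ℝ} (hC : 0 ≤ C4) (hκ : 0 ≤ κ) (hρ : 0 < ρ) (hQ : 0 ≤ Q)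
    (hg0 : 0 ≤ g) (hH0 : 0 ≤ H) (hφ : 0 ≤ φ) (hH : H ≤ C4 * κ * (1 / ρ + 1) * √Q)
    (h2 : g ≤ 2 * φ) (h4 : g ≤ 4 * ρ * φ) : (H * g) ^ 2 ≤ 36 * C4 ^ 2 * κ ^ 2 * Q * φ ^ 2 := by
  have e1 : (1 / ρ + 1) * g ≤ 6 * φ := by
    have e2 : 1 / ρ * g ≤ 4 * φ := by
      rw [one_div, inv_mul_le_iff₀ hρ]
      linarith
    linarith
  have e3 : H * g ≤ C4 * κ * √Q * (6 * φ) := by
    calc H * g ≤ C4 * κ * (1 / ρ + 1) * √Q * g := mul_le_mul_of_nonneg_right hH hg0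
      _ = C4 * κ * √Q * ((1 / ρ + 1) * g) := by ring
      _ ≤ C4 * κ * √Q * (6 * φ) := mul_le_mul_of_nonneg_left e1 (by positivity)
  have e4 := pow_le_pow_left₀ (mul_nonneg hH0 hg0) e3 2
  have e5 : (C4 * κ * √Q * (6 * φ)) ^ 2 = 36 * C4 ^ 2 * κ ^ 2 * (√Q) ^ 2 * φ ^ 2 := by ring
  rwa [e5, Real.sq_sqrt hQ] at e4

/-- the near bound -/
theorem Cn_near {C5 κ ρ ε Y H g φ : ℝ} (hε : 0 < ε) (hρ : ρ < 2 * ε) (hρ0 : 0 ≤ ρ)
    (hg0 : 0 ≤ g) (hφ : 0 ≤ φ) (hH : H ^ 2 ≤ C5 * κ ^ 2 / ε ^ 3 * Y) (h4 : g ≤ 4 * ρ * φ) :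
    (H * g) ^ 2 ≤ (64 * C5 * κ ^ 2 / ε * Y) * φ ^ 2 := by
  have e1 : g ≤ 8 * ε * φ := by nlinarith
  have e2 := pow_le_pow_left₀ hg0 e1 2
  calc (H * g) ^ 2 = H ^ 2 * g ^ 2 := by ring
    _ ≤ (C5 * κ ^ 2 / ε ^ 3 * Y) * (8 * ε * φ) ^ 2 :=
      mul_le_mul hH e2 (sq_nonneg _) ((sq_nonneg _).trans hH)
    _ = (64 * C5 * κ ^ 2 / ε * Y) * φ ^ 2 := by
      field_simp
      ring

theorem f2S {κ N Z R₁ ε : ℝ} {v : E3 → E3} (h : Sl κ N v) (hZ : 1 ≤ Z) (hR : 1 ≤ R₁) (h0 : 0 < ε) (h1 : ε ≤ 1) :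
    ∫ x, ft ε N v x ^ 2 * ww N Z R₁ 0 x ≤ 64 / N ^ 2 * SS v (ww N Z R₁ 0) := by
  have hN : 1 ≤ N := h.one.trans h.le
  have hR0 : 0 < R₁ := by linarith
  obtain ⟨w, -, -⟩ := ww_ok hN hZ hR0 0
  obtain ⟨K, hK0, hK, -, -⟩ := ba_vf h.vf
  have hv := h.ax.smooth
  have hv2 : Continuous (fun y : E3 => v y 2) := (Bds1_proj_smooth hv 2).continuous
  have hb : ∀ x, |v x 2| ≤ K := fun x => (ba_gv x 0 0).2.2.2.2.2.1.trans (hK x).1
  have hb2 : ∀ x, v x 2 ^ 2 ≤ K ^ 2 := fun x => by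
    rw [← sq_abs (v x 2)]
    exact pow_le_pow_left₀ (abs_nonneg _) (hb x) 2
  have hL : R₁ ≤ Z * N * R₁ := le_mul_of_one_le_left hR0.le (one_le_mul_of_one_le_of_one_le hZ hN)
  have hc : Continuous (hm ε (fun y => v y 2)) := hm_cont hv2 ε
  have hc2 : Continuous (hm ε (fun y => v y 2 ^ 2)) := hm_cont (hv2.pow 2) ε
  have e1 : ∫ x, ft ε N v x ^ 2 * ww N Z R₁ 0 x =
      1 / N ^ 2 * ∫ x, (hm ε (fun y => v y 2) x) ^ 2 * ww N Z R₁ 0 x := by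
    rw [← integral_const_mul]
    refine integral_congr_ae (Filter.Eventually.of_forall fun x => ?_)
    beta_reduce
    unfold ft
    rw [div_pow]
    ring
  have e2 : ∫ x, (hm ε (fun y => v y 2) x) ^ 2 * ww N Z R₁ 0 x ≤
      ∫ x, hm ε (fun y => v y 2 ^ 2) x * ww N Z R₁ 0 x := by
    refine integral_mono (wi (K := K ^ 2) w (hc.pow 2) fun x => ?_)
      (wi (K := K ^ 2) w hc2 fun x => ?_) fun x => ?_
    · rw [abs_of_nonneg (sq_nonneg _), ← sq_abs]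
      exact pow_le_pow_left₀ (abs_nonneg _) (hm_abs hv2 hb ε x) 2
    · refine hm_abs (hv2.pow 2) (fun y => ?_) ε x
      rw [abs_of_nonneg (sq_nonneg _)]
      exact hb2 y
    · exact mul_le_mul_of_nonneg_right (hm_sq hv2 ε x) (w.nn x)
  have e3 : ∫ x, hm ε (fun y => v y 2 ^ 2) x * ww N Z R₁ 0 x ≤
      64 * ∫ x, v x 2 ^ 2 * ww N Z R₁ 0 x :=
    hm_w hR0 hL h0.le (h1.trans hR) 0 (F := fun y => v y 2 ^ 2) (K := K ^ 2) (hv2.pow 2)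
      fun x => ⟨sq_nonneg _, hb2 x⟩
  have e4 : ∫ x, v x 2 ^ 2 * ww N Z R₁ 0 x ≤ SS v (ww N Z R₁ 0) := by
    unfold SS
    refine integral_mono (wi (K := K ^ 2) w (hv2.pow 2) fun x => ?_)
      (wi (K := K ^ 2) w ((ba_gvc hv).2.1.pow 2) fun x => ?_) fun x => ?_
    · rw [abs_of_nonneg (sq_nonneg _)]
      exact hb2 x
    · rw [abs_of_nonneg (sq_nonneg _)]
      exact pow_le_pow_left₀ (norm_nonneg _) (hK x).1 2
    · refine mul_le_mul_of_nonneg_right ?_ (w.nn x)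
      rw [← sq_abs (v x 2)]
      exact pow_le_pow_left₀ (abs_nonneg _) (ba_gv x 0 0).2.2.2.2.2.1 2
  rw [e1]
  have e5 : ∫ x, (hm ε (fun y => v y 2) x) ^ 2 * ww N Z R₁ 0 x ≤ 64 * SS v (ww N Z R₁ 0) := by
    linarith
  have hN0 : 0 < N := by linarith
  calc 1 / N ^ 2 * ∫ x, (hm ε (fun y => v y 2) x) ^ 2 * ww N Z R₁ 0 x ≤
        1 / N ^ 2 * (64 * SS v (ww N Z R₁ 0)) := mul_le_mul_of_nonneg_left e5 (by positivity)
    _ = 64 / N ^ 2 * SS v (ww N Z R₁ 0) := by ring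

theorem cE2 : ∃ C : ℝ, 1 ≤ C ∧ ∀ (κ N Z R₁ k ε : ℝ) (v : E3 → E3), Sl κ N v → 1 ≤ Z → 1 ≤ R₁ → 0 < k → 0 < ε → ε ≤ 1 →
    |∫ x, ∑ i : Fin 3, rh ε v i x * (deriv (hk k) (ft ε N v x) * pd i (ww N Z R₁ 0) x)| / N ≤
      C * κ * ε / N ^ 2 * (DD v (ww N Z R₁ 0) + SS v (ww N Z R₁ 0)) := by
  obtain ⟨C1, hC1, H1⟩ := m1
  obtain ⟨C2, hC2, H2⟩ := cC
  obtain ⟨C3, hC3, H3⟩ := cFi2
  obtain ⟨C4, hC4, H4⟩ := cFar
  obtain ⟨C5, hC5, H5⟩ := cNr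
  obtain ⟨C6, hC6, H6⟩ := cNi
  refine ⟨32 + (18 * C4 ^ 2 * C3 + 96 * C5 * C6 + C1 * C2 * C3), ?_, ?_⟩
  · have : 0 ≤ 18 * C4 ^ 2 * C3 + 96 * C5 * C6 + C1 * C2 * C3 := by positivity
    linarith
  intro κ N Z R₁ k ε v h hZ hR hk0 h0 h1
  have hκ : 1 ≤ κ := h.one
  have hκ0 : 0 < κ := by linarith
  have hN : 1 ≤ N := h.one.trans h.le
  have hN0 : 0 < N := by linarith
  have hR0 : 0 < R₁ := by linarith
  have hL0 : 0 < Z * N * R₁ := by positivity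
  have hL : R₁ ≤ Z * N * R₁ := le_mul_of_one_le_left hR0.le (one_le_mul_of_one_le_of_one_le hZ hN)
  obtain ⟨w, -, -⟩ := ww_ok hN hZ hR0 0
  obtain ⟨K, hK0, hK, -, -⟩ := ba_vf h.vf
  have hv := h.ax.smooth
  have hf2 := f2S h hZ hR h0 h1
  have HA := H3 κ N Z R₁ ε v h hZ hR h0 h1
  obtain ⟨HB, HB'⟩ := H6 κ N Z R₁ ε v h hZ hR h0 h1
  have hΦp : ∀ x, 0 < ww N Z R₁ 0 x := fun x => wt_pos hR0 hL0 0 x
  have hgΦ : ∀ x, hg (ww N Z R₁ 0) x ≤ 2 * ww N Z R₁ 0 x ∧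
      hg (ww N Z R₁ 0) x ≤ 4 * rad x * ww N Z R₁ 0 x := by
    intro x
    obtain ⟨a1, a2⟩ := wt_h hR0 hL0 0 x
    have hx := (hΦp x).le
    refine ⟨a1.trans (mul_le_mul_of_nonneg_right ?_ hx), a2.trans (mul_le_mul_of_nonneg_right ?_ hx)⟩
    · rw [div_le_iff₀ hR0]
      linarith
    · have h3 : 0 ≤ 4 * rad x := by
        have := rad_nonneg x
        linarith
      exact div_le_self h3 (one_le_pow₀ hR)
  have hpz : ∀ x, |pd 2 (ww N Z R₁ 0) x| ≤ 1 / N * ww N Z R₁ 0 x := by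
    intro x
    refine (wt_z hR0 hL0 0 x).trans (mul_le_mul_of_nonneg_right ?_ (hΦp x).le)
    refine one_div_le_one_div_of_le hN0 ?_
    calc N = 1 * N * 1 := by ring
      _ ≤ Z * N * R₁ := by gcongr
  obtain ⟨Φ, hΦ⟩ : ∃ Φ, Φ = ww N Z R₁ 0 := ⟨_, rfl⟩
  rw [← hΦ] at hf2 HA HB HB' w hΦp hgΦ hpz ⊢
  obtain ⟨f, hf⟩ : ∃ f, f = ft ε N v := ⟨_, rfl⟩
  obtain ⟨hfs, Kf, hKf⟩ := ft_bd (ε := ε) h
  rw [← hf] at hf2 hfs hKf ⊢
  obtain ⟨hQc, hQb⟩ := Qd_c hv (fun x => (hK x).1) ε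
  have hfb : ∀ x, |f x| ≤ C1 / ε := by
    intro x
    rw [hf]
    unfold ft
    rw [abs_div, abs_of_pos hN0, div_le_iff₀ hN0]
    calc |hm ε (fun y => v y 2) x| ≤ C1 * N / ε := H1 κ N ε v h h0 h1 x
      _ = C1 / ε * N := by ring
  have hmeas : MeasurableSet {x : E3 | rad x < 2 * ε} := (isOpen_lt continuous_rad continuous_const).measurableSet
  have hmeas3 : MeasurableSet {x : E3 | rad x < 3 * ε} := (isOpen_lt continuous_rad continuous_const).measurableSet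
  -- the comparison with the dissipation
  obtain ⟨HG, hHG⟩ : ∃ HG, HG = ∫ x, (hg (fun y => v y 2) x) ^ 2 * Φ x := ⟨_, rfl⟩
  have hgc : Continuous (hg (fun y => v y 2)) := Cn_hgc (Bds1_proj_smooth hv 2)
  have hgi : Integrable (fun x => (hg (fun y => v y 2) x) ^ 2 * Φ x) := by
    refine wi (K := K) w (hgc.pow 2) fun x => ?_
    rw [abs_of_nonneg (sq_nonneg _)]
    exact (Cn_hgv v x).trans (hK x).2.1
  have hHD : HG ≤ DD v Φ := by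
    rw [hHG]
    unfold DD
    refine integral_mono hgi (wi (K := K) w (ba_gvc hv).1 fun x => ?_) fun x => ?_
    · rw [abs_of_nonneg (ba_gv x 0 0).1]
      exact (hK x).2.1
    · exact mul_le_mul_of_nonneg_right (Cn_hgv v x) (w.nn x)
  have hHG0 : 0 ≤ HG := by
    rw [hHG]
    exact integral_nonneg fun x => mul_nonneg (sq_nonneg _) (w.nn x)
  have hSS0 : 0 ≤ SS v Φ := by
    unfold SS
    exact integral_nonneg fun x => mul_nonneg (sq_nonneg _) (w.nn x)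
  rw [← hHG] at HA
  have HB3 : ∫ x in {x : E3 | rad x < 3 * ε}, rad x * (hg (fun y => v y 2) x) ^ 2 * Φ x ≤
      3 * ε * HG := by
    have a1 : ∫ x in {x : E3 | rad x < 3 * ε}, rad x * (hg (fun y => v y 2) x) ^ 2 * Φ x ≤
        ∫ x in {x : E3 | rad x < 3 * ε}, 3 * ε * ((hg (fun y => v y 2) x) ^ 2 * Φ x) := by
      refine integral_mono_of_nonneg (Filter.Eventually.of_forall fun x =>
        mul_nonneg (mul_nonneg (rad_nonneg x) (sq_nonneg _)) (w.nn x))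
        ((hgi.const_mul (3 * ε)).integrableOn) ?_
      refine ae_restrict_of_forall_mem hmeas3 fun x hx => ?_
      have hx' : rad x < 3 * ε := hx
      beta_reduce
      rw [mul_assoc]
      exact mul_le_mul_of_nonneg_right hx'.le (mul_nonneg (sq_nonneg _) (w.nn x))
    refine a1.trans ?_
    have a2 : ∫ x in {x : E3 | rad x < 3 * ε}, 3 * ε * ((hg (fun y => v y 2) x) ^ 2 * Φ x) ≤
        ∫ x, 3 * ε * ((hg (fun y => v y 2) x) ^ 2 * Φ x) :=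
      setIntegral_le_integral (hgi.const_mul (3 * ε)) (Filter.Eventually.of_forall fun x =>
        mul_nonneg (by positivity) (mul_nonneg (sq_nonneg _) (w.nn x)))
    refine a2.trans_eq ?_
    rw [integral_const_mul, hHG]
  have HB4 : ∫ x in {x : E3 | rad x < 2 * ε}, Y2 ε v (x 2) * Φ x ≤ C6 * ε ^ 2 * (3 * ε * HG) :=
    HB'.trans (mul_le_mul_of_nonneg_left HB3 (by positivity))
  -- the dominating function
  obtain ⟨a, ha⟩ : ∃ a, a = κ * ε * N := ⟨_, rfl⟩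
  have ha0 : 0 < a := by
    rw [ha]
    positivity
  obtain ⟨A1, hA1⟩ : ∃ A1, A1 = 18 * C4 ^ 2 * κ / (ε * N) + C1 * C2 / (ε * N) := ⟨_, rfl⟩
  obtain ⟨A2, hA2⟩ : ∃ A2, A2 = 32 * C5 * κ / (ε ^ 2 * N) := ⟨_, rfl⟩
  have hA10 : 0 ≤ A1 := by
    rw [hA1]
    positivity
  have hA20 : 0 ≤ A2 := by
    rw [hA2]
    positivity
  have i1 : Integrable (fun x => f x ^ 2 * Φ x) := by
    refine wi (K := Kf ^ 2) w (hfs.continuous.pow 2) fun x => ?_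
    rw [abs_of_nonneg (sq_nonneg _), ← sq_abs]
    exact pow_le_pow_left₀ (abs_nonneg _) (hKf x).1 2
  have i2 : Integrable (fun x => Qd ε v x * Φ x) := by
    refine wi (K := 16 * K ^ 2) w hQc fun x => ?_
    rw [abs_of_nonneg (hQb x).1]
    exact (hQb x).2
  have i3 : Integrable ({x : E3 | rad x < 2 * ε}.indicator fun x => Y2 ε v (x 2) * Φ x) :=
    (integrable_indicator_iff hmeas).2 HB
  have hpt : ∀ x, |∑ i : Fin 3, rh ε v i x * (deriv (hk k) (f x) * pd i Φ x)| ≤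
      a / 2 * (f x ^ 2 * Φ x) + (A1 * (Qd ε v x * Φ x) +
        A2 * {x : E3 | rad x < 2 * ε}.indicator (fun x => Y2 ε v (x 2) * Φ x) x) := by
    intro x
    have hφ := hΦp x
    have hQ := (hQb x).1
    obtain ⟨g2, g4⟩ := hgΦ x
    rw [Fin.sum_univ_three]
    refine (Cn_sum _ _ _ _ _ _ _ |f x| (hk_0 hk0 (f x)).2.2.1).trans ?_
    have hI0 : 0 ≤ {x : E3 | rad x < 2 * ε}.indicator (fun x => Y2 ε v (x 2) * Φ x) x :=
      Set.indicator_nonneg (fun x _ => mul_nonneg (Cn_Y2 ε v _) (w.nn x)) x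
    -- the axial part
    have b1 : |f x| * (|rh ε v 2 x| * |pd 2 Φ x|) ≤ C1 * C2 / (ε * N) * (Qd ε v x * Φ x) := by
      obtain ⟨c1, c2⟩ := H2 κ N ε v h x
      rw [abs_of_nonneg c1]
      calc |f x| * (rh ε v 2 x * |pd 2 Φ x|) ≤ C1 / ε * (C2 * Qd ε v x * (1 / N * Φ x)) := by
            refine mul_le_mul (hfb x) (mul_le_mul c2 (hpz x) (abs_nonneg _) ?_)
              (mul_nonneg c1 (abs_nonneg _)) (by positivity)
            exact mul_nonneg (by linarith) hQ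
        _ = C1 * C2 / (ε * N) * (Qd ε v x * Φ x) := by
            field_simp
    have hg0 : 0 ≤ hg Φ x := Cn_hgn Φ x
    have hH0 : 0 ≤ √(rh ε v 0 x ^ 2 + rh ε v 1 x ^ 2) := Real.sqrt_nonneg _
    have hgd : √(pd 0 Φ x ^ 2 + pd 1 Φ x ^ 2) = hg Φ x := rfl
    rw [hgd]
    have hfs2 : |f x| ^ 2 = f x ^ 2 := sq_abs _
    by_cases hx : rad x < 2 * ε
    · have hH : √(rh ε v 0 x ^ 2 + rh ε v 1 x ^ 2) ^ 2 ≤ C5 * κ ^ 2 / ε ^ 3 * Y2 ε v (x 2) := by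
        rw [Real.sq_sqrt (by positivity)]
        exact (H5 κ N ε v h h0 h1 x hx).1
      have c1 := Cn_near h0 hx (rad_nonneg x) hg0 hφ.le hH g4
      have c2 := Cn_young (s := |f x|) ha0 hφ c1
      rw [hfs2] at c2
      have c3 : 64 * C5 * κ ^ 2 / ε * Y2 ε v (x 2) / (2 * a) * Φ x = A2 * (Y2 ε v (x 2) * Φ x) := by
        rw [hA2, ha]
        field_simp
        ring
      rw [c3] at c2
      rw [Set.indicator_of_mem (show x ∈ {x : E3 | rad x < 2 * ε} from hx)]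
      have c4 : C1 * C2 / (ε * N) * (Qd ε v x * Φ x) ≤ A1 * (Qd ε v x * Φ x) := by
        refine mul_le_mul_of_nonneg_right ?_ (mul_nonneg hQ hφ.le)
        rw [hA1]
        have : 0 ≤ 18 * C4 ^ 2 * κ / (ε * N) := by positivity
        linarith
      linarith
    · have hx2 : 2 * ε ≤ rad x := not_lt.1 hx
      have hρ : 0 < rad x := by linarith
      have hH := (H4 κ N ε v h h0 h1 x hx2).1
      have c1 := Cn_far (by linarith) hκ0.le hρ hQ hg0 hH0 hφ.le hH g2 g4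
      have c2 := Cn_young (s := |f x|) ha0 hφ c1
      rw [hfs2] at c2
      have c3 : 36 * C4 ^ 2 * κ ^ 2 * Qd ε v x / (2 * a) * Φ x =
          18 * C4 ^ 2 * κ / (ε * N) * (Qd ε v x * Φ x) := by
        rw [ha]
        field_simp
        ring
      rw [c3] at c2
      have c4 : 0 ≤ A2 * {x : E3 | rad x < 2 * ε}.indicator (fun x => Y2 ε v (x 2) * Φ x) x :=
        mul_nonneg hA20 hI0
      have c5 : A1 * (Qd ε v x * Φ x) = 18 * C4 ^ 2 * κ / (ε * N) * (Qd ε v x * Φ x) +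
          C1 * C2 / (ε * N) * (Qd ε v x * Φ x) := by
        rw [hA1]
        ring
      linarith
  have j1 : Integrable (fun x => a / 2 * (f x ^ 2 * Φ x)) := i1.const_mul _
  have j2 : Integrable (fun x => A1 * (Qd ε v x * Φ x)) := i2.const_mul _
  have j3 : Integrable (fun x => A2 * {x : E3 | rad x < 2 * ε}.indicator
      (fun x => Y2 ε v (x 2) * Φ x) x) := i3.const_mul _
  have j23 : Integrable (fun x => A1 * (Qd ε v x * Φ x) +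
      A2 * {x : E3 | rad x < 2 * ε}.indicator (fun x => Y2 ε v (x 2) * Φ x) x) := j2.add j3
  have hG : Integrable (fun x => a / 2 * (f x ^ 2 * Φ x) + (A1 * (Qd ε v x * Φ x) +
      A2 * {x : E3 | rad x < 2 * ε}.indicator (fun x => Y2 ε v (x 2) * Φ x) x)) := j1.add j23
  have k1 := norm_integral_le_of_norm_le hG (Filter.Eventually.of_forall fun x => by
    rw [Real.norm_eq_abs]
    exact hpt x)
  rw [Real.norm_eq_abs, integral_add j1 j23, integral_add j2 j3, integral_const_mul, integral_const_mul,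
    integral_const_mul, integral_indicator hmeas] at k1
  have k2 : a / 2 * ∫ x, f x ^ 2 * Φ x ≤ a / 2 * (64 / N ^ 2 * SS v Φ) :=
    mul_le_mul_of_nonneg_left hf2 (by positivity)
  have k3 := mul_le_mul_of_nonneg_left HA hA10
  have k4 := mul_le_mul_of_nonneg_left HB4 hA20
  rw [div_le_iff₀ hN0]
  have k5 : a / 2 * (64 / N ^ 2 * SS v Φ) = κ * ε / N * (32 * SS v Φ) := by
    rw [ha]
    field_simp
    ring
  have k6 : A1 * (C3 * ε ^ 2 * HG) = κ * ε / N * (18 * C4 ^ 2 * C3 * HG) +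
      ε / N * (C1 * C2 * C3 * HG) := by
    rw [hA1]
    field_simp
  have k7 : A2 * (C6 * ε ^ 2 * (3 * ε * HG)) = κ * ε / N * (96 * C5 * C6 * HG) := by
    rw [hA2]
    field_simp
    ring
  have k8 : ε / N * (C1 * C2 * C3 * HG) ≤ κ * ε / N * (C1 * C2 * C3 * HG) := by
    refine mul_le_mul_of_nonneg_right ?_ (by positivity)
    exact div_le_div_of_nonneg_right (le_mul_of_one_le_left h0.le hκ) hN0.le
  have k9 : (32 + (18 * C4 ^ 2 * C3 + 96 * C5 * C6 + C1 * C2 * C3)) * κ * ε / N ^ 2 *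
      (DD v Φ + SS v Φ) * N = κ * ε / N * ((32 + (18 * C4 ^ 2 * C3 + 96 * C5 * C6 +
        C1 * C2 * C3)) * (DD v Φ + SS v Φ)) := by
    field_simp
  rw [k9]
  have k10 : κ * ε / N * (32 * SS v Φ) + κ * ε / N * (18 * C4 ^ 2 * C3 * HG) +
      κ * ε / N * (C1 * C2 * C3 * HG) + κ * ε / N * (96 * C5 * C6 * HG) ≤
      κ * ε / N * ((32 + (18 * C4 ^ 2 * C3 + 96 * C5 * C6 + C1 * C2 * C3)) * (DD v Φ + SS v Φ)) := by
    rw [← mul_add, ← mul_add, ← mul_add]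
    refine mul_le_mul_of_nonneg_left ?_ (by positivity)
    have d1 : 0 ≤ 18 * C4 ^ 2 * C3 + 96 * C5 * C6 + C1 * C2 * C3 := by positivity
    have d2 := mul_le_mul_of_nonneg_left hHD d1
    have d3 := mul_nonneg d1 hSS0
    have d4 : 0 ≤ DD v Φ := hHG0.trans hHD
    nlinarith
  linarith

end Pool.Agent.H16.TU
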