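/-
ROW Co (MP_09540e_TU). The pressure term. PROOF. Φ = ww N Z R₁ 0, f = ft ε N v, v = u t, `g₀ = hk'(f) Φ` (C², as hk is C³, f and Φ smooth), `G = hm ε g₀` (C²: hm_c), `γ = pd 2 G = hm ε (pd 2 g₀)` (hm_pd). `pd 2 g₀ = hk''(f) pd 2 f Φ + hk'(f) pd 2 Φ`: `|pd 2 f| ≤ (Cκ/(εN)) (1/ε + 1) ≤ 2Cκ/(ε² N)` (m2, max ≥ ε), `|hk'(f)| ≤ |f| ≤ C/ε` (m1), `|pd 2 Φ| ≤ Φ/N` (wt_z, Z, R₁ ≥ 1):
`|pd 2 g₀| ≤ (C κ/(ε² N)) Φ`; hence `|γ| ≤ 64 (Cκ/(ε²N)) Φ` (hm_wt) and, by hm_k0, `|pd b γ| ≤ (C/ε) π 64 (Cκ/(ε²N)) Φ`, b = 0, 1. So with `B = C κ/(ε³ N)`: `|γ|, |pd 0 γ|, |pd 1 γ| ≤ B Φ`. G and γ are TF (γ is C¹; pd 2 γ = hm ε (pd 2 (pd 2 g₀)) is bounded by const·Φ, all derivatives bounded by const·Φ). pC with l = 2^m R₁ (C_p):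
`NE l γ ≤ B NE l Φ ≤ B 832 (2^m)^7 R₁ Φ` (ne_wt, A = 2^m), `FA l γ ≤ B FA l Φ` and fa_wt (ww_sc). So `|∫ pd 2 p G| ≤ C_p B [832·2^(7m) R₁ ∫ (hn √gv + 2 hn²) Φ + C ∑_{j ≥ m} (1/4)^j SS_j + (2^J R₁)⁻³ VV ∫‖v‖²]`. Finally with X = √gv, by hh: `hn² ≤ 2κX + κ²`, `hn X ≤ √(2κ) X^(3/2) + κ X`; `X^(3/2) ≤ N^(-1/2) X² + N^(3/2)`
(if X ≤ N then X^(3/2) ≤ N^(3/2), otherwise X^(3/2) ≤ X² N^(-1/2)), `X ≤ X²/N + N`: `hn X + 2 hn² ≤ 12 κ (X²/√N + N √N)` (κ ≤ N, 1 ≤ N, 1 ≤ κ). Divide by N.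
-/
import Pool.Agent.H16.TU.Cn
import Pool.Agent.H16.TU.Pf
import Pool.Agent.H16.TU.Wg
import Pool.Agent.H16.TU.We
import Pool.Agent.H16.TU.Ac

set_option autoImplicit false

open Set Filter Topology MeasureTheory
open scoped ContDiff

namespace Pool.Agent.H16.TU

open Pool.Agent.H16 Pool.Agent.H87.NS Pool.Agent.H72.CC

/-- Bounded together with the first derivatives. -/
private def Co_B (F : E3 → ℝ) : Prop :=
  ContDiff ℝ 1 F ∧ ∃ K : ℝ, ∀ x, |F x| ≤ K ∧ ∀ i, |pd i F x| ≤ K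

private theorem Co_d {F : E3 → ℝ} (h : ContDiff ℝ 1 F) : Differentiable ℝ F :=
  h.differentiable one_ne_zero

private theorem Co_mul {F G : E3 → ℝ} (hF : Co_B F) (hG : Co_B G) : Co_B (fun x => F x * G x) := by
  obtain ⟨c1, K, hK⟩ := hF
  obtain ⟨c2, M, hM⟩ := hG
  have hK0 : 0 ≤ K := (abs_nonneg _).trans (hK 0).1
  have hM0 : 0 ≤ M := (abs_nonneg _).trans (hM 0).1
  have hKM : 0 ≤ K * M := mul_nonneg hK0 hM0
  refine ⟨c1.mul c2, 2 * (K * M), fun x => ⟨?_, fun i => ?_⟩⟩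
  · rw [abs_mul]
    have := mul_le_mul (hK x).1 (hM x).1 (abs_nonneg _) hK0
    linarith
  · rw [Psi_mul (Co_d c1 x) (Co_d c2 x)]
    have h1 := mul_le_mul ((hK x).2 i) (hM x).1 (abs_nonneg _) hK0
    have h2 := mul_le_mul (hK x).1 ((hM x).2 i) (abs_nonneg _) hK0
    rw [← abs_mul] at h1 h2
    refine (abs_add_le _ _).trans ?_
    linarith

private theorem Co_add {F G : E3 → ℝ} (hF : Co_B F) (hG : Co_B G) : Co_B (fun x => F x + G x) := by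
  obtain ⟨c1, K, hK⟩ := hF
  obtain ⟨c2, M, hM⟩ := hG
  refine ⟨c1.add c2, K + M, fun x => ⟨?_, fun i => ?_⟩⟩
  · exact (abs_add_le _ _).trans (add_le_add (hK x).1 (hM x).1)
  · rw [Psi_add (Co_d c1 x) (Co_d c2 x)]
    exact (abs_add_le _ _).trans (add_le_add ((hK x).2 i) ((hM x).2 i))

private theorem Co_chain {f : E3 → ℝ} {H : ℝ → ℝ} {h' : ℝ} {x : E3} (hH : HasDerivAt H h' (f x))
    (hf : DifferentiableAt ℝ f x) (i : Fin 3) : pd i (fun y => H (f y)) x = h' * pd i f x := by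
  have h1 : HasFDerivAt (H ∘ f) (h' • fderiv ℝ f x) x := hH.comp_hasFDerivAt x hf.hasFDerivAt
  unfold pd
  have h2 : fderiv ℝ (fun y => H (f y)) x = h' • fderiv ℝ f x := h1.fderiv
  rw [h2]
  rfl

private theorem Co_comp {F : E3 → ℝ} {h : ℝ → ℝ} (hh : ContDiff ℝ 1 h) (hF : Co_B F) :
    Co_B (fun x => h (F x)) := by
  obtain ⟨c1, K, hK⟩ := hF
  have hd : Differentiable ℝ h := hh.differentiable one_ne_zero
  have hc : Continuous (deriv h) := hh.continuous_deriv (le_refl _)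
  obtain ⟨M1, hM1⟩ := (isCompact_Icc (a := -K) (b := K)).exists_bound_of_continuousOn
    hh.continuous.continuousOn
  obtain ⟨M2, hM2⟩ := (isCompact_Icc (a := -K) (b := K)).exists_bound_of_continuousOn
    hc.continuousOn
  have hm : ∀ x, F x ∈ Icc (-K) K := fun x => abs_le.1 (hK x).1
  refine ⟨hh.comp c1, max M1 (M2 * K), fun x => ⟨?_, fun i => ?_⟩⟩
  · have h1 := hM1 _ (hm x)
    rw [Real.norm_eq_abs] at h1
    exact h1.trans (le_max_left _ _)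
  · rw [Co_chain (hd _).hasDerivAt (Co_d c1 x), abs_mul]
    have h1 := hM2 _ (hm x)
    rw [Real.norm_eq_abs] at h1
    exact (mul_le_mul h1 ((hK x).2 i) (abs_nonneg _) ((abs_nonneg _).trans h1)).trans
      (le_max_right _ _)

/-- logarithmic derivative of the axial factor of the weight -/
private noncomputable def Co_g (L w : ℝ) : ℝ := -(2 * w / L ^ 2) * (1 + w ^ 2 / L ^ 2)⁻¹

private theorem Co_p (L w : ℝ) : 0 < 1 + w ^ 2 / L ^ 2 := by positivity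

private theorem Co_gd {L : ℝ} (hL : 0 < L) (w : ℝ) :
    HasDerivAt (fun w : ℝ => (1 + w ^ 2 / L ^ 2)⁻¹) (Co_g L w * (1 + w ^ 2 / L ^ 2)⁻¹) w := by
  have h0 := (Co_p L w).ne'
  have h1 : HasDerivAt (fun w : ℝ => 1 + w ^ 2 / L ^ 2) (2 * w / L ^ 2) w := by
    have h2 := ((hasDerivAt_pow 2 w).div_const (L ^ 2)).const_add 1
    refine h2.congr_deriv ?_
    norm_num
  have h3 := h1.inv h0
  refine h3.congr_deriv ?_
  unfold Co_g
  field_simp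

private theorem Co_gb {L : ℝ} (hL : 0 < L) (w : ℝ) : |Co_g L w| ≤ 1 / L := by
  have h0 := Co_p L w
  have h1 : |2 * w / L ^ 2| ≤ 1 / L * (1 + w ^ 2 / L ^ 2) := by
    rw [abs_div, abs_mul, abs_two, abs_of_pos (by positivity : (0 : ℝ) < L ^ 2),
      div_le_iff₀ (by positivity)]
    have h2 : 1 / L * (1 + w ^ 2 / L ^ 2) * L ^ 2 = (L ^ 2 + w ^ 2) / L := by
      field_simp
    rw [h2, le_div_iff₀ hL, ← sq_abs w]
    nlinarith [sq_nonneg (|w| - L)]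
  unfold Co_g
  rw [abs_mul, abs_neg, abs_of_pos (inv_pos.2 h0), ← div_eq_mul_inv, div_le_iff₀ h0]
  exact h1

private theorem Co_gd2 {L : ℝ} (hL : 0 < L) (w : ℝ) : |deriv (Co_g L) w| ≤ 3 / L ^ 2 := by
  have h0 := Co_p L w
  have h1 : HasDerivAt (fun w : ℝ => -(2 * w / L ^ 2)) (-(2 / L ^ 2)) w := by
    have h2 := (((hasDerivAt_id w).const_mul 2).div_const (L ^ 2)).neg
    refine h2.congr_deriv ?_
    norm_num
  have h3 := h1.mul (Co_gd hL w)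
  have h4 : deriv (Co_g L) w = -(2 / L ^ 2) * (1 + w ^ 2 / L ^ 2)⁻¹ + Co_g L w ^ 2 := by
    have h5 : Co_g L = (fun w : ℝ => -(2 * w / L ^ 2)) * fun w : ℝ => (1 + w ^ 2 / L ^ 2)⁻¹ := by
      funext w
      rfl
    rw [h5, h3.deriv]
    unfold Co_g
    simp only [Pi.mul_apply]
    ring
  have h6 : (1 + w ^ 2 / L ^ 2)⁻¹ ≤ 1 := by
    apply inv_le_one_of_one_le₀
    have : 0 ≤ w ^ 2 / L ^ 2 := by positivity
    linarith
  have h7 : 0 ≤ (1 + w ^ 2 / L ^ 2)⁻¹ := (inv_pos.2 h0).le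
  have h8 : Co_g L w ^ 2 ≤ (1 / L) ^ 2 := by
    rw [← sq_abs]
    exact pow_le_pow_left₀ (abs_nonneg _) (Co_gb hL w) 2
  have h9 : (1 / L) ^ 2 = 1 / L ^ 2 := by rw [one_div_pow]
  have h10 : 2 / L ^ 2 * (1 + w ^ 2 / L ^ 2)⁻¹ ≤ 2 / L ^ 2 * 1 :=
    mul_le_mul_of_nonneg_left h6 (by positivity)
  have h11 : 0 ≤ 2 / L ^ 2 * (1 + w ^ 2 / L ^ 2)⁻¹ := mul_nonneg (by positivity) h7
  have h12 : 3 / L ^ 2 = 2 / L ^ 2 + 1 / L ^ 2 := by ring
  have h13 : 0 ≤ 2 / L ^ 2 := by positivity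
  have h14 : 0 ≤ 1 / L ^ 2 := by positivity
  rw [h4, abs_le, h12]
  constructor
  · nlinarith [sq_nonneg (Co_g L w)]
  · nlinarith [sq_nonneg (Co_g L w)]

private theorem Co_gc (L : ℝ) : ContDiff ℝ 1 (Co_g L) := by
  unfold Co_g
  exact ((contDiff_const.mul contDiff_id).div_const _).neg.mul
    ((contDiff_const.add ((contDiff_id.pow 2).div_const _)).inv fun w => (Co_p L w).ne')

private theorem Co_q {L : ℝ} (hL : 0 < L) : Co_B (fun x : E3 => Co_g L (x 2)) := by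
  refine ⟨(Co_gc L).comp ((VRep_x 2).of_le (by exact_mod_cast le_top)), max (1 / L) (3 / L ^ 2),
    fun x => ⟨(Co_gb hL _).trans (le_max_left _ _), fun i => ?_⟩⟩
  have hd : Differentiable ℝ (Co_g L) := (Co_gc L).differentiable one_ne_zero
  rw [Co_chain (f := fun y : E3 => y 2) (hd _).hasDerivAt (Psi_dc 2 x), Psi_coord, abs_mul]
  have h1 := Co_gd2 hL (x 2)
  have h2 : |(if (2 : Fin 3) = i then (1 : ℝ) else 0)| ≤ 1 := by
    split_ifs <;> norm_num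
  have h3 := mul_le_mul h1 h2 (abs_nonneg _) (by positivity)
  rw [mul_one] at h3
  exact h3.trans (le_max_right _ _)

private theorem Co_pd2 {R L : ℝ} (hR : 0 < R) (hL : 0 < L) (x : E3) :
    pd 2 (wt R L 0) x = Co_g L (x 2) * wt R L 0 x := by
  obtain ⟨K, hK⟩ : ∃ K : ℝ → ℝ, K = fun w => ((1 + w / R ^ 2) ^ 2)⁻¹ := ⟨_, rfl⟩
  obtain ⟨H, hH⟩ : ∃ H : ℝ → ℝ, H = fun w => (1 + w ^ 2 / L ^ 2)⁻¹ := ⟨_, rfl⟩
  have h0 : wt R L 0 = fun y => K (rsq y) * H (y 2) := by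
    funext y
    rw [hK, hH]
    unfold wt
    rw [sub_zero]
  have hr : 0 < 1 + rsq x / R ^ 2 := by
    have : 0 ≤ rsq x := by
      unfold rsq
      positivity
    positivity
  have hKd : DifferentiableAt ℝ K (rsq x) := by
    rw [hK]
    exact (((differentiableAt_id.div_const _).const_add 1).pow 2).inv (pow_pos hr 2).ne'
  have hHd : HasDerivAt H (Co_g L (x 2) * H (x 2)) (x 2) := by
    rw [hH]
    exact Co_gd hL (x 2)
  have d1 : DifferentiableAt ℝ (fun y => K (rsq y)) x := hKd.comp x (Psi_rsq_diff x)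
  have d2 : DifferentiableAt ℝ (fun y : E3 => H (y 2)) x :=
    DifferentiableAt.comp x (g := H) (f := fun y : E3 => y 2) hHd.differentiableAt (Psi_dc 2 x)
  rw [h0, Psi_mul d1 d2, Co_chain (f := rsq) hKd.hasDerivAt (Psi_rsq_diff x),
    Co_chain (f := fun y : E3 => y 2) hHd (Psi_dc 2 x), Psi_rsq, if_pos rfl, Psi_coord, if_pos rfl]
  ring

/-- the near kernel applied to a function bounded by a weight -/
private theorem Co_ne {l : ℝ} (hl : 0 < l) {g Φ : E3 → ℝ} (hΦ : Continuous Φ)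
    (h0 : ∀ x, 0 ≤ Φ x ∧ Φ x ≤ 1) {B : ℝ} (hB : ∀ x, |g x| ≤ B * Φ x) (y : E3) :
    NE l g y ≤ B * NE l Φ y ∧ 0 ≤ NE l g y := by
  constructor
  · have h1 := We_pt hl hΦ h0 y
    rw [We_NE, We_NE, ← integral_const_mul]
    have h2 : (fun x => B * (We_K l (x - y) * |Φ x|)) = fun x => B * (We_K l (x - y) * Φ x) := by
      funext x
      rw [abs_of_nonneg (h0 x).1]
    rw [h2]
    refine integral_mono_of_nonneg (Filter.Eventually.of_forall fun x =>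
      mul_nonneg (We_K_nn _ _) (abs_nonneg _)) (h1.const_mul B)
      (Filter.Eventually.of_forall fun x => ?_)
    beta_reduce
    have h3 := mul_le_mul_of_nonneg_left (hB x) (We_K_nn l (x - y))
    linarith
  · rw [We_NE]
    exact integral_nonneg fun x => mul_nonneg (We_K_nn _ _) (abs_nonneg _)

/-- horizontal mollification of a function bounded by a weight -/
private theorem Co_hm : ∃ D : ℝ, 1 ≤ D ∧ ∀ (R L ε A : ℝ) (h : E3 → ℝ), 0 < R → R ≤ L → 0 < ε → ε ≤ 1 →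
    ε ≤ R → ContDiff ℝ 1 h → (∀ x, |h x| ≤ A * wt R L 0 x) → ∀ x,
    |hm ε h x| ≤ D * A / ε * wt R L 0 x ∧ |pd 0 (hm ε h) x| ≤ D * A / ε * wt R L 0 x ∧
      |pd 1 (hm ε h) x| ≤ D * A / ε * wt R L 0 x := by
  obtain ⟨b1, b2, b3, b4, b5, b6, b7⟩ := b_facts
  have hc : ∀ v : ℝ × ℝ, Continuous (fun y => fderiv ℝ bu y v) := fun v =>
    (b1.continuous_fderiv (by simp)).clm_apply continuous_const
  have hs : ∀ v : ℝ × ℝ, HasCompactSupport (fun y => fderiv ℝ bu y v) := fun v =>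
    b3.fderiv_apply (𝕜 := ℝ) v
  have hi : ∀ v : ℝ × ℝ, Integrable (fun y => fderiv ℝ bu y v) := fun v =>
    (hc v).integrable_of_hasCompactSupport (hs v)
  obtain ⟨d, hd⟩ : ∃ d : ℝ × ℝ → ℝ, ∀ v, d v = ∫ y, |fderiv ℝ bu y v| := ⟨_, fun _ => rfl⟩
  have hd0 : ∀ v, 0 ≤ d v := fun v => by
    rw [hd]
    exact integral_nonneg fun y => abs_nonneg _
  refine ⟨64 * (1 + d (1, 0) + d (0, 1)), by linarith [hd0 (1, 0), hd0 (0, 1)], ?_⟩
  intro R L ε A h hR hL hε hε1 hεR hh hA x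
  have hL0 : 0 < L := hR.trans_le hL
  have hw := wt_pos hR hL0 0
  have hA0 : 0 ≤ A := by
    have h1 := (abs_nonneg _).trans (hA 0)
    by_contra h2
    have h3 := mul_neg_of_neg_of_pos (not_le.1 h2) (hw 0)
    linarith
  have hε' : 1 ≤ 1 / ε := by
    rw [le_div_iff₀ hε]
    linarith
  have key : ∀ v : ℝ × ℝ, |∫ y : ℝ × ℝ, fderiv ℝ bu y v * h (x - ε • sh y)| ≤
      d v * (64 * A * wt R L 0 x) := by
    intro v
    rw [hd, ← integral_mul_const, ← Real.norm_eq_abs]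
    refine norm_integral_le_of_norm_le ((hi v).abs.mul_const _)
      (Filter.Eventually.of_forall fun y => ?_)
    rw [Real.norm_eq_abs, abs_mul]
    by_cases hy : y.1 ^ 2 + y.2 ^ 2 < 1
    · refine mul_le_mul_of_nonneg_left ?_ (abs_nonneg _)
      have h1 := (hm_wt hR hL hε.le hεR 0 x y hy).1
      have h2 := mul_le_mul_of_nonneg_left h1 hA0
      have h3 := hA (x - ε • sh y)
      linarith
    · rw [(b6 y (not_lt.1 hy)).2]
      simp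
  have hmain : ∀ a b : ℝ, 0 ≤ a → a ≤ 1 + d (1, 0) + d (0, 1) → |b| ≤ a * (64 * A * wt R L 0 x) →
      |b / ε| ≤ 64 * (1 + d (1, 0) + d (0, 1)) * A / ε * wt R L 0 x := by
    intro a b ha ha1 hb
    rw [abs_div, abs_of_pos hε, div_mul_eq_mul_div]
    apply div_le_div_of_nonneg_right _ hε.le
    refine hb.trans ?_
    have h1 : 0 ≤ 64 * A * wt R L 0 x := by
      have := hw x
      positivity
    have h2 := mul_le_mul_of_nonneg_right ha1 h1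
    linarith
  have h10 := hm_k0 hh hε x
  refine ⟨?_, ?_, ?_⟩
  · have hwc : Continuous (wt R L 0) := (wt_sm hR hL0 0).continuous
    have hhc : Continuous h := hh.continuous
    have h1 := (hm_wt hR hL hε.le hεR 0 x (0, 0) (by norm_num)).2.2
    have h2 : hm ε h x ≤ hm ε (fun y => A * wt R L 0 y) x :=
      hm_le hhc (continuous_const.mul hwc) (fun y => (le_abs_self _).trans (hA y)) ε x
    have h3 : hm ε (fun y => (-1) * h y) x ≤ hm ε (fun y => A * wt R L 0 y) x :=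
      hm_le (continuous_const.mul hhc) (continuous_const.mul hwc) (fun y => by
        show (-1) * h y ≤ A * wt R L 0 y
        have := (neg_le_abs _).trans (hA y)
        linarith) ε x
    rw [hm_cm] at h2 h3
    rw [hm_cm (wt R L 0)] at h3
    have h4 := mul_le_mul_of_nonneg_left h1 hA0
    have h5 : |hm ε h x| ≤ 64 * A * wt R L 0 x := by
      rw [abs_le]
      constructor
      · linarith
      · linarith
    refine h5.trans ?_
    have h6 : 0 ≤ 64 * A * wt R L 0 x := (abs_nonneg _).trans h5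
    have h7 : 1 ≤ (1 + d (1, 0) + d (0, 1)) * (1 / ε) :=
      one_le_mul_of_one_le_of_one_le (by linarith [hd0 (1, 0), hd0 (0, 1)]) hε'
    have h8 := mul_le_mul_of_nonneg_right h7 h6
    have h9 : 64 * (1 + d (1, 0) + d (0, 1)) * A / ε * wt R L 0 x =
        (1 + d (1, 0) + d (0, 1)) * (1 / ε) * (64 * A * wt R L 0 x) := by ring
    rw [h9]
    linarith
  · rw [h10.1]
    exact hmain (d (1, 0)) _ (hd0 _) (by linarith [hd0 (0, 1)]) (key (1, 0))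
  · rw [h10.2]
    exact hmain (d (0, 1)) _ (hd0 _) (by linarith [hd0 (1, 0)]) (key (0, 1))

/-- the pointwise inequality for the near part -/
private theorem Co_pt {κ N : ℝ} {v : E3 → E3} (h : Sl κ N v) (x : E3) :
    hn v x * √(gv v x) + 2 * hn v x ^ 2 ≤ 5 * κ * (gv v x / √N + N * √N) := by
  have hκ := h.one
  have hκN := h.le
  have hN : 1 ≤ N := hκ.trans hκN
  obtain ⟨X, hX⟩ : ∃ X, X = √(gv v x) := ⟨_, rfl⟩
  obtain ⟨n, hn'⟩ : ∃ n, n = √N := ⟨_, rfl⟩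
  have hgv : gv v x = X ^ 2 := by
    rw [hX, Real.sq_sqrt (ba_gv x 0 0).1]
  have hNn : N = n ^ 2 := by
    rw [hn', Real.sq_sqrt (by linarith)]
  have hX0 : 0 ≤ X := by rw [hX]; exact Real.sqrt_nonneg _
  have hn1 : 1 ≤ n := by
    rw [hn']
    exact Real.one_le_sqrt.2 hN
  have h1 := (hh h x).2.2.1
  rw [← hX] at h1 ⊢
  obtain ⟨a, ha⟩ : ∃ a, a = hn v x := ⟨_, rfl⟩
  have ha0 : 0 ≤ a := by
    rw [ha]
    unfold hn
    exact Real.sqrt_nonneg _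
  rw [← ha] at h1 ⊢
  rw [hgv, ← hn', hNn]
  rw [hNn] at hκN
  have hn0 : 0 < n := by linarith
  obtain ⟨W, hW⟩ : ∃ W, W = X ^ 2 / n + n ^ 2 * n := ⟨_, rfl⟩
  have e1 : X ^ 2 / n = W - n ^ 2 * n := by rw [hW]; ring
  have hWn : W * n = X ^ 2 + n ^ 4 := by
    rw [hW]
    field_simp
  -- `X n ≤ W / 2`, `κ ≤ n W`
  have h2 : 2 * (X * n) ≤ W := by
    have : 2 * (X * n) * n ≤ W * n := by
      rw [hWn]
      nlinarith [sq_nonneg (X - n ^ 2)]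
    exact le_of_mul_le_mul_right this hn0
  have h3 : n ^ 2 * n ≤ W := by
    rw [hW]
    have : 0 ≤ X ^ 2 / n := by positivity
    linarith
  have h4 : a * X ≤ κ * W := by
    -- `2 a X n ≤ (a n)^2 + X^2`
    have h5 : 2 * (a * X) * n ≤ n ^ 2 * a ^ 2 + X ^ 2 := by nlinarith [sq_nonneg (n * a - X)]
    have h6 : n ^ 2 * a ^ 2 ≤ n ^ 2 * (2 * κ * X + κ ^ 2) :=
      mul_le_mul_of_nonneg_left h1 (by positivity)
    have h7 : n ^ 2 * (2 * κ * X) ≤ κ * (W * n) := by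
      have h8 : κ * (2 * (X * n)) * n ≤ κ * W * n :=
        mul_le_mul_of_nonneg_right (mul_le_mul_of_nonneg_left h2 (by linarith)) hn0.le
      nlinarith
    have h9 : n ^ 2 * κ ^ 2 + X ^ 2 ≤ κ * (W * n) := by
      rw [hWn]
      have h10 : n ^ 2 * κ ^ 2 ≤ κ * n ^ 4 := by
        have : κ * κ * n ^ 2 ≤ κ * n ^ 2 * n ^ 2 :=
          mul_le_mul_of_nonneg_right (mul_le_mul_of_nonneg_left hκN (by linarith)) (by positivity)
        nlinarith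
      have h11 : X ^ 2 ≤ κ * X ^ 2 := le_mul_of_one_le_left (by positivity) hκ
      linarith
    have h12 : 2 * (a * X) * n ≤ 2 * (κ * W) * n := by nlinarith
    have h13 := le_of_mul_le_mul_right h12 hn0
    linarith
  have hX1 : X ≤ X * n := le_mul_of_one_le_right hX0 hn1
  have h14 : 4 * κ * X ≤ 2 * (κ * W) := by
    have h15 : 2 * X ≤ W := by linarith
    have := mul_le_mul_of_nonneg_left h15 (by linarith : (0 : ℝ) ≤ κ)
    linarith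
  have h16 : κ ^ 2 ≤ κ * W := by
    have h17 : n ^ 2 ≤ n ^ 2 * n := le_mul_of_one_le_right (by positivity) hn1
    have h18 : κ ≤ W := by linarith
    rw [pow_two]
    exact mul_le_mul_of_nonneg_left h18 (by linarith)
  rw [← hW]
  nlinarith

theorem cEp : ∃ C₁ : ℝ, 1 ≤ C₁ ∧ ∀ m : ℕ, ∃ C : ℝ, 1 ≤ C ∧ ∀ (T : ℝ) (u : ℝ → E3 → E3) (p : ℝ → E3 → ℝ), IsHInfAxisymNS T u p →
    ∀ t ∈ Ioo 0 T, ∀ κ N Z R₁ k ε : ℝ, Sl κ N (u t) → 1 ≤ Z → 1 ≤ R₁ → 0 < k → 0 < ε → ε ≤ 1 → ∀ J : ℕ, m ≤ J →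
    |∫ x, pd 2 (p t) x * hm ε (fun y => deriv (hk k) (ft ε N (u t) y) * ww N Z R₁ 0 y) x| / N ≤
      C * κ ^ 2 * R₁ / (ε ^ 3 * N ^ 2) * (DD (u t) (ww N Z R₁ 0) / √N + N * √N * VV (ww N Z R₁ 0)) +
      C₁ * κ / (ε ^ 3 * N ^ 2) * ((∑ j ∈ Finset.Icc m J, (1/4) ^ j * SS (u t) (ww N Z (2 ^ j * R₁) 0)) +
        ((2 ^ J * R₁) ^ 3)⁻¹ * VV (ww N Z R₁ 0) * ∫ x, ‖u t x‖ ^ 2) := by
  obtain ⟨C₁, hC₁, hm1⟩ := m1
  obtain ⟨C₂, hC₂, hm2⟩ := m2
  obtain ⟨Cp, hCp, hpC⟩ := pC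
  obtain ⟨Cf, hCf, hfa⟩ := fa_wt
  obtain ⟨D, hD, hhm⟩ := Co_hm
  obtain ⟨C₃, hC₃⟩ : ∃ C₃, C₃ = D * (2 * C₂ + C₁) := ⟨_, rfl⟩
  have hC₃0 : 0 < C₃ := by
    rw [hC₃]
    have : 0 < D := by linarith
    have : 0 < 2 * C₂ + C₁ := by linarith
    positivity
  refine ⟨Cp * C₃ * (Cf + 1) + 1, ?_, ?_⟩
  · have : 0 ≤ Cp * C₃ * (Cf + 1) := by positivity
    linarith
  intro m
  refine ⟨Cp * C₃ * (4160 * (2 ^ m) ^ 7) + 1, ?_, ?_⟩
  · have : 0 ≤ Cp * C₃ * (4160 * (2 ^ m) ^ 7) := by positivity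
    linarith
  intro T u p hns t ht κ N Z R₁ k ε hSl hZ hR hk0 hε hε1 J hmJ
  obtain ⟨v, hv⟩ : ∃ v, v = u t := ⟨_, rfl⟩
  have hpc := hpC T u p hns t ht
  rw [← hv] at hSl hpc ⊢
  have hκ := hSl.one
  have hκN := hSl.le
  have hN : 1 ≤ N := hκ.trans hκN
  have hN0 : 0 < N := by linarith
  have hκ0 : 0 < κ := by linarith
  have hR0 : 0 < R₁ := by linarith
  obtain ⟨hL0, hRL⟩ := Ad0_L hN hZ hR0
  obtain ⟨hw, hV0, -⟩ := ww_ok hN hZ hR0 0
  obtain ⟨L, hLd⟩ : ∃ L, L = Z * N * R₁ := ⟨_, rfl⟩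
  obtain ⟨Φ, hΦ⟩ : ∃ Φ, Φ = ww N Z R₁ 0 := ⟨_, rfl⟩
  have hΦw : Φ = wt R₁ L 0 := by
    rw [hΦ, hLd]
    rfl
  rw [← hLd] at hL0 hRL
  rw [← hΦ] at hw hV0 ⊢
  have hΦp : ∀ x, 0 < Φ x := by
    rw [hΦw]
    exact wt_pos hR0 hL0 0
  have hΦ1 : ∀ x, Φ x ≤ 1 := hw.le
  have hΦc : Continuous Φ := hw.sm.continuous
  obtain ⟨f, hf⟩ : ∃ f, f = ft ε N v := ⟨_, rfl⟩
  obtain ⟨fs, Kf, hKf⟩ := ft_bd (ε := ε) hSl
  rw [← hf] at fs hKf ⊢
  -- `C²` functions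
  have hk3 : ContDiff ℝ 3 (hk k) := hk_c
  have hk2 : ContDiff ℝ 2 (deriv (hk k)) := by
    have h1 : ContDiff ℝ (2 + 1) (hk k) := by
      norm_num
      exact hk3
    exact (contDiff_succ_iff_deriv.1 h1).2.2
  have hk1 : ContDiff ℝ 1 (deriv (deriv (hk k))) := by
    have h1 : ContDiff ℝ (1 + 1) (deriv (hk k)) := by
      norm_num
      exact hk2
    exact (contDiff_succ_iff_deriv.1 h1).2.2
  have hk21 : ContDiff ℝ 1 (deriv (hk k)) := hk2.of_le (by norm_num)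
  have hfB : Co_B f := ⟨fs.of_le (by exact_mod_cast le_top), Kf, fun x => ⟨(hKf x).1, (hKf x).2.1⟩⟩
  have hf2B : Co_B (pd 2 f) := ⟨(pd_smooth fs 2).of_le (by exact_mod_cast le_top), Kf,
    fun x => ⟨(hKf x).2.1 2, fun i => (hKf x).2.2 i 2⟩⟩
  have hg1 : Co_B (fun x => deriv (hk k) (f x)) := Co_comp hk21 hfB
  have hg2 : Co_B (fun x => deriv (deriv (hk k)) (f x)) := Co_comp hk1 hfB
  obtain ⟨F, hF⟩ : ∃ F : E3 → ℝ, F = fun x => deriv (deriv (hk k)) (f x) * pd 2 f x +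
    deriv (hk k) (f x) * Co_g L (x 2) := ⟨_, rfl⟩
  have hFB : Co_B F := by
    rw [hF]
    exact Co_add (Co_mul hg2 hf2B) (Co_mul hg1 (Co_q hL0))
  obtain ⟨g₀, hg₀⟩ : ∃ g₀ : E3 → ℝ, g₀ = fun y => deriv (hk k) (f y) * Φ y := ⟨_, rfl⟩
  rw [← hg₀]
  have hg₀c : ContDiff ℝ 1 g₀ := by
    rw [hg₀]
    exact hg1.1.mul (hw.sm.of_le (by exact_mod_cast le_top))
  have hpd : pd 2 g₀ = fun x => F x * Φ x := by
    funext x
    rw [hg₀, Psi_mul (Co_d hg1.1 x) (Psi_diff hw.sm x),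
      Co_chain (f := f) ((hk21.differentiable one_ne_zero) _).hasDerivAt (Psi_diff fs x), hF]
    have h1 : pd 2 Φ x = Co_g L (x 2) * Φ x := by
      rw [hΦw]
      exact Co_pd2 hR0 hL0 x
    rw [h1]
    ring
  obtain ⟨h, hh'⟩ : ∃ h, h = pd 2 g₀ := ⟨_, rfl⟩
  have hTF0 : TF g₀ := by
    rw [hg₀]
    obtain ⟨c, K, hK⟩ := hg1
    exact ba_tf hw c hK
  have hTFh : TF h := by
    rw [hh', hpd]
    obtain ⟨c, K, hK⟩ := hFB
    exact ba_tf hw c hK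
  obtain ⟨γ, hγ⟩ : ∃ γ, γ = pd 2 (hm ε g₀) := ⟨_, rfl⟩
  have hγh : γ = hm ε h := by
    rw [hγ, hm_pd hg₀c, hh']
  have hTFγ : TF γ := by
    rw [hγh]
    exact hm_tf hTFh ε
  -- the bound of `h`
  have hfb : ∀ x, |f x| ≤ C₁ / ε := by
    intro x
    rw [hf]
    unfold ft
    rw [abs_div, abs_of_pos hN0, div_le_iff₀ hN0]
    have h1 := hm1 κ N ε v hSl hε hε1 x
    have h2 : C₁ * N / ε = C₁ / ε * N := by ring
    rw [← h2]
    exact h1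
  have hv2 : ContDiff ℝ ∞ (hm ε (fun y => v y 2)) := hm_sm (Psi_v2 hSl.ax) ε
  have hf2b : ∀ x, |pd 2 f x| ≤ 2 * C₂ * κ / (ε ^ 2 * N) := by
    intro x
    have h0 : f = fun x => N⁻¹ * hm ε (fun y => v y 2) x := by
      funext x
      rw [hf]
      unfold ft
      rw [div_eq_inv_mul]
    rw [h0, Psi_cm (Psi_diff hv2 x), abs_mul, abs_of_pos (inv_pos.2 hN0)]
    have h1 := (hm2 κ N ε v hSl hε hε1 x).2.2.2.2
    have h2 : 1 / max (rad x) ε + 1 ≤ 2 / ε := by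
      have h3 : 1 / max (rad x) ε ≤ 1 / ε := one_div_le_one_div_of_le hε (le_max_right _ _)
      have h4 : 1 ≤ 1 / ε := by
        rw [le_div_iff₀ hε]
        linarith
      have h5 : 2 / ε = 1 / ε + 1 / ε := by ring
      linarith
    have h6 : C₂ * κ / ε * (1 / max (rad x) ε + 1) ≤ C₂ * κ / ε * (2 / ε) :=
      mul_le_mul_of_nonneg_left h2 (by positivity)
    have h7 := mul_le_mul_of_nonneg_left (h1.trans h6) (inv_pos.2 hN0).le
    refine h7.trans (le_of_eq ?_)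
    field_simp
  have hhb : ∀ x, |h x| ≤ (2 * C₂ + C₁) * κ / (ε ^ 2 * N) * wt R₁ L 0 x := by
    intro x
    rw [← hΦw, hh', hpd, abs_mul, abs_of_pos (hΦp x)]
    refine mul_le_mul_of_nonneg_right ?_ (hΦp x).le
    rw [hF]
    obtain ⟨-, -, a1, a2, a3, -⟩ := hk_0 hk0 (f x)
    have h1 : |deriv (deriv (hk k)) (f x) * pd 2 f x| ≤ 2 * C₂ * κ / (ε ^ 2 * N) := by
      rw [abs_mul, abs_of_nonneg a2]
      have := mul_le_mul a3 (hf2b x) (abs_nonneg _) zero_le_one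
      rw [one_mul] at this
      exact this
    have h2 : |deriv (hk k) (f x) * Co_g L (x 2)| ≤ C₁ * κ / (ε ^ 2 * N) := by
      rw [abs_mul]
      have h3 := mul_le_mul (a1.trans (hfb x)) (Co_gb hL0 (x 2)) (abs_nonneg _)
        (by positivity : (0 : ℝ) ≤ C₁ / ε)
      refine h3.trans ?_
      have h4 : N ≤ L := by
        rw [hLd]
        have h5 : 1 ≤ Z * R₁ := one_le_mul_of_one_le_of_one_le hZ hR
        nlinarith
      have h6 : 1 / L ≤ 1 / N := one_div_le_one_div_of_le hN0 h4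
      have h7 : C₁ / ε * (1 / L) ≤ C₁ / ε * (1 / N) := mul_le_mul_of_nonneg_left h6 (by positivity)
      refine h7.trans ?_
      have h8 : 1 ≤ κ / ε := by
        rw [le_div_iff₀ hε]
        linarith
      have h9 : C₁ * κ / (ε ^ 2 * N) = C₁ / ε * (1 / N) * (κ / ε) := by
        field_simp
      rw [h9]
      exact le_mul_of_one_le_right (by positivity) h8
    have h3 : (2 * C₂ + C₁) * κ / (ε ^ 2 * N) = 2 * C₂ * κ / (ε ^ 2 * N) + C₁ * κ / (ε ^ 2 * N) := by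
      ring
    rw [h3]
    exact (abs_add_le _ _).trans (add_le_add h1 h2)
  obtain ⟨B, hB⟩ : ∃ B, B = C₃ * κ / (ε ^ 3 * N) := ⟨_, rfl⟩
  have hB0 : 0 < B := by
    rw [hB]
    positivity
  have hBe : D * ((2 * C₂ + C₁) * κ / (ε ^ 2 * N)) / ε = B := by
    rw [hB, hC₃]
    field_simp
  have hγb := hhm R₁ L ε ((2 * C₂ + C₁) * κ / (ε ^ 2 * N)) h hR0 hRL hε hε1 (hε1.trans hR) hTFh.c1 hhb
  rw [hBe, ← hγh, ← hΦw] at hγb
  have hpt : pd 2 (hm ε g₀) = γ := hγ.symm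
  have hpc2 := hpc (hm ε g₀) (hm_tf hTF0 ε) (by rw [hpt]; exact hTFγ) (2 ^ m * R₁) (by positivity)
  rw [hpt] at hpc2
  have hl0 : (0 : ℝ) < 2 ^ m * R₁ := by positivity
  have hΦ01 : ∀ x, 0 ≤ Φ x ∧ Φ x ≤ 1 := fun x => ⟨(hΦp x).le, hΦ1 x⟩
  have hA1 : (1 : ℝ) ≤ 2 ^ m := one_le_pow₀ (by norm_num)
  obtain ⟨E, hE⟩ : ∃ E : ℝ, E = B * (832 * (2 ^ m) ^ 7 * R₁) := ⟨_, rfl⟩
  have hE0 : 0 < E := by
    rw [hE]
    positivity
  have hne : ∀ g : E3 → ℝ, (∀ x, |g x| ≤ B * Φ x) → ∀ y,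
      NE (2 ^ m * R₁) g y ≤ E * Φ y ∧ 0 ≤ NE (2 ^ m * R₁) g y := by
    intro g hg y
    obtain ⟨h1, h2⟩ := Co_ne hl0 hΦc hΦ01 hg y
    refine ⟨h1.trans ?_, h2⟩
    have h3 := ne_wt hA1 hR0 hRL 0 y
    rw [← hΦw] at h3
    have h4 := mul_le_mul_of_nonneg_left h3 hB0.le
    rw [hE]
    linarith
  obtain ⟨K, hK0, hK, i1, -⟩ := ba_vf hSl.vf
  have hvc := ba_gvc hSl.ax.smooth
  have hgv0 : ∀ x, 0 ≤ gv v x := fun x => (ba_gv x 0 0).1
  have hn0 : ∀ x, 0 ≤ hn v x := fun x => Real.sqrt_nonneg _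
  -- near part
  have hnear : ∫ y, (hn v y * √(gv v y) * NE (2 ^ m * R₁) γ y +
      hn v y ^ 2 * (NE (2 ^ m * R₁) (pd 0 γ) y + NE (2 ^ m * R₁) (pd 1 γ) y)) ≤
      5 * κ * E * (DD v Φ / √N + N * √N * VV Φ) := by
    have j1 : Integrable (fun x => gv v x * Φ x) := wi hw hvc.1 (K := K) fun x => by
      rw [abs_of_nonneg (hgv0 x)]
      exact (hK x).2.1
    have e1 : 5 * κ * E * (DD v Φ / √N + N * √N * VV Φ) =
        ∫ y, (5 * κ * E / √N * (gv v y * Φ y) + 5 * κ * E * (N * √N) * Φ y) := by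
      rw [integral_add (j1.const_mul _) (hw.int.const_mul _), integral_const_mul, integral_const_mul]
      unfold DD VV
      ring
    rw [e1]
    refine integral_mono_of_nonneg (Filter.Eventually.of_forall fun y => ?_)
      ((j1.const_mul _).add (hw.int.const_mul _)) (Filter.Eventually.of_forall fun y => ?_)
    · have a1 := (hne γ (fun x => (hγb x).1) y).2
      have a2 := (hne (pd 0 γ) (fun x => (hγb x).2.1) y).2
      have a3 := (hne (pd 1 γ) (fun x => (hγb x).2.2) y).2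
      have a4 := hn0 y
      have a5 := Real.sqrt_nonneg (gv v y)
      beta_reduce
      positivity
    · have a1 := (hne γ (fun x => (hγb x).1) y).1
      have a2 := (hne (pd 0 γ) (fun x => (hγb x).2.1) y).1
      have a3 := (hne (pd 1 γ) (fun x => (hγb x).2.2) y).1
      have a4 := hn0 y
      have a5 := Real.sqrt_nonneg (gv v y)
      have b1 := mul_le_mul_of_nonneg_left a1 (mul_nonneg a4 a5)
      have b2 := mul_le_mul_of_nonneg_left (add_le_add a2 a3) (sq_nonneg (hn v y))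
      have b3 := mul_le_mul_of_nonneg_right (Co_pt hSl y) (mul_pos hE0 (hΦp y)).le
      beta_reduce
      have e2 : 5 * κ * E / √N * (gv v y * Φ y) + 5 * κ * E * (N * √N) * Φ y =
          5 * κ * (gv v y / √N + N * √N) * (E * Φ y) := by ring
      rw [e2]
      refine le_trans ?_ b3
      linarith
  -- far part
  have hfar : ∫ y, ‖v y‖ ^ 2 * FA (2 ^ m * R₁) γ y ≤
      B * (Cf * (∑ j ∈ Finset.Icc m J, (1/4) ^ j * SS v (ww N Z (2 ^ j * R₁) 0)) +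
        ((2 ^ J * R₁) ^ 3)⁻¹ * VV Φ * ∫ x, ‖v x‖ ^ 2) := by
    have h1 : ∀ y, FA (2 ^ m * R₁) γ y ≤ B * FA (2 ^ m * R₁) Φ y := by
      intro y
      have h2 := Ac_mono (a := B) (b := 0) hl0 (g := γ) hw.int hw.int (fun x => by
        rw [abs_of_pos (hΦp x), zero_mul, add_zero]
        exact (hγb x).1) y
      rw [zero_mul, add_zero] at h2
      exact h2
    have h2 : ∀ y, FA (2 ^ m * R₁) (wt R₁ L 0) y ≤
        Cf * (∑ j ∈ Finset.Icc m J, (1/4) ^ j * wt (2 ^ j * R₁) (2 ^ j * L) 0 y) +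
        ((2 ^ J * R₁) ^ 3)⁻¹ * VV (wt R₁ L 0) := hfa R₁ L 0 hR0 hRL m J hmJ
    have h3 := Ac_one hR0 hRL h2 (f := fun y => ‖v y‖ ^ 2) (K := K ^ 2) (hvc.2.1.pow 2)
      (fun x => ⟨by positivity, pow_le_pow_left₀ (norm_nonneg _) (hK x).1 2⟩) i1
    have h4 : ∀ j, ∫ y, ‖v y‖ ^ 2 * wt (2 ^ j * R₁) (2 ^ j * L) 0 y = SS v (ww N Z (2 ^ j * R₁) 0) := by
      intro j
      rw [hLd, ww_sc]
      rfl
    rw [Finset.sum_congr rfl fun j _ => by rw [h4 j], ← hΦw] at h3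
    have h5 : ∫ y, ‖v y‖ ^ 2 * FA (2 ^ m * R₁) γ y ≤
        ∫ y, B * (‖v y‖ ^ 2 * FA (2 ^ m * R₁) Φ y) := by
      refine integral_mono_of_nonneg (Filter.Eventually.of_forall fun y =>
        mul_nonneg (by positivity) (Ac_nn hl0 _ y)) ((Ac_wint hl0 i1 hw.int).const_mul _)
        (Filter.Eventually.of_forall fun y => ?_)
      beta_reduce
      have h6 := mul_le_mul_of_nonneg_left (h1 y) (sq_nonneg ‖v y‖)
      linarith
    rw [integral_const_mul] at h5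
    exact h5.trans (mul_le_mul_of_nonneg_left h3 hB0.le)
  obtain ⟨S, hS⟩ : ∃ S, S = ∑ j ∈ Finset.Icc m J, (1/4) ^ j * SS v (ww N Z (2 ^ j * R₁) 0) := ⟨_, rfl⟩
  obtain ⟨Q, hQ⟩ : ∃ Q, Q = ((2 ^ J * R₁) ^ 3)⁻¹ * VV Φ * ∫ x, ‖v x‖ ^ 2 := ⟨_, rfl⟩
  obtain ⟨W, hW⟩ : ∃ W, W = DD v Φ / √N + N * √N * VV Φ := ⟨_, rfl⟩
  rw [← hS, ← hQ] at hfar ⊢
  rw [← hW] at hnear ⊢
  have hS0 : 0 ≤ S := by
    rw [hS]
    refine Finset.sum_nonneg fun j _ => mul_nonneg (by positivity) (integral_nonneg fun x => ?_)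
    refine mul_nonneg (by positivity) ?_
    exact (ww_ok hN hZ (by positivity : (0:ℝ) < 2 ^ j * R₁) 0).1.nn x
  have hQ0 : 0 ≤ Q := by
    rw [hQ]
    exact mul_nonneg (mul_nonneg (by positivity) hV0) (integral_nonneg fun x => by positivity)
  have hW0 : 0 ≤ W := by
    rw [hW]
    have h1 : 0 ≤ DD v Φ := integral_nonneg fun x => mul_nonneg (hgv0 x) (hΦp x).le
    positivity
  have hfin := hpc2.trans (mul_le_mul_of_nonneg_left (add_le_add hnear hfar) hCp.le)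
  have hfin2 := div_le_div_of_nonneg_right hfin hN0.le
  refine hfin2.trans ?_
  have e1 : Cp * (5 * κ * E * W + B * (Cf * S + Q)) / N =
      Cp * C₃ * (4160 * (2 ^ m) ^ 7) * κ ^ 2 * R₁ / (ε ^ 3 * N ^ 2) * W +
        Cp * C₃ * κ / (ε ^ 3 * N ^ 2) * (Cf * S + Q) := by
    rw [hE, hB]
    field_simp
    ring
  rw [e1]
  have e2 : (Cp * C₃ * (4160 * (2 ^ m) ^ 7) + 1) * κ ^ 2 * R₁ / (ε ^ 3 * N ^ 2) * W =
      Cp * C₃ * (4160 * (2 ^ m) ^ 7) * κ ^ 2 * R₁ / (ε ^ 3 * N ^ 2) * W +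
        κ ^ 2 * R₁ / (ε ^ 3 * N ^ 2) * W := by ring
  have e3 : 0 ≤ κ ^ 2 * R₁ / (ε ^ 3 * N ^ 2) * W := by positivity
  have e4 : (Cp * C₃ * (Cf + 1) + 1) * κ / (ε ^ 3 * N ^ 2) * (S + Q) =
      Cp * C₃ * κ / (ε ^ 3 * N ^ 2) * (Cf * S + Q) +
      (Cp * C₃ * κ / (ε ^ 3 * N ^ 2) * (S + Cf * Q) + κ / (ε ^ 3 * N ^ 2) * (S + Q)) := by ring
  have e5 : 0 ≤ Cp * C₃ * κ / (ε ^ 3 * N ^ 2) * (S + Cf * Q) + κ / (ε ^ 3 * N ^ 2) * (S + Q) := by
    positivity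
  rw [e2, e4]
  linarith

end Pool.Agent.H16.TU
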