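/-
ROW Cq (MP_09540e_TU). The differential inequality. PROOF. RR is the sum of: `- ∫ hk''(f) gsq f Φ ≤ - ∫ hk''(f) (hg f)² Φ ≤ -(1/16) ∫ f² hk(f) Φ` (hk'' ≥ 0, gsq ≥ hg²; star); the fluxes `≤ (1/64) ∫ f² hk Φ` (fx); the commutators with hk'': `(1/N) |∑ rh i hk'' pd i f| ≤ (1/N²) TT` (pd i f = pd i (hm v₂)/N, 0 ≤ hk'' ≤ 1, Cauchy-Schwarz for i = 0, 1), cCom; the commutators with hk': cE2;
the pressure: cEp. `-(1/16) + 1/64 = -3/64` and `∫ f² hk Φ ≥ k² ∫ hk Φ = k² HH` (hk_5). C is the maximum of the constants of cCom and cE2; C₁ from cEp. Split the third integral of RR into its two parts (both integrable: bounded continuous times Φ, |pd i Φ| ≤ const Φ).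
-/
import Pool.Agent.H16.TU.Ch
import Pool.Agent.H16.TU.Co

set_option autoImplicit false

open Set Filter Topology MeasureTheory
open scoped ContDiff

namespace Pool.Agent.H16.TU

open Pool.Agent.H16 Pool.Agent.H87.NS Pool.Agent.H72.CC

theorem Cq_comp {v : E3 → E3} (hv : ContDiff ℝ ∞ v) (j : Fin 3) : ContDiff ℝ ∞ (fun y => v y j) :=
  (EuclideanSpace.proj j : E3 →L[ℝ] ℝ).contDiff.comp hv

theorem Cq_pdf {ε N : ℝ} {v : E3 → E3} (hv : ContDiff ℝ ∞ v) (i : Fin 3) (x : E3) :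
    pd i (ft ε N v) x = pd i (hm ε (fun y => v y 2)) x / N := by
  have hd : DifferentiableAt ℝ (hm ε (fun y => v y 2)) x :=
    (hm_sm (Cq_comp hv 2) ε).differentiable (by simp) x
  have h1 : ft ε N v = fun y => hm ε (fun y => v y 2) y * N⁻¹ := by
    funext y
    unfold ft
    rw [div_eq_mul_inv]
  unfold pd
  rw [h1, fderiv_mul_const hd]
  simp [div_eq_mul_inv, mul_comm]

theorem Cq_sqrt (a b : ℝ) : √(a ^ 2 + b ^ 2) ≤ |a| + |b| := by
  refine Real.sqrt_le_iff.2 ⟨by positivity, ?_⟩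
  have h1 : 0 ≤ |a| * |b| := by positivity
  nlinarith [sq_abs a, sq_abs b]

theorem Cq_TT {κ N ε k : ℝ} {v : E3 → E3} (h : Sl κ N v) (hk0 : 0 < k) (x : E3) :
    |∑ i : Fin 3, rh ε v i x * (deriv (deriv (hk k)) (ft ε N v x) * pd i (ft ε N v) x)| ≤ TT ε v x / N := by
  have hN : 0 < N := by
    have := h.one.trans h.le
    linarith
  obtain ⟨-, -, -, h1, h2, -⟩ := hk_0 hk0 (ft ε N v x)
  rw [Fin.sum_univ_three, Cq_pdf h.ax.smooth, Cq_pdf h.ax.smooth, Cq_pdf h.ax.smooth]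
  unfold TT hg
  generalize rh ε v 0 x = a
  generalize rh ε v 1 x = b
  generalize rh ε v 2 x = c
  generalize pd 0 (hm ε (fun y => v y 2)) x = A
  generalize pd 1 (hm ε (fun y => v y 2)) x = B
  generalize pd 2 (hm ε (fun y => v y 2)) x = D
  generalize deriv (deriv (hk k)) (ft ε N v x) = s at h1 h2 ⊢
  have e1 : a * (s * (A / N)) + b * (s * (B / N)) + c * (s * (D / N)) = s * ((a * A + b * B) + c * D) / N := by ring
  rw [e1, abs_div, abs_of_pos hN, abs_mul, abs_of_nonneg h1]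
  refine div_le_div_of_nonneg_right ?_ hN.le
  have e2 := Fa_cs a b A B
  have e3 := abs_add_le (a * A + b * B) (c * D)
  rw [abs_mul c D] at e3
  calc s * |a * A + b * B + c * D| ≤ 1 * |a * A + b * B + c * D| := mul_le_mul_of_nonneg_right h2 (abs_nonneg _)
    _ ≤ _ := by rw [one_mul]; linarith

/-- everything about a fixed slice -/
theorem Cq_sl {κ N Z R₁ k ε : ℝ} {v : E3 → E3} (h : Sl κ N v) (hZ : 1 ≤ Z) (hR : 1 ≤ R₁) (hk0 : 0 < k)
    (hk1 : 32 ≤ R₁ * k) :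
    (∫ x, ft ε N v x ^ 2 * hk k (ft ε N v x) * ww N Z R₁ 0 x) ≤
      16 * ∫ x, deriv (deriv (hk k)) (ft ε N v x) * gsq (ft ε N v) x * ww N Z R₁ 0 x ∧
    k ^ 2 * HH k ε N v (ww N Z R₁ 0) ≤ ∫ x, ft ε N v x ^ 2 * hk k (ft ε N v x) * ww N Z R₁ 0 x ∧
    (∫ x, ∑ i : Fin 3, rh ε v i x * (deriv (deriv (hk k)) (ft ε N v x) * pd i (ft ε N v) x * ww N Z R₁ 0 x +
      deriv (hk k) (ft ε N v x) * pd i (ww N Z R₁ 0) x)) ≤ (∫ x, TT ε v x * ww N Z R₁ 0 x) / N +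
      |∫ x, ∑ i : Fin 3, rh ε v i x * (deriv (hk k) (ft ε N v x) * pd i (ww N Z R₁ 0) x)| := by
  have hN1 : 1 ≤ N := h.one.trans h.le
  have hN : 0 < N := by linarith
  have w := (ww_ok hN1 hZ (by linarith : 0 < R₁) 0).1
  have hst := star (ε := ε) h hZ hR hk0 hk1
  obtain ⟨hf, K, hK⟩ := ft_bd (ε := ε) h
  obtain ⟨K₂, hK₂0, hK₂, -, -⟩ := ba_vf h.vf
  have hv := h.ax.smooth
  have hpf := Cq_pdf (ε := ε) (N := N) hv
  generalize 4 / R₁ = c at w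
  have TTdef : ∀ x, TT ε v x = √(rh ε v 0 x ^ 2 + rh ε v 1 x ^ 2) * hg (hm ε (fun y => v y 2)) x +
      |rh ε v 2 x| * |pd 2 (hm ε (fun y => v y 2)) x| := fun x => rfl
  have hTT := fun x => Cq_TT (ε := ε) h hk0 x
  unfold HH
  obtain ⟨Φ, hΦ⟩ : ∃ Φ : E3 → ℝ, Φ = ww N Z R₁ 0 := ⟨_, rfl⟩
  rw [← hΦ] at w hst ⊢
  obtain ⟨f, hfd⟩ : ∃ f : E3 → ℝ, f = ft ε N v := ⟨_, rfl⟩
  simp only [← hfd] at hst hf hK hpf hTT ⊢
  obtain ⟨m, hm'⟩ : ∃ m : E3 → ℝ, m = hm ε (fun y => v y 2) := ⟨_, rfl⟩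
  have hmsm : ContDiff ℝ ∞ m := by rw [hm']; exact hm_sm (Cq_comp hv 2) ε
  simp only [← hm'] at hpf TTdef
  have hK0 : 0 ≤ K := (abs_nonneg _).trans (hK 0).1
  -- continuity
  have cf : Continuous f := hf.continuous
  have cpf : ∀ i, Continuous (pd i f) := fun i => pd_cont (hf.of_le (by exact_mod_cast le_top)) i
  have cpm : ∀ i, Continuous (pd i m) := fun i => pd_cont (hmsm.of_le (by exact_mod_cast le_top)) i
  have c0 : Continuous (hk k) := hk_c.continuous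
  have h3 : ContDiff ℝ (2 + 1) (hk k) := hk_c
  have h4 : ContDiff ℝ 2 (deriv (hk k)) := (contDiff_succ_iff_deriv.1 h3).2.2
  have c1 : Continuous (deriv (hk k)) := h4.continuous
  have c2 : Continuous (deriv (deriv (hk k))) := h4.continuous_deriv (by norm_num)
  have cv : ∀ i, Continuous (fun y => v y i) := fun i => (Cq_comp hv i).continuous
  have crh : ∀ i, Continuous (rh ε v i) := by
    intro i
    unfold rh
    exact (hm_cont ((cv i).mul (cv 2)) ε).sub ((hm_cont (cv i) ε).mul (hm_cont (cv 2) ε))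
  have cpΦ : ∀ i, Continuous (pd i Φ) := fun i => pd_cont (w.sm.of_le (by exact_mod_cast le_top)) i
  -- bounds
  have bv : ∀ i x, |v x i| ≤ K₂ := by
    intro i x
    refine le_trans ?_ (hK₂ x).1
    have := PiLp.norm_apply_le (v x) i
    rwa [Real.norm_eq_abs] at this
  have brh : ∀ i x, |rh ε v i x| ≤ 2 * K₂ ^ 2 := by
    intro i x
    unfold rh
    have a1 : |hm ε (fun y => v y i * v y 2) x| ≤ K₂ * K₂ := hm_abs ((cv i).mul (cv 2)) (fun y => by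
      show |v y i * v y 2| ≤ K₂ * K₂
      rw [abs_mul]
      exact mul_le_mul (bv i y) (bv 2 y) (abs_nonneg _) hK₂0) ε x
    have a2 : |hm ε (fun y => v y i) x * hm ε (fun y => v y 2) x| ≤ K₂ * K₂ := by
      rw [abs_mul]
      exact mul_le_mul (hm_abs (cv i) (bv i) ε x) (hm_abs (cv 2) (bv 2) ε x) (abs_nonneg _) hK₂0
    have a3 := abs_sub (hm ε (fun y => v y i * v y 2) x) (hm ε (fun y => v y i) x * hm ε (fun y => v y 2) x)
    nlinarith
  have b0 : ∀ x, |hk k (f x)| ≤ K ^ 2 / 2 := by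
    intro x
    obtain ⟨e1, e2, -⟩ := hk_0 hk0 (f x)
    rw [abs_of_nonneg e1]
    have e3 : f x ^ 2 ≤ K ^ 2 := by
      rw [← sq_abs]
      exact pow_le_pow_left₀ (abs_nonneg _) (hK x).1 2
    linarith
  have b1 : ∀ x, |deriv (hk k) (f x)| ≤ K := fun x => (hk_0 hk0 (f x)).2.2.1.trans (hK x).1
  have b2 : ∀ x, |deriv (deriv (hk k)) (f x)| ≤ 1 := by
    intro x
    obtain ⟨-, -, -, e1, e2, -⟩ := hk_0 hk0 (f x)
    rw [abs_of_nonneg e1]
    exact e2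
  have bp2 : ∀ i x, pd i f x ^ 2 ≤ K ^ 2 := by
    intro i x
    rw [← sq_abs]
    exact pow_le_pow_left₀ (abs_nonneg _) ((hK x).2.1 i) 2
  have hgsq : ∀ x, hg f x ^ 2 = pd 0 f x ^ 2 + pd 1 f x ^ 2 := by
    intro x
    unfold hg
    rw [Real.sq_sqrt (by positivity)]
  have hgs : ∀ x, gsq f x = pd 0 f x ^ 2 + pd 1 f x ^ 2 + pd 2 f x ^ 2 := by
    intro x
    unfold gsq
    rw [Fin.sum_univ_three]
  have chg : Continuous (fun x => hg f x ^ 2) := by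
    simp only [hgsq]
    exact ((cpf 0).pow 2).add ((cpf 1).pow 2)
  have cgs : Continuous (fun x => gsq f x) := by
    simp only [hgs]
    exact (((cpf 0).pow 2).add ((cpf 1).pow 2)).add ((cpf 2).pow 2)
  have i1 : Integrable (fun x => deriv (deriv (hk k)) (f x) * hg f x ^ 2 * Φ x) := by
    refine wi w ((c2.comp cf).mul chg) (K := 2 * K ^ 2) fun x => ?_
    rw [abs_mul, abs_of_nonneg (sq_nonneg (hg f x)), hgsq]
    have e1 := bp2 0 x
    have e2 := bp2 1 x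
    calc |deriv (deriv (hk k)) (f x)| * (pd 0 f x ^ 2 + pd 1 f x ^ 2) ≤ 1 * (pd 0 f x ^ 2 + pd 1 f x ^ 2) :=
          mul_le_mul_of_nonneg_right (b2 x) (by positivity)
      _ ≤ _ := by linarith
  have i2 : Integrable (fun x => deriv (deriv (hk k)) (f x) * gsq f x * Φ x) := by
    refine wi w ((c2.comp cf).mul cgs) (K := 3 * K ^ 2) fun x => ?_
    rw [abs_mul, abs_of_nonneg (gsq_nonneg f x), hgs]
    have e1 := bp2 0 x
    have e2 := bp2 1 x
    have e3 := bp2 2 x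
    calc |deriv (deriv (hk k)) (f x)| * (pd 0 f x ^ 2 + pd 1 f x ^ 2 + pd 2 f x ^ 2) ≤
          1 * (pd 0 f x ^ 2 + pd 1 f x ^ 2 + pd 2 f x ^ 2) :=
          mul_le_mul_of_nonneg_right (b2 x) (by positivity)
      _ ≤ _ := by linarith
  have i3 : Integrable (fun x => hk k (f x) * Φ x) := wi w (c0.comp cf) b0
  have i4 : Integrable (fun x => f x ^ 2 * hk k (f x) * Φ x) := by
    refine wi w ((cf.pow 2).mul (c0.comp cf)) (K := K ^ 2 * (K ^ 2 / 2)) fun x => ?_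
    rw [abs_mul]
    refine mul_le_mul ?_ (b0 x) (abs_nonneg _) (sq_nonneg K)
    rw [abs_of_nonneg (sq_nonneg (f x)), ← sq_abs]
    exact pow_le_pow_left₀ (abs_nonneg _) (hK x).1 2
  refine ⟨?_, ?_, ?_⟩
  · refine hst.trans (mul_le_mul_of_nonneg_left ?_ (by norm_num))
    refine integral_mono i1 i2 fun x => ?_
    refine mul_le_mul_of_nonneg_right (mul_le_mul_of_nonneg_left ?_ (hk_0 hk0 (f x)).2.2.2.1) (w.nn x)
    rw [hgsq, hgs]
    have := sq_nonneg (pd 2 f x)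
    linarith
  · rw [← integral_const_mul]
    refine integral_mono (i3.const_mul _) i4 fun x => ?_
    show k ^ 2 * (hk k (f x) * Φ x) ≤ f x ^ 2 * hk k (f x) * Φ x
    rw [← mul_assoc]
    exact mul_le_mul_of_nonneg_right (hk_5 hk0 (f x)).1 (w.nn x)
  · -- the third integral
    have j1 : Integrable (fun x => (∑ i : Fin 3, rh ε v i x * (deriv (deriv (hk k)) (f x) * pd i f x)) * Φ x) := by
      refine wi w (continuous_finsetSum _ fun i _ => (crh i).mul ((c2.comp cf).mul (cpf i)))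
        (K := ∑ i : Fin 3, 2 * K₂ ^ 2 * (1 * K)) fun x => ?_
      refine (Finset.abs_sum_le_sum_abs _ _).trans (Finset.sum_le_sum fun i _ => ?_)
      rw [abs_mul, abs_mul]
      exact mul_le_mul (brh i x) (mul_le_mul (b2 x) ((hK x).2.1 i) (abs_nonneg _) zero_le_one)
        (by positivity) (by positivity)
    have j2 : Integrable (fun x => ∑ i : Fin 3, rh ε v i x * (deriv (hk k) (f x) * pd i Φ x)) := by
      refine integrable_finsetSum _ fun i _ => ?_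
      refine Integrable.mono' (w.int.const_mul (2 * K₂ ^ 2 * (K * c)))
        ((crh i).mul ((c1.comp cf).mul (cpΦ i))).aestronglyMeasurable (Filter.Eventually.of_forall fun x => ?_)
      rw [Real.norm_eq_abs, abs_mul, abs_mul]
      have e1 : |deriv (hk k) (f x)| * |pd i Φ x| ≤ K * (c * Φ x) :=
        mul_le_mul (b1 x) (w.g1 i x) (abs_nonneg _) hK0
      calc |rh ε v i x| * (|deriv (hk k) (f x)| * |pd i Φ x|) ≤ 2 * K₂ ^ 2 * (K * (c * Φ x)) :=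
            mul_le_mul (brh i x) e1 (by positivity) (by positivity)
        _ = _ := by ring
    have e0 : (∫ x, ∑ i : Fin 3, rh ε v i x * (deriv (deriv (hk k)) (f x) * pd i f x * Φ x +
        deriv (hk k) (f x) * pd i Φ x)) =
        (∫ x, (∑ i : Fin 3, rh ε v i x * (deriv (deriv (hk k)) (f x) * pd i f x)) * Φ x) +
        ∫ x, ∑ i : Fin 3, rh ε v i x * (deriv (hk k) (f x) * pd i Φ x) := by
      rw [← integral_add j1 j2]
      refine integral_congr_ae (Filter.Eventually.of_forall fun x => ?_)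
      simp only []
      rw [Finset.sum_mul, ← Finset.sum_add_distrib]
      refine Finset.sum_congr rfl fun i _ => ?_
      ring
    rw [e0]
    refine add_le_add ?_ (le_abs_self _)
    have bm : ∀ i x, |pd i m x| ≤ N * K := by
      intro i x
      have e1 : pd i m x = N * pd i f x := by
        rw [hpf i x]
        field_simp
      rw [e1, abs_mul, abs_of_pos hN]
      exact mul_le_mul_of_nonneg_left ((hK x).2.1 i) hN.le
    have iT : Integrable (fun x => TT ε v x * Φ x) := by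
      have cTT : Continuous (TT ε v) := by
        have : TT ε v = fun x => √(rh ε v 0 x ^ 2 + rh ε v 1 x ^ 2) * hg m x + |rh ε v 2 x| * |pd 2 m x| :=
          funext TTdef
        rw [this]
        unfold hg
        exact (((((crh 0).pow 2).add ((crh 1).pow 2)).sqrt).mul
          ((((cpm 0).pow 2).add ((cpm 1).pow 2)).sqrt)).add ((crh 2).abs.mul (cpm 2).abs)
      refine wi w cTT (K := (2 * K₂ ^ 2 + 2 * K₂ ^ 2) * (N * K + N * K) + 2 * K₂ ^ 2 * (N * K)) fun x => ?_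
      rw [TTdef]
      unfold hg
      have e1 := Cq_sqrt (rh ε v 0 x) (rh ε v 1 x)
      have e2 := Cq_sqrt (pd 0 m x) (pd 1 m x)
      rw [abs_of_nonneg (by positivity)]
      refine add_le_add (mul_le_mul (e1.trans (add_le_add (brh 0 x) (brh 1 x)))
        (e2.trans (add_le_add (bm 0 x) (bm 1 x))) (Real.sqrt_nonneg _) (by positivity))
        (mul_le_mul (brh 2 x) (bm 2 x) (abs_nonneg _) (by positivity))
    rw [← integral_div]
    refine integral_mono j1 (iT.div_const N) fun x => ?_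
    show (∑ i : Fin 3, rh ε v i x * (deriv (deriv (hk k)) (f x) * pd i f x)) * Φ x ≤ TT ε v x * Φ x / N
    have e1 := (le_abs_self _).trans (hTT x)
    have e2 : TT ε v x * Φ x / N = TT ε v x / N * Φ x := by ring
    rw [e2]
    exact mul_le_mul_of_nonneg_right e1 (w.nn x)

theorem cQ : ∃ C C₁ : ℝ, 1 ≤ C ∧ 1 ≤ C₁ ∧ ∀ m : ℕ, ∃ C₂ : ℝ, 1 ≤ C₂ ∧ ∀ (T : ℝ) (u : ℝ → E3 → E3) (p : ℝ → E3 → ℝ), IsHInfAxisymNS T u p →
    ∀ t ∈ Ioo 0 T, ∀ κ N Z R₁ k ε : ℝ, Sl κ N (u t) → 1 ≤ Z → 1 ≤ R₁ → 0 < k → k ≤ 1 → C * κ ≤ R₁ * k ^ 2 → 32 ≤ R₁ * k →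
    0 < ε → ε ≤ 1 → ∀ J : ℕ, m ≤ J →
    RR k ε N (u t) (p t) (ww N Z R₁ 0) ≤ - (3 * k ^ 2 / 64) * HH k ε N (u t) (ww N Z R₁ 0) +
      C * κ / N ^ 2 * (∫ x, (hg (fun y => u t y 2) x) ^ 2 * (me ε (rad x) * ww N Z R₁ 0 x)) +
      C * κ * ε / N ^ 2 * (DD (u t) (ww N Z R₁ 0) + SS (u t) (ww N Z R₁ 0)) +
      C₂ * κ ^ 2 * R₁ / (ε ^ 3 * N ^ 2) * (DD (u t) (ww N Z R₁ 0) / √N + N * √N * VV (ww N Z R₁ 0)) +
      C₁ * κ / (ε ^ 3 * N ^ 2) * ((∑ j ∈ Finset.Icc m J, (1/4) ^ j * SS (u t) (ww N Z (2 ^ j * R₁) 0)) +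
        ((2 ^ J * R₁) ^ 3)⁻¹ * VV (ww N Z R₁ 0) * ∫ x, ‖u t x‖ ^ 2) := by
  obtain ⟨Cf, hCf1, hCf⟩ := fx
  obtain ⟨Cc, hCc1, hCc⟩ := cCom
  obtain ⟨Ce, hCe1, hCe⟩ := cE2
  obtain ⟨C₁, hC₁, hCp⟩ := cEp
  refine ⟨Cf + Cc + Ce, C₁, by linarith, hC₁, ?_⟩
  intro m
  obtain ⟨C₂, hC₂, hP⟩ := hCp m
  refine ⟨C₂, hC₂, ?_⟩
  intro T u p hns t ht κ N Z R₁ k ε hS hZ hR hk0 hk1 hCκ h32 hε hε1 J hJ
  have hκ : 0 < κ := by linarith [hS.one]
  have hN1 : 1 ≤ N := hS.one.trans hS.le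
  have hN : 0 < N := by linarith
  have w := (ww_ok hN1 hZ (by linarith : 0 < R₁) 0).1
  obtain ⟨a1, a2, a3⟩ := Cq_sl (ε := ε) hS hZ hR hk0 h32
  have b1 := hCf κ N Z R₁ k ε (u t) hS hZ hR hk0 hk1 (by nlinarith) hε hε1
  have b2 := hCc κ N Z R₁ ε (u t) hS hZ hR hε hε1
  have b3 := hCe κ N Z R₁ k ε (u t) hS hZ hR hk0 hε hε1
  have b4 := hP T u p hns t ht κ N Z R₁ k ε hS hZ hR hk0 hε hε1 J hJ
  unfold RR
  generalize C₂ * κ ^ 2 * R₁ / (ε ^ 3 * N ^ 2) * (DD (u t) (ww N Z R₁ 0) / √N + N * √N * VV (ww N Z R₁ 0)) = P at b4 ⊢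
  generalize C₁ * κ / (ε ^ 3 * N ^ 2) * ((∑ j ∈ Finset.Icc m J, (1/4) ^ j * SS (u t) (ww N Z (2 ^ j * R₁) 0)) +
        ((2 ^ J * R₁) ^ 3)⁻¹ * VV (ww N Z R₁ 0) * ∫ x, ‖u t x‖ ^ 2) = P' at b4 ⊢
  have d1 : 0 ≤ ∫ x, (hg (fun y => u t y 2) x) ^ 2 * (me ε (rad x) * ww N Z R₁ 0 x) := by
    refine integral_nonneg fun x => ?_
    exact mul_nonneg (sq_nonneg _) (mul_nonneg (me_b hε (rad_nonneg x)).1 (w.nn x))
  have d2 : 0 ≤ DD (u t) (ww N Z R₁ 0) := by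
    unfold DD
    exact integral_nonneg fun x => mul_nonneg (ba_gv x 0 0).1 (w.nn x)
  have d3 : 0 ≤ SS (u t) (ww N Z R₁ 0) := by
    unfold SS
    exact integral_nonneg fun x => mul_nonneg (sq_nonneg _) (w.nn x)
  generalize (∫ x, (hg (fun y => u t y 2) x) ^ 2 * (me ε (rad x) * ww N Z R₁ 0 x)) = G at d1 b2 ⊢
  generalize DD (u t) (ww N Z R₁ 0) = D at d2 b3 ⊢
  generalize SS (u t) (ww N Z R₁ 0) = S at d3 b3 ⊢
  generalize HH k ε N (u t) (ww N Z R₁ 0) = H at a2 ⊢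
  generalize (∫ x, ft ε N (u t) x ^ 2 * hk k (ft ε N (u t) x) * ww N Z R₁ 0 x) = J0 at a1 a2 b1
  generalize (∫ x, deriv (deriv (hk k)) (ft ε N (u t) x) * gsq (ft ε N (u t)) x * ww N Z R₁ 0 x) = I1 at a1 ⊢
  generalize (∫ x, TT ε (u t) x * ww N Z R₁ 0 x) = I5 at a3 b2
  generalize (∫ x, ∑ i : Fin 3, rh ε (u t) i x * (deriv (hk k) (ft ε N (u t) x) * pd i (ww N Z R₁ 0) x)) = I6 at a3 b3
  generalize (∫ x, ∑ i : Fin 3, rh ε (u t) i x * (deriv (deriv (hk k)) (ft ε N (u t) x) * pd i (ft ε N (u t)) x *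
    ww N Z R₁ 0 x + deriv (hk k) (ft ε N (u t) x) * pd i (ww N Z R₁ 0) x)) = I3 at a3 ⊢
  generalize (∫ x, hk k (ft ε N (u t) x) * (lap (ww N Z R₁ 0) x + adv (hv ε (u t) x) (ww N Z R₁ 0) x)) = I2 at b1 ⊢
  generalize (∫ x, pd 2 (p t) x * hm ε (fun y => deriv (hk k) (ft ε N (u t) y) * ww N Z R₁ 0 y) x) = I4 at b4 ⊢
  have e1 : I3 / N ≤ Cc * κ / N ^ 2 * G + Ce * κ * ε / N ^ 2 * (D + S) := by
    have f1 : I3 / N ≤ (I5 / N + |I6|) / N := div_le_div_of_nonneg_right a3 hN.le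
    have f2 : (I5 / N + |I6|) / N = I5 / N ^ 2 + |I6| / N := by
      field_simp
    have f3 : I5 / N ^ 2 ≤ Cc * κ * G / N ^ 2 := div_le_div_of_nonneg_right b2 (by positivity)
    have f4 : Cc * κ * G / N ^ 2 = Cc * κ / N ^ 2 * G := by ring
    linarith
  have e2 : -(I4 / N) ≤ P + P' := by
    have f1 : -(I4 / N) ≤ |I4| / N := by
      rw [← neg_div]
      exact div_le_div_of_nonneg_right (neg_le_abs I4) hN.le
    linarith
  have e3 := (le_abs_self I2).trans b1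
  have e4 : 0 ≤ κ / N ^ 2 * G := by positivity
  have e5 : 0 ≤ κ * ε / N ^ 2 * (D + S) := by positivity
  have e6 : Cc * κ / N ^ 2 * G ≤ (Cf + Cc + Ce) * κ / N ^ 2 * G := by
    have f1 : (Cf + Cc + Ce) * κ / N ^ 2 * G - Cc * κ / N ^ 2 * G = (Cf + Ce) * (κ / N ^ 2 * G) := by ring
    have f2 : 0 ≤ (Cf + Ce) * (κ / N ^ 2 * G) := mul_nonneg (by linarith) e4
    linarith
  have e7 : Ce * κ * ε / N ^ 2 * (D + S) ≤ (Cf + Cc + Ce) * κ * ε / N ^ 2 * (D + S) := by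
    have f1 : (Cf + Cc + Ce) * κ * ε / N ^ 2 * (D + S) - Ce * κ * ε / N ^ 2 * (D + S) =
      (Cf + Cc) * (κ * ε / N ^ 2 * (D + S)) := by ring
    have f2 : 0 ≤ (Cf + Cc) * (κ * ε / N ^ 2 * (D + S)) := mul_nonneg (by linarith) e5
    linarith
  have e8 : - (3 * k ^ 2 / 64) * H = -(3 / 64) * (k ^ 2 * H) := by ring
  rw [e8]
  linarith

end Pool.Agent.H16.TU
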