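import Pool.Agent.H16.TU.Defs2

/-! Test functions of the static argument, and rescaling: definitions. -/

set_option autoImplicit false

open Set Filter Topology MeasureTheory
open scoped ContDiff

namespace Pool.Agent.H16.TU

open Pool.Agent.H16 Pool.Agent.H87.NS Pool.Agent.H72.CC

/-- Vertical bump: `1` for `z² ≤ l² / 2`, `0` for `|z| ≥ l`. -/
noncomputable def pz (l z : ℝ) : ℝ := Real.smoothTransition (2 - 2 * z ^ 2 / l ^ 2)

/-- The test function: `pz l (x 2)` for `rsq x ≤ 1 - δ`, zero for `rad x ≥ 1`. -/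
noncomputable def gd (δ l : ℝ) (x : E3) : ℝ := Real.smoothTransition ((1 - rsq x) / δ) * pz l (x 2)

/-- Rescaled velocity. -/
noncomputable def us (ρ z : ℝ) (u : ℝ → E3 → E3) (t : ℝ) (x : E3) : E3 := ρ • u (ρ ^ 2 * t) (axp z + ρ • x)

/-- Rescaled pressure. -/
noncomputable def psc (ρ z : ℝ) (p : ℝ → E3 → ℝ) (t : ℝ) (x : E3) : ℝ := ρ ^ 2 * p (ρ ^ 2 * t) (axp z + ρ • x)

end Pool.Agent.H16.TU
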