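/-
ROW Da (MP_09540e_TU). The test function. PROOF. S = Real.smoothTransition: smooth, monotone, 0 for ≤ 0, 1 for ≥ 1, values in [0,1], first and second derivatives bounded (Cut_bd in H72/CC/Cut.lean). pz_f: for `|z| ≥ l` the argument is ≤ 0, for `z² ≤ l²/2` it is ≥ 1; so `∫ pz ≥ √2 l ≥ l` (restrict to `|z| ≤ l/√2`), support in [-l, l]. gd_f: composition of smooth maps;
if rad x ≥ 1 (rsq x = rad x ² ≥ 1) the first factor is 0; if rsq x ≤ 1 - δ it is 1. Compact support: contained in {rad ≤ 1, |x 2| ≤ l}. TF: C^∞ with compact support (Continuous.integrable_of_hasCompactSupport; pd i of it has compact support). `∫ gd ≤ ∫ 1_{rad x < 1} pz (x 2) = π ∫ pz` (cyl in H72/CC/Cyl.lean or Cyl_mp and the area of the disc).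
gd_2: for a, b ∈ {0,1}: `pd a gd = S'((1-rsq)/δ)(-2 x_a/δ) pz`, `pd b pd a gd = (S'' 4 x_a x_b/δ² - 2 δ_ab S'/δ) pz`, with |x_a| ≤ 1 where S', S'' ≠ 0: `≤ C/δ²` (δ ≤ 1), and zero if rad x ≥ 1 or |x 2| ≥ l.
-/
import Pool.Agent.H16.TU.Defs4
import Pool.Agent.H16.TU.Ba

set_option autoImplicit false

open Set Filter Topology MeasureTheory
open scoped ContDiff

namespace Pool.Agent.H16.TU

open Pool.Agent.H16 Pool.Agent.H87.NS Pool.Agent.H72.CC

theorem Da_pz_smooth (l : ℝ) : ContDiff ℝ ∞ (pz l) := by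
  unfold pz
  exact Real.smoothTransition.contDiff.comp
    (contDiff_const.sub ((contDiff_const.mul (contDiff_id.pow 2)).div_const _))

theorem Da_pz_zero {l : ℝ} (hl : 0 < l) {z : ℝ} (hz : l ≤ |z|) : pz l z = 0 := by
  unfold pz
  apply Real.smoothTransition.zero_of_nonpos
  have h1 : l ^ 2 ≤ z ^ 2 := by
    rw [← sq_abs z]
    exact pow_le_pow_left₀ hl.le hz 2
  have h2 : 2 ≤ 2 * z ^ 2 / l ^ 2 := by
    rw [le_div_iff₀ (by positivity)]
    linarith
  linarith

theorem Da_pz_one {l : ℝ} (hl : 0 < l) {z : ℝ} (hz : |z| ≤ l / 2) : pz l z = 1 := by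
  unfold pz
  apply Real.smoothTransition.one_of_one_le
  have h1 : z ^ 2 ≤ (l / 2) ^ 2 := by
    rw [← sq_abs z]
    exact pow_le_pow_left₀ (abs_nonneg z) hz 2
  have h2 : 2 * z ^ 2 / l ^ 2 ≤ 1 := by
    rw [div_le_iff₀ (by positivity)]
    nlinarith
  linarith

theorem Da_pz_01 (l z : ℝ) : 0 ≤ pz l z ∧ pz l z ≤ 1 :=
  ⟨Real.smoothTransition.nonneg _, Real.smoothTransition.le_one _⟩

theorem pz_f {l : ℝ} (hl : 0 < l) : ContDiff ℝ ∞ (pz l) ∧ Integrable (pz l) ∧ l ≤ ∫ z, pz l z ∧ ∫ z, pz l z ≤ 2 * l ∧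
    ∀ z, 0 ≤ pz l z ∧ pz l z ≤ 1 ∧ (l ≤ |z| → pz l z = 0) := by
  have hsm := Da_pz_smooth l
  have hcs : HasCompactSupport (pz l) := by
    apply HasCompactSupport.intro (isCompact_Icc (a := -l) (b := l))
    intro z hz
    apply Da_pz_zero hl
    by_contra hlt
    rw [not_le, abs_lt] at hlt
    exact hz ⟨hlt.1.le, hlt.2.le⟩
  have hint : Integrable (pz l) := hsm.continuous.integrable_of_hasCompactSupport hcs
  refine ⟨hsm, hint, ?_, ?_, fun z => ⟨(Da_pz_01 l z).1, (Da_pz_01 l z).2, Da_pz_zero hl⟩⟩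
  · have h1 : ∫ z, (Icc (-(l / 2)) (l / 2)).indicator (fun _ => (1 : ℝ)) z ≤ ∫ z, pz l z := by
      refine integral_mono ?_ hint fun z => ?_
      · rw [integrable_indicator_iff measurableSet_Icc]
        exact integrableOn_const (by rw [Real.volume_Icc]; exact ENNReal.ofReal_ne_top)
      · by_cases hz : z ∈ Icc (-(l / 2)) (l / 2)
        · rw [indicator_of_mem hz, Da_pz_one hl (abs_le.2 ⟨hz.1, hz.2⟩)]
        · rw [indicator_of_notMem hz]
          exact (Da_pz_01 l z).1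
    rw [integral_indicator measurableSet_Icc, setIntegral_const, Measure.real, Real.volume_Icc,
      ENNReal.toReal_ofReal (by linarith), smul_eq_mul, mul_one] at h1
    linarith
  · have h1 : ∫ z, pz l z ≤ ∫ z, (Icc (-l) l).indicator (fun _ => (1 : ℝ)) z := by
      refine integral_mono hint ?_ fun z => ?_
      · rw [integrable_indicator_iff measurableSet_Icc]
        exact integrableOn_const (by rw [Real.volume_Icc]; exact ENNReal.ofReal_ne_top)
      · by_cases hz : z ∈ Icc (-l) l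
        · rw [indicator_of_mem hz]
          exact (Da_pz_01 l z).2
        · rw [indicator_of_notMem hz, Da_pz_zero hl]
          by_contra hlt
          rw [not_le, abs_lt] at hlt
          exact hz ⟨hlt.1.le, hlt.2.le⟩
    rw [integral_indicator measurableSet_Icc, setIntegral_const, Measure.real, Real.volume_Icc,
      ENNReal.toReal_ofReal (by linarith), smul_eq_mul, mul_one] at h1
    linarith

theorem Da_rsq_smooth : ContDiff ℝ ∞ (rsq : E3 → ℝ) := by
  unfold rsq
  exact ((Cut_coord 0).pow 2).add ((Cut_coord 1).pow 2)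

theorem Da_gd_smooth (δ l : ℝ) : ContDiff ℝ ∞ (gd δ l) := by
  unfold gd
  exact (Real.smoothTransition.contDiff.comp
    ((contDiff_const.sub Da_rsq_smooth).div_const _)).mul ((Da_pz_smooth l).comp (Cut_coord 2))

theorem Da_rad {x : E3} (hx : 1 ≤ rad x) : 1 ≤ rsq x := by
  rw [← rad_sq' x]
  nlinarith

theorem Da_gd_rad {δ : ℝ} (l : ℝ) (hδ : 0 < δ) {x : E3} (hx : 1 ≤ rad x) : gd δ l x = 0 := by
  unfold gd
  rw [Real.smoothTransition.zero_of_nonpos, zero_mul]
  apply div_nonpos_of_nonpos_of_nonneg _ hδ.le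
  have := Da_rad hx
  linarith

theorem Da_gd_z (δ : ℝ) {l : ℝ} (hl : 0 < l) {x : E3} (hx : l ≤ |x 2|) : gd δ l x = 0 := by
  unfold gd
  rw [Da_pz_zero hl hx, mul_zero]

theorem Da_gd_le (δ l : ℝ) (x : E3) : 0 ≤ gd δ l x ∧ gd δ l x ≤ pz l (x 2) := by
  unfold gd
  refine ⟨mul_nonneg (Real.smoothTransition.nonneg _) (Da_pz_01 l _).1, ?_⟩
  have h1 := mul_le_mul_of_nonneg_right (Real.smoothTransition.le_one ((1 - rsq x) / δ))
    (Da_pz_01 l (x 2)).1
  rw [one_mul] at h1
  exact h1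

theorem Da_disc : ∫⁻ r in Ioi (0 : ℝ), ENNReal.ofReal r * (Iio (1 : ℝ)).indicator (fun _ => 1) r =
    ENNReal.ofReal (1 / 2) := by
  have h1 : ∀ r : ℝ, ENNReal.ofReal r * (Iio (1 : ℝ)).indicator (fun _ => 1) r =
      (Iio (1 : ℝ)).indicator (fun r => ENNReal.ofReal r) r := by
    intro r
    by_cases hr : r ∈ Iio (1 : ℝ)
    · rw [indicator_of_mem hr, indicator_of_mem hr, mul_one]
    · rw [indicator_of_notMem hr, indicator_of_notMem hr, mul_zero]
  simp only [h1]
  rw [lintegral_indicator measurableSet_Iio, Measure.restrict_restrict measurableSet_Iio]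
  have h2 : Iio (1 : ℝ) ∩ Ioi 0 = Ioo 0 1 := by
    ext r
    simp only [mem_inter_iff, mem_Iio, mem_Ioi, mem_Ioo]
    exact and_comm
  rw [h2]
  have hi : Integrable (fun r : ℝ => r) (volume.restrict (Ioo (0 : ℝ) 1)) :=
    (continuous_id.integrableOn_Icc (a := (0 : ℝ)) (b := 1)).mono_set Ioo_subset_Icc_self
  rw [← ofReal_integral_eq_lintegral_ofReal hi]
  · congr 1
    rw [← integral_Ioc_eq_integral_Ioo, ← intervalIntegral.integral_of_le zero_le_one, integral_id]
    norm_num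
  · filter_upwards [ae_restrict_mem measurableSet_Ioo] with r hr
    exact hr.1.le

theorem gd_f {δ l : ℝ} (hδ : 0 < δ) (hl : 0 < l) : ContDiff ℝ ∞ (gd δ l) ∧ HasCompactSupport (gd δ l) ∧ TF (gd δ l) ∧
    ∫ x, gd δ l x ≤ Real.pi * ∫ z, pz l z := by
  have hsm := Da_gd_smooth δ l
  have hcs : HasCompactSupport (gd δ l) := by
    apply HasCompactSupport.intro (isCompact_closedBall (0 : E3) (1 + l))
    intro x hx
    by_contra hne
    apply hx
    have h1 : rad x < 1 := by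
      by_contra h
      exact hne (Da_gd_rad l hδ (not_lt.1 h))
    have h2 : |x 2| < l := by
      by_contra h
      exact hne (Da_gd_z δ hl (not_lt.1 h))
    rw [mem_closedBall_zero_iff]
    have h3 := Cut_nsq x
    have h4 : x 0 ^ 2 + x 1 ^ 2 = rad x ^ 2 := (rad_sq' x).symm
    have h5 : x 2 ^ 2 ≤ l ^ 2 := by
      rw [← sq_abs (x 2)]
      exact pow_le_pow_left₀ (abs_nonneg _) h2.le 2
    have h6 : rad x ^ 2 ≤ 1 := by
      have := rad_nonneg x
      nlinarith
    have h7 : ‖x‖ ^ 2 ≤ (1 + l) ^ 2 := by nlinarith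
    exact (abs_le_of_sq_le_sq' h7 (by positivity)).2
  have hc1 : ContDiff ℝ 1 (gd δ l) := hsm.of_le (by exact_mod_cast le_top)
  have hint : Integrable (gd δ l) := hsm.continuous.integrable_of_hasCompactSupport hcs
  have hcd : ∀ i, HasCompactSupport (pd i (gd δ l)) := by
    intro i
    have h1 := (hcs.fderiv ℝ).comp_left (g := fun L : E3 →L[ℝ] ℝ => L (e i)) rfl
    exact h1
  refine ⟨hsm, hcs, ⟨hc1, hint, fun i =>
    (pd_cont hc1 i).integrable_of_hasCompactSupport (hcd i), ?_⟩, ?_⟩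
  · obtain ⟨B, hB⟩ := hsm.continuous.bounded_above_of_compact_support hcs
    have h1 : ∀ i : Fin 3, ∃ C : ℝ, ∀ x, ‖pd i (gd δ l) x‖ ≤ C := fun i =>
      (pd_cont hc1 i).bounded_above_of_compact_support (hcd i)
    choose C hC using h1
    refine ⟨|B| + |C 0| + |C 1| + |C 2|, fun x => ⟨?_, fun i => ?_⟩⟩
    · have h2 := hB x
      rw [Real.norm_eq_abs] at h2
      have h3 := le_abs_self B
      have h4 := abs_nonneg (C 0)
      have h5 := abs_nonneg (C 1)
      have h6 := abs_nonneg (C 2)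
      linarith
    · have h2 := hC i x
      rw [Real.norm_eq_abs] at h2
      have h3 := abs_nonneg B
      have h4 := abs_nonneg (C 0)
      have h5 := abs_nonneg (C 1)
      have h6 := abs_nonneg (C 2)
      have h7 : C i ≤ |C 0| + |C 1| + |C 2| := by
        fin_cases i
        · show C 0 ≤ _
          linarith [le_abs_self (C 0)]
        · show C 1 ≤ _
          linarith [le_abs_self (C 1)]
        · show C 2 ≤ _
          linarith [le_abs_self (C 2)]
      linarith
  · obtain ⟨hps, hpi, hp1, hp2, hp⟩ := pz_f hl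
    have hI0 : 0 ≤ ∫ z, pz l z := by linarith
    have hm : Measurable (fun q : ℝ × ℝ => (Iio (1 : ℝ)).indicator (fun _ => (1 : ENNReal)) q.1 *
        ENNReal.ofReal (pz l q.2)) := by
      refine Measurable.mul ?_ ?_
      · exact (measurable_const.indicator measurableSet_Iio).comp measurable_fst
      · exact ENNReal.measurable_ofReal.comp (hps.continuous.measurable.comp measurable_snd)
    have h1 : ENNReal.ofReal (∫ x, gd δ l x) ≤ ENNReal.ofReal (Real.pi * ∫ z, pz l z) := by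
      rw [ofReal_integral_eq_lintegral_ofReal hint
        (Filter.Eventually.of_forall fun x => (Da_gd_le δ l x).1)]
      have h2 : ∫⁻ x, ENNReal.ofReal (gd δ l x) ≤ ∫⁻ x : E3,
          (fun q : ℝ × ℝ => (Iio (1 : ℝ)).indicator (fun _ => (1 : ENNReal)) q.1 *
            ENNReal.ofReal (pz l q.2)) (rad x, x 2) := by
        refine lintegral_mono fun x => ?_
        show ENNReal.ofReal (gd δ l x) ≤ (Iio (1 : ℝ)).indicator (fun _ => (1 : ENNReal)) (rad x) *
            ENNReal.ofReal (pz l (x 2))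
        rcases lt_or_ge (rad x) 1 with hx | hx
        · have hx' : rad x ∈ Iio (1 : ℝ) := hx
          rw [indicator_of_mem hx', one_mul]
          exact ENNReal.ofReal_le_ofReal (Da_gd_le δ l x).2
        · rw [Da_gd_rad l hδ hx, ENNReal.ofReal_zero]
          exact zero_le
      refine h2.trans ?_
      rw [cyl hm]
      have h3 : ∀ r : ℝ, ∫⁻ z : ℝ, ENNReal.ofReal r * ((Iio (1 : ℝ)).indicator
          (fun _ => (1 : ENNReal)) r * ENNReal.ofReal (pz l z)) =
          ENNReal.ofReal r * (Iio (1 : ℝ)).indicator (fun _ => (1 : ENNReal)) r *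
            ENNReal.ofReal (∫ z, pz l z) := by
        intro r
        rw [ofReal_integral_eq_lintegral_ofReal hpi
          (Filter.Eventually.of_forall fun z => (hp z).1), ← lintegral_const_mul]
        · refine lintegral_congr fun z => ?_
          ring
        · exact ENNReal.measurable_ofReal.comp hps.continuous.measurable
      simp only [h3]
      rw [lintegral_mul_const, Da_disc, ← ENNReal.ofReal_mul (by norm_num),
        ← ENNReal.ofReal_mul (by positivity)]
      · apply ENNReal.ofReal_le_ofReal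
        apply le_of_eq
        ring
      · exact ENNReal.measurable_ofReal.mul (measurable_const.indicator measurableSet_Iio)
    exact (ENNReal.ofReal_le_ofReal_iff (by positivity)).1 h1

theorem gd_v {δ l : ℝ} (hδ : 0 < δ) (hl : 0 < l) (x : E3) : 0 ≤ gd δ l x ∧ gd δ l x ≤ 1 ∧ gd δ l x ≤ pz l (x 2) ∧ (1 ≤ rad x → gd δ l x = 0) ∧
    (l ≤ |x 2| → gd δ l x = 0) ∧ (rsq x ≤ 1 - δ → gd δ l x = pz l (x 2)) := by
  obtain ⟨h1, h2⟩ := Da_gd_le δ l x
  refine ⟨h1, h2.trans (Da_pz_01 l _).2, h2, Da_gd_rad l hδ, Da_gd_z δ hl, fun hx => ?_⟩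
  unfold gd
  rw [Real.smoothTransition.one_of_one_le, one_mul]
  rw [le_div_iff₀ hδ]
  linarith

theorem Da_chain {h : ℝ → ℝ} {f : E3 → ℝ} {x : E3} (hh : DifferentiableAt ℝ h (f x))
    (hf : DifferentiableAt ℝ f x) (i : Fin 3) : pd i (fun y => h (f y)) x = deriv h (f x) * pd i f x := by
  have h1 : HasFDerivAt (h ∘ f) (deriv h (f x) • fderiv ℝ f x) x :=
    HasDerivAt.comp_hasFDerivAt x hh.hasDerivAt hf.hasFDerivAt
  unfold pd
  have h2 : fderiv ℝ (fun y => h (f y)) x = deriv h (f x) • fderiv ℝ f x := h1.fderiv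
  rw [h2]
  simp

/-- horizontal derivatives of a function of `rsq` and `x 2` -/
theorem Da_pd1 {h ψ : ℝ → ℝ} (hh : ContDiff ℝ ∞ h) (hψ : ContDiff ℝ ∞ ψ) {i : Fin 3} (hi : i ≠ 2)
    (x : E3) : pd i (fun y => h (rsq y) * ψ (y 2)) x = deriv h (rsq x) * (2 * x i) * ψ (x 2) := by
  have d1 : DifferentiableAt ℝ (fun y : E3 => h (rsq y)) x :=
    (hh.differentiable (by simp) _).comp x (Psi_rsq_diff x)
  have d2 : DifferentiableAt ℝ (fun y : E3 => ψ (y 2)) x :=
    (hψ.differentiable (by simp) _).comp x (Psi_dc 2 x)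
  rw [Psi_mul d1 d2, Da_chain (hh.differentiable (by simp) _) (Psi_rsq_diff x),
    Da_chain (h := ψ) (f := fun y : E3 => y 2) (hψ.differentiable (by simp) _) (Psi_dc 2 x), Psi_rsq,
    Psi_coord, if_neg hi, if_neg (Ne.symm hi)]
  ring

theorem Da_pd2 {h ψ : ℝ → ℝ} (hh : ContDiff ℝ ∞ h) (hψ : ContDiff ℝ ∞ ψ) {i j : Fin 3} (hi : i ≠ 2)
    (hj : j ≠ 2) (x : E3) : pd j (pd i (fun y => h (rsq y) * ψ (y 2))) x =
      (deriv (deriv h) (rsq x) * (4 * x i * x j) + deriv h (rsq x) * (2 * if i = j then 1 else 0)) *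
        ψ (x 2) := by
  have hh1 : ContDiff ℝ ∞ (deriv h) := (contDiff_infty_iff_deriv.1 hh).2
  have h0 : pd i (fun y => h (rsq y) * ψ (y 2)) =
      fun y => (2 * y i) * (deriv h (rsq y) * ψ (y 2)) := by
    funext y
    rw [Da_pd1 hh hψ hi]
    ring
  have d1 : DifferentiableAt ℝ (fun y : E3 => 2 * y i) x := (Psi_dc i x).const_mul 2
  have d2 : DifferentiableAt ℝ (fun y : E3 => deriv h (rsq y) * ψ (y 2)) x :=
    ((hh1.differentiable (by simp) _).comp x (Psi_rsq_diff x)).mul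
      ((hψ.differentiable (by simp) _).comp x (Psi_dc 2 x))
  rw [h0, Psi_mul d1 d2, Psi_cm (Psi_dc i x), Psi_coord, Da_pd1 hh1 hψ hj]
  ring

theorem Da_deriv (δ : ℝ) : deriv (fun y : ℝ => Real.smoothTransition ((1 - y) / δ)) =
    fun y => -(1 / δ) * deriv Real.smoothTransition ((1 - y) / δ) := by
  funext y
  have h1 : HasDerivAt (fun y : ℝ => (1 - y) / δ) (-1 / δ) y := by
    have h2 := ((hasDerivAt_const y (1 : ℝ)).sub (hasDerivAt_id y)).div_const δ
    rw [zero_sub] at h2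
    exact h2
  have hs : HasDerivAt Real.smoothTransition (deriv Real.smoothTransition ((1 - y) / δ)) ((1 - y) / δ) :=
    ((Real.smoothTransition.contDiff (n := 1)).differentiable one_ne_zero _).hasDerivAt
  have h3 := hs.comp y h1
  have h4 : deriv (fun y : ℝ => Real.smoothTransition ((1 - y) / δ)) y =
      deriv Real.smoothTransition ((1 - y) / δ) * (-1 / δ) := h3.deriv
  rw [h4]
  ring

theorem Da_deriv2 (δ : ℝ) : deriv (deriv (fun y : ℝ => Real.smoothTransition ((1 - y) / δ))) =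
    fun y => (1 / δ) ^ 2 * deriv (deriv Real.smoothTransition) ((1 - y) / δ) := by
  rw [Da_deriv]
  funext y
  have h1 : HasDerivAt (fun y : ℝ => (1 - y) / δ) (-1 / δ) y := by
    have h2 := ((hasDerivAt_const y (1 : ℝ)).sub (hasDerivAt_id y)).div_const δ
    rw [zero_sub] at h2
    exact h2
  have hs0 : ContDiff ℝ ∞ Real.smoothTransition := Real.smoothTransition.contDiff
  have hs1 : ContDiff ℝ ∞ (deriv Real.smoothTransition) := (contDiff_infty_iff_deriv.1 hs0).2
  have hs : HasDerivAt (deriv Real.smoothTransition) (deriv (deriv Real.smoothTransition) ((1 - y) / δ))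
      ((1 - y) / δ) := (hs1.differentiable (by simp) _).hasDerivAt
  have h3 := (hs.comp y h1).const_mul (-(1 / δ))
  have h4 : deriv (fun y : ℝ => -(1 / δ) * deriv Real.smoothTransition ((1 - y) / δ)) y =
      -(1 / δ) * (deriv (deriv Real.smoothTransition) ((1 - y) / δ) * (-1 / δ)) := h3.deriv
  rw [h4]
  ring

theorem Da_bd {C : ℝ} (hC1 : 1 ≤ C) (h1 : ∀ y, |deriv Real.smoothTransition y| ≤ C)
    (h2 : ∀ y, |deriv (deriv Real.smoothTransition) y| ≤ C)
    (h0 : ∀ y, y ≤ 0 → deriv Real.smoothTransition y = 0 ∧ deriv (deriv Real.smoothTransition) y = 0)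
    {δ l : ℝ} (hδ : 0 < δ) (hδ1 : δ ≤ 1) {i j : Fin 3} (hi : i ≠ 2) (hj : j ≠ 2) (x : E3) :
    |pd j (pd i (gd δ l)) x| ≤ 6 * C / δ ^ 2 := by
  have hh : ContDiff ℝ ∞ (fun y : ℝ => Real.smoothTransition ((1 - y) / δ)) :=
    Real.smoothTransition.contDiff.comp ((contDiff_const.sub contDiff_id).div_const _)
  have e1 : pd j (pd i (gd δ l)) x = _ := Da_pd2 hh (Da_pz_smooth l) hi hj x
  rw [e1, Da_deriv2, Da_deriv]
  have hR : 0 ≤ 6 * C / δ ^ 2 := by positivity
  rcases le_or_gt 1 (rsq x) with hx | hx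
  · have h3 : (1 - rsq x) / δ ≤ 0 := div_nonpos_of_nonpos_of_nonneg (by linarith) hδ.le
    obtain ⟨k1, k2⟩ := h0 _ h3
    simp only [k1, k2, mul_zero, zero_mul, add_zero, abs_zero]
    exact hR
  · have hxx : ∀ k : Fin 3, k ≠ 2 → |x k| ≤ 1 := by
      intro k hk
      have h3 : x k ^ 2 ≤ 1 := by
        unfold rsq at hx
        fin_cases k
        · have := sq_nonneg (x 1)
          show x 0 ^ 2 ≤ 1
          linarith
        · have := sq_nonneg (x 0)
          show x 1 ^ 2 ≤ 1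
          linarith
        · exact absurd rfl hk
      exact (sq_le_one_iff_abs_le_one _).1 h3
    have g1 := hxx i hi
    have g2 := hxx j hj
    have g3 : |x i * x j| ≤ 1 := by
      rw [abs_mul]
      exact mul_le_one₀ g1 (abs_nonneg _) g2
    obtain ⟨A, hA⟩ : ∃ A, A = deriv (deriv Real.smoothTransition) ((1 - rsq x) / δ) := ⟨_, rfl⟩
    obtain ⟨B, hB⟩ : ∃ B, B = deriv Real.smoothTransition ((1 - rsq x) / δ) := ⟨_, rfl⟩
    have hA1 : |A| ≤ C := by rw [hA]; exact h2 _
    have hB1 : |B| ≤ C := by rw [hB]; exact h1 _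
    show |((1 / δ) ^ 2 * deriv (deriv Real.smoothTransition) ((1 - rsq x) / δ) * (4 * x i * x j) +
      -(1 / δ) * deriv Real.smoothTransition ((1 - rsq x) / δ) * (2 * if i = j then 1 else 0)) *
        pz l (x 2)| ≤ _
    rw [← hA, ← hB, abs_mul]
    have hp : |pz l (x 2)| ≤ 1 := by
      rw [abs_of_nonneg (Da_pz_01 l _).1]
      exact (Da_pz_01 l _).2
    have t1 : |(1 / δ) ^ 2 * A * (4 * x i * x j)| ≤ 4 * C / δ ^ 2 := by
      have h3 : (1 / δ) ^ 2 * A * (4 * x i * x j) = (4 / δ ^ 2) * (A * (x i * x j)) := by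
        field_simp
      rw [h3, abs_mul, abs_of_nonneg (by positivity : (0 : ℝ) ≤ 4 / δ ^ 2), abs_mul]
      have h4 : |A| * |x i * x j| ≤ C * 1 := mul_le_mul hA1 g3 (abs_nonneg _) (by linarith)
      calc 4 / δ ^ 2 * (|A| * |x i * x j|) ≤ 4 / δ ^ 2 * (C * 1) :=
            mul_le_mul_of_nonneg_left h4 (by positivity)
        _ = 4 * C / δ ^ 2 := by ring
    have t2 : |-(1 / δ) * B * (2 * if i = j then 1 else 0)| ≤ 2 * C / δ ^ 2 := by
      have h5 : |(2 * if i = j then 1 else 0 : ℝ)| ≤ 2 := by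
        split_ifs
        · norm_num
        · norm_num
      have h6 : 1 / δ ≤ 1 / δ ^ 2 := by
        apply one_div_le_one_div_of_le (by positivity)
        nlinarith
      rw [abs_mul, abs_mul, abs_neg, abs_of_nonneg (by positivity : (0 : ℝ) ≤ 1 / δ)]
      calc 1 / δ * |B| * |(2 * if i = j then 1 else 0 : ℝ)| ≤ 1 / δ ^ 2 * C * 2 := by
            apply mul_le_mul _ h5 (abs_nonneg _) (by positivity)
            exact mul_le_mul h6 hB1 (abs_nonneg _) (by positivity)
        _ = 2 * C / δ ^ 2 := by ring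
    have t3 := abs_add_le ((1 / δ) ^ 2 * A * (4 * x i * x j))
      (-(1 / δ) * B * (2 * if i = j then 1 else 0))
    have t4 : |(1 / δ) ^ 2 * A * (4 * x i * x j) + -(1 / δ) * B * (2 * if i = j then 1 else 0)| ≤
        6 * C / δ ^ 2 := by
      have h7 : 6 * C / δ ^ 2 = 4 * C / δ ^ 2 + 2 * C / δ ^ 2 := by ring
      rw [h7]
      linarith
    calc _ ≤ 6 * C / δ ^ 2 * 1 := mul_le_mul t4 hp (abs_nonneg _) hR
      _ = _ := mul_one _

theorem gd_2 : ∃ C : ℝ, 1 ≤ C ∧ ∀ δ l : ℝ, 0 < δ → δ ≤ 1 → 0 < l → ∀ x,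
    (|pd 0 (pd 0 (gd δ l)) x| ≤ C / δ ^ 2 ∧ |pd 1 (pd 0 (gd δ l)) x| ≤ C / δ ^ 2 ∧ |pd 0 (pd 1 (gd δ l)) x| ≤ C / δ ^ 2 ∧
      |pd 1 (pd 1 (gd δ l)) x| ≤ C / δ ^ 2) ∧ ((1 ≤ rad x ∨ l ≤ |x 2|) → pd 0 (gd δ l) x = 0 ∧ pd 1 (gd δ l) x = 0) := by
  obtain ⟨C, hC1, h1, h2, h0⟩ := Cut_bd
  refine ⟨6 * C, by linarith, fun δ l hδ hδ1 hl x => ⟨⟨?_, ?_, ?_, ?_⟩, fun hx => ?_⟩⟩
  · exact Da_bd hC1 h1 h2 h0 hδ hδ1 (by decide) (by decide) x
  · exact Da_bd hC1 h1 h2 h0 hδ hδ1 (by decide) (by decide) x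
  · exact Da_bd hC1 h1 h2 h0 hδ hδ1 (by decide) (by decide) x
  · exact Da_bd hC1 h1 h2 h0 hδ hδ1 (by decide) (by decide) x
  · have hh : ContDiff ℝ ∞ (fun y : ℝ => Real.smoothTransition ((1 - y) / δ)) :=
      Real.smoothTransition.contDiff.comp ((contDiff_const.sub contDiff_id).div_const _)
    have key : ∀ i : Fin 3, i ≠ 2 → pd i (gd δ l) x = 0 := by
      intro i hi
      have e1 : pd i (gd δ l) x = _ := Da_pd1 hh (Da_pz_smooth l) hi x
      rw [e1, Da_deriv]
      rcases hx with hx | hx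
      · have h3 : (1 - rsq x) / δ ≤ 0 :=
          div_nonpos_of_nonpos_of_nonneg (by linarith [Da_rad hx]) hδ.le
        show -(1 / δ) * deriv Real.smoothTransition ((1 - rsq x) / δ) * (2 * x i) * pz l (x 2) = 0
        rw [(h0 _ h3).1]
        ring
      · rw [Da_pz_zero hl hx, mul_zero]
    exact ⟨key 0 (by decide), key 1 (by decide)⟩

end Pool.Agent.H16.TU
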