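/-
ROW Db (MP_09540e_TU). The lower bound. PROOF. dF: for z: `pd 2 (sP v) = - sW v` (sW_sP in H72/CC/Psi.lean), `radFlux v x = rsq x * sW v x` (flux_eq in H87/NS/VRep.lean); at `x = (1, 0, s)`: rsq = 1 and `|radFlux v x| ≤ rad x * hn v x ≤ κ (1 + 1)` (Cauchy-Schwarz, h.hor), so `|d/ds P(1,0,s)| ≤ 2κ` and `|P(1,0,z) - P(1,0,0)| ≤ 2κ|z|` (mean value theorem); `e 0 = (1,0,0)`.
dLow: `l = N/(20κ)`: for |z| ≤ l: `|P(1,0,z) - P(e 0)| ≤ N/10`, so with σ the sign of P(e 0): `σ P(1,0,z) ≥ 8N/10`. Cylindrical coordinates for a real valued function: `∫_{rad x<1} v₂ pz(x 2) = 2π ∫ z, pz l z * ∫ s in (0:ℝ)..1, s * v₂(s,0,z)` (Cyl_mp in H72/CC/Cyl.lean and polar coordinates integral_comp_polarCoord_symm in the plane; `v₂ x = v₂(rad x, 0, x 2)` since v₂ is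
invariant under rotations: h.ax.ax, KSym_trig / KSym_rot in H87/NS/KSym.lean; everything bounded with bounded support), and `∫_0^1 s v₂(s,0,z) ds = sP v (1,0,z)` (unfold sP, avk: `sq s (1,0,z) = (s,0,z)`). So `|∫ ..| ≥ 2π (8N/10) ∫ pz` (pz = 0 for |z| ≥ l).
-/
import Pool.Agent.H16.TU.Da

set_option autoImplicit false

open Set Filter Topology MeasureTheory
open scoped ContDiff

namespace Pool.Agent.H16.TU

open Pool.Agent.H16 Pool.Agent.H87.NS Pool.Agent.H72.CC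

theorem Db_meas (ρ : ℝ) : MeasurableSet {q : ℝ × ℝ | q.1 ^ 2 + q.2 ^ 2 < ρ ^ 2} :=
  (isOpen_lt (by fun_prop) (by fun_prop)).measurableSet

theorem Db_polar {F : ℝ × ℝ → ℝ} {G : ℝ → ℝ} {ρ : ℝ} (hρ : 0 < ρ)
    (hF : ∀ r θ : ℝ, 0 < r → F (r * Real.cos θ, r * Real.sin θ) = G r) :
    ∫ q in {q : ℝ × ℝ | q.1 ^ 2 + q.2 ^ 2 < ρ ^ 2}, F q =
      2 * Real.pi * ∫ r in (0:ℝ)..ρ, r * G r := by
  rw [← integral_indicator (Db_meas ρ), ← integral_comp_polarCoord_symm]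
  have h1 : ∫ p in polarCoord.target,
      p.1 • indicator {q : ℝ × ℝ | q.1 ^ 2 + q.2 ^ 2 < ρ ^ 2} F (polarCoord.symm p) =
      ∫ p in polarCoord.target, (indicator (Iio ρ) (fun r => r * G r) p.1) * (1 : ℝ) := by
    refine setIntegral_congr_fun polarCoord.open_target.measurableSet ?_
    intro p hp
    rw [polarCoord_target, mem_prod] at hp
    have hp0 : 0 < p.1 := hp.1
    change p.1 • indicator {q : ℝ × ℝ | q.1 ^ 2 + q.2 ^ 2 < ρ ^ 2} F
      (p.1 * Real.cos p.2, p.1 * Real.sin p.2) = indicator (Iio ρ) (fun r => r * G r) p.1 * (1 : ℝ)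
    have h2 : (p.1 * Real.cos p.2) ^ 2 + (p.1 * Real.sin p.2) ^ 2 = p.1 ^ 2 := by
      have := Real.sin_sq_add_cos_sq p.2
      linear_combination p.1 ^ 2 * this
    by_cases h : p.1 < ρ
    · have h3 : (p.1 * Real.cos p.2, p.1 * Real.sin p.2) ∈
          {q : ℝ × ℝ | q.1 ^ 2 + q.2 ^ 2 < ρ ^ 2} := by
        change (p.1 * Real.cos p.2) ^ 2 + (p.1 * Real.sin p.2) ^ 2 < ρ ^ 2
        rw [h2]
        exact pow_lt_pow_left₀ h hp0.le two_ne_zero
      have h4 : p.1 ∈ Iio ρ := h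
      rw [indicator_of_mem h3, indicator_of_mem h4, hF _ _ hp0, smul_eq_mul, mul_one]
    · have h3 : (p.1 * Real.cos p.2, p.1 * Real.sin p.2) ∉
          {q : ℝ × ℝ | q.1 ^ 2 + q.2 ^ 2 < ρ ^ 2} := by
        intro h5
        change (p.1 * Real.cos p.2) ^ 2 + (p.1 * Real.sin p.2) ^ 2 < ρ ^ 2 at h5
        rw [h2] at h5
        exact h (lt_of_pow_lt_pow_left₀ 2 hρ.le h5)
      have h4 : p.1 ∉ Iio ρ := h
      rw [indicator_of_notMem h3, indicator_of_notMem h4, smul_zero, zero_mul]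
  rw [h1, polarCoord_target, Measure.volume_eq_prod,
    setIntegral_prod_mul (fun r => indicator (Iio ρ) (fun r => r * G r) r) (fun _ => (1 : ℝ)),
    setIntegral_indicator measurableSet_Iio, Ioi_inter_Iio, ← integral_Ioc_eq_integral_Ioo,
    ← intervalIntegral.integral_of_le hρ.le]
  have h2 : ∫ _y in Ioo (-Real.pi) Real.pi, (1 : ℝ) = 2 * Real.pi := by
    rw [setIntegral_const, smul_eq_mul, mul_one, Measure.real, Real.volume_Ioo,
      ENNReal.toReal_ofReal (by linarith [Real.pi_pos])]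
    ring
  rw [h2]
  ring

theorem Db_rot (θ r z : ℝ) : rot θ !₂[r, 0, z] = !₂[r * Real.cos θ, r * Real.sin θ, z] := by
  apply ext3
  · rw [rot_zero']
    change Real.cos θ * r - Real.sin θ * 0 = r * Real.cos θ
    ring
  · rw [rot_one']
    change Real.sin θ * r + Real.cos θ * 0 = r * Real.sin θ
    ring
  · rw [rot_two']
    rfl

theorem Db_sm {κ N : ℝ} {v : E3 → E3} (h : Sl κ N v) : ContDiff ℝ ∞ (fun y => v y 2) :=
  (EuclideanSpace.proj 2 : E3 →L[ℝ] ℝ).contDiff.comp h.ax.smooth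

theorem Db_inv {κ N : ℝ} {v : E3 → E3} (h : Sl κ N v) (θ : ℝ) (x : E3) :
    v (rot θ x) 2 = v x 2 := by
  rw [h.ax.ax, rot_two']

theorem Db_mk : Continuous (fun p : ℝ × (ℝ × ℝ) => (!₂[p.2.1, p.2.2, p.1] : E3)) := by
  have h : ContDiff ℝ 0 (fun p : ℝ × (ℝ × ℝ) => (!₂[p.2.1, p.2.2, p.1] : E3)) := by
    rw [contDiff_euclidean]
    intro i
    fin_cases i
    · exact contDiff_fst.comp contDiff_snd
    · exact contDiff_snd.comp contDiff_snd
    · exact contDiff_fst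
  exact h.continuous

theorem Db_emb : MeasurableEmbedding (fun x : E3 => (x 2, ((x 0, x 1) : ℝ × ℝ))) := by
  refine Continuous.measurableEmbedding ?_ ?_
  · have h : ∀ i : Fin 3, Continuous (fun x : E3 => x i) := fun i =>
      (EuclideanSpace.proj i : E3 →L[ℝ] ℝ).continuous
    exact (h 2).prodMk ((h 0).prodMk (h 1))
  · intro x y hxy
    have h1 : x 2 = y 2 := congrArg Prod.fst hxy
    have h2 := congrArg Prod.snd hxy
    have h3 : x 0 = y 0 := congrArg Prod.fst h2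
    have h4 : x 1 = y 1 := congrArg Prod.snd h2
    exact ext3 h3 h4 h1

theorem Db_set {ρ : ℝ} (hρ : 0 < ρ) : {x : E3 | rad x < ρ} =
    (fun x : E3 => (x 2, ((x 0, x 1) : ℝ × ℝ))) ⁻¹'
      (univ ×ˢ {q : ℝ × ℝ | q.1 ^ 2 + q.2 ^ 2 < ρ ^ 2}) := by
  ext x
  constructor
  · intro hx
    refine ⟨mem_univ _, ?_⟩
    exact (Real.sqrt_lt' hρ).1 hx
  · rintro ⟨-, hx⟩
    exact (Real.sqrt_lt' hρ).2 hx

theorem Db_msr (D : Set (ℝ × ℝ)) : (volume : Measure (ℝ × (ℝ × ℝ))).restrict (univ ×ˢ D) =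
    (volume : Measure ℝ).prod ((volume : Measure (ℝ × ℝ)).restrict D) := by
  rw [Measure.volume_eq_prod, ← Measure.prod_restrict, Measure.restrict_univ]

theorem Db_tr (F : E3 → ℝ) {ρ : ℝ} (hρ : 0 < ρ) :
    ∫ x in {x : E3 | rad x < ρ}, F x = ∫ p : ℝ × (ℝ × ℝ), F !₂[p.2.1, p.2.2, p.1]
      ∂((volume : Measure ℝ).prod
        ((volume : Measure (ℝ × ℝ)).restrict {q : ℝ × ℝ | q.1 ^ 2 + q.2 ^ 2 < ρ ^ 2})) := by
  rw [Db_set hρ, ← Db_msr, ← Cyl_mp.setIntegral_preimage_emb Db_emb]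
  refine setIntegral_congr_fun (Db_emb.measurable (MeasurableSet.univ.prod (Db_meas ρ))) ?_
  intro x _
  have h1 : (!₂[x 0, x 1, x 2] : E3) = x := by
    apply ext3 <;> rfl
  change F x = F !₂[x 0, x 1, x 2]
  rw [h1]

theorem Db_tri {F : E3 → ℝ} {ρ : ℝ} (hρ : 0 < ρ) (hF : IntegrableOn F {x : E3 | rad x < ρ}) :
    Integrable (fun p : ℝ × (ℝ × ℝ) => F !₂[p.2.1, p.2.2, p.1])
      ((volume : Measure ℝ).prod
        ((volume : Measure (ℝ × ℝ)).restrict {q : ℝ × ℝ | q.1 ^ 2 + q.2 ^ 2 < ρ ^ 2})) := by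
  rw [← Db_msr]
  rw [Db_set hρ] at hF
  refine (Cyl_mp.integrableOn_comp_preimage Db_emb).1 ?_
  refine hF.congr_fun ?_ (Db_emb.measurable (MeasurableSet.univ.prod (Db_meas ρ)))
  intro x _
  have h1 : (!₂[x 0, x 1, x 2] : E3) = x := by
    apply ext3 <;> rfl
  change F x = F !₂[x 0, x 1, x 2]
  rw [h1]

theorem Db_line (z : ℝ) : HasDerivAt (fun t : ℝ => (!₂[1, 0, t] : E3)) (e 2) z := by
  apply hasDerivAt_e3
  intro i
  fin_cases i
  · have h1 : (e 2 : E3) 0 = 0 := by simp [e_apply]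
    change HasDerivAt (fun _ : ℝ => (1 : ℝ)) ((e 2 : E3) 0) z
    rw [h1]
    exact hasDerivAt_const z _
  · have h1 : (e 2 : E3) 1 = 0 := by simp [e_apply]
    change HasDerivAt (fun _ : ℝ => (0 : ℝ)) ((e 2 : E3) 1) z
    rw [h1]
    exact hasDerivAt_const z _
  · have h1 : (e 2 : E3) 2 = 1 := by simp [e_apply]
    change HasDerivAt (fun t : ℝ => t) ((e 2 : E3) 2) z
    rw [h1]
    exact hasDerivAt_id z

theorem Db_e0 : (e 0 : E3) = !₂[1, 0, 0] := by
  apply ext3 <;> simp [e_apply]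

theorem Db_rsq (z : ℝ) : rsq !₂[1, 0, z] = 1 := by
  change (1 : ℝ) ^ 2 + 0 ^ 2 = 1
  norm_num

theorem Db_rad (z : ℝ) : rad !₂[1, 0, z] = 1 := by
  change √((1 : ℝ) ^ 2 + 0 ^ 2) = 1
  norm_num

theorem Db_pd {κ N : ℝ} {v : E3 → E3} (h : Sl κ N v) (z : ℝ) :
    |pd 2 (sP v) !₂[1, 0, z]| ≤ 2 * κ := by
  have h1 := sW_sP h.ax !₂[1, 0, z]
  have h2 := flux_eq h.ax !₂[1, 0, z]
  have h3 := h.hor !₂[1, 0, z]
  rw [Db_rad, one_mul] at h3
  rw [Db_rsq, one_mul] at h2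
  have h4 : radFlux v !₂[1, 0, z] = v !₂[1, 0, z] 0 := by
    change 1 * v !₂[1, 0, z] 0 + 0 * v !₂[1, 0, z] 1 = v !₂[1, 0, z] 0
    ring
  have h5 : |v !₂[1, 0, z] 0| ≤ hn v !₂[1, 0, z] := by
    unfold hn
    rw [← Real.sqrt_sq_eq_abs]
    exact Real.sqrt_le_sqrt (le_add_of_nonneg_right (sq_nonneg _))
  have h6 : pd 2 (sP v) !₂[1, 0, z] = - v !₂[1, 0, z] 0 := by
    rw [← h4, h2, h1, neg_neg]
  rw [h6, abs_neg]
  linarith

theorem Db_der {κ N : ℝ} {v : E3 → E3} (h : Sl κ N v) (z : ℝ) :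
    HasDerivAt (fun t : ℝ => sP v !₂[1, 0, t]) (pd 2 (sP v) !₂[1, 0, z]) z :=
  (((sP_smooth h.ax).differentiable (by norm_num)) !₂[1, 0, z]).hasFDerivAt.comp_hasDerivAt z
    (Db_line z)

theorem dF {κ N : ℝ} {v : E3 → E3} (h : Sl κ N v) (z : ℝ) : |sP v !₂[1, 0, z] - sP v (e 0)| ≤ 2 * κ * |z| := by
  have h1 := Convex.norm_image_sub_le_of_norm_deriv_le (f := fun t : ℝ => sP v !₂[1, 0, t])
    (C := 2 * κ) (s := univ) (x := 0) (y := z)
    (fun t _ => (Db_der h t).differentiableAt)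
    (fun t _ => by rw [(Db_der h t).deriv, Real.norm_eq_abs]; exact Db_pd h t) convex_univ
    (mem_univ _) (mem_univ _)
  rw [Db_e0]
  rw [Real.norm_eq_abs, Real.norm_eq_abs, sub_zero] at h1
  exact h1

theorem Db_int {κ N : ℝ} {v : E3 → E3} (h : Sl κ N v) {l : ℝ} (hl : 0 < l) :
    IntegrableOn (fun x : E3 => v x 2 * pz l (x 2)) {x : E3 | rad x < 1} := by
  have hc2 : Continuous (fun x : E3 => x 2) := (EuclideanSpace.proj 2 : E3 →L[ℝ] ℝ).continuous
  have hc : Continuous (fun x : E3 => v x 2 * pz l (x 2)) :=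
    (Db_sm h).continuous.mul ((pz_f hl).1.continuous.comp hc2)
  have hm : MeasurableSet {x : E3 | rad x < 1} := by
    rw [Db_set one_pos]
    exact Db_emb.measurable (MeasurableSet.univ.prod (Db_meas 1))
  refine (hc.continuousOn.integrableOn_compact (isCompact_closedBall (0 : E3) (l + 1))).of_forall_diff_eq_zero
    hm ?_
  rintro x ⟨hx, hx2⟩
  have hx1 : x 0 ^ 2 + x 1 ^ 2 < 1 := by
    have := (Real.sqrt_lt' one_pos).1 hx
    linarith
  have h1 : l ≤ |x 2| := by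
    by_contra hcon
    push Not at hcon
    apply hx2
    rw [mem_closedBall_zero_iff]
    apply le_of_sq_le_sq _ (by positivity)
    have h2 : ‖x‖ ^ 2 = x 0 ^ 2 + x 1 ^ 2 + x 2 ^ 2 := by
      rw [EuclideanSpace.norm_sq_eq, Fin.sum_univ_three]
      simp
    rw [h2]
    have h3 := sq_lt_sq' (by linarith [abs_nonneg (x 2)]) hcon
    rw [sq_abs] at h3
    nlinarith
  change v x 2 * pz l (x 2) = 0
  rw [((pz_f hl).2.2.2.2 (x 2)).2.2 h1, mul_zero]

theorem Db_sP (v : E3 → E3) (z : ℝ) :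
    sP v !₂[1, 0, z] = ∫ r in (0:ℝ)..1, r * v !₂[r, 0, z] 2 := by
  unfold sP avk
  refine intervalIntegral.integral_congr fun r _ => ?_
  have h1 : sq r !₂[1, 0, z] = !₂[r, 0, z] := by
    apply ext3
    · change r * 1 = r
      ring
    · change r * 0 = 0
      ring
    · rfl
  change r ^ 1 * v (sq r !₂[1, 0, z]) 2 = r * v !₂[r, 0, z] 2
  rw [h1, pow_one]

theorem dCyl {κ N : ℝ} {v : E3 → E3} (h : Sl κ N v) {l : ℝ} (hl : 0 < l) :
    ∫ x in {x : E3 | rad x < 1}, v x 2 * pz l (x 2) = 2 * Real.pi * ∫ z, pz l z * sP v !₂[1, 0, z] := by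
  rw [Db_tr (fun x : E3 => v x 2 * pz l (x 2)) one_pos,
    integral_prod _ (Db_tri one_pos (Db_int h hl)), ← integral_const_mul]
  refine integral_congr_ae (Eventually.of_forall fun z => ?_)
  change ∫ q in {q : ℝ × ℝ | q.1 ^ 2 + q.2 ^ 2 < 1 ^ 2}, v !₂[q.1, q.2, z] 2 * pz l z =
    2 * Real.pi * (pz l z * sP v !₂[1, 0, z])
  rw [integral_mul_const, Db_polar (F := fun q : ℝ × ℝ => v !₂[q.1, q.2, z] 2)
    (G := fun r => v !₂[r, 0, z] 2) one_pos, Db_sP]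
  · ring
  · intro r θ _
    change v !₂[r * Real.cos θ, r * Real.sin θ, z] 2 = v !₂[r, 0, z] 2
    rw [← Db_rot, Db_inv h]

theorem dLow {κ N : ℝ} {v : E3 → E3} (h : Sl κ N v) (he : 9 / 10 * N ≤ |sP v (e 0)|) :
    8 / 5 * Real.pi * N * (∫ z, pz (N / (20 * κ)) z) ≤ |∫ x in {x : E3 | rad x < 1}, v x 2 * pz (N / (20 * κ)) (x 2)| := by
  have hκ := h.one
  have hN := h.le
  have hκ0 : 0 < κ := by linarith
  have hN0 : 0 < N := by linarith
  obtain ⟨l, hl⟩ : ∃ l, l = N / (20 * κ) := ⟨_, rfl⟩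
  have hl0 : 0 < l := by
    rw [hl]
    positivity
  have hlκ : 2 * κ * l = N / 10 := by
    rw [hl]
    field_simp
    norm_num
  rw [← hl, dCyl h hl0]
  obtain ⟨hp1, hp2, hp3, hp4, hp5⟩ := pz_f hl0
  have hPc : Continuous (fun z : ℝ => sP v !₂[1, 0, z]) :=
    continuous_iff_continuousAt.2 fun z => (Db_der h z).continuousAt
  have hPb : ∀ z, |sP v !₂[1, 0, z]| ≤ N := by
    intro z
    have h1 := h.str !₂[1, 0, z]
    rwa [Db_rad, one_mul] at h1
  have hI : Integrable (fun z => pz l z * sP v !₂[1, 0, z]) :=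
    hp2.mul_bdd (c := N) hPc.aestronglyMeasurable (Eventually.of_forall fun z => hPb z)
  have hπ := Real.pi_pos
  have key : ∀ σ : ℝ, |σ| = 1 → 9 / 10 * N ≤ σ * sP v (e 0) →
      4 / 5 * N * (∫ z, pz l z) ≤ |∫ z, pz l z * sP v !₂[1, 0, z]| := by
    intro σ hσ hs
    have h1 : ∫ z, 4 / 5 * N * pz l z ≤ ∫ z, σ * (pz l z * sP v !₂[1, 0, z]) := by
      refine integral_mono (hp2.const_mul _) (hI.const_mul _) fun z => ?_
      change 4 / 5 * N * pz l z ≤ σ * (pz l z * sP v !₂[1, 0, z])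
      by_cases hz : l ≤ |z|
      · rw [(hp5 z).2.2 hz]
        simp
      · push Not at hz
        have h2 := dF h z
        have h3 : 2 * κ * |z| ≤ N / 10 := by
          rw [← hlκ]
          exact mul_le_mul_of_nonneg_left hz.le (by positivity)
        have h4 : |σ * sP v !₂[1, 0, z] - σ * sP v (e 0)| ≤ N / 10 := by
          rw [← mul_sub, abs_mul, hσ, one_mul]
          exact h2.trans h3
        have h5 := (abs_le.1 h4).1
        have h6 : 4 / 5 * N ≤ σ * sP v !₂[1, 0, z] := by linarith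
        have h7 := mul_le_mul_of_nonneg_left h6 (hp5 z).1
        linarith
    rw [integral_const_mul, integral_const_mul] at h1
    refine h1.trans ((le_abs_self _).trans (le_of_eq ?_))
    rw [abs_mul, hσ, one_mul]
  have key2 : 4 / 5 * N * (∫ z, pz l z) ≤ |∫ z, pz l z * sP v !₂[1, 0, z]| := by
    rcases le_total 0 (sP v (e 0)) with h0 | h0
    · rw [abs_of_nonneg h0] at he
      exact key 1 (by norm_num) (by linarith)
    · rw [abs_of_nonpos h0] at he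
      exact key (-1) (by norm_num) (by linarith)
  rw [abs_mul, abs_of_pos (by positivity : 0 < 2 * Real.pi)]
  have h7 := mul_le_mul_of_nonneg_left key2 (by positivity : 0 ≤ 2 * Real.pi)
  linarith

end Pool.Agent.H16.TU
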