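/-
ROW Dc (MP_09540e_TU). Two comparisons. PROOF. dCut: `l = N/(20κ)`, `δ = 1/(200000 κ C)`. `|∫_{rad<1} v₂ pz - ∫ v₂ gd| ≤ ∫_A |v₂|`, `A = {1 - δ < rsq x < 1, |x 2| < l}` (gd_v; 0 ≤ pz - gd ≤ 1, zero outside A). On A: `ww N Z 1 0 x = ((1+rsq)²)⁻¹ (1+x2²/(ZN)²)⁻¹ ≥ (1/4)(1/2)`. Volume of A: `π δ · 2l` (cyl; `∫_{√(1-δ)}^1 r dr = δ/2`). Cauchy-Schwarz:
`∫_A |v₂| ≤ (∫_A v₂²)^(1/2) (2πδl)^(1/2) ≤ (8 SS v (ww N Z 1 0))^(1/2) (2πδl)^(1/2) ≤ (16 π C δ l N³)^(1/2)`, and `16 π C δ N³ l ≤ (N l/10)²` iff `1600 π C δ N ≤ l = N/(20κ)` iff `32000 π κ C δ ≤ 1`: true (32000 π/200000 < 0.51). (Or with Young instead of Cauchy-Schwarz.)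
dMol: `∫ hm ε v₂ gd = ∫ v₂ hm ε gd` (hm_dual), f1 for `G = gd - hm ε gd` (TF: hm_tf, differences of TF are TF): `|∫ v₂ G| ≤ N ∫ hg G`, `pd a G x = ∫ bu y (pd a gd x - pd a gd (x - ε sh y)) dy` (hm_pd), a = 0, 1; by gd_2 and the mean value inequality along the horizontal segment `|..| ≤ 2 ε C/δ²`, and it vanishes if rad x ≥ 2 or |x 2| ≥ l (ε ≤ 1). So
`∫ hg G ≤ 4 C ε/δ² · vol{rad<2, |x 2|<l} = 4Cε/δ² · 8π l`.
-/
import Pool.Agent.H16.TU.Db
import Pool.Agent.H16.TU.Cb2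
import Pool.Agent.H16.TU.Fa

set_option autoImplicit false

open Set Filter Topology MeasureTheory
open scoped ContDiff

namespace Pool.Agent.H16.TU

open Pool.Agent.H16 Pool.Agent.H87.NS Pool.Agent.H72.CC

theorem Dc_radc : Continuous (fun x : E3 => rad x) := by
  unfold rad
  fun_prop

/-- the cylindrical shell -/
def Dc_A (a b l : ℝ) : Set E3 := {x | a ≤ rad x ∧ rad x < b ∧ |x 2| < l}

theorem Dc_Am (a b l : ℝ) : MeasurableSet (Dc_A a b l) := by
  have h1 : MeasurableSet {x : E3 | a ≤ rad x} := (isClosed_le continuous_const Dc_radc).measurableSet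
  have h2 : MeasurableSet {x : E3 | rad x < b} := (isOpen_lt Dc_radc continuous_const).measurableSet
  have h3 : MeasurableSet {x : E3 | |x 2| < l} :=
    (isOpen_lt (Psi_cont_coord 2).abs continuous_const).measurableSet
  exact h1.inter (h2.inter h3)

theorem Dc_vol {a b l : ℝ} (hab : a ≤ b) (hb : 0 ≤ b) (hl : 0 ≤ l) :
    volume (Dc_A a b l) ≤ ENNReal.ofReal (4 * Real.pi * (b * (b - a)) * l) := by
  set P : Set (ℝ × ℝ) := Ico a b ×ˢ Ioo (-l) l with hP
  have hPm : MeasurableSet P := measurableSet_Ico.prod measurableSet_Ioo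
  have hf : Measurable (P.indicator (fun _ : ℝ × ℝ => (1 : ENNReal))) := measurable_const.indicator hPm
  have hmem : ∀ x : E3, x ∈ Dc_A a b l ↔ (rad x, x 2) ∈ P := by
    intro x
    unfold Dc_A
    rw [hP, mem_prod, mem_Ico, mem_Ioo]
    constructor
    · rintro ⟨h1, h2, h3⟩
      exact ⟨⟨h1, h2⟩, abs_lt.1 h3⟩
    · rintro ⟨⟨h1, h2⟩, h3⟩
      exact ⟨h1, h2, abs_lt.2 h3⟩
  have e1 : volume (Dc_A a b l) = ∫⁻ x : E3, P.indicator (fun _ => (1 : ENNReal)) (rad x, x 2) := by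
    rw [← lintegral_indicator_one (Dc_Am a b l)]
    congr 1
    funext x
    by_cases hx : x ∈ Dc_A a b l
    · rw [indicator_of_mem hx, indicator_of_mem ((hmem x).1 hx)]
      rfl
    · rw [indicator_of_notMem hx, indicator_of_notMem fun h => hx ((hmem x).2 h)]
  rw [e1, cyl hf]
  have e2 : ∫⁻ r in Ioi (0 : ℝ), ∫⁻ z : ℝ, ENNReal.ofReal r * P.indicator (fun _ => (1 : ENNReal)) (r, z) ≤
      ∫⁻ r in Ioi (0 : ℝ), (Ico a b).indicator (fun _ => ENNReal.ofReal b * ENNReal.ofReal (2 * l)) r := by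
    refine setLIntegral_mono' measurableSet_Ioi ?_
    intro r hr
    by_cases hrm : r ∈ Ico a b
    · rw [indicator_of_mem hrm]
      have e3 : ∀ z : ℝ, P.indicator (fun _ => (1 : ENNReal)) (r, z) = (Ioo (-l) l).indicator (fun _ => 1) z := by
        intro z
        by_cases hz : z ∈ Ioo (-l) l
        · rw [indicator_of_mem hz, indicator_of_mem (mk_mem_prod hrm hz)]
        · rw [indicator_of_notMem hz, indicator_of_notMem fun h => hz h.2]
      simp only [e3]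
      rw [lintegral_const_mul _ (measurable_const.indicator measurableSet_Ioo),
        lintegral_indicator measurableSet_Ioo, setLIntegral_const, one_mul, Real.volume_Ioo]
      have e4 : l - -l = 2 * l := by ring
      rw [e4]
      exact mul_le_mul_left (ENNReal.ofReal_le_ofReal hrm.2.le) _
    · rw [indicator_of_notMem hrm]
      have e3 : ∀ z : ℝ, ENNReal.ofReal r * P.indicator (fun _ => (1 : ENNReal)) (r, z) = 0 := by
        intro z
        rw [indicator_of_notMem fun h => hrm h.1, mul_zero]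
      simp only [e3, lintegral_zero, le_refl]
  have e5 : ∫⁻ r in Ioi (0 : ℝ), (Ico a b).indicator (fun _ => ENNReal.ofReal b * ENNReal.ofReal (2 * l)) r ≤
      ENNReal.ofReal b * ENNReal.ofReal (2 * l) * ENNReal.ofReal (b - a) := by
    refine (setLIntegral_le_lintegral _ _).trans ?_
    rw [lintegral_indicator measurableSet_Ico, setLIntegral_const, Real.volume_Ico]
  refine (mul_le_mul_right (e2.trans e5) _).trans (le_of_eq ?_)
  rw [← ENNReal.ofReal_mul hb, ← ENNReal.ofReal_mul (by positivity), ← ENNReal.ofReal_mul (by positivity)]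
  congr 1
  ring

theorem Dc_volr {a b l : ℝ} (hab : a ≤ b) (hb : 0 ≤ b) (hl : 0 ≤ l) :
    volume.real (Dc_A a b l) ≤ 4 * Real.pi * (b * (b - a)) * l := by
  have h1 : 0 ≤ 4 * Real.pi * (b * (b - a)) * l :=
    mul_nonneg (mul_nonneg (by positivity) (mul_nonneg hb (by linarith))) hl
  exact ENNReal.toReal_le_of_le_ofReal h1 (Dc_vol hab hb hl)

theorem Dc_volf {a b l : ℝ} (hab : a ≤ b) (hb : 0 ≤ b) (hl : 0 ≤ l) : volume (Dc_A a b l) ≠ ⊤ :=
  ne_top_of_le_ne_top ENNReal.ofReal_ne_top (Dc_vol hab hb hl)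

theorem Dc_rsq (x : E3) : rsq x = rad x ^ 2 := (rad_sq x).symm

theorem Dc_arith {κ N C : ℝ} (hκ : 1 ≤ κ) (hN : 0 < N) (hC : 1 ≤ C) :
    4 * (1 / (1600 * κ * C * N)) * (C * N ^ 3) +
      (1 / (2 * (1 / (1600 * κ * C * N)))) * (4 * Real.pi * (1 * (51 / 100 * (1 / (200000 * κ * C)))) * (N / (20 * κ))) ≤
      N * (N / (20 * κ)) / 10 := by
  have hκ0 : 0 < κ := by linarith
  have hC0 : 0 < C := by linarith
  have hpi := Real.pi_lt_d2
  have e1 : 4 * (1 / (1600 * κ * C * N)) * (C * N ^ 3) = N ^ 2 / κ * (1 / 400) := by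
    field_simp
    ring
  have e2 : (1 / (2 * (1 / (1600 * κ * C * N)))) * (4 * Real.pi * (1 * (51 / 100 * (1 / (200000 * κ * C)))) * (N / (20 * κ))) =
      N ^ 2 / κ * (Real.pi * (408 / 1000000)) := by
    field_simp
    ring
  have e3 : N * (N / (20 * κ)) / 10 = N ^ 2 / κ * (1 / 200) := by
    field_simp
    ring
  rw [e1, e2, e3, ← mul_add]
  apply mul_le_mul_of_nonneg_left _ (by positivity)
  linarith

theorem dCut {κ N Z C : ℝ} {v : E3 → E3} (h : Sl κ N v) (hZ : 1 ≤ Z) (hC : 1 ≤ C) (hS : SS v (ww N Z 1 0) ≤ C * N ^ 3) :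
    |(∫ x in {x : E3 | rad x < 1}, v x 2 * pz (N / (20 * κ)) (x 2)) - ∫ x, v x 2 * gd (1 / (200000 * κ * C)) (N / (20 * κ)) x| ≤
      N * (N / (20 * κ)) / 10 := by
  have hκ : 1 ≤ κ := h.one
  have hκN : κ ≤ N := h.le
  have hκ0 : 0 < κ := by linarith
  have hN : 0 < N := by linarith
  have hC0 : 0 < C := by linarith
  have hl : 0 < N / (20 * κ) := by positivity
  have hlN : N / (20 * κ) ≤ N := by
    rw [div_le_iff₀ (by positivity)]
    nlinarith
  have hδ : 0 < 1 / (200000 * κ * C) := by positivity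
  have hδ1 : 1 / (200000 * κ * C) ≤ 1 / 100 := by
    apply one_div_le_one_div_of_le (by norm_num)
    have : 1 ≤ κ * C := by nlinarith
    nlinarith
  have harith := Dc_arith hκ hN hC
  set l : ℝ := N / (20 * κ) with hl'
  set δ : ℝ := 1 / (200000 * κ * C) with hδ'
  set s : ℝ := 1 / (1600 * κ * C * N) with hs'
  have hs : 0 < s := by positivity
  obtain ⟨K, hK0, hK, hvi, -⟩ := ba_vf h.vf
  have hv := h.ax.smooth
  have hv2 : ∀ x, |v x 2| ≤ K := fun x => (ba_gv x 0 0).2.2.2.2.2.1.trans (hK x).1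
  have c2 : Continuous fun x => v x 2 := (contDiff_euclidean.1 hv 2).continuous
  obtain ⟨pzs, -, -, -, pzb⟩ := pz_f hl
  obtain ⟨gds, -, gdt, -⟩ := gd_f hδ hl
  have hpzc : Continuous (fun x : E3 => pz l (x 2)) := pzs.continuous.comp (Psi_cont_coord 2)
  have hg0 : ∀ x : E3, 1 ≤ rad x → gd δ l x = 0 := fun x hx => (gd_v hδ hl x).2.2.2.1 hx
  have hD : MeasurableSet {x : E3 | rad x < 1} := (isOpen_lt Dc_radc continuous_const).measurableSet
  -- integrability
  have iB : IntegrableOn (fun x => v x 2 * pz l (x 2)) {x : E3 | rad x < 1} := by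
    have i0 : Integrable ((Dc_A 0 1 l).indicator (fun _ : E3 => K)) :=
      (integrableOn_const (Dc_volf (by norm_num) (by norm_num) hl.le)).integrable_indicator (Dc_Am 0 1 l)
    refine Integrable.mono' i0.integrableOn (c2.mul hpzc).aestronglyMeasurable ?_
    refine (ae_restrict_iff' hD).2 (ae_of_all _ fun x hx => ?_)
    obtain ⟨p0, p1, p2⟩ := pzb (x 2)
    by_cases hz : |x 2| < l
    · rw [indicator_of_mem (show x ∈ Dc_A 0 1 l from ⟨rad_nonneg x, hx, hz⟩), norm_mul, Real.norm_eq_abs, Real.norm_eq_abs,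
        abs_of_nonneg p0]
      calc |v x 2| * pz l (x 2) ≤ K * 1 := mul_le_mul (hv2 x) p1 p0 hK0
        _ = K := mul_one K
    · rw [p2 (not_lt.1 hz), mul_zero, norm_zero]
      exact indicator_nonneg (fun _ _ => hK0) x
  have iG : Integrable (fun x => v x 2 * gd δ l x) := by
    refine Integrable.mono' (gdt.int.norm.const_mul K) (c2.mul gds.continuous).aestronglyMeasurable (ae_of_all _ fun x => ?_)
    rw [norm_mul, Real.norm_eq_abs]
    exact mul_le_mul_of_nonneg_right (hv2 x) (norm_nonneg _)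
  have e1 : ∫ x, v x 2 * gd δ l x = ∫ x in {x : E3 | rad x < 1}, v x 2 * gd δ l x := by
    rw [← integral_indicator hD]
    congr 1
    funext x
    by_cases hx : x ∈ {x : E3 | rad x < 1}
    · rw [indicator_of_mem hx]
    · rw [indicator_of_notMem hx, hg0 x (not_lt.1 hx), mul_zero]
  rw [e1, ← integral_sub iB iG.integrableOn]
  -- the bound on the shell
  have hAe : ∀ x : E3, rad x < 1 → x ∉ Dc_A (1 - 51 / 100 * δ) 1 l → pz l (x 2) - gd δ l x = 0 := by
    intro x hx hxA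
    obtain ⟨-, -, -, -, g5, g6⟩ := gd_v hδ hl x
    by_cases hz : |x 2| < l
    · have h1 : rad x < 1 - 51 / 100 * δ := by
        by_contra hcon
        exact hxA ⟨not_lt.1 hcon, hx, hz⟩
      have h2 : rsq x ≤ 1 - δ := by
        rw [Dc_rsq]
        have h3 := rad_nonneg x
        have h4 : rad x ^ 2 ≤ (1 - 51 / 100 * δ) ^ 2 := pow_le_pow_left₀ h3 h1.le 2
        nlinarith
      rw [g6 h2, sub_self]
    · rw [g5 (not_lt.1 hz), (pzb (x 2)).2.2 (not_lt.1 hz), sub_self]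
  have hw : ∀ x ∈ Dc_A (1 - 51 / 100 * δ) 1 l, 1 / 8 ≤ ww N Z 1 0 x := by
    rintro x ⟨-, hx1, hx2⟩
    unfold ww wt
    have h1 : rsq x < 1 := by
      rw [Dc_rsq]
      exact pow_lt_one₀ (rad_nonneg x) hx1 (by norm_num)
    have h0 : 0 ≤ rsq x := by
      rw [Dc_rsq]
      positivity
    have h2 : 1 / 4 ≤ ((1 + rsq x / 1 ^ 2) ^ 2)⁻¹ := by
      rw [one_pow, div_one, ← one_div]
      apply one_div_le_one_div_of_le (by positivity)
      nlinarith
    have h3 : 1 / 2 ≤ (1 + (x 2 - 0) ^ 2 / (Z * N * 1) ^ 2)⁻¹ := by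
      rw [← one_div]
      apply one_div_le_one_div_of_le (by positivity)
      have h4 : (x 2 - 0) ^ 2 / (Z * N * 1) ^ 2 ≤ 1 := by
        rw [div_le_one (by positivity), sub_zero, mul_one, sq_le_sq]
        have h5 : N ≤ Z * N := by nlinarith
        rw [abs_of_pos (by positivity : 0 < Z * N)]
        linarith
      linarith
    calc (1 : ℝ) / 8 = 1 / 4 * (1 / 2) := by norm_num
      _ ≤ _ := mul_le_mul h2 h3 (by norm_num) (by positivity)
  have hL : 0 < Z * N * 1 := by positivity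
  have hww0 : ∀ x, 0 ≤ ww N Z 1 0 x := fun x => (wt_pos one_pos hL 0 x).le
  have iS : Integrable (fun x => ‖v x‖ ^ 2 * ww N Z 1 0 x) := by
    refine Integrable.mono' hvi (((ba_gvc hv).2.1.pow 2).mul (wt_sm one_pos hL 0).continuous).aestronglyMeasurable
      (ae_of_all _ fun x => ?_)
    rw [norm_mul, Real.norm_eq_abs, Real.norm_eq_abs, abs_of_nonneg (by positivity), abs_of_nonneg (hww0 x)]
    calc ‖v x‖ ^ 2 * ww N Z 1 0 x ≤ ‖v x‖ ^ 2 * 1 := mul_le_mul_of_nonneg_left (wt_le one_pos hL 0 x) (by positivity)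
      _ = ‖v x‖ ^ 2 := mul_one _
  have iA : Integrable ((Dc_A (1 - 51 / 100 * δ) 1 l).indicator (fun _ : E3 => 1 / (2 * s))) :=
    (integrableOn_const (Dc_volf (by linarith) (by norm_num) hl.le)).integrable_indicator (Dc_Am _ _ _)
  have key : ∀ᵐ x ∂(volume.restrict {x : E3 | rad x < 1}), ‖v x 2 * pz l (x 2) - v x 2 * gd δ l x‖ ≤
      4 * s * (‖v x‖ ^ 2 * ww N Z 1 0 x) + (Dc_A (1 - 51 / 100 * δ) 1 l).indicator (fun _ : E3 => 1 / (2 * s)) x := by
    refine (ae_restrict_iff' hD).2 (ae_of_all _ fun x hx => ?_)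
    have hpos : 0 ≤ 4 * s * (‖v x‖ ^ 2 * ww N Z 1 0 x) :=
      mul_nonneg (by positivity) (mul_nonneg (by positivity) (hww0 x))
    rw [← mul_sub]
    by_cases hxA : x ∈ Dc_A (1 - 51 / 100 * δ) 1 l
    · rw [indicator_of_mem hxA, norm_mul, Real.norm_eq_abs, Real.norm_eq_abs]
      obtain ⟨g1, -, g3, -, -, -⟩ := gd_v hδ hl x
      obtain ⟨-, p1, -⟩ := pzb (x 2)
      have h1 : |pz l (x 2) - gd δ l x| ≤ 1 := by
        rw [abs_of_nonneg (by linarith)]
        linarith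
      have h2 : |v x 2| * |pz l (x 2) - gd δ l x| ≤ |v x 2| := by
        calc |v x 2| * |pz l (x 2) - gd δ l x| ≤ |v x 2| * 1 := mul_le_mul_of_nonneg_left h1 (abs_nonneg _)
          _ = |v x 2| := mul_one _
      refine h2.trans ?_
      have h3 : |v x 2| ≤ ‖v x‖ := (ba_gv (v := v) x 0 0).2.2.2.2.2.1
      have h4 : ‖v x‖ ^ 2 * (1 / 8) ≤ ‖v x‖ ^ 2 * ww N Z 1 0 x := mul_le_mul_of_nonneg_left (hw x hxA) (by positivity)
      have h5 : ‖v x‖ ≤ s / 2 * ‖v x‖ ^ 2 + 1 / (2 * s) := by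
        have e2 : s / 2 * ‖v x‖ ^ 2 + 1 / (2 * s) - ‖v x‖ = s / 2 * (‖v x‖ - 1 / s) ^ 2 := by
          field_simp
          ring
        have e3 : 0 ≤ s / 2 * (‖v x‖ - 1 / s) ^ 2 := by positivity
        linarith
      have h6 := mul_le_mul_of_nonneg_left h4 (by positivity : 0 ≤ 4 * s)
      linarith
    · rw [hAe x hx hxA, mul_zero, norm_zero]
      exact add_nonneg hpos (indicator_nonneg (fun _ _ => by positivity) x)
  have e4 := norm_integral_le_of_norm_le (((iS.const_mul (4 * s)).add iA).integrableOn (s := {x : E3 | rad x < 1})) key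
  rw [Real.norm_eq_abs] at e4
  refine e4.trans ?_
  have e5 : ∫ x in {x : E3 | rad x < 1}, (4 * s * (‖v x‖ ^ 2 * ww N Z 1 0 x) +
      (Dc_A (1 - 51 / 100 * δ) 1 l).indicator (fun _ : E3 => 1 / (2 * s)) x) ≤
      ∫ x, (4 * s * (‖v x‖ ^ 2 * ww N Z 1 0 x) +
      (Dc_A (1 - 51 / 100 * δ) 1 l).indicator (fun _ : E3 => 1 / (2 * s)) x) := by
    refine setIntegral_le_integral ((iS.const_mul (4 * s)).add iA) (ae_of_all _ fun x => ?_)
    exact add_nonneg (mul_nonneg (by positivity) (mul_nonneg (by positivity) (hww0 x)))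
      (indicator_nonneg (fun _ _ => by positivity) x)
  refine e5.trans ?_
  rw [integral_add (iS.const_mul (4 * s)) iA, integral_const_mul, integral_indicator (Dc_Am _ _ _), setIntegral_const,
    smul_eq_mul]
  have e6 := Dc_volr (a := 1 - 51 / 100 * δ) (b := 1) (l := l) (by linarith) (by norm_num) hl.le
  have e7 : (1 : ℝ) - (1 - 51 / 100 * δ) = 51 / 100 * δ := by ring
  rw [e7] at e6
  have e8 : 4 * s * (∫ x, ‖v x‖ ^ 2 * ww N Z 1 0 x) ≤ 4 * s * (C * N ^ 3) := mul_le_mul_of_nonneg_left hS (by positivity)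
  have e9 := mul_le_mul_of_nonneg_left e6 (by positivity : 0 ≤ 1 / (2 * s))
  have e10 : volume.real (Dc_A (1 - 51 / 100 * δ) 1 l) * (1 / (2 * s)) =
      1 / (2 * s) * volume.real (Dc_A (1 - 51 / 100 * δ) 1 l) := mul_comm _ _
  rw [e10]
  linarith

theorem Dc_sub {f g : E3 → ℝ} {x : E3} (hf : DifferentiableAt ℝ f x) (hg : DifferentiableAt ℝ g x) (i : Fin 3) :
    pd i (fun y => f y - g y) x = pd i f x - pd i g x := by
  unfold pd
  rw [fderiv_fun_sub hf hg]
  rfl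

theorem Dc_tf {f g : E3 → ℝ} (hf : TF f) (hg : TF g) : TF (fun x => f x - g x) := by
  obtain ⟨B₁, hB₁⟩ := hf.bd
  obtain ⟨B₂, hB₂⟩ := hg.bd
  have hpd : ∀ i, pd i (fun x => f x - g x) = fun x => pd i f x - pd i g x := by
    intro i
    funext x
    exact Dc_sub (hf.c1.differentiable (by norm_num) x) (hg.c1.differentiable (by norm_num) x) i
  refine ⟨hf.c1.sub hg.c1, hf.int.sub hg.int, fun i => ?_, B₁ + B₂, fun x => ⟨?_, fun i => ?_⟩⟩
  · rw [hpd]
    exact (hf.intd i).sub (hg.intd i)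
  · exact (abs_sub _ _).trans (add_le_add (hB₁ x).1 (hB₂ x).1)
  · rw [hpd]
    exact (abs_sub _ _).trans (add_le_add ((hB₁ x).2 i) ((hB₂ x).2 i))

theorem Dc_sh (y : ℝ × ℝ) : sh y = y.1 • e 0 + y.2 • e 1 := by
  ext i
  fin_cases i <;> simp [sh, e]

theorem Dc_osc {φ : E3 → ℝ} (hφ : ContDiff ℝ ∞ φ) {M ε : ℝ} (hM : ∀ x, |pd 0 φ x| ≤ M ∧ |pd 1 φ x| ≤ M) (hε : 0 ≤ ε)
    (x : E3) {y : ℝ × ℝ} (hy : y.1 ^ 2 + y.2 ^ 2 < 1) : |φ (x - ε • sh y) - φ x| ≤ 2 * ε * M := by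
  have hd : Differentiable ℝ φ := hφ.differentiable (by simp)
  have h1 : ∀ t : ℝ, HasDerivAt (fun t : ℝ => φ (x - (t * ε) • sh y))
      (fderiv ℝ φ (x - (t * ε) • sh y) (-((1 * ε) • sh y))) t := by
    intro t
    have h2 : HasDerivAt (fun t : ℝ => x - (t * ε) • sh y) (-((1 * ε) • sh y)) t :=
      (((hasDerivAt_id t).mul_const ε).smul_const (sh y)).const_sub x
    exact (hd _).hasFDerivAt.comp_hasDerivAt t h2
  have hy1 : |y.1| ≤ 1 := abs_le_one_iff_mul_self_le_one.2 (by nlinarith [sq_nonneg y.2])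
  have hy2 : |y.2| ≤ 1 := abs_le_one_iff_mul_self_le_one.2 (by nlinarith [sq_nonneg y.1])
  have h3 : ∀ t : ℝ, ‖fderiv ℝ φ (x - (t * ε) • sh y) (-((1 * ε) • sh y))‖ ≤ 2 * ε * M := by
    intro t
    rw [map_neg, norm_neg, one_mul, map_smul, Dc_sh, map_add, map_smul, map_smul]
    obtain ⟨m0, m1⟩ := hM (x - (t * ε) • (y.1 • e 0 + y.2 • e 1))
    unfold pd at m0 m1
    rw [norm_smul, Real.norm_eq_abs, abs_of_nonneg hε, Real.norm_eq_abs]
    have h4 : |y.1 • fderiv ℝ φ (x - (t * ε) • (y.1 • e 0 + y.2 • e 1)) (e 0) +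
        y.2 • fderiv ℝ φ (x - (t * ε) • (y.1 • e 0 + y.2 • e 1)) (e 1)| ≤ 1 * M + 1 * M := by
      refine (abs_add_le _ _).trans (add_le_add ?_ ?_)
      · rw [smul_eq_mul, abs_mul]
        exact mul_le_mul hy1 m0 (abs_nonneg _) (by norm_num)
      · rw [smul_eq_mul, abs_mul]
        exact mul_le_mul hy2 m1 (abs_nonneg _) (by norm_num)
    have h5 := mul_le_mul_of_nonneg_left h4 hε
    calc _ ≤ ε * (1 * M + 1 * M) := h5
      _ = 2 * ε * M := by ring
  have h6 := norm_image_sub_le_of_norm_deriv_le_segment_01' (f := fun t : ℝ => φ (x - (t * ε) • sh y))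
    (fun t _ => (h1 t).hasDerivWithinAt) (fun t _ => h3 t)
  rw [one_mul, zero_mul, zero_smul, sub_zero] at h6
  exact h6

theorem Dc_hm {φ : E3 → ℝ} (hφ : Continuous φ) {M ε : ℝ} (hM : 0 ≤ M) (x : E3)
    (h : ∀ y : ℝ × ℝ, y.1 ^ 2 + y.2 ^ 2 < 1 → |φ (x - ε • sh y) - φ x| ≤ M) : |φ x - hm ε φ x| ≤ M := by
  obtain ⟨b1, b2, b3, b4, b5, b6, -⟩ := b_facts
  have hshc : Continuous (fun y : ℝ × ℝ => x - ε • sh y) := by
    unfold sh
    fun_prop
  have i1 : Integrable (fun y : ℝ × ℝ => bu y * φ (x - ε • sh y)) :=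
    (b1.continuous.mul (hφ.comp hshc)).integrable_of_hasCompactSupport (b3.mul_right)
  have i2 : Integrable (fun y : ℝ × ℝ => bu y * φ x) := b4.mul_const _
  have e1 : φ x - hm ε φ x = ∫ y : ℝ × ℝ, (bu y * φ x - bu y * φ (x - ε • sh y)) := by
    rw [integral_sub i2 i1, integral_mul_const, b5, one_mul]
    rfl
  rw [e1]
  have e2 := norm_integral_le_of_norm_le (f := fun y : ℝ × ℝ => (bu y * φ x - bu y * φ (x - ε • sh y)))
    (b4.mul_const M) (ae_of_all _ fun y => by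
      rw [← mul_sub, norm_mul, Real.norm_eq_abs, Real.norm_eq_abs, abs_of_nonneg (b2 y)]
      rcases lt_or_ge (y.1 ^ 2 + y.2 ^ 2) 1 with hc | hc
      · rw [abs_sub_comm]
        exact mul_le_mul_of_nonneg_left (h y hc) (b2 y)
      · rw [(b6 y hc).1, zero_mul, zero_mul])
  rw [integral_mul_const, b5, one_mul, Real.norm_eq_abs] at e2
  exact e2

theorem dMol : ∃ C : ℝ, 1 ≤ C ∧ ∀ (κ N δ l ε : ℝ) (v : E3 → E3), Sl κ N v → 0 < δ → δ ≤ 1 → 0 < l → 0 < ε → ε ≤ 1 →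
    |(∫ x, v x 2 * gd δ l x) - ∫ x, hm ε (fun y => v y 2) x * gd δ l x| ≤ C * N * ε * l / δ ^ 2 := by
  obtain ⟨C, hC, hg2⟩ := gd_2
  refine ⟨204 * C, by linarith, ?_⟩
  intro κ N δ l ε v h hδ hδ1 hl hε hε1
  have hκ : 1 ≤ κ := h.one
  have hN : 0 < N := by linarith [h.le]
  have hC0 : 0 < C := by linarith
  obtain ⟨K, hK0, hK, -, -⟩ := ba_vf h.vf
  have hv := h.ax.smooth
  have hv2 : ∀ x, |v x 2| ≤ K := fun x => (ba_gv x 0 0).2.2.2.2.2.1.trans (hK x).1
  have c2 : Continuous fun x => v x 2 := (contDiff_euclidean.1 hv 2).continuous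
  obtain ⟨gds, -, gdt, -⟩ := gd_f hδ hl
  have gc : Continuous (gd δ l) := gds.continuous
  have htf : TF (fun x => gd δ l x - hm ε (gd δ l) x) := Dc_tf gdt (hm_tf gdt ε)
  have e1 := hm_dual c2 gc hv2 gdt.int ε
  have hmc : Continuous (hm ε (gd δ l)) := hm_cont gc ε
  have i1 : Integrable (fun x => v x 2 * gd δ l x) := by
    refine Integrable.mono' (gdt.int.norm.const_mul K) (c2.mul gc).aestronglyMeasurable (ae_of_all _ fun x => ?_)
    rw [norm_mul, Real.norm_eq_abs]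
    exact mul_le_mul_of_nonneg_right (hv2 x) (norm_nonneg _)
  have i2 : Integrable (fun x => v x 2 * hm ε (gd δ l) x) := by
    refine Integrable.mono' ((hm_tf gdt ε).int.norm.const_mul K) (c2.mul hmc).aestronglyMeasurable (ae_of_all _ fun x => ?_)
    rw [norm_mul, Real.norm_eq_abs]
    exact mul_le_mul_of_nonneg_right (hv2 x) (norm_nonneg _)
  rw [e1, ← integral_sub i1 i2]
  have e2 : ∫ x, (v x 2 * gd δ l x - v x 2 * hm ε (gd δ l) x) = ∫ x, v x 2 * (gd δ l x - hm ε (gd δ l) x) := by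
    congr 1
    funext x
    ring
  rw [e2]
  refine (f1 h htf).trans ?_
  have gd1 : ContDiff ℝ 1 (gd δ l) := gds.of_le (by exact_mod_cast le_top)
  have hd1 : Differentiable ℝ (gd δ l) := gds.differentiable (by simp)
  have hd2 : Differentiable ℝ (hm ε (gd δ l)) := (hm_sm gds ε).differentiable (by simp)
  have pds : ∀ a : Fin 3, ContDiff ℝ ∞ (pd a (gd δ l)) := by
    intro a
    unfold pd
    exact (gds.fderiv_right (by simp)).clm_apply contDiff_const
  have hsup : ∀ x : E3, x ∉ Dc_A 0 2 l → ∀ y : ℝ × ℝ, y.1 ^ 2 + y.2 ^ 2 < 1 →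
      (1 ≤ rad (x - ε • sh y) ∨ l ≤ |(x - ε • sh y) 2|) ∧ (1 ≤ rad x ∨ l ≤ |x 2|) := by
    intro x hx y hy
    obtain ⟨-, -, -, s2, s3⟩ := sh_f y ε x
    have s4 := (s3 hε.le hy).2
    rw [s2]
    by_cases hz : |x 2| < l
    · have h1 : 2 ≤ rad x := by
        by_contra hcon
        exact hx ⟨rad_nonneg x, not_le.1 hcon, hz⟩
      have h2 := (abs_le.1 s4).1
      exact ⟨Or.inl (by linarith), Or.inl (by linarith)⟩
    · exact ⟨Or.inr (not_lt.1 hz), Or.inr (not_lt.1 hz)⟩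
  have hbd : ∀ a : Fin 3, (a = 0 ∨ a = 1) → ∀ x, |pd a (fun x => gd δ l x - hm ε (gd δ l) x) x| ≤
      (Dc_A 0 2 l).indicator (fun _ : E3 => 2 * ε * (C / δ ^ 2)) x := by
    intro a ha x
    rw [Dc_sub (hd1 x) (hd2 x), hm_pd gd1]
    by_cases hx : x ∈ Dc_A 0 2 l
    · rw [indicator_of_mem hx]
      refine Dc_hm (pds a).continuous (by positivity) x fun y hy => ?_
      refine Dc_osc (pds a) (fun x' => ?_) hε.le x hy
      obtain ⟨q1, q2, q3, q4⟩ := (hg2 δ l hδ hδ1 hl x').1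
      rcases ha with rfl | rfl
      · exact ⟨q1, q2⟩
      · exact ⟨q3, q4⟩
    · rw [indicator_of_notMem hx]
      have hz : ∀ x' : E3, (1 ≤ rad x' ∨ l ≤ |x' 2|) → pd a (gd δ l) x' = 0 := by
        intro x' hx'
        rcases ha with rfl | rfl
        · exact ((hg2 δ l hδ hδ1 hl x').2 hx').1
        · exact ((hg2 δ l hδ hδ1 hl x').2 hx').2
      refine Dc_hm (pds a).continuous le_rfl x fun y hy => ?_
      obtain ⟨z1, z2⟩ := hsup x hx y hy
      rw [hz _ z1, hz _ z2, sub_zero, abs_zero]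
  have e3 : ∫ x, hg (fun x => gd δ l x - hm ε (gd δ l) x) x ≤
      ∫ x, (Dc_A 0 2 l).indicator (fun _ : E3 => 4 * ε * (C / δ ^ 2)) x := by
    have i3 : Integrable ((Dc_A 0 2 l).indicator (fun _ : E3 => 4 * ε * (C / δ ^ 2))) :=
      (integrableOn_const (Dc_volf (by norm_num) (by norm_num) hl.le)).integrable_indicator (Dc_Am _ _ _)
    refine integral_mono_of_nonneg (ae_of_all _ fun x => Real.sqrt_nonneg _) i3 (ae_of_all _ fun x => ?_)
    have h0 := hbd 0 (Or.inl rfl) x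
    have h1 := hbd 1 (Or.inr rfl) x
    have h2 : hg (fun x => gd δ l x - hm ε (gd δ l) x) x ≤
        |pd 0 (fun x => gd δ l x - hm ε (gd δ l) x) x| + |pd 1 (fun x => gd δ l x - hm ε (gd δ l) x) x| := by
      unfold hg
      rw [Real.sqrt_le_left (by positivity)]
      have f1 := sq_abs (pd 0 (fun x => gd δ l x - hm ε (gd δ l) x) x)
      have f2 := sq_abs (pd 1 (fun x => gd δ l x - hm ε (gd δ l) x) x)
      nlinarith [mul_nonneg (abs_nonneg (pd 0 (fun x => gd δ l x - hm ε (gd δ l) x) x))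
        (abs_nonneg (pd 1 (fun x => gd δ l x - hm ε (gd δ l) x) x))]
    refine h2.trans ?_
    by_cases hx : x ∈ Dc_A 0 2 l
    · rw [indicator_of_mem hx] at h0 h1 ⊢
      linarith
    · rw [indicator_of_notMem hx] at h0 h1 ⊢
      linarith
  rw [integral_indicator (Dc_Am _ _ _), setIntegral_const, smul_eq_mul] at e3
  have e4 := Dc_volr (a := 0) (b := 2) (l := l) (by norm_num) (by norm_num) hl.le
  have hpi := Real.pi_lt_d2
  have e5 : 4 * Real.pi * (2 * (2 - 0)) * l ≤ 51 * l := by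
    have : 4 * Real.pi * (2 * (2 - 0)) ≤ 51 := by linarith
    exact mul_le_mul_of_nonneg_right this hl.le
  have e6 : ∫ x, hg (fun x => gd δ l x - hm ε (gd δ l) x) x ≤ 51 * l * (4 * ε * (C / δ ^ 2)) :=
    e3.trans (mul_le_mul_of_nonneg_right (e4.trans e5) (by positivity))
  have e7 := mul_le_mul_of_nonneg_left e6 hN.le
  refine e7.trans (le_of_eq ?_)
  field_simp
  ring

end Pool.Agent.H16.TU
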