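/-
ROW Ea (MP_09540e_TU). The stream function and the energy. PROOF. Let r = rad x > 0, z₀ = x 2, P = sP v (rotation invariant: sP_rot, so P x = P(r,0,z₀); KSym_trig), `F z = r² P(r,0,z)`. `F z = ∫ s in 0..r, s v₂(s,0,z)` (sP = avk 1: `∫_0^1 σ v₂(σ r, 0, z) dσ`, substitute s = σ r). Cauchy-Schwarz: `F(z)² ≤ (r²/2) ∫_0^r s v₂(s,0,z)² ds`. Integrating over z in an interval I:
`∫_I F² ≤ (r²/2)(1/(2π)) ∫ v₂² ≤ r²/(4π) ∫ ‖v‖²` (cyl: cylindrical coordinates; v₂² is rotation invariant). F is Lipschitz: `F' z = r² pd 2 P = - r² sW = - radFlux v (r,0,z)` (sW_sP, flux_eq; rsq = r²), `|F'| ≤ rad * hn ≤ κ(1+r)` (hor). With F₀ = |F z₀|: on `I = [z₀ - F₀/(2κ(1+r)), z₀ + F₀/(2κ(1+r))]`, `|F| ≥ F₀/2`, so `(F₀²/4) F₀/(κ(1+r)) ≤ ∫_I F² ≤ r²/(4π) ∫‖v‖²`,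
`F₀³ ≤ κ(1+r) r² ∫‖v‖²/π ≤ κ(1+r) r² ∫‖v‖²`. As `F₀ = r · (r|P|)`: `r³ (r|P|)³ ≤ κ(1+r) r² ∫‖v‖²`; divide by r².
-/
import Pool.Agent.H16.TU.Ba
import Pool.Agent.H16.TU.Defs4
import Pool.Agent.H87.NS.KSym

set_option autoImplicit false

open Set Filter Topology MeasureTheory
open scoped ContDiff

namespace Pool.Agent.H16.TU

open Pool.Agent.H16 Pool.Agent.H87.NS Pool.Agent.H72.CC

/-- The point at distance `s` from the axis at height `z`. -/
private noncomputable def Ea_m (s z : ℝ) : E3 := !₂[s, 0, z]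

private theorem Ea_m0 (s z : ℝ) : Ea_m s z 0 = s := rfl
private theorem Ea_m1 (s z : ℝ) : Ea_m s z 1 = 0 := rfl
private theorem Ea_m2 (s z : ℝ) : Ea_m s z 2 = z := rfl

private theorem Ea_rsq (s z : ℝ) : rsq (Ea_m s z) = s ^ 2 := by
  unfold rsq
  rw [Ea_m0, Ea_m1]
  ring

private theorem Ea_rad2 (x : E3) : rad x ^ 2 = rsq x := by
  unfold rad rsq
  exact Real.sq_sqrt (by positivity)

private theorem Ea_rot {x : E3} (hx : 0 < rsq x) : ∃ θ : ℝ, rot θ (Ea_m (rad x) (x 2)) = x := by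
  obtain ⟨θ, h, _⟩ := KSym_rot (y := Ea_m (rad x) (x 2)) (z := x) (by rw [Ea_rsq, Ea_rad2]; exact hx)
    (by rw [Ea_rsq, Ea_rad2]) rfl
  exact ⟨θ, h⟩

private theorem Ea_v2 {v : E3 → E3} (h : AxF v) (x : E3) : v (Ea_m (rad x) (x 2)) 2 = v x 2 := by
  by_cases hx : 0 < rsq x
  · obtain ⟨θ, hθ⟩ := Ea_rot hx
    have h1 := h.ax θ (Ea_m (rad x) (x 2))
    rw [hθ] at h1
    rw [h1, rot_two']
  · have h0 : rsq x = 0 := le_antisymm (not_lt.1 hx) (by unfold rsq; positivity)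
    have h1 : x 0 ^ 2 + x 1 ^ 2 = 0 := h0
    have h2 : x 0 = 0 := by nlinarith [sq_nonneg (x 0), sq_nonneg (x 1)]
    have h3 : x 1 = 0 := by nlinarith [sq_nonneg (x 0), sq_nonneg (x 1)]
    have h4 : rad x = 0 := by
      unfold rad
      rw [h1, Real.sqrt_zero]
    have h5 : Ea_m (rad x) (x 2) = x := by
      apply ext3
      · rw [Ea_m0, h4, h2]
      · rw [Ea_m1, h3]
      · rw [Ea_m2]
    rw [h5]

private theorem Ea_sPm {v : E3 → E3} (r z : ℝ) :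
    sP v (Ea_m r z) = ∫ s in (0:ℝ)..1, s ^ 1 * v (Ea_m (s * r) z) 2 := by
  unfold sP avk
  refine intervalIntegral.integral_congr fun s _ => ?_
  have h : sq s (Ea_m r z) = Ea_m (s * r) z := by
    apply ext3
    · rfl
    · show s * (0 : ℝ) = 0
      ring
    · rfl
  show s ^ 1 * v (sq s (Ea_m r z)) 2 = _
  rw [h]

private theorem Ea_mcont : Continuous (fun q : ℝ × ℝ => Ea_m q.1 q.2) := by
  have h : (fun q : ℝ × ℝ => Ea_m q.1 q.2) = fun q : ℝ × ℝ => q.1 • (e 0 : E3) + q.2 • (e 2 : E3) := by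
    funext q
    apply ext3
    · show q.1 = (q.1 • (e 0 : E3) + q.2 • (e 2 : E3)) 0
      simp [e_apply]
    · show (0 : ℝ) = (q.1 • (e 0 : E3) + q.2 • (e 2 : E3)) 1
      simp [e_apply]
    · show q.2 = (q.1 • (e 0 : E3) + q.2 • (e 2 : E3)) 2
      simp [e_apply]
  rw [h]
  exact (continuous_fst.smul continuous_const).add (continuous_snd.smul continuous_const)

private theorem Ea_gc {v : E3 → E3} (h : AxF v) : Continuous (fun q : ℝ × ℝ => v (Ea_m q.1 q.2) 2) :=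
  (Psi_v2 h).continuous.comp Ea_mcont

private theorem Ea_mder (r z : ℝ) : HasDerivAt (fun z => Ea_m r z) (e 2 : E3) z := by
  have h : (fun z => Ea_m r z) = fun z : ℝ => r • (e 0 : E3) + z • (e 2 : E3) := by
    funext z
    apply ext3
    · show r = (r • (e 0 : E3) + z • (e 2 : E3)) 0
      simp [e_apply]
    · show (0 : ℝ) = (r • (e 0 : E3) + z • (e 2 : E3)) 1
      simp [e_apply]
    · show z = (r • (e 0 : E3) + z • (e 2 : E3)) 2
      simp [e_apply]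
  rw [h]
  have h1 := ((hasDerivAt_id z).smul_const (e 2 : E3)).const_add (r • (e 0 : E3))
  rw [one_smul] at h1
  exact h1

/-- The pointwise Cauchy-Schwarz bound. -/
private theorem Ea_cs {v : E3 → E3} (h : AxF v) {r : ℝ} (hr : 0 < r) (z : ℝ) :
    r ^ 2 * sP v (Ea_m r z) ^ 2 ≤ ∫ y in (0:ℝ)..r, y * v (Ea_m y z) 2 ^ 2 := by
  have hg : Continuous (fun y : ℝ => v (Ea_m y z) 2) :=
    (Ea_gc h).comp (continuous_id.prodMk continuous_const)
  have hgr : Continuous (fun s : ℝ => v (Ea_m (s * r) z) 2) := hg.comp (continuous_id.mul continuous_const)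
  have h1 : sP v (Ea_m r z) ^ 2 ≤ ∫ s in (0:ℝ)..1, (s ^ 1 * v (Ea_m (s * r) z) 2) ^ 2 := by
    rw [Ea_sPm]
    exact Avk_jensen ((continuous_id.pow 1).mul hgr)
  have h2 : ∫ s in (0:ℝ)..1, (s ^ 1 * v (Ea_m (s * r) z) 2) ^ 2 ≤
      ∫ s in (0:ℝ)..1, s * v (Ea_m (s * r) z) 2 ^ 2 := by
    refine intervalIntegral.integral_mono_on zero_le_one
      ((((continuous_id.pow 1).mul hgr).pow 2).intervalIntegrable 0 1)
      ((continuous_id.mul (hgr.pow 2)).intervalIntegrable 0 1) ?_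
    intro s hs
    have h3 : (s ^ 1 * v (Ea_m (s * r) z) 2) ^ 2 = s ^ 2 * v (Ea_m (s * r) z) 2 ^ 2 := by ring
    rw [h3]
    refine mul_le_mul_of_nonneg_right ?_ (sq_nonneg _)
    nlinarith [hs.1, hs.2]
  have h3 := intervalIntegral.integral_comp_mul_right (a := 0) (b := 1)
    (fun y => y * v (Ea_m y z) 2 ^ 2) hr.ne'
  rw [zero_mul, one_mul, smul_eq_mul] at h3
  have h4 : ∫ s in (0:ℝ)..1, s * r * v (Ea_m (s * r) z) 2 ^ 2 =
      r * ∫ s in (0:ℝ)..1, s * v (Ea_m (s * r) z) 2 ^ 2 := by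
    rw [← intervalIntegral.integral_const_mul]
    refine intervalIntegral.integral_congr fun s _ => ?_
    show s * r * v (Ea_m (s * r) z) 2 ^ 2 = r * (s * v (Ea_m (s * r) z) 2 ^ 2)
    ring
  rw [h4] at h3
  have h5 : r ^ 2 * ∫ s in (0:ℝ)..1, s * v (Ea_m (s * r) z) 2 ^ 2 =
      ∫ y in (0:ℝ)..r, y * v (Ea_m y z) 2 ^ 2 := by
    have h6 : r * (r * ∫ s in (0:ℝ)..1, s * v (Ea_m (s * r) z) 2 ^ 2) =
        r * (r⁻¹ * ∫ y in (0:ℝ)..r, y * v (Ea_m y z) 2 ^ 2) := by rw [h3]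
    rw [← mul_assoc, ← mul_assoc, mul_inv_cancel₀ hr.ne', one_mul] at h6
    rw [← h6]
    ring
  rw [← h5]
  exact mul_le_mul_of_nonneg_left (h1.trans h2) (sq_nonneg r)

/-- The integral bound. -/
private theorem Ea_int {v : E3 → E3} (h : AxF v) (hi : Integrable (fun x => ‖v x‖ ^ 2)) {r : ℝ} (hr : 0 < r)
    (I : Set ℝ) :
    ENNReal.ofReal (2 * Real.pi) * ∫⁻ z in I, ENNReal.ofReal (r ^ 2 * sP v (Ea_m r z) ^ 2) ≤
      ENNReal.ofReal (∫ y, ‖v y‖ ^ 2) := by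
  have hgc := Ea_gc h
  have hm : Measurable (fun q : ℝ × ℝ => ENNReal.ofReal (v (Ea_m q.1 q.2) 2 ^ 2)) :=
    ENNReal.measurable_ofReal.comp (hgc.pow 2).measurable
  have h1 := cyl hm
  have h2 : ∫⁻ x : E3, ENNReal.ofReal (v (Ea_m (rad x) (x 2)) 2 ^ 2) ≤ ENNReal.ofReal (∫ y, ‖v y‖ ^ 2) := by
    rw [ofReal_integral_eq_lintegral_ofReal hi (Eventually.of_forall fun x => sq_nonneg _)]
    refine lintegral_mono fun x => ENNReal.ofReal_le_ofReal ?_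
    rw [Ea_v2 h]
    have h3 : |v x 2| ≤ ‖v x‖ := PiLp.norm_apply_le (v x) 2
    rw [← sq_abs (v x 2)]
    exact pow_le_pow_left₀ (abs_nonneg _) h3 2
  refine le_trans ?_ h2
  have h4 : ∫⁻ x : E3, ENNReal.ofReal (v (Ea_m (rad x) (x 2)) 2 ^ 2) =
      ENNReal.ofReal (2 * Real.pi) * ∫⁻ r in Ioi (0 : ℝ), ∫⁻ z : ℝ,
        ENNReal.ofReal r * ENNReal.ofReal (v (Ea_m r z) 2 ^ 2) := h1
  rw [h4]
  refine mul_le_mul_right ?_ _
  have hm2 : Measurable (fun q : ℝ × ℝ => ENNReal.ofReal q.1 * ENNReal.ofReal (v (Ea_m q.1 q.2) 2 ^ 2)) :=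
    (ENNReal.measurable_ofReal.comp measurable_fst).mul hm
  calc ∫⁻ z in I, ENNReal.ofReal (r ^ 2 * sP v (Ea_m r z) ^ 2)
      ≤ ∫⁻ z in I, ∫⁻ y in Ioc (0:ℝ) r, ENNReal.ofReal y * ENNReal.ofReal (v (Ea_m y z) 2 ^ 2) := by
        refine lintegral_mono fun z => ?_
        have hg : Continuous (fun y : ℝ => v (Ea_m y z) 2) :=
          hgc.comp (continuous_id.prodMk continuous_const)
        have hc : Continuous (fun y : ℝ => y * v (Ea_m y z) 2 ^ 2) := continuous_id.mul (hg.pow 2)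
        refine (ENNReal.ofReal_le_ofReal (Ea_cs h hr z)).trans ?_
        rw [intervalIntegral.integral_of_le hr.le, ofReal_integral_eq_lintegral_ofReal
          (hc.intervalIntegrable 0 r).1 ?_]
        · refine setLIntegral_mono' measurableSet_Ioc fun y hy => ?_
          rw [ENNReal.ofReal_mul hy.1.le]
        · refine (ae_restrict_iff' measurableSet_Ioc).2 (Eventually.of_forall fun y hy => ?_)
          exact mul_nonneg hy.1.le (sq_nonneg _)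
    _ ≤ ∫⁻ z, ∫⁻ y in Ioi (0:ℝ), ENNReal.ofReal y * ENNReal.ofReal (v (Ea_m y z) 2 ^ 2) := by
        refine (setLIntegral_le_lintegral I _).trans ?_
        exact lintegral_mono fun z => lintegral_mono_set Ioc_subset_Ioi_self
    _ = ∫⁻ y in Ioi (0:ℝ), ∫⁻ z, ENNReal.ofReal y * ENNReal.ofReal (v (Ea_m y z) 2 ^ 2) :=
        lintegral_lintegral_swap (hm2.comp measurable_swap).aemeasurable

theorem eF {κ : ℝ} {v : E3 → E3} (h : AxF v) (hi : Integrable (fun x => ‖v x‖ ^ 2)) (hκ : 1 ≤ κ) (hor : ∀ x, rad x * hn v x ≤ κ * (1 + rad x))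
    {x : E3} (hx : 0 < rad x) : rad x * (rad x * |sP v x|) ^ 3 ≤ κ * (1 + rad x) * ∫ y, ‖v y‖ ^ 2 := by
  have hκ0 : 0 < κ := by linarith
  obtain ⟨r, hrd⟩ : ∃ r, r = rad x := ⟨_, rfl⟩
  have hr : 0 < r := by rw [hrd]; exact hx
  obtain ⟨z0, hz0⟩ : ∃ z0, z0 = x 2 := ⟨_, rfl⟩
  have hsx : 0 < rsq x := by
    rw [← Ea_rad2]
    positivity
  have hP : sP v x = sP v (Ea_m r z0) := by
    obtain ⟨θ, hθ⟩ := Ea_rot hsx
    have h1 := sP_rot h θ (Ea_m (rad x) (x 2))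
    rw [hθ] at h1
    rw [h1, hrd, hz0]
  obtain ⟨E, hE⟩ : ∃ E : ℝ, E = ∫ y, ‖v y‖ ^ 2 := ⟨_, rfl⟩
  have hE0 : 0 ≤ E := by
    rw [hE]
    exact integral_nonneg fun y => sq_nonneg _
  rw [← hrd, hP, ← hE]
  obtain ⟨F, hF⟩ : ∃ F : ℝ → ℝ, F = fun z => r ^ 2 * sP v (Ea_m r z) := ⟨_, rfl⟩
  have hder : ∀ z, HasDerivAt F (r ^ 2 * pd 2 (sP v) (Ea_m r z)) z := by
    intro z
    rw [hF]
    have h1 := ((sP_smooth h).differentiable (by simp) (Ea_m r z)).hasFDerivAt.comp_hasDerivAt z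
      (Ea_mder r z)
    exact h1.const_mul (r ^ 2)
  have hbd : ∀ z, ‖r ^ 2 * pd 2 (sP v) (Ea_m r z)‖ ≤ κ * (1 + r) := by
    intro z
    have h1 := flux_eq h (Ea_m r z)
    rw [sW_sP h, Ea_rsq] at h1
    have h2 : |r ^ 2 * pd 2 (sP v) (Ea_m r z)| = |radFlux v (Ea_m r z)| := by
      rw [h1, mul_neg, abs_neg]
    have h3 : radFlux v (Ea_m r z) = r * v (Ea_m r z) 0 := by
      show r * v (Ea_m r z) 0 + 0 * v (Ea_m r z) 1 = _
      ring
    have h4 : |v (Ea_m r z) 0| ≤ hn v (Ea_m r z) := by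
      unfold hn
      refine Real.le_sqrt_of_sq_le ?_
      rw [sq_abs]
      nlinarith [sq_nonneg (v (Ea_m r z) 1)]
    have h5 : rad (Ea_m r z) = r := by
      have h6 := Ea_rad2 (Ea_m r z)
      rw [Ea_rsq] at h6
      have h7 : 0 ≤ rad (Ea_m r z) := Real.sqrt_nonneg _
      exact (sq_eq_sq₀ h7 hr.le).1 h6
    have h6 := hor (Ea_m r z)
    rw [h5] at h6
    rw [Real.norm_eq_abs, h2, h3, abs_mul, abs_of_pos hr]
    exact (mul_le_mul_of_nonneg_left h4 hr.le).trans h6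
  have hlip : ∀ z, |F z - F z0| ≤ κ * (1 + r) * |z - z0| := by
    intro z
    have h1 := convex_univ.norm_image_sub_le_of_norm_hasDerivWithin_le
      (f := F) (f' := fun z => r ^ 2 * pd 2 (sP v) (Ea_m r z)) (C := κ * (1 + r)) (x := z0) (y := z)
      (fun y _ => (hder y).hasDerivWithinAt) (fun y _ => hbd y) (mem_univ _) (mem_univ _)
    rw [Real.norm_eq_abs, Real.norm_eq_abs] at h1
    exact h1
  have hK : 0 < κ * (1 + r) := by positivity
  obtain ⟨K, hKd⟩ : ∃ K, K = κ * (1 + r) := ⟨_, rfl⟩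
  rw [← hKd] at hlip hK ⊢
  obtain ⟨F0, hF0⟩ : ∃ F0, F0 = |F z0| := ⟨_, rfl⟩
  have hF0n : 0 ≤ F0 := by rw [hF0]; exact abs_nonneg _
  obtain ⟨d, hd⟩ : ∃ d, d = F0 / (2 * K) := ⟨_, rfl⟩
  have hd0 : 0 ≤ d := by rw [hd]; positivity
  have hKd2 : K * d = F0 / 2 := by
    rw [hd]
    field_simp
  have hlow : ∀ z ∈ Icc (z0 - d) (z0 + d), F0 ^ 2 / (4 * r ^ 2) ≤ r ^ 2 * sP v (Ea_m r z) ^ 2 := by
    intro z hz
    have h1 : |z - z0| ≤ d := abs_le.2 ⟨by linarith [hz.1], by linarith [hz.2]⟩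
    have h2 := hlip z
    have h3 : K * |z - z0| ≤ F0 / 2 := by
      rw [← hKd2]
      exact mul_le_mul_of_nonneg_left h1 hK.le
    have h4 : F0 - |F z| ≤ |F z - F z0| := by
      rw [hF0, abs_sub_comm]
      exact abs_sub_abs_le_abs_sub _ _
    have h5 : F0 / 2 ≤ |F z| := by linarith
    have h6 : (F0 / 2) ^ 2 ≤ F z ^ 2 := by
      rw [← sq_abs (F z)]
      exact pow_le_pow_left₀ (by linarith) h5 2
    have h7 : F z ^ 2 = r ^ 2 * (r ^ 2 * sP v (Ea_m r z) ^ 2) := by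
      rw [hF]
      ring
    rw [div_le_iff₀ (by positivity)]
    rw [h7] at h6
    nlinarith
  have hmain := Ea_int h hi hr (Icc (z0 - d) (z0 + d))
  have h8 : ENNReal.ofReal (F0 ^ 2 / (4 * r ^ 2)) * ENNReal.ofReal (2 * d) ≤
      ∫⁻ z in Icc (z0 - d) (z0 + d), ENNReal.ofReal (r ^ 2 * sP v (Ea_m r z) ^ 2) := by
    have h9 : ∫⁻ _ in Icc (z0 - d) (z0 + d), ENNReal.ofReal (F0 ^ 2 / (4 * r ^ 2)) =
        ENNReal.ofReal (F0 ^ 2 / (4 * r ^ 2)) * ENNReal.ofReal (2 * d) := by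
      rw [setLIntegral_const, Real.volume_Icc]
      congr 2
      ring
    rw [← h9]
    exact setLIntegral_mono' measurableSet_Icc fun z hz => ENNReal.ofReal_le_ofReal (hlow z hz)
  rw [← hE] at hmain
  have h10 : ENNReal.ofReal (2 * Real.pi * (F0 ^ 2 / (4 * r ^ 2) * (2 * d))) ≤ ENNReal.ofReal E := by
    rw [ENNReal.ofReal_mul (p := 2 * Real.pi) (by positivity),
      ENNReal.ofReal_mul (p := F0 ^ 2 / (4 * r ^ 2)) (by positivity)]
    exact (mul_le_mul_right h8 _).trans hmain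
  have h11 : 2 * Real.pi * (F0 ^ 2 / (4 * r ^ 2) * (2 * d)) ≤ E := by
    exact (ENNReal.ofReal_le_ofReal_iff hE0).1 h10
  have hF0r : F0 = r * (r * |sP v (Ea_m r z0)|) := by
    rw [hF0, hF]
    show |r ^ 2 * sP v (Ea_m r z0)| = _
    rw [abs_mul, abs_of_nonneg (sq_nonneg r)]
    ring
  obtain ⟨w, hw⟩ : ∃ w, w = r * |sP v (Ea_m r z0)| := ⟨_, rfl⟩
  have hw0 : 0 ≤ w := by rw [hw]; positivity
  rw [← hw] at hF0r ⊢
  have h12 : 2 * Real.pi * (F0 ^ 2 / (4 * r ^ 2) * (2 * d)) = Real.pi / 2 * (r * w ^ 3 / K) := by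
    rw [hd, hF0r]
    field_simp
    ring
  rw [h12] at h11
  have hpi := Real.pi_gt_three
  have h13 : 0 ≤ r * w ^ 3 / K := by positivity
  have h14 : r * w ^ 3 / K ≤ E := by nlinarith
  rw [div_le_iff₀ hK] at h14
  linarith

theorem hor_of {v : E3 → E3} {M C : ℝ} (hM : ∀ x, |circ v x| ≤ M) (hC : ∀ x, |radFlux v x| ≤ C * (1 + rad x)) (x : E3) :
    rad x * hn v x ≤ (|M| + |C| + 1) * (1 + rad x) := by
  have h1 : rad x * hn v x ≤ |radFlux v x| + |circ v x| := by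
    have h2 : (rad x * hn v x) ^ 2 = radFlux v x ^ 2 + circ v x ^ 2 := by
      have h3 : rad x ^ 2 = x 0 ^ 2 + x 1 ^ 2 := Real.sq_sqrt (by positivity)
      have h4 : hn v x ^ 2 = v x 0 ^ 2 + v x 1 ^ 2 := Real.sq_sqrt (by positivity)
      rw [mul_pow, h3, h4]
      unfold radFlux circ
      ring
    have h5 : 0 ≤ |radFlux v x| + |circ v x| := by positivity
    refine le_of_sq_le_sq ?_ h5
    rw [h2]
    nlinarith [sq_abs (radFlux v x), sq_abs (circ v x), mul_nonneg (abs_nonneg (radFlux v x)) (abs_nonneg (circ v x))]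
  have hr : 0 ≤ rad x := Real.sqrt_nonneg _
  have h2 : C * (1 + rad x) ≤ |C| * (1 + rad x) := mul_le_mul_of_nonneg_right (le_abs_self C) (by linarith)
  have h3 : M ≤ |M| * (1 + rad x) := by
    have h4 := le_abs_self M
    have h5 : 0 ≤ |M| * rad x := by positivity
    linarith
  have h6 := hM x
  have h7 := hC x
  linarith

end Pool.Agent.H16.TU
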