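/-
ROW Eb (MP_09540e_TU). Selection of the extremal point. PROOF. Finite sup: for T' < T there is B with `rad x |sP (u t) x| ≤ B` for t ∈ Icc 0 T' and all x: if rad x ≤ 1: `|sP v x| ≤ K/2 ≤ K` (‖u‖ ≤ K on Icc 0 T'; avk bound); if rad x > 1: eF gives `(rad|P|)³ ≤ κ (1+rad)/rad E ≤ 2κE`, `E = ∫‖u 0‖²` (en_glob), so `rad |P| ≤ 2κE + 1`. Let N₀ be given, B₁ the bound on Icc 0 (T/2) (T > 0, otherwise hun is false),
`A = max N₀ (2 B₁ + κ + 2)`. By hun there are t' ∈ Ico 0 T, x' with `rad x' |sP (u t') x'| > A`. Let N = sup over (t, x) ∈ Icc 0 t' × E3 of `rad x |sP (u t) x|` (bounded above by the finite sup with T' = t'; ≥ A > 0) and choose (t₀, x₀) in it with value > 9N/10. Then N ≥ A ≥ N₀, t₀ ≤ t', for t ≤ t₀ all values are ≤ N: UpTo (Sl: ax = axF_of, db = uDB, one, le: κ ≤ A ≤ N, hor, str),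
and t₀ ≥ T/2: otherwise 9N/10 < B₁, but N ≥ 2B₁ + 2.
-/
import Pool.Agent.H16.TU.Ea
import Pool.Agent.H16.TU.Ta

set_option autoImplicit false

open Set Filter Topology MeasureTheory
open scoped ContDiff

namespace Pool.Agent.H16.TU

open Pool.Agent.H16 Pool.Agent.H87.NS Pool.Agent.H72.CC

theorem Eb_int {v : E3 → E3} {K : ℝ} (hK : ∀ j : Fin 3, DB 4 K (fun x => v x j)) :
    Integrable (fun x => ‖v x‖ ^ 2) := by
  have h0 := (DB_BL (hK 0)).2.1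
  have h1 := (DB_BL (hK 1)).2.1
  have h2 := (DB_BL (hK 2)).2.1
  have h3 : (fun x => ‖v x‖ ^ 2) = fun x => v x 0 ^ 2 + v x 1 ^ 2 + v x 2 ^ 2 := by
    funext x
    rw [EuclideanSpace.real_norm_sq_eq, Fin.sum_univ_three]
  rw [h3]
  exact (h0.add h1).add h2

theorem Eb_sup {T κ : ℝ} {u : ℝ → E3 → E3} {p : ℝ → E3 → ℝ} (h : IsHInfAxisymNS T u p) (hκ : 1 ≤ κ)
    (hor : ∀ t ∈ Ico 0 T, ∀ x, rad x * hn (u t) x ≤ κ * (1 + rad x)) {T' : ℝ} (hT' : T' < T) :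
    ∃ B : ℝ, 0 ≤ B ∧ ∀ t ∈ Icc 0 T', ∀ x, rad x * |sP (u t) x| ≤ B := by
  obtain ⟨K, hK⟩ := uDB h hT'
  have hE : 0 ≤ ∫ x, ‖u 0 x‖ ^ 2 := integral_nonneg fun x => sq_nonneg _
  refine ⟨2 * |K| + (2 * κ * (∫ x, ‖u 0 x‖ ^ 2) + 1), by positivity, fun t ht x => ?_⟩
  have ht' : t ∈ Ico 0 T := ⟨ht.1, lt_of_le_of_lt ht.2 hT'⟩
  have hax : AxF (u t) := axF_of h.ns ht'
  have hP : |sP (u t) x| ≤ 2 * |K| := by
    have h1 : BL (2 * K) (avk 1 (fun y => u t y 2)) :=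
      avk_BL (((EuclideanSpace.proj 2 : E3 →L[ℝ] ℝ).contDiff.comp hax.smooth).continuous) le_rfl
        (DB_BL (hK t ht 2))
    have h2 := h1.1 x
    have h3 : |sP (u t) x| ≤ 2 * K := h2
    linarith [le_abs_self K]
  have hr := rad_nonneg x
  have hκE : 0 ≤ 2 * κ * ∫ x, ‖u 0 x‖ ^ 2 := by positivity
  rcases le_or_gt (rad x) 1 with h1 | h1
  · have h2 : rad x * |sP (u t) x| ≤ 1 * (2 * |K|) :=
      mul_le_mul h1 hP (abs_nonneg _) zero_le_one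
    linarith
  · have hx : 0 < rad x := by linarith
    have h2 := eF hax (Eb_int (hK t ht)) hκ (hor t ht') hx
    have h3 := (en_glob h ht').1
    have h4 : κ * (1 + rad x) * ∫ y, ‖u t y‖ ^ 2 ≤ κ * (2 * rad x) * ∫ x, ‖u 0 x‖ ^ 2 := by
      refine mul_le_mul ?_ h3 (integral_nonneg fun x => sq_nonneg _) (by positivity)
      exact mul_le_mul_of_nonneg_left (by linarith) (by linarith)
    have h5 : (rad x * |sP (u t) x|) ^ 3 ≤ 2 * κ * ∫ x, ‖u 0 x‖ ^ 2 := by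
      refine le_of_mul_le_mul_left ?_ hx
      calc rad x * (rad x * |sP (u t) x|) ^ 3 ≤ κ * (2 * rad x) * ∫ x, ‖u 0 x‖ ^ 2 := h2.trans h4
        _ = rad x * (2 * κ * ∫ x, ‖u 0 x‖ ^ 2) := by ring
    have hs : 0 ≤ rad x * |sP (u t) x| := mul_nonneg hr (abs_nonneg _)
    have h6 : rad x * |sP (u t) x| ≤ 2 * κ * (∫ x, ‖u 0 x‖ ^ 2) + 1 := by
      rcases le_or_gt (rad x * |sP (u t) x|) 1 with h7 | h7
      · linarith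
      · have h8 : rad x * |sP (u t) x| ≤ (rad x * |sP (u t) x|) ^ 3 :=
          le_self_pow₀ h7.le (by norm_num)
        linarith
    have h9 := abs_nonneg K
    linarith

theorem eSel {T κ : ℝ} {u : ℝ → E3 → E3} {p : ℝ → E3 → ℝ} (h : IsHInfAxisymNS T u p) (hκ : 1 ≤ κ)
    (hor : ∀ t ∈ Ico 0 T, ∀ x, rad x * hn (u t) x ≤ κ * (1 + rad x))
    (hun : ¬ ∃ Λ : ℝ, ∀ t ∈ Ico 0 T, ∀ x, rad x * |sP (u t) x| ≤ Λ) (N₀ : ℝ) :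
    ∃ (N t₀ : ℝ) (x₀ : E3), N₀ ≤ N ∧ UpTo T u κ N t₀ ∧ T / 2 ≤ t₀ ∧ 0 < T ∧ 9 / 10 * N ≤ rad x₀ * |sP (u t₀) x₀| := by
  push Not at hun
  obtain ⟨t₁, ht₁, -⟩ := hun 0
  have hT : 0 < T := lt_of_le_of_lt ht₁.1 ht₁.2
  obtain ⟨B₁, hB₁, hB₁'⟩ := Eb_sup h hκ hor (T' := T / 2) (by linarith)
  obtain ⟨A, hA⟩ : ∃ A, A = max N₀ (2 * B₁ + κ + 2) := ⟨_, rfl⟩
  have hA1 : N₀ ≤ A := by rw [hA]; exact le_max_left _ _
  have hA2 : 2 * B₁ + κ + 2 ≤ A := by rw [hA]; exact le_max_right _ _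
  obtain ⟨t', ht', x', hx'⟩ := hun A
  obtain ⟨B₂, hB₂, hB₂'⟩ := Eb_sup h hκ hor (T' := t') ht'.2
  obtain ⟨V, hV⟩ : ∃ V : Set ℝ, V = {r | ∃ t ∈ Icc 0 t', ∃ x, rad x * |sP (u t) x| = r} := ⟨_, rfl⟩
  have hmem : ∀ t ∈ Icc 0 t', ∀ x, rad x * |sP (u t) x| ∈ V := by
    intro t ht x
    rw [hV]
    exact ⟨t, ht, x, rfl⟩
  have hbd : BddAbove V := by
    refine ⟨B₂, ?_⟩
    rintro r hr
    rw [hV] at hr
    obtain ⟨t, ht, x, rfl⟩ := hr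
    exact hB₂' t ht x
  obtain ⟨N, hN⟩ : ∃ N, N = sSup V := ⟨_, rfl⟩
  have hle : ∀ t ∈ Icc 0 t', ∀ x, rad x * |sP (u t) x| ≤ N := by
    intro t ht x
    rw [hN]
    exact le_csSup hbd (hmem t ht x)
  have hAN : A < N := lt_of_lt_of_le hx' (hle t' ⟨ht'.1, le_rfl⟩ x')
  have hNpos : 0 < N := by linarith
  have hlt : 9 / 10 * N < sSup V := by
    rw [← hN]
    linarith
  obtain ⟨r, hr, hr'⟩ := exists_lt_of_lt_csSup ⟨_, hmem t' ⟨ht'.1, le_rfl⟩ x'⟩ hlt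
  rw [hV] at hr
  obtain ⟨t₀, ht₀, x₀, hr0⟩ := hr
  rw [← hr0] at hr'
  refine ⟨N, t₀, x₀, by linarith, ⟨⟨ht₀.1, lt_of_le_of_lt ht₀.2 ht'.2⟩, fun t ht => ?_⟩, ?_, hT,
    hr'.le⟩
  · have htt : t ∈ Icc 0 t' := ⟨ht.1, ht.2.trans ht₀.2⟩
    have htT : t ∈ Ico 0 T := ⟨ht.1, lt_of_le_of_lt htt.2 ht'.2⟩
    obtain ⟨K, hK⟩ := uDB h ht'.2
    exact ⟨axF_of h.ns htT, ⟨K, hK t htt⟩, hκ, by linarith, hor t htT, hle t htt⟩
  · by_contra hc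
    have hc' : t₀ ≤ T / 2 := (not_le.1 hc).le
    have h1 := hB₁' t₀ ⟨ht₀.1, hc'⟩ x₀
    linarith

end Pool.Agent.H16.TU
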