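/-
ROW Ec (MP_09540e_TU). Scaling invariance, I. PROOF. `X x = axp z + ρ • x` (smooth, `fderiv X = ρ • id`), `us ρ z u t x = ρ • u (ρ² t) (X x)`. smooth_u, smooth_p: compositions of the jointly smooth u, p on Ico 0 T × E3 with the smooth map (t, x) ↦ (ρ² t, X x), which maps Ico 0 (T/ρ²) × E3 into it. bounded: T' < T/ρ² gives ρ² T' < T. axisymmetric: `X (rot θ x) = rot θ (X x)` (rot is linear and fixes the axis: ext3, simp [axp]).
divergence: `fderiv (us ..) x (e i) = ρ • ρ • fderiv u (X x) (e i)`. navier_stokes: `deriv (fun s => us s x) t = ρ³ • (deriv (fun s => u s (X x)) (ρ² t))` (chain rule, u differentiable in t on Ioo: hasDerivAt_time), `fderiv (us t) x (us t x) = ρ³ fderiv u (X x) (u (X x))`, `Δ (us t) x = ρ³ Δ u (X x)`, `∇ (psc t) x = ρ³ ∇ p (X x)`. For Δ and ∇ one may go through components: Vort.lean has the identification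
of `(Δ v x) j` with `lap (fun y => v y j) x` and of `(gradient f x) j` with `pd j f x` (in the proof of ns_comp, laplacian_eq_sum, Vort_grad), and NsC.lean of H72/CC has the chain rules for pd, lap under X. sc_pd: `pd i (fun x => c * f (X x)) = fun x => (c ρ) * pd i f (X x)`.
-/
import Pool.Agent.H16.TU.Defs4

set_option autoImplicit false

open Set Filter Topology MeasureTheory
open scoped ContDiff

namespace Pool.Agent.H16.TU

open Pool.Agent.H16 Pool.Agent.H87.NS Pool.Agent.H72.CC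

private noncomputable def Ec_X (ρ z : ℝ) (y : E3) : E3 := axp z + ρ • y

private theorem Ec_X_smooth (ρ z : ℝ) : ContDiff ℝ ∞ (Ec_X ρ z) := by
  unfold Ec_X
  exact contDiff_const.add (contDiff_id.const_smul ρ)

private theorem Ec_X_deriv (ρ z : ℝ) (y : E3) :
    HasFDerivAt (Ec_X ρ z) (ρ • ContinuousLinearMap.id ℝ E3) y := by
  unfold Ec_X
  exact ((hasFDerivAt_id y).const_smul ρ).const_add (axp z)

private theorem Ec_X_rot (ρ z θ : ℝ) (y : E3) : Ec_X ρ z (rot θ y) = rot θ (Ec_X ρ z y) := by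
  unfold Ec_X
  apply ext3 <;> simp [axp] <;> ring

private theorem Ec_fd {F : Type*} [NormedAddCommGroup F] [NormedSpace ℝ F] {v : E3 → F}
    (hv : Differentiable ℝ v) (ρ z c : ℝ) (x w : E3) :
    fderiv ℝ (fun y => c • v (Ec_X ρ z y)) x w = (c * ρ) • fderiv ℝ v (Ec_X ρ z x) w := by
  have h1 : HasFDerivAt v (fderiv ℝ v (Ec_X ρ z x)) (Ec_X ρ z x) := (hv _).hasFDerivAt
  have h2 := (h1.comp x (Ec_X_deriv ρ z x)).const_smul c
  have h3 : fderiv ℝ (fun y => c • v (Ec_X ρ z y)) x = _ := h2.fderiv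
  rw [h3]
  change c • (fderiv ℝ v (Ec_X ρ z x)) (ρ • w) = _
  rw [map_smul, smul_smul]

private theorem Ec_fd' {F : Type*} [NormedAddCommGroup F] [NormedSpace ℝ F] {v : E3 → F}
    (hv : Differentiable ℝ v) (ρ z c : ℝ) :
    fderiv ℝ (fun y => c • v (Ec_X ρ z y)) = fun x => (c * ρ) • fderiv ℝ v (Ec_X ρ z x) := by
  funext x
  ext1 w
  exact Ec_fd hv ρ z c x w

private theorem Ec_lap {v : E3 → E3} (hv : ContDiff ℝ ∞ v) (ρ z c : ℝ) (x : E3) :
    Laplacian.laplacian (fun y => c • v (Ec_X ρ z y)) x =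
      (c * ρ * ρ) • Laplacian.laplacian v (Ec_X ρ z x) := by
  have hd : Differentiable ℝ (fderiv ℝ v) :=
    (hv.fderiv_right (m := ∞) (by norm_cast)).differentiable (by simp)
  rw [laplacian_eq_sum, laplacian_eq_sum]
  rw [Ec_fd' (hv.differentiable (by simp)), Finset.smul_sum]
  refine Finset.sum_congr rfl fun i _ => ?_
  rw [Ec_fd hd]
  rfl

private theorem Ec_grad {f : E3 → ℝ} (hf : Differentiable ℝ f) (ρ z c : ℝ) (x : E3) :
    gradient (fun y => c * f (Ec_X ρ z y)) x = (c * ρ) • gradient f (Ec_X ρ z x) := by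
  apply ext3
  all_goals
    rw [Vort_grad, PiLp.smul_apply, Vort_grad]
    unfold pd
    exact Ec_fd hf ρ z c x _

theorem sc_ns {T ρ z : ℝ} {u : ℝ → E3 → E3} {p : ℝ → E3 → ℝ} (h : IsAxisymNS T u p) (hρ : 0 < ρ) :
    IsAxisymNS (T / ρ ^ 2) (us ρ z u) (psc ρ z p) := by
  have hρ2 : 0 < ρ ^ 2 := by positivity
  have hT : ∀ t ∈ Ico 0 (T / ρ ^ 2), ρ ^ 2 * t ∈ Ico 0 T := by
    intro t ht
    refine ⟨mul_nonneg hρ2.le ht.1, ?_⟩
    have := (lt_div_iff₀ hρ2).1 ht.2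
    linarith
  have hT' : ∀ t ∈ Ioo 0 (T / ρ ^ 2), ρ ^ 2 * t ∈ Ioo 0 T := by
    intro t ht
    refine ⟨mul_pos hρ2 ht.1, ?_⟩
    have := (lt_div_iff₀ hρ2).1 ht.2
    linarith
  have hA : ContDiff ℝ ∞ (fun q : ℝ × E3 => (ρ ^ 2 * q.1, Ec_X ρ z q.2)) :=
    (contDiff_const.mul contDiff_fst).prodMk ((Ec_X_smooth ρ z).comp contDiff_snd)
  have hmaps : MapsTo (fun q : ℝ × E3 => (ρ ^ 2 * q.1, Ec_X ρ z q.2))
      (Ico 0 (T / ρ ^ 2) ×ˢ univ) (Ico 0 T ×ˢ univ) :=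
    fun q hq => ⟨hT q.1 hq.1, mem_univ _⟩
  refine ⟨?_, ?_, ?_, ?_, ?_, ?_⟩
  · have h1 : ContDiffOn ℝ ∞ (fun q : ℝ × E3 => u (ρ ^ 2 * q.1) (Ec_X ρ z q.2))
        (Ico 0 (T / ρ ^ 2) ×ˢ univ) :=
      ContDiffOn.comp (g := fun q : ℝ × E3 => u q.1 q.2) h.smooth_u hA.contDiffOn hmaps
    exact h1.const_smul ρ
  · have h1 : ContDiffOn ℝ ∞ (fun q : ℝ × E3 => p (ρ ^ 2 * q.1) (Ec_X ρ z q.2))
        (Ico 0 (T / ρ ^ 2) ×ˢ univ) :=
      ContDiffOn.comp (g := fun q : ℝ × E3 => p q.1 q.2) h.smooth_p hA.contDiffOn hmaps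
    exact contDiffOn_const.mul h1
  · intro T' hT1
    have h1 : ρ ^ 2 * T' < T := by
      have := (lt_div_iff₀ hρ2).1 hT1
      linarith
    obtain ⟨K, hK⟩ := h.bounded (ρ ^ 2 * T') h1
    refine ⟨ρ * K, fun t ht x => ?_⟩
    unfold us
    rw [norm_smul, Real.norm_of_nonneg hρ.le]
    exact mul_le_mul_of_nonneg_left (hK _ ⟨mul_nonneg hρ2.le ht.1,
      mul_le_mul_of_nonneg_left ht.2 hρ2.le⟩ _) hρ.le
  · intro t ht θ x
    change ρ • u (ρ ^ 2 * t) (Ec_X ρ z (rot θ x)) = rot θ (ρ • u (ρ ^ 2 * t) (Ec_X ρ z x))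
    rw [Ec_X_rot, h.axisymmetric _ (hT t ht)]
    exact ((rotL θ).map_smul ρ _).symm
  · intro t ht x
    have hsm := h.slice (hT t ht)
    have e1 : ∀ i : Fin 3, fderiv ℝ (us ρ z u t) x (EuclideanSpace.single i 1) =
        (ρ * ρ) • fderiv ℝ (u (ρ ^ 2 * t)) (Ec_X ρ z x) (EuclideanSpace.single i 1) :=
      fun i => Ec_fd (hsm.differentiable (by simp)) ρ z ρ x _
    have e2 := h.divergence_free _ (hT t ht) (Ec_X ρ z x)
    simp only [e1, PiLp.smul_apply, smul_eq_mul]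
    rw [← Finset.mul_sum, e2, mul_zero]
  · intro t ht x
    have ht' : t ∈ Ico 0 (T / ρ ^ 2) := ⟨ht.1.le, ht.2⟩
    have hsm := h.slice (hT t ht')
    have hpm := h.slice_p (hT t ht')
    have e0 := h.navier_stokes _ (hT' t ht) (Ec_X ρ z x)
    have d1 := h.hasDerivAt_time (hT' t ht) (Ec_X ρ z x)
    have d2 : HasDerivAt (fun r : ℝ => ρ ^ 2 * r) (ρ ^ 2) t := by
      have := (hasDerivAt_id t).const_mul (ρ ^ 2)
      rwa [mul_one] at this
    have e1 : deriv (fun s => us ρ z u s x) t =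
        ρ • (ρ ^ 2) • deriv (fun s => u s (Ec_X ρ z x)) (ρ ^ 2 * t) := by
      have d3 := (HasDerivAt.scomp t (h := fun r : ℝ => ρ ^ 2 * r) d1 d2).const_smul ρ
      exact d3.deriv
    have e2 : fderiv ℝ (us ρ z u t) x (us ρ z u t x) =
        (ρ * ρ) • fderiv ℝ (u (ρ ^ 2 * t)) (Ec_X ρ z x) (ρ • u (ρ ^ 2 * t) (Ec_X ρ z x)) :=
      Ec_fd (hsm.differentiable (by simp)) ρ z ρ x _
    have e3 : Laplacian.laplacian (us ρ z u t) x =
        (ρ * ρ * ρ) • Laplacian.laplacian (u (ρ ^ 2 * t)) (Ec_X ρ z x) :=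
      Ec_lap hsm ρ z ρ x
    have e4 : gradient (psc ρ z p t) x = (ρ ^ 2 * ρ) • gradient (p (ρ ^ 2 * t)) (Ec_X ρ z x) :=
      Ec_grad (hpm.differentiable (by simp)) ρ z (ρ ^ 2) x
    rw [e1, e2, e3, e4, map_smul, smul_smul, smul_smul]
    have e5 : ρ * ρ ^ 2 = ρ ^ 3 := by ring
    have e6 : ρ * ρ * ρ = ρ ^ 3 := by ring
    have e7 : ρ ^ 2 * ρ = ρ ^ 3 := by ring
    rw [e5, e6, e7, ← smul_add, ← smul_sub, ← smul_add, e0, smul_zero]

end Pool.Agent.H16.TU
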