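/-
ROW Ed (MP_09540e_TU). Scaling invariance, II. PROOF. ns: sc_ns. reg: `iteratedFDeriv ℝ n (us ρ z u t) x = ρ^(n+1) • (iteratedFDeriv ℝ n (u (ρ² t)) (X x))` up to identification: use that `us t = (ρ • ·) ∘ u (ρ² t) ∘ X`: iteratedFDeriv_const_smul_apply, iteratedFDeriv_comp_add_left, and for the dilation `x ↦ ρ • x`: the linear isometry-like map; `‖iteratedFDeriv ℝ n (f ∘ (ρ • ·)) x‖ = ρ^n ‖iteratedFDeriv ℝ n f (ρ • x)‖`
(iteratedFDeriv_comp_const_smul in Mathlib, or ContinuousLinearEquiv / ContinuousLinearMap.iteratedFDeriv_comp_right with the map `ρ • id` and the norm of compContinuousLinearMap in both directions). Square integrability: change of variables `integral_comp_smul`, `integral_add_left_eq_self`: `∫ ‖..(X x)‖² dx = ρ⁻³ ∫ ‖..‖²`; the bounds on [0, T'] come from those on [0, ρ² T'], ρ² T' < T.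
energy: `∫ ‖us t‖² = ρ² ρ⁻³ ∫ ‖u (ρ² t)‖²`, `∫ ∑ ‖fderiv (us s) x (e i)‖² = ρ⁴ ρ⁻³ ∫ ∑ ‖fderiv (u (ρ² s)) (e i)‖²`, and `∫ s in 0..t, g (ρ² s) ds = ρ⁻² ∫ s in 0..ρ² t, g s` (intervalIntegral.integral_comp_mul_left): everything is ρ⁻¹ times the energy inequality at ρ² t.
-/


/-
ROW Ed (MP_09540e_TU). Scaling invariance, II. PROOF. ns: sc_ns. reg: `iteratedFDeriv ℝ n (us ρ z u t) x = ρ^(n+1) • (iteratedFDeriv ℝ n (u (ρ² t)) (X x))` up to identification: use that `us t = (ρ • ·) ∘ u (ρ² t) ∘ X`: iteratedFDeriv_const_smul_apply, iteratedFDeriv_comp_add_left, and for the dilation `x ↦ ρ • x`: the linear isometry-like map; `‖iteratedFDeriv ℝ n (f ∘ (ρ • ·)) x‖ = ρ^n ‖iteratedFDeriv ℝ n f (ρ • x)‖`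
(iteratedFDeriv_comp_const_smul in Mathlib, or ContinuousLinearEquiv / ContinuousLinearMap.iteratedFDeriv_comp_right with the map `ρ • id` and the norm of compContinuousLinearMap in both directions). Square integrability: change of variables `integral_comp_smul`, `integral_add_left_eq_self`: `∫ ‖..(X x)‖² dx = ρ⁻³ ∫ ‖..‖²`; the bounds on [0, T'] come from those on [0, ρ² T'], ρ² T' < T.
energy: `∫ ‖us t‖² = ρ² ρ⁻³ ∫ ‖u (ρ² t)‖²`, `∫ ∑ ‖fderiv (us s) x (e i)‖² = ρ⁴ ρ⁻³ ∫ ∑ ‖fderiv (u (ρ² s)) (e i)‖²`, and `∫ s in 0..t, g (ρ² s) ds = ρ⁻² ∫ s in 0..ρ² t, g s` (intervalIntegral.integral_comp_mul_left): everything is ρ⁻¹ times the energy inequality at ρ² t.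
-/
import Pool.Agent.H16.TU.Ec

set_option autoImplicit false

open Set Filter Topology MeasureTheory
open scoped ContDiff

namespace Pool.Agent.H16.TU

open Pool.Agent.H16 Pool.Agent.H87.NS Pool.Agent.H72.CC

theorem Ed_iter {f : E3 → E3} (hf : ContDiff ℝ ∞ f) (n : ℕ) (a : E3) (ρ : ℝ) (x : E3) :
    iteratedFDeriv ℝ n (fun x => ρ • f (a + ρ • x)) x =
      ρ ^ (n + 1) • iteratedFDeriv ℝ n f (a + ρ • x) := by
  have hf' : ContDiff ℝ n f := hf.of_le (by exact_mod_cast le_top)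
  have h1 : ContDiff ℝ n (fun z : E3 => f (a + z)) := hf'.comp (contDiff_const.add contDiff_id)
  have h3 : ContDiff ℝ n (fun z : E3 => f (a + ρ • z)) :=
    hf'.comp (contDiff_const.add (contDiff_id.const_smul ρ))
  have h2 := congrFun (iteratedFDeriv_comp_const_smul (i := n) ρ h1) x
  rw [iteratedFDeriv_const_smul_apply' h3.contDiffAt]
  change ρ • iteratedFDeriv ℝ n (fun z => f (a + ρ • z)) x = _
  rw [h2, iteratedFDeriv_comp_add_left, smul_smul, ← pow_succ']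

theorem Ed_norm {f : E3 → E3} (hf : ContDiff ℝ ∞ f) (n : ℕ) (a : E3) {ρ : ℝ} (hρ : 0 < ρ)
    (x : E3) : ‖iteratedFDeriv ℝ n (fun x => ρ • f (a + ρ • x)) x‖ =
      ρ ^ (n + 1) * ‖iteratedFDeriv ℝ n f (a + ρ • x)‖ := by
  rw [Ed_iter hf, norm_smul, Real.norm_eq_abs, abs_of_pos (pow_pos hρ _)]

theorem Ed_int (F : E3 → ℝ) (a : E3) {ρ : ℝ} (hρ : 0 < ρ) :
    ∫ x, F (a + ρ • x) = (ρ ^ 3)⁻¹ * ∫ x, F x := by
  have h := Measure.integral_comp_smul (volume : Measure E3) (fun y => F (a + y)) ρ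
  rw [h, finrank_euclideanSpace_fin, abs_of_pos (inv_pos.2 (pow_pos hρ 3)), smul_eq_mul,
    integral_add_left_eq_self]

theorem Ed_integrable {F : E3 → ℝ} (hF : Integrable F) (a : E3) {ρ : ℝ} (hρ : 0 < ρ) :
    Integrable (fun x => F (a + ρ • x)) := by
  exact (hF.comp_add_left a).comp_smul hρ.ne'

theorem Ed_fd {f : E3 → E3} (hf : ContDiff ℝ ∞ f) (a : E3) (ρ : ℝ) (x w : E3) :
    fderiv ℝ (fun x => ρ • f (a + ρ • x)) x w = ρ ^ 2 • fderiv ℝ f (a + ρ • x) w := by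
  have hd : DifferentiableAt ℝ f (a + ρ • x) := (hf.differentiable (by simp)) _
  have h1 : HasFDerivAt (fun x : E3 => a + ρ • x) (ρ • ContinuousLinearMap.id ℝ E3) x :=
    ((hasFDerivAt_id x).const_smul ρ).const_add a
  have h2 := (hd.hasFDerivAt.comp x h1).const_smul ρ
  have h3 : fderiv ℝ (fun x => ρ • f (a + ρ • x)) x = _ := h2.fderiv
  rw [h3, _root_.smul_apply, ContinuousLinearMap.comp_apply,
    _root_.smul_apply, ContinuousLinearMap.id_apply, map_smul, smul_smul, ← _root_.sq]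

theorem sc_h {T ρ z : ℝ} {u : ℝ → E3 → E3} {p : ℝ → E3 → ℝ} (h : IsHInfAxisymNS T u p) (hρ : 0 < ρ) :
    IsHInfAxisymNS (T / ρ ^ 2) (us ρ z u) (psc ρ z p) := by
  have hρ2 : 0 < ρ ^ 2 := pow_pos hρ 2
  refine ⟨sc_ns h.ns hρ, ?_, ?_⟩
  · intro T' hT' n
    have hT1 : ρ ^ 2 * T' < T := by
      rw [lt_div_iff₀ hρ2] at hT'
      rw [mul_comm]
      exact hT'
    obtain ⟨K, hK⟩ := h.reg (ρ ^ 2 * T') hT1 n
    refine ⟨max (ρ ^ (n + 1) * K) ((ρ ^ (n + 1)) ^ 2 * ((ρ ^ 3)⁻¹ * K)), fun t ht => ?_⟩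
    have hτ : ρ ^ 2 * t ∈ Icc 0 (ρ ^ 2 * T') :=
      ⟨mul_nonneg hρ2.le ht.1, mul_le_mul_of_nonneg_left ht.2 hρ2.le⟩
    have hs : ContDiff ℝ ∞ (u (ρ ^ 2 * t)) := h.ns.slice ⟨hτ.1, lt_of_le_of_lt hτ.2 hT1⟩
    obtain ⟨k1, k2, k3⟩ := hK _ hτ
    have hn : ∀ x, ‖iteratedFDeriv ℝ n (us ρ z u t) x‖ =
        ρ ^ (n + 1) * ‖iteratedFDeriv ℝ n (u (ρ ^ 2 * t)) (axp z + ρ • x)‖ :=
      fun x => Ed_norm hs n (axp z) hρ x
    have hn2 : (fun x => ‖iteratedFDeriv ℝ n (us ρ z u t) x‖ ^ 2) = fun x =>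
        (ρ ^ (n + 1)) ^ 2 * (‖iteratedFDeriv ℝ n (u (ρ ^ 2 * t)) (axp z + ρ • x)‖ ^ 2) := by
      funext x
      rw [hn x, mul_pow]
    refine ⟨fun x => ?_, ?_, ?_⟩
    · rw [hn x]
      exact (mul_le_mul_of_nonneg_left (k1 _) (pow_pos hρ _).le).trans (le_max_left _ _)
    · rw [hn2]
      exact (Ed_integrable k2 (axp z) hρ).const_mul _
    · rw [hn2, integral_const_mul, Ed_int (fun y => ‖iteratedFDeriv ℝ n (u (ρ ^ 2 * t)) y‖ ^ 2)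
        (axp z) hρ]
      refine le_trans ?_ (le_max_right _ _)
      exact mul_le_mul_of_nonneg_left (mul_le_mul_of_nonneg_left k3
        (inv_pos.2 (pow_pos hρ 3)).le) (sq_nonneg _)
  · intro t ht
    have hτ : ρ ^ 2 * t ∈ Ico 0 T := by
      refine ⟨mul_nonneg hρ2.le ht.1, ?_⟩
      have := ht.2
      rw [lt_div_iff₀ hρ2] at this
      rw [mul_comm]
      exact this
    have hE := h.energy _ hτ
    have hr : ρ ^ 2 * (ρ ^ 3)⁻¹ = ρ⁻¹ := by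
      field_simp
    have hu : ∀ s : ℝ, ∫ x, ‖us ρ z u s x‖ ^ 2 = ρ⁻¹ * ∫ x, ‖u (ρ ^ 2 * s) x‖ ^ 2 := by
      intro s
      have e1 : (fun x => ‖us ρ z u s x‖ ^ 2) = fun x =>
          ρ ^ 2 * (‖u (ρ ^ 2 * s) (axp z + ρ • x)‖ ^ 2) := by
        funext x
        unfold us
        rw [norm_smul, Real.norm_eq_abs, abs_of_pos hρ, mul_pow]
      rw [e1, integral_const_mul, Ed_int (fun y => ‖u (ρ ^ 2 * s) y‖ ^ 2) (axp z) hρ, ← mul_assoc,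
        hr]
    have hg : ∀ s ∈ uIcc 0 t, ∫ x, ∑ i, ‖fderiv ℝ (us ρ z u s) x (e i)‖ ^ 2 =
        ρ * ∫ x, ∑ i, ‖fderiv ℝ (u (ρ ^ 2 * s)) x (e i)‖ ^ 2 := by
      intro s hs
      rw [uIcc_of_le ht.1] at hs
      have hs2 : ρ ^ 2 * s ∈ Ico 0 T :=
        ⟨mul_nonneg hρ2.le hs.1, lt_of_le_of_lt (mul_le_mul_of_nonneg_left hs.2 hρ2.le) hτ.2⟩
      have hsm : ContDiff ℝ ∞ (u (ρ ^ 2 * s)) := h.ns.slice hs2
      have e1 : (fun x => ∑ i, ‖fderiv ℝ (us ρ z u s) x (e i)‖ ^ 2) = fun x =>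
          (ρ ^ 2) ^ 2 * ∑ i, ‖fderiv ℝ (u (ρ ^ 2 * s)) (axp z + ρ • x) (e i)‖ ^ 2 := by
        funext x
        rw [Finset.mul_sum]
        refine Finset.sum_congr rfl fun i _ => ?_
        have e2 : fderiv ℝ (us ρ z u s) x (e i) =
            ρ ^ 2 • fderiv ℝ (u (ρ ^ 2 * s)) (axp z + ρ • x) (e i) :=
          Ed_fd hsm (axp z) ρ x (e i)
        rw [e2, norm_smul, Real.norm_eq_abs, abs_of_pos hρ2, mul_pow]
      have e3 : (ρ ^ 2) ^ 2 * (ρ ^ 3)⁻¹ = ρ := by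
        field_simp
      rw [e1, integral_const_mul, Ed_int (fun y => ∑ i, ‖fderiv ℝ (u (ρ ^ 2 * s)) y (e i)‖ ^ 2)
        (axp z) hρ, ← mul_assoc, e3]
    have hI : ∫ s in (0:ℝ)..t, ∫ x, ∑ i, ‖fderiv ℝ (us ρ z u s) x (e i)‖ ^ 2 =
        ρ⁻¹ * ∫ s in (0:ℝ)..(ρ ^ 2 * t), ∫ x, ∑ i, ‖fderiv ℝ (u s) x (e i)‖ ^ 2 := by
      rw [intervalIntegral.integral_congr hg, intervalIntegral.integral_const_mul,
        intervalIntegral.integral_comp_mul_left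
          (fun s => ∫ x, ∑ i, ‖fderiv ℝ (u s) x (e i)‖ ^ 2) hρ2.ne', mul_zero, smul_eq_mul,
        ← mul_assoc]
      congr 1
      field_simp
    have h0 : ∫ x, ‖us ρ z u 0 x‖ ^ 2 = ρ⁻¹ * ∫ x, ‖u 0 x‖ ^ 2 := by
      rw [hu 0, mul_zero]
    rw [hu t, hI, h0]
    have hρi : 0 ≤ ρ⁻¹ := (inv_pos.2 hρ).le
    calc ρ⁻¹ * (∫ x, ‖u (ρ ^ 2 * t) x‖ ^ 2) + 2 * (ρ⁻¹ * ∫ s in (0:ℝ)..(ρ ^ 2 * t),
          ∫ x, ∑ i, ‖fderiv ℝ (u s) x (e i)‖ ^ 2) =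
          ρ⁻¹ * ((∫ x, ‖u (ρ ^ 2 * t) x‖ ^ 2) + 2 * ∫ s in (0:ℝ)..(ρ ^ 2 * t),
          ∫ x, ∑ i, ‖fderiv ℝ (u s) x (e i)‖ ^ 2) := by ring
      _ ≤ ρ⁻¹ * ∫ x, ‖u 0 x‖ ^ 2 := mul_le_mul_of_nonneg_left hE hρi

end Pool.Agent.H16.TU
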