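/-
ROW Ee (MP_09540e_TU). Scaling of the slices and of the weighted integrals. PROOF. v = u (ρ² t), `X x = axp z + ρ • x`, `w x = ρ • v (X x)`; `rad (X x) = ρ rad x`, `(X x) 2 = z + ρ x 2`. e_sP: `sP w x = ρ sP v (X x)`: unfold sP, avk, `X (sq s x) = sq s (X x)`. e_Sl: ax: from AxF v (compositions; axis fixed), db: DB 4 of `x ↦ ρ v_j (X x)` (bounds of derivatives multiply by powers of ρ, L² norms by ρ⁻³: induction on n, general lemma
DB n K f → DB n K' (fun x => c * f (X x)) for ContDiff f), hor: `rad x * hn w x = rad x ρ hn v (X x) = rad (X x) hn v (X x) ≤ κ (1 + ρ rad x) ≤ κ (1 + rad x)` (ρ ≤ 1), str: `rad x |sP w x| = rad (X x) |sP v (X x)| ≤ N`. e_SS: `ww N Z R 0 x = ww N Z (ρ R) z (X x)` (rsq (X x) = ρ² rsq x, ((X x) 2 - z) = ρ x 2, `Z N (ρ R) = ρ (Z N R)`), change of variables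
`∫ g (X x) dx = ρ⁻³ ∫ g` (integral_comp_smul, integral_add_left_eq_self): `SS w (ww N Z R 0) = ρ² ρ⁻³ SS v (ww N Z (ρR) z)`, `gv w x = ρ⁴ gv v (X x)` (pd chain rule): `DD w (ww N Z R 0) = ρ⁴ ρ⁻³ DD v (ww N Z (ρR) z)`.
-/
import Pool.Agent.H16.TU.Ba
import Pool.Agent.H16.TU.Defs4

set_option autoImplicit false

open Set Filter Topology MeasureTheory
open scoped ContDiff

namespace Pool.Agent.H16.TU

open Pool.Agent.H16 Pool.Agent.H87.NS Pool.Agent.H72.CC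

/-- The affine map. -/
private noncomputable def Ee_X (ρ z : ℝ) (x : E3) : E3 := axp z + ρ • x

private lemma Ee_X0 (ρ z : ℝ) (x : E3) : Ee_X ρ z x 0 = ρ * x 0 := by
  simp [Ee_X, axp]

private lemma Ee_X1 (ρ z : ℝ) (x : E3) : Ee_X ρ z x 1 = ρ * x 1 := by
  simp [Ee_X, axp]

private lemma Ee_X2 (ρ z : ℝ) (x : E3) : Ee_X ρ z x 2 = z + ρ * x 2 := by
  simp [Ee_X, axp]

private lemma Ee_ext {a b : E3} (h0 : a 0 = b 0) (h1 : a 1 = b 1) (h2 : a 2 = b 2) : a = b := by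
  ext i
  fin_cases i
  · exact h0
  · exact h1
  · exact h2

private lemma Ee_sq (ρ z s : ℝ) (x : E3) : Ee_X ρ z (sq s x) = sq s (Ee_X ρ z x) := by
  refine Ee_ext ?_ ?_ ?_
  · rw [Ee_X0]
    simp only [H87.NS.sq, PiLp.toLp_apply, Matrix.cons_val_zero, Ee_X0]
    ring
  · rw [Ee_X1]
    simp only [H87.NS.sq, PiLp.toLp_apply, Matrix.cons_val_one, Matrix.cons_val_zero, Ee_X1]
    ring
  · rw [Ee_X2]
    simp only [H87.NS.sq, PiLp.toLp_apply, Matrix.cons_val, Ee_X2]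

private lemma Ee_rot (ρ z θ : ℝ) (x : E3) : Ee_X ρ z (rot θ x) = rot θ (Ee_X ρ z x) := by
  refine Ee_ext ?_ ?_ ?_
  · rw [Ee_X0]
    simp only [rot, PiLp.toLp_apply, Matrix.cons_val_zero, Ee_X0, Ee_X1]
    ring
  · rw [Ee_X1]
    simp only [rot, PiLp.toLp_apply, Matrix.cons_val_one, Matrix.cons_val_zero, Ee_X0, Ee_X1]
    ring
  · rw [Ee_X2]
    simp only [rot, PiLp.toLp_apply, Matrix.cons_val, Ee_X2]

private lemma Ee_rots (ρ θ : ℝ) (x : E3) : rot θ (ρ • x) = ρ • rot θ x := by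
  refine Ee_ext ?_ ?_ ?_
  · simp only [rot, PiLp.toLp_apply, Matrix.cons_val_zero, PiLp.smul_apply, smul_eq_mul]
    ring
  · simp only [rot, PiLp.toLp_apply, Matrix.cons_val_one, Matrix.cons_val_zero, PiLp.smul_apply,
      smul_eq_mul]
    ring
  · simp only [rot, PiLp.toLp_apply, Matrix.cons_val, PiLp.smul_apply, smul_eq_mul]

private lemma Ee_rad {ρ : ℝ} (hρ : 0 < ρ) (z : ℝ) (x : E3) : rad (Ee_X ρ z x) = ρ * rad x := by
  unfold rad
  rw [Ee_X0, Ee_X1]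
  have h : (ρ * x 0) ^ 2 + (ρ * x 1) ^ 2 = ρ ^ 2 * (x 0 ^ 2 + x 1 ^ 2) := by ring
  rw [h, Real.sqrt_mul (by positivity), Real.sqrt_sq hρ.le]

private lemma Ee_cd (ρ z : ℝ) : ContDiff ℝ ∞ (Ee_X ρ z) := by
  unfold Ee_X
  exact contDiff_const.add (contDiff_id.const_smul ρ)

private lemma Ee_fd (ρ z : ℝ) (x : E3) :
    HasFDerivAt (Ee_X ρ z) (ρ • ContinuousLinearMap.id ℝ E3) x := by
  unfold Ee_X
  exact ((hasFDerivAt_id x).const_smul ρ).const_add (axp z)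

private lemma Ee_pd (ρ z c : ℝ) {f : E3 → ℝ} (hf : ContDiff ℝ ∞ f) (i : Fin 3) :
    pd i (fun x => c * f (Ee_X ρ z x)) = fun x => (c * ρ) * pd i f (Ee_X ρ z x) := by
  funext x
  have h1 : HasFDerivAt f (fderiv ℝ f (Ee_X ρ z x)) (Ee_X ρ z x) :=
    (hf.differentiable (by simp) (Ee_X ρ z x)).hasFDerivAt
  have h2 := (h1.comp x (Ee_fd ρ z x)).const_mul c
  have h3 : fderiv ℝ (fun x => c * f (Ee_X ρ z x)) x =
      c • ((fderiv ℝ f (Ee_X ρ z x)).comp (ρ • ContinuousLinearMap.id ℝ E3)) := h2.fderiv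
  unfold pd
  rw [h3]
  simp only [ContinuousLinearMap.smul_apply, ContinuousLinearMap.comp_apply,
    ContinuousLinearMap.id_apply, map_smul, smul_eq_mul]
  ring

private lemma Ee_int {g : E3 → ℝ} (hg : Integrable g) {ρ : ℝ} (hρ : 0 < ρ) (z : ℝ) :
    Integrable (fun x => g (Ee_X ρ z x)) := by
  have h1 : Integrable (fun x => g (axp z + x)) := hg.comp_add_left (axp z)
  exact h1.comp_smul hρ.ne'

private lemma Ee_chg (g : E3 → ℝ) {ρ : ℝ} (hρ : 0 < ρ) (z : ℝ) :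
    ∫ x, g (Ee_X ρ z x) = (ρ ^ 3)⁻¹ * ∫ x, g x := by
  have h1 := Measure.integral_comp_smul_of_nonneg (volume : Measure E3)
    (fun x => g (axp z + x)) ρ (hR := hρ.le)
  rw [integral_add_left_eq_self g (axp z), finrank_euclideanSpace, Fintype.card_fin,
    smul_eq_mul] at h1
  exact h1

private lemma Ee_BL {K : ℝ} {f : E3 → ℝ} (h : BL K f) {ρ : ℝ} (hρ : 0 < ρ) (z c : ℝ) :
    BL (|c| * K + c ^ 2 * (ρ ^ 3)⁻¹ * K) (fun x => c * f (Ee_X ρ z x)) := by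
  have hK := BL_nonneg h
  have h0 : 0 ≤ |c| * K := by positivity
  have h1 : 0 ≤ c ^ 2 * (ρ ^ 3)⁻¹ * K := by positivity
  have h2 : (fun x => (c * f (Ee_X ρ z x)) ^ 2) = fun x => c ^ 2 * (f (Ee_X ρ z x) ^ 2) := by
    funext x
    ring
  have h3 : Integrable (fun x => f (Ee_X ρ z x) ^ 2) :=
    Ee_int (g := fun x => f x ^ 2) h.2.1 hρ z
  refine ⟨?_, ?_, ?_⟩
  · intro x
    rw [abs_mul]
    have := mul_le_mul_of_nonneg_left (h.1 (Ee_X ρ z x)) (abs_nonneg c)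
    linarith
  · rw [h2]
    exact h3.const_mul _
  · rw [h2, integral_const_mul, Ee_chg (fun x => f x ^ 2) hρ z]
    have h4 : c ^ 2 * ((ρ ^ 3)⁻¹ * ∫ x, f x ^ 2) ≤ c ^ 2 * (ρ ^ 3)⁻¹ * K := by
      rw [← mul_assoc]
      exact mul_le_mul_of_nonneg_left h.2.2 (by positivity)
    linarith

private lemma Ee_DB {ρ : ℝ} (hρ : 0 < ρ) (z K : ℝ) (n : ℕ) : ∀ c : ℝ, ∃ K' : ℝ, 0 ≤ K' ∧
    ∀ f : E3 → ℝ, ContDiff ℝ ∞ f → DB n K f → DB n K' (fun x => c * f (Ee_X ρ z x)) := by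
  induction n with
  | zero =>
    intro c
    refine ⟨max 0 (|c| * K + c ^ 2 * (ρ ^ 3)⁻¹ * K), le_max_left _ _, ?_⟩
    intro f _ h
    exact BL_mono (Ee_BL (show BL K f from h) hρ z c) (le_max_right _ _)
  | succ n ih =>
    intro c
    obtain ⟨K₁, hK₁, h1⟩ := ih (c * ρ)
    refine ⟨max K₁ (|c| * K + c ^ 2 * (ρ ^ 3)⁻¹ * K), hK₁.trans (le_max_left _ _), ?_⟩
    intro f hf h
    refine ⟨BL_mono (Ee_BL h.1 hρ z c) (le_max_right _ _), ?_⟩
    intro i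
    rw [Ee_pd ρ z c hf i]
    exact DB_mono (h1 (pd i f) (pd_smooth hf i) (h.2 i)) le_rfl (le_max_left _ _)

private lemma Ee_comp {v : E3 → E3} (hv : ContDiff ℝ ∞ v) (j : Fin 3) :
    ContDiff ℝ ∞ (fun y => v y j) :=
  (EuclideanSpace.proj j : E3 →L[ℝ] ℝ).contDiff.comp hv

theorem e_sP (ρ z : ℝ) (v : E3 → E3) (x : E3) : sP (fun y => ρ • v (axp z + ρ • y)) x = ρ * sP v (axp z + ρ • x) := by
  unfold sP avk
  rw [← intervalIntegral.integral_const_mul]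
  refine intervalIntegral.integral_congr fun s _ => ?_
  have h := Ee_sq ρ z s x
  unfold Ee_X at h
  simp only [PiLp.smul_apply, smul_eq_mul]
  rw [h]
  ring

theorem e_Sl {κ N ρ : ℝ} {v : E3 → E3} (h : Sl κ N v) (hρ : 0 < ρ) (hρ1 : ρ ≤ 1) (z : ℝ) : Sl κ N (fun y => ρ • v (axp z + ρ • y)) := by
  have hκ : 0 ≤ κ := zero_le_one.trans h.one
  refine ⟨⟨?_, ?_, ?_⟩, ?_, h.one, h.le, ?_, ?_⟩
  · exact (h.ax.smooth.comp (Ee_cd ρ z)).const_smul ρ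
  · intro θ x
    have h1 := Ee_rot ρ z θ x
    unfold Ee_X at h1
    show ρ • v (axp z + ρ • rot θ x) = rot θ (ρ • v (axp z + ρ • x))
    rw [h1, h.ax.ax, Ee_rots]
  · intro x
    have h1 : HasFDerivAt v (fderiv ℝ v (Ee_X ρ z x)) (Ee_X ρ z x) :=
      (h.ax.smooth.differentiable (by simp) (Ee_X ρ z x)).hasFDerivAt
    have h2 := (h1.comp x (Ee_fd ρ z x)).const_smul ρ
    have h3 : fderiv ℝ (fun y => ρ • v (axp z + ρ • y)) x =
        ρ • ((fderiv ℝ v (Ee_X ρ z x)).comp (ρ • ContinuousLinearMap.id ℝ E3)) := h2.fderiv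
    have h4 : ∀ i : Fin 3, fderiv ℝ (fun y => ρ • v (axp z + ρ • y)) x (e i) i =
        ρ ^ 2 * fderiv ℝ v (Ee_X ρ z x) (e i) i := by
      intro i
      rw [h3]
      simp only [ContinuousLinearMap.smul_apply, ContinuousLinearMap.comp_apply,
        ContinuousLinearMap.id_apply, map_smul, PiLp.smul_apply, smul_eq_mul]
      ring
    simp only [h4]
    rw [← Finset.mul_sum, h.ax.div, mul_zero]
  · obtain ⟨K, hK⟩ := h.db
    obtain ⟨K', _, hK'⟩ := Ee_DB hρ z K 4 ρ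
    refine ⟨K', fun j => ?_⟩
    exact hK' (fun x => v x j) (Ee_comp h.ax.smooth j) (hK j)
  · intro x
    have h1 := h.hor (Ee_X ρ z x)
    rw [Ee_rad hρ] at h1
    have h2 : hn (fun y => ρ • v (axp z + ρ • y)) x = ρ * hn v (Ee_X ρ z x) := by
      unfold hn Ee_X
      simp only [PiLp.smul_apply, smul_eq_mul]
      have h3 : (ρ * v (axp z + ρ • x) 0) ^ 2 + (ρ * v (axp z + ρ • x) 1) ^ 2 =
          ρ ^ 2 * (v (axp z + ρ • x) 0 ^ 2 + v (axp z + ρ • x) 1 ^ 2) := by ring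
      rw [h3, Real.sqrt_mul (by positivity), Real.sqrt_sq hρ.le]
    rw [h2]
    have h3 : 0 ≤ rad x := Real.sqrt_nonneg _
    have h4 : ρ * rad x ≤ rad x := mul_le_of_le_one_left h3 hρ1
    have h5 : κ * (1 + ρ * rad x) ≤ κ * (1 + rad x) :=
      mul_le_mul_of_nonneg_left (by linarith) hκ
    calc rad x * (ρ * hn v (Ee_X ρ z x)) = ρ * rad x * hn v (Ee_X ρ z x) := by ring
      _ ≤ κ * (1 + ρ * rad x) := h1
      _ ≤ κ * (1 + rad x) := h5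
  · intro x
    have h1 := h.str (Ee_X ρ z x)
    rw [Ee_rad hρ] at h1
    rw [e_sP, abs_mul, abs_of_pos hρ]
    unfold Ee_X at h1
    calc rad x * (ρ * |sP v (axp z + ρ • x)|) = ρ * rad x * |sP v (axp z + ρ • x)| := by ring
      _ ≤ N := h1

private lemma Ee_ww {N Z R ρ : ℝ} (hρ : 0 < ρ) (z : ℝ) (x : E3) :
    ww N Z R 0 x = ww N Z (ρ * R) z (Ee_X ρ z x) := by
  have hρ2 : ρ ^ 2 ≠ 0 := by positivity
  have h1 : rsq (Ee_X ρ z x) / (ρ * R) ^ 2 = rsq x / R ^ 2 := by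
    have : rsq (Ee_X ρ z x) = ρ ^ 2 * rsq x := by
      unfold rsq
      rw [Ee_X0, Ee_X1]
      ring
    rw [this, mul_pow, mul_div_mul_left _ _ hρ2]
  have h2 : (Ee_X ρ z x 2 - z) ^ 2 / (Z * N * (ρ * R)) ^ 2 = (x 2 - 0) ^ 2 / (Z * N * R) ^ 2 := by
    have h3 : (Ee_X ρ z x 2 - z) ^ 2 = ρ ^ 2 * (x 2 - 0) ^ 2 := by
      rw [Ee_X2]
      ring
    have h4 : (Z * N * (ρ * R)) ^ 2 = ρ ^ 2 * (Z * N * R) ^ 2 := by ring
    rw [h3, h4, mul_div_mul_left _ _ hρ2]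
  unfold ww wt
  rw [h1, h2]

theorem e_SS {N Z R ρ : ℝ} {v : E3 → E3} (hv' : ContDiff ℝ ∞ v) (hρ : 0 < ρ) (z : ℝ) :
    SS (fun y => ρ • v (axp z + ρ • y)) (ww N Z R 0) = ρ⁻¹ * SS v (ww N Z (ρ * R) z) ∧
    DD (fun y => ρ • v (axp z + ρ • y)) (ww N Z R 0) = ρ * DD v (ww N Z (ρ * R) z) := by
  have hρ0 : ρ ≠ 0 := hρ.ne'
  constructor
  · unfold SS
    have h1 : (fun x : E3 => ‖ρ • v (axp z + ρ • x)‖ ^ 2 * ww N Z R 0 x) =
        fun x => ρ ^ 2 * ((fun y => ‖v y‖ ^ 2 * ww N Z (ρ * R) z y) (Ee_X ρ z x)) := by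
      funext x
      rw [norm_smul, mul_pow, Real.norm_eq_abs, sq_abs, Ee_ww hρ z x]
      show ρ ^ 2 * ‖v (axp z + ρ • x)‖ ^ 2 * ww N Z (ρ * R) z (Ee_X ρ z x) =
        ρ ^ 2 * (‖v (Ee_X ρ z x)‖ ^ 2 * ww N Z (ρ * R) z (Ee_X ρ z x))
      unfold Ee_X
      ring
    rw [h1, integral_const_mul, Ee_chg (fun y => ‖v y‖ ^ 2 * ww N Z (ρ * R) z y) hρ z, ← mul_assoc]
    congr 1
    field_simp
  · unfold DD
    have h1 : (fun x : E3 => gv (fun y => ρ • v (axp z + ρ • y)) x * ww N Z R 0 x) =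
        fun x => ρ ^ 4 * ((fun y => gv v y * ww N Z (ρ * R) z y) (Ee_X ρ z x)) := by
      funext x
      have h2 : gv (fun y => ρ • v (axp z + ρ • y)) x = ρ ^ 4 * gv v (Ee_X ρ z x) := by
        unfold gv gsq
        rw [Finset.mul_sum]
        refine Finset.sum_congr rfl fun j _ => ?_
        rw [Finset.mul_sum]
        refine Finset.sum_congr rfl fun i _ => ?_
        have h3 := congrFun (Ee_pd ρ z ρ (Ee_comp hv' j) i) x
        have h4 : pd i (fun y => (ρ • v (axp z + ρ • y)) j) x =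
            (ρ * ρ) * pd i (fun y => v y j) (Ee_X ρ z x) := h3
        rw [h4]
        ring
      show gv (fun y => ρ • v (axp z + ρ • y)) x * ww N Z R 0 x =
        ρ ^ 4 * (gv v (Ee_X ρ z x) * ww N Z (ρ * R) z (Ee_X ρ z x))
      rw [h2, Ee_ww hρ z x]
      ring
    rw [h1, integral_const_mul, Ee_chg (fun y => gv v y * ww N Z (ρ * R) z y) hρ z, ← mul_assoc]
    congr 1
    field_simp

end Pool.Agent.H16.TU
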