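/-
ROW Xc (MP_09540e_TU). Theorem C (the convex functional at the final time). PROOF. Notation: C, C₁ (and C₂(m)) from cQ, the given constant of Cx is `C` in the statement, call it K here. Choose R₁ ≥ 1 with `C κ ≤ R₁ k²`, `32 ≤ R₁ k`, `3k²R₁²/64 ≥ 1`, and `(64/(3 k² R₁²)) · 32 K R₁ ≤ ε₃/4`. a = R₁², window W = [t₀ - a, t₀] ⊂ (0, T) (ta). Φ = ww N Z R₁ 0. For ε = (1/2)^j let `E_j(t)` be the sum of the last four terms of cQ,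
continuous in t on W (tc_u; tc with Ψ = me·Φ, continuous and integrable, me_b), ≥ 0; `H_j(t) = HH k (2^-j) N (v t) Φ`, c = 3k²/64. hR: for s ≤ t₀ in W: `H(t₀) - H(s) = ∫_s^{t₀} RR ≤ -c ∫_s^{t₀} H + ∫_s^{t₀} E`. So (H ≥ 0) `c ∫_W H ≤ H(t₀ - a) + ∫_W E`, some s ∈ W has `H(s) ≤ (H(t₀-a) + ∫_W E)/(c a)` (H continuous), and
`H(t₀) ≤ H(s) + ∫_W E ≤ (H(t₀-a) + ∫ E)/(ca) + ∫ E ≤ H(t₀-a)/(ca) + 2 ∫ E`. `H(t₀-a) ≤ (1/2) ∫ f² Φ ≤ (32/N²) SS ≤ 32 K N R₁` (hk_0, f2S, en), so `H(t₀-a)/(ca) ≤ (ε₃/4) N`. Need `∫_W E_j ≤ (ε₃/4) N` for some j ∈ [j₀, j₀ + n):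
(1) `∑_{j} (Cκ/N²) ∫_W ∫ (hg v₂)² me_j Φ ≤ (90 C κ/N²) ∫_W DD ≤ 90 C κ K N R₁` (me_sum, hg² ≤ gv, di with R = R₁), n terms: for n ≥ (16·90 C κ K R₁)/ε₃ one j has this term ≤ (ε₃/16) N. (2) `(Cκ 2^-j/N²)(K N³ R₁ + R₁² K N³ R₁) ≤ (ε₃/16) N` for j ≥ j₀ (also 2^-j₀ ≤ ε₀, ≤ 1). Let ε_m = 2^-(j₀+n). (4) far: `(C₁κ/(ε_m³N²)) R₁² ∑_{j≥m}(1/4)^j K N³ 2^j R₁
≤ (C₁ κ/ε_m³) 2 (1/2)^m K R₁³ N ≤ (ε₃/32) N` by the choice of m; the last term: choose J (depending on the flow and N) with `(C₁κ/(ε_m³N²)) R₁² (2^J R₁)⁻³ VV E ≤ (ε₃/32) N` (∫‖v t‖² ≤ E = ∫‖v 0‖², en_glob). (3) `(C₂ κ² R₁/(ε_m³ N²)) (K N³ R₁/√N + R₁² N √N 10 Z N R₁³) ≤ C' √N ≤ (ε₃/16) N` for N ≥ N₀ (VV ≤ 10 Z N R₁³: ww_ok). Sum ≤ ε₃/4 N.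
The order of choices: R₁, then n, j₀, ε_m, m, C₂(m), N₀; J last.
-/
import Pool.Agent.H16.TU.Cq
import Pool.Agent.H16.TU.Cg

set_option autoImplicit false

open Set Filter Topology MeasureTheory
open scoped ContDiff

namespace Pool.Agent.H16.TU

open Pool.Agent.H16 Pool.Agent.H87.NS Pool.Agent.H72.CC

theorem Xc_ode {H E Rr : ℝ → ℝ} {t₁ t₀ c : ℝ} (h01 : t₁ < t₀) (hc : 0 < c) (hca : 1 ≤ c * (t₀ - t₁))
    (hH : ContinuousOn H (Icc t₁ t₀)) (hH0 : ∀ t ∈ Icc t₁ t₀, 0 ≤ H t) (hE : ContinuousOn E (Icc t₁ t₀))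
    (hE0 : ∀ t ∈ Icc t₁ t₀, 0 ≤ E t)
    (hR : ∀ s ∈ Icc t₁ t₀, IntervalIntegrable Rr volume s t₀ ∧ H t₀ - H s = ∫ t in s..t₀, Rr t)
    (hle : ∀ t ∈ Icc t₁ t₀, Rr t ≤ - c * H t + E t) :
    H t₀ ≤ H t₁ / (c * (t₀ - t₁)) + 2 * ∫ t in t₁..t₀, E t := by
  have hle01 := h01.le
  have hHi : IntervalIntegrable H volume t₁ t₀ := hH.intervalIntegrable_of_Icc hle01
  have hEi : IntervalIntegrable E volume t₁ t₀ := hE.intervalIntegrable_of_Icc hle01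
  obtain ⟨s, hs, hmin⟩ := isCompact_Icc.exists_isMinOn ⟨t₁, left_mem_Icc.2 hle01⟩ hH
  have hI : (t₀ - t₁) * H s ≤ ∫ t in t₁..t₀, H t := by
    have h1 : ∫ _ in t₁..t₀, H s = (t₀ - t₁) * H s := by
      rw [intervalIntegral.integral_const, smul_eq_mul]
    rw [← h1]
    exact intervalIntegral.integral_mono_on hle01 intervalIntegrable_const hHi (fun t ht => hmin ht)
  have hsub : ∀ r ∈ Icc t₁ t₀, Icc r t₀ ⊆ Icc t₁ t₀ := fun r hr => Icc_subset_Icc hr.1 le_rfl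
  have hgen : ∀ r ∈ Icc t₁ t₀, H t₀ - H r + c * ∫ t in r..t₀, H t ≤ ∫ t in r..t₀, E t := by
    intro r hr
    have h1 : IntervalIntegrable H volume r t₀ := (hH.mono (hsub r hr)).intervalIntegrable_of_Icc hr.2
    have h2 : IntervalIntegrable E volume r t₀ := (hE.mono (hsub r hr)).intervalIntegrable_of_Icc hr.2
    obtain ⟨h3, h4⟩ := hR r hr
    rw [h4]
    have h5 : ∫ t in r..t₀, Rr t ≤ ∫ t in r..t₀, (- c * H t + E t) :=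
      intervalIntegral.integral_mono_on hr.2 h3 ((h1.const_mul _).add h2) (fun t ht => hle t (hsub r hr ht))
    rw [intervalIntegral.integral_add (h1.const_mul _) h2, intervalIntegral.integral_const_mul] at h5
    linarith
  have g1 := hgen t₁ (left_mem_Icc.2 hle01)
  have g2 := hgen s hs
  have hH1 : 0 ≤ ∫ t in s..t₀, H t := intervalIntegral.integral_nonneg hs.2 fun t ht => hH0 t (hsub s hs ht)
  have hE1 : ∫ t in s..t₀, E t ≤ ∫ t in t₁..t₀, E t := by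
    have h2 : IntervalIntegrable E volume s t₀ := (hE.mono (hsub s hs)).intervalIntegrable_of_Icc hs.2
    have h3 : IntervalIntegrable E volume t₁ s :=
      (hE.mono (Icc_subset_Icc le_rfl hs.2)).intervalIntegrable_of_Icc hs.1
    rw [← intervalIntegral.integral_add_adjacent_intervals h3 h2]
    have h4 : 0 ≤ ∫ t in t₁..s, E t := intervalIntegral.integral_nonneg hs.1 fun t ht =>
      hE0 t ⟨ht.1, ht.2.trans hs.2⟩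
    linarith
  have hE2 : 0 ≤ ∫ t in t₁..t₀, E t := intervalIntegral.integral_nonneg hle01 fun t ht => hE0 t ht
  have hHt0 := hH0 t₀ (right_mem_Icc.2 hle01)
  have hHt1 := hH0 t₁ (left_mem_Icc.2 hle01)
  have hcH := mul_nonneg hc.le hH1
  have g3 : c * ((t₀ - t₁) * H s) ≤ c * ∫ t in t₁..t₀, H t := mul_le_mul_of_nonneg_left hI hc.le
  have g4 : H s * (c * (t₀ - t₁)) ≤ H t₁ + ∫ t in t₁..t₀, E t := by linarith
  have hpos : 0 < c * (t₀ - t₁) := by linarith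
  have g5 : H s ≤ (H t₁ + ∫ t in t₁..t₀, E t) / (c * (t₀ - t₁)) := (le_div_iff₀ hpos).2 g4
  have g6 : (∫ t in t₁..t₀, E t) / (c * (t₀ - t₁)) ≤ ∫ t in t₁..t₀, E t := div_le_self hE2 hca
  rw [add_div] at g5
  linarith

theorem Xc_hg (f : E3 → ℝ) (x : E3) : hg f x ^ 2 = pd 0 f x ^ 2 + pd 1 f x ^ 2 := by
  unfold hg
  exact Real.sq_sqrt (by positivity)

theorem Xc_JC {T : ℝ} {u : ℝ → E3 → E3} {p : ℝ → E3 → ℝ} (h : IsHInfAxisymNS T u p) :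
    JC T (fun t x => (hg (fun y => u t y 2) x) ^ 2) := by
  have h1 : ∀ i j : Fin 3, JC T (fun t => pd i (fun y => u t y j)) := fun i j => JS_JC (JS_pd (js_u h.ns j) i)
  have h2 : JC T (fun t x => pd 0 (fun y => u t y 2) x ^ 2 + pd 1 (fun y => u t y 2) x ^ 2) := by
    unfold JC
    exact (ContinuousOn.pow (h1 0 2) 2).add (ContinuousOn.pow (h1 1 2) 2)
  simpa only [Xc_hg] using h2

theorem Xc_sl {T : ℝ} {Φ : ℝ → E3 → ℝ} (hΦ : JC T Φ) {t : ℝ} (ht : t ∈ Ico 0 T) : Continuous (Φ t) := by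
  have h1 : ContinuousOn (fun x : E3 => (t, x)) univ := (by fun_prop : Continuous fun x : E3 => (t, x)).continuousOn
  have h2 := ContinuousOn.comp (g := fun q : ℝ × E3 => Φ q.1 q.2) hΦ h1 (fun x _ => ⟨ht, mem_univ _⟩)
  exact continuousOn_univ.1 h2

theorem Xc_hgv (v : E3 → E3) (x : E3) : 0 ≤ (hg (fun y => v y 2) x) ^ 2 ∧ (hg (fun y => v y 2) x) ^ 2 ≤ gv v x := by
  obtain ⟨h1, -, -, h2, -⟩ := ba_gv (v := v) x 0 2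
  refine ⟨sq_nonneg _, ?_⟩
  have h3 : 0 ≤ hg (fun y => v y 2) x := Real.sqrt_nonneg _
  calc (hg (fun y => v y 2) x) ^ 2 ≤ √(gv v x) ^ 2 := pow_le_pow_left₀ h3 h2 2
    _ = gv v x := Real.sq_sqrt h1

/-- the oscillation term -/
noncomputable def Xc_I (ε N Z R : ℝ) (v : E3 → E3) : ℝ :=
  ∫ x, (hg (fun y => v y 2) x) ^ 2 * (me ε (rad x) * ww N Z R 0 x)

theorem Xc_mec {ε : ℝ} (hε : 0 < ε) : Continuous (fun x : E3 => me ε (rad x)) := by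
  have hr : Continuous rad := continuous_rad
  unfold me
  refine ((hr.const_mul _ |>.congr fun x => rfl).div (continuous_const.add (hr.pow 2)) fun x => ?_).add continuous_const
  have h1 := sq_nonneg (rad x)
  have h2 : 0 < ε ^ 2 + rad x ^ 2 := by positivity
  exact h2.ne'

theorem Xc_mew {ε N Z R : ℝ} (hε : 0 < ε) (hN : 1 ≤ N) (hZ : 1 ≤ Z) (hR : 0 < R) :
    Continuous (fun x : E3 => me ε (rad x) * ww N Z R 0 x) ∧ Integrable (fun x : E3 => me ε (rad x) * ww N Z R 0 x) := by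
  have hw := (ww_ok hN hZ hR 0).1
  refine ⟨(Xc_mec hε).mul hw.sm.continuous, wi (K := 10 + ε) hw (Xc_mec hε) fun x => ?_⟩
  obtain ⟨h1, h2⟩ := me_b hε (rad_nonneg x)
  rw [abs_of_nonneg h1]
  exact h2

theorem Xc_Ic {T ε N Z R : ℝ} {u : ℝ → E3 → E3} {p : ℝ → E3 → ℝ} (h : IsHInfAxisymNS T u p) (hε : 0 < ε)
    (hN : 1 ≤ N) (hZ : 1 ≤ Z) (hR : 0 < R) : ContinuousOn (fun t => Xc_I ε N Z R (u t)) (Ico 0 T) := by
  obtain ⟨h1, h2⟩ := Xc_mew hε hN hZ hR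
  refine tc (Xc_JC h) (fun T' hT' => ?_) h1 h2
  obtain ⟨K, hK0, hK⟩ := gv_u h hT'
  refine ⟨K, fun t ht x => ?_⟩
  rw [abs_of_nonneg (Xc_hgv (u t) x).1]
  exact (Xc_hgv (u t) x).2.trans (hK t ht x).2.1

theorem Xc_I0 {ε N Z R : ℝ} (hε : 0 < ε) (hN : 1 ≤ N) (hZ : 1 ≤ Z) (hR : 0 < R) (v : E3 → E3) :
    0 ≤ Xc_I ε N Z R v :=
  integral_nonneg fun x => mul_nonneg (Xc_hgv v x).1 (mul_nonneg (me_b hε (rad_nonneg x)).1 ((ww_ok hN hZ hR 0).1.nn x))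

theorem Xc_Is {T N Z R : ℝ} {u : ℝ → E3 → E3} {p : ℝ → E3 → ℝ} (h : IsHInfAxisymNS T u p)
    (hN : 1 ≤ N) (hZ : 1 ≤ Z) (hR : 0 < R) {t : ℝ} (ht : t ∈ Ico 0 T) (j₀ J : ℕ) :
    ∑ j ∈ Finset.Icc j₀ J, Xc_I ((1/2) ^ j) N Z R (u t) ≤ 90 * DD (u t) (ww N Z R 0) := by
  have hw := (ww_ok hN hZ hR 0).1
  obtain ⟨K, hK0, hK⟩ := gv_u h (T' := t) ht.2
  have hKt := hK t ⟨ht.1, le_rfl⟩
  have hgc : Continuous (fun x => (hg (fun y => u t y 2) x) ^ 2) := Xc_sl (Xc_JC h) ht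
  have hgvc : Continuous (gv (u t)) := Xc_sl (Ta_gvJC h) ht
  have hp : ∀ j : ℕ, (0:ℝ) < (1/2) ^ j := fun j => by positivity
  have hi : ∀ j ∈ Finset.Icc j₀ J, Integrable (fun x => (hg (fun y => u t y 2) x) ^ 2 *
      (me ((1/2) ^ j) (rad x) * ww N Z R 0 x)) := by
    intro j _
    have h1 : Integrable (fun x => ((hg (fun y => u t y 2) x) ^ 2 * me ((1/2) ^ j) (rad x)) * ww N Z R 0 x) := by
      refine wi (K := K * (10 + (1/2) ^ j)) hw (hgc.mul (Xc_mec (hp j))) fun x => ?_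
      have h2 := Xc_hgv (u t) x
      have h3 := me_b (hp j) (rad_nonneg x)
      rw [abs_of_nonneg (mul_nonneg h2.1 h3.1)]
      exact mul_le_mul (h2.2.trans (hKt x).2.1) h3.2 h3.1 hK0
    refine h1.congr (Filter.Eventually.of_forall fun x => ?_)
    beta_reduce
    ring
  have hgi : Integrable (fun x => 90 * (gv (u t) x * ww N Z R 0 x)) := by
    refine (wi (K := K) hw hgvc fun x => ?_).const_mul _
    rw [abs_of_nonneg (ba_gv (v := u t) x 0 0).1]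
    exact (hKt x).2.1
  unfold Xc_I DD
  rw [← integral_finsetSum _ hi, ← integral_const_mul]
  refine integral_mono_of_nonneg (Filter.Eventually.of_forall fun x => ?_) hgi (Filter.Eventually.of_forall fun x => ?_)
  · exact Finset.sum_nonneg fun j _ => mul_nonneg (Xc_hgv (u t) x).1
      (mul_nonneg (me_b (hp j) (rad_nonneg x)).1 (hw.nn x))
  · beta_reduce
    rw [← Finset.mul_sum, ← Finset.sum_mul]
    have h1 := me_sum (rad_nonneg x) j₀ J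
    have h2 := Xc_hgv (u t) x
    have h3 := hw.nn x
    have h4 : 0 ≤ ∑ j ∈ Finset.Icc j₀ J, me ((1/2) ^ j) (rad x) :=
      Finset.sum_nonneg fun j _ => (me_b (hp j) (rad_nonneg x)).1
    calc (hg (fun y => u t y 2) x) ^ 2 * ((∑ j ∈ Finset.Icc j₀ J, me ((1/2) ^ j) (rad x)) * ww N Z R 0 x) ≤
          gv (u t) x * (90 * ww N Z R 0 x) :=
          mul_le_mul h2.2 (mul_le_mul_of_nonneg_right h1 h3) (mul_nonneg h4 h3) (h2.1.trans h2.2)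
      _ = 90 * (gv (u t) x * ww N Z R 0 x) := by ring

theorem Xc_geo (m J : ℕ) (h : m ≤ J) : ∑ j ∈ Finset.Icc m J, (1/2 : ℝ) ^ j ≤ 2 * (1/2) ^ m := by
  have h1 : ∑ j ∈ Finset.Icc m J, (1/2 : ℝ) ^ j = 2 * (1/2) ^ m - (1/2) ^ J := by
    induction J, h using Nat.le_induction with
    | base =>
      rw [Finset.Icc_self, Finset.sum_singleton]
      ring
    | succ n hn ih =>
      rw [Finset.sum_Icc_succ_top (by omega), ih, pow_succ]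
      ring
  rw [h1]
  have : (0:ℝ) ≤ (1/2) ^ J := by positivity
  linarith

theorem Xc_main {κ K Z N k R₁ T t₀ Cq C₁ C₂ ε : ℝ} {v : ℝ → E3 → E3} {p : ℝ → E3 → ℝ} {m J : ℕ}
    (hκ : 1 ≤ κ) (hK : 1 ≤ K) (hZ : 1 ≤ Z) (hk0 : 0 < k) (hCq : 1 ≤ Cq) (hC₁ : 1 ≤ C₁)
    (hC₂ : 1 ≤ C₂) (hR : 1 ≤ R₁) (hc : 1 ≤ 3 * k ^ 2 / 64 * R₁ ^ 2) (hε : 0 < ε) (hε1 : ε ≤ 1) (hmJ : m ≤ J)
    (X : Cx κ K Z N (R₁ ^ 2) T v p t₀)
    (hQ : ∀ t ∈ Icc (t₀ - R₁ ^ 2) t₀, RR k ε N (v t) (p t) (ww N Z R₁ 0) ≤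
      - (3 * k ^ 2 / 64) * HH k ε N (v t) (ww N Z R₁ 0) +
      Cq * κ / N ^ 2 * (∫ x, (hg (fun y => v t y 2) x) ^ 2 * (me ε (rad x) * ww N Z R₁ 0 x)) +
      Cq * κ * ε / N ^ 2 * (DD (v t) (ww N Z R₁ 0) + SS (v t) (ww N Z R₁ 0)) +
      C₂ * κ ^ 2 * R₁ / (ε ^ 3 * N ^ 2) * (DD (v t) (ww N Z R₁ 0) / √N + N * √N * VV (ww N Z R₁ 0)) +
      C₁ * κ / (ε ^ 3 * N ^ 2) * ((∑ j ∈ Finset.Icc m J, (1/4) ^ j * SS (v t) (ww N Z (2 ^ j * R₁) 0)) +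
        ((2 ^ J * R₁) ^ 3)⁻¹ * VV (ww N Z R₁ 0) * ∫ x, ‖v t x‖ ^ 2)) :
    HH k ε N (v t₀) (ww N Z R₁ 0) ≤ 32 * K * N * R₁ / (3 * k ^ 2 / 64 * R₁ ^ 2) +
      2 * (Cq * κ / N ^ 2 * (∫ t in (t₀ - R₁ ^ 2)..t₀, Xc_I ε N Z R₁ (v t)) +
        (Cq * κ * ε / N ^ 2 + C₂ * κ ^ 2 * R₁ / (ε ^ 3 * N ^ 2) / √N) * (K * N ^ 3 * R₁) +
        R₁ ^ 2 * (Cq * κ * ε / N ^ 2 * (K * N ^ 3 * R₁) +
          C₂ * κ ^ 2 * R₁ / (ε ^ 3 * N ^ 2) * (N * √N * (10 * Z * N * R₁ ^ 3)) +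
          C₁ * κ / (ε ^ 3 * N ^ 2) * (2 * (1/2) ^ m * (K * N ^ 3 * R₁) +
            ((2 ^ J * R₁) ^ 3)⁻¹ * (10 * Z * N * R₁ ^ 3) * ∫ x, ‖v 0 x‖ ^ 2))) := by
  have hR0 : 0 < R₁ := by linarith
  have hRR : 0 < R₁ ^ 2 := by positivity
  have ht01 : t₀ - R₁ ^ 2 < t₀ := by linarith
  have ht0 := X.t0
  have hta := X.ta
  have hN : 1 ≤ N := hκ.trans (X.sl t₀ ⟨ht01.le, le_rfl⟩).le
  have hN0 : 0 < N := by linarith
  have hsN : 0 < √N := Real.sqrt_pos.2 hN0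
  obtain ⟨hw, hV0, hV⟩ := ww_ok hN hZ hR0 0
  have hIoo : ∀ t ∈ Icc (t₀ - R₁ ^ 2) t₀, t ∈ Ioo 0 T := fun t ht =>
    ⟨by linarith [ht.1], lt_of_le_of_lt ht.2 ht0.2⟩
  have hIco : ∀ t ∈ Icc (t₀ - R₁ ^ 2) t₀, t ∈ Ico 0 T := fun t ht => ⟨(hIoo t ht).1.le, (hIoo t ht).2⟩
  have hsub : Icc (t₀ - R₁ ^ 2) t₀ ⊆ Ico 0 T := hIco
  obtain ⟨cS, cD, -⟩ := tc_u X.ns hw
  have cI := Xc_Ic X.ns hε hN hZ hR0
  obtain ⟨A1, hA1⟩ : ∃ A, A = Cq * κ / N ^ 2 := ⟨_, rfl⟩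
  obtain ⟨A2, hA2⟩ : ∃ A, A = Cq * κ * ε / N ^ 2 := ⟨_, rfl⟩
  obtain ⟨A3, hA3⟩ : ∃ A, A = C₂ * κ ^ 2 * R₁ / (ε ^ 3 * N ^ 2) := ⟨_, rfl⟩
  obtain ⟨A4, hA4⟩ : ∃ A, A = C₁ * κ / (ε ^ 3 * N ^ 2) := ⟨_, rfl⟩
  rw [← hA1, ← hA2, ← hA3, ← hA4] at hQ ⊢
  have p1 : 0 ≤ A1 := by rw [hA1]; positivity
  have p2 : 0 ≤ A2 := by rw [hA2]; positivity
  have p3 : 0 ≤ A3 := by rw [hA3]; positivity
  have p4 : 0 ≤ A4 := by rw [hA4]; positivity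
  obtain ⟨G, hG⟩ : ∃ G, G = ((2 ^ J * R₁) ^ 3)⁻¹ * (10 * Z * N * R₁ ^ 3) * ∫ x, ‖v 0 x‖ ^ 2 := ⟨_, rfl⟩
  rw [← hG]
  have hE00 : 0 ≤ ∫ x, ‖v 0 x‖ ^ 2 := integral_nonneg fun x => by positivity
  have pG : 0 ≤ G := by rw [hG]; positivity
  obtain ⟨B0, hB0⟩ : ∃ B, B = A2 * (K * N ^ 3 * R₁) + A3 * (N * √N * (10 * Z * N * R₁ ^ 3)) +
    A4 * (2 * (1/2) ^ m * (K * N ^ 3 * R₁) + G) := ⟨_, rfl⟩
  rw [← hB0]
  have pB : 0 ≤ B0 := by rw [hB0]; positivity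
  have hDD0 : ∀ t, 0 ≤ DD (v t) (ww N Z R₁ 0) := fun t => integral_nonneg fun x =>
    mul_nonneg (ba_gv (v := v t) x 0 0).1 (hw.nn x)
  have hode := Xc_ode (H := fun t => HH k ε N (v t) (ww N Z R₁ 0))
    (E := fun t => A1 * Xc_I ε N Z R₁ (v t) + (A2 + A3 / √N) * DD (v t) (ww N Z R₁ 0) + B0)
    (Rr := fun t => RR k ε N (v t) (p t) (ww N Z R₁ 0)) (c := 3 * k ^ 2 / 64) ht01 (by positivity)
    (by rw [sub_sub_cancel]; exact hc) ((HH_cont X.ns hw hk0 hN0).mono hsub)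
    (fun t _ => integral_nonneg fun x => mul_nonneg (hk_0 hk0 _).1 (hw.nn x))
    ((((cI.mono hsub).const_mul _).add ((cD.mono hsub).const_mul _)).add continuousOn_const)
    (fun t _ => by
      have h1 := Xc_I0 hε hN hZ hR0 (v t)
      have h2 := hDD0 t
      beta_reduce
      positivity)
    (fun s hs => Pool.Agent.H16.TU.hR X.ns hw (hIco s hs).1 hs.2 ht0.2 hk0 hε hN0)
    (fun t ht => by
      beta_reduce
      refine (hQ t ht).trans ?_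
      have e1 : SS (v t) (ww N Z R₁ 0) ≤ K * N ^ 3 * R₁ := X.en t ht R₁ hR0
      have e2 : ∑ j ∈ Finset.Icc m J, (1/4) ^ j * SS (v t) (ww N Z (2 ^ j * R₁) 0) ≤
          2 * (1/2) ^ m * (K * N ^ 3 * R₁) := by
        have h1 : ∑ j ∈ Finset.Icc m J, (1/4) ^ j * SS (v t) (ww N Z (2 ^ j * R₁) 0) ≤
            ∑ j ∈ Finset.Icc m J, (1/2) ^ j * (K * N ^ 3 * R₁) := by
          refine Finset.sum_le_sum fun j _ => ?_
          have h2 := X.en t ht (2 ^ j * R₁) (by positivity)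
          have h3 : (0:ℝ) ≤ (1/4) ^ j := by positivity
          refine (mul_le_mul_of_nonneg_left h2 h3).trans (le_of_eq ?_)
          have h4 : (1/4 : ℝ) ^ j * 2 ^ j = (1/2) ^ j := by
            rw [← mul_pow]
            norm_num
          calc (1/4 : ℝ) ^ j * (K * N ^ 3 * (2 ^ j * R₁)) = ((1/4 : ℝ) ^ j * 2 ^ j) * (K * N ^ 3 * R₁) := by ring
            _ = (1/2) ^ j * (K * N ^ 3 * R₁) := by rw [h4]
        rw [← Finset.sum_mul] at h1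
        exact h1.trans (mul_le_mul_of_nonneg_right (Xc_geo m J hmJ) (by positivity))
      have e3 : ((2 ^ J * R₁) ^ 3)⁻¹ * VV (ww N Z R₁ 0) * ∫ x, ‖v t x‖ ^ 2 ≤ G := by
        rw [hG]
        have h1 := (en_glob X.ns (hIco t ht)).1
        have h2 : 0 ≤ ((2 ^ J * R₁) ^ 3)⁻¹ := by positivity
        have h3 : 0 ≤ ∫ x, ‖v t x‖ ^ 2 := integral_nonneg fun x => by positivity
        exact mul_le_mul (mul_le_mul_of_nonneg_left hV h2) h1 h3 (by positivity)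
      have e4 : A2 * (DD (v t) (ww N Z R₁ 0) + SS (v t) (ww N Z R₁ 0)) ≤
          A2 * DD (v t) (ww N Z R₁ 0) + A2 * (K * N ^ 3 * R₁) := by
        rw [mul_add]
        have := mul_le_mul_of_nonneg_left e1 p2
        linarith
      have e5 : A3 * (DD (v t) (ww N Z R₁ 0) / √N + N * √N * VV (ww N Z R₁ 0)) ≤
          A3 / √N * DD (v t) (ww N Z R₁ 0) + A3 * (N * √N * (10 * Z * N * R₁ ^ 3)) := by
        have h1 : N * √N * VV (ww N Z R₁ 0) ≤ N * √N * (10 * Z * N * R₁ ^ 3) :=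
          mul_le_mul_of_nonneg_left hV (by positivity)
        have h2 := mul_le_mul_of_nonneg_left h1 p3
        have h3 : A3 * (DD (v t) (ww N Z R₁ 0) / √N) = A3 / √N * DD (v t) (ww N Z R₁ 0) := by ring
        rw [mul_add, h3]
        linarith
      have e6 : A4 * ((∑ j ∈ Finset.Icc m J, (1/4) ^ j * SS (v t) (ww N Z (2 ^ j * R₁) 0)) +
          ((2 ^ J * R₁) ^ 3)⁻¹ * VV (ww N Z R₁ 0) * ∫ x, ‖v t x‖ ^ 2) ≤
          A4 * (2 * (1/2) ^ m * (K * N ^ 3 * R₁) + G) :=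
        mul_le_mul_of_nonneg_left (add_le_add e2 e3) p4
      rw [hB0]
      change _ ≤ - (3 * k ^ 2 / 64) * HH k ε N (v t) (ww N Z R₁ 0) +
        (A1 * (∫ x, (hg (fun y => v t y 2) x) ^ 2 * (me ε (rad x) * ww N Z R₁ 0 x)) +
          (A2 + A3 / √N) * DD (v t) (ww N Z R₁ 0) + _)
      rw [add_mul]
      linarith)
  beta_reduce at hode
  rw [sub_sub_cancel] at hode
  have hii : IntervalIntegrable (fun t => A1 * Xc_I ε N Z R₁ (v t)) volume (t₀ - R₁ ^ 2) t₀ :=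
    ((cI.mono hsub).const_mul _).intervalIntegrable_of_Icc ht01.le
  have hdi : IntervalIntegrable (fun t => (A2 + A3 / √N) * DD (v t) (ww N Z R₁ 0)) volume (t₀ - R₁ ^ 2) t₀ :=
    ((cD.mono hsub).const_mul _).intervalIntegrable_of_Icc ht01.le
  rw [intervalIntegral.integral_add (hii.add hdi) intervalIntegrable_const,
    intervalIntegral.integral_add hii hdi, intervalIntegral.integral_const_mul,
    intervalIntegral.integral_const_mul, intervalIntegral.integral_const, smul_eq_mul, sub_sub_cancel] at hode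
  have hDi : ∫ t in (t₀ - R₁ ^ 2)..t₀, DD (v t) (ww N Z R₁ 0) ≤ K * N ^ 3 * R₁ := X.di R₁ hR0 le_rfl
  have hDi2 : (A2 + A3 / √N) * (∫ t in (t₀ - R₁ ^ 2)..t₀, DD (v t) (ww N Z R₁ 0)) ≤
      (A2 + A3 / √N) * (K * N ^ 3 * R₁) := mul_le_mul_of_nonneg_left hDi (by positivity)
  have ht1 : t₀ - R₁ ^ 2 ∈ Icc (t₀ - R₁ ^ 2) t₀ := ⟨le_rfl, ht01.le⟩
  have hH1 : HH k ε N (v (t₀ - R₁ ^ 2)) (ww N Z R₁ 0) ≤ 32 * K * N * R₁ := by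
    have hSl := X.sl _ ht1
    obtain ⟨f1, Kf, f2⟩ := ft_bd (ε := ε) hSl
    have h1 := f2S hSl hZ hR hε hε1
    have h2 := X.en _ ht1 R₁ hR0
    have h3 : HH k ε N (v (t₀ - R₁ ^ 2)) (ww N Z R₁ 0) ≤
        ∫ x, 1 / 2 * (ft ε N (v (t₀ - R₁ ^ 2)) x ^ 2 * ww N Z R₁ 0 x) := by
      unfold HH
      refine integral_mono_of_nonneg (Filter.Eventually.of_forall fun x =>
        mul_nonneg (hk_0 hk0 _).1 (hw.nn x)) ?_ (Filter.Eventually.of_forall fun x => ?_)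
      · refine (wi (K := Kf ^ 2) (f := fun x => ft ε N (v (t₀ - R₁ ^ 2)) x ^ 2) hw (f1.continuous.pow 2) fun x => ?_).const_mul _
        rw [abs_of_nonneg (sq_nonneg _), ← sq_abs]
        exact pow_le_pow_left₀ (abs_nonneg _) (f2 x).1 2
      · beta_reduce
        have h4 := mul_le_mul_of_nonneg_right (hk_0 hk0 (ft ε N (v (t₀ - R₁ ^ 2)) x)).2.1 (hw.nn x)
        linarith
    rw [integral_const_mul] at h3
    have h5 : 64 / N ^ 2 * SS (v (t₀ - R₁ ^ 2)) (ww N Z R₁ 0) ≤ 64 / N ^ 2 * (K * N ^ 3 * R₁) :=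
      mul_le_mul_of_nonneg_left h2 (by positivity)
    have h6 : 64 / N ^ 2 * (K * N ^ 3 * R₁) = 64 * K * N * R₁ := by
      field_simp
    linarith
  have hcpos : 0 < 3 * k ^ 2 / 64 * R₁ ^ 2 := by positivity
  have hH2 : HH k ε N (v (t₀ - R₁ ^ 2)) (ww N Z R₁ 0) / (3 * k ^ 2 / 64 * R₁ ^ 2) ≤
      32 * K * N * R₁ / (3 * k ^ 2 / 64 * R₁ ^ 2) := div_le_div_of_nonneg_right hH1 hcpos.le
  linarith

theorem thmC {κ C Z k ε₃ ε₀ : ℝ} (hκ : 1 ≤ κ) (hC : 1 ≤ C) (hZ : 1 ≤ Z) (hk0 : 0 < k) (hk1 : k ≤ 1) (h3 : 0 < ε₃) (h0 : 0 < ε₀) :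
    ∃ R₁ N₀ : ℝ, 1 ≤ R₁ ∧ ∀ (N T : ℝ) (v : ℝ → E3 → E3) (p : ℝ → E3 → ℝ) (t₀ : ℝ), N₀ ≤ N → Cx κ C Z N (R₁ ^ 2) T v p t₀ →
      ∃ ε : ℝ, 0 < ε ∧ ε ≤ ε₀ ∧ ∫ x, hk k (hm ε (fun y => v t₀ y 2) x / N) * ww N Z R₁ 0 x ≤ ε₃ * N := by
  obtain ⟨Cq, C₁, hCq, hC₁, hcQ⟩ := cQ
  have hκ0 : 0 < κ := by linarith
  have hC0 : 0 < C := by linarith
  have hCq0 : 0 < Cq := by linarith
  have hC₁0 : 0 < C₁ := by linarith
  have hZ0 : 0 < Z := by linarith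
  -- the radius
  obtain ⟨R₁, hR₁⟩ : ∃ R, R = 1 + Cq * κ / k ^ 2 + 32 / k + 64 / (3 * k ^ 2) + 8192 * C / (3 * k ^ 2 * ε₃) := ⟨_, rfl⟩
  have q1 : 0 ≤ Cq * κ / k ^ 2 := by positivity
  have q2 : 0 ≤ 32 / k := by positivity
  have q3 : 0 ≤ 64 / (3 * k ^ 2) := by positivity
  have q4 : 0 ≤ 8192 * C / (3 * k ^ 2 * ε₃) := by positivity
  have hR : 1 ≤ R₁ := by linarith
  have hR0 : 0 < R₁ := by linarith
  have ra : Cq * κ ≤ R₁ * k ^ 2 := by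
    have h1 : Cq * κ / k ^ 2 ≤ R₁ := by linarith
    rwa [div_le_iff₀ (by positivity)] at h1
  have rb : 32 ≤ R₁ * k := by
    have h1 : 32 / k ≤ R₁ := by linarith
    rwa [div_le_iff₀ hk0] at h1
  have rc : 1 ≤ 3 * k ^ 2 / 64 * R₁ ^ 2 := by
    have h1 : 64 / (3 * k ^ 2) ≤ R₁ := by linarith
    rw [div_le_iff₀ (by positivity)] at h1
    have h2 : R₁ * (3 * k ^ 2) ≤ R₁ ^ 2 * (3 * k ^ 2) := by
      refine mul_le_mul_of_nonneg_right ?_ (by positivity)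
      nlinarith
    linarith
  have rd : 32 * C * R₁ ≤ ε₃ / 4 * (3 * k ^ 2 / 64 * R₁ ^ 2) := by
    have h1 : 8192 * C / (3 * k ^ 2 * ε₃) ≤ R₁ := by linarith
    rw [div_le_iff₀ (by positivity)] at h1
    have h2 := mul_le_mul_of_nonneg_right h1 hR0.le
    nlinarith
  -- the number of scales
  obtain ⟨n, hn⟩ : ∃ n : ℕ, 90 * (Cq * κ * C * R₁) ≤ ((n : ℝ) + 1) * (ε₃ / 16) := by
    refine ⟨⌈1440 * (Cq * κ * C * R₁) / ε₃⌉₊, ?_⟩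
    have h1 := Nat.le_ceil (1440 * (Cq * κ * C * R₁) / ε₃)
    rw [div_le_iff₀ h3] at h1
    nlinarith
  -- the first scale
  obtain ⟨j₀, hj₀⟩ : ∃ j₀ : ℕ, (1/2 : ℝ) ^ j₀ < min ε₀ (ε₃ / (16 * (Cq * κ * C * R₁ * (1 + R₁ ^ 2)))) :=
    exists_pow_lt_of_lt_one (lt_min h0 (by positivity)) (by norm_num)
  obtain ⟨εm, hεm⟩ : ∃ e, e = (1/2 : ℝ) ^ (j₀ + n) := ⟨_, rfl⟩
  have hεm0 : 0 < εm := by rw [hεm]; positivity
  obtain ⟨m, hmm⟩ : ∃ m : ℕ, (1/2 : ℝ) ^ m < ε₃ * εm ^ 3 / (64 * (C₁ * κ * C * R₁ ^ 3)) :=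
    exists_pow_lt_of_lt_one (by positivity) (by norm_num)
  obtain ⟨C₂, hC₂, hQ⟩ := hcQ m
  have hC₂0 : 0 < C₂ := by linarith
  obtain ⟨C', hC'⟩ : ∃ C', C' = C₂ * κ ^ 2 * R₁ * (C * R₁ + 10 * Z * R₁ ^ 5) / εm ^ 3 := ⟨_, rfl⟩
  have hC'0 : 0 < C' := by rw [hC']; positivity
  refine ⟨R₁, (16 * C' / ε₃) ^ 2, hR, ?_⟩
  intro N T v p t₀ hN₀ X
  have hRR : 0 < R₁ ^ 2 := by positivity
  have ht01 : t₀ - R₁ ^ 2 < t₀ := by linarith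
  have hN : 1 ≤ N := hκ.trans (X.sl t₀ ⟨ht01.le, le_rfl⟩).le
  have hN0 : 0 < N := by linarith
  obtain ⟨r, hr⟩ : ∃ r, r = √N := ⟨_, rfl⟩
  have hr0 : 0 < r := by rw [hr]; exact Real.sqrt_pos.2 hN0
  have hNr : N = r ^ 2 := by rw [hr, Real.sq_sqrt hN0.le]
  have hrC : C' ≤ ε₃ / 16 * r := by
    have h1 : 16 * C' / ε₃ ≤ r := by
      rw [hNr] at hN₀
      exact (pow_le_pow_iff_left₀ (by positivity) hr0.le two_ne_zero).1 hN₀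
    rw [div_le_iff₀ h3] at h1
    linarith
  have hta := X.ta
  have ht0 := X.t0
  have hIoo : ∀ t ∈ Icc (t₀ - R₁ ^ 2) t₀, t ∈ Ioo 0 T := fun t ht =>
    ⟨by linarith [ht.1], lt_of_le_of_lt ht.2 ht0.2⟩
  have hsub : Icc (t₀ - R₁ ^ 2) t₀ ⊆ Ico 0 T := fun t ht => ⟨(hIoo t ht).1.le, (hIoo t ht).2⟩
  have hw := (ww_ok hN hZ hR0 0).1
  have hp : ∀ j : ℕ, (0:ℝ) < (1/2) ^ j := fun j => by positivity
  -- choice of the scale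
  obtain ⟨j, hjm, hj⟩ : ∃ j ∈ Finset.Icc j₀ (j₀ + n), Cq * κ / N ^ 2 *
      (∫ t in (t₀ - R₁ ^ 2)..t₀, Xc_I ((1/2) ^ j) N Z R₁ (v t)) ≤ ε₃ / 16 * N := by
    refine Finset.exists_le_of_sum_le (s := Finset.Icc j₀ (j₀ + n)) ⟨j₀, Finset.mem_Icc.2 ⟨le_rfl, by omega⟩⟩ ?_
    rw [Finset.sum_const, Nat.card_Icc, ← Finset.mul_sum]
    have hcI : ∀ j ∈ Finset.Icc j₀ (j₀ + n), IntervalIntegrable (fun t => Xc_I ((1/2) ^ j) N Z R₁ (v t)) volume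
        (t₀ - R₁ ^ 2) t₀ := fun j _ =>
      ((Xc_Ic X.ns (hp j) hN hZ hR0).mono hsub).intervalIntegrable_of_Icc ht01.le
    rw [← intervalIntegral.integral_finsetSum hcI]
    have h1 : ∫ t in (t₀ - R₁ ^ 2)..t₀, ∑ j ∈ Finset.Icc j₀ (j₀ + n), Xc_I ((1/2) ^ j) N Z R₁ (v t) ≤
        ∫ t in (t₀ - R₁ ^ 2)..t₀, 90 * DD (v t) (ww N Z R₁ 0) := by
      refine intervalIntegral.integral_mono_on ht01.le (by simpa only [Finset.sum_fn] using IntervalIntegrable.sum _ hcI) ?_ fun t ht =>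
        Xc_Is X.ns hN hZ hR0 (hsub ht) j₀ (j₀ + n)
      exact (((tc_u X.ns hw).2.1.mono hsub).const_mul _).intervalIntegrable_of_Icc ht01.le
    rw [intervalIntegral.integral_const_mul] at h1
    have h2 : ∫ t in (t₀ - R₁ ^ 2)..t₀, DD (v t) (ww N Z R₁ 0) ≤ C * N ^ 3 * R₁ := X.di R₁ hR0 le_rfl
    have h4 : ∫ t in (t₀ - R₁ ^ 2)..t₀, ∑ j ∈ Finset.Icc j₀ (j₀ + n), Xc_I ((1/2) ^ j) N Z R₁ (v t) ≤
        90 * (C * N ^ 3 * R₁) := by linarith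
    have h5 : Cq * κ / N ^ 2 * (∫ t in (t₀ - R₁ ^ 2)..t₀, ∑ j ∈ Finset.Icc j₀ (j₀ + n), Xc_I ((1/2) ^ j) N Z R₁ (v t)) ≤
        Cq * κ / N ^ 2 * (90 * (C * N ^ 3 * R₁)) := mul_le_mul_of_nonneg_left h4 (by positivity)
    have h6 : Cq * κ / N ^ 2 * (90 * (C * N ^ 3 * R₁)) = 90 * (Cq * κ * C * R₁) * N := by
      field_simp
    have h7 : 90 * (Cq * κ * C * R₁) * N ≤ ((n : ℝ) + 1) * (ε₃ / 16) * N :=
      mul_le_mul_of_nonneg_right hn hN0.le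
    have h8 : (j₀ + n + 1 - j₀) • (ε₃ / 16 * N) = ((n : ℝ) + 1) * (ε₃ / 16) * N := by
      have h9 : j₀ + n + 1 - j₀ = n + 1 := by omega
      rw [h9, nsmul_eq_mul]
      push_cast
      ring
    rw [h8]
    linarith
  obtain ⟨hj1, hj2⟩ := Finset.mem_Icc.1 hjm
  obtain ⟨ε, hε⟩ : ∃ e, e = (1/2 : ℝ) ^ j := ⟨_, rfl⟩
  rw [← hε] at hj
  have hε0 : 0 < ε := by rw [hε]; positivity
  have hεj : ε ≤ (1/2) ^ j₀ := by
    rw [hε]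
    exact pow_le_pow_of_le_one (by norm_num) (by norm_num) hj1
  have hε1 : ε ≤ 1 := hεj.trans (pow_le_one₀ (by norm_num) (by norm_num))
  have hεl : εm ≤ ε := by
    rw [hε, hεm]
    exact pow_le_pow_of_le_one (by norm_num) (by norm_num) hj2
  have hεε₀ : ε ≤ ε₀ := (hεj.trans hj₀.le).trans (min_le_left _ _)
  have hε2 : Cq * κ * ε * (C * R₁ * (1 + R₁ ^ 2)) ≤ ε₃ / 16 := by
    have h1 : ε ≤ ε₃ / (16 * (Cq * κ * C * R₁ * (1 + R₁ ^ 2))) := (hεj.trans hj₀.le).trans (min_le_right _ _)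
    rw [le_div_iff₀ (by positivity)] at h1
    linarith
  have hε3 : εm ^ 3 ≤ ε ^ 3 := pow_le_pow_left₀ hεm0.le hεl 3
  have hm2 : C₁ * κ / ε ^ 3 * (2 * (1/2) ^ m * (C * R₁ ^ 3)) ≤ ε₃ / 32 := by
    have h1 : (1/2 : ℝ) ^ m * (64 * (C₁ * κ * C * R₁ ^ 3)) ≤ ε₃ * εm ^ 3 := by
      have := hmm.le
      rwa [le_div_iff₀ (by positivity)] at this
    have h2 : C₁ * κ / ε ^ 3 * (2 * (1/2) ^ m * (C * R₁ ^ 3)) =
      ((1/2 : ℝ) ^ m * (64 * (C₁ * κ * C * R₁ ^ 3))) / (32 * ε ^ 3) := by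
      field_simp
      norm_num
    rw [h2, div_le_iff₀ (by positivity)]
    have h4 : ε₃ * εm ^ 3 ≤ ε₃ * ε ^ 3 := mul_le_mul_of_nonneg_left hε3 h3.le
    linarith
  have hC'' : C₂ * κ ^ 2 * R₁ / ε ^ 3 * (C * R₁ + 10 * Z * R₁ ^ 5) ≤ C' := by
    rw [hC']
    have h1 : C₂ * κ ^ 2 * R₁ / ε ^ 3 * (C * R₁ + 10 * Z * R₁ ^ 5) =
      C₂ * κ ^ 2 * R₁ * (C * R₁ + 10 * Z * R₁ ^ 5) / ε ^ 3 := by ring
    rw [h1]
    exact div_le_div_of_nonneg_left (by positivity) (by positivity) hε3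
  -- the last radius
  have hE00 : 0 ≤ ∫ x, ‖v 0 x‖ ^ 2 := integral_nonneg fun x => by positivity
  obtain ⟨M, hM⟩ : ∃ M, M = R₁ ^ 2 * (C₁ * κ / (ε ^ 3 * N ^ 2)) * ((10 * Z * N * R₁ ^ 3) * ∫ x, ‖v 0 x‖ ^ 2) := ⟨_, rfl⟩
  have hM0 : 0 ≤ M := by rw [hM]; positivity
  obtain ⟨J', hJ'⟩ : ∃ J' : ℕ, M / (ε₃ / 32 * N) < 2 ^ J' := pow_unbounded_of_one_lt _ one_lt_two
  obtain ⟨J, hJ⟩ : ∃ J, J = max m J' := ⟨_, rfl⟩
  have hmJ : m ≤ J := by rw [hJ]; exact le_max_left _ _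
  have hJJ : J' ≤ J := by rw [hJ]; exact le_max_right _ _
  have hJ2 : M * ((2 ^ J * R₁) ^ 3)⁻¹ ≤ ε₃ / 32 * N := by
    rw [div_lt_iff₀ (by positivity)] at hJ'
    have h1 : (1:ℝ) ≤ 2 ^ J := one_le_pow₀ (by norm_num)
    have h2 : (2:ℝ) ^ J' ≤ 2 ^ J := pow_le_pow_right₀ (by norm_num) hJJ
    have h4 : (2:ℝ) ^ J ≤ (2 ^ J * R₁) := le_mul_of_one_le_right (by positivity) hR
    have h5 : (2 ^ J * R₁) ≤ (2 ^ J * R₁) ^ 3 := le_self_pow₀ (h1.trans h4) (by norm_num)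
    rw [← div_eq_mul_inv, div_le_iff₀ (by positivity)]
    have h6 : (2:ℝ) ^ J' ≤ (2 ^ J * R₁) ^ 3 := h2.trans (h4.trans h5)
    have h7 : 0 < ε₃ / 32 * N := by positivity
    have h8 := mul_le_mul_of_nonneg_left h6 h7.le
    linarith
  refine ⟨ε, hε0, hεε₀, ?_⟩
  have hmain := Xc_main (m := m) (J := J) hκ hC hZ hk0 hCq hC₁ hC₂ hR rc hε0 hε1 hmJ X fun t ht =>
    hQ T v p X.ns t (hIoo t ht) κ N Z R₁ k ε (X.sl t ht) hZ hR hk0 hk1 ra rb hε0 hε1 J hmJ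
  refine (show ∫ x, hk k (hm ε (fun y => v t₀ y 2) x / N) * ww N Z R₁ 0 x ≤ _ from hmain).trans ?_
  -- numerics
  have n1 : 32 * C * N * R₁ / (3 * k ^ 2 / 64 * R₁ ^ 2) ≤ ε₃ / 4 * N := by
    rw [div_le_iff₀ (by positivity)]
    have h1 := mul_le_mul_of_nonneg_right rd hN0.le
    linarith
  rw [← hr]
  have n2 : Cq * κ * ε / N ^ 2 * (C * N ^ 3 * R₁) + R₁ ^ 2 * (Cq * κ * ε / N ^ 2 * (C * N ^ 3 * R₁)) ≤ ε₃ / 16 * N := by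
    have h1 : Cq * κ * ε / N ^ 2 * (C * N ^ 3 * R₁) + R₁ ^ 2 * (Cq * κ * ε / N ^ 2 * (C * N ^ 3 * R₁)) =
      Cq * κ * ε * (C * R₁ * (1 + R₁ ^ 2)) * N := by
      field_simp
    rw [h1]
    exact mul_le_mul_of_nonneg_right hε2 hN0.le
  have n3 : C₂ * κ ^ 2 * R₁ / (ε ^ 3 * N ^ 2) / r * (C * N ^ 3 * R₁) +
      R₁ ^ 2 * (C₂ * κ ^ 2 * R₁ / (ε ^ 3 * N ^ 2) * (N * r * (10 * Z * N * R₁ ^ 3))) ≤ ε₃ / 16 * N := by
    have h1 : C₂ * κ ^ 2 * R₁ / (ε ^ 3 * N ^ 2) / r * (C * N ^ 3 * R₁) +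
      R₁ ^ 2 * (C₂ * κ ^ 2 * R₁ / (ε ^ 3 * N ^ 2) * (N * r * (10 * Z * N * R₁ ^ 3))) =
      C₂ * κ ^ 2 * R₁ / ε ^ 3 * (C * R₁ + 10 * Z * R₁ ^ 5) * r := by
      rw [hNr]
      field_simp
    rw [h1]
    calc C₂ * κ ^ 2 * R₁ / ε ^ 3 * (C * R₁ + 10 * Z * R₁ ^ 5) * r ≤ C' * r :=
          mul_le_mul_of_nonneg_right hC'' hr0.le
      _ ≤ ε₃ / 16 * r * r := mul_le_mul_of_nonneg_right hrC hr0.le
      _ = ε₃ / 16 * N := by rw [hNr]; ring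
  have n4 : R₁ ^ 2 * (C₁ * κ / (ε ^ 3 * N ^ 2) * (2 * (1/2) ^ m * (C * N ^ 3 * R₁))) ≤ ε₃ / 32 * N := by
    have h1 : R₁ ^ 2 * (C₁ * κ / (ε ^ 3 * N ^ 2) * (2 * (1/2) ^ m * (C * N ^ 3 * R₁))) =
      C₁ * κ / ε ^ 3 * (2 * (1/2) ^ m * (C * R₁ ^ 3)) * N := by
      field_simp
    rw [h1]
    exact mul_le_mul_of_nonneg_right hm2 hN0.le
  have n5 : R₁ ^ 2 * (C₁ * κ / (ε ^ 3 * N ^ 2) * (((2 ^ J * R₁) ^ 3)⁻¹ * (10 * Z * N * R₁ ^ 3) * ∫ x, ‖v 0 x‖ ^ 2)) ≤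
      ε₃ / 32 * N := by
    refine le_trans (le_of_eq ?_) hJ2
    rw [hM]
    ring
  have n6 : 0 ≤ ε₃ * N := by positivity
  linarith

end Pool.Agent.H16.TU
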