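/-
ROW Xd (MP_09540e_TU). The static contradiction. PROOF. k = b = 1/10, δ = 1/(200000 κ C), ε₀ = min 1 (δ²/(10 C')) with C' from dMol, ε₃ = 1/(1000000 κ), N₀ = 1; l = N/(20κ), m = ∫ pz l ≥ l. dLow, dCut, dMol: `|∫ hm ε v₂ gd| ≥ (8/5)π N m - N l/10 - N l/10 ≥ ((8/5)π - 1/5) N m`. On the other side, with `f = hm ε v₂ / N`: `|∫ hm ε v₂ gd| ≤ N ∫ |f| gd ≤ N ((k + b) ∫ gd + (7/b³) ∫ hk k f gd)` (hk_6)
`≤ N ((1/5) π m + 7000 · 8 ∫ hk k f ww N Z R₁ 0)`: `∫ gd ≤ π m` (gd_f); where gd ≠ 0: rad x < 1, |x 2| < l ≤ Z N, so `ww N Z R₁ 0 x ≥ ww N Z 1 0 x ≥ 1/8` (wt_mono; 1 ≤ R₁), i.e. `gd ≤ 8 ww N Z R₁ 0` (gd ≤ 1). Hence `56000 ∫ hk.. ≥ ((7/5) π - 1/5) m ≥ 4.1 l = 4.1 N/(20 κ)`, so `∫ hk.. ≥ 4.1 N/(1120000 κ) > N/(1000000 κ)` as 4.1 > 1.12.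
Integrability: f bounded continuous (hm_abs, hm_cont), gd compactly supported, ww integrable; hk k f bounded continuous (hk_c, hk_0).
-/
import Pool.Agent.H16.TU.Dc
import Pool.Agent.H16.TU.Cd
import Pool.Agent.H16.TU.Wb

set_option autoImplicit false

open Set Filter Topology MeasureTheory
open scoped ContDiff

namespace Pool.Agent.H16.TU

open Pool.Agent.H16 Pool.Agent.H87.NS Pool.Agent.H72.CC

private theorem Xd_gd {N Z κ R₁ δ : ℝ} (hκ : 1 ≤ κ) (hN : 1 ≤ N) (hZ : 1 ≤ Z) (hR : 1 ≤ R₁)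
    (hδ : 0 < δ) (x : E3) : gd δ (N / (20 * κ)) x ≤ 8 * ww N Z R₁ 0 x := by
  have hκ0 : 0 < κ := by linarith
  have hN0 : 0 < N := by linarith
  have hl : 0 < N / (20 * κ) := by positivity
  obtain ⟨g0, g1, -, g3, g4, -⟩ := gd_v (l := N / (20 * κ)) hδ hl x
  have hR0 : 0 < R₁ := by linarith
  have hZN : 0 < Z * N * 1 := by positivity
  have hZR : 0 < Z * N * R₁ := by positivity
  have hpos : 0 < ww N Z R₁ 0 x := wt_pos hR0 hZR 0 x
  by_cases h0 : gd δ (N / (20 * κ)) x = 0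
  · rw [h0]
    positivity
  · have hr : rad x < 1 := by
      by_contra h
      exact h0 (g3 (not_lt.1 h))
    have hx : |x 2| < N / (20 * κ) := by
      by_contra h
      exact h0 (g4 (not_lt.1 h))
    have hrs : rsq x ≤ 1 := by
      rw [← rad_sq']
      have := Real.sqrt_nonneg (x 0 ^ 2 + x 1 ^ 2)
      have h2 : 0 ≤ rad x := this
      nlinarith
    have hrs0 : 0 ≤ rsq x := by
      unfold rsq
      positivity
    have hxx : (x 2 - 0) ^ 2 ≤ (Z * N * 1) ^ 2 := by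
      rw [sub_zero, ← sq_abs (x 2)]
      refine pow_le_pow_left₀ (abs_nonneg _) (hx.le.trans ?_) 2
      have h1 : N / (20 * κ) ≤ N := by
        rw [div_le_iff₀ (by positivity)]
        nlinarith
      have h2 : N ≤ Z * N := by nlinarith
      linarith
    have h1 : ww N Z 1 0 x ≤ ww N Z R₁ 0 x := by
      unfold ww
      refine wt_mono one_pos hZN hR ?_ 0 x
      have : 0 < Z * N := by positivity
      nlinarith
    have h2 : (1 : ℝ) / 8 ≤ ww N Z 1 0 x := by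
      unfold ww wt
      have a1 : (1 + rsq x / 1 ^ 2) ^ 2 ≤ 4 := by
        rw [one_pow, div_one]
        nlinarith
      have a2 : 1 + (x 2 - 0) ^ 2 / (Z * N * 1) ^ 2 ≤ 2 := by
        have : (x 2 - 0) ^ 2 / (Z * N * 1) ^ 2 ≤ 1 := by
          rw [div_le_one (by positivity)]
          exact hxx
        linarith
      have b1 : (4 : ℝ)⁻¹ ≤ ((1 + rsq x / 1 ^ 2) ^ 2)⁻¹ :=
        inv_anti₀ (by rw [one_pow, div_one]; positivity) a1
      have b2 : (2 : ℝ)⁻¹ ≤ (1 + (x 2 - 0) ^ 2 / (Z * N * 1) ^ 2)⁻¹ :=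
        inv_anti₀ (by positivity) a2
      have b3 := mul_le_mul b1 b2 (by norm_num) (by positivity)
      calc (1 : ℝ) / 8 = (4 : ℝ)⁻¹ * (2 : ℝ)⁻¹ := by norm_num
        _ ≤ _ := b3
    linarith

theorem thmD {κ C Z : ℝ} (hκ : 1 ≤ κ) (hC : 1 ≤ C) (hZ : 1 ≤ Z) :
    ∃ k ε₃ ε₀ N₀ : ℝ, 0 < k ∧ k ≤ 1 ∧ 0 < ε₃ ∧ 0 < ε₀ ∧ ∀ (N : ℝ) (v : E3 → E3), N₀ ≤ N → Sl κ N v → SS v (ww N Z 1 0) ≤ C * N ^ 3 →
      9 / 10 * N ≤ |sP v (e 0)| → ∀ R₁ ε : ℝ, 1 ≤ R₁ → 0 < ε → ε ≤ ε₀ →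
      ε₃ * N < ∫ x, hk k (hm ε (fun y => v y 2) x / N) * ww N Z R₁ 0 x := by
  obtain ⟨C', hC', hMol⟩ := dMol
  have hκ0 : 0 < κ := by linarith
  have hC0 : 0 < C := by linarith
  have hC'0 : 0 < C' := by linarith
  obtain ⟨δ, hδd⟩ : ∃ δ : ℝ, δ = 1 / (200000 * κ * C) := ⟨_, rfl⟩
  have hδ : 0 < δ := by rw [hδd]; positivity
  have hδ1 : δ ≤ 1 := by
    rw [hδd, div_le_one (by positivity)]
    have : 1 ≤ κ * C := by nlinarith
    linarith
  refine ⟨1 / 10, 1 / (1000000 * κ), min 1 (δ ^ 2 / (10 * C')), 1, by norm_num, by norm_num,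
    by positivity, lt_min one_pos (by positivity), ?_⟩
  intro N v hN h hS he R₁ ε hR hε hε0
  have hN0 : 0 < N := by linarith
  have hε1 : ε ≤ 1 := hε0.trans (min_le_left _ _)
  have hεδ : ε ≤ δ ^ 2 / (10 * C') := hε0.trans (min_le_right _ _)
  obtain ⟨l, hld⟩ : ∃ l : ℝ, l = N / (20 * κ) := ⟨_, rfl⟩
  have hl : 0 < l := by rw [hld]; positivity
  have hR0 : 0 < R₁ := by linarith
  obtain ⟨K, hK⟩ := h.db
  have hvc : Continuous (fun y => v y 2) := by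
    have h1 : Continuous v := h.ax.smooth.continuous
    exact (PiLp.continuous_apply 2 _ 2).comp h1
  have hvb : ∀ x, |v x 2| ≤ K := fun x => (DB_BL (hK 2)).1 x
  have hmc : Continuous (hm ε (fun y => v y 2)) := hm_cont hvc ε
  have hmb : ∀ x, |hm ε (fun y => v y 2) x| ≤ K := hm_abs hvc hvb ε
  have hK0 : 0 ≤ K := (abs_nonneg _).trans (hvb 0)
  -- the test function
  obtain ⟨gsm, gcs, gtf, gint⟩ := gd_f (δ := δ) (l := l) hδ hl
  have gc : Continuous (gd δ l) := gsm.continuous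
  have g0 : ∀ x, 0 ≤ gd δ l x := fun x => (gd_v hδ hl x).1
  obtain ⟨-, -, m1, -, -⟩ := pz_f hl
  obtain ⟨m, hm'⟩ : ∃ m : ℝ, m = ∫ z, pz l z := ⟨_, rfl⟩
  rw [← hm'] at gint m1
  -- the three comparisons
  have hA := dLow h he
  have hB := dCut h hZ hC hS
  rw [← hδd] at hB
  rw [← hld] at hA hB
  rw [← hm'] at hA
  have hD := hMol κ N δ l ε v h hδ hδ1 hl hε hε1
  obtain ⟨I0, hI0⟩ : ∃ I0 : ℝ, I0 = ∫ x in {x : E3 | rad x < 1}, v x 2 * pz l (x 2) := ⟨_, rfl⟩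
  obtain ⟨I1, hI1⟩ : ∃ I1 : ℝ, I1 = ∫ x, v x 2 * gd δ l x := ⟨_, rfl⟩
  obtain ⟨I2, hI2⟩ : ∃ I2 : ℝ, I2 = ∫ x, hm ε (fun y => v y 2) x * gd δ l x := ⟨_, rfl⟩
  rw [← hI0] at hA hB
  rw [← hI1] at hB hD
  rw [← hI2] at hD
  have hD2 : C' * N * ε * l / δ ^ 2 ≤ N * l / 10 := by
    rw [div_le_iff₀ (by positivity)]
    rw [le_div_iff₀ (by positivity)] at hεδ
    have h1 : 0 < N * l := by positivity
    nlinarith
  have hlow : (8 / 5 * Real.pi - 1 / 5) * N * m ≤ |I2| := by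
    have t1 : |I0| - |I1| ≤ |I0 - I1| := abs_sub_abs_le_abs_sub _ _
    have t2 : |I1| - |I2| ≤ |I1 - I2| := abs_sub_abs_le_abs_sub _ _
    have t3 : N * l ≤ N * m := mul_le_mul_of_nonneg_left m1 hN0.le
    nlinarith
  -- the convex function
  obtain ⟨F, hF⟩ : ∃ F : E3 → ℝ, F = fun x => hk (1 / 10) (hm ε (fun y => v y 2) x / N) := ⟨_, rfl⟩
  have hFc : Continuous F := by
    rw [hF]
    exact (hk_c (k := 1 / 10)).continuous.comp (hmc.div_const N)
  have hF0 : ∀ x, 0 ≤ F x := by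
    intro x
    rw [hF]
    exact (hk_0 (by norm_num) _).1
  have hFb : ∀ x, |F x| ≤ (K / N) ^ 2 / 2 := by
    intro x
    rw [abs_of_nonneg (hF0 x), hF]
    refine (hk_0 (by norm_num) _).2.1.trans ?_
    have h1 : (hm ε (fun y => v y 2) x / N) ^ 2 ≤ (K / N) ^ 2 := by
      rw [← sq_abs, abs_div, abs_of_pos hN0]
      exact pow_le_pow_left₀ (by positivity) (div_le_div_of_nonneg_right (hmb x) hN0.le) 2
    linarith
  have hw : Wc (4 / R₁) (ww N Z R₁ 0) := by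
    refine wt_wc hR0 ?_ 0
    have h1 : 1 ≤ Z * N := by nlinarith
    nlinarith
  have hJi : Integrable (fun x => F x * ww N Z R₁ 0 x) := wi hw hFc hFb
  have hFg : Integrable (fun x => F x * gd δ l x) :=
    (hFc.mul gc).integrable_of_hasCompactSupport gcs.mul_left
  have hgi : Integrable (gd δ l) := gtf.int
  have hup : |I2| ≤ N * (1 / 5 * m * Real.pi + 7000 * ∫ x, F x * gd δ l x) := by
    have u1 : |I2| ≤ ∫ x, |hm ε (fun y => v y 2) x * gd δ l x| := by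
      rw [hI2]
      exact abs_integral_le_integral_abs
    have u2 : ∫ x, |hm ε (fun y => v y 2) x * gd δ l x| ≤
        ∫ x, (N * (1 / 5) * gd δ l x + N * 7000 * (F x * gd δ l x)) := by
      refine integral_mono ?_ ?_ fun x => ?_
      · exact ((hmc.mul gc).integrable_of_hasCompactSupport gcs.mul_left).abs
      · exact (hgi.const_mul _).add (hFg.const_mul _)
      · dsimp only
        rw [abs_mul, abs_of_nonneg (g0 x)]
        have h6 := hk_6 (k := 1 / 10) (b := 1 / 10) (by norm_num) (by norm_num) (by norm_num)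
          (hm ε (fun y => v y 2) x / N)
        rw [abs_div, abs_of_pos hN0, div_le_iff₀ hN0] at h6
        have h7 : |hm ε (fun y => v y 2) x| ≤ N * (1 / 5) + N * 7000 * F x := by
          rw [hF]
          refine h6.trans (le_of_eq ?_)
          dsimp only
          ring
        calc |hm ε (fun y => v y 2) x| * gd δ l x
            ≤ (N * (1 / 5) + N * 7000 * F x) * gd δ l x := mul_le_mul_of_nonneg_right h7 (g0 x)
          _ = N * (1 / 5) * gd δ l x + N * 7000 * (F x * gd δ l x) := by ring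
    rw [integral_add (hgi.const_mul _) (hFg.const_mul _), integral_const_mul,
      integral_const_mul] at u2
    have u3 : N * (1 / 5) * ∫ x, gd δ l x ≤ N * (1 / 5) * (Real.pi * m) :=
      mul_le_mul_of_nonneg_left gint (by positivity)
    calc |I2| ≤ _ := u1
      _ ≤ _ := u2
      _ ≤ N * (1 / 5) * (Real.pi * m) + N * 7000 * ∫ x, F x * gd δ l x := by linarith
      _ = N * (1 / 5 * m * Real.pi + 7000 * ∫ x, F x * gd δ l x) := by ring
  have hJ : ∫ x, F x * gd δ l x ≤ 8 * ∫ x, F x * ww N Z R₁ 0 x := by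
    rw [← integral_const_mul]
    refine integral_mono hFg (hJi.const_mul 8) fun x => ?_
    dsimp only
    have h8 : gd δ l x ≤ 8 * ww N Z R₁ 0 x := by
      rw [hld]
      exact Xd_gd hκ hN hZ hR hδ x
    calc F x * gd δ l x ≤ F x * (8 * ww N Z R₁ 0 x) := mul_le_mul_of_nonneg_left h8 (hF0 x)
      _ = 8 * (F x * ww N Z R₁ 0 x) := by ring
  obtain ⟨J, hJd⟩ : ∃ J : ℝ, J = ∫ x, F x * ww N Z R₁ 0 x := ⟨_, rfl⟩
  have hgoal : (∫ x, hk (1 / 10) (hm ε (fun y => v y 2) x / N) * ww N Z R₁ 0 x) = J := by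
    rw [hJd, hF]
  rw [hgoal]
  rw [← hJd] at hJ
  have hπ := Real.pi_gt_d2
  have hfin : N * ((8 / 5 * Real.pi - 1 / 5) * m) ≤ N * (1 / 5 * m * Real.pi + 56000 * J) := by
    calc N * ((8 / 5 * Real.pi - 1 / 5) * m) = (8 / 5 * Real.pi - 1 / 5) * N * m := by ring
      _ ≤ |I2| := hlow
      _ ≤ _ := hup
      _ ≤ N * (1 / 5 * m * Real.pi + 56000 * J) := by
          apply mul_le_mul_of_nonneg_left _ hN0.le
          linarith
  have hfin2 := le_of_mul_le_mul_left hfin hN0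
  have hm0 : 0 < m := hl.trans_le m1
  have h41 : 4.1 * l ≤ 56000 * J := by nlinarith
  have hll : l = N * (1 / (20 * κ)) := by rw [hld]; ring
  have e1 : 1 / (20 * κ) = 50000 * (1 / (1000000 * κ)) := by
    field_simp
    norm_num
  rw [hll, e1] at h41
  have e2 : 0 < 1 / (1000000 * κ) * N := by positivity
  nlinarith

end Pool.Agent.H16.TU
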