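import Pool.Agent.H16.TU.Defs2

/-! Linear growth of the circulation is propagated when `|r u_r| ≤ C (1 + r)`. -/

set_option autoImplicit false

open Set Filter Topology MeasureTheory
open scoped ContDiff

namespace Pool.Agent.H16.TU

open Pool.Agent.H16 Pool.Agent.H87.NS Pool.Agent.H72.CC

theorem Gr_d1 {ρ : ℝ} (h : 0 < ρ) : HasDerivAt (fun s : ℝ => √(1 + s)) (1 / (2 * √(1 + ρ))) ρ := by
  have h1 : HasDerivAt (fun s : ℝ => 1 + s) 1 ρ := (hasDerivAt_id ρ).const_add 1
  exact h1.sqrt (by positivity)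

theorem Gr_d2 {ρ : ℝ} (h : 0 < ρ) :
    HasDerivAt (fun s : ℝ => 1 / (2 * √(1 + s))) (-(1 / (4 * √(1 + ρ) ^ 3))) ρ := by
  have h0 : 0 < √(1 + ρ) := Real.sqrt_pos.2 (by positivity)
  have h1 := ((Gr_d1 h).const_mul 2).inv (by positivity)
  have h2 : (fun s : ℝ => 1 / (2 * √(1 + s))) = (fun s : ℝ => 2 * √(1 + s))⁻¹ := by
    funext s; simp
  rw [h2]
  refine h1.congr_deriv ?_
  field_simp
  ring

theorem circ_grow {T : ℝ} {u : ℝ → E3 → E3} {p : ℝ → E3 → ℝ} (h : IsAxisymNS T u p) {C : ℝ}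
    (hC : ∀ t ∈ Ico 0 T, ∀ x, |radFlux (u t) x| ≤ C * (1 + rad x)) :
    ∃ M : ℝ, ∀ t ∈ Ico 0 T, ∀ x, |circ (u t) x| ≤ M * (1 + rad x) := by
  by_cases hT : 0 < T
  swap
  · exact ⟨0, fun t ht => absurd (ht.1.trans_lt ht.2) hT⟩
  obtain ⟨K₀, hK₀⟩ := h.bounded 0 hT
  have hK0 : 0 ≤ K₀ := (norm_nonneg _).trans (hK₀ 0 ⟨le_rfl, le_rfl⟩ 0)
  have hC0 : 0 ≤ C := by
    have h1 := (abs_nonneg _).trans (hC 0 ⟨le_rfl, hT⟩ 0)
    have h2 : 0 < 1 + rad (0 : E3) := by have := rad_nonneg (0 : E3); linarith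
    by_contra hn
    push Not at hn
    nlinarith
  refine ⟨K₀ * Real.exp (2 * C * T), fun t ht x => ?_⟩
  obtain ⟨K, hK⟩ := h.bounded t ht.2
  have hrs : ∀ x : E3, √(1 + rsq x) ≤ 1 + rad x := by
    intro x
    rw [Real.sqrt_le_left (by have := rad_nonneg x; linarith), ← rad_sq']
    nlinarith [rad_nonneg x]
  have key : ∀ σ : ℝ, |σ| = 1 → ∀ s ∈ Icc 0 t, ∀ x ∈ (univ : Set E3), 0 < rad x →
      σ * circ (u s) x ≤ (K₀ * Real.exp (2 * C * s)) * √(1 + rsq x) := by
    intro σ hσ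
    have hle : ∀ t x, σ * circ (u t) x ≤ |circ (u t) x| := by
      intro t x
      calc σ * circ (u t) x ≤ |σ * circ (u t) x| := le_abs_self _
        _ = |circ (u t) x| := by rw [abs_mul, hσ, one_mul]
    refine comparison h ht.2 (f := fun t x => σ * circ (u t) x)
      (Φ := fun s x => (K₀ * Real.exp (2 * C * s)) * √(1 + rsq x)) (G := univ) (U := univ)
      (K := K) ?_ ?_ isClosed_univ isOpen_univ le_rfl ?_ ?_ ?_ ?_ ?_
    · exact continuousOn_const.mul (h.continuousOn_circ ht.2)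
    · intro t ht x
      calc σ * circ (u t) x ≤ |circ (u t) x| := hle t x
        _ ≤ rad x * ‖u t x‖ := circ_le _ _
        _ ≤ K * rad x := by
          rw [mul_comm]
          exact mul_le_mul_of_nonneg_right (hK t ht x) (rad_nonneg x)
    · apply Continuous.continuousOn
      unfold rsq
      fun_prop
    · intro s _ x _ _; positivity
    · intro x _ _
      refine (hle 0 x).trans ((circ_le _ _).trans ?_)
      have h1 : rad x ≤ √(1 + rsq x) := by
        rw [← rad_sq']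
        apply Real.le_sqrt_of_sq_le
        linarith
      have h2 := hK₀ 0 ⟨le_rfl, le_rfl⟩ x
      have h3 := rad_nonneg x
      simp only [mul_zero, Real.exp_zero, mul_one]
      calc rad x * ‖u 0 x‖ ≤ rad x * K₀ := mul_le_mul_of_nonneg_left h2 h3
        _ ≤ √(1 + rsq x) * K₀ := mul_le_mul_of_nonneg_right h1 hK0
        _ = _ := mul_comm _ _
    · intro s _ x _ hx; exact absurd (mem_univ x) hx
    · intro s hs x _ hr _
      have hs' : s ∈ Ioo 0 T := ⟨hs.1, hs.2.trans_lt ht.2⟩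
      obtain ⟨b, D, H, hj, hin⟩ := h.signed_circ hs' x hr σ
      have hρ : 0 < rsq x := rsq_pos hr
      have ha : HasDerivAt (fun s : ℝ => K₀ * Real.exp (2 * C * s)) (K₀ * (Real.exp (2 * C * s) * (2 * C))) s := by
        have := ((hasDerivAt_id s).const_mul (2 * C)).exp
        simpa using this.const_mul K₀
      have hjr := radial_jet (ψ := fun ρ => √(1 + ρ)) (ψ' := fun ρ => 1 / (2 * √(1 + ρ))) ha
        (show ∀ᶠ ρ in 𝓝 (rsq x), HasDerivAt (fun ρ => √(1 + ρ)) ((fun ρ => 1 / (2 * √(1 + ρ))) ρ) ρ from by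
          filter_upwards [Ioi_mem_nhds hρ] with ρ hρ'
          exact Gr_d1 hρ') (Gr_d2 hρ)
      refine ⟨b, D, H, _, _, _, 0, hj, hjr, hin, ?_⟩
      have e5 := radial_second (K₀ * Real.exp (2 * C * s)) (fun ρ => 1 / (2 * √(1 + ρ))) (-(1 / (4 * √(1 + rsq x) ^ 3))) x hρ
      beta_reduce at e5
      rw [e5, radial_first]
      have hq : 0 < √(1 + rsq x) := Real.sqrt_pos.2 (by positivity)
      have hq2 : √(1 + rsq x) ^ 2 = 1 + rad x ^ 2 := by
        rw [Real.sq_sqrt (by positivity), rad_sq']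
      have hE : 0 ≤ K₀ * Real.exp (2 * C * s) := by positivity
      have hF : -(C * (1 + rad x)) ≤ x 0 * u s x 0 + x 1 * u s x 1 := (abs_le.1 (hC s ⟨hs'.1.le, hs'.2⟩ x)).1
      have e1 : K₀ * Real.exp (2 * C * s) * (4 * rsq x * -(1 / (4 * √(1 + rsq x) ^ 3))) + 0 ≤ 0 := by
        have : 0 ≤ K₀ * Real.exp (2 * C * s) * (4 * rsq x * (1 / (4 * √(1 + rsq x) ^ 3))) := by positivity
        linarith
      have e2 : 0 ≤ 2 * C * √(1 + rsq x) + 2 * (x 0 * u s x 0 + x 1 * u s x 1) * (1 / (2 * √(1 + rsq x))) := by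
        have e3 : 2 * C * √(1 + rsq x) + 2 * (x 0 * u s x 0 + x 1 * u s x 1) * (1 / (2 * √(1 + rsq x))) =
            (2 * C * √(1 + rsq x) ^ 2 + (x 0 * u s x 0 + x 1 * u s x 1)) / √(1 + rsq x) := by
          field_simp
        rw [e3]
        apply div_nonneg _ hq.le
        rw [hq2]
        have hr0 := rad_nonneg x
        nlinarith [mul_nonneg hC0 (sq_nonneg (rad x - 1/4)), mul_nonneg hC0 (sq_nonneg (rad x))]
      refine e1.trans ?_
      have e4 := mul_nonneg hE e2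
      calc (0:ℝ) ≤ _ := e4
        _ = _ := by simp only [mul_add]; ring
  rcases eq_or_lt_of_le (rad_nonneg x) with hr | hr
  · have := circ_le (u t) x
    rw [← hr, zero_mul] at this
    refine this.trans ?_
    have := rad_nonneg x
    positivity
  · have hbd : (K₀ * Real.exp (2 * C * t)) * √(1 + rsq x) ≤ K₀ * Real.exp (2 * C * T) * (1 + rad x) := by
      apply mul_le_mul _ (hrs x) (Real.sqrt_nonneg _) (by positivity)
      apply mul_le_mul_of_nonneg_left _ hK0
      apply Real.exp_le_exp.2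
      exact mul_le_mul_of_nonneg_left ht.2.le (by positivity)
    rw [abs_le]
    constructor
    · have := key (-1) (by simp) t ⟨ht.1, le_rfl⟩ x (mem_univ _) hr
      linarith
    · have := key 1 (by simp) t ⟨ht.1, le_rfl⟩ x (mem_univ _) hr
      linarith

theorem hor_grow {v : E3 → E3} {M C : ℝ} (hM : ∀ x, |circ v x| ≤ M * (1 + rad x)) (hC : ∀ x, |radFlux v x| ≤ C * (1 + rad x)) (x : E3) :
    rad x * hn v x ≤ (|M| + |C| + 1) * (1 + rad x) := by
  have h0 := rad_nonneg x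
  have h1 : (rad x * hn v x) ^ 2 = circ v x ^ 2 + radFlux v x ^ 2 := by
    rw [mul_pow, hn, Real.sq_sqrt (by positivity), rad_sq', rsq, circ, radFlux]
    ring
  have h2 : (rad x * hn v x) ^ 2 ≤ (|circ v x| + |radFlux v x|) ^ 2 := by
    rw [h1]
    nlinarith [abs_nonneg (circ v x), abs_nonneg (radFlux v x), sq_abs (circ v x), sq_abs (radFlux v x)]
  have h3 : rad x * hn v x ≤ |circ v x| + |radFlux v x| := by
    apply le_of_sq_le_sq h2 (by positivity) |> fun h => h
  have h4 := hM x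
  have h5 := hC x
  have h6 : M * (1 + rad x) ≤ |M| * (1 + rad x) := mul_le_mul_of_nonneg_right (le_abs_self M) (by linarith)
  have h7 : C * (1 + rad x) ≤ |C| * (1 + rad x) := mul_le_mul_of_nonneg_right (le_abs_self C) (by linarith)
  nlinarith

end Pool.Agent.H16.TU
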