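/-
ROW Xe (MP_09540e_TU). The extremal point, rescaled. PROOF. κ := |M| + |C'| + 1 where |circ (u t) x| ≤ M (1 + rad x) for all t ∈ Ico 0 T (circ_grow) and C' from hr; hor_of gives `rad x hn (u t) x ≤ κ(1 + rad x)`. Z, C₀, N_A from thmA h κ (Ah.lean); C := max C₀ 1. Given a > 0, N₀: E = ∫‖u 0‖². eSel with `N₀' = max N₀, N_A, 1, ..` large, gives N, t₀, x₀. ρ := rad x₀ > 0 (since 9N/10 ≤ ρ |sP|, N > 0). eF at (u t₀, x₀)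
(∫‖u t₀‖² ≤ E: en_glob): `ρ (9N/10)³ ≤ κ (1 + ρ) E`; if ρ ≥ 1 then (9N/10)³ ≤ 2κE, impossible for N ≥ N₀' large; so ρ < 1 and `ρ ≤ 2κE/(9N/10)³ ≤ 3κE/N³`, so `a ρ² < T/2 ≤ t₀` for N ≥ N₀' large (N₀' depends on a, κ, E, T). z := x₀ 2, v = us ρ z u, p' = psc ρ z p, T' = T/ρ², t₀' = t₀/ρ²; ρ² t₀' = t₀. Cx: ns: sc_h; t0: t₀/ρ² < T/ρ²; ta: a < t₀/ρ².
sl: t ∈ [t₀' - a, t₀'] gives ρ² t ∈ [0, t₀], UpTo, e_Sl. en: e_SS and Bd (thmA) at time ρ² t, scale ρR: `ρ⁻¹ C₀ N³ ρR` (ww N Z (ρR) z = wt (ρR) (Z N (ρR)) z by definition). di: `∫_{t₀'-a}^{t₀'} DD (v t) = ∫ ρ DD (u (ρ² t)) (ww (ρR) z) dt = ρ⁻¹ ∫_{t₀-ρ²a}^{t₀} DD (u s) ds` (integral_comp_mul_left), the window is contained in `[max (t₀ - (ρR)²) 0, t₀]` (ρ² a ≤ (ρR)², t₀ - ρ² a > 0), DD ≥ 0, continuous (tc_u),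
`≤ ρ⁻¹ C₀ N³ ρR`. Last: `|sP (v t₀') (e 0)| = ρ |sP (u t₀) (axp z + ρ • e 0)|` (e_sP), and `axp z + ρ • e 0 = (ρ, 0, z)` is a rotation of x₀ (rad x₀ = ρ; KSym_trig / KSym_rot in H87/NS/KSym.lean), sP_rot: `= rad x₀ |sP (u t₀) x₀| ≥ 9N/10`.
-/
import Pool.Agent.H16.TU.Ah
import Pool.Agent.H16.TU.Eb
import Pool.Agent.H16.TU.Ed
import Pool.Agent.H16.TU.Ee
import Pool.Agent.H16.TU.Gr
import Pool.Agent.H87.NS.KSym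

set_option autoImplicit false

open Set Filter Topology MeasureTheory
open scoped ContDiff

namespace Pool.Agent.H16.TU

open Pool.Agent.H16 Pool.Agent.H87.NS Pool.Agent.H72.CC

theorem Xe_pt (z ρ : ℝ) : (axp z + ρ • e 0) 0 = ρ ∧ (axp z + ρ • e 0) 1 = 0 ∧
    (axp z + ρ • e 0) 2 = z := by
  refine ⟨?_, ?_, ?_⟩ <;> simp [axp, e]

theorem Xe_di {T ρ z N Z R a t₀ C₀ : ℝ} {u : ℝ → E3 → E3} {p : ℝ → E3 → ℝ}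
    (h : IsHInfAxisymNS T u p) (hN : 1 ≤ N) (hZ : 1 ≤ Z) (hρ : 0 < ρ) (hR : 0 < R) (ha : 0 < a)
    (haR : a ≤ R ^ 2) (ht : t₀ ∈ Ico 0 T) (hat : a * ρ ^ 2 < t₀)
    (hB : Bd u N Z t₀ C₀) :
    ∫ t in (t₀ / ρ ^ 2 - a)..(t₀ / ρ ^ 2), DD (us ρ z u t) (ww N Z R 0) ≤ C₀ * N ^ 3 * R := by
  have hρ2 : 0 < ρ ^ 2 := by positivity
  have hρR : 0 < ρ * R := by positivity
  obtain ⟨w, -, -⟩ := ww_ok hN hZ hρR z
  have ht0 : 0 ≤ t₀ := ht.1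
  have e1 : ρ ^ 2 * (t₀ / ρ ^ 2 - a) = t₀ - a * ρ ^ 2 := by
    field_simp
  have e2 : ρ ^ 2 * (t₀ / ρ ^ 2) = t₀ := by
    field_simp
  have hle : t₀ / ρ ^ 2 - a ≤ t₀ / ρ ^ 2 := by linarith
  have s1 : ∫ t in (t₀ / ρ ^ 2 - a)..(t₀ / ρ ^ 2), DD (us ρ z u t) (ww N Z R 0) =
      ∫ t in (t₀ / ρ ^ 2 - a)..(t₀ / ρ ^ 2), ρ * DD (u (ρ ^ 2 * t)) (ww N Z (ρ * R) z) := by
    refine intervalIntegral.integral_congr fun t hts => ?_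
    rw [uIcc_of_le hle] at hts
    have h1 : ρ ^ 2 * t ≤ t₀ := by
      rw [← e2]
      exact mul_le_mul_of_nonneg_left hts.2 hρ2.le
    have h2 : 0 ≤ ρ ^ 2 * t := by
      have h3 : ρ ^ 2 * (t₀ / ρ ^ 2 - a) ≤ ρ ^ 2 * t := mul_le_mul_of_nonneg_left hts.1 hρ2.le
      rw [e1] at h3
      linarith
    have h4 : ρ ^ 2 * t ∈ Ico 0 T := ⟨h2, h1.trans_lt ht.2⟩
    exact (e_SS (axF_of h.ns h4).smooth hρ z).2
  have s2 : ∫ t in (t₀ / ρ ^ 2 - a)..(t₀ / ρ ^ 2), DD (u (ρ ^ 2 * t)) (ww N Z (ρ * R) z) =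
      (ρ ^ 2)⁻¹ * ∫ s in (t₀ - a * ρ ^ 2)..t₀, DD (u s) (ww N Z (ρ * R) z) := by
    have h1 := intervalIntegral.integral_comp_mul_left (a := t₀ / ρ ^ 2 - a) (b := t₀ / ρ ^ 2)
      (fun s => DD (u s) (ww N Z (ρ * R) z)) hρ2.ne'
    rw [e1, e2, smul_eq_mul] at h1
    exact h1
  have hm0 : 0 ≤ max (t₀ - (ρ * R) ^ 2) 0 := le_max_right _ _
  have hmt : max (t₀ - (ρ * R) ^ 2) 0 ≤ t₀ - a * ρ ^ 2 := by
    refine max_le ?_ (by linarith)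
    have h1 : a * ρ ^ 2 ≤ R ^ 2 * ρ ^ 2 := mul_le_mul_of_nonneg_right haR hρ2.le
    have h2 : (ρ * R) ^ 2 = R ^ 2 * ρ ^ 2 := by ring
    linarith
  have hat0 : 0 ≤ a * ρ ^ 2 := by positivity
  have s3 : ∫ s in (t₀ - a * ρ ^ 2)..t₀, DD (u s) (ww N Z (ρ * R) z) ≤
      ∫ s in (max (t₀ - (ρ * R) ^ 2) 0)..t₀, DD (u s) (ww N Z (ρ * R) z) :=
    intervalIntegral.integral_mono_interval hmt (by linarith) le_rfl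
      (Eventually.of_forall fun s => Ah_DD0 w) (Ah_ii h w hm0 (by linarith) ht.2)
  have s4 : ∫ s in (max (t₀ - (ρ * R) ^ 2) 0)..t₀, DD (u s) (ww N Z (ρ * R) z) ≤
      C₀ * N ^ 3 * (ρ * R) := (hB t₀ ⟨ht0, le_rfl⟩ (ρ * R) z hρR).2
  rw [s1, intervalIntegral.integral_const_mul, s2]
  have s5 : ρ * ((ρ ^ 2)⁻¹ * ∫ s in (t₀ - a * ρ ^ 2)..t₀, DD (u s) (ww N Z (ρ * R) z)) ≤
      ρ * ((ρ ^ 2)⁻¹ * (C₀ * N ^ 3 * (ρ * R))) :=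
    mul_le_mul_of_nonneg_left (mul_le_mul_of_nonneg_left (s3.trans s4) (by positivity)) hρ.le
  refine s5.trans (le_of_eq ?_)
  field_simp

theorem Xe_small {κ E T a N q ρ : ℝ} (hκ : 1 ≤ κ) (hE : 0 ≤ E) (hT : 0 < T) (ha : 0 < a)
    (hN : 3 * κ * E + 5 * (a * κ * E / T) + 2 ≤ N) (hq : q = 9 / 10 * N) (hρ : 0 < ρ)
    (h : ρ * q ^ 3 ≤ κ * (1 + ρ) * E) : ρ ≤ 1 ∧ a * ρ ^ 2 < T / 2 := by
  have hκE : 0 ≤ κ * E := by positivity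
  have hd : 0 ≤ a * κ * E / T := by positivity
  have hq1 : 1 ≤ q := by
    rw [hq]
    linarith
  have hq3 : q ≤ q ^ 3 := le_self_pow₀ hq1 (by norm_num)
  have hρ1 : ρ < 1 := by
    by_contra hcon
    have h1 : 1 ≤ ρ := not_lt.1 hcon
    have h2 : κ * (1 + ρ) * E ≤ ρ * (2 * (κ * E)) := by nlinarith
    have h3 : ρ * q ^ 3 ≤ ρ * (2 * (κ * E)) := h.trans h2
    have h4 : q ^ 3 ≤ 2 * (κ * E) := le_of_mul_le_mul_left h3 hρ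
    rw [hq] at hq3 h4
    linarith
  refine ⟨hρ1.le, ?_⟩
  have h2 : ρ * q ≤ 2 * (κ * E) := by
    have h3 : κ * (1 + ρ) * E ≤ 2 * (κ * E) := by nlinarith
    have h4 : ρ * q ≤ ρ * q ^ 3 := mul_le_mul_of_nonneg_left hq3 hρ.le
    linarith
  have h5 : ρ ^ 2 ≤ ρ := by nlinarith
  have h6 : a * ρ ^ 2 ≤ a * ρ := mul_le_mul_of_nonneg_left h5 ha.le
  -- `a ρ < T / 2`
  have h7 : 4 * (a * κ * E / T) < q := by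
    rw [hq]
    linarith
  have h8 : 4 * (a * κ * E) < q * T := by
    have h9 : 4 * (a * κ * E / T) * T < q * T := mul_lt_mul_of_pos_right h7 hT
    have h10 : 4 * (a * κ * E / T) * T = 4 * (a * κ * E) := by
      field_simp
    rwa [h10] at h9
  have h11 : a * ρ < T / 2 := by
    by_contra hcon
    have h12 : T / 2 ≤ a * ρ := not_lt.1 hcon
    have h13 : T / 2 * q ≤ a * ρ * q := mul_le_mul_of_nonneg_right h12 (by linarith)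
    have h14 : a * (ρ * q) ≤ a * (2 * (κ * E)) := mul_le_mul_of_nonneg_left h2 ha.le
    linarith
  linarith

theorem ext {T : ℝ} {u : ℝ → E3 → E3} {p : ℝ → E3 → ℝ} (h : IsHInfAxisymNS T u p)
    (hr : ∃ C : ℝ, ∀ t ∈ Ico 0 T, ∀ x, |radFlux (u t) x| ≤ C * (1 + rad x))
    (hun : ¬ ∃ Λ : ℝ, ∀ t ∈ Ico 0 T, ∀ x, rad x * |sP (u t) x| ≤ Λ) :
    ∃ κ Z C : ℝ, 1 ≤ κ ∧ 1 ≤ Z ∧ 1 ≤ C ∧ ∀ a N₀ : ℝ, 0 < a → ∃ (N T' : ℝ) (v : ℝ → E3 → E3) (p' : ℝ → E3 → ℝ) (t₀ : ℝ),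
      N₀ ≤ N ∧ Cx κ C Z N a T' v p' t₀ ∧ 9 / 10 * N ≤ |sP (v t₀) (e 0)| := by
  obtain ⟨C', hC'⟩ := hr
  obtain ⟨M, hM⟩ := circ_grow h.ns hC'
  obtain ⟨κ, hκd⟩ : ∃ κ : ℝ, κ = |M| + |C'| + 1 := ⟨_, rfl⟩
  have hκ : 1 ≤ κ := by
    rw [hκd]
    linarith [abs_nonneg M, abs_nonneg C']
  have hor : ∀ t ∈ Ico 0 T, ∀ x, rad x * hn (u t) x ≤ κ * (1 + rad x) := by
    intro t ht x
    rw [hκd]
    exact hor_grow (hM t ht) (hC' t ht) x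
  obtain ⟨Z, C₀, NA, hZ, hC₀, hNA, HA⟩ := thmA h κ
  refine ⟨κ, Z, max C₀ 1, hκ, hZ, le_max_right _ _, ?_⟩
  intro a N₀ ha
  obtain ⟨E, hE⟩ : ∃ E : ℝ, E = ∫ x, ‖u 0 x‖ ^ 2 := ⟨_, rfl⟩
  have hE0 : 0 ≤ E := by
    rw [hE]
    exact integral_nonneg fun x => sq_nonneg _
  obtain ⟨N, t₀, x₀, hN₀, hU, htT, hT, hx₀⟩ := eSel h hκ hor hun
    (max N₀ (max NA (3 * κ * E + 5 * (a * κ * E / T) + 2)))
  have hN1 : N₀ ≤ N := (le_max_left _ _).trans hN₀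
  have hN2 : NA ≤ N := (le_max_left _ _).trans ((le_max_right _ _).trans hN₀)
  have hN3 : 3 * κ * E + 5 * (a * κ * E / T) + 2 ≤ N :=
    (le_max_right _ _).trans ((le_max_right _ _).trans hN₀)
  have hN : 1 ≤ N := hNA.trans hN2
  have hB := HA N t₀ hN2 hU
  have ht₀ := hU.1
  obtain ⟨ρ, hρd⟩ : ∃ ρ : ℝ, ρ = rad x₀ := ⟨_, rfl⟩
  have hρ0 : 0 ≤ ρ := by
    rw [hρd]
    exact Real.sqrt_nonneg _
  have hρ : 0 < ρ := by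
    rcases hρ0.lt_or_eq with h1 | h1
    · exact h1
    · exfalso
      rw [← hρd, ← h1, zero_mul] at hx₀
      linarith
  have hAx := axF_of h.ns ht₀
  obtain ⟨K, -, -, hInt, -⟩ := ba_vf (vf_u h ht₀)
  have hF := eF hAx hInt hκ (hor t₀ ht₀) (x := x₀) (by rw [← hρd]; exact hρ)
  have hE1 := (en_glob h ht₀).1
  rw [← hE] at hE1
  rw [← hρd] at hF hx₀
  have hF' : ρ * (9 / 10 * N) ^ 3 ≤ κ * (1 + ρ) * E := by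
    have h1 : (9 / 10 * N) ^ 3 ≤ (ρ * |sP (u t₀) x₀|) ^ 3 :=
      pow_le_pow_left₀ (by linarith) hx₀ 3
    have h2 : κ * (1 + ρ) * ∫ y, ‖u t₀ y‖ ^ 2 ≤ κ * (1 + ρ) * E :=
      mul_le_mul_of_nonneg_left hE1 (by positivity)
    exact (mul_le_mul_of_nonneg_left h1 hρ.le).trans (hF.trans h2)
  obtain ⟨hρ1, haρ⟩ := Xe_small hκ hE0 hT ha hN3 rfl hρ hF'
  have hρ2 : 0 < ρ ^ 2 := by positivity
  have hat : a * ρ ^ 2 < t₀ := by linarith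
  have e2 : ρ ^ 2 * (t₀ / ρ ^ 2) = t₀ := by
    field_simp
  have e1 : ρ ^ 2 * (t₀ / ρ ^ 2 - a) = t₀ - a * ρ ^ 2 := by
    field_simp
  have hwin : ∀ t ∈ Icc (t₀ / ρ ^ 2 - a) (t₀ / ρ ^ 2), ρ ^ 2 * t ∈ Icc 0 t₀ := by
    intro t ht
    constructor
    · have h3 : ρ ^ 2 * (t₀ / ρ ^ 2 - a) ≤ ρ ^ 2 * t := mul_le_mul_of_nonneg_left ht.1 hρ2.le
      rw [e1] at h3
      linarith
    · have h3 : ρ ^ 2 * t ≤ ρ ^ 2 * (t₀ / ρ ^ 2) := mul_le_mul_of_nonneg_left ht.2 hρ2.le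
      rwa [e2] at h3
  refine ⟨N, T / ρ ^ 2, us ρ (x₀ 2) u, psc ρ (x₀ 2) p, t₀ / ρ ^ 2, hN1, ?_, ?_⟩
  · refine ⟨sc_h h hρ, ⟨div_nonneg ht₀.1 hρ2.le, div_lt_div_of_pos_right ht₀.2 hρ2⟩, ?_, ?_, ?_,
      ?_⟩
    · rw [lt_div_iff₀ hρ2]
      exact hat
    · intro t ht
      exact e_Sl (hU.2 _ (hwin t ht)) hρ hρ1 (x₀ 2)
    · intro t ht R hR
      have h1 := hU.2 _ (hwin t ht)
      have h2 : SS (us ρ (x₀ 2) u t) (ww N Z R 0) =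
          ρ⁻¹ * SS (u (ρ ^ 2 * t)) (ww N Z (ρ * R) (x₀ 2)) :=
        (e_SS h1.ax.smooth hρ (x₀ 2)).1
      have h3 : SS (u (ρ ^ 2 * t)) (ww N Z (ρ * R) (x₀ 2)) ≤ C₀ * N ^ 3 * (ρ * R) :=
        (hB _ (hwin t ht) (ρ * R) (x₀ 2) (by positivity)).1
      rw [h2]
      have h4 : ρ⁻¹ * SS (u (ρ ^ 2 * t)) (ww N Z (ρ * R) (x₀ 2)) ≤
          ρ⁻¹ * (C₀ * N ^ 3 * (ρ * R)) := mul_le_mul_of_nonneg_left h3 (by positivity)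
      have h5 : ρ⁻¹ * (C₀ * N ^ 3 * (ρ * R)) = C₀ * (N ^ 3 * R) := by
        field_simp
      have h6 : C₀ * (N ^ 3 * R) ≤ max C₀ 1 * (N ^ 3 * R) :=
        mul_le_mul_of_nonneg_right (le_max_left _ _) (by positivity)
      linarith
    · intro R hR haR
      have h1 := Xe_di (z := x₀ 2) h hN hZ hρ hR ha haR ht₀ hat hB
      have h6 : C₀ * (N ^ 3 * R) ≤ max C₀ 1 * (N ^ 3 * R) :=
        mul_le_mul_of_nonneg_right (le_max_left _ _) (by positivity)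
      linarith
  · have h1 : sP (us ρ (x₀ 2) u (t₀ / ρ ^ 2)) (e 0) =
        ρ * sP (u (ρ ^ 2 * (t₀ / ρ ^ 2))) (axp (x₀ 2) + ρ • e 0) :=
      e_sP ρ (x₀ 2) (u (ρ ^ 2 * (t₀ / ρ ^ 2))) (e 0)
    obtain ⟨p0, p1, p2⟩ := Xe_pt (x₀ 2) ρ
    have hrs : rsq x₀ = ρ ^ 2 := by
      rw [hρd]
      unfold rad rsq
      rw [Real.sq_sqrt (by positivity)]
    have hry : rsq (axp (x₀ 2) + ρ • e 0) = rsq x₀ := by
      rw [hrs]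
      unfold rsq
      rw [p0, p1]
      ring
    obtain ⟨θ, hθ, -, -⟩ := KSym_rot (y := x₀) (z := axp (x₀ 2) + ρ • e 0)
      (by rw [hrs]; exact hρ2) hry p2
    rw [h1, e2, ← hθ, sP_rot hAx, abs_mul, abs_of_pos hρ]
    exact hx₀

end Pool.Agent.H16.TU
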