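/-
ROW Xf (MP_09540e_TU). From the bound of the stream function to the circulation. PROOF. T ≤ 0: nothing to prove. Let `rad x |sP (u t) x| ≤ Λ`, Λ ≥ 1, and |circ (u t) x| ≤ M for all t ∈ Ico 0 T, x (IsAxisymNS.circ_max in H16/Radial.lean), M ≥ 1. Let `ρ₀ = min 1 (√(T/4))`, so ρ₀² < T/2. Let C₁ be the constant of `osc` (H72/CC/Osc.lean), `L = 5 Λ⁴`, `θ = 1 - exp(-(C₁ L⁹)) ∈ (0, 1)`.
One step: for t ∈ [T/2, T), 0 < ρ ≤ ρ₀, z, g with |circ (u t') x| ≤ g for t' ∈ [t - ρ², t], x ∈ ball (axp z) ρ: ns_crc (H72/CC/NsC.lean; ρ² < t) gives Crc for the rescaled circulation with stream function `P s y = ρ sP (u (t+ρ²s)) (axp z + ρ • y)`, and `rad y |P s y| = rad (X y) |sP (X y)| ≤ Λ`, so `A4 (P s) = ∫_{ball 0 1} rsq² P⁴ ≤ Λ⁴ vol(ball 0 1) ≤ 5Λ⁴` (rsq y² P⁴ = (rad y |P|)⁴; volume 4π/3),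
`∫_{-1}^0 A4⁵ ≤ L⁵`; osc: |circ| ≤ θ g on [t - ρ²/16, t] × ball (axp z) (ρ/4) (transfer as in stepA: StepA_sc, H72/CC/StepA.lean). Iterate as in mainA (H72/CC/MainA.lean): for all k, `|circ (u t') x| ≤ θ^k M` for t' ∈ [t - (ρ₀4⁻ᵏ)², t], x ∈ ball (axp z) (ρ₀ 4⁻ᵏ). Let δ = min 1 (log(1/θ)/log 4) > 0, so `θ^k ≤ (4⁻ᵏ)^δ`. For 0 < rad x < ρ₀, t ≥ T/2: choose k with `ρ₀ 4^(-(k+1)) ≤ rad x < ρ₀ 4⁻ᵏ`, z = x 2
(x ∈ ball (axp z) .. since ‖x - axp (x 2)‖ = rad x: Crit_axp): `|circ (u t) x| ≤ M (4 rad x/ρ₀)^δ`. For ρ₀ ≤ rad x ≤ 1: `≤ M ≤ M (rad x/ρ₀)^δ`. rad x = 0: circ = 0 and 0^δ = 0. For t < T/2: circ = rsq * sV (circ_eq), |sV| ≤ K (svwDB on Icc 0 (T/2)), rsq = rad² ≤ rad^δ for rad ≤ 1 (δ ≤ 2).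
-/
import Pool.Agent.H16.TU.Defs2
import Pool.Agent.H72.CC.MainA

set_option autoImplicit false

open Set Filter Topology MeasureTheory
open scoped ContDiff

namespace Pool.Agent.H16.TU

open Pool.Agent.H16 Pool.Agent.H87.NS Pool.Agent.H72.CC

theorem Xf_rsq (ρ z : ℝ) (y : E3) : rsq (axp z + ρ • y) = ρ ^ 2 * rsq y := by
  unfold rsq
  have h0 : (axp z + ρ • y) 0 = ρ * y 0 := by simp [axp]
  have h1 : (axp z + ρ • y) 1 = ρ * y 1 := by simp [axp]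
  rw [h0, h1]
  ring

theorem Xf_A4 {Λ ρ z : ℝ} {f : E3 → ℝ} (hf : ∀ x, rad x * |f x| ≤ Λ) :
    0 ≤ A4 (fun y => ρ * f (axp z + ρ • y)) ∧ A4 (fun y => ρ * f (axp z + ρ • y)) ≤ 5 * Λ ^ 4 := by
  have hpt : ∀ y : E3, 0 ≤ rsq y ^ 2 * (ρ * f (axp z + ρ • y)) ^ 4 ∧
      rsq y ^ 2 * (ρ * f (axp z + ρ • y)) ^ 4 ≤ Λ ^ 4 := by
    intro y
    refine ⟨by positivity, ?_⟩
    have h1 : rsq y ^ 2 * (ρ * f (axp z + ρ • y)) ^ 4 =
        (rad (axp z + ρ • y) * |f (axp z + ρ • y)|) ^ 4 := by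
      have h2 : (rad (axp z + ρ • y) * |f (axp z + ρ • y)|) ^ 4 =
          (rad (axp z + ρ • y) ^ 2) ^ 2 * (|f (axp z + ρ • y)| ^ 2) ^ 2 := by ring
      rw [h2, rad_sq', Xf_rsq, sq_abs]
      ring
    rw [h1]
    exact pow_le_pow_left₀ (mul_nonneg (rad_nonneg _) (abs_nonneg _)) (hf _) 4
  have h4 : (volume : Measure E3).real (Metric.ball 0 1) = Real.pi * 4 / 3 := by
    rw [Measure.real, EuclideanSpace.volume_ball_fin_three, ENNReal.ofReal_one, one_pow, one_mul,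
      ENNReal.toReal_ofReal (by positivity)]
  have hΛ4 : 0 ≤ Λ ^ 4 := (hpt 0).1.trans (hpt 0).2
  constructor
  · exact integral_nonneg fun y => (hpt y).1
  · have h5 : ‖∫ x in Metric.ball (0 : E3) 1, rsq x ^ 2 * (ρ * f (axp z + ρ • x)) ^ 4‖ ≤
        Λ ^ 4 * (volume : Measure E3).real (Metric.ball 0 1) :=
      norm_setIntegral_le_of_norm_le_const measure_ball_lt_top fun y _ => by
        rw [Real.norm_of_nonneg (hpt y).1]
        exact (hpt y).2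
    rw [h4] at h5
    have h6 : A4 (fun y => ρ * f (axp z + ρ • y)) ≤
        ‖∫ x in Metric.ball (0 : E3) 1, rsq x ^ 2 * (ρ * f (axp z + ρ • x)) ^ 4‖ :=
      Real.le_norm_self _
    refine h6.trans (h5.trans ?_)
    have := Real.pi_lt_d2
    nlinarith

theorem Xf_step : ∃ C₁ : ℝ, 0 < C₁ ∧ ∀ (T : ℝ) (u : ℝ → E3 → E3) (p : ℝ → E3 → ℝ),
    IsHInfAxisymNS T u p → ∀ Λ : ℝ, 1 ≤ Λ →
    (∀ t ∈ Ico 0 T, ∀ x, rad x * |sP (u t) x| ≤ Λ) →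
    ∀ t ρ z : ℝ, t < T → 0 < ρ → ρ ^ 2 < t → ∀ g : ℝ,
    (∀ t' ∈ Icc (t - ρ ^ 2) t, ∀ x ∈ Metric.ball (axp z) ρ, |circ (u t') x| ≤ g) →
    ∀ t' ∈ Icc (t - ρ ^ 2 / 16) t, ∀ x ∈ Metric.ball (axp z) (ρ / 4),
      |circ (u t') x| ≤ (1 - Real.exp (-(C₁ * (5 * Λ ^ 4) ^ 9))) * g := by
  obtain ⟨C₁, hC₁, H1⟩ := osc
  refine ⟨C₁, hC₁, ?_⟩
  intro T u p h Λ hΛ hP t ρ z ht hρ hρt g hg
  have hρ2 : 0 < ρ ^ 2 := by positivity
  have hL : 1 ≤ 5 * Λ ^ 4 := by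
    have := one_le_pow₀ hΛ (n := 4)
    linarith
  have hcrc := ns_crc h.ns ht hρ hρt z
  have h1 : ∫ s in (-1 : ℝ)..0, A4 (fun y => ρ * sP (u (t + ρ ^ 2 * s)) (axp z + ρ • y)) ^ 5 ≤
      (5 * Λ ^ 4) ^ 5 := by
    have h2 : ‖∫ s in (-1 : ℝ)..0, A4 (fun y => ρ * sP (u (t + ρ ^ 2 * s)) (axp z + ρ • y)) ^ 5‖ ≤
        (5 * Λ ^ 4) ^ 5 * |(0 : ℝ) - (-1)| := by
      refine intervalIntegral.norm_integral_le_of_norm_le_const fun s hs => ?_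
      rw [uIoc_of_le (by norm_num)] at hs
      have hs1 : t + ρ ^ 2 * s ∈ Ico 0 T := ⟨by nlinarith [hs.1], by nlinarith [hs.2]⟩
      obtain ⟨a1, a2⟩ := Xf_A4 (ρ := ρ) (z := z) (hP _ hs1)
      rw [Real.norm_of_nonneg (pow_nonneg a1 5)]
      exact pow_le_pow_left₀ a1 a2 5
    have h3 : |(0 : ℝ) - (-1)| = 1 := by norm_num
    rw [h3, mul_one] at h2
    exact (Real.le_norm_self _).trans h2
  have h2 := H1 _ _ _ hcrc _ hL h1 g (by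
    intro s hs y hy
    refine hg _ ⟨by nlinarith [hs.1], by nlinarith [hs.2]⟩ _ ?_
    rw [Metric.mem_ball, dist_eq_norm, add_sub_cancel_left, norm_smul, Real.norm_of_nonneg hρ.le]
    rw [mem_ball_zero_iff] at hy
    nlinarith)
  intro t' ht' x hx
  exact StepA_sc (T := T) (u := u) (t := t) (z := z) (τ := 1/16) (r := 1/4) hρ
    (P := fun s => |s| ≤ (1 - Real.exp (-(C₁ * (5 * Λ ^ 4) ^ 9))) * g) (by norm_num) h2 t'
    (by convert ht' using 2; ring) x (by convert hx using 2; ring)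

theorem Xf_k {x : ℝ} (h0 : 0 < x) (h1 : x < 1) :
    ∃ k : ℕ, x < (1/4 : ℝ) ^ k ∧ (1/4 : ℝ) ^ k ≤ 16 * x := by
  obtain ⟨n, hn1, hn2⟩ := exists_nat_pow_near_of_lt_one h0 h1.le (show (0:ℝ) < 1/4 by norm_num)
    (by norm_num)
  rcases n with _ | m
  · refine ⟨0, by simpa using h1, ?_⟩
    rw [zero_add, pow_one] at hn1
    rw [pow_zero]
    linarith
  · have hm : (0:ℝ) < (1/4) ^ m := by positivity
    rw [pow_succ] at hn2
    rw [pow_succ, pow_succ] at hn1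
    exact ⟨m, by linarith, by linarith⟩

theorem Xf_pow {θ : ℝ} (h0 : 0 < θ) {δ : ℝ} (hδ : δ ≤ Real.log (1 / θ) / Real.log 4) (k : ℕ) :
    θ ^ k ≤ ((1/4 : ℝ) ^ k) ^ δ := by
  have hl4 : 0 < Real.log 4 := Real.log_pos (by norm_num)
  rw [le_div_iff₀ hl4, one_div, Real.log_inv] at hδ
  have h1 : θ ≤ (1/4 : ℝ) ^ δ := by
    rw [Real.rpow_def_of_pos (by norm_num), one_div, Real.log_inv]
    calc θ = Real.exp (Real.log θ) := (Real.exp_log h0).symm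
      _ ≤ _ := Real.exp_le_exp.2 (by linarith)
  have h2 : ((1/4 : ℝ) ^ k) ^ δ = ((1/4 : ℝ) ^ δ) ^ k := by
    rw [← Real.rpow_natCast, ← Real.rpow_mul (by norm_num), ← Real.rpow_natCast,
      ← Real.rpow_mul (by norm_num), mul_comm]
  rw [h2]
  exact pow_le_pow_left₀ h0.le h1 k

theorem thmF {T : ℝ} {u : ℝ → E3 → E3} {p : ℝ → E3 → ℝ} (h : IsHInfAxisymNS T u p)
    (hΓ : ∃ M : ℝ, ∀ t ∈ Ico 0 T, ∀ x, |circ (u t) x| ≤ M * (1 + rad x))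
    (hΛ : ∃ Λ : ℝ, ∀ t ∈ Ico 0 T, ∀ x, rad x * |sP (u t) x| ≤ Λ) :
    ∃ δ C : ℝ, 0 < δ ∧ ∀ t ∈ Ico 0 T, ∀ x, rad x ≤ 1 → |circ (u t) x| ≤ C * rad x ^ δ := by
  rcases le_or_gt T 0 with hT | hT
  · exact ⟨1, 0, one_pos, fun t ht => absurd ht.2 (by linarith [ht.1])⟩
  obtain ⟨M', hM'⟩ := hΓ
  obtain ⟨Λ', hΛ'⟩ := hΛ
  obtain ⟨M, hMe⟩ : ∃ M, M = 2 * |M'| := ⟨_, rfl⟩
  have hM0 : 0 ≤ M := by rw [hMe]; positivity
  have hM : ∀ t ∈ Ico 0 T, ∀ x, rad x ≤ 1 → |circ (u t) x| ≤ M := by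
    intro t ht x hx
    refine (hM' t ht x).trans ?_
    have h1 := rad_nonneg x
    have h2 := le_abs_self M'
    have h3 : M' * (1 + rad x) ≤ |M'| * (1 + rad x) := mul_le_mul_of_nonneg_right h2 (by linarith)
    have h4 : |M'| * (1 + rad x) ≤ |M'| * 2 := mul_le_mul_of_nonneg_left (by linarith) (abs_nonneg _)
    rw [hMe]
    linarith
  obtain ⟨Λ, hΛe⟩ : ∃ Λ, Λ = max Λ' 1 := ⟨_, rfl⟩
  have hΛ1 : 1 ≤ Λ := by rw [hΛe]; exact le_max_right _ _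
  have hΛ2 : ∀ t ∈ Ico 0 T, ∀ x, rad x * |sP (u t) x| ≤ Λ := fun t ht x => by
    rw [hΛe]
    exact (hΛ' t ht x).trans (le_max_left _ _)
  obtain ⟨C₁, hC₁, HS⟩ := Xf_step
  obtain ⟨θ, hθ⟩ : ∃ θ, θ = 1 - Real.exp (-(C₁ * (5 * Λ ^ 4) ^ 9)) := ⟨_, rfl⟩
  have hq : 0 < C₁ * (5 * Λ ^ 4) ^ 9 := by positivity
  have hθ0 : 0 < θ := by
    have : Real.exp (-(C₁ * (5 * Λ ^ 4) ^ 9)) < 1 := by
      rw [← Real.exp_zero]
      exact Real.exp_lt_exp.2 (by linarith)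
    rw [hθ]
    linarith
  have hθ1 : θ < 1 := by
    rw [hθ]
    linarith [Real.exp_pos (-(C₁ * (5 * Λ ^ 4) ^ 9))]
  obtain ⟨ρ₀, hρe⟩ : ∃ ρ₀, ρ₀ = min 1 (√(T / 4)) := ⟨_, rfl⟩
  have hρ0 : 0 < ρ₀ := by
    rw [hρe]
    exact lt_min one_pos (Real.sqrt_pos.2 (by linarith))
  have hρT : ρ₀ ^ 2 ≤ T / 4 := by
    calc ρ₀ ^ 2 ≤ √(T / 4) ^ 2 := pow_le_pow_left₀ hρ0.le (by rw [hρe]; exact min_le_right _ _) 2
      _ = _ := Real.sq_sqrt (by linarith)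
  have hiter : ∀ t z : ℝ, T / 2 ≤ t → t < T → ∀ k : ℕ, ∀ t' ∈ Icc (t - (ρ₀ * (1/4) ^ k) ^ 2) t,
      ∀ x ∈ Metric.ball (axp z) (ρ₀ * (1/4) ^ k), |circ (u t') x| ≤ θ ^ k * M := by
    intro t z hat htT k
    induction k with
    | zero =>
      intro t' ht' x hx
      rw [pow_zero, one_mul]
      have hx1 : rad x ≤ 1 := by
        have h2 : rad x ≤ ‖x - axp z‖ := by
          have h3 : rad x = rad (x - axp z) := by simp [rad, axp]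
          rw [h3]
          exact rad_le_norm _
        rw [pow_zero, mul_one, Metric.mem_ball, dist_eq_norm] at hx
        have h4 : ρ₀ ≤ 1 := by rw [hρe]; exact min_le_left _ _
        linarith
      refine hM t' ⟨?_, lt_of_le_of_lt ht'.2 htT⟩ x hx1
      have h1 := ht'.1
      rw [pow_zero, mul_one] at h1
      linarith
    | succ k ih =>
      have hk : (0:ℝ) < (1/4) ^ k := by positivity
      have hk1 : ((1:ℝ)/4) ^ k ≤ 1 := pow_le_one₀ (by norm_num) (by norm_num)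
      have hρk : 0 < ρ₀ * (1/4) ^ k := by positivity
      have hρk1 : ρ₀ * (1/4) ^ k ≤ ρ₀ := by nlinarith only [hθ0, hθ1, hρ0, hk1]
      have hsq : (ρ₀ * (1/4) ^ k) ^ 2 ≤ ρ₀ ^ 2 := pow_le_pow_left₀ hρk.le hρk1 2
      have h1 := HS T u p h Λ hΛ1 hΛ2 t (ρ₀ * (1/4) ^ k) z htT hρk (by linarith) (θ ^ k * M) ih
      rw [← hθ] at h1
      intro t' ht' x hx
      have h2 := h1 t' (by convert ht' using 2; ring) x (by convert hx using 2; ring)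
      rw [pow_succ', mul_assoc]
      exact h2
  obtain ⟨δ, hδe⟩ : ∃ δ, δ = min 1 (Real.log (1 / θ) / Real.log 4) := ⟨_, rfl⟩
  have hl4 : 0 < Real.log 4 := Real.log_pos (by norm_num)
  have hδ0 : 0 < δ := by
    rw [hδe]
    refine lt_min one_pos (div_pos (Real.log_pos ?_) hl4)
    rw [lt_div_iff₀ hθ0]
    linarith
  have hδ1 : δ ≤ 1 := by rw [hδe]; exact min_le_left _ _
  have hδ2 : δ ≤ Real.log (1 / θ) / Real.log 4 := by rw [hδe]; exact min_le_right _ _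
  obtain ⟨K, hK⟩ := svwDB h (show T / 2 < T by linarith)
  have hK0 : 0 ≤ K := (abs_nonneg _).trans ((DB_BL (hK 0 ⟨le_rfl, by linarith⟩).1).1 0)
  refine ⟨δ, (16 / ρ₀) ^ δ * M + K, hδ0, ?_⟩
  intro t ht x hx1
  have hr0 := rad_nonneg x
  have hB0 : 0 ≤ (16 / ρ₀) ^ δ * M := by positivity
  have hrδ : 0 ≤ rad x ^ δ := Real.rpow_nonneg hr0 δ
  have hgoal : ∀ s : ℝ, s ≤ (16 / ρ₀) ^ δ * M * rad x ^ δ →
      s ≤ ((16 / ρ₀) ^ δ * M + K) * rad x ^ δ := by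
    intro s hs
    have := mul_nonneg hK0 hrδ
    rw [add_mul]
    linarith
  rcases hr0.eq_or_lt with hr | hr
  · have h1 : circ (u t) x = 0 := by
      rw [circ_eq (axF_of h.ns ht), ← rad_sq', ← hr]
      ring
    rw [h1, abs_zero]
    positivity
  rcases le_or_gt (T / 2) t with hta | hta
  · apply hgoal
    have hx16 : (16 / ρ₀) ^ δ * M * rad x ^ δ = (16 * (rad x / ρ₀)) ^ δ * M := by
      have e : 16 * (rad x / ρ₀) = (16 / ρ₀) * rad x := by ring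
      rw [e, Real.mul_rpow (by positivity) hr.le]
      ring
    rw [hx16]
    rcases lt_or_ge (rad x) ρ₀ with hlt | hge
    · obtain ⟨k, hk1, hk2⟩ := Xf_k (x := rad x / ρ₀) (by positivity)
        (by rw [div_lt_one hρ0]; exact hlt)
      have hk3 : rad x < ρ₀ * (1/4) ^ k := by
        rw [div_lt_iff₀ hρ0] at hk1
        linarith
      have h1 := hiter t (x 2) hta ht.2 k t ⟨by linarith [sq_nonneg (ρ₀ * (1/4) ^ k)], le_rfl⟩ x (by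
        rw [Metric.mem_ball, dist_eq_norm, Crit_axp]; exact hk3)
      refine h1.trans (mul_le_mul_of_nonneg_right ?_ hM0)
      exact (Xf_pow hθ0 hδ2 k).trans (Real.rpow_le_rpow (by positivity) hk2 hδ0.le)
    · have h1 : 1 ≤ (16 * (rad x / ρ₀)) ^ δ := by
        apply Real.one_le_rpow _ hδ0.le
        have : 1 ≤ rad x / ρ₀ := by rw [le_div_iff₀ hρ0]; linarith
        linarith
      calc |circ (u t) x| ≤ M := hM t ht x hx1
        _ = 1 * M := (one_mul M).symm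
        _ ≤ _ := mul_le_mul_of_nonneg_right h1 hM0
  · have h1 : |sV (u t) x| ≤ K := (DB_BL (hK t ⟨ht.1, hta.le⟩).1).1 x
    rw [circ_eq (axF_of h.ns ht), abs_mul, ← rad_sq', abs_of_nonneg (by positivity)]
    have h2 : rad x ^ 2 ≤ rad x ^ δ := by
      rw [← Real.rpow_natCast]
      exact Real.rpow_le_rpow_of_exponent_ge hr hx1 (by push_cast; linarith)
    calc rad x ^ 2 * |sV (u t) x| ≤ rad x ^ δ * K := mul_le_mul h2 h1 (abs_nonneg _) hrδ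
      _ ≤ ((16 / ρ₀) ^ δ * M + K) * rad x ^ δ := by
        have := mul_nonneg hB0 hrδ
        rw [add_mul]
        linarith

end Pool.Agent.H16.TU
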