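/-
ROW Fin (MP_09540e_TU). Assembly.
-/
import Pool.Agent.H16.TU.Xe
import Pool.Agent.H16.TU.Xc
import Pool.Agent.H16.TU.Xd
import Pool.Agent.H16.TU.Xf

set_option autoImplicit false

open Set Filter Topology MeasureTheory
open scoped ContDiff

namespace Pool.Agent.H16.TU

open Pool.Agent.H16 Pool.Agent.H87.NS Pool.Agent.H72.CC

theorem main {T : ℝ} {u : ℝ → E3 → E3} {p : ℝ → E3 → ℝ} (h : IsHInfAxisymNS T u p)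
    (hr : ∃ C : ℝ, ∀ t ∈ Ico 0 T, ∀ x, |radFlux (u t) x| ≤ C * (1 + rad x)) :
    ∃ δ C : ℝ, 0 < δ ∧ ∀ t ∈ Ico 0 T, ∀ x, rad x ≤ 1 → |circ (u t) x| ≤ C * rad x ^ δ := by
  have hΓ : ∃ M : ℝ, ∀ t ∈ Ico 0 T, ∀ x, |circ (u t) x| ≤ M * (1 + rad x) := by
    obtain ⟨C, hC⟩ := hr
    exact circ_grow h.ns hC
  refine thmF h hΓ ?_
  by_contra hun
  obtain ⟨κ, Z, C, hκ, hZ, hC, H⟩ := ext h hr hun
  obtain ⟨k, ε₃, ε₀, N₁, hk, hk1, h3, h0, HD⟩ := thmD hκ hC hZ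
  obtain ⟨R₁, N₂, hR₁, HC⟩ := thmC hκ hC hZ hk hk1 h3 h0
  obtain ⟨N, T', v, p', t₀, hN, hx, hext⟩ := H (R₁ ^ 2) (max N₁ N₂) (by positivity)
  obtain ⟨ε, he, he0, hle⟩ := HC N T' v p' t₀ ((le_max_right _ _).trans hN) hx
  have hm : t₀ ∈ Icc (t₀ - R₁ ^ 2) t₀ := ⟨by nlinarith [sq_nonneg R₁], le_rfl⟩
  have h1 := hx.en t₀ hm 1 one_pos
  have h2 := HD N (v t₀) ((le_max_left _ _).trans hN) (hx.sl t₀ hm) (by simpa using h1) hext R₁ ε hR₁ he he0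
  linarith

end Pool.Agent.H16.TU
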